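import Pool.Agent.W_3fea_h44.Logic

/-!
# Auxiliary rules
-/

namespace TL

theorem Tri.lf' {s : St} {c : Cmd} {B : ℕ} {Q : St → Prop} (h : c.lf = true) (hQ : Q (c.ex s))
    (hB : c.mc ≤ B) : Tri s c B Q := (Tri.lf h hQ).cost hB

theorem Run.append {l1 l2 : List Cmd} {s s1 s2 : St} {t u : ℕ} (h : Run (.blk l1) s t s1)
    (h' : Run (.blk l2) s1 u s2) : ∃ v, v + 1 = t + u ∧ Run (.blk (l1 ++ l2)) s v s2 := by
  induction l1 generalizing s t with
  | nil =>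
    cases h
    exact ⟨u, by omega, h'⟩
  | cons c l ih =>
    cases h with
    | @seq _ _ _ s3 _ t1 t2 a b =>
      obtain ⟨v, hv, hr⟩ := ih b
      exact ⟨t1 + v, by omega, Run.seq a hr⟩

theorem Run.pos {c : Cmd} {s s' : St} {t : ℕ} (h : Run c s t s') : 1 ≤ t := by
  induction h <;> omega

/-- a loop-free prefix of a block -/
theorem Tri.pre (i : ℕ) {s : St} {l : List Cmd} {B : ℕ} {Q : St → Prop}
    (h : (Cmd.blk (l.take i)).lf = true)
    (hQ : ∀ s1, s1 = (Cmd.blk (l.take i)).ex s →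
      Fr (Cmd.blk (l.take i)).wr (Cmd.blk (l.take i)).wa s s1 → Tri s1 (.blk (l.drop i)) B Q) :
    Tri s (.blk l) ((Cmd.blk (l.take i)).mc + B) Q := by
  obtain ⟨t, ht, h1⟩ := (Cmd.blk (l.take i)).lf_run s h
  obtain ⟨s2, u, h2, hu, hq⟩ := hQ _ rfl h1.frame
  obtain ⟨v, hv, h3⟩ := Run.append h1 h2
  rw [List.take_append_drop] at h3
  exact ⟨s2, v, h3, by omega, hq⟩

/-- a loop-free prefix of a block, time in the post-condition -/
theorem Trt.pre (i : ℕ) {s : St} {l : List Cmd} {Q : ℕ → St → Prop}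
    (h : (Cmd.blk (l.take i)).lf = true)
    (hQ : ∀ s1, s1 = (Cmd.blk (l.take i)).ex s →
      Fr (Cmd.blk (l.take i)).wr (Cmd.blk (l.take i)).wa s s1 →
      ∀ t, t ≤ (Cmd.blk (l.take i)).mc → Trt s1 (.blk (l.drop i)) (fun u s' => Q (t + u) s')) :
    Trt s (.blk l) Q := by
  obtain ⟨t, ht, h1⟩ := (Cmd.blk (l.take i)).lf_run s h
  obtain ⟨s2, u, h2, hq⟩ := hQ _ rfl h1.frame (t - 1) (by omega)
  obtain ⟨v, hv, h3⟩ := Run.append h1 h2
  rw [List.take_append_drop] at h3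
  have ht1 : 1 ≤ t := h1.pos
  have : v = t - 1 + u := by omega
  subst this
  exact ⟨s2, _, h3, hq⟩

/-- splitting of a block -/
theorem Tri.app (i : ℕ) {s : St} {l : List Cmd} {B1 B2 : ℕ} {Q : St → Prop}
    (h : Tri s (.blk (l.take i)) B1 (fun s1 => Tri s1 (.blk (l.drop i)) B2 Q)) :
    Tri s (.blk l) (B1 + B2) Q := by
  obtain ⟨s1, t, h1, ht, s2, u, h2, hu, hq⟩ := h
  obtain ⟨v, hv, h3⟩ := Run.append h1 h2
  rw [List.take_append_drop] at h3
  exact ⟨s2, v, h3, by omega, hq⟩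

/-- splitting of a block, time in the post-condition -/
theorem Trt.app (i : ℕ) {s : St} {l : List Cmd} {B1 : ℕ} {R : St → Prop} {Q : ℕ → St → Prop}
    (h : Tri s (.blk (l.take i)) B1 R)
    (h' : ∀ s1 t, R s1 → t ≤ B1 → Trt s1 (.blk (l.drop i)) (fun u s2 => Q (t + u) s2)) :
    Trt s (.blk l) Q := by
  obtain ⟨s1, t, h1, ht, hr⟩ := h
  obtain ⟨s2, u, h2, hq⟩ := h' s1 (t - 1) hr (by omega)
  obtain ⟨v, hv, h3⟩ := Run.append h1 h2
  rw [List.take_append_drop] at h3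
  have ht1 : 1 ≤ t := h1.pos
  have : v = t - 1 + u := by omega
  subst this
  exact ⟨s2, _, h3, hq⟩

theorem Cmd.ex_fr {c : Cmd} (h : c.lf = true) (s : St) : Fr c.wr c.wa s (c.ex s) := by
  obtain ⟨t, _, h1⟩ := c.lf_run s h
  exact h1.frame

theorem Fr.setR {wr wa : List ℕ} {s s' : St} (h : Fr wr wa s s') {x v : ℕ} (hx : x ∈ wr) :
    Fr wr wa s (s'.setR x v) := by
  refine ⟨fun y hy => ?_, fun a ha => h.m a ha⟩
  rw [St.setR_r, if_neg (fun h' : y = x => hy (h' ▸ hx))]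
  exact h.r y hy

theorem Fr.setM {wr wa : List ℕ} {s s' : St} (h : Fr wr wa s s') {a i v : ℕ} (ha : a ∈ wa) :
    Fr wr wa s (s'.setM a i v) := by
  refine ⟨fun y hy => h.r y hy, fun b hb => ?_⟩
  rw [St.setM_m, if_neg (fun h' : b = a => hb (h' ▸ ha))]
  exact h.m b hb

/-- extend the frame by a loop-free program -/
theorem Fr.ex {wr wa : List ℕ} {s s' : St} (h : Fr wr wa s s') {c : Cmd} (hc : c.lf = true)
    (h1 : ∀ x ∈ c.wr, x ∈ wr) (h2 : ∀ x ∈ c.wa, x ∈ wa) : Fr wr wa s (c.ex s') :=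
  h.trans ((Cmd.ex_fr hc s').mono h1 h2)

theorem seg_push (f : ℕ → ℕ) {i j v : ℕ} (h : i ≤ j) :
    seg (Function.update f j v) i (j + 1) = seg f i j ++ [v] := by
  rw [seg_succ _ h, Function.update_self]
  congr 1
  exact seg_update (Or.inr le_rfl)

end TL
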