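import Pool.Agent.W_3fea_h44.BoundDefs

/-! # The running time of the search is linear in `n + m`, `|A|` and `τ` -/

namespace TL

open Relation Finset Classical

theorem Bound1_geom (a : ℕ) (ha : 1 ≤ a) (m : ℕ) : ∑ i ∈ range m, a ^ i ≤ (a + 1) ^ m := by
  induction m with
  | zero => simp
  | succ m ih =>
    rw [sum_range_succ, pow_succ]
    have h1 : a ^ m ≤ (a + 1) ^ m := Nat.pow_le_pow_left (by omega) m
    have h2 : (a + 1) ^ m ≤ (a + 1) ^ m * a := Nat.le_mul_of_pos_right _ ha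
    calc ∑ i ∈ range m, a ^ i + a ^ m ≤ (a + 1) ^ m + (a + 1) ^ m * a := by omega
      _ = _ := by ring

theorem wt_le (k : ℕ) : wt k 0 ≤ sg k := by
  have := Bound1_geom (4 * k + 4) (by omega) (k + 1)
  simpa [wt, sg] using this

theorem sbd_le {n m k : ℕ} {D : St} (hng : D.r rng ≤ 4 * gg k) (hnn : D.r rnn ≤ fnn k)
    (hnK : D.r rnK ≤ fK k) (hnT : D.r rnT ≤ fT k) :
    sbd n m k D ≤ 1000 * (n + 2 * m) + sA k * D.r rnA + sB k * D.r rtau + sC k := by
  have hw := wt_le k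
  have h1 : sbd n m k D ≤ 100 + sg k * ((200 * ((k + 1) * (D.r rnA + 1)) +
      1000 * ((k + 2) * (sg k + 3)) * (2 * D.r rnA + 1) +
      500 * (fnn k + fK k + 1) * (4 * gg k) +
      (500 * (4 * k + 6) * (D.r rtau + fK k + 5 * k + 6) +
        1000 * ((4 * k + 2) * (D.r rtau + 1) + (k + 1) * (4 * k + 2)) +
        500 * ((2 * k + 1) * (8 * k + 4)) * (D.r rtau + 6 * k + 5) +
        1000 * (D.r rtau + 6 * k + 6)) +
      2 * (500 * (4 * k + 6) * (D.r rtau + fK k + 5 * k + 6)) +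
      200 * (k + 1) + k * (D.r rtau * (lc k + 200)) +
      (fT k + 1) * (lc k + 200 * (fnn k + k + 2)) + 50 * (k + 1) + 100) + 100) +
      (1000 * (n + 2 * m) + 1000 * ((k + 1) * (4 * k + 2)) * D.r rnA +
        sg k * (k * sg k) * (1000 * ((4 * k + 2) * (D.r rtau + 1) + (k + 1) * (4 * k + 2)))) := by
    unfold sbd nbd bb bc e1 xn
    gcongr
  refine h1.trans (le_of_eq ?_)
  unfold sA sB sC
  ring

end TL
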