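import Pool.Agent.W_3fea_h44.BoundDefs

/-! # The thresholds are large enough -/

namespace TL

open Relation Finset Classical

theorem Bound2_lin (k : ℕ) : 4 * k + 5 ≤ 2 ^ (k + 3) := by
  induction k with
  | zero => norm_num
  | succ k ih =>
    have h : 2 ^ (k + 1 + 3) = 2 * 2 ^ (k + 3) := by ring
    omega

theorem Bound2_quad (k : ℕ) : (k + 1) * (2 * k + 7) + 14 ≤ 2 ^ (k + 5) := by
  induction k with
  | zero => norm_num
  | succ k ih =>
    have h : 2 ^ (k + 1 + 5) = 2 * 2 ^ (k + 5) := by ring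
    rw [h]
    nlinarith

theorem Bound2_sg (k : ℕ) : sg k ≤ 2 ^ ((k + 3) * (k + 1)) := by
  unfold sg
  rw [pow_mul]
  exact Nat.pow_le_pow_left (Bound2_lin k) _

theorem Bound2_k2 (k : ℕ) : k + 2 ≤ 2 ^ (k + 1) := by
  induction k with
  | zero => norm_num
  | succ k ih =>
    have h : 2 ^ (k + 1 + 1) = 2 * 2 ^ (k + 1) := by ring
    omega

theorem Bound2_sg5 (k : ℕ) : 4 * k + 5 ≤ sg k := by
  unfold sg
  calc 4 * k + 5 = (4 * k + 5) ^ 1 := (pow_one _).symm
    _ ≤ _ := Nat.pow_le_pow_right (by omega) (by omega)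

/-- `δ(k)` is larger than the coefficient of `|A|` -/
theorem sA_le (k : ℕ) : sA k ≤ dl k := by
  have h5 := Bound2_sg5 k
  have h1 : sA k ≤ 2 ^ 14 * (k + 2) * (sg k * sg k) := by
    unfold sA
    generalize sg k = g at *
    have e1 : g * 1 ≤ g * g := Nat.mul_le_mul_left g (by omega)
    have e2 : (k + 1) * (4 * k + 2) ≤ (k + 2) * (g * g) :=
      Nat.mul_le_mul (by omega) (by nlinarith)
    have e3 : g * (k + 1) ≤ (k + 2) * (g * g) := by nlinarith
    have e4 : g * ((k + 2) * (g + 3)) ≤ (k + 2) * (g * g) * 4 := by nlinarith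
    nlinarith
  refine h1.trans ?_
  have h2 := Bound2_sg k
  have h3 := Bound2_k2 k
  calc 2 ^ 14 * (k + 2) * (sg k * sg k) ≤
        2 ^ 14 * 2 ^ (k + 1) * (2 ^ ((k + 3) * (k + 1)) * 2 ^ ((k + 3) * (k + 1))) := by gcongr
    _ = 2 ^ ((k + 1) * (2 * k + 7) + 14) := by
        rw [← pow_add, ← pow_add, ← pow_add]
        congr 1
        ring
    _ ≤ dl k := by
        unfold dl
        refine Nat.pow_le_pow_right (by omega) ((Bound2_quad k).trans ?_)
        exact Nat.pow_le_pow_right (by omega) (by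
          have : cdel = 20 := rfl
          omega)

/-- `g(k)` is larger than the coefficient of `τ` -/
theorem sB_le (k : ℕ) : sB k ≤ gg k := by
  have hA := sA_le k
  have h5 := Bound2_sg5 k
  have hd1 : sg k ≤ dl k := by
    refine le_trans ?_ hA
    unfold sA
    nlinarith [Nat.zero_le (sg k * (k * 200)), Nat.zero_le (sg k * ((k + 2) * (sg k + 3)))]
  have hd2 : 8 * k + 8 ≤ dl k := by
    refine le_trans ?_ hA
    unfold sA
    nlinarith [Nat.zero_le (sg k * (200 * (k + 1) + 2000 * ((k + 2) * (sg k + 3))))]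
  have hd3 : 10000 ≤ dl k := by
    refine le_trans ?_ hA
    unfold sA
    have : 5 * (2000 * (2 * 5)) ≤ sg k * (2000 * ((k + 2) * (sg k + 3))) :=
      Nat.mul_le_mul (by omega) (Nat.mul_le_mul_left _ (Nat.mul_le_mul (by omega) (by omega)))
    nlinarith
  have hgg : gg k = dl k ^ (2 ^ 20) := by
    unfold gg dl
    rw [← pow_mul, ← pow_add, show k + cg = k + cdel + 20 from rfl]
  have hlc : lc k ≤ dl k ^ 7 := by
    unfold lc
    generalize dl k = d at *
    calc 10000 * (8 * k + 8) ^ 3 * (d + k + 2) ^ 2 ≤ 10000 * d ^ 3 * (2 * d) ^ 2 := by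
          have : d + k + 2 ≤ 2 * d := by omega
          gcongr
      _ = (10000 * 4) * d ^ 5 := by ring
      _ ≤ (d * d) * d ^ 5 := Nat.mul_le_mul_right _ (by nlinarith)
      _ = d ^ 7 := by ring
  rw [hgg]
  unfold sB
  generalize dl k = d at *
  generalize lc k = l at *
  generalize sg k = g at *
  clear hA hgg
  have hk : k ≤ d := by omega
  have hk4 : 4 * k + 4 ≤ d := by omega
  have hd0 : 0 < d := by omega
  have f1 : 3 * (500 * (4 * k + 6)) ≤ d ^ 2 := by nlinarith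
  have f2 : 1000 * (4 * k + 2) ≤ d ^ 2 := by nlinarith
  have f3 : 500 * ((2 * k + 1) * (8 * k + 4)) ≤ d ^ 3 := by
    calc 500 * ((2 * k + 1) * (8 * k + 4)) ≤ d * (d * d) :=
          Nat.mul_le_mul (by omega) (Nat.mul_le_mul (by omega) (by omega))
      _ = d ^ 3 := by ring
  have f4 : k * (l + 200) ≤ 2 * d ^ 8 := by
    have g1 : 200 ≤ d ^ 7 := le_trans (by omega) (Nat.le_self_pow (by norm_num) d)
    calc k * (l + 200) ≤ d * (d ^ 7 + d ^ 7) := Nat.mul_le_mul hk (by omega)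
      _ = 2 * d ^ 8 := by ring
  have p1 : d ^ 2 ≤ d ^ 8 := Nat.pow_le_pow_right hd0 (by norm_num)
  have p2 : d ^ 3 ≤ d ^ 8 := Nat.pow_le_pow_right hd0 (by norm_num)
  have p3 : d ≤ d ^ 8 := Nat.le_self_pow (by norm_num) d
  have f5 : 3 * (500 * (4 * k + 6)) + 1000 * (4 * k + 2) + 500 * ((2 * k + 1) * (8 * k + 4)) +
      1000 + k * (l + 200) ≤ 6 * d ^ 8 := by
    have g1 := f1.trans p1
    have g2 := f2.trans p1
    have g3 := f3.trans p2
    have g5 : 1000 ≤ d ^ 8 := le_trans (le_trans (by norm_num) hd3) p3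
    clear f1 f2 f3 p1 p2 p3 hlc
    linarith
  have f6 : g * (k * g) * (1000 * (4 * k + 2)) ≤ d ^ 8 := by
    calc g * (k * g) * (1000 * (4 * k + 2)) ≤ d * (d * d) * d ^ 2 :=
          Nat.mul_le_mul (Nat.mul_le_mul hd1 (Nat.mul_le_mul hk hd1)) f2
      _ = d ^ 5 := by ring
      _ ≤ d ^ 8 := Nat.pow_le_pow_right hd0 (by norm_num)
  calc g * (3 * (500 * (4 * k + 6)) + 1000 * (4 * k + 2) + 500 * ((2 * k + 1) * (8 * k + 4)) +
        1000 + k * (l + 200)) + g * (k * g) * (1000 * (4 * k + 2)) ≤ d * (6 * d ^ 8) + d ^ 8 :=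
        Nat.add_le_add (Nat.mul_le_mul hd1 f5) f6
    _ ≤ d ^ 10 := by
        have q1 : 7 * d ^ 9 ≤ d * d ^ 9 := Nat.mul_le_mul_right _ (le_trans (by norm_num) hd3)
        have q2 : d ^ 8 ≤ d ^ 9 := Nat.pow_le_pow_right hd0 (by norm_num)
        have q3 : d * (6 * d ^ 8) = 6 * d ^ 9 := by ring
        have q4 : d * d ^ 9 = d ^ 10 := by ring
        linarith
    _ ≤ d ^ (2 ^ 20) := by
        have h20 : 10 ≤ 2 ^ 20 := by norm_num
        generalize 2 ^ 20 = e at h20 ⊢
        exact Nat.pow_le_pow_right hd0 h20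

end TL
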