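import Pool.Agent.W_3fea_h44.BoundDefs

/-! # `ff` is computable -/

namespace TL

open Relation Finset Classical

theorem Bound3_add {f g : ℕ → ℕ} (hf : Primrec f) (hg : Primrec g) :
    Primrec (fun k => f k + g k) := Primrec.nat_add.comp hf hg

theorem Bound3_mul {f g : ℕ → ℕ} (hf : Primrec f) (hg : Primrec g) :
    Primrec (fun k => f k * g k) := Primrec.nat_mul.comp hf hg

theorem Bound3_pow {f g : ℕ → ℕ} (hf : Primrec f) (hg : Primrec g) :
    Primrec (fun k => f k ^ g k) := by
  have h : Primrec₂ (fun a b : ℕ => a ^ b) := Primrec₂.unpaired'.1 Nat.Primrec.pow
  exact h.comp hf hg

theorem Bound3_c (c : ℕ) : Primrec (fun _ : ℕ => c) := Primrec.const c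

theorem Bound3_id : Primrec (fun k : ℕ => k) := Primrec.id

theorem Bound3_gg : Primrec (fun k => gg k) := by
  unfold gg
  exact Bound3_pow (Bound3_c _) (Bound3_pow (Bound3_c _) (Bound3_add Bound3_id (Bound3_c _)))

theorem Bound3_dl : Primrec (fun k => dl k) := by
  unfold dl
  exact Bound3_pow (Bound3_c _) (Bound3_pow (Bound3_c _) (Bound3_add Bound3_id (Bound3_c _)))

theorem Bound3_fnn : Primrec (fun k => fnn k) := by
  unfold fnn
  exact Bound3_mul (Bound3_add (Bound3_mul (Bound3_c _) Bound3_gg) (Bound3_c _))
    (Bound3_pow (Bound3_c _) (Bound3_mul (Bound3_c _) Bound3_gg))

theorem Bound3_fK : Primrec (fun k => fK k) := by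
  unfold fK
  repeat' first
    | with_reducible exact Bound3_fnn
    | with_reducible exact Bound3_id
    | with_reducible exact Bound3_c _
    | with_reducible apply Bound3_mul
    | with_reducible apply Bound3_add

theorem Bound3_fT : Primrec (fun k => fT k) := by
  unfold fT
  repeat' first
    | with_reducible exact Bound3_fnn
    | with_reducible exact Bound3_id
    | with_reducible exact Bound3_c _
    | with_reducible apply Bound3_mul
    | with_reducible apply Bound3_add

theorem Bound3_sg : Primrec (fun k => sg k) := by
  unfold sg
  repeat' first
    | with_reducible exact Bound3_id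
    | with_reducible exact Bound3_c _
    | with_reducible apply Bound3_mul
    | with_reducible apply Bound3_add
    | with_reducible apply Bound3_pow

theorem Bound3_lc : Primrec (fun k => lc k) := by
  unfold lc
  repeat' first
    | with_reducible exact Bound3_dl
    | with_reducible exact Bound3_id
    | with_reducible exact Bound3_c _
    | with_reducible apply Bound3_mul
    | with_reducible apply Bound3_add
    | with_reducible apply Bound3_pow

theorem Bound3_sB : Primrec (fun k => sB k) := by
  unfold sB
  repeat' first
    | with_reducible exact Bound3_sg
    | with_reducible exact Bound3_lc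
    | with_reducible exact Bound3_id
    | with_reducible exact Bound3_c _
    | with_reducible apply Bound3_mul
    | with_reducible apply Bound3_add

theorem Bound3_sC : Primrec (fun k => sC k) := by
  unfold sC
  repeat' first
    | with_reducible exact Bound3_sg
    | with_reducible exact Bound3_lc
    | with_reducible exact Bound3_fnn
    | with_reducible exact Bound3_fK
    | with_reducible exact Bound3_fT
    | with_reducible exact Bound3_gg
    | with_reducible exact Bound3_id
    | with_reducible exact Bound3_c _
    | with_reducible apply Bound3_mul
    | with_reducible apply Bound3_add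

theorem Bound3_fc : Primrec (fun k => fc k) := by
  unfold fc
  repeat' first
    | with_reducible exact Bound3_gg
    | with_reducible exact Bound3_dl
    | with_reducible exact Bound3_id
    | with_reducible exact Bound3_c _
    | with_reducible apply Bound3_mul
    | with_reducible apply Bound3_add
    | with_reducible apply Bound3_pow

theorem ff_computable : Computable ff := by
  have h : Primrec (fun k => ff k) := by
    unfold ff
    repeat' first
      | with_reducible exact Bound3_fc
      | with_reducible exact Bound3_fnn
      | with_reducible exact Bound3_sC
      | with_reducible exact Bound3_sB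
      | with_reducible exact Bound3_dl
      | with_reducible exact Bound3_id
      | with_reducible exact Bound3_c _
      | with_reducible apply Bound3_mul
      | with_reducible apply Bound3_add
  exact h.to_comp

end TL
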