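import Pool.Agent.W_3fea_h44.Repr

/-! # Specification of `pConst` -/

namespace TL

open Relation Finset Classical

/-- cost of the computation of the thresholds -/
def fc (k : ℕ) : ℕ :=
  2000 * (gg k + dl k + 2 ^ (k + cg) + 2 ^ (k + cdel) + (4 * k + 1) * (4 * k + 2) + 1)

/-- `for p := 0, …, hi - 1 do x := x + 1` -/
theorem incrLoop {p hi x : ℕ} {s : St} {N : ℕ} (hN : s.r hi = N) (h1 : p ≠ hi) (h2 : x ≠ p)
    (h3 : x ≠ hi) :
    Tri s (.for_ p (K 0) hi (.incr x)) (6 + 10 * N) (fun s' => s'.r x = s.r x + N) := by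
  refine (Tri.forC (fun j s' => s'.r x = s.r x + j) 3 h1 (a := 0) rfl hN (Nat.zero_le _) ?_ ?_
    ?_).cost ?_
  · simp [h2]
  · intro j _ _ s1 hI hp hh
    refine Tri.set ⟨?_, ?_, ?_⟩ (by simp [Exp.cost])
    · simp [h2, hI]; omega
    · simp [h2.symm, hp]
    · simp [h3.symm, hh]
  · intro s' h _ _
    exact h
  · simp only [Exp.cost]; omega

theorem pInc_spec (x : ℕ) : ∀ (c : ℕ) (s : St),
    Tri s (pInc x c) (3 * c + 1) (fun s' => s'.r x = s.r x + c)
  | 0, s => Tri.skip rfl (by omega)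
  | c + 1, s => by
    refine Tri.seq (B1 := 3) (B2 := 3 * c + 1) (Tri.set ?_ (by simp [Exp.cost])) (by omega)
    refine (pInc_spec x c _).imp ?_
    intro s' h
    rw [h]
    simp
    omega

theorem pPow_spec {x y : ℕ} {s : St} {e : ℕ} (hx : s.r x = e) (hxy : x ≠ y)
    (h1 : x ≠ ri ∧ x ≠ rj ∧ x ≠ rt1) (h2 : y ≠ ri ∧ y ≠ rj ∧ y ≠ rt1) :
    Tri s (pPow x y) (100 * 2 ^ e) (fun s' => s'.r y = 2 ^ e) := by
  obtain ⟨h1a, h1b, h1c⟩ := h1
  obtain ⟨h2a, h2b, h2c⟩ := h2
  have hloop : ∀ s : St, s.r x = e → s.r y = 1 →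
      Tri s (.for_ ri (K 0) x (.blk [.set rt1 (V y), .for_ rj (K 0) rt1 (.incr y)]))
        (6 + ∑ j ∈ Finset.Ico 0 e, (9 + 10 * 2 ^ j + 7)) (fun s' => s'.r y = 2 ^ e) := by
    intro s hs hs1
    refine (Tri.forI (fun j s' => s'.r y = 2 ^ j) (fun j => 9 + 10 * 2 ^ j) (a := 0) (N := e)
      h1a.symm rfl hs (Nat.zero_le _) ?_ ?_ ?_).cost ?_
    · simp [h2a, hs1]
    · intro j _ _ s1 hI hp hh
      refine Tri.cons (B1 := 2) (B2 := 7 + 10 * 2 ^ j) (Tri.set ?_ (by simp [Exp.cost])) (by omega)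
      have h3 := (incrLoop (p := rj) (hi := rt1) (x := y) (s := s1.setR rt1 ((V y).ev s1))
        (N := 2 ^ j) (by simp [hI]) (by decide) h2b h2c).fr
      refine Tri.cons (B1 := 6 + 10 * 2 ^ j) (B2 := 1) ?_ (by omega)
      refine h3.imp ?_
      rintro s2 ⟨k1, k2⟩
      refine Tri.nil ⟨?_, ?_, ?_⟩ le_rfl
      · simp only [St.setR_r, if_neg h2a]
        rw [k1]
        simp only [St.setR_r, if_neg h2c, hI]
        rw [pow_succ]; ring
      · rw [k2.r ri (by simp [Cmd.for_, Cmd.wr, h2a.symm])]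
        simp [hp]
      · rw [k2.r x (by simp [Cmd.for_, Cmd.wr, hxy, h1b])]
        simp [h1c, hh]
    · intro s' h _ _
      exact h
    · simp only [Exp.cost]; omega
  refine Tri.cons (B1 := 2) (B2 := 6 + ∑ j ∈ Finset.Ico 0 e, (9 + 10 * 2 ^ j + 7) + 1)
    (Tri.set ?_ (by simp [Exp.cost])) ?_
  · refine Tri.cons (B1 := 6 + ∑ j ∈ Finset.Ico 0 e, (9 + 10 * 2 ^ j + 7)) (B2 := 1) ?_ le_rfl
    refine (hloop _ (by simp [hxy, hx]) (by simp)).imp ?_
    intro s' h
    exact Tri.nil h le_rfl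
  · have h3 : ∑ j ∈ Finset.Ico 0 e, (9 + 10 * 2 ^ j + 7) + 10 = 16 * e + 10 * 2 ^ e := by
      clear hx hloop
      induction e with
      | zero => simp
      | succ e ih =>
        rw [Finset.sum_Ico_succ_top (Nat.zero_le _), pow_succ]
        omega
    have h4 : e < 2 ^ e := Nat.lt_two_pow_self
    omega

/-- the counting loop for `θ` -/
theorem theta_loop {hi : ℕ} {s : St} {N T g : ℕ} (hN : s.r hi = N) (h1 : ri ≠ hi) (h2 : rcn ≠ hi)
    (h3 : rth ≠ hi) (hg : s.r rg = g) (hT : s.r rth * g + s.r rcn = T) (hc : s.r rcn < g) :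
    Tri s (.for_ ri (K 0) hi (.blk [.incr rcn,
      .whn (.eq (V rcn) (V rg)) (.blk [.set rcn (K 0), .incr rth])])) (6 + 21 * N)
      (fun s' => s'.r rth * g + s'.r rcn = T + N ∧ s'.r rcn < g) := by
  refine (Tri.forC (fun j s' => s'.r rth * g + s'.r rcn = T + j ∧ s'.r rcn < g ∧ s'.r rg = g) 14 h1
    (a := 0) rfl hN (Nat.zero_le _) ?_ ?_ ?_).cost ?_
  · simp [hT, hc, hg]
  · intro j _ _ s1 hI hp hh
    obtain ⟨i1, i2, i3⟩ := hI
    refine (Tri.lf (by decide) ?_).cost (by simp [Cmd.mc, Exp.cost, Cond.cost])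
    simp only [Cmd.ex_cons, Cmd.ex_nil, Cmd.ex_set, Cmd.ex_ite, Cond.ev_eq, Exp.ev_reg,
      decide_eq_true_eq, Exp.ev_const, Exp.ev_inc]
    by_cases h : s1.r rcn + 1 = g
    · rw [if_pos (by simp [h, i3])]
      refine ⟨⟨?_, ?_, ?_⟩, ?_, ?_⟩
      · have : (s1.r rth + 1) * g = s1.r rth * g + g := by ring
        simp
        omega
      · simp; omega
      · simp [i3]
      · simp [hp]
      · simp [h2.symm, h3.symm, hh]
    · rw [if_neg (by simp [h, i3])]
      refine ⟨⟨?_, ?_, ?_⟩, ?_, ?_⟩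
      · simp
        omega
      · simp
        omega
      · simp [i3]
      · simp [hp]
      · simp [h2.symm, hh]
  · rintro s' ⟨h, h', _⟩ _ _
    exact ⟨h, h'⟩
  · simp only [Exp.cost]; omega

theorem quadLoop {s : St} {k : ℕ} (hN : s.r rk = k) :
    Tri s (.for_ ri (K 0) rk (pInc rq 4)) (6 + 20 * k) (fun s' => s'.r rq = s.r rq + 4 * k) := by
  refine (Tri.forC (fun j s' => s'.r rq = s.r rq + 4 * j) 13 (by decide) (a := 0) rfl hN
    (Nat.zero_le _) ?_ ?_ ?_).cost ?_
  · simp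
  · intro j _ _ s1 hI hp hh
    refine (pInc_spec rq 4 s1).fr.mono (by omega) ?_
    rintro s2 ⟨k1, k2⟩
    refine ⟨?_, ?_, ?_⟩
    · simp only [St.setR_r]
      rw [if_neg (by decide), k1, hI]
      omega
    · rw [k2.r ri (by decide), hp]
    · rw [k2.r rk (by decide), hh]
  · intro s' h _ _
    exact h
  · simp only [Exp.cost]; omega

theorem sqLoop {s : St} {a b : ℕ} (ha : s.r rq = a) (hb : s.r rz = b) :
    Tri s (.for_ ri (K 0) rq (.for_ rj (K 0) rz (.incr rqq))) (6 + a * (13 + 10 * b))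
      (fun s' => s'.r rqq = s.r rqq + a * b) := by
  refine (Tri.forC (fun j s' => s'.r rqq = s.r rqq + j * b ∧ s'.r rz = b) (6 + 10 * b) (by decide)
    (a := 0) rfl ha (Nat.zero_le _) ?_ ?_ ?_).cost ?_
  · simp [hb]
  · intro j _ _ s1 hI hp hh
    refine (incrLoop (p := rj) (hi := rz) (x := rqq) (s := s1) hI.2 (by decide) (by decide)
      (by decide)).fr.mono (by omega) ?_
    rintro s2 ⟨k1, k2⟩
    refine ⟨⟨?_, ?_⟩, ?_, ?_⟩
    · simp only [St.setR_r]
      rw [if_neg (by decide), k1, hI.1]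
      ring
    · simp only [St.setR_r]
      rw [if_neg (by decide), k2.r rz (by decide), hI.2]
    · rw [k2.r ri (by decide), hp]
    · rw [k2.r rq (by decide), hh]
  · intro s' h _ _
    exact h.1
  · simp only [Exp.cost]
    have : (a - 0) * (6 + 10 * b + 7) = a * (13 + 10 * b) := by
      rw [Nat.sub_zero]; ring
    omega

/-- `pConst`, first part: `δ` and `g` -/
theorem pConst1 {k : ℕ} {s : St} {l : List Cmd} {B : ℕ} {Q : St → Prop} (hk : s.r rk = k)
    (h : ∀ s', Fr [ru, rv, ri, rj, rt1, rdel, rg] [] s s' → s'.r rdel = dl k → s'.r rg = gg k →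
      Tri s' (.blk l) B Q) :
    Tri s (.blk (.set ru (V rk) :: pInc ru cdel :: pPow ru rv :: pPow rv rdel ::
      .set ru (V rk) :: pInc ru cg :: pPow ru rv :: pPow rv rg :: l))
      (186 + 100 * (gg k + dl k + 2 ^ (k + cg) + 2 ^ (k + cdel)) + B) Q := by
  obtain ⟨s1, t1, e1, c1, q1⟩ : Tri s (.set ru (V rk)) 2 (fun s' => s'.r ru = k) :=
    Tri.set (by simp [hk]) (by simp [Exp.cost])
  have f1 := e1.frame
  obtain ⟨s2, t2, e2, c2, q2⟩ := pInc_spec ru cdel s1
  have f2 := e2.frame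
  rw [q1] at q2
  obtain ⟨s3, t3, e3, c3, q3⟩ := pPow_spec (x := ru) (y := rv) q2 (by decide) (by decide) (by decide)
  have f3 := e3.frame
  obtain ⟨s4, t4, e4, c4, q4⟩ := pPow_spec (x := rv) (y := rdel) q3 (by decide) (by decide)
    (by decide)
  have f4 := e4.frame
  obtain ⟨s5, t5, e5, c5, q5⟩ : Tri s4 (.set ru (V rk)) 2 (fun s' => s'.r ru = k) :=
    Tri.set (by
      simp only [St.setR_r, if_true, Exp.ev_reg]
      rw [f4.r rk (by decide), f3.r rk (by decide), f2.r rk (by decide), f1.r rk (by decide), hk])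
      (by simp [Exp.cost])
  have f5 := e5.frame
  obtain ⟨s6, t6, e6, c6, q6⟩ := pInc_spec ru cg s5
  have f6 := e6.frame
  rw [q5] at q6
  obtain ⟨s7, t7, e7, c7, q7⟩ := pPow_spec (x := ru) (y := rv) q6 (by decide) (by decide) (by decide)
  have f7 := e7.frame
  obtain ⟨s8, t8, e8, c8, q8⟩ := pPow_spec (x := rv) (y := rg) q7 (by decide) (by decide)
    (by decide)
  have f8 := e8.frame
  have hfr : Fr [ru, rv, ri, rj, rt1, rdel, rg] [] s s8 :=
    (((((((f1.mono (by decide) (by decide)).trans (f2.mono (by decide) (by decide))).trans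
      (f3.mono (by decide) (by decide))).trans (f4.mono (by decide) (by decide))).trans
      (f5.mono (by decide) (by decide))).trans (f6.mono (by decide) (by decide))).trans
      (f7.mono (by decide) (by decide))).trans (f8.mono (by decide) (by decide))
  have hdel : s8.r rdel = dl k := by
    rw [f8.r rdel (by decide), f7.r rdel (by decide), f6.r rdel (by decide), f5.r rdel (by decide),
      q4, dl]
  obtain ⟨s9, t9, e9, c9, q9⟩ := h s8 hfr hdel (by rw [q8, gg])
  refine ⟨s9, _, Run.cons e1 (Run.cons e2 (Run.cons e3 (Run.cons e4 (Run.cons e5 (Run.cons e6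
    (Run.cons e7 (Run.cons e8 e9))))))), ?_, q9⟩
  have h1 : dl k = 2 ^ 2 ^ (k + cdel) := by rw [dl]
  have h2 : gg k = 2 ^ 2 ^ (k + cg) := by rw [gg]
  rw [← h1] at c4
  rw [← h2] at c8
  simp only [cdel, cg] at *
  omega

/-- `pConst`, second part: `q`, `qq`, `D` -/
theorem pConst2 {k : ℕ} {s : St} {l : List Cmd} {B : ℕ} {Q : St → Prop} (hk : s.r rk = k)
    (h : ∀ s', Fr [rq, ri, rz, rqq, rj, rD] [] s s' → s'.r rq = 4 * k →
      s'.r rqq = 4 * k * (4 * k + 1) → s'.r rD = s.r rdel + k → Tri s' (.blk l) B Q) :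
    Tri s (.blk (.set rq (K 0) :: .for_ ri (K 0) rk (pInc rq 4) :: .set rz (.inc (V rq)) ::
      .set rqq (K 0) :: .for_ ri (K 0) rq (.for_ rj (K 0) rz (.incr rqq)) ::
      .set rD (V rdel) :: .for_ ri (K 0) rk (.incr rD) :: l))
      (27 + 30 * k + 4 * k * (13 + 10 * (4 * k + 1)) + B) Q := by
  obtain ⟨s1, t1, e1, c1, q1⟩ : Tri s (.set rq (K 0)) 2 (fun s' => s'.r rq = 0) :=
    Tri.set (by simp) (by simp [Exp.cost])
  have f1 := e1.frame
  have k1 : s1.r rk = k := by rw [f1.r rk (by decide), hk]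
  obtain ⟨s2, t2, e2, c2, q2⟩ := quadLoop k1
  have f2 := e2.frame
  rw [q1, Nat.zero_add] at q2
  obtain ⟨s3, t3, e3, c3, q3⟩ : Tri s2 (.set rz (.inc (V rq))) 3 (fun s' => s'.r rz = 4 * k + 1) :=
    Tri.set (by simp [q2]) (by simp [Exp.cost])
  have f3 := e3.frame
  obtain ⟨s4, t4, e4, c4, q4⟩ : Tri s3 (.set rqq (K 0)) 2 (fun s' => s'.r rqq = 0) :=
    Tri.set (by simp) (by simp [Exp.cost])
  have f4 := e4.frame
  have k4 : s4.r rq = 4 * k := by rw [f4.r rq (by decide), f3.r rq (by decide), q2]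
  have k4' : s4.r rz = 4 * k + 1 := by rw [f4.r rz (by decide), q3]
  obtain ⟨s5, t5, e5, c5, q5⟩ := sqLoop k4 k4'
  have f5 := e5.frame
  rw [q4, Nat.zero_add] at q5
  obtain ⟨s6, t6, e6, c6, q6⟩ : Tri s5 (.set rD (V rdel)) 2 (fun s' => s'.r rD = s5.r rdel) :=
    Tri.set (by simp) (by simp [Exp.cost])
  have f6 := e6.frame
  have k6 : s6.r rk = k := by
    rw [f6.r rk (by decide), f5.r rk (by decide), f4.r rk (by decide), f3.r rk (by decide),
      f2.r rk (by decide), k1]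
  obtain ⟨s7, t7, e7, c7, q7⟩ := incrLoop (p := ri) (hi := rk) (x := rD) k6 (by decide) (by decide)
    (by decide)
  have f7 := e7.frame
  have hfr : Fr [rq, ri, rz, rqq, rj, rD] [] s s7 :=
    ((((((f1.mono (by decide) (by decide)).trans (f2.mono (by decide) (by decide))).trans
      (f3.mono (by decide) (by decide))).trans (f4.mono (by decide) (by decide))).trans
      (f5.mono (by decide) (by decide))).trans (f6.mono (by decide) (by decide))).trans
      (f7.mono (by decide) (by decide))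
  obtain ⟨s8, t8, e8, c8, q8⟩ := h s7 hfr
    (by rw [f7.r rq (by decide), f6.r rq (by decide), f5.r rq (by decide), k4])
    (by rw [f7.r rqq (by decide), f6.r rqq (by decide), q5])
    (by
      rw [q7, q6, f5.r rdel (by decide), f4.r rdel (by decide), f3.r rdel (by decide),
        f2.r rdel (by decide), f1.r rdel (by decide)])
  refine ⟨s8, _, Run.cons e1 (Run.cons e2 (Run.cons e3 (Run.cons e4 (Run.cons e5 (Run.cons e6
    (Run.cons e7 e8)))))), ?_, q8⟩
  omega

/-- `pConst`, third part: `θ` and `τ` -/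
theorem pConst3 {n m g : ℕ} {s : St} (hn : s.r rn = n) (hm : s.r rm = m) (hg : s.r rg = g)
    (hg0 : 0 < g) :
    Tri s (.blk [.set rth (K 0), .set rcn (K 0),
      .for_ ri (K 0) rn (.blk [.incr rcn,
        .whn (.eq (V rcn) (V rg)) (.blk [.set rcn (K 0), .incr rth])]),
      .for_ ri (K 0) rm (.blk [.incr rcn,
        .whn (.eq (V rcn) (V rg)) (.blk [.set rcn (K 0), .incr rth])]),
      .set rtau (V rD),
      .whn (.lt (V rD) (V rth)) (.set rtau (V rth))])
      (30 + 21 * n + 21 * m) (fun s' => s'.r rtau = max (s.r rD) ((n + m) / g)) := by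
  obtain ⟨s1, t1, e1, c1, q1⟩ : Tri s (.set rth (K 0)) 2 (fun s' => s'.r rth = 0) :=
    Tri.set (by simp) (by simp [Exp.cost])
  have f1 := e1.frame
  obtain ⟨s2, t2, e2, c2, q2⟩ : Tri s1 (.set rcn (K 0)) 2 (fun s' => s'.r rcn = 0) :=
    Tri.set (by simp) (by simp [Exp.cost])
  have f2 := e2.frame
  have a2 : s2.r rth = 0 := by rw [f2.r rth (by decide), q1]
  have b2 : s2.r rg = g := by rw [f2.r rg (by decide), f1.r rg (by decide), hg]
  obtain ⟨s3, t3, e3, c3, q3, q3'⟩ := theta_loop (hi := rn) (s := s2) (N := n) (T := 0) (g := g)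
    (by rw [f2.r rn (by decide), f1.r rn (by decide), hn]) (by decide) (by decide) (by decide) b2
    (by rw [a2, q2]; simp) (by rw [q2]; exact hg0)
  have f3 := e3.frame
  obtain ⟨s4, t4, e4, c4, q4, q4'⟩ := theta_loop (hi := rm) (s := s3) (N := m) (T := 0 + n) (g := g)
    (by rw [f3.r rm (by decide), f2.r rm (by decide), f1.r rm (by decide), hm]) (by decide)
    (by decide) (by decide) (by rw [f3.r rg (by decide), b2]) q3 q3'
  have f4 := e4.frame
  have hth : s4.r rth = (n + m) / g := by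
    rw [Nat.zero_add] at q4
    symm
    rw [Nat.div_eq_iff hg0]
    have : s4.r rth * g + g - 1 = s4.r rth * g + (g - 1) := by omega
    constructor
    · omega
    · omega
  have hD : s4.r rD = s.r rD := by
    rw [f4.r rD (by decide), f3.r rD (by decide), f2.r rD (by decide), f1.r rD (by decide)]
  obtain ⟨s5, t5, e5, c5, q5⟩ : Tri s4 (.blk [.set rtau (V rD),
      .whn (.lt (V rD) (V rth)) (.set rtau (V rth))]) 9
      (fun s' => s'.r rtau = max (s.r rD) ((n + m) / g)) := by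
    refine (Tri.lf (by decide) ?_).cost (by simp [Cmd.mc, Exp.cost, Cond.cost])
    simp only [Cmd.ex_cons, Cmd.ex_nil, Cmd.ex_set, Cmd.ex_ite, Cond.ev_lt, Exp.ev_reg,
      decide_eq_true_eq, St.setR_r, if_true]
    rw [if_neg (show ¬ rD = rtau by decide), if_neg (show ¬ rth = rtau by decide), hD, hth]
    by_cases h : s.r rD < (n + m) / g
    · rw [if_pos h]
      simp only [St.setR_r, if_true]
      exact (max_eq_right h.le).symm
    · rw [if_neg h]
      simp only [St.setR_r, if_true, Cmd.ex_skip]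
      exact (max_eq_left (not_lt.1 h)).symm
  refine ⟨s5, _, Run.cons e1 (Run.cons e2 (Run.cons e3 (Run.cons e4 e5))), ?_, q5⟩
  omega

theorem pConst_spec {n m k : ℕ} {s : St} (hn : s.r rn = n) (hm : s.r rm = m)
    (hk : s.r rk = k) :
    Tri s pConst (200 * (n + m) + fc k) (fun s' => s'.r rq = 4 * k ∧
      s'.r rqq = 4 * k * (4 * k + 1) ∧ s'.r rdel = dl k ∧ s'.r rg = gg k ∧
      s'.r rD = dl k + k ∧ s'.r rtau = max (dl k + k) ((n + m) / gg k)) := by
  refine (pConst1 (k := k) hk (B := 27 + 30 * k + 4 * k * (13 + 10 * (4 * k + 1)) +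
    (30 + 21 * n + 21 * m)) fun s1 f1 hdel hg => ?_).cost ?_
  · refine pConst2 (k := k) (by rw [f1.r rk (by decide), hk]) fun s2 f2 hq hqq hD => ?_
    have hg2 : s2.r rg = gg k := by rw [f2.r rg (by decide), hg]
    refine (pConst3 (n := n) (m := m) (g := gg k)
      (by rw [f2.r rn (by decide), f1.r rn (by decide), hn])
      (by rw [f2.r rm (by decide), f1.r rm (by decide), hm]) hg2
      (by unfold gg; positivity)).fr.imp ?_
    rintro s3 ⟨h3, f3⟩
    have hD2 : s2.r rD = dl k + k := by rw [hD, hdel]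
    refine ⟨?_, ?_, ?_, ?_, ?_, ?_⟩
    · rw [f3.r rq (by decide), hq]
    · rw [f3.r rqq (by decide), hqq]
    · rw [f3.r rdel (by decide), f2.r rdel (by decide), hdel]
    · rw [f3.r rg (by decide), hg2]
    · rw [f3.r rD (by decide), hD2]
    · rw [h3, hD2]
  · have h1 : 4 * k * (13 + 10 * (4 * k + 1)) ≤ 100 * ((4 * k + 1) * (4 * k + 2)) := by nlinarith
    have h2 : k ≤ (4 * k + 1) * (4 * k + 2) := by nlinarith
    unfold fc
    omega

end TL
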