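import Pool.Agent.W_3fea_h44.SearchDefs
import Pool.Agent.W_3fea_h44.PConst

/-! # Explicit bounds -/

namespace TL

open Relation Finset Classical

/-- bound for the number of the nodes of the search tree -/
def sg (k : ℕ) : ℕ := (4 * k + 5) ^ (k + 1)

/-- bound for the length of the kernel -/
def fK (k : ℕ) : ℕ := fnn k * fnn k * (4 * k * (4 * k + 1) + 1)

/-- bound for the length of the table -/
def fT (k : ℕ) : ℕ := fnn k * (k + 1)

/-- coefficient of the number of the vertices of large degree -/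
def sA (k : ℕ) : ℕ :=
  sg k * (200 * (k + 1) + 2000 * ((k + 2) * (sg k + 3))) + 1000 * ((k + 1) * (4 * k + 2))

/-- coefficient of `τ` -/
def sB (k : ℕ) : ℕ :=
  sg k * (3 * (500 * (4 * k + 6)) + 1000 * (4 * k + 2) + 500 * ((2 * k + 1) * (8 * k + 4)) + 1000 +
    k * (lc k + 200)) + sg k * (k * sg k) * (1000 * (4 * k + 2))

/-- constant term -/
def sC (k : ℕ) : ℕ :=
  100 + sg k * (200 * (k + 1) + 1000 * ((k + 2) * (sg k + 3)) +
    500 * (fnn k + fK k + 1) * (4 * gg k) + 3 * (500 * (4 * k + 6) * (fK k + 5 * k + 6)) +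
    1000 * ((4 * k + 2) + (k + 1) * (4 * k + 2)) +
    500 * ((2 * k + 1) * (8 * k + 4)) * (6 * k + 5) + 1000 * (6 * k + 6) + 200 * (k + 1) +
    (fT k + 1) * (lc k + 200 * (fnn k + k + 2)) + 50 * (k + 1) + 200) +
  sg k * (k * sg k) * (1000 * ((4 * k + 2) + (k + 1) * (4 * k + 2)))

/-- the function `f` of the running time `C (n + m) + f k` -/
def ff (k : ℕ) : ℕ :=
  (fc k + 20000 * (k + fnn k + 1)) + sC k + sB k * (dl k + k) + k + 100

end TL
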