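import Pool.Agent.W_3fea_h44.Graph

/-!
# The branching lemma
-/

namespace TL

open Relation Finset Classical

/-- the ends of the edges of a list -/
def flat (M : List (ℕ × ℕ)) : List ℕ := M.flatMap (fun e => [e.1, e.2])

@[simp] theorem flat_nil : flat [] = [] := rfl

@[simp] theorem flat_append (M N : List (ℕ × ℕ)) : flat (M ++ N) = flat M ++ flat N := by
  simp [flat]

@[simp] theorem flat_one (a b : ℕ) : flat [(a, b)] = [a, b] := rfl

theorem flat_length (M : List (ℕ × ℕ)) : (flat M).length = 2 * M.length := by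
  induction M with
  | nil => rfl
  | cons e M ih =>
    have : flat (e :: M) = e.1 :: e.2 :: flat M := rfl
    rw [this]; simp only [List.length_cons, ih]; omega

theorem mem_flat {M : List (ℕ × ℕ)} {v : ℕ} : v ∈ flat M ↔ ∃ e ∈ M, v = e.1 ∨ v = e.2 := by
  simp [flat]

/-- a matching of edges which leave `U` and do not end in `S` -/
structure IsMat (G : SimpleGraph ℕ) (S U : Finset ℕ) (M : List (ℕ × ℕ)) : Prop where
  edge : ∀ e ∈ M, e.1 ∈ U ∧ e.2 ∉ U ∧ e.2 ∉ S ∧ G.Adj e.1 e.2
  nd : (flat M).Nodup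

/-- `X` covers all edges from `U` to the outside of `U ∪ S` -/
def Cov (G : SimpleGraph ℕ) (S U : Finset ℕ) (X : List ℕ) : Prop :=
  ∀ a ∈ U, ∀ b, G.Adj a b → b ∉ U → b ∉ S → a ∈ X ∨ b ∈ X

/-- the result of a test with limit `lim` -/
structure IsTest (G : SimpleGraph ℕ) (S U : Finset ℕ) (lim : ℕ) (M : List (ℕ × ℕ)) : Prop
    extends IsMat G S U M where
  le : M.length ≤ lim
  cov : M.length < lim → Cov G S U (flat M)

/-- the list computed by the branching routine -/
structure IsClo (G : SimpleGraph ℕ) (S U : Finset ℕ) (kp : ℕ) (M : List (ℕ × ℕ)) (Q : List ℕ) :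
    Prop where
  pre : flat M <+: Q
  nd : Q.Nodup
  new : ∀ i, 2 * M.length ≤ i → (h : i < Q.length) →
    Q[i] ∉ U ∧ Q[i] ∉ S ∧ ∃ j, ∃ hj : j < i, G.Adj (Q[j]'(hj.trans h)) Q[i]
  done : Q.length ≤ M.length + kp → ∀ p ∈ Q, ∀ y, G.Adj p y → y ∈ U ∨ y ∈ S ∨ y ∈ Q
  len : Q.length ≤ max (2 * M.length) (M.length + kp + 1)

variable {n k : ℕ} {G : SimpleGraph ℕ}

/-- the component of `x` as a finset -/
noncomputable def cpf (n : ℕ) (G : SimpleGraph ℕ) (S : Finset ℕ) (x : ℕ) : Finset ℕ :=
  (range n).filter (fun y => Rch G S x y)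

theorem mem_cpf (hG : Inn n G) {S : Finset ℕ} {x y : ℕ} (hx : x < n) :
    y ∈ cpf n G S x ↔ Rch G S x y := by
  rw [cpf, mem_filter, mem_range]
  exact ⟨fun h => h.2, fun h => ⟨h.lt hG hx, h⟩⟩

/-- size of a dominated component of `G - S`, measured in `G - S'` with `S' ⊆ S` -/
theorem card_cpf_le (hG : Inn n G) {S S' : Finset ℕ} {x c t : ℕ} (hx : x < n) (hSS : S' ⊆ S)
    (hxS : x ∉ S) (h : IsArg n G S' x c) (ht1 : Rch G S x t)
    (ht2 : ∀ y, Rch G S x y → y = t ∨ G.Adj t y) :
    (cpf n G S x).card ≤ dp n G S' c + 1 := by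
  have htS : t ∉ S := ht1.notin hxS
  have h1 : (cpf n G S x).card ≤ (Uc n G S' t).card := by
    refine card_le_card ?_
    intro y hy
    rw [mem_cpf hG hx] at hy
    rw [mem_Uc hG]
    rcases ht2 y hy with h3 | h3
    · exact Or.inl h3
    · exact Or.inr ⟨h3, fun h4 => hy.notin hxS (hSS h4)⟩
  rw [card_Uc hG] at h1
  have h2 : dp n G S' t ≤ dp n G S' c := by
    refine h.max t (fun h3 => htS (hSS h3)) ?_
    rcases ht2 x (Rch.refl _) with h3 | h3
    · exact Or.inl h3.symm
    · exact Or.inr h3.symm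
  omega

theorem mem_Uc_self (hG : Inn n G) {S : Finset ℕ} {x c : ℕ} (hxS : x ∉ S)
    (h : c = x ∨ G.Adj x c) : x ∈ Uc n G S c := by
  rw [mem_Uc hG]
  rcases h with h | h
  · exact Or.inl h.symm
  · exact Or.inr ⟨h.symm, hxS⟩

theorem rch_Uc (hG : Inn n G) {S : Finset ℕ} {c u : ℕ} (hu : u ∈ Uc n G S c) : Rch G S c u := by
  rw [mem_Uc hG] at hu
  rcases hu with rfl | h
  · exact Rch.refl _
  · exact Rch.step h.1 h.2

/-- (1): the component of `x` is dominated iff `N[c] - S` is closed -/
theorem dom_iff_closed (hG : Inn n G) {S : Finset ℕ} {x c : ℕ} (hx : x < n) (hxS : x ∉ S)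
    (h : IsArg n G S x c) : Dom G S x ↔ Closed G S (Uc n G S c) := by
  have hxU : x ∈ Uc n G S c := mem_Uc_self hG hxS h.mem
  constructor
  · rintro ⟨t, ht1, ht2⟩
    have h1 := card_cpf_le hG hx (Subset.refl S) hxS h ht1 ht2
    have hxc : Rch G S x c := (rch_Uc hG hxU).symm h.notin
    have h2 : Uc n G S c ⊆ cpf n G S x := fun u hu =>
      (mem_cpf hG hx).2 (hxc.trans (rch_Uc hG hu))
    have h3 : Uc n G S c = cpf n G S x :=
      eq_of_subset_of_card_le h2 (by rw [card_Uc hG]; exact h1)
    intro a ha b hab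
    by_cases hb : b ∈ S
    · exact Or.inr hb
    · left
      rw [h3, mem_cpf hG hx] at ha ⊢
      exact ha.trans (Rch.step hab hb)
  · intro hcl
    exact dom_of_closed hG h.notin hxU hcl

/-- a test with result `[]` shows that the component is dominated -/
theorem IsTest.dom (hG : Inn n G) {S : Finset ℕ} {x c lim : ℕ} (hx : x < n) (hxS : x ∉ S)
    (h : IsArg n G S x c) (hl : 1 ≤ lim) (ht : IsTest G S (Uc n G S c) lim []) :
    Closed G S (Uc n G S c) ∧ Dom G S x := by
  have hcl : Closed G S (Uc n G S c) := by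
    intro a ha b hab
    by_contra hcon
    rw [not_or] at hcon
    have := ht.cov (by simp; omega) a ha b hab hcon.1 hcon.2
    simp at this
  exact ⟨hcl, (dom_iff_closed hG hx hxS h).2 hcl⟩

/-- a test with nonempty result shows that the component is not dominated -/
theorem IsTest.not_dom (hG : Inn n G) {S : Finset ℕ} {x c lim : ℕ} (hx : x < n) (hxS : x ∉ S)
    (h : IsArg n G S x c) {M : List (ℕ × ℕ)} (hM : M ≠ [])
    (ht : IsTest G S (Uc n G S c) lim M) : ¬ Dom G S x := by
  intro hd
  have hcl := (dom_iff_closed hG hx hxS h).1 hd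
  obtain ⟨e, he⟩ := List.exists_mem_of_ne_nil M hM
  obtain ⟨h1, h2, h3, h4⟩ := ht.edge e he
  rcases hcl _ h1 _ h4 with h5 | h5
  · exact h2 h5
  · exact h3 h5

theorem rch_center {S S' : Finset ℕ} {x c : ℕ} (h : IsArg n G S' x c) (hcS : c ∉ S) :
    Rch G S x c := by
  rcases h.mem with h1 | h1
  · subst h1; exact Rch.refl _
  · exact Rch.step h1 hcS

theorem lemma1_aux (hG : Inn n G) {S' S : Finset ℕ} {x c : ℕ} (hx : x < n)
    (h : IsArg n G S' x c) (hS : IsS n k G S) (hSS : S' ⊆ S) (hxS : x ∉ S) (hcS : c ∉ S) :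
    (cpf n G S x).card ≤ dp n G S' c + 1 := by
  obtain ⟨t, ht1, ht2⟩ := hS.2.2 x hx hxS
  exact card_cpf_le hG hx hSS hxS h ht1 ht2

/-- Lemma 1 -/
theorem lemma1 (hG : Inn n G) {S' S : Finset ℕ} {x c : ℕ} (hx : x < n)
    (h : IsArg n G S' x c) (hS : IsS n k G S) (hSS : S' ⊆ S) (hxS : x ∉ S) (hcS : c ∉ S)
    {K : Finset ℕ} (hK : ∀ y ∈ K, Rch G S c y) :
    (K \ Uc n G S' c).card ≤ (Uc n G S' c ∩ S).card := by
  have h1 := lemma1_aux hG hx h hS hSS hxS hcS
  have hxc : Rch G S x c := rch_center h hcS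
  have h2 : Uc n G S' c \ S ⊆ cpf n G S x := by
    intro u hu
    rw [mem_sdiff, mem_Uc hG] at hu
    rw [mem_cpf hG hx]
    rcases hu.1 with h3 | h3
    · subst h3; exact hxc
    · exact hxc.trans (Rch.step h3.1 hu.2)
  have h3 : (Uc n G S' c \ S).card + (K \ Uc n G S' c).card ≤ (cpf n G S x).card := by
    rw [← card_union_of_disjoint]
    · refine card_le_card ?_
      intro y hy
      rw [mem_union] at hy
      rcases hy with h4 | h4
      · exact h2 h4
      · exact (mem_cpf hG hx).2 (hxc.trans (hK y (mem_sdiff.1 h4).1))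
    · rw [Finset.disjoint_left]
      intro y hy hy2
      exact (mem_sdiff.1 hy2).2 (mem_sdiff.1 hy).1
  have h4 : (Uc n G S' c \ S).card + (Uc n G S' c ∩ S).card = (Uc n G S' c).card :=
    card_sdiff_add_card_inter _ _
  rw [card_Uc hG] at h4
  omega

theorem length_le_card {L : List ℕ} (hL : L.Nodup) {A : Finset ℕ} (h : ∀ y ∈ L, y ∈ A) :
    L.length ≤ A.card := by
  rw [← List.toFinset_card_of_nodup hL]
  exact card_le_card (fun y hy => h y (List.mem_toFinset.1 hy))

/-- the part of `S` in `U` and the part outside `U` -/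
theorem card_parts (hG : Inn n G) {S S' : Finset ℕ} {c : ℕ} (hc : c ∉ S') (hSS : S' ⊆ S)
    (hk : S.card ≤ k) :
    (Uc n G S' c ∩ S).card + ((S \ S') \ Uc n G S' c).card ≤ k - S'.card := by
  have h1 : (Uc n G S' c ∩ S).card + ((S \ S') \ Uc n G S' c).card ≤ (S \ S').card := by
    rw [← card_union_of_disjoint]
    · refine card_le_card ?_
      intro y hy
      rw [mem_union] at hy
      rcases hy with h | h
      · rw [mem_inter] at h
        exact mem_sdiff.2 ⟨h.2, Uc_disjoint hG hc y h.1⟩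
      · exact (mem_sdiff.1 h).1
    · rw [Finset.disjoint_left]
      intro y hy hy2
      exact (mem_sdiff.1 hy2).2 (mem_inter.1 hy).1
  have h2 : (S \ S').card = S.card - S'.card := card_sdiff_of_subset hSS
  omega

theorem nodup_parts {M : List (ℕ × ℕ)} (h : (flat M).Nodup) :
    (M.map Prod.fst).Nodup ∧ (M.map Prod.snd).Nodup := by
  have key : ∀ M : List (ℕ × ℕ), (M.map Prod.fst).Sublist (flat M) ∧
      (M.map Prod.snd).Sublist (flat M) := by
    intro M
    induction M with
    | nil => simp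
    | cons e M ih =>
      have : flat (e :: M) = e.1 :: e.2 :: flat M := rfl
      rw [this]
      simp only [List.map_cons]
      exact ⟨List.Sublist.cons_cons _ (List.Sublist.cons _ ih.1),
        List.Sublist.cons _ (List.Sublist.cons_cons _ ih.2)⟩
  exact ⟨h.sublist (key M).1, h.sublist (key M).2⟩

theorem rch_U (hG : Inn n G) {S S' : Finset ℕ} {x c u : ℕ} (h : IsArg n G S' x c) (hcS : c ∉ S)
    (hu : u ∈ Uc n G S' c) (huS : u ∉ S) : Rch G S x u := by
  rw [mem_Uc hG] at hu
  rcases hu with h1 | h1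
  · subst h1; exact rch_center h hcS
  · exact (rch_center h hcS).trans (Rch.step h1.1 huS)

/-- Lemma 2 -/
theorem lemma2 (hG : Inn n G) {S' S : Finset ℕ} {x c : ℕ} (hx : x < n)
    (h : IsArg n G S' x c) (hS : IsS n k G S) (hSS : S' ⊆ S) {M : List (ℕ × ℕ)}
    (hM : IsMat G S' (Uc n G S' c) M) (hlen : 2 * (k - S'.card) + 1 ≤ M.length) :
    x ∈ S ∨ c ∈ S := by
  by_contra hcon
  rw [not_or] at hcon
  obtain ⟨hxS, hcS⟩ := hcon
  have hl1 := lemma1 (K := cpf n G S x) hG hx h hS hSS hxS hcS (fun y hy =>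
    ((rch_center h hcS).symm hxS).trans ((mem_cpf hG hx).1 hy))
  have hpart := card_parts hG h.notin hSS hS.2.1
  obtain ⟨hn1, hn2⟩ := nodup_parts hM.nd
  have e1 : M.length = (M.filter (fun e => decide (e.1 ∈ S))).length
      + (M.filter (fun e => !decide (e.1 ∈ S))).length :=
    List.length_eq_length_filter_add (l := M) (fun e => decide (e.1 ∈ S))
  have e2 : (M.filter (fun e => !decide (e.1 ∈ S))).length
      = ((M.filter (fun e => !decide (e.1 ∈ S))).filter (fun e => decide (e.2 ∈ S))).length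
      + ((M.filter (fun e => !decide (e.1 ∈ S))).filter (fun e => !decide (e.2 ∈ S))).length :=
    List.length_eq_length_filter_add (l := (M.filter (fun e => !decide (e.1 ∈ S))))
      (fun e => decide (e.2 ∈ S))
  have b1 : (M.filter (fun e => decide (e.1 ∈ S))).length ≤ (Uc n G S' c ∩ S).card := by
    have := length_le_card (L := (M.filter (fun e => decide (e.1 ∈ S))).map Prod.fst)
      (hn1.sublist (List.filter_sublist.map _)) (A := Uc n G S' c ∩ S) ?_
    · simpa using this
    · intro y hy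
      rw [List.mem_map] at hy
      obtain ⟨e, he, rfl⟩ := hy
      rw [List.mem_filter, decide_eq_true_eq] at he
      exact mem_inter.2 ⟨(hM.edge e he.1).1, he.2⟩
  have b2 : ((M.filter (fun e => !decide (e.1 ∈ S))).filter (fun e => decide (e.2 ∈ S))).length
      ≤ ((S \ S') \ Uc n G S' c).card := by
    have := length_le_card (L := ((M.filter (fun e => !decide (e.1 ∈ S))).filter
      (fun e => decide (e.2 ∈ S))).map Prod.snd)
      (hn2.sublist ((List.filter_sublist.trans List.filter_sublist).map _))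
      (A := (S \ S') \ Uc n G S' c) ?_
    · simpa using this
    · intro y hy
      rw [List.mem_map] at hy
      obtain ⟨e, he, rfl⟩ := hy
      rw [List.mem_filter, decide_eq_true_eq, List.mem_filter] at he
      have := hM.edge e he.1.1
      exact mem_sdiff.2 ⟨mem_sdiff.2 ⟨he.2, this.2.2.1⟩, this.2.1⟩
  have b3 : ((M.filter (fun e => !decide (e.1 ∈ S))).filter (fun e => !decide (e.2 ∈ S))).length
      ≤ (cpf n G S x \ Uc n G S' c).card := by
    have := length_le_card (L := ((M.filter (fun e => !decide (e.1 ∈ S))).filter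
      (fun e => !decide (e.2 ∈ S))).map Prod.snd)
      (hn2.sublist ((List.filter_sublist.trans List.filter_sublist).map _))
      (A := cpf n G S x \ Uc n G S' c) ?_
    · simpa using this
    · intro y hy
      rw [List.mem_map] at hy
      obtain ⟨e, he, rfl⟩ := hy
      rw [List.mem_filter, List.mem_filter] at he
      have h1 : e.1 ∉ S := by simpa using he.1.2
      have h2 : e.2 ∉ S := by simpa using he.2
      have := hM.edge e he.1.1
      refine mem_sdiff.2 ⟨?_, this.2.1⟩
      rw [mem_cpf hG hx]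
      exact (rch_U hG h hcS this.1 h1).trans (Rch.step this.2.2.2 h2)
  omega

/-- the part of the list of candidates outside `U` -/
def outer (M : List (ℕ × ℕ)) (Q : List ℕ) : List ℕ := M.map Prod.snd ++ Q.drop (2 * M.length)

theorem IsClo.eq_append {S U : Finset ℕ} {kp : ℕ} {M : List (ℕ × ℕ)} {Q : List ℕ}
    (hQ : IsClo G S U kp M Q) : Q = flat M ++ Q.drop (2 * M.length) := by
  obtain ⟨t, ht⟩ := hQ.pre
  have : Q.drop (2 * M.length) = t := by
    rw [← ht, ← flat_length, List.drop_left]
  rw [this, ht]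

theorem IsClo.outer_length {S U : Finset ℕ} {kp : ℕ} {M : List (ℕ × ℕ)} {Q : List ℕ}
    (hQ : IsClo G S U kp M Q) : (outer M Q).length + M.length = Q.length := by
  have h1 := congrArg List.length hQ.eq_append
  rw [List.length_append, flat_length] at h1
  rw [outer, List.length_append, List.length_map]
  omega

theorem IsClo.outer_nodup {S U : Finset ℕ} {kp : ℕ} {M : List (ℕ × ℕ)} {Q : List ℕ}
    (hQ : IsClo G S U kp M Q) : (outer M Q).Nodup := by
  have h1 := hQ.nd
  rw [hQ.eq_append, List.nodup_append] at h1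
  rw [outer, List.nodup_append]
  refine ⟨(nodup_parts h1.1).2, h1.2.1, ?_⟩
  intro a ha b hb
  refine h1.2.2 a ?_ b hb
  rw [List.mem_map] at ha
  obtain ⟨e, he, rfl⟩ := ha
  exact mem_flat.2 ⟨e, he, Or.inr rfl⟩

theorem mem_drop_iff {Q : List ℕ} {m y : ℕ} (h : y ∈ Q.drop m) :
    ∃ i, m ≤ i ∧ ∃ hi : i < Q.length, Q[i] = y := by
  rw [List.mem_iff_getElem] at h
  obtain ⟨i, hi, rfl⟩ := h
  rw [List.length_drop] at hi
  refine ⟨m + i, by omega, by omega, ?_⟩
  rw [List.getElem_drop]

theorem IsClo.outer_out {S U : Finset ℕ} {kp : ℕ} {M : List (ℕ × ℕ)} {Q : List ℕ}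
    (hM : IsMat G S U M) (hQ : IsClo G S U kp M Q) : ∀ y ∈ outer M Q, y ∉ U ∧ y ∉ S := by
  intro y hy
  rw [outer, List.mem_append] at hy
  rcases hy with hy | hy
  · rw [List.mem_map] at hy
    obtain ⟨e, he, rfl⟩ := hy
    have := hM.edge e he
    exact ⟨this.2.1, this.2.2.1⟩
  · obtain ⟨i, hi1, hi2, rfl⟩ := mem_drop_iff hy
    have := hQ.new i hi1 hi2
    exact ⟨this.1, this.2.1⟩

theorem IsClo.mem_cases {S U : Finset ℕ} {kp : ℕ} {M : List (ℕ × ℕ)} {Q : List ℕ}
    (hM : IsMat G S U M) (hQ : IsClo G S U kp M Q) {y : ℕ} (hy : y ∈ Q) :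
    y ∈ U ∨ y ∈ outer M Q := by
  rw [hQ.eq_append, List.mem_append] at hy
  rcases hy with hy | hy
  · obtain ⟨e, he, h | h⟩ := mem_flat.1 hy
    · subst h
      exact Or.inl (hM.edge e he).1
    · subst h
      right
      rw [outer, List.mem_append]
      exact Or.inl (List.mem_map.2 ⟨e, he, rfl⟩)
  · right
    rw [outer, List.mem_append]
    exact Or.inr hy

theorem IsClo.outer_mem {S U : Finset ℕ} {kp : ℕ} {M : List (ℕ × ℕ)} {Q : List ℕ}
    (hQ : IsClo G S U kp M Q) {y : ℕ} (hy : y ∈ outer M Q) : y ∈ Q := by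
  rw [hQ.eq_append, List.mem_append]
  rw [outer, List.mem_append] at hy
  rcases hy with hy | hy
  · rw [List.mem_map] at hy
    obtain ⟨e, he, rfl⟩ := hy
    exact Or.inl (mem_flat.2 ⟨e, he, Or.inr rfl⟩)
  · exact Or.inr hy

/-- all candidates lie in the component of `x` -/
theorem IsClo.rch (hG : Inn n G) {S S' : Finset ℕ} {x c kp : ℕ} (h : IsArg n G S' x c)
    {M : List (ℕ × ℕ)} {Q : List ℕ} (hM : IsMat G S' (Uc n G S' c) M)
    (hQ : IsClo G S' (Uc n G S' c) kp M Q) (hcS : c ∉ S)
    (hav : ∀ y ∈ Q, y ∉ S) : ∀ y ∈ Q, Rch G S x y := by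
  have hfl : ∀ y ∈ flat M, Rch G S x y := by
    intro y hy
    have hyQ : ∀ z ∈ flat M, z ∉ S := by
      intro z hz
      refine hav z ?_
      rw [hQ.eq_append]
      exact List.mem_append_left _ hz
    obtain ⟨e, he, h1⟩ := mem_flat.1 hy
    have hed := hM.edge e he
    have hf : Rch G S x e.1 := rch_U hG h hcS hed.1 (hyQ _ (mem_flat.2 ⟨e, he, Or.inl rfl⟩))
    rcases h1 with h1 | h1
    · subst h1; exact hf
    · subst h1
      exact hf.trans (Rch.step hed.2.2.2 (hyQ _ (mem_flat.2 ⟨e, he, Or.inr rfl⟩)))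
  have key : ∀ (i : ℕ) (hi : i < Q.length), Rch G S x (Q[i]) := by
    intro i
    induction i using Nat.strong_induction_on with
    | _ i ih =>
      intro hi
      by_cases h1 : 2 * M.length ≤ i
      · obtain ⟨_, _, j, hj, hadj⟩ := hQ.new i h1 hi
        exact (ih j hj (hj.trans hi)).trans (Rch.step hadj (hav _ (List.getElem_mem hi)))
      · refine hfl _ ?_
        have h2 := hQ.eq_append
        have h3 : i < (flat M).length := by rw [flat_length]; omega
        have h4 : Q[i] = (flat M)[i] := by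
          have : Q[i]? = (flat M)[i]? := by
            rw [h2, List.getElem?_append_left h3]
          rw [List.getElem?_eq_getElem hi, List.getElem?_eq_getElem h3] at this
          exact Option.some.inj this
        rw [h4]
        exact List.getElem_mem h3
  intro y hy
  obtain ⟨i, hi, rfl⟩ := List.mem_iff_getElem.1 hy
  exact key i hi

/-- the branching lemma -/
theorem branch (hG : Inn n G) {S' : Finset ℕ} {x c : ℕ} (hx : x < n) (hxS : x ∉ S')
    (h : IsArg n G S' x c) {M : List (ℕ × ℕ)} (hM0 : M ≠ [])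
    (hM : IsTest G S' (Uc n G S' c) (2 * (k - S'.card) + 1) M) {Q : List ℕ}
    (hQ : IsClo G S' (Uc n G S' c) (k - S'.card) M Q) (hsol : Sol n k G S') :
    ∃ y ∈ x :: c :: Q, Sol n k G (insert y S') := by
  by_contra hcon
  push Not at hcon
  obtain ⟨S, hS, hSS⟩ := hsol
  have hav : ∀ y ∈ x :: c :: Q, y ∉ S := by
    intro y hy hyS
    exact hcon y hy ⟨S, hS, insert_subset hyS hSS⟩
  have hxS2 : x ∉ S := hav x (by simp)
  have hcS : c ∉ S := hav c (by simp)
  have hQS : ∀ y ∈ Q, y ∉ S := fun y hy => hav y (by simp [hy])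
  have hQc := hQ.rch hG h hM.toIsMat hcS hQS
  have hl1 := lemma1 (K := cpf n G S x) hG hx h hS hSS hxS2 hcS (fun y hy =>
    ((rch_center h hcS).symm hxS2).trans ((mem_cpf hG hx).1 hy))
  have hpart := card_parts hG h.notin hSS hS.2.1
  -- the matching is small
  have hMlt : M.length < 2 * (k - S'.card) + 1 := by
    by_contra hlen
    rcases lemma2 hG hx h hS hSS hM.toIsMat (by omega) with h1 | h1
    · exact hxS2 h1
    · exact hcS h1
  have hcov := hM.cov hMlt
  set R := outer M Q with hR
  have hRnd : R.Nodup := hQ.outer_nodup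
  have hRout := hQ.outer_out hM.toIsMat
  have hRQ : ∀ y ∈ R, y ∈ Q := fun y hy => hQ.outer_mem hy
  have hRlen : R.length ≤ (cpf n G S x \ Uc n G S' c).card :=
    length_le_card hRnd (fun y hy => mem_sdiff.2 ⟨(mem_cpf hG hx).2 (hQc y (hRQ y hy)),
      (hRout y hy).1⟩)
  have hRl2 := hQ.outer_length
  rw [← hR] at hRl2
  have hdone := hQ.done (by omega)
  -- the component of `c` in `G - S'` is `B = U ∪ R`
  set B : Finset ℕ := Uc n G S' c ∪ R.toFinset with hB
  have hBcl : ∀ b ∈ B, ∀ a, G.Adj b a → a ∉ S' → a ∈ B := by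
    intro b hb a hab ha
    by_cases haU : a ∈ Uc n G S' c
    · exact mem_union_left _ haU
    have haQ : ∀ p ∈ Q, G.Adj p a → a ∈ B := by
      intro p hp hpa
      rcases hdone p hp a hpa with h1 | h1 | h1
      · exact absurd h1 haU
      · exact absurd h1 ha
      · rcases hQ.mem_cases hM.toIsMat h1 with h2 | h2
        · exact absurd h2 haU
        · exact mem_union_right _ (List.mem_toFinset.2 h2)
    rw [hB, mem_union, List.mem_toFinset] at hb
    rcases hb with hb | hb
    · rcases hcov b hb a hab haU ha with h1 | h1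
      · refine haQ b ?_ hab
        rw [hQ.eq_append]
        exact List.mem_append_left _ h1
      · have : a ∈ Q := by
          rw [hQ.eq_append]
          exact List.mem_append_left _ h1
        rcases hQ.mem_cases hM.toIsMat this with h2 | h2
        · exact absurd h2 haU
        · exact mem_union_right _ (List.mem_toFinset.2 h2)
    · exact haQ b (hRQ b hb) hab
  have hBS' : ∀ b ∈ B, b ∉ S' := by
    intro b hb
    rw [hB, mem_union, List.mem_toFinset] at hb
    rcases hb with hb | hb
    · exact Uc_disjoint hG h.notin b hb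
    · exact (hRout b hb).2
  have hBcard : B.card = (Uc n G S' c).card + R.length := by
    rw [hB, card_union_of_disjoint, List.toFinset_card_of_nodup hRnd]
    rw [Finset.disjoint_left]
    intro y hy hy2
    exact (hRout y (List.mem_toFinset.1 hy2)).1 hy
  have hK := lemma1_aux hG hx h hS hSS hxS2 hcS
  have hUcard := card_Uc hG (S := S') c
  have hBK : (B \ S).card ≤ (cpf n G S x).card := by
    refine card_le_card ?_
    intro y hy
    rw [mem_sdiff, hB, mem_union, List.mem_toFinset] at hy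
    rw [mem_cpf hG hx]
    rcases hy.1 with h1 | h1
    · exact rch_U hG h hcS h1 hy.2
    · exact hQc y (hRQ y h1)
  have hBS : (B \ S).card + (B ∩ S).card = B.card := card_sdiff_add_card_inter _ _
  have hRin : R.length ≤ (S ∩ B).card := by
    rw [inter_comm]; omega
  -- the exchanged solution
  set T : Finset ℕ := (S \ B) ∪ R.toFinset with hT
  have hTcard : T.card ≤ S.card := by
    have h1 : T.card ≤ (S \ B).card + R.toFinset.card := card_union_le _ _
    rw [List.toFinset_card_of_nodup hRnd] at h1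
    have h2 : (S \ B).card + (S ∩ B).card = S.card := card_sdiff_add_card_inter _ _
    omega
  have hST : S' ⊆ T := by
    intro y hy
    exact mem_union_left _ (mem_sdiff.2 ⟨hSS hy, fun h1 => hBS' y h1 hy⟩)
  have hcU : c ∈ Uc n G S' c := self_mem_Uc c
  have hUT : ∀ u ∈ Uc n G S' c, u ∉ T := by
    intro u hu hT'
    rw [hT, mem_union, List.mem_toFinset] at hT'
    rcases hT' with h1 | h1
    · exact (mem_sdiff.1 h1).2 (mem_union_left _ hu)
    · exact (hRout u h1).1 hu
  have hRlt : ∀ y ∈ R, y < n := fun y hy => (hQc y (hRQ y hy)).lt hG hx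
  have hTsol : IsS n k G T := by
    refine ⟨?_, hTcard.trans hS.2.1, ?_⟩
    · intro v hv
      rw [hT, mem_union, List.mem_toFinset] at hv
      rcases hv with h1 | h1
      · exact hS.1 v (mem_sdiff.1 h1).1
      · exact hRlt v h1
    intro x' hx'n hx'
    by_cases hx'U : x' ∈ Uc n G S' c
    · refine ⟨c, ?_, ?_⟩
      · rw [mem_Uc hG] at hx'U
        rcases hx'U with h1 | h1
        · subst h1; exact Rch.refl _
        · exact Rch.step h1.1.symm (hUT c hcU)
      · intro y hy
        have : y ∈ Uc n G S' c := by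
          induction hy with
          | refl => exact hx'U
          | @tail a b _ hab ih =>
            have hb' : b ∈ B := hBcl a (mem_union_left _ ih) b hab.1 (fun h1 => hab.2 (hST h1))
            rw [hB, mem_union, List.mem_toFinset] at hb'
            rcases hb' with h1 | h1
            · exact h1
            · exact absurd (mem_union_right _ (List.mem_toFinset.2 h1)) hab.2
        rw [mem_Uc hG] at this
        rcases this with h1 | h1
        · exact Or.inl h1
        · exact Or.inr h1.1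
    · have hx'B : x' ∉ B := by
        intro h1
        rw [hB, mem_union] at h1
        rcases h1 with h1 | h1
        · exact hx'U h1
        · exact hx' (mem_union_right _ h1)
      have hx'S : x' ∉ S := fun h1 => hx' (mem_union_left _ (mem_sdiff.2 ⟨h1, hx'B⟩))
      -- outside `B` nothing changes
      have hout : ∀ a, a ∉ B → (a ∉ T ↔ a ∉ S) := by
        intro a ha
        rw [hT, mem_union, mem_sdiff, List.mem_toFinset]
        constructor
        · intro h1 h2
          exact h1 (Or.inl ⟨h2, ha⟩)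
        · rintro h1 (h2 | h2)
          · exact h1 h2.1
          · exact ha (mem_union_right _ (List.mem_toFinset.2 h2))
      have hstay : ∀ a b, a ∉ B → G.Adj a b → a ∉ S' → b ∉ B := by
        intro a b ha hab haS hb
        exact ha (hBcl b hb a hab.symm haS)
      have h1 : ∀ y, Rch G T x' y → Rch G S x' y ∧ y ∉ B ∧ y ∉ T := by
        intro y hy
        induction hy with
        | refl => exact ⟨Rch.refl _, hx'B, hx'⟩
        | @tail a b _ hab ih =>
          have hbB := hstay a b ih.2.1 hab.1 (fun h2 => ih.2.2 (hST h2))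
          exact ⟨ih.1.trans (Rch.step hab.1 ((hout b hbB).1 hab.2)), hbB, hab.2⟩
      have h2 : ∀ y, Rch G S x' y → Rch G T x' y ∧ y ∉ B ∧ y ∉ S := by
        intro y hy
        induction hy with
        | refl => exact ⟨Rch.refl _, hx'B, hx'S⟩
        | @tail a b _ hab ih =>
          have hbB := hstay a b ih.2.1 hab.1 (fun h3 => ih.2.2 (hSS h3))
          exact ⟨ih.1.trans (Rch.step hab.1 ((hout b hbB).2 hab.2)), hbB, hab.2⟩
      obtain ⟨t', ht1, ht2⟩ := hS.2.2 x' hx'n hx'S
      exact ⟨t', (h2 t' ht1).1, fun y hy => ht2 y (h1 y hy).1⟩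
  obtain ⟨e, he⟩ := List.exists_mem_of_ne_nil M hM0
  have he2R : e.2 ∈ R := by
    rw [hR, outer, List.mem_append]
    exact Or.inl (List.mem_map.2 ⟨e, he, rfl⟩)
  refine hcon e.2 (by simp [hRQ e.2 he2R]) ⟨T, hTsol, insert_subset ?_ hST⟩
  exact mem_union_right _ (List.mem_toFinset.2 he2R)

/-- the candidates are vertices outside `S'` -/
theorem IsClo.out (hG : Inn n G) {S' : Finset ℕ} {x c lim kp : ℕ} (hx : x < n) (hxS : x ∉ S')
    (h : IsArg n G S' x c) {M : List (ℕ × ℕ)}
    (hM : IsTest G S' (Uc n G S' c) lim M) {Q : List ℕ}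
    (hQ : IsClo G S' (Uc n G S' c) kp M Q) : ∀ y ∈ x :: c :: Q, y < n ∧ y ∉ S' := by
  intro y hy
  have hcn : c < n := by
    rcases h.mem with h1 | h1
    · rw [h1]; exact hx
    · exact hG.right h1
  rw [List.mem_cons, List.mem_cons] at hy
  rcases hy with h1 | h1 | h1
  · subst h1; exact ⟨hx, hxS⟩
  · subst h1; exact ⟨hcn, h.notin⟩
  · have hS : ∀ z ∈ Q, z ∉ S' := by
      intro z hz
      rcases hQ.mem_cases hM.toIsMat hz with h2 | h2
      · exact Uc_disjoint hG h.notin z h2
      · exact (hQ.outer_out hM.toIsMat z h2).2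
    exact ⟨(hQ.rch hG h hM.toIsMat h.notin hS y h1).lt hG hx, hS y h1⟩

/-- length of the list of candidates -/
theorem IsClo.length_le {S' : Finset ℕ} {U : Finset ℕ} {kp : ℕ} {M : List (ℕ × ℕ)}
    (hM : IsTest G S' U (2 * kp + 1) M) {Q : List ℕ} (hQ : IsClo G S' U kp M Q) :
    Q.length ≤ 4 * kp + 2 := by
  have h1 := hQ.len
  have h2 := hM.le
  omega

end TL
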