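import Pool.Agent.W_3fea_h44.Branch

/-!
# The sparse certificate (Nagamochi-Ibaraki scan with a cap)
-/

namespace TL

open Relation Finset Classical

/-- the neighbours of `y` in a list -/
noncomputable def nbl (G : SimpleGraph ℕ) (l : List ℕ) (y : ℕ) : List ℕ :=
  l.filter (fun v => decide (G.Adj v y))

/-- `ord` is a maximum adjacency order (with cap `L`) of the graph induced on `P`; `BK y` consists
of the first `L` neighbours of `y` which precede `y` -/
structure IsScan (G : SimpleGraph ℕ) (P : ℕ → Prop) (L : ℕ) (ord : List ℕ) (BK : ℕ → List ℕ) :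
    Prop where
  nd : ord.Nodup
  mem : ∀ v, v ∈ ord ↔ P v
  max : ∀ i, (h : i < ord.length) → ∀ y, P y → y ∉ ord.take i →
    min (nbl G (ord.take i) y).length L ≤ (nbl G (ord.take i) ord[i]).length
  bk : ∀ i, (h : i < ord.length) → BK ord[i] = (nbl G (ord.take i) ord[i]).take L

variable {G : SimpleGraph ℕ} {P : ℕ → Prop} {L : ℕ} {ord : List ℕ} {BK : ℕ → List ℕ}

/-- the certificate -/
def CertAdj (BK : ℕ → List ℕ) (a b : ℕ) : Prop := b ∈ BK a ∨ a ∈ BK b

/-- the symmetric relation of the certificate restricted to `D` minus `W` -/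
def CR (BK : ℕ → List ℕ) (W : Finset ℕ) (D : ℕ → Prop) (a b : ℕ) : Prop :=
  CertAdj BK a b ∧ D a ∧ D b ∧ a ∉ W ∧ b ∉ W

theorem CR.rev {BK : ℕ → List ℕ} {W : Finset ℕ} {D : ℕ → Prop} {a b : ℕ}
    (h : ReflTransGen (CR BK W D) a b) : ReflTransGen (CR BK W D) b a := by
  induction h with
  | refl => exact ReflTransGen.refl
  | @tail b c _ hbc ih =>
    refine ReflTransGen.head ?_ ih
    exact ⟨hbc.1.symm, hbc.2.2.1, hbc.2.1, hbc.2.2.2.2, hbc.2.2.2.1⟩

theorem CR.mono {BK : ℕ → List ℕ} {W W' : Finset ℕ} {D D' : ℕ → Prop}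
    (hD : ∀ a, D a → D' a) (hW : ∀ a, D a → a ∉ W → a ∉ W') {x y : ℕ}
    (h : ReflTransGen (CR BK W D) x y) : ReflTransGen (CR BK W' D') x y := by
  refine ReflTransGen.mono ?_ _ _ h
  intro a b hab
  exact ⟨hab.1, hD _ hab.2.1, hD _ hab.2.2.1, hW _ hab.2.1 hab.2.2.2.1,
    hW _ hab.2.2.1 hab.2.2.2.2⟩

theorem nbl_take_succ (i : ℕ) (h : i < ord.length) (y : ℕ) :
    nbl G (ord.take (i + 1)) y = nbl G (ord.take i) y ++ (if G.Adj ord[i] y then [ord[i]] else []) := by
  unfold nbl
  rw [List.take_add_one, List.filter_append, List.getElem?_eq_getElem h]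
  by_cases hadj : G.Adj ord[i] y
  · simp [hadj]
  · simp [hadj]

theorem nbl_len_succ (i : ℕ) (h : i < ord.length) (y : ℕ) :
    (nbl G (ord.take (i + 1)) y).length =
      (nbl G (ord.take i) y).length + (if G.Adj ord[i] y then 1 else 0) := by
  rw [nbl_take_succ i h y, List.length_append]
  split_ifs <;> simp

theorem mem_take_mid {A B : List ℕ} {v L : ℕ} (h : A.length < L) : v ∈ (A ++ v :: B).take L := by
  rw [List.take_append, List.mem_append]
  right
  obtain ⟨t, ht⟩ : ∃ t, L - A.length = t + 1 := ⟨L - A.length - 1, by omega⟩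
  rw [ht, List.take_succ_cons]
  exact List.mem_cons_self

/-- the scanned vertex is stored in `BK` -/
theorem IsScan.mem_bk (h : IsScan G P L ord BK) {i p : ℕ} (hi : i < ord.length)
    (hp : p < ord.length) (hip : i < p) (hadj : G.Adj ord[i] ord[p])
    (hlt : (nbl G (ord.take i) ord[p]).length < L) : ord[i] ∈ BK ord[p] := by
  rw [h.bk p hp]
  have h1 : ord.take p = ord.take (i + 1) ++ (ord.take p).drop (i + 1) := by
    have h2 := List.take_append_drop (i + 1) (ord.take p)
    rw [List.take_take, Nat.min_eq_left (by omega)] at h2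
    exact h2.symm
  have h3 : nbl G (ord.take p) ord[p] = nbl G (ord.take i) ord[p] ++
      ord[i] :: nbl G ((ord.take p).drop (i + 1)) ord[p] := by
    rw [show nbl G (ord.take p) ord[p] = nbl G (ord.take (i + 1) ++ (ord.take p).drop (i + 1))
      ord[p] from by rw [← h1]]
    have h4 : ∀ l l' : List ℕ, nbl G (l ++ l') ord[p] = nbl G l ord[p] ++ nbl G l' ord[p] := by
      intro l l'
      unfold nbl
      exact List.filter_append ..
    rw [h4, nbl_take_succ i hi, if_pos hadj]
    simp
  rw [h3]
  exact mem_take_mid hlt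

theorem IsScan.notMem_take (h : IsScan G P L ord BK) {p i : ℕ} (hp : p < ord.length)
    (hip : i ≤ p) : ord[p] ∉ ord.take i := by
  intro h'
  obtain ⟨m, hm, hm2⟩ := List.mem_take_iff_getElem.1 h'
  have : m = p := (List.Nodup.getElem_inj_iff h.nd).1 hm2
  omega

theorem scan_claim_aux (h : IsScan G P L ord BK) (i : ℕ) : ∀ (j : ℕ), j ≤ L →
    ∀ (z z' : ℕ) (W : Finset ℕ), P z → P z' → i ≤ ord.length → z ∉ ord.take i →
    z' ∉ ord.take i → j ≤ (nbl G (ord.take i) z).length → j ≤ (nbl G (ord.take i) z').length →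
    W.card < j → z ∉ W → z' ∉ W →
    ReflTransGen (CR BK W (fun v => v ∈ ord.take i ∨ v = z ∨ v = z')) z z' := by
  induction i with
  | zero =>
    intro j _ z z' W _ _ _ _ _ h1 _ h3
    simp [nbl] at h1
    omega
  | succ i ih =>
    intro j hj z z' W hPz hPz' hi hz hz' hrz hrz' hW hzW hz'W
    have hi' : i < ord.length := by omega
    set v := ord[i] with hv
    have hsub : ∀ u, u ∈ ord.take i → u ∈ ord.take (i + 1) := by
      intro u hu
      rw [List.take_add_one]
      exact List.mem_append_left _ hu
    have hzi : z ∉ ord.take i := fun h => hz (hsub z h)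
    have hz'i : z' ∉ ord.take i := fun h => hz' (hsub z' h)
    have hvt : v ∈ ord.take (i + 1) := by
      rw [List.take_add_one, List.getElem?_eq_getElem hi']
      exact List.mem_append_right _ (by simp [hv])
    have hvi : v ∉ ord.take i := h.notMem_take hi' le_rfl
    have hPv : P v := (h.mem v).1 (List.getElem_mem hi')
    have hvz : v ≠ z := fun h => hz (h ▸ hvt)
    have hvz' : v ≠ z' := fun h => hz' (h ▸ hvt)
    have hmono : ∀ {a b : ℕ}, ReflTransGen (CR BK W (fun u => u ∈ ord.take i ∨ u = a ∨ u = b)) a b →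
        (a = z ∨ a = z' ∨ a = v) → (b = z ∨ b = z' ∨ b = v) →
        ReflTransGen (CR BK W (fun u => u ∈ ord.take (i + 1) ∨ u = z ∨ u = z')) a b := by
      intro a b h ha hb
      refine CR.mono ?_ (fun _ _ h => h) h
      intro u hu
      rcases hu with hu | hu | hu
      · exact Or.inl (hsub u hu)
      · subst hu
        rcases ha with ha | ha | ha
        · exact Or.inr (Or.inl ha)
        · exact Or.inr (Or.inr ha)
        · left; rw [ha]; exact hvt
      · subst hu
        rcases hb with ha | ha | ha
        · exact Or.inr (Or.inl ha)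
        · exact Or.inr (Or.inr ha)
        · left; rw [ha]; exact hvt
    by_cases hboth : j ≤ (nbl G (ord.take i) z).length ∧ j ≤ (nbl G (ord.take i) z').length
    · exact hmono (ih j hj z z' W hPz hPz' (by omega) hzi hz'i hboth.1 hboth.2 hW hzW hz'W)
        (Or.inl rfl) (Or.inr (Or.inl rfl))
    by_cases hvW : v ∈ W
    · have hj1 : 1 ≤ W.card := card_pos.2 ⟨v, hvW⟩
      have h1 := nbl_len_succ (G := G) i hi' z
      have h2 := nbl_len_succ (G := G) i hi' z'
      have h3 : j - 1 ≤ (nbl G (ord.take i) z).length := by split_ifs at h1 <;> omega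
      have h4 : j - 1 ≤ (nbl G (ord.take i) z').length := by split_ifs at h2 <;> omega
      have h5 := ih (j - 1) (by omega) z z' (W.erase v) hPz hPz' (by omega) hzi hz'i h3 h4
        (by rw [card_erase_of_mem hvW]; omega) (fun h => hzW (mem_of_mem_erase h))
        (fun h => hz'W (mem_of_mem_erase h))
      refine CR.mono (D := fun u => u ∈ ord.take i ∨ u = z ∨ u = z') ?_ ?_ h5
      · intro a ha
        rcases ha with ha | ha
        · exact Or.inl (hsub a ha)
        · right; exact ha
      · intro a ha haW haW'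
        have : a ≠ v := by
          intro h
          subst h
          rcases ha with ha | ha | ha
          · exact hvi ha
          · exact hvz ha
          · exact hvz' ha
        exact haW (mem_erase.2 ⟨this, haW'⟩)
    · have edge : ∀ w, w = z ∨ w = z' → P w → w ∉ W → w ∉ ord.take (i + 1) →
          j ≤ (nbl G (ord.take (i + 1)) w).length → ¬ j ≤ (nbl G (ord.take i) w).length →
          CR BK W (fun u => u ∈ ord.take (i + 1) ∨ u = z ∨ u = z') w v := by
        intro w hw hPw hwW hwt h1 h2
        have h3 := nbl_len_succ (G := G) i hi' w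
        have hadj : G.Adj ord[i] w := by
          by_contra hna
          rw [if_neg hna] at h3
          omega
        obtain ⟨p, hp, hpw⟩ := List.mem_iff_getElem.1 ((h.mem w).2 hPw)
        have hip : i < p := by
          by_contra hip
          apply hwt
          rw [List.mem_take_iff_getElem]
          exact ⟨p, by omega, hpw⟩
        refine ⟨Or.inl ?_, ?_, Or.inl hvt, hwW, hvW⟩
        · rw [← hpw]
          exact h.mem_bk hi' hp hip (by rw [hpw]; exact hadj) (by rw [hpw]; omega)
        · right; exact hw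
      have toV : ∀ w, w = z ∨ w = z' → P w → w ∉ W → w ∉ ord.take (i + 1) →
          j ≤ (nbl G (ord.take (i + 1)) w).length →
          ReflTransGen (CR BK W (fun u => u ∈ ord.take (i + 1) ∨ u = z ∨ u = z')) w v := by
        intro w hw hPw hwW hwt h1
        by_cases h2 : j ≤ (nbl G (ord.take i) w).length
        · have hwi : w ∉ ord.take i := fun h => hwt (hsub w h)
          have h3 := h.max i hi' w hPw hwi
          have h4 : j ≤ (nbl G (ord.take i) v).length := by
            rw [← hv] at h3
            omega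
          have := ih j hj w v W hPw hPv (by omega) hwi hvi h2 h4 hW hwW hvW
          refine hmono this ?_ (Or.inr (Or.inr rfl))
          rcases hw with h | h
          · exact Or.inl h
          · exact Or.inr (Or.inl h)
        · exact ReflTransGen.single (edge w hw hPw hwW hwt h1 h2)
      exact (toV z (Or.inl rfl) hPz hzW hz hrz).trans
        (CR.rev (toV z' (Or.inr rfl) hPz' hz'W hz' hrz'))

/-- claim `S_j(i)` of the paper -/
theorem scan_claim (h : IsScan G P L ord BK) (i : ℕ) : ∀ (j : ℕ), j ≤ L → i ≤ ord.length →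
    ∀ (W : Finset ℕ), W.card < j → ∀ z z', P z → P z' → z ∉ ord.take i → z' ∉ ord.take i →
    j ≤ (nbl G (ord.take i) z).length → j ≤ (nbl G (ord.take i) z').length → z ∉ W → z' ∉ W →
    ReflTransGen (fun a b => CertAdj BK a b ∧ b ∉ W) z z' := by
  intro j hj hi W hW z z' hPz hPz' hz hz' h1 h2 hzW hz'W
  refine ReflTransGen.mono ?_ _ _
    (scan_claim_aux h i j hj z z' W hPz hPz' hi hz hz' h1 h2 hW hzW hz'W)
  intro a b hab
  exact ⟨hab.1, hab.2.2.2.2⟩

/-- consequence: the certificate keeps adjacent vertices connected -/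
theorem scan_conn (h : IsScan G P L ord BK) {W : Finset ℕ} (hW : W.card < L) {u v : ℕ} (hu : P u)
    (hv : P v) (huv : G.Adj u v) (huW : u ∉ W) (hvW : v ∉ W) :
    ReflTransGen (fun a b => CertAdj BK a b ∧ b ∉ W) u v := by
  have key : ∀ z z' : ℕ, P z → P z' → G.Adj z z' → z ∉ W → z' ∉ W →
      ∀ i, ∀ h' : i < ord.length, ord[i] = z' → z ∉ ord.take (i + 1) →
      ReflTransGen (CR BK W (fun _ => True)) z z' := by
    intro z z' hPz hPz' hadj hz hz' i hi hiz hzt
    have hzi : z ∉ ord.take i := fun h => hzt (by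
      rw [List.take_add_one]; exact List.mem_append_left _ h)
    by_cases hr : (nbl G (ord.take i) z).length < L
    · obtain ⟨p, hp, hpw⟩ := List.mem_iff_getElem.1 ((h.mem z).2 hPz)
      have hip : i < p := by
        by_contra hip
        apply hzt
        rw [List.mem_take_iff_getElem]
        exact ⟨p, by omega, hpw⟩
      refine ReflTransGen.single ⟨Or.inl ?_, trivial, trivial, hz, hz'⟩
      rw [← hiz, ← hpw]
      exact h.mem_bk hi hp hip (by rw [hpw, hiz]; exact hadj.symm) (by rw [hpw]; exact hr)
    · have h3 := h.max i hi z hPz hzi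
      have h4 : L ≤ (nbl G (ord.take i) z').length := by
        rw [hiz] at h3
        omega
      have hvi : z' ∉ ord.take i := by
        rw [← hiz]
        exact h.notMem_take hi le_rfl
      exact CR.mono (fun _ _ => trivial) (fun _ _ h => h)
        (scan_claim_aux h i L le_rfl z z' W hPz hPz' (by omega) hzi hvi (by omega) h4 hW hz hz')
  obtain ⟨i, hi, hiz⟩ := List.mem_iff_getElem.1 ((h.mem u).2 hu)
  obtain ⟨i', hi', hiz'⟩ := List.mem_iff_getElem.1 ((h.mem v).2 hv)
  have hne : i ≠ i' := by
    intro h
    subst h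
    exact huv.ne (hiz.symm.trans hiz')
  have hres : ReflTransGen (CR BK W (fun _ => True)) u v := by
    rcases lt_or_gt_of_ne hne with hlt | hlt
    · exact CR.rev (key v u hv hu huv.symm hvW huW i hi hiz
        (hiz' ▸ h.notMem_take hi' (by omega)))
    · exact key u v hu hv huv huW hvW i' hi' hiz' (hiz ▸ h.notMem_take hi (by omega))
  refine ReflTransGen.mono ?_ _ _ hres
  intro a b hab
  exact ⟨hab.1, hab.2.2.2.2⟩

/-- the property of the certificate which is used later -/
def CertOK (G : SimpleGraph ℕ) (L : ℕ) (BK : ℕ → List ℕ) : Prop :=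
  ∀ W : Finset ℕ, W.card < L → ∀ u v, G.Adj u v → u ∉ W → v ∉ W →
    ReflTransGen (fun a b => CertAdj BK a b ∧ b ∉ W) u v

/-- covers of the certificate edges leaving `U` are covers of the edges leaving `U` -/
theorem CertOK.cov (h : CertOK G L BK) {S U : Finset ℕ} (hSU : ∀ v ∈ U, v ∉ S) {X : List ℕ}
    (hX : S.card + X.length < L)
    (hc : ∀ a ∈ U, ∀ b, b ∉ U → b ∉ S → CertAdj BK a b → a ∈ X ∨ b ∈ X) : Cov G S U X := by
  intro a ha b hadj hb hbS
  by_contra hcon
  rw [not_or] at hcon
  have hcard : (S ∪ X.toFinset).card < L := by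
    have h1 := card_union_le S X.toFinset
    have h2 := List.toFinset_card_le X
    omega
  have haW : a ∉ S ∪ X.toFinset := by
    rw [mem_union, List.mem_toFinset]
    rintro (h' | h')
    · exact hSU a ha h'
    · exact hcon.1 h'
  have hbW : b ∉ S ∪ X.toFinset := by
    rw [mem_union, List.mem_toFinset]
    rintro (h' | h')
    · exact hbS h'
    · exact hcon.2 h'
  have hp := h _ hcard a b hadj haW hbW
  have : b ∈ U ∧ b ∉ S ∪ X.toFinset := by
    clear hb hbS hadj hcon hbW
    induction hp with
    | refl => exact ⟨ha, haW⟩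
    | @tail c d _ hcd ih =>
      refine ⟨?_, hcd.2⟩
      by_contra hd
      have h1 := hcd.2
      rw [mem_union, List.mem_toFinset, not_or] at h1
      have h2 := ih.2
      rw [mem_union, List.mem_toFinset, not_or] at h2
      rcases hc c ih.1 d hd h1.1 hcd.1 with h3 | h3
      · exact h2.2 h3
      · exact h1.2 h3
  exact hb this.1

/-- for closed `U` the neighbours of `U` are the certificate neighbours -/
theorem CertOK.flag (h : CertOK G L BK) (hbk : ∀ a b, b ∈ BK a → G.Adj a b)
    {S U : Finset ℕ} (hSU : ∀ v ∈ U, v ∉ S) (hS : S.card ≤ L) (hcl : Closed G S U) {s : ℕ}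
    (hs : s ∈ S) : (∃ a ∈ U, G.Adj a s) ↔ ∃ a ∈ U, CertAdj BK a s := by
  constructor
  · rintro ⟨a, ha, hadj⟩
    by_contra hcon
    push Not at hcon
    have hcard : (S.erase s).card < L := by
      rw [card_erase_of_mem hs]
      have : 1 ≤ S.card := card_pos.2 ⟨s, hs⟩
      omega
    have hp := h _ hcard a s hadj (fun h' => hSU a ha (mem_of_mem_erase h'))
      (fun h' => (mem_erase.1 h').1 rfl)
    have hadjC : ∀ c d, CertAdj BK c d → G.Adj c d := by
      intro c d hcd
      rcases hcd with h' | h'
      · exact hbk c d h'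
      · exact (hbk d c h').symm
    have key : ∀ t, ReflTransGen (fun a b => CertAdj BK a b ∧ b ∉ S.erase s) a t → t ∈ U := by
      intro t ht
      induction ht with
      | refl => exact ha
      | @tail c d _ hcd ih =>
        rcases hcl c ih d (hadjC c d hcd.1) with h' | h'
        · exact h'
        · have hds : d = s := by
            by_contra hne
            exact hcd.2 (mem_erase.2 ⟨hne, h'⟩)
          subst hds
          exact absurd hcd.1 (hcon c ih)
    exact hSU s (key s hp) hs
  · rintro ⟨a, ha, hadj⟩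
    refine ⟨a, ha, ?_⟩
    rcases hadj with h' | h'
    · exact hbk a s h'
    · exact (hbk s a h').symm

/-- blocks of the order: if `ord[i]` has no neighbour before `i`, then no vertex of the rest has
a neighbour before `i` -/
theorem IsScan.block (h : IsScan G P L ord BK) (hL : 1 ≤ L) {i : ℕ} (hi : i < ord.length)
    (h0 : nbl G (ord.take i) ord[i] = []) {u v : ℕ} (hu : u ∈ ord.take i) (hv : v ∈ ord.drop i) :
    ¬ G.Adj u v := by
  intro hadj
  have hvm : v ∈ ord := List.mem_of_mem_drop hv
  have hvi : v ∉ ord.take i := by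
    intro h'
    have h1 := List.take_append_drop i ord
    have h2 := h.nd
    rw [← h1, List.nodup_append] at h2
    exact h2.2.2 v h' v hv rfl
  have h1 := h.max i hi v ((h.mem v).1 hvm) hvi
  rw [h0, List.length_nil] at h1
  have h2 : (nbl G (ord.take i) v).length = 0 := by omega
  have h3 : u ∈ nbl G (ord.take i) v := by
    unfold nbl
    rw [List.mem_filter]
    exact ⟨hu, by simpa using hadj⟩
  rw [List.eq_nil_of_length_eq_zero h2] at h3
  simp at h3

end TL
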