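import Pool.Agent.W_3fea_h44.Branch

/-!
# Giants: kernels of the edges between classes
-/

namespace TL

open Relation Finset Classical

/-- `ker` is a list of edges such that a cover of at most `q` vertices of the listed edges between
the classes `a` and `b` covers all edges between these classes -/
structure IsKer (G : SimpleGraph ℕ) (q : ℕ) (node : ℕ → ℕ) (ker : List (ℕ × ℕ)) : Prop where
  adj : ∀ e ∈ ker, G.Adj e.1 e.2
  cov : ∀ a b, a ≠ b → ∀ Z : Finset ℕ, Z.card ≤ q →
    (∀ e ∈ ker, node e.1 = a → node e.2 = b → e.1 ∈ Z ∨ e.2 ∈ Z) →
    ∀ x y, G.Adj x y → node x = a → node y = b → x ∈ Z ∨ y ∈ Z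

variable {n : ℕ} {G : SimpleGraph ℕ} {q : ℕ} {node : ℕ → ℕ} {ker : List (ℕ × ℕ)}

/-- the greedy kernel of a list `l` of edges (all between the same two classes): the counters of
the ends and of the list are bounded.  `kept` is the list of the edges kept so far. -/
noncomputable def greedy (q : ℕ) (kept : List (ℕ × ℕ)) : List (ℕ × ℕ) → List (ℕ × ℕ)
  | [] => kept
  | e :: l =>
    if (kept.filter (fun f => f.1 = e.1)).length ≤ q ∧
        (kept.filter (fun f => f.2 = e.2)).length ≤ q ∧ kept.length ≤ q * (q + 1)
    then greedy q (kept ++ [e]) l else greedy q kept l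

/-- covers with at most `q` vertices of the greedy kernel are covers of the list -/
theorem greedy_cov {l kept : List (ℕ × ℕ)} (hnd : (kept ++ l).Nodup)
    (hdis : ∀ e ∈ kept ++ l, ∀ f ∈ kept ++ l, e.1 ≠ f.2)
    (hk : ∀ v, (kept.filter (fun f => f.1 = v)).length ≤ q + 1 ∧
      (kept.filter (fun f => f.2 = v)).length ≤ q + 1)
    {Z : Finset ℕ} (hZ : Z.card ≤ q) (hc : ∀ e ∈ greedy q kept l, e.1 ∈ Z ∨ e.2 ∈ Z) :
    ∀ e ∈ kept ++ l, e.1 ∈ Z ∨ e.2 ∈ Z := by
  induction l generalizing kept with
  | nil => simpa [greedy] using hc
  | cons e l ih =>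
    have hl : ∀ (K : List (ℕ × ℕ)) (g : ℕ × ℕ → ℕ) (v : ℕ),
        ((K ++ [e]).filter (fun f => g f = v)).length =
          (K.filter (fun f => g f = v)).length + if g e = v then 1 else 0 := by
      intro K g v
      by_cases h : g e = v <;> simp [List.filter_append, h]
    by_cases hcond : (kept.filter (fun f => f.1 = e.1)).length ≤ q ∧
        (kept.filter (fun f => f.2 = e.2)).length ≤ q ∧ kept.length ≤ q * (q + 1)
    · rw [greedy, if_pos hcond] at hc
      have h1 : kept ++ e :: l = (kept ++ [e]) ++ l := by simp
      rw [h1] at hnd hdis ⊢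
      refine ih hnd hdis (fun v => ?_) hc
      rw [hl kept Prod.fst v, hl kept Prod.snd v]
      have hv := hk v
      constructor
      · by_cases h : Prod.fst e = v
        · rw [if_pos h, ← h]
          exact Nat.succ_le_succ hcond.1
        · rw [if_neg h]
          exact hv.1
      · by_cases h : Prod.snd e = v
        · rw [if_pos h, ← h]
          exact Nat.succ_le_succ hcond.2.1
        · rw [if_neg h]
          exact hv.2
    · rw [greedy, if_neg hcond] at hc
      have hsub : (kept ++ l).Sublist (kept ++ e :: l) :=
        List.Sublist.append (List.Sublist.refl _) (List.sublist_cons_self e l)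
      have hall := ih (hnd.sublist hsub)
        (fun a ha b hb => hdis a (hsub.subset ha) b (hsub.subset hb)) hk hc
      have hkept : ∀ f ∈ kept, f.1 ∈ Z ∨ f.2 ∈ Z := fun f hf =>
        hall f (List.mem_append_left _ hf)
      have hkn : kept.Nodup := (List.nodup_append.1 hnd).1
      have hcard : ∀ (P : ℕ × ℕ → Prop) [DecidablePred P],
          (kept.filter (fun f => decide (P f))).length = (kept.toFinset.filter P).card := by
        intro P _
        rw [← List.toFinset_card_of_nodup (hkn.filter _)]
        congr 1
        ext f
        simp only [List.mem_toFinset, List.mem_filter, Finset.mem_filter, decide_eq_true_eq]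
      have hkdis : ∀ a ∈ kept, ∀ b ∈ kept, a.1 ≠ b.2 := fun a ha b hb =>
        hdis a (List.mem_append_left _ ha) b (List.mem_append_left _ hb)
      have hecov : e.1 ∈ Z ∨ e.2 ∈ Z := by
        by_contra hno
        have hno1 : e.1 ∉ Z := fun h => hno (Or.inl h)
        have hno2 : e.2 ∉ Z := fun h => hno (Or.inr h)
        apply hcond
        refine ⟨?_, ?_, ?_⟩
        · rw [hcard (fun f => f.1 = e.1)]
          refine le_trans ?_ hZ
          refine card_le_card_of_injOn Prod.snd ?_ ?_
          · intro f hf
            have hf' := Finset.mem_filter.1 (Finset.mem_coe.1 hf)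
            rcases hkept f (List.mem_toFinset.1 hf'.1) with h | h
            · rw [hf'.2] at h; exact absurd h hno1
            · exact h
          · intro f hf g hg hfg
            have hf' := Finset.mem_filter.1 (Finset.mem_coe.1 hf)
            have hg' := Finset.mem_filter.1 (Finset.mem_coe.1 hg)
            exact Prod.ext (hf'.2.trans hg'.2.symm) hfg
        · rw [hcard (fun f => f.2 = e.2)]
          refine le_trans ?_ hZ
          refine card_le_card_of_injOn Prod.fst ?_ ?_
          · intro f hf
            have hf' := Finset.mem_filter.1 (Finset.mem_coe.1 hf)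
            rcases hkept f (List.mem_toFinset.1 hf'.1) with h | h
            · exact h
            · rw [hf'.2] at h; exact absurd h hno2
          · intro f hf g hg hfg
            have hf' := Finset.mem_filter.1 (Finset.mem_coe.1 hf)
            have hg' := Finset.mem_filter.1 (Finset.mem_coe.1 hg)
            exact Prod.ext hfg (hf'.2.trans hg'.2.symm)
        · have hK : kept.length = kept.toFinset.card :=
            (List.toFinset_card_of_nodup hkn).symm
          have hbi : kept.toFinset ⊆ Z.biUnion
              (fun v => kept.toFinset.filter (fun f => f.1 = v ∨ f.2 = v)) := by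
            intro f hf
            rw [Finset.mem_biUnion]
            rcases hkept f (List.mem_toFinset.1 hf) with h | h
            · exact ⟨_, h, Finset.mem_filter.2 ⟨hf, Or.inl rfl⟩⟩
            · exact ⟨_, h, Finset.mem_filter.2 ⟨hf, Or.inr rfl⟩⟩
          have hone : ∀ v ∈ Z,
              (kept.toFinset.filter (fun f => f.1 = v ∨ f.2 = v)).card ≤ q + 1 := by
            intro v _
            by_cases hex : ∃ f ∈ kept, f.1 = v
            · obtain ⟨f0, hf0, hf0v⟩ := hex
              have hv := (hk v).1
              rw [hcard (fun f => f.1 = v)] at hv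
              refine le_trans (card_le_card ?_) hv
              intro f hf
              have hf' := Finset.mem_filter.1 hf
              refine Finset.mem_filter.2 ⟨hf'.1, ?_⟩
              rcases hf'.2 with h | h
              · exact h
              · exact absurd (hf0v.trans h.symm)
                  (hkdis f0 hf0 f (List.mem_toFinset.1 hf'.1))
            · have hv := (hk v).2
              rw [hcard (fun f => f.2 = v)] at hv
              refine le_trans (card_le_card ?_) hv
              intro f hf
              have hf' := Finset.mem_filter.1 hf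
              refine Finset.mem_filter.2 ⟨hf'.1, ?_⟩
              rcases hf'.2 with h | h
              · exact absurd ⟨f, List.mem_toFinset.1 hf'.1, h⟩ hex
              · exact h
          rw [hK]
          calc kept.toFinset.card ≤ (Z.biUnion
              (fun v => kept.toFinset.filter (fun f => f.1 = v ∨ f.2 = v))).card :=
                card_le_card hbi
            _ ≤ Z.card * (q + 1) := card_biUnion_le_card_mul _ _ _ hone
            _ ≤ q * (q + 1) := Nat.mul_le_mul_right _ hZ
      intro f hf
      rcases List.mem_append.1 hf with h | h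
      · exact hkept f h
      · rcases List.mem_cons.1 h with h | h
        · rw [h]; exact hecov
        · exact hall f (List.mem_append_right _ h)

theorem greedy_length {l kept : List (ℕ × ℕ)} (h : kept.length ≤ q * (q + 1) + 1) :
    (greedy q kept l).length ≤ q * (q + 1) + 1 := by
  induction l generalizing kept with
  | nil => simpa [greedy] using h
  | cons e l ih =>
    rw [greedy]
    split_ifs with hcond
    · refine ih ?_
      rw [List.length_append, List.length_singleton]
      exact Nat.succ_le_succ hcond.2.2
    · exact ih h

theorem greedy_sub {l kept : List (ℕ × ℕ)} : ∀ e ∈ greedy q kept l, e ∈ kept ++ l := by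
  induction l generalizing kept with
  | nil => intro e he; simpa [greedy] using he
  | cons f l ih =>
    intro e he
    rw [greedy] at he
    split_ifs at he with hcond
    · have := ih e he
      simpa using this
    · have := ih e he
      rcases List.mem_append.1 this with h | h
      · exact List.mem_append_left _ h
      · exact List.mem_append_right _ (List.mem_cons_of_mem _ h)

/-- test for a giant: if a small set covers the kernel edges which leave `N[c]`, it covers all
edges which leave `U = N[c] - S` -/
theorem IsKer.test (hG : Inn n G) (hk : IsKer G q node ker) {S : Finset ℕ} {c : ℕ} (hc : c ∉ S)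
    (hcode : ∀ x y, x < n → y < n → node x = node y → (x = c ∨ G.Adj c x) → (y = c ∨ G.Adj c y))
    {X : List ℕ} (hX : S.card + X.length ≤ q)
    (hcov : ∀ e ∈ ker, (e.1 = c ∨ G.Adj c e.1) → ¬ (e.2 = c ∨ G.Adj c e.2) → e.1 ∉ S → e.2 ∉ S →
      e.1 ∈ X ∨ e.2 ∈ X) : Cov G S (Uc n G S c) X := by
  intro a ha b hab hbU hbS
  have haS : a ∉ S := Uc_disjoint hG hc a ha
  have haN : a = c ∨ G.Adj c a := by
    rcases (mem_Uc hG).1 ha with h | h
    · exact Or.inl h
    · exact Or.inr h.1
  have hbN : ¬ (b = c ∨ G.Adj c b) := by
    rintro (h | h)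
    · exact hbU ((mem_Uc hG).2 (Or.inl h))
    · exact hbU ((mem_Uc hG).2 (Or.inr ⟨h, hbS⟩))
  have han : a < n := hG a b hab
  have hbn : b < n := hG.right hab
  have hne : node a ≠ node b := fun h => hbN (hcode a b han hbn h haN)
  have hZ : (S ∪ X.toFinset).card ≤ q :=
    le_trans (card_union_le _ _) (le_trans (Nat.add_le_add_left (List.toFinset_card_le X) _) hX)
  have key := hk.cov (node a) (node b) hne (S ∪ X.toFinset) hZ (by
    intro e he h1 h2
    have hadj := hk.adj e he
    have he1 : e.1 < n := hG _ _ hadj
    have he2 : e.2 < n := hG.right hadj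
    by_cases hs1 : e.1 ∈ S
    · exact Or.inl (mem_union_left _ hs1)
    by_cases hs2 : e.2 ∈ S
    · exact Or.inr (mem_union_left _ hs2)
    have hN1 : e.1 = c ∨ G.Adj c e.1 := hcode a e.1 han he1 h1.symm haN
    have hN2 : ¬ (e.2 = c ∨ G.Adj c e.2) := fun h => hbN (hcode e.2 b he2 hbn h2 h)
    rcases hcov e he hN1 hN2 hs1 hs2 with h | h
    · exact Or.inl (mem_union_right _ (List.mem_toFinset.2 h))
    · exact Or.inr (mem_union_right _ (List.mem_toFinset.2 h))) a b hab rfl rfl
  rcases key with h | h
  · rcases mem_union.1 h with h' | h'
    · exact absurd h' haS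
    · exact Or.inl (List.mem_toFinset.1 h')
  · rcases mem_union.1 h with h' | h'
    · exact absurd h' hbS
    · exact Or.inr (List.mem_toFinset.1 h')

/-- scan of a giant `p` (its own class) in a branching with giant `c`: if all kernel neighbours of
`p` are inside `N[c] ∪ Y`, then all neighbours are -/
theorem IsKer.scan (hG : Inn n G) (hk : IsKer G q node ker) {c p : ℕ} (hp : p < n)
    (hsing : ∀ w, w < n → node w = node p → w = p)
    (hcode : ∀ x y, x < n → y < n → node x = node y → (x = c ∨ G.Adj c x) → (y = c ∨ G.Adj c y))
    {Y : Finset ℕ} (hY : Y.card ≤ q)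
    (hcov : ∀ e ∈ ker, e.1 = p → (e.2 = c ∨ G.Adj c e.2) ∨ e.2 ∈ Y) :
    ∀ y, G.Adj p y → (y = c ∨ G.Adj c y) ∨ y ∈ Y := by
  intro y hpy
  by_contra hno
  have hyN : ¬ (y = c ∨ G.Adj c y) := fun h => hno (Or.inl h)
  have hyY : y ∉ Y := fun h => hno (Or.inr h)
  have hyn : y < n := hG.right hpy
  have hne : node p ≠ node y := by
    intro h
    have := hsing y hyn h.symm
    subst this
    exact G.irrefl hpy
  have hZ : (Y.erase p).card ≤ q := le_trans (card_le_card (erase_subset _ _)) hY
  have key := hk.cov (node p) (node y) hne (Y.erase p) hZ (by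
    intro e he h1 h2
    have hadj := hk.adj e he
    have he1 : e.1 < n := hG _ _ hadj
    have he2 : e.2 < n := hG.right hadj
    have hep : e.1 = p := hsing e.1 he1 h1
    have hN2 : ¬ (e.2 = c ∨ G.Adj c e.2) := fun h => hyN (hcode e.2 y he2 hyn h2 h)
    rcases hcov e he hep with h | h
    · exact absurd h hN2
    · refine Or.inr (mem_erase.2 ⟨?_, h⟩)
      intro h3
      rw [hep, h3] at hadj
      exact G.irrefl hadj) p y hpy rfl rfl
  rcases key with h | h
  · exact (notMem_erase p Y) h
  · exact hyY (mem_of_mem_erase h)

end TL
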