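import Pool.Agent.W_3fea_h44.Prog
import Pool.Agent.W_3fea_h44.Branch
import Pool.Agent.W_3fea_h44.Cert
import Pool.Agent.W_3fea_h44.Giant

/-!
# Contents of the memory after the preprocessing
-/

namespace TL

open Relation Finset Classical

/-- `δ(k)` -/
@[irreducible] def dl (k : ℕ) : ℕ := 2 ^ (2 ^ (k + cdel))
/-- `g(k)` -/
@[irreducible] def gg (k : ℕ) : ℕ := 2 ^ (2 ^ (k + cg))

/-- list of the edges, each edge once -/
structure EL (G : SimpleGraph ℕ) (m : ℕ) (eu ev : ℕ → ℕ) : Prop where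
  adj : ∀ i < m, G.Adj (eu i) (ev i)
  surj : ∀ u v, G.Adj u v → ∃ i < m, (eu i = u ∧ ev i = v) ∨ (eu i = v ∧ ev i = u)
  inj : ∀ i < m, ∀ j < m, (eu i = eu j ∧ ev i = ev j) ∨ (eu i = ev j ∧ ev i = eu j) → i = j

/-- list of the arcs (oriented edges), each arc once -/
structure Arcs (G : SimpleGraph ℕ) (N : ℕ) (ax ay : ℕ → ℕ) : Prop where
  adj : ∀ i < N, G.Adj (ax i) (ay i)
  surj : ∀ x y, G.Adj x y → ∃ i < N, ax i = x ∧ ay i = y
  inj : ∀ i < N, ∀ j < N, ax i = ax j → ay i = ay j → i = j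

/-- result of the bucket distribution -/
structure DistP (N K : ℕ) (key ax ay off bx by_ : ℕ → ℕ) : Prop where
  off0 : off 0 = 0
  offK : off K = N
  mono : ∀ b < K, off b ≤ off (b + 1)
  lx : ∀ b < K, seg bx (off b) (off (b + 1)) =
    ((List.range N).filter (fun i => key i = b)).map ax
  ly : ∀ b < K, seg by_ (off b) (off (b + 1)) =
    ((List.range N).filter (fun i => key i = b)).map ay

/-- adjacency lists -/
structure AdjP (n m : ℕ) (G : SimpleGraph ℕ) (off adj : ℕ → ℕ) : Prop where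
  off0 : off 0 = 0
  offn : off n = 2 * m
  mono : ∀ v < n, off v ≤ off (v + 1)
  nd : ∀ v < n, (seg adj (off v) (off (v + 1))).Nodup
  mem : ∀ v < n, ∀ y, y ∈ seg adj (off v) (off (v + 1)) ↔ G.Adj v y

/-! ### the lists stored in the memory -/

/-- list of neighbours -/
def adjL (D : St) (v : ℕ) : List ℕ := seg (D.m ADJ) (D.m OFF v) (D.m OFF (v + 1))
/-- list of neighbours of degree at least `δ` -/
def adA (D : St) (v : ℕ) : List ℕ := seg (D.m ADA) (D.m OFA v) (D.m OFA (v + 1))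
/-- backward certificate neighbours -/
def bk (D : St) (v : ℕ) : List ℕ := seg (D.m BKA) (D.m OFF v) (D.m BE v)
/-- vertices of degree at least `δ` -/
def alL (D : St) : List ℕ := seg (D.m AL) 0 (D.r rnA)
/-- giants -/
def giL (D : St) : List ℕ := seg (D.m GI) 0 (D.r rng)
/-- kernel -/
def kerL (D : St) : List (ℕ × ℕ) := (List.range (D.r rnK)).map (fun i => (D.m KX i, D.m KY i))
/-- table of bad components -/
def tbL (D : St) : List ℕ := seg (D.m TB) 0 (D.r rnT)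

/-- the label `h` occurs in the chain of the class node `q` -/
inductive InCh (par lab : ℕ → ℕ) (h : ℕ) : ℕ → Prop
  | here (q : ℕ) : lab q = h + 1 → InCh par lab h q
  | up (q : ℕ) : lab q ≠ 0 → InCh par lab h (par q) → InCh par lab h q

/-- the set of giants -/
noncomputable def gset (n : ℕ) (G : SimpleGraph ℕ) (tau : ℕ) : Finset ℕ :=
  (range n).filter (fun v => tau ≤ dg n G v)

/-- adjacency lists, degrees, lists of vertices of large degree -/
structure PrepA (n m k : ℕ) (G : SimpleGraph ℕ) (D : St) : Prop where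
  rn_ : D.r rn = n
  rm_ : D.r rm = m
  rk_ : D.r rk = k
  rq_ : D.r rq = 4 * k
  rqq_ : D.r rqq = 4 * k * (4 * k + 1)
  rdel_ : D.r rdel = dl k
  rD_ : D.r rD = dl k + k
  rtau_ : D.r rtau = max (dl k + k) ((n + m) / gg k)
  adj : AdjP n m G (D.m OFF) (D.m ADJ)
  deg : ∀ v, D.m DEG v = dg n G v
  al : alL D = (List.range n).filter (fun v => dl k ≤ dg n G v)
  gi : giL D = (List.range n).filter (fun v => D.r rtau ≤ dg n G v)
  ofa : ∀ v < n, D.m OFA v ≤ D.m OFA (v + 1)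
  ada : ∀ v < n, adA D v = (adjL D v).filter (fun y => dl k ≤ dg n G y)

/-- the certificate -/
structure PrepB (n k : ℕ) (G : SimpleGraph ℕ) (D : St) : Prop where
  be1 : ∀ v < n, D.m OFF v ≤ D.m BE v
  be2 : ∀ v < n, D.m BE v ≤ D.m OFF (v + 1)
  len : ∀ v < n, (bk D v).length ≤ 4 * k + 1
  nd : ∀ v < n, (bk D v).Nodup
  mem : ∀ v < n, ∀ y ∈ bk D v, G.Adj v y
  cert : CertOK G (4 * k + 1) (fun v => if v < n then bk D v else [])
  fw : ∀ v < n, D.m FW v = ((range n).filter (fun y => v ∈ bk D y)).card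

/-- components of the graph minus the giants -/
structure PrepC (n : ℕ) (G : SimpleGraph ℕ) (D : St) : Prop where
  nE : n ≤ D.r rnE ∧ D.r rnE ≤ 2 * n
  ce_g : ∀ v < n, D.r rtau ≤ dg n G v → D.m CE v = n
  ce_n : ∀ v < n, dg n G v < D.r rtau → n < D.m CE v ∧ D.m CE v ≤ D.r rnE
  ce_iff : ∀ v < n, ∀ w < n, dg n G v < D.r rtau → dg n G w < D.r rtau →
    (D.m CE v = D.m CE w ↔ Rch G (gset n G (D.r rtau)) v w)
  cv : ∀ E, n < E → E ≤ D.r rnE → D.m CV E < n ∧ dg n G (D.m CV E) < D.r rtau ∧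
    D.m CE (D.m CV E) = E
  bad : ∀ E, n < E → E ≤ D.r rnE →
    ((D.m BAD E = 1 ↔ ¬ Dom G (gset n G (D.r rtau)) (D.m CV E)) ∧ D.m BAD E ≤ 1)

/-- classes -/
structure PrepD (n : ℕ) (G : SimpleGraph ℕ) (D : St) : Prop where
  nn : D.r rnn ≤ (D.r rng + 1) * 2 ^ D.r rng
  nn1 : 1 ≤ D.r rnn
  node_lt : ∀ e, e ≤ D.r rnE → D.m NODE e < D.r rnn
  par_lt : ∀ q < D.r rnn, D.m LAB q ≠ 0 → D.m PAR q < q
  lab_len : ∀ q < D.r rnn, ∀ h, InCh (D.m PAR) (D.m LAB) h q → h ∈ giL D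
  code : ∀ v < n, ∀ h, InCh (D.m PAR) (D.m LAB) h (D.m NODE v) ↔
    (h ∈ giL D ∧ (h = v ∨ G.Adj h v))
  codeE : ∀ E, n < E → E ≤ D.r rnE → ∀ h, InCh (D.m PAR) (D.m LAB) h (D.m NODE E) ↔
    (h ∈ giL D ∧ ∃ v < n, D.m CE v = E ∧ G.Adj h v)
  single : ∀ v < n, D.r rtau ≤ dg n G v → ∀ w < n, D.m NODE w = D.m NODE v → w = v

/-- kernel -/
structure PrepK (k : ℕ) (G : SimpleGraph ℕ) (D : St) : Prop where
  ker : IsKer G (4 * k) (D.m NODE) (kerL D)
  len : D.r rnK ≤ D.r rnn * D.r rnn * (4 * k * (4 * k + 1) + 1)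

/-- table of the bad components -/
structure PrepT (n k : ℕ) (G : SimpleGraph ℕ) (D : St) : Prop where
  nd : (tbL D).Nodup
  mem : ∀ E ∈ tbL D, n < E ∧ E ≤ D.r rnE ∧ ¬ Dom G (gset n G (D.r rtau)) (D.m CV E)
  full : ∀ E, n < E → E ≤ D.r rnE → ¬ Dom G (gset n G (D.r rtau)) (D.m CV E) → E ∉ tbL D →
    k + 1 ≤ ((tbL D).filter (fun E' => D.m NODE E' = D.m NODE E)).length
  len : D.r rnT ≤ D.r rnn * (k + 1)

/-- everything -/
structure Prep (n m k : ℕ) (G : SimpleGraph ℕ) (D : St) : Prop where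
  inn : Inn n G
  a : PrepA n m k G D
  b : PrepB n k G D
  c : PrepC n G D
  d : PrepD n G D
  e : PrepK k G D
  t : PrepT n k G D

end TL
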