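import Pool.Agent.W_3fea_h44.Defs
import Pool.Agent.W_3fea_h44.Repr

/-! # From graphs on `Fin n` to graphs on `ℕ` -/

namespace TL

open Relation Finset Classical

/-- the graph on `ℕ` -/
def Gn {n : ℕ} (G : SimpleGraph (Fin n)) : SimpleGraph ℕ := G.map Fin.valEmbedding

theorem Gn_adj {n : ℕ} (G : SimpleGraph (Fin n)) (a b : Fin n) :
    (Gn G).Adj a b ↔ G.Adj a b :=
  SimpleGraph.map_adj_apply

theorem Gn_inn {n : ℕ} (G : SimpleGraph (Fin n)) : Inn n (Gn G) := by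
  intro u v h
  obtain ⟨a, b, _, ha, _⟩ := (SimpleGraph.map_adj _ _ _ _).1 h
  rw [← ha]
  exact a.2

/-- the input lists every edge exactly once -/
theorem IsInput.el {n k : ℕ} {G : SimpleGraph (Fin n)} {s : St} (h : IsInput G k s) :
    EL (Gn G) G.edgeSet.ncard (s.m 0) (s.m 1) := by
  set m := G.edgeSet.ncard with hm
  have hex : ∀ i < m, ∃ u v : Fin n, G.Adj u v ∧ s.m 0 i = u ∧ s.m 1 i = v := h.edge
  -- the edge number `i`
  have hf : ∀ i : Fin m, ∃ e : G.edgeSet, ∃ u v : Fin n, e.1 = s(u, v) ∧ s.m 0 i = u ∧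
      s.m 1 i = v := by
    intro i
    obtain ⟨u, v, h1, h2, h3⟩ := hex i i.2
    exact ⟨⟨s(u, v), h1⟩, u, v, rfl, h2, h3⟩
  choose f hf using hf
  have hsurj : Function.Surjective f := by
    rintro ⟨e, he⟩
    induction e using Sym2.ind with
    | _ u v =>
      obtain ⟨i, hi, hi2⟩ := h.all u v he
      refine ⟨⟨i, hi⟩, Subtype.ext ?_⟩
      obtain ⟨u', v', h1, h2, h3⟩ := hf ⟨i, hi⟩
      rw [h1]
      rcases hi2 with ⟨h4, h5⟩ | ⟨h4, h5⟩
      · have e1 : u' = u := Fin.ext (h2.symm.trans h4)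
        have e2 : v' = v := Fin.ext (h3.symm.trans h5)
        rw [e1, e2]
      · have e1 : u' = v := Fin.ext (h2.symm.trans h4)
        have e2 : v' = u := Fin.ext (h3.symm.trans h5)
        rw [e1, e2]
        exact Sym2.eq_swap
  have hinj : Function.Injective f := by
    have hc : Fintype.card (Fin m) = Fintype.card G.edgeSet := by
      rw [Fintype.card_fin, hm, ← Nat.card_coe_set_eq, Nat.card_eq_fintype_card]
    exact ((Fintype.bijective_iff_surjective_and_card f).2 ⟨hsurj, hc⟩).1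
  refine ⟨?_, ?_, ?_⟩
  · intro i hi
    obtain ⟨u, v, h1, h2, h3⟩ := hex i hi
    rw [h2, h3]
    exact (Gn_adj G u v).2 h1
  · intro x y hxy
    obtain ⟨a, b, h1, h2, h3⟩ := (SimpleGraph.map_adj _ _ _ _).1 hxy
    obtain ⟨i, hi, hi2⟩ := h.all a b h1
    rw [← h2, ← h3]
    exact ⟨i, hi, hi2⟩
  · intro i hi j hj hij
    have h1 := hf ⟨i, hi⟩
    have h2 := hf ⟨j, hj⟩
    obtain ⟨u, v, a1, a2, a3⟩ := h1
    obtain ⟨u', v', b1, b2, b3⟩ := h2
    have : f ⟨i, hi⟩ = f ⟨j, hj⟩ := by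
      refine Subtype.ext ?_
      rw [a1, b1]
      rcases hij with ⟨h4, h5⟩ | ⟨h4, h5⟩
      · have e1 : u = u' := Fin.ext (a2.symm.trans (h4.trans b2))
        have e2 : v = v' := Fin.ext (a3.symm.trans (h5.trans b3))
        rw [e1, e2]
      · have e1 : u = v' := Fin.ext (a2.symm.trans (h4.trans b3))
        have e2 : v = u' := Fin.ext (a3.symm.trans (h5.trans b2))
        rw [e1, e2]
        exact Sym2.eq_swap
    exact congrArg Fin.val (hinj this)

theorem Bridge_mem {n : ℕ} {S : Finset (Fin n)} {a : Fin n} :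
    (a : ℕ) ∈ S.map Fin.valEmbedding ↔ a ∈ S := by
  constructor
  · intro h
    obtain ⟨b, hb, hb2⟩ := Finset.mem_map.1 h
    have : b = a := Fin.ext hb2
    rwa [← this]
  · intro h
    exact Finset.mem_map.2 ⟨a, h, rfl⟩

theorem Bridge_fwd {n : ℕ} {G : SimpleGraph (Fin n)} {S : Finset (Fin n)} {a : Fin n}
    (ha : a ∉ S) {y : ℕ} (h : Rch (Gn G) (S.map Fin.valEmbedding) a y) :
    ∃ (b : Fin n) (hb : b ∉ S), y = b ∧
      (G.induce {v | v ∉ S}).Reachable ⟨a, ha⟩ ⟨b, hb⟩ := by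
  induction h with
  | refl => exact ⟨a, ha, rfl, SimpleGraph.Reachable.refl _⟩
  | tail _ hyz ih =>
    obtain ⟨b, hb, rfl, hr⟩ := ih
    obtain ⟨h1, h2⟩ := hyz
    rename_i z h0
    have hz : z < n := (Gn_inn G).right h1
    have hc : (⟨z, hz⟩ : Fin n) ∉ S := fun h3 => h2 (Bridge_mem (a := ⟨z, hz⟩).2 h3)
    have h4 : G.Adj b ⟨z, hz⟩ := (Gn_adj G b ⟨z, hz⟩).1 h1
    refine ⟨⟨z, hz⟩, hc, rfl, hr.trans (SimpleGraph.Adj.reachable ?_)⟩
    exact h4

theorem Bridge_bwd {n : ℕ} {G : SimpleGraph (Fin n)} {S : Finset (Fin n)} {a b : Fin n}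
    (ha : a ∉ S) (hb : b ∉ S) (h : (G.induce {v | v ∉ S}).Reachable ⟨a, ha⟩ ⟨b, hb⟩) :
    Rch (Gn G) (S.map Fin.valEmbedding) a b := by
  rw [SimpleGraph.reachable_iff_reflTransGen] at h
  have h0 : ∀ x y : {v | v ∉ S}, (G.induce {v | v ∉ S}).Adj x y →
      (fun x y : ℕ => (Gn G).Adj x y ∧ y ∉ S.map Fin.valEmbedding) (x.1 : Fin n) (y.1 : Fin n) := by
    intro x y hxy
    have h1 : G.Adj x.1 y.1 := hxy
    exact ⟨(Gn_adj G _ _).2 h1, fun h3 => y.2 (Bridge_mem.1 h3)⟩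
  exact Relation.ReflTransGen.lift (p := fun x y : ℕ => (Gn G).Adj x y ∧
    y ∉ S.map Fin.valEmbedding) (fun x : {v | v ∉ S} => ((x.1 : Fin n) : ℕ)) h0 _ _ h

/-- solutions correspond to each other -/
theorem isSol_iff {n k : ℕ} (G : SimpleGraph (Fin n)) (S : Finset (Fin n)) :
    IsSol G k 1 S ↔ IsS n k (Gn G) (S.map Fin.valEmbedding) := by
  constructor
  · rintro ⟨h1, h2⟩
    refine ⟨?_, ?_, ?_⟩
    · intro v hv
      obtain ⟨a, _, rfl⟩ := Finset.mem_map.1 hv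
      exact a.2
    · rwa [Finset.card_map]
    · intro x hx hxS
      have ha : (⟨x, hx⟩ : Fin n) ∉ S := fun h3 => hxS (Bridge_mem (a := ⟨x, hx⟩).2 h3)
      obtain ⟨Q, hQ, hQ2⟩ := h2 ((G.induce {v | v ∉ S}).connectedComponentMk ⟨⟨x, hx⟩, ha⟩)
      obtain ⟨t, ht⟩ : ∃ t, t ∈ Q := by
        rcases hQ2 ⟨⟨⟨x, hx⟩, ha⟩, rfl⟩ with h3 | ⟨u, hu, _⟩
        · exact ⟨_, h3⟩
        · exact ⟨_, hu⟩
      have huniq : ∀ u ∈ Q, u = t := fun u hu => Finset.card_le_one.1 hQ u hu t ht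
      refine ⟨((t.1.1 : Fin n) : ℕ), ?_, ?_⟩
      · have h3 : (G.induce {v | v ∉ S}).Reachable t.1 ⟨⟨x, hx⟩, ha⟩ :=
          SimpleGraph.ConnectedComponent.exact t.2
        exact Bridge_bwd (a := ⟨x, hx⟩) ha t.1.2 h3.symm
      · intro y hy
        obtain ⟨b, hb, rfl, hr⟩ := Bridge_fwd (a := ⟨x, hx⟩) ha hy
        have hmem : (⟨b, hb⟩ : {v | v ∉ S}) ∈
            ((G.induce {v | v ∉ S}).connectedComponentMk ⟨⟨x, hx⟩, ha⟩).supp :=
          SimpleGraph.ConnectedComponent.sound hr.symm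
        rcases hQ2 ⟨⟨b, hb⟩, hmem⟩ with h3 | ⟨u, hu, h3⟩
        · left
          have h4 := huniq _ h3
          rw [← h4]
        · right
          have h4 := huniq _ hu
          rw [h4] at h3
          have h5 : G.Adj t.1.1 b := h3
          exact (Gn_adj G _ _).2 h5
  · rintro ⟨-, h1, h2⟩
    rw [Finset.card_map] at h1
    refine ⟨h1, ?_⟩
    intro C
    induction C using SimpleGraph.ConnectedComponent.ind with
    | _ a =>
      obtain ⟨a, ha⟩ := a
      have ha' : a ∉ S := ha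
      obtain ⟨t, ht, ht2⟩ := h2 a a.2 (fun h3 => ha' (Bridge_mem.1 h3))
      obtain ⟨b, hb, rfl, hr⟩ := Bridge_fwd ha' ht
      have hmem : (⟨b, hb⟩ : {v | v ∉ S}) ∈
          ((G.induce {v | v ∉ S}).connectedComponentMk ⟨a, ha⟩).supp :=
        SimpleGraph.ConnectedComponent.sound hr.symm
      refine ⟨{⟨⟨b, hb⟩, hmem⟩}, by simp, ?_⟩
      rintro ⟨⟨v, hv⟩, hv2⟩
      have hv' : v ∉ S := hv
      have h3 : (G.induce {v | v ∉ S}).Reachable ⟨v, hv⟩ ⟨a, ha⟩ :=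
        SimpleGraph.ConnectedComponent.exact hv2
      rcases ht2 v (Bridge_bwd ha' hv' h3.symm) with h4 | h4
      · left
        rw [Finset.mem_singleton]
        have : v = b := Fin.ext h4
        subst this
        rfl
      · right
        refine ⟨⟨⟨b, hb⟩, hmem⟩, Finset.mem_singleton_self _, ?_⟩
        exact (Gn_adj G _ _).1 h4

end TL
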