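import Mathlib

/-!
# Truly linear algorithms for vertex deletion into components of bounded domination number

The model of computation (a structured random access machine whose only arithmetic is `+ 1` and
`- 1`), the encoding of the input, and the problem.
-/

namespace TL

/-! ### The machine -/

/-- A state of the machine: registers `r x` and arrays `m a i`; every register and every array
cell holds a natural number. -/
structure St where
  r : ℕ → ℕ
  m : ℕ → ℕ → ℕ

namespace St

/-- write `v` in register `x` -/
def setR (s : St) (x v : ℕ) : St := ⟨Function.update s.r x v, s.m⟩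

/-- write `v` in cell `i` of array `a` -/
def setM (s : St) (a i v : ℕ) : St := ⟨s.r, Function.update s.m a (Function.update (s.m a) i v)⟩

end St

/-- Expressions: constants, registers, array cells `get a e` (the array `a` is fixed, the index is
computed), successor and predecessor. -/
inductive Exp : Type
  | const : ℕ → Exp
  | reg : ℕ → Exp
  | get : ℕ → Exp → Exp
  | inc : Exp → Exp
  | dec : Exp → Exp

/-- value of an expression (`dec 0 = 0`) -/
def Exp.ev (s : St) : Exp → ℕ
  | .const n => n
  | .reg x => s.r x
  | .get a e => s.m a (e.ev s)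
  | .inc e => e.ev s + 1
  | .dec e => e.ev s - 1

/-- cost of an expression: number of its operations -/
def Exp.cost : Exp → ℕ
  | .const _ => 1
  | .reg _ => 1
  | .get _ e => e.cost + 1
  | .inc e => e.cost + 1
  | .dec e => e.cost + 1

/-- all values which occur in the evaluation of the expression (in particular all addresses) are
at most `W` -/
def Exp.bd (W : ℕ) (s : St) : Exp → Prop
  | .const n => n ≤ W
  | .reg x => s.r x ≤ W
  | .get a e => e.bd W s ∧ s.m a (e.ev s) ≤ W
  | .inc e => e.bd W s ∧ e.ev s + 1 ≤ W
  | .dec e => e.bd W s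

/-- Tests: comparisons and Boolean connectives. -/
inductive Cond : Type
  | lt : Exp → Exp → Cond
  | eq : Exp → Exp → Cond
  | not : Cond → Cond
  | and : Cond → Cond → Cond
  | or : Cond → Cond → Cond

/-- value of a test -/
def Cond.ev (s : St) : Cond → Bool
  | .lt e f => decide (e.ev s < f.ev s)
  | .eq e f => decide (e.ev s = f.ev s)
  | .not b => ! b.ev s
  | .and b c => b.ev s && c.ev s
  | .or b c => b.ev s || c.ev s

/-- cost of a test: number of its operations -/
def Cond.cost : Cond → ℕ
  | .lt e f => e.cost + f.cost + 1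
  | .eq e f => e.cost + f.cost + 1
  | .not b => b.cost + 1
  | .and b c => b.cost + c.cost + 1
  | .or b c => b.cost + c.cost + 1

/-- all values which occur in the evaluation of the test are at most `W` -/
def Cond.bd (W : ℕ) (s : St) : Cond → Prop
  | .lt e f => e.bd W s ∧ f.bd W s
  | .eq e f => e.bd W s ∧ f.bd W s
  | .not b => b.bd W s
  | .and b c => b.bd W s ∧ c.bd W s
  | .or b c => b.bd W s ∧ c.bd W s

/-- Programs: `skip`, assignment `set x e` to a register, assignment `put a i e` to cell `i` of
array `a`, composition, branching, and `loop b c` = while `b` do `c`. -/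
inductive Cmd : Type
  | skip : Cmd
  | set : ℕ → Exp → Cmd
  | put : ℕ → Exp → Exp → Cmd
  | seq : Cmd → Cmd → Cmd
  | ite : Cond → Cmd → Cmd → Cmd
  | loop : Cond → Cmd → Cmd

/-- `Exec W c s t s'`: the program `c` started in state `s` halts in state `s'` after exactly `t`
operations, and all numbers which occur during the computation (values and addresses) are at most
`W`. -/
inductive Exec (W : ℕ) : Cmd → St → ℕ → St → Prop
  | skip (s : St) : Exec W Cmd.skip s 1 s
  | set (x : ℕ) (e : Exp) (s : St) : e.bd W s → Exec W (Cmd.set x e) s (e.cost + 1) (s.setR x (e.ev s))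
  | put (a : ℕ) (i e : Exp) (s : St) : i.bd W s → e.bd W s →
      Exec W (Cmd.put a i e) s (i.cost + e.cost + 1) (s.setM a (i.ev s) (e.ev s))
  | seq {c d : Cmd} {s s1 s2 : St} {t u : ℕ} :
      Exec W c s t s1 → Exec W d s1 u s2 → Exec W (Cmd.seq c d) s (t + u) s2
  | iteT {b : Cond} {c d : Cmd} {s s' : St} {t : ℕ} :
      b.bd W s → b.ev s = true → Exec W c s t s' → Exec W (Cmd.ite b c d) s (b.cost + 1 + t) s'
  | iteF {b : Cond} {c d : Cmd} {s s' : St} {t : ℕ} :
      b.bd W s → b.ev s = false → Exec W d s t s' → Exec W (Cmd.ite b c d) s (b.cost + 1 + t) s'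
  | loopF {b : Cond} {c : Cmd} {s : St} :
      b.bd W s → b.ev s = false → Exec W (Cmd.loop b c) s (b.cost + 1) s
  | loopT {b : Cond} {c : Cmd} {s s1 s2 : St} {t u : ℕ} :
      b.bd W s → b.ev s = true → Exec W c s t s1 → Exec W (Cmd.loop b c) s1 u s2 →
      Exec W (Cmd.loop b c) s (b.cost + 1 + t + u) s2

/-! ### The input -/

/-- The initial state `s` encodes the graph `G` on the vertices `0, …, n - 1` and the number `k`:
register `0` holds `n`, register `1` holds the number `m` of edges, register `2` holds `k`; the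
edges are listed in the arrays `0` and `1` (in any order and with any orientation): the ends of the
`i`-th edge, `i < m`, are `s.m 0 i` and `s.m 1 i`; everything else is `0`. -/
structure IsInput {n : ℕ} (G : SimpleGraph (Fin n)) (k : ℕ) (s : St) : Prop where
  reg0 : s.r 0 = n
  reg1 : s.r 1 = G.edgeSet.ncard
  reg2 : s.r 2 = k
  reg3 : ∀ x, 3 ≤ x → s.r x = 0
  edge : ∀ i < G.edgeSet.ncard, ∃ u v : Fin n, G.Adj u v ∧ s.m 0 i = u ∧ s.m 1 i = v
  all : ∀ u v : Fin n, G.Adj u v → ∃ i < G.edgeSet.ncard,
    (s.m 0 i = u ∧ s.m 1 i = v) ∨ (s.m 0 i = v ∧ s.m 1 i = u)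
  zero : ∀ a i, (2 ≤ a ∨ G.edgeSet.ncard ≤ i) → s.m a i = 0

/-! ### The problem -/

/-- `γ(H) ≤ d` -/
def DomLe {V : Type*} (H : SimpleGraph V) (d : ℕ) : Prop :=
  ∃ D : Finset V, D.card ≤ d ∧ ∀ v, v ∈ D ∨ ∃ u ∈ D, H.Adj u v

/-- `|S| ≤ k` and every connected component `C` of `G - S` has `γ(C) ≤ d` -/
def IsSol {V : Type*} (G : SimpleGraph V) (k d : ℕ) (S : Finset V) : Prop :=
  S.card ≤ k ∧ ∀ C : (G.induce {v | v ∉ S}).ConnectedComponent,
    DomLe ((G.induce {v | v ∉ S}).induce C.supp) d

end TL
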