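import Pool.Agent.W_3fea_h44.PDist

/-! # Specification of `pAdj` -/

namespace TL

open Relation Finset Classical

/-- a copy loop -/
theorem pAdj_copy {a b hi N : ℕ} (hab : b ≠ a) (hhi : ri ≠ hi) {s : St} (hN : s.r hi = N) :
    Tri s (.for_ ri (K 0) hi (.put a (V ri) (A b (V ri)))) (6 + 11 * N)
      (fun s' => Fr [ri] [a] s s' ∧ ∀ v, s'.m a v = if v < N then s.m b v else s.m a v) := by
  refine Tri.for0 (I := fun j s' => Fr [ri] [a] s s' ∧
    ∀ v, s'.m a v = if v < j then s.m b v else s.m a v) 4 hN hhi ?_ ?_ ?_ ?_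
  · rintro j s1 v ⟨h1, h2⟩
    refine ⟨⟨fun x hx => ?_, fun c hc => ?_⟩, fun v' => ?_⟩
    · rw [St.setR_r, if_neg (by simpa using hx)]
      exact h1.r x hx
    · rw [St.setR_m]
      exact h1.m c hc
    · rw [St.setR_m]
      exact h2 v'
  · exact ⟨Fr.refl _, fun v => by simp⟩
  · rintro j hj s1 ⟨h1, h2⟩ hp hN1
    refine Tri.put ⟨⟨⟨fun x hx => ?_, fun c hc => ?_⟩, fun v => ?_⟩, ?_, ?_⟩ (by simp [Exp.cost])
    · rw [St.setM_r]
      exact h1.r x hx
    · rw [St.setM_m, if_neg (by simpa using hc)]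
      exact h1.m c hc
    · have e1 : (A b (V ri)).ev s1 = s.m b j := by
        rw [Exp.ev_get, Exp.ev_reg, hp, h1.m b (by simpa using hab)]
      have e2 : (V ri).ev s1 = j := by rw [Exp.ev_reg, hp]
      rw [e1, e2, St.setM_m, if_pos rfl, Function.update_apply]
      by_cases hv : v = j
      · rw [if_pos hv, if_pos (by omega), hv]
      · rw [if_neg hv, h2 v]
        by_cases hv2 : v < j
        · rw [if_pos hv2, if_pos (by omega)]
        · rw [if_neg hv2, if_neg (by omega)]
    · rw [St.setM_r]; exact hp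
    · rw [St.setM_r]; exact hN1
  · rintro s1 ⟨h1, h2⟩ _ _
    exact ⟨h1, h2⟩

theorem pAdj_mono {off : ℕ → ℕ} {K : ℕ} (h : ∀ b < K, off b ≤ off (b + 1)) {i j : ℕ} (hij : i ≤ j)
    (hj : j ≤ K) : off i ≤ off j := by
  induction j, hij using Nat.le_induction with
  | base => exact le_rfl
  | succ j _ ih => exact (ih (by omega)).trans (h j (by omega))

/-- the sorted arcs are adjacency lists -/
theorem pAdj_adjP {n m : ℕ} {G : SimpleGraph ℕ} {ax ay key doff bx by_ off adj : ℕ → ℕ}
    (ha : Arcs G (2 * m) ax ay) (hkey : ∀ i < 2 * m, key i = ax i)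
    (hd : DistP (2 * m) n key ax ay doff bx by_) (hoff : ∀ i ≤ n, off i = doff i)
    (hadj : ∀ i < 2 * m, adj i = by_ i) : AdjP n m G off adj := by
  have hle : ∀ v < n, doff (v + 1) ≤ 2 * m := by
    intro v hv
    rw [← hd.offK]
    exact pAdj_mono hd.mono (by omega) le_rfl
  have hseg : ∀ v < n, seg adj (off v) (off (v + 1)) =
      ((List.range (2 * m)).filter (fun i => key i = v)).map ay := by
    intro v hv
    rw [← hd.ly v hv, hoff v hv.le, hoff (v + 1) hv]
    refine seg_congr fun p _ hp => hadj p ?_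
    have := hle v hv
    omega
  refine ⟨?_, ?_, ?_, ?_, ?_⟩
  · rw [hoff 0 (Nat.zero_le _)]; exact hd.off0
  · rw [hoff n le_rfl]; exact hd.offK
  · intro v hv
    rw [hoff v hv.le, hoff (v + 1) hv]
    exact hd.mono v hv
  · intro v hv
    rw [hseg v hv]
    refine List.Nodup.map_on ?_ (List.Nodup.filter _ List.nodup_range)
    intro i hi j hj hij
    rw [List.mem_filter, List.mem_range] at hi hj
    have hi2 : key i = v := by simpa using hi.2
    have hj2 : key j = v := by simpa using hj.2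
    refine ha.inj i hi.1 j hj.1 ?_ hij
    rw [← hkey i hi.1, ← hkey j hj.1, hi2, hj2]
  · intro v hv y
    rw [hseg v hv, List.mem_map]
    constructor
    · rintro ⟨i, hi, rfl⟩
      rw [List.mem_filter, List.mem_range] at hi
      have hi2 : key i = v := by simpa using hi.2
      have := ha.adj i hi.1
      rwa [← hkey i hi.1, hi2] at this
    · intro h
      obtain ⟨i, hi, h1, h2⟩ := ha.surj v y h
      refine ⟨i, ?_, h2⟩
      rw [List.mem_filter, List.mem_range]
      refine ⟨hi, ?_⟩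
      have : key i = v := by rw [hkey i hi, h1]
      simpa using this

theorem pAdj_spec {n m : ℕ} {G : SimpleGraph ℕ} (hG : Inn n G) {s : St} (hn : s.r rn = n)
    (hN : s.r rN = 2 * m) (ha : Arcs G (2 * m) (s.m AX) (s.m AY)) :
    Tri s pAdj (1000 * (n + m + 1)) (fun s' => AdjP n m G (s'.m OFF) (s'.m ADJ)) := by
  obtain ⟨s1, t1, r1, b1, f1, q1⟩ :=
    pAdj_copy (a := KEY) (b := AX) (hi := rN) (by decide) (by decide) hN
  obtain ⟨s2, t2, r2, b2, q2⟩ : Tri s1 (.set rK (V rn)) 2 (fun s' => s' = s1.setR rK n) := by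
    refine Tri.set ?_ (by decide)
    rw [Exp.ev_reg, f1.r rn (by decide), hn]
  have f2 := r2.frame
  have hN2 : s2.r rN = 2 * m := by
    rw [f2.r rN (by decide), f1.r rN (by decide), hN]
  have hK2 : s2.r rK = n := by rw [q2]; simp
  have hAX2 : s2.m AX = s.m AX := by rw [f2.m AX (by decide), f1.m AX (by decide)]
  have hAY2 : s2.m AY = s.m AY := by rw [f2.m AY (by decide), f1.m AY (by decide)]
  have hKEY2 : ∀ i < 2 * m, s2.m KEY i = s.m AX i := by
    intro i hi
    rw [f2.m KEY (by decide), q1 i, if_pos hi]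
  obtain ⟨s3, t3, r3, b3, q3⟩ := pDist_spec hN2 hK2 (fun i hi => by
    rw [hKEY2 i hi]
    exact hG _ _ (ha.adj i hi))
  have f3 := r3.frame
  have hN3 : s3.r rN = 2 * m := by rw [f3.r rN (by decide), hN2]
  have hn3 : s3.r rn = n := by
    rw [f3.r rn (by decide), f2.r rn (by decide), f1.r rn (by decide), hn]
  obtain ⟨s4, t4, r4, b4, f4, q4⟩ :=
    pAdj_copy (a := ADJ) (b := BY) (hi := rN) (by decide) (by decide) hN3
  obtain ⟨s5, t5, r5, b5, q5⟩ : Tri s4 (.set rn1 (.inc (V rn))) 3
      (fun s' => s' = s4.setR rn1 (n + 1)) := by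
    refine Tri.set ?_ (by decide)
    rw [Exp.ev_inc, Exp.ev_reg, f4.r rn (by decide), hn3]
  have f5 := r5.frame
  have hn5 : s5.r rn1 = n + 1 := by rw [q5]; simp
  obtain ⟨s6, t6, r6, b6, f6, q6⟩ :=
    pAdj_copy (a := OFF) (b := DOFF) (hi := rn1) (by decide) (by decide) hn5
  refine ⟨s6, _, Run.cons r1 (Run.cons r2 (Run.cons r3 (Run.cons r4 (Run.cons r5 (Run.cons r6
    (Run.nil s6)))))), by omega, ?_⟩
  refine pAdj_adjP (ax := s.m AX) (ay := s.m AY) (key := s2.m KEY) (doff := s3.m DOFF)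
    (bx := s3.m BX) (by_ := s3.m BY) ha hKEY2 ?_ ?_ ?_
  · rw [← hAX2, ← hAY2]
    exact q3
  · intro i hi
    rw [q6 i, if_pos (by omega), f5.m DOFF (by decide), f4.m DOFF (by decide)]
  · intro i hi
    rw [f6.m ADJ (by decide), f5.m ADJ (by decide), q4 i, if_pos hi]

/-- consequences of the sorted arcs: degrees are the lengths of the lists -/
theorem AdjP.length {n m : ℕ} {G : SimpleGraph ℕ} (hG : Inn n G) {off adj : ℕ → ℕ}
    (h : AdjP n m G off adj) {v : ℕ} (hv : v < n) : off (v + 1) - off v = dg n G v := by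
  rw [← seg_length adj (off v) (off (v + 1)), ← List.toFinset_card_of_nodup (h.nd v hv), dg]
  congr 1
  ext y
  rw [List.mem_toFinset, h.mem v hv y, mem_nb hG]

theorem AdjP.sum {n m : ℕ} {G : SimpleGraph ℕ} (hG : Inn n G) {off adj : ℕ → ℕ}
    (h : AdjP n m G off adj) : ∑ v ∈ range n, dg n G v = 2 * m := by
  have key : ∀ j ≤ n, ∑ v ∈ range j, dg n G v = off j := by
    intro j
    induction j with
    | zero => intro _; simp [h.off0]
    | succ j ih =>
      intro hj
      rw [Finset.sum_range_succ, ih (by omega), ← h.length hG (by omega : j < n)]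
      have := h.mono j (by omega)
      omega
  rw [key n le_rfl, h.offn]

end TL
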