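import Pool.Agent.W_3fea_h44.PScan

/-! # Specification of `pCert` -/

namespace TL

open Relation Finset Classical

/-- the loop which marks all vertices -/
theorem pCert_loop {n : ℕ} {s : St} (hn : s.r rn = n) :
    Tri s (.for_ ri (K 0) rn (.put ALW (V ri) (K 1))) (6 + 10 * n)
      (fun s' => Fr [ri] [ALW] s s' ∧ ∀ v < n, s'.m ALW v = 1) := by
  refine Tri.for0 (I := fun j s' => Fr [ri] [ALW] s s' ∧ ∀ v < j, s'.m ALW v = 1) 3 hn
    (by decide) ?_ ?_ ?_ ?_
  · rintro j s1 v ⟨h1, h2⟩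
    refine ⟨⟨fun x hx => ?_, fun c hc => ?_⟩, fun v' hv' => ?_⟩
    · rw [St.setR_r, if_neg (by simpa using hx)]
      exact h1.r x hx
    · rw [St.setR_m]
      exact h1.m c hc
    · rw [St.setR_m]
      exact h2 v' hv'
  · exact ⟨Fr.refl _, fun v hv => absurd hv (Nat.not_lt_zero v)⟩
  · rintro j hj s1 ⟨h1, h2⟩ hp hN1
    refine Tri.put ⟨⟨⟨fun x hx => ?_, fun c hc => ?_⟩, fun v hv => ?_⟩, ?_, ?_⟩
      (by simp [Exp.cost])
    · rw [St.setM_r]
      exact h1.r x hx
    · rw [St.setM_m, if_neg (by simpa using hc)]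
      exact h1.m c hc
    · have e2 : (V ri).ev s1 = j := by rw [Exp.ev_reg, hp]
      have e3 : (K 1).ev s1 = 1 := rfl
      rw [e2, e3, St.setM_m, if_pos rfl, Function.update_apply]
      by_cases hvj : v = j
      · rw [if_pos hvj]
      · rw [if_neg hvj]
        exact h2 v (by omega)
    · rw [St.setM_r]; exact hp
    · rw [St.setM_r]; exact hN1
  · rintro s1 ⟨h1, h2⟩ _ _
    exact ⟨h1, h2⟩

/-- the certificate from the scan of the whole graph -/
theorem pCert_prep {n k : ℕ} {G : SimpleGraph ℕ} (hG : Inn n G) {s : St} {alw : ℕ → ℕ}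
    {ord : List ℕ} {BK : ℕ → List ℕ} (hal : ∀ v < n, alw v = 1)
    (h : ScanP n (4 * k + 1) G alw ord BK s) : PrepB n k G s := by
  have hP : ∀ v, v ∈ ord ↔ v < n := by
    intro v
    rw [h.scan.mem v]
    exact ⟨fun h => h.1, fun h => ⟨h, hal v h⟩⟩
  have hbk : ∀ v < n, bk s v = BK v := fun v hv => h.bk_ v hv (hal v hv)
  -- every list is a prefix of a filtered prefix of the order
  have hform : ∀ v < n, ∃ i, i < ord.length ∧ bk s v = (nbl G (ord.take i) v).take (4 * k + 1) := by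
    intro v hv
    obtain ⟨i, hi, rfl⟩ := List.getElem_of_mem ((hP v).2 hv)
    refine ⟨i, hi, ?_⟩
    rw [hbk _ hv]
    exact h.scan.bk i hi
  refine ⟨h.be1, h.be2, ?_, ?_, ?_, ?_, ?_⟩
  · intro v hv
    obtain ⟨i, _, e⟩ := hform v hv
    rw [e, List.length_take]
    exact Nat.min_le_left _ _
  · intro v hv
    obtain ⟨i, _, e⟩ := hform v hv
    rw [e]
    exact (((h.scan.nd.sublist (List.take_sublist i ord)).sublist List.filter_sublist)).sublist
      (List.take_sublist _ _)
  · intro v hv y hy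
    obtain ⟨i, _, e⟩ := hform v hv
    rw [e] at hy
    have hy2 : y ∈ nbl G (ord.take i) v := List.mem_of_mem_take hy
    rw [nbl, List.mem_filter] at hy2
    have : G.Adj y v := by simpa using hy2.2
    exact this.symm
  · have hscan : IsScan G (fun v => v < n ∧ alw v = 1) (4 * k + 1) ord
        (fun v => if v < n then bk s v else []) := by
      refine ⟨h.scan.nd, h.scan.mem, h.scan.max, fun i hi => ?_⟩
      have hn : ord[i] < n := (hP _).1 (List.getElem_mem hi)
      rw [if_pos hn, hbk _ hn]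
      exact h.scan.bk i hi
    intro W hW u v huv hu hv
    have hun : u < n := hG u v huv
    have hvn : v < n := hG.right huv
    exact scan_conn hscan hW ⟨hun, hal u hun⟩ ⟨hvn, hal v hvn⟩ huv hu hv
  · intro v hv
    rw [h.fw v hv]
    congr 1
    refine Finset.filter_congr fun y hy => ?_
    have hyn : y < n := Finset.mem_range.1 hy
    rw [hbk y hyn]
    exact ⟨fun h => h.2, fun h => ⟨hal y hyn, h⟩⟩

theorem pCert_spec {n m k : ℕ} {G : SimpleGraph ℕ} (hG : Inn n G) {s : St} (hn : s.r rn = n)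
    (hq : s.r rq = 4 * k) (ha : AdjP n m G (s.m OFF) (s.m ADJ)) :
    Tri s pCert (3000 * (n + m + 1) + 8000 * k + 1050) (fun s' => PrepB n k G s') := by
  obtain ⟨s1, t1, r1, b1, f1, q1⟩ := pCert_loop hn
  obtain ⟨s2, t2, r2, b2, q2⟩ : Tri s1 (.set rL (.inc (V rq))) 3
      (fun s' => s' = s1.setR rL (4 * k + 1)) := by
    refine Tri.set ?_ (by decide)
    rw [Exp.ev_inc, Exp.ev_reg, f1.r rq (by decide), hq]
  have f2 := r2.frame
  have hL2 : s2.r rL = 4 * k + 1 := by rw [q2]; simp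
  have hn2 : s2.r rn = n := by rw [f2.r rn (by decide), f1.r rn (by decide), hn]
  have ha2 : AdjP n m G (s2.m OFF) (s2.m ADJ) := by
    rw [f2.m OFF (by decide), f1.m OFF (by decide), f2.m ADJ (by decide), f1.m ADJ (by decide)]
    exact ha
  have hal2 : ∀ v < n, s2.m ALW v = 1 := by
    intro v hv
    rw [f2.m ALW (by decide)]
    exact q1 v hv
  obtain ⟨s3, t3, r3, b3, ord, BK, q3⟩ := pScan_spec hG hn2 hL2 ha2
  exact ⟨s3, _, Run.cons r1 (Run.cons r2 (Run.cons r3 (Run.nil s3))), by omega,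
    pCert_prep hG hal2 q3⟩

end TL
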