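import Pool.Agent.W_3fea_h44.PScan

/-! # Specification of `pComps` -/

namespace TL

open Relation Finset Classical

/-! ### pure part -/

/-- neighbours which are not giants -/
noncomputable def nn_ (n : ℕ) (G : SimpleGraph ℕ) (tau v : ℕ) : Finset ℕ :=
  (range n).filter (fun y => G.Adj v y ∧ dg n G y < tau)

theorem mem_gset {n : ℕ} {G : SimpleGraph ℕ} {tau v : ℕ} :
    v ∈ gset n G tau ↔ v < n ∧ tau ≤ dg n G v := by
  simp [gset]

/-- invariant of the last loop of `pComps` -/
structure CI (n tau : ℕ) (G : SimpleGraph ℕ) (T : List ℕ) (ce cv bad : ℕ → ℕ) (E sz mx : ℕ) :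
    Prop where
  nE : n ≤ E
  Ei : E ≤ n + T.length
  E0 : E = n → T = []
  ceT : ∀ v ∈ T, n < ce v ∧ ce v ≤ E
  ceN : ∀ v < n, v ∉ T → ce v = n
  rch : ∀ v ∈ T, ∀ w ∈ T, (ce v = ce w ↔ Rch G (gset n G tau) v w)
  cv_ : ∀ E', n < E' → E' ≤ E → cv E' ∈ T ∧ ce (cv E') = E'
  bad1 : ∀ E', n < E' → E' < E → (bad E' = 1 ↔ ¬ Dom G (gset n G tau) (cv E')) ∧ bad E' ≤ 1
  bad0 : ∀ E', E ≤ E' → bad E' = 0
  clo : ∀ a ∈ T, ce a ≠ E → ∀ b, G.Adj a b → b ∉ gset n G tau → b ∈ T
  sz_ : sz = (T.filter (fun v => decide (ce v = E))).length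
  mx1 : ∀ v ∈ T, ce v = E → (nn_ n G tau v).card ≤ mx
  mx2 : mx = 0 ∨ ∃ v ∈ T, ce v = E ∧ (nn_ n G tau v).card = mx

section
variable {n tau : ℕ} {G : SimpleGraph ℕ} {T : List ℕ} {ce cv bad : ℕ → ℕ} {E sz mx : ℕ}

/-- `T` is a union of components -/
def CloT (n tau : ℕ) (G : SimpleGraph ℕ) (T : List ℕ) : Prop :=
  ∀ a ∈ T, ∀ b, G.Adj a b → b ∉ gset n G tau → b ∈ T

theorem CloT.rch (h : CloT n tau G T) {a b : ℕ} (ha : a ∈ T) (hab : Rch G (gset n G tau) a b) :
    b ∈ T := by
  induction hab with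
  | refl => exact ha
  | @tail b c _ hbc ih => exact h b ih c hbc.1 hbc.2

theorem CI.finish (h : CI n tau G T ce cv bad E sz mx) (hnd : T.Nodup)
    (hP : ∀ v ∈ T, v < n ∧ dg n G v < tau) (hcl : CloT n tau G T) (hE : n < E) :
    mx + 1 < sz ↔ ¬ Dom G (gset n G tau) (cv E) := by
  obtain ⟨hx, hxE⟩ := h.cv_ E hE le_rfl
  set x := cv E with hxdef
  have hS : ∀ v ∈ T, v ∉ gset n G tau := by
    intro v hv h'
    rw [mem_gset] at h'
    have := (hP v hv).2
    omega
  -- the component of `x`
  set W : Finset ℕ := (T.filter (fun v => decide (ce v = E))).toFinset with hW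
  have hmW : ∀ y, y ∈ W ↔ Rch G (gset n G tau) x y := by
    intro y
    simp only [hW, List.mem_toFinset, List.mem_filter, decide_eq_true_eq]
    constructor
    · rintro ⟨h1, h2⟩
      exact (h.rch x hx y h1).1 (by rw [hxE, h2])
    · intro h1
      have hy := hcl.rch hx h1
      exact ⟨hy, by rw [← (h.rch x hx y hy).2 h1, hxE]⟩
  have hcard : W.card = sz := by
    rw [hW, List.toFinset_card_of_nodup (hnd.filter _), h.sz_]
  have hmT : ∀ y, y ∈ W → y ∈ T ∧ ce y = E := by
    intro y hy
    simpa [hW] using hy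
  have hsub : ∀ t ∈ W, nn_ n G tau t ⊆ W.erase t := by
    intro t ht y hy
    simp only [nn_, mem_filter, mem_range] at hy
    rw [mem_erase]
    refine ⟨fun e => G.irrefl (e ▸ hy.2.1), ?_⟩
    rw [hmW]
    refine ((hmW t).1 ht).trans (Rch.step hy.2.1 ?_)
    rw [mem_gset]; omega
  have huniv : ∀ t ∈ W, sz ≤ (nn_ n G tau t).card + 1 → ∀ y ∈ W, y = t ∨ G.Adj t y := by
    intro t ht hc y hy
    have h1 : W.erase t = nn_ n G tau t := by
      refine (Finset.eq_of_subset_of_card_le (hsub t ht) ?_).symm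
      rw [card_erase_of_mem ht, hcard]; omega
    by_cases hyt : y = t
    · exact Or.inl hyt
    · right
      have : y ∈ W.erase t := mem_erase.2 ⟨hyt, hy⟩
      rw [h1] at this
      simp only [nn_, mem_filter] at this
      exact this.2.1
  have hxW : x ∈ W := (hmW x).2 (Rch.refl x)
  constructor
  · rintro h1 ⟨t, h2, h3⟩
    have ht : t ∈ W := (hmW t).2 h2
    have h4 := h.mx1 t (hmT t ht).1 (hmT t ht).2
    have h5 : W.erase t ⊆ nn_ n G tau t := by
      intro y hy
      rw [mem_erase] at hy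
      have hyT := hmT y hy.2
      have hyP := hP y hyT.1
      simp only [nn_, mem_filter, mem_range]
      rcases h3 y ((hmW y).1 hy.2) with h6 | h6
      · exact absurd h6 hy.1
      · exact ⟨hyP.1, h6, hyP.2⟩
    have h6 := card_le_card h5
    rw [card_erase_of_mem ht, hcard] at h6
    omega
  · intro h1
    by_contra h2
    push Not at h2
    apply h1
    rcases h.mx2 with h3 | ⟨t, h3, h4, h5⟩
    · refine ⟨x, Rch.refl x, fun y hy => ?_⟩
      left
      have hc : W.card ≤ 1 := by omega
      exact Finset.card_le_one.1 hc y ((hmW y).2 hy) x hxW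
    · have ht : t ∈ W := by simp [hW, h3, h4]
      exact ⟨t, (hmW t).1 ht, fun y hy => huniv t ht (by omega) y ((hmW y).2 hy)⟩

theorem CI.new (h : CI n tau G T ce cv bad E sz mx) (hnd : T.Nodup)
    (hP : ∀ v ∈ T, v < n ∧ dg n G v < tau) (hcl : CloT n tau G T) {v : ℕ} (hv : v < n)
    (hvt : dg n G v < tau) (hvT : v ∉ T) {bad' : ℕ → ℕ}
    (hb : bad' = if mx + 1 < sz then Function.update bad E 1 else bad) :
    CI n tau G (T ++ [v]) (Function.update ce v (E + 1)) (Function.update cv (E + 1) v) bad'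
      (E + 1) 1 (nn_ n G tau v).card := by
  have hne : ∀ w ∈ T, Function.update ce v (E + 1) w = ce w := by
    intro w hw
    rw [Function.update_apply, if_neg]
    rintro rfl
    exact hvT hw
  have hS : ∀ w ∈ T ++ [v], w ∉ gset n G tau := by
    intro w hw h'
    rw [mem_gset] at h'
    rcases List.mem_append.1 hw with h1 | h1
    · have := (hP w h1).2
      omega
    · simp only [List.mem_singleton] at h1
      subst h1; omega
  have hsz0 : E = n → sz = 0 := by
    intro h1
    rw [h.sz_, h.E0 h1]; rfl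
  refine ⟨?_, ?_, ?_, ?_, ?_, ?_, ?_, ?_, ?_, ?_, ?_, ?_, ?_⟩
  · have := h.nE; omega
  · have := h.Ei
    simp only [List.length_append, List.length_singleton]; omega
  · intro h1; have := h.nE; omega
  · intro w hw
    have := h.nE
    rcases List.mem_append.1 hw with h1 | h1
    · have h2 := h.ceT w h1
      rw [hne w h1]; omega
    · simp only [List.mem_singleton] at h1
      subst h1; rw [Function.update_self]; omega
  · intro w hw hwT
    simp only [List.mem_append, List.mem_singleton, not_or] at hwT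
    rw [Function.update_apply, if_neg hwT.2]
    exact h.ceN w hw hwT.1
  · intro a ha b hb'
    rcases List.mem_append.1 ha with h1 | h1
    · rcases List.mem_append.1 hb' with h2 | h2
      · rw [hne a h1, hne b h2]; exact h.rch a h1 b h2
      · simp only [List.mem_singleton] at h2
        subst h2
        rw [hne a h1, Function.update_self]
        constructor
        · intro h3; have := (h.ceT a h1).2; omega
        · intro h3; exact absurd (hcl.rch h1 h3) hvT
    · simp only [List.mem_singleton] at h1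
      subst h1
      rcases List.mem_append.1 hb' with h2 | h2
      · rw [hne b h2, Function.update_self]
        constructor
        · intro h3; have := (h.ceT b h2).2; omega
        · intro h3
          exact absurd (hcl.rch h2 (h3.symm (hS a (by simp)))) hvT
      · simp only [List.mem_singleton] at h2
        subst h2
        exact ⟨fun _ => Rch.refl _, fun _ => rfl⟩
  · intro E' h1 h2
    by_cases h3 : E' = E + 1
    · subst h3
      rw [Function.update_self]
      exact ⟨by simp, by rw [Function.update_self]⟩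
    · rw [Function.update_apply, if_neg h3]
      obtain ⟨h4, h5⟩ := h.cv_ E' h1 (by omega)
      exact ⟨by simp [h4], by rw [hne _ h4, h5]⟩
  · intro E' h1 h2
    rw [Function.update_apply, if_neg (by omega)]
    by_cases h3 : E' = E
    · subst h3
      have hf := h.finish hnd hP hcl h1
      rw [hb]
      split_ifs with h4
      · rw [Function.update_self]
        exact ⟨⟨fun _ => hf.1 h4, fun _ => rfl⟩, le_rfl⟩
      · rw [h.bad0 E' le_rfl]
        refine ⟨⟨fun h5 => absurd h5 (by omega), fun h5 => absurd (hf.2 h5) h4⟩, by omega⟩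
    · have h4 := h.bad1 E' h1 (by omega)
      rw [hb]
      split_ifs
      · rw [Function.update_apply, if_neg h3]; exact h4
      · exact h4
  · intro E' h1
    rw [hb]
    split_ifs
    · rw [Function.update_apply, if_neg (by omega)]; exact h.bad0 E' (by omega)
    · exact h.bad0 E' (by omega)
  · intro a ha ha' b hab hbS
    rcases List.mem_append.1 ha with h1 | h1
    · have := hcl a h1 b hab hbS
      simp [this]
    · simp only [List.mem_singleton] at h1
      subst h1
      rw [Function.update_self] at ha'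
      exact absurd rfl ha'
  · rw [List.filter_append]
    have h1 : T.filter (fun w => decide (Function.update ce v (E + 1) w = E + 1)) = [] := by
      rw [List.filter_eq_nil_iff]
      intro w hw
      rw [hne w hw]
      have := (h.ceT w hw).2
      simp only [decide_eq_true_eq]; omega
    rw [h1]
    simp
  · intro w hw hw'
    rcases List.mem_append.1 hw with h1 | h1
    · rw [hne w h1] at hw'
      have := (h.ceT w h1).2
      omega
    · simp only [List.mem_singleton] at h1
      subst h1; exact le_rfl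
  · right
    exact ⟨v, by simp, by simp, rfl⟩

theorem CI.cont (h : CI n tau G T ce cv bad E sz mx)
    (hP : ∀ v ∈ T, v < n ∧ dg n G v < tau) {v u : ℕ} (hv : v < n)
    (hvt : dg n G v < tau) (hvT : v ∉ T) (hu : u ∈ T) (huv : G.Adj u v) :
    CI n tau G (T ++ [v]) (Function.update ce v E) cv bad E (sz + 1)
      (max mx (nn_ n G tau v).card) := by
  have hne : ∀ w ∈ T, Function.update ce v E w = ce w := by
    intro w hw
    rw [Function.update_apply, if_neg]
    rintro rfl
    exact hvT hw
  have hS : ∀ w ∈ T ++ [v], w ∉ gset n G tau := by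
    intro w hw h'
    rw [mem_gset] at h'
    rcases List.mem_append.1 hw with h1 | h1
    · have := (hP w h1).2
      omega
    · simp only [List.mem_singleton] at h1
      subst h1; omega
  have hvS := hS v (by simp)
  have hnE : n < E := by
    rcases Nat.lt_or_ge n E with h1 | h1
    · exact h1
    · have h2 := h.nE
      have h3 := h.E0 (by omega)
      rw [h3] at hu; exact absurd hu (by simp)
  have hceu : ce u = E := by
    by_contra h1
    exact hvT (h.clo u hu h1 v huv hvS)
  have hkey : ∀ a ∈ T, (ce a = E ↔ Rch G (gset n G tau) a v) := by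
    intro a ha
    have h1 := h.rch a ha u hu
    rw [hceu] at h1
    rw [h1]
    constructor
    · intro h2; exact h2.trans (Rch.step huv hvS)
    · intro h2
      exact h2.trans ((Rch.step huv.symm (hS u (by simp [hu]))))
  refine ⟨?_, ?_, ?_, ?_, ?_, ?_, ?_, ?_, ?_, ?_, ?_, ?_, ?_⟩
  · exact h.nE
  · have := h.Ei
    simp only [List.length_append, List.length_singleton]; omega
  · intro h1; omega
  · intro w hw
    rcases List.mem_append.1 hw with h1 | h1
    · rw [hne w h1]; exact h.ceT w h1
    · simp only [List.mem_singleton] at h1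
      subst h1; rw [Function.update_self]; omega
  · intro w hw hwT
    simp only [List.mem_append, List.mem_singleton, not_or] at hwT
    rw [Function.update_apply, if_neg hwT.2]
    exact h.ceN w hw hwT.1
  · intro a ha b hb'
    rcases List.mem_append.1 ha with h1 | h1
    · rcases List.mem_append.1 hb' with h2 | h2
      · rw [hne a h1, hne b h2]; exact h.rch a h1 b h2
      · simp only [List.mem_singleton] at h2
        subst h2
        rw [hne a h1, Function.update_self]
        exact hkey a h1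
    · simp only [List.mem_singleton] at h1
      subst h1
      rcases List.mem_append.1 hb' with h2 | h2
      · rw [hne b h2, Function.update_self]
        constructor
        · intro h3
          exact ((hkey b h2).1 h3.symm).symm (hS b (by simp [h2]))
        · intro h3
          exact ((hkey b h2).2 (h3.symm hvS)).symm
      · simp only [List.mem_singleton] at h2
        subst h2
        exact ⟨fun _ => Rch.refl _, fun _ => rfl⟩
  · intro E' h1 h2
    obtain ⟨h4, h5⟩ := h.cv_ E' h1 (by omega)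
    exact ⟨by simp [h4], by rw [hne _ h4, h5]⟩
  · exact h.bad1
  · exact h.bad0
  · intro a ha ha' b hab hbS
    rcases List.mem_append.1 ha with h1 | h1
    · rw [hne a h1] at ha'
      have := h.clo a h1 ha' b hab hbS
      simp [this]
    · simp only [List.mem_singleton] at h1
      subst h1
      rw [Function.update_self] at ha'
      exact absurd rfl ha'
  · rw [List.filter_append, List.length_append, h.sz_]
    have h1 : T.filter (fun w => decide (Function.update ce v E w = E)) =
        T.filter (fun w => decide (ce w = E)) := by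
      apply List.filter_congr
      intro w hw
      rw [hne w hw]
    rw [h1]
    simp
  · intro w hw hw'
    rcases List.mem_append.1 hw with h1 | h1
    · rw [hne w h1] at hw'
      exact (h.mx1 w h1 hw').trans (le_max_left _ _)
    · simp only [List.mem_singleton] at h1
      subst h1; exact le_max_right _ _
  · rcases le_total mx (nn_ n G tau v).card with h1 | h1
    · rw [max_eq_right h1]
      right
      exact ⟨v, by simp, by simp, rfl⟩
    · rw [max_eq_left h1]
      rcases h.mx2 with h2 | ⟨w, h2, h3, h4⟩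
      · exact Or.inl h2
      · right
        exact ⟨w, by simp [h2], by rw [hne w h2, h3], h4⟩

theorem CI.prep (h : CI n tau G T ce cv bad E sz mx) (hnd : T.Nodup)
    (hP : ∀ v ∈ T, v < n ∧ dg n G v < tau) (hfull : ∀ v < n, dg n G v < tau → v ∈ T)
    (hG : Inn n G) {bad' : ℕ → ℕ}
    (hb : bad' = if mx + 1 < sz then Function.update bad E 1 else bad) {s : St}
    (h1 : s.r rnE = E) (h2 : s.m CE = ce) (h3 : s.m CV = cv) (h4 : s.m BAD = bad')
    (h5 : s.r rtau = tau) : PrepC n G s := by
  have hcl : CloT n tau G T := by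
    intro a _ b hab hbS
    rw [mem_gset] at hbS
    have := hG.right hab
    exact hfull b this (by omega)
  have hlen : T.length ≤ n := by
    have := (List.subperm_of_subset hnd (l₂ := List.range n)
      (fun z hz => List.mem_range.2 (hP z hz).1)).length_le
    simpa using this
  have hnot : ∀ v < n, tau ≤ dg n G v → v ∉ T := by
    intro v _ hv h'
    have := (hP v h').2
    omega
  refine ⟨?_, ?_, ?_, ?_, ?_, ?_⟩
  · rw [h1]; have := h.nE; have := h.Ei; omega
  · intro v hv hvt
    rw [h2]; rw [h5] at hvt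
    exact h.ceN v hv (hnot v hv hvt)
  · intro v hv hvt
    rw [h2, h1]; rw [h5] at hvt
    exact h.ceT v (hfull v hv hvt)
  · intro v hv w hw hvt hwt
    rw [h2, h5]; rw [h5] at hvt hwt
    exact h.rch v (hfull v hv hvt) w (hfull w hw hwt)
  · intro E' hE1 hE2
    rw [h1] at hE2
    rw [h3, h2, h5]
    obtain ⟨h6, h7⟩ := h.cv_ E' hE1 hE2
    exact ⟨(hP _ h6).1, (hP _ h6).2, h7⟩
  · intro E' hE1 hE2
    rw [h1] at hE2
    rw [h3, h4, h5, hb]
    by_cases hEE : E' = E
    · subst hEE
      have hf := h.finish hnd hP hcl hE1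
      split_ifs with h8
      · rw [Function.update_self]
        exact ⟨⟨fun _ => hf.1 h8, fun _ => rfl⟩, le_rfl⟩
      · rw [h.bad0 E' le_rfl]
        exact ⟨⟨fun h9 => absurd h9 (by omega), fun h9 => absurd (hf.2 h9) h8⟩, by omega⟩
    · have h8 := h.bad1 E' hE1 (by omega)
      split_ifs
      · rw [Function.update_apply, if_neg hEE]; exact h8
      · exact h8

end

theorem sum_inj_le {N n : ℕ} {f : ℕ → ℕ} (hf : ∀ i < N, f i < n)
    (hinj : ∀ i < N, ∀ j < N, f i = f j → i = j) (g : ℕ → ℕ) :
    ∑ j ∈ range N, g (f j) ≤ ∑ x ∈ range n, g x := by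
  have h1 : ∑ j ∈ range N, g (f j) = ∑ x ∈ (range N).image f, g x := by
    rw [Finset.sum_image]
    intro i hi j hj hij
    rw [Finset.mem_coe, mem_range] at hi hj
    exact hinj i hi j hj hij
  rw [h1]
  apply Finset.sum_le_sum_of_subset
  intro x hx
  rw [mem_image] at hx
  obtain ⟨i, hi, rfl⟩ := hx
  exact mem_range.2 (hf i (mem_range.1 hi))

/-- the number of neighbours of small degree -/
theorem nn_card {n m tau : ℕ} {G : SimpleGraph ℕ} {off adj : ℕ → ℕ} (hG : Inn n G)
    (ha : AdjP n m G off adj) {v : ℕ} (hv : v < n) :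
    ((seg adj (off v) (off (v + 1))).filter (fun y => decide (dg n G y < tau))).length =
      (nn_ n G tau v).card := by
  rw [← List.toFinset_card_of_nodup ((ha.nd v hv).filter _)]
  congr 1
  ext y
  simp only [List.mem_toFinset, List.mem_filter, ha.mem v hv, decide_eq_true_eq, nn_, mem_filter,
    mem_range]
  exact ⟨fun h => ⟨hG.right h.1, h⟩, fun h => h.2⟩

/-! ### the program -/

/-- constant part of the memory during `pComps` -/
structure CK (n tau : ℕ) (G : SimpleGraph ℕ) (off adj : ℕ → ℕ) (s : St) : Prop where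
  t_ : s.r rtau = tau
  off_ : s.m OFF = off
  adj_ : s.m ADJ = adj
  deg_ : ∀ v, s.m DEG v = dg n G v

theorem CK.fr {n tau : ℕ} {G : SimpleGraph ℕ} {off adj : ℕ → ℕ} {s s' : St}
    (h : CK n tau G off adj s) (h1 : s'.r rtau = s.r rtau) (h2 : s'.m OFF = s.m OFF)
    (h3 : s'.m ADJ = s.m ADJ) (h4 : s'.m DEG = s.m DEG) : CK n tau G off adj s' :=
  ⟨h1.trans h.t_, h2.trans h.off_, h3.trans h.adj_, by rw [h4]; exact h.deg_⟩

/-- the inner loop -/
theorem cnt_spec {n m tau : ℕ} {G : SimpleGraph ℕ} {off adj : ℕ → ℕ} {s : St} (hG : Inn n G)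
    (ha : AdjP n m G off adj) (hk : CK n tau G off adj s) {v : ℕ} (hv : v < n)
    (hrv : s.r rv = v) (hhi : s.r rhi = off (v + 1)) (hd : s.r rd = 0) :
    Tri s (.for_ rj (A OFF (V rv)) rhi (.whn (.lt (A DEG (A ADJ (V rj))) (V rtau)) (.incr rd)))
      (7 + 20 * (off (v + 1) - off v)) (fun s' => s'.r rd = (nn_ n G tau v).card ∧
        s'.m = s.m ∧ ∀ x, x ≠ rd → x ≠ rj → s'.r x = s.r x) := by
  have hoff := ha.mono v hv
  refine (Tri.forC (a := off v) (N := off (v + 1)) (I := fun j s1 => s1.m = s.m ∧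
    (∀ x, x ≠ rd → x ≠ rj → s1.r x = s.r x) ∧
    s1.r rd = ((seg adj (off v) j).filter (fun y => decide (dg n G y < tau))).length) 13
    (by decide) ?_ hhi hoff ?_ ?_ ?_).cost ?_
  · simp [hk.off_, hrv]
  · exact ⟨rfl, fun x h1 h2 => by simp [h2], by simp [hd]⟩
  · rintro j h1 h2 s1 ⟨k1, k2, k3⟩ hj hhi1
    refine (Tri.lf (by decide) ?_).cost (by decide)
    have hseg : ((seg adj (off v) (j + 1)).filter (fun y => decide (dg n G y < tau))).length =
        ((seg adj (off v) j).filter (fun y => decide (dg n G y < tau))).length +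
        (if dg n G (adj j) < tau then 1 else 0) := by
      rw [seg_succ _ h1, List.filter_append, List.length_append]
      congr 1
      by_cases h : dg n G (adj j) < tau <;> simp [h]
    have hdeg : s1.m DEG (s1.m ADJ (s1.r rj)) = dg n G (adj j) := by
      rw [k1, hk.adj_, hk.deg_, hj]
    have htau : s1.r rtau = tau := by rw [k2 rtau (by decide) (by decide), hk.t_]
    by_cases h : dg n G (adj j) < tau
    · have hex : (Cmd.whn (.lt (A DEG (A ADJ (V rj))) (V rtau)) (.incr rd)).ex s1 =
          s1.setR rd (s1.r rd + 1) := by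
        simp [hdeg, htau, h]
      rw [hex]
      refine ⟨⟨k1, ?_, ?_⟩, by simp [hj], by simp [hhi1]⟩
      · intro x h3 h4
        simp only [St.setR_r, if_neg h4, if_neg h3]
        exact k2 x h3 h4
      · rw [hseg, if_pos h, ← k3]; simp
    · have hex : (Cmd.whn (.lt (A DEG (A ADJ (V rj))) (V rtau)) (.incr rd)).ex s1 = s1 := by
        simp only [Cmd.ex_ite, Cond.ev_lt, Exp.ev_get, Exp.ev_reg, hdeg, htau]
        rw [if_neg (by simpa using h)]; rfl
      rw [hex]
      refine ⟨⟨k1, ?_, ?_⟩, by simp [hj], by simp [hhi1]⟩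
      · intro x h3 h4
        simp only [St.setR_r, if_neg h4]
        exact k2 x h3 h4
      · rw [hseg, if_neg h, ← k3]; simp
  · rintro s1 ⟨k1, k2, k3⟩ _ _
    exact ⟨by rw [k3]; exact nn_card hG ha hv, k1, k2⟩
  · simp only [Exp.cost]; omega

/-- the loop-free beginning of the body -/
def preC : Cmd :=
  .blk [
      .set rv (A ORD (V ri)),
      .whn (.eq (A RS (V ri)) (K 0)) (.blk [
        .whn (.lt (.inc (V rmx)) (V rsz)) (.put BAD (V rnE) (K 1)),
        .incr rnE,
        .put CV (V rnE) (V rv),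
        .set rsz (K 0), .set rmx (K 0)]),
      .incr rsz,
      .put CE (V rv) (V rnE),
      .set rd (K 0),
      .set rhi (A OFF (.inc (V rv)))]

/-- body of the last loop of `pComps` -/
def bodyC : Cmd :=
  .blk [
      .set rv (A ORD (V ri)),
      .whn (.eq (A RS (V ri)) (K 0)) (.blk [
        .whn (.lt (.inc (V rmx)) (V rsz)) (.put BAD (V rnE) (K 1)),
        .incr rnE,
        .put CV (V rnE) (V rv),
        .set rsz (K 0), .set rmx (K 0)]),
      .incr rsz,
      .put CE (V rv) (V rnE),
      .set rd (K 0),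
      .set rhi (A OFF (.inc (V rv))),
      .for_ rj (A OFF (V rv)) rhi (.whn (.lt (A DEG (A ADJ (V rj))) (V rtau)) (.incr rd)),
      .whn (.lt (V rmx) (V rd)) (.set rmx (V rd))]

theorem preC_new {s : St} {i v : ℕ} (hi : s.r ri = i) (hv : s.m ORD i = v) (h0 : s.m RS i = 0) :
    (preC.ex s).m BAD = (if s.r rmx + 1 < s.r rsz then
      Function.update (s.m BAD) (s.r rnE) 1 else s.m BAD) ∧
    (preC.ex s).m CV = Function.update (s.m CV) (s.r rnE + 1) v ∧
    (preC.ex s).m CE = Function.update (s.m CE) v (s.r rnE + 1) ∧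
    (preC.ex s).r rnE = s.r rnE + 1 ∧ (preC.ex s).r rsz = 1 ∧ (preC.ex s).r rmx = 0 ∧
    (preC.ex s).r rd = 0 ∧ (preC.ex s).r rv = v ∧ (preC.ex s).r rhi = s.m OFF (v + 1) ∧
    (preC.ex s).r ri = i ∧ (preC.ex s).r rno = s.r rno ∧ (preC.ex s).r rtau = s.r rtau ∧
    (preC.ex s).m OFF = s.m OFF ∧ (preC.ex s).m ADJ = s.m ADJ ∧ (preC.ex s).m DEG = s.m DEG ∧
    (preC.ex s).m ORD = s.m ORD ∧ (preC.ex s).m RS = s.m RS := by
  by_cases h : s.r rmx + 1 < s.r rsz
  · simp [preC, hi, hv, h0, h]
  · simp [preC, hi, hv, h0, h]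

theorem preC_cont {s : St} {i v : ℕ} (hi : s.r ri = i) (hv : s.m ORD i = v) (h0 : s.m RS i ≠ 0) :
    (preC.ex s).m BAD = s.m BAD ∧ (preC.ex s).m CV = s.m CV ∧
    (preC.ex s).m CE = Function.update (s.m CE) v (s.r rnE) ∧
    (preC.ex s).r rnE = s.r rnE ∧ (preC.ex s).r rsz = s.r rsz + 1 ∧
    (preC.ex s).r rmx = s.r rmx ∧
    (preC.ex s).r rd = 0 ∧ (preC.ex s).r rv = v ∧ (preC.ex s).r rhi = s.m OFF (v + 1) ∧
    (preC.ex s).r ri = i ∧ (preC.ex s).r rno = s.r rno ∧ (preC.ex s).r rtau = s.r rtau ∧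
    (preC.ex s).m OFF = s.m OFF ∧ (preC.ex s).m ADJ = s.m ADJ ∧ (preC.ex s).m DEG = s.m DEG ∧
    (preC.ex s).m ORD = s.m ORD ∧ (preC.ex s).m RS = s.m RS := by
  simp [preC, hi, hv, h0]

/-- the loop-free beginning of a block -/
theorem Tri.lfcons {c : Cmd} {l : List Cmd} {s : St} {B : ℕ} {Q : St → Prop}
    (hc : c.lf = true) (h : Tri (c.ex s) (.blk l) B Q) : Tri s (.blk (c :: l)) (c.mc + B) Q :=
  Tri.cons (Tri.lf hc h) le_rfl

/-- the step of the loop -/
theorem bodyC_spec {n m tau : ℕ} {G : SimpleGraph ℕ} {off adj : ℕ → ℕ} {s : St} (hG : Inn n G)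
    (ha : AdjP n m G off adj) (hk : CK n tau G off adj s) {i v : ℕ} (hi : s.r ri = i)
    (hv : v < n) (hvt : dg n G v < tau) {T : List ℕ} (hvT : v ∉ T) (hnd : T.Nodup)
    (hP : ∀ v ∈ T, v < n ∧ dg n G v < tau) (hord : s.m ORD i = v)
    (h0 : s.m RS i = 0 → CloT n tau G T) (h1 : s.m RS i ≠ 0 → ∃ u ∈ T, G.Adj u v)
    (hC : CI n tau G T (s.m CE) (s.m CV) (s.m BAD) (s.r rnE) (s.r rsz) (s.r rmx)) :
    Tri s bodyC (100 + 20 * (off (v + 1) - off v)) (fun s' => CK n tau G off adj s' ∧
      s'.m ORD = s.m ORD ∧ s'.m RS = s.m RS ∧ s'.r ri = i ∧ s'.r rno = s.r rno ∧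
      CI n tau G (T ++ [v]) (s'.m CE) (s'.m CV) (s'.m BAD) (s'.r rnE) (s'.r rsz) (s'.r rmx)) := by
  -- the rest of the body, from the state after `preC`
  have rest : ∀ s1 : St, CK n tau G off adj s1 → s1.r rv = v → s1.r rhi = off (v + 1) →
      s1.r rd = 0 → s1.m ORD = s.m ORD → s1.m RS = s.m RS → s1.r ri = i → s1.r rno = s.r rno →
      CI n tau G (T ++ [v]) (s1.m CE) (s1.m CV) (s1.m BAD) (s1.r rnE) (s1.r rsz)
        (max (s1.r rmx) (nn_ n G tau v).card) →
      Tri s1 (.blk [.for_ rj (A OFF (V rv)) rhi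
        (.whn (.lt (A DEG (A ADJ (V rj))) (V rtau)) (.incr rd)),
        .whn (.lt (V rmx) (V rd)) (.set rmx (V rd))]) (30 + 20 * (off (v + 1) - off v))
        (fun s' => CK n tau G off adj s' ∧
      s'.m ORD = s.m ORD ∧ s'.m RS = s.m RS ∧ s'.r ri = i ∧ s'.r rno = s.r rno ∧
      CI n tau G (T ++ [v]) (s'.m CE) (s'.m CV) (s'.m BAD) (s'.r rnE) (s'.r rsz) (s'.r rmx)) := by
    intro s1 g1 g2 g3 g4 g5 g6 g7 g8 g9
    refine Tri.cons (B1 := 7 + 20 * (off (v + 1) - off v)) (B2 := 23)
      ((cnt_spec hG ha g1 hv g2 g3 g4).imp ?_) (by omega)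
    rintro s2 ⟨k1, k2, k3⟩
    refine (Tri.lf (by decide) ?_).cost (by decide)
    have kr : ∀ x, x ≠ rd → x ≠ rj → s2.r x = s1.r x := k3
    have hmx : s2.r rmx = s1.r rmx := kr _ (by decide) (by decide)
    have hex : (Cmd.blk [.whn (.lt (V rmx) (V rd)) (.set rmx (V rd))]).ex s2 =
        s2.setR rmx (max (s1.r rmx) (nn_ n G tau v).card) := by
      by_cases h : s1.r rmx < (nn_ n G tau v).card
      · simp [hmx, k1, h, max_eq_right (le_of_lt h)]
      · have e : s2.setR rmx (max (s1.r rmx) (nn_ n G tau v).card) = s2 := by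
          apply St.ext'
          · intro x
            rw [St.setR_r]
            split_ifs with hx
            · rw [max_eq_left (by omega), hx, hmx]
            · rfl
          · intro a b; rfl
        rw [e]
        simp only [Cmd.ex_cons, Cmd.ex_nil, Cmd.ex_ite, Cond.ev_lt, Exp.ev_reg, hmx, k1]
        rw [if_neg (by simpa using h)]; rfl
    rw [hex]
    refine ⟨g1.fr ?_ ?_ ?_ ?_, ?_, ?_, ?_, ?_, ?_⟩
    · simp [kr rtau (by decide) (by decide)]
    · simp [k2]
    · simp [k2]
    · simp [k2]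
    · simp [k2, g5]
    · simp [k2, g6]
    · simp [kr ri (by decide) (by decide), g7]
    · simp [kr rno (by decide) (by decide), g8]
    · simpa [k2, kr rnE (by decide) (by decide), kr rsz (by decide) (by decide)] using g9
  have hmain : Tri (preC.ex s) (.blk [.for_ rj (A OFF (V rv)) rhi
        (.whn (.lt (A DEG (A ADJ (V rj))) (V rtau)) (.incr rd)),
        .whn (.lt (V rmx) (V rd)) (.set rmx (V rd))]) (30 + 20 * (off (v + 1) - off v))
        (fun s' => CK n tau G off adj s' ∧
      s'.m ORD = s.m ORD ∧ s'.m RS = s.m RS ∧ s'.r ri = i ∧ s'.r rno = s.r rno ∧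
      CI n tau G (T ++ [v]) (s'.m CE) (s'.m CV) (s'.m BAD) (s'.r rnE) (s'.r rsz) (s'.r rmx)) := by
    by_cases hr : s.m RS i = 0
    · obtain ⟨e1, e2, e3, e4, e5, e6, e7, e8, e9, e10, e11, e12, e13, e14, e15, e16, e17⟩ :=
        preC_new hi hord hr
      refine rest _ (hk.fr e12 e13 e14 e15) e8 (by rw [e9, hk.off_]) e7 e16 e17 e10 e11 ?_
      rw [e1, e2, e3, e4, e5, e6, max_eq_right (Nat.zero_le _)]
      exact hC.new hnd hP (h0 hr) hv hvt hvT rfl
    · obtain ⟨e1, e2, e3, e4, e5, e6, e7, e8, e9, e10, e11, e12, e13, e14, e15, e16, e17⟩ :=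
        preC_cont hi hord hr
      refine rest _ (hk.fr e12 e13 e14 e15) e8 (by rw [e9, hk.off_]) e7 e16 e17 e10 e11 ?_
      rw [e1, e2, e3, e4, e5, e6]
      obtain ⟨u, hu, huv⟩ := h1 hr
      exact hC.cont hP hv hvt hvT hu huv
  refine Tri.cost (Tri.lfcons (by decide) (Tri.lfcons (by decide) (Tri.lfcons (by decide)
    (Tri.lfcons (by decide) (Tri.lfcons (by decide) (Tri.lfcons (by decide) hmain)))))) ?_
  simp only [Cmd.mc, Cmd.mc_cons, Cmd.mc_nil, Exp.cost, Cond.cost]
  omega

/-- facts about the order -/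
theorem scan_facts {n tau : ℕ} {G : SimpleGraph ℕ} {alw : ℕ → ℕ} (hG : Inn n G)
    {ord : List ℕ} {BK : ℕ → List ℕ} {s : St} (hs : ScanP n 1 G alw ord BK s)
    (hal : ∀ v < n, (alw v = 1 ↔ dg n G v < tau)) :
    (seg (s.m ORD) 0 (s.r rno)).Nodup ∧
    (∀ v, v ∈ seg (s.m ORD) 0 (s.r rno) ↔ (v < n ∧ dg n G v < tau)) ∧
    (∀ i < s.r rno, s.m RS i = 0 → CloT n tau G (seg (s.m ORD) 0 i)) ∧
    (∀ i < s.r rno, s.m RS i ≠ 0 → ∃ u ∈ seg (s.m ORD) 0 i, G.Adj u (s.m ORD i)) := by
  have hlen : s.r rno = ord.length := by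
    have := congrArg List.length hs.ord_
    simpa using this
  have hmem : ∀ v, v ∈ ord ↔ (v < n ∧ dg n G v < tau) := by
    intro v
    rw [hs.scan.mem]
    constructor
    · rintro ⟨a, b⟩; exact ⟨a, (hal v a).1 b⟩
    · rintro ⟨a, b⟩; exact ⟨a, (hal v a).2 b⟩
  have htake : ∀ i ≤ s.r rno, ord.take i = seg (s.m ORD) 0 i := by
    intro i hi
    rw [← hs.ord_, ← seg_append (s.m ORD) (i := 0) (j := i) (k := s.r rno) (by omega) hi]
    exact List.take_left' (by simp)
  have hget : ∀ i, (h : i < ord.length) → ord[i] = s.m ORD i := by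
    intro i h
    have h1 : i < (seg (s.m ORD) 0 (s.r rno)).length := by rw [hs.ord_]; exact h
    have h2 := seg_getElem (s.m ORD) 0 (s.r rno) i h1
    rw [Nat.zero_add] at h2
    rw [← h2]
    congr 1
    exact hs.ord_.symm
  refine ⟨by rw [hs.ord_]; exact hs.scan.nd, by rw [hs.ord_]; exact hmem, ?_, ?_⟩
  · intro i hi h0
    have hi' : i < ord.length := by omega
    have h1 := hs.rs_ i hi'
    rw [h0, hs.scan.bk i hi', List.length_take] at h1
    have h2 : nbl G (ord.take i) ord[i] = [] := by
      rw [← List.length_eq_zero_iff]; omega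
    intro a haT b hab hbS
    rw [← htake i (by omega)] at haT ⊢
    have hb : b ∈ ord := by
      rw [hmem]
      rw [mem_gset] at hbS
      have := hG.right hab
      omega
    rw [← List.take_append_drop i ord, List.mem_append] at hb
    rcases hb with hb | hb
    · exact hb
    · exact absurd hab (hs.scan.block le_rfl hi' h2 haT hb)
  · intro i hi h0
    have hi' : i < ord.length := by omega
    have h1 := hs.rs_ i hi'
    rw [hs.scan.bk i hi', List.length_take] at h1
    have h2 : nbl G (ord.take i) ord[i] ≠ [] := by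
      intro h; rw [h] at h1; simp at h1; exact h0 h1
    obtain ⟨u, hu⟩ := List.exists_mem_of_ne_nil _ h2
    rw [mem_nbl, htake i (by omega), hget i hi'] at hu
    exact ⟨u, hu.1, hu.2⟩

theorem CI.init {n tau : ℕ} {G : SimpleGraph ℕ} {ce cv bad : ℕ → ℕ} (h1 : ∀ v < n, ce v = n)
    (h2 : ∀ v, bad v = 0) : CI n tau G [] ce cv bad n 0 0 := by
  refine ⟨le_rfl, by simp, fun _ => rfl, by simp, fun v hv _ => h1 v hv, by simp, ?_, ?_, ?_,
    by simp, by simp, by simp, Or.inl rfl⟩
  · intro E' h3 h4; omega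
  · intro E' h3 h4; omega
  · intro E' _; exact h2 E'

theorem pComps_spec {n m : ℕ} {G : SimpleGraph ℕ} (hG : Inn n G) {s : St} (hn : s.r rn = n)
    (ha : AdjP n m G (s.m OFF) (s.m ADJ)) (hd : ∀ v, s.m DEG v = dg n G v)
    (hb : ∀ v, s.m BAD v = 0) :
    Tri s pComps (10000 * (n + m + 1)) (fun s' => PrepC n G s') := by
  set tau := s.r rtau with htau
  refine Tri.cons (B1 := 6 + 50 * n) (B2 := 3000 * n + 3000 * m + 3000) ?_ (by omega)
  refine (Tri.forC (a := 0) (N := n) (I := fun j s1 => s1.r rn = n ∧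
    CK n tau G (s.m OFF) (s.m ADJ) s1 ∧ (∀ v, s1.m BAD v = 0) ∧
    ∀ y < j, s1.m CE y = n ∧ (s1.m ALW y = 1 ↔ dg n G y < tau)) 43
    (by decide) (by simp) hn (by omega) ?_ ?_ ?_).cost ?_
  · exact ⟨by simp [hn], ⟨by simp [htau], rfl, rfl, hd⟩, hb, by simp⟩
  · rintro j _ hj s1 ⟨k1, k2, k3, k4⟩ h1 h2
    refine (Tri.lf (by decide) ?_).cost (by decide)
    have hdj : s1.m DEG j = dg n G j := k2.deg_ j
    by_cases h : dg n G j < tau
    · have hex : (Cmd.blk [
          .put CE (V ri) (V rn),
          .put ALW (V ri) (K 0),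
          .whn (.lt (A DEG (V ri)) (V rtau)) (.put ALW (V ri) (K 1))]).ex s1 =
          ((s1.setM CE j n).setM ALW j 0).setM ALW j 1 := by
        simp [h1, k1, hdj, k2.t_, h]
      rw [hex]
      refine ⟨⟨by simp [k1], k2.fr (by simp) (by simp) (by simp) (by simp), ?_, ?_⟩,
        by simp [h1], by simp [h2]⟩
      · simpa using k3
      · intro y hy
        simp [Function.update_apply]
        by_cases hyj : y = j
        · subst hyj; simp [h]
        · have := k4 y (by omega)
          simp [hyj, this.1, this.2]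
    · have hex : (Cmd.blk [
          .put CE (V ri) (V rn),
          .put ALW (V ri) (K 0),
          .whn (.lt (A DEG (V ri)) (V rtau)) (.put ALW (V ri) (K 1))]).ex s1 =
          ((s1.setM CE j n).setM ALW j 0) := by
        simp only [Cmd.ex_cons, Cmd.ex_nil, Cmd.ex_put, Cmd.ex_ite, Exp.ev_reg, h1, k1,
          Cond.ev_lt, Exp.ev_get, St.setM_r, k2.t_, Exp.ev_const]
        rw [if_neg]
        · rfl
        · simpa [hdj] using h
      rw [hex]
      refine ⟨⟨by simp [k1], k2.fr (by simp) (by simp) (by simp) (by simp), ?_, ?_⟩,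
        by simp [h1], by simp [h2]⟩
      · simpa using k3
      · intro y hy
        simp [Function.update_apply]
        by_cases hyj : y = j
        · subst hyj; simp; omega
        · have := k4 y (by omega)
          simp [hyj, this.1, this.2]
  · rintro s1 ⟨k1, k2, k3, k4⟩ _ _
    refine Tri.cons (B1 := 2) (B2 := 3000 * n + 3000 * m + 2998) (Tri.set ?_ (by decide)) (by omega)
    refine Tri.cons (B1 := 800 * n + 1000 * m + 20 * 1 + 120) (B2 := 2000 * n + 2000 * m + 2000)
      ?_ (by omega)
    have hspec := pScan_sharp (n := n) (m := m) (L := 1) hG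
      (s := s1.setR rL ((K 1).ev s1)) (by simp [k1]) (by simp)
      (by rw [St.setR_m, k2.off_, k2.adj_]; exact ha)
    refine (hspec.fr).imp ?_
    rintro s2 ⟨⟨ord, BK, h⟩, hfr⟩
    obtain ⟨f1, f2, f3, f4⟩ := scan_facts (tau := tau) hG h (fun v hv => (k4 v hv).2)
    have g1 : CK n tau G (s.m OFF) (s.m ADJ) s2 :=
      k2.fr (hfr.r rtau (by decide)) (hfr.m OFF (by decide)) (hfr.m ADJ (by decide))
        (hfr.m DEG (by decide))
    have g2 : s2.r rn = n := (hfr.r rn (by decide)).trans k1
    have g3 : s2.m BAD = s1.m BAD := hfr.m BAD (by decide)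
    have g4 : s2.m CE = s1.m CE := hfr.m CE (by decide)
    set N := s2.r rno with hN
    set of := s2.m ORD with hof
    have hinj : ∀ i < N, ∀ j < N, of i = of j → i = j := by
      intro i hi j hj hij
      have h1 : i < (seg of 0 N).length := by simpa using hi
      have h2 : j < (seg of 0 N).length := by simpa using hj
      refine (List.Nodup.getElem_inj_iff f1 (hi := h1) (hj := h2)).1 ?_
      rw [seg_getElem, seg_getElem]; simpa using hij
    have hofn : ∀ i < N, of i < n ∧ dg n G (of i) < tau := by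
      intro i hi
      exact (f2 _).1 (mem_seg.2 ⟨i, by omega, hi, rfl⟩)
    have hNn : N ≤ n := by
      have := (List.subperm_of_subset f1 (l₂ := List.range n)
        (fun z hz => List.mem_range.2 ((f2 z).1 hz).1)).length_le
      simpa using this
    refine Tri.cons (B1 := 2) (B2 := 2000 * n + 2000 * m + 1998) (Tri.set ?_ (by decide)) (by omega)
    refine Tri.cons (B1 := 2) (B2 := 2000 * n + 2000 * m + 1996) (Tri.set ?_ (by decide)) (by omega)
    refine Tri.cons (B1 := 2) (B2 := 2000 * n + 2000 * m + 1994) (Tri.set ?_ (by decide)) (by omega)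
    refine Tri.cons (B1 := 6 + (107 * n + 40 * m)) (B2 := 50) ?_ (by omega)
    refine (Tri.forI (a := 0) (N := N) (I := fun i s3 => CK n tau G (s.m OFF) (s.m ADJ) s3 ∧
      s3.m ORD = of ∧ s3.m RS = s2.m RS ∧
      CI n tau G (seg of 0 i) (s3.m CE) (s3.m CV) (s3.m BAD) (s3.r rnE) (s3.r rsz) (s3.r rmx))
      (fun i => 100 + 20 * (s.m OFF (of i + 1) - s.m OFF (of i)))
      (by decide) (by simp) (by simp [hN]) (by omega) ?_ ?_ ?_).cost ?_
    · refine ⟨g1.fr (by simp) rfl rfl rfl, rfl, rfl, ?_⟩
      have : CI n tau G [] (s2.m CE) (s2.m CV) (s2.m BAD) n 0 0 := by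
        apply CI.init
        · intro v hv; rw [g4]; exact (k4 v hv).1
        · intro v; rw [g3]; exact k3 v
      simpa [g2] using this
    · rintro i _ hi s3 ⟨l1, l2, l3, l4⟩ h1 h2
      have hT : ∀ v ∈ seg of 0 i, v < n ∧ dg n G v < tau := by
        intro v hv
        obtain ⟨p, _, h4, rfl⟩ := mem_seg.1 hv
        exact hofn p (by omega)
      have hndT : (seg of 0 i).Nodup := by
        rw [← seg_append of (i := 0) (j := i) (k := N) (by omega) (by omega)] at f1
        exact (List.nodup_append.1 f1).1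
      have hvT : of i ∉ seg of 0 i := by
        intro h5
        obtain ⟨p, _, h6, h7⟩ := mem_seg.1 h5
        have := hinj p (by omega) i hi h7
        omega
      refine (bodyC_spec hG ha l1 h1 (hofn i hi).1 (hofn i hi).2 hvT hndT hT (by rw [l2])
        (fun h5 => f3 i hi (by rw [← l3]; exact h5)) (fun h5 => f4 i hi (by rw [← l3]; exact h5))
        l4).imp ?_
      rintro s4 ⟨m1, m2, m3, m4, m5, m6⟩
      refine ⟨⟨m1.fr (by simp) rfl rfl rfl, ?_, ?_, ?_⟩, m4, by rw [m5, h2]⟩
      · rw [St.setR_m, m2, l2]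
      · rw [St.setR_m, m3, l3]
      · rw [seg_succ _ (by omega)]
        simpa using m6
    · rintro s3 ⟨l1, l2, l3, l4⟩ _ _
      refine (Tri.lf (by decide) ?_).cost (by decide)
      have hfull : ∀ v < n, dg n G v < tau → v ∈ seg of 0 N := fun v hv hv' => (f2 v).2 ⟨hv, hv'⟩
      have hP : ∀ v ∈ seg of 0 N, v < n ∧ dg n G v < tau := fun v hv => (f2 v).1 hv
      refine l4.prep f1 hP hfull hG rfl ?_ ?_ ?_ ?_ ?_
      · by_cases h : s3.r rmx + 1 < s3.r rsz <;> simp [h]
      · by_cases h : s3.r rmx + 1 < s3.r rsz <;> simp [h]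
      · by_cases h : s3.r rmx + 1 < s3.r rsz <;> simp [h]
      · by_cases h : s3.r rmx + 1 < s3.r rsz <;> simp [h]
      · by_cases h : s3.r rmx + 1 < s3.r rsz <;> simp [h, l1.t_]
    · have h1 := sum_inj_le (fun i hi => (hofn i hi).1) hinj
        (fun x => 20 * (s.m OFF (x + 1) - s.m OFF x))
      have h3 : ∀ k ≤ n, ∑ y ∈ range k, (s.m OFF (y + 1) - s.m OFF y) = s.m OFF k := by
        intro k hk
        induction k with
        | zero => simp [ha.off0]
        | succ k ih =>
          rw [Finset.sum_range_succ, ih (by omega)]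
          have := ha.mono k (by omega)
          omega
      rw [← Finset.mul_sum, ← Finset.mul_sum, h3 n le_rfl, ha.offn] at h1
      rw [← Finset.range_eq_Ico]
      have h4 : ∑ j ∈ range N, (100 + 20 * (s.m OFF (of j + 1) - s.m OFF (of j)) + 7) =
          107 * N + 20 * ∑ j ∈ range N, (s.m OFF (of j + 1) - s.m OFF (of j)) := by
        rw [Finset.mul_sum, Finset.sum_add_distrib, Finset.sum_add_distrib]
        simp; ring
      rw [h4]
      simp only [Exp.cost]
      omega
  · simp only [Exp.cost]; omega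

end TL
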