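import Pool.Agent.W_3fea_h44.PSort

/-! # Specification of `pKer` -/

namespace TL

open Relation Finset Classical

namespace KerAux

/-- the edges of the list between the classes `a` and `b` -/
def kab (nd : ℕ → ℕ) (K : List (ℕ × ℕ)) (a b : ℕ) : List (ℕ × ℕ) :=
  K.filter (fun e => decide (nd e.1 = a ∧ nd e.2 = b))

/-- the list of the first `j` arcs -/
def arl (bx by_ : ℕ → ℕ) (j : ℕ) : List (ℕ × ℕ) := (List.range j).map (fun i => (bx i, by_ i))

theorem arl_succ (bx by_ : ℕ → ℕ) (j : ℕ) : arl bx by_ (j + 1) = arl bx by_ j ++ [(bx j, by_ j)] := by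
  simp [arl, List.range_succ]

theorem kab_append (nd : ℕ → ℕ) (K : List (ℕ × ℕ)) (e : ℕ × ℕ) (a b : ℕ) :
    kab nd (K ++ [e]) a b = kab nd K a b ++ if nd e.1 = a ∧ nd e.2 = b then [e] else [] := by
  by_cases h : nd e.1 = a ∧ nd e.2 = b
  · rw [if_pos h, kab, kab, List.filter_append]
    simp [h]
  · rw [if_neg h, kab, kab, List.filter_append]
    have : [e].filter (fun e => decide (nd e.1 = a ∧ nd e.2 = b)) = [] := by
      rw [List.filter_eq_nil_iff]
      intro f hf
      rw [List.mem_singleton] at hf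
      subst hf
      simpa using h
    rw [this]

theorem greedy_append (q : ℕ) (l : List (ℕ × ℕ)) (e : ℕ × ℕ) (kept : List (ℕ × ℕ)) :
    greedy q kept (l ++ [e]) =
      if ((greedy q kept l).filter (fun f => f.1 = e.1)).length ≤ q ∧
        ((greedy q kept l).filter (fun f => f.2 = e.2)).length ≤ q ∧
        (greedy q kept l).length ≤ q * (q + 1)
      then greedy q kept l ++ [e] else greedy q kept l := by
  induction l generalizing kept with
  | nil => simp [greedy]
  | cons f l ih =>
    simp only [List.cons_append, greedy]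
    by_cases hc : (kept.filter (fun g => g.1 = f.1)).length ≤ q ∧
        (kept.filter (fun g => g.2 = f.2)).length ≤ q ∧ kept.length ≤ q * (q + 1)
    · rw [if_pos hc, if_pos hc, ih]
    · rw [if_neg hc, if_neg hc, ih]

theorem greedy_len (q : ℕ) (l : List (ℕ × ℕ)) (kept : List (ℕ × ℕ))
    (h : kept.length ≤ q * (q + 1) + 1) : (greedy q kept l).length ≤ q * (q + 1) + 1 := by
  induction l generalizing kept with
  | nil => simpa [greedy] using h
  | cons f l ih =>
    simp only [greedy]
    split_ifs with hc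
    · apply ih
      simp only [List.length_append, List.length_singleton]
      exact Nat.succ_le_succ hc.2.2
    · exact ih _ h

/-- the kept list after `j` arcs -/
structure KG (q : ℕ) (nd bx by_ : ℕ → ℕ) (j : ℕ) (K : List (ℕ × ℕ)) : Prop where
  ne : ∀ e ∈ K, nd e.1 ≠ nd e.2
  gr : ∀ a b, a ≠ b → kab nd K a b = greedy q [] (kab nd (arl bx by_ j) a b)
  sub : ∀ e ∈ K, e ∈ arl bx by_ j

theorem KG.zero (q : ℕ) (nd bx by_ : ℕ → ℕ) : KG q nd bx by_ 0 [] :=
  ⟨by simp, by simp [kab, arl, greedy], by simp⟩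

theorem KG.kab_self {q : ℕ} {nd bx by_ : ℕ → ℕ} {j : ℕ} {K : List (ℕ × ℕ)}
    (h : KG q nd bx by_ j K) (a : ℕ) : kab nd K a a = [] := by
  rw [kab, List.filter_eq_nil_iff]
  intro e he
  have := h.ne e he
  simp only [decide_eq_true_eq]
  rintro ⟨h1, h2⟩
  exact this (h1.trans h2.symm)

/-- test of the greedy algorithm -/
def gco (q : ℕ) (nd : ℕ → ℕ) (K : List (ℕ × ℕ)) (e : ℕ × ℕ) : Prop :=
  nd e.1 ≠ nd e.2 ∧ ((kab nd K (nd e.1) (nd e.2)).filter (fun f => f.1 = e.1)).length ≤ q ∧
    ((kab nd K (nd e.1) (nd e.2)).filter (fun f => f.2 = e.2)).length ≤ q ∧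
    (kab nd K (nd e.1) (nd e.2)).length ≤ q * (q + 1)

theorem KG.yes {q : ℕ} {nd bx by_ : ℕ → ℕ} {j : ℕ} {K : List (ℕ × ℕ)}
    (h : KG q nd bx by_ j K) (hc : gco q nd K (bx j, by_ j)) :
    KG q nd bx by_ (j + 1) (K ++ [(bx j, by_ j)]) := by
  obtain ⟨c0, c1⟩ := hc
  refine ⟨?_, ?_, ?_⟩
  · intro e he
    rcases List.mem_append.1 he with he | he
    · exact h.ne e he
    · rw [List.mem_singleton] at he
      subst he
      exact c0
  · intro a b hab
    rw [kab_append, arl_succ, kab_append]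
    by_cases hh : nd (bx j, by_ j).1 = a ∧ nd (bx j, by_ j).2 = b
    · rw [if_pos hh, greedy_append, ← h.gr a b hab, if_pos]
      rw [← hh.1, ← hh.2]
      exact c1
    · rw [if_neg hh, List.append_nil, List.append_nil, h.gr a b hab]
  · intro e he
    rw [arl_succ]
    rcases List.mem_append.1 he with he | he
    · exact List.mem_append_left _ (h.sub e he)
    · exact List.mem_append_right _ he

theorem KG.no {q : ℕ} {nd bx by_ : ℕ → ℕ} {j : ℕ} {K : List (ℕ × ℕ)}
    (h : KG q nd bx by_ j K) (hc : ¬ gco q nd K (bx j, by_ j)) :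
    KG q nd bx by_ (j + 1) K := by
  refine ⟨h.ne, ?_, ?_⟩
  · intro a b hab
    rw [arl_succ, kab_append]
    by_cases hh : nd (bx j, by_ j).1 = a ∧ nd (bx j, by_ j).2 = b
    · rw [if_pos hh, greedy_append, ← h.gr a b hab, if_neg]
      intro hc'
      apply hc
      refine ⟨?_, ?_⟩
      · rw [hh.1, hh.2]; exact hab
      · rw [hh.1, hh.2]
        exact hc'
    · rw [if_neg hh, List.append_nil, h.gr a b hab]
  · intro e he
    rw [arl_succ]
    exact List.mem_append_left _ (h.sub e he)

/-- the counters of the current pair of classes -/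
structure KC (nd : ℕ → ℕ) (K : List (ℕ × ℕ)) (a b : ℕ) (s : St) : Prop where
  pa : s.r rpa = a
  pb : s.r rpb = b
  tot : s.r rtot = (kab nd K a b).length
  sx : ∀ v, s.m SX v ≤ s.r rrun
  sy : ∀ v, s.m SY v ≤ s.r rrun
  cx1 : ∀ v, s.m SX v = s.r rrun →
    s.m CX v = ((kab nd K a b).filter (fun f => f.1 = v)).length
  cx0 : ∀ v, s.m SX v ≠ s.r rrun → ((kab nd K a b).filter (fun f => f.1 = v)).length = 0
  cy1 : ∀ v, s.m SY v = s.r rrun →
    s.m CY v = ((kab nd K a b).filter (fun f => f.2 = v)).length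
  cy0 : ∀ v, s.m SY v ≠ s.r rrun → ((kab nd K a b).filter (fun f => f.2 = v)).length = 0

/-- the constant part of the memory and the kernel -/
structure KS (q nn : ℕ) (nd bx by_ : ℕ → ℕ) (K : List (ℕ × ℕ)) (s : St) : Prop where
  node : s.m NODE = nd
  hbx : s.m BX = bx
  hby : s.m BY = by_
  hnn : s.r rnn = nn
  hq : s.r rq = q
  hqq : s.r rqq = q * (q + 1)
  ker : kerL s = K

/-- registers during an iteration -/
structure KR (j N x y a b : ℕ) (s : St) : Prop where
  i_ : s.r ri = j
  N_ : s.r rN = N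
  x_ : s.r rx = x
  y_ : s.r ry = y
  a_ : s.r ra = a
  e_ : s.r re = b

theorem kerL_congr {s s' : St} (h1 : s'.r rnK = s.r rnK) (h2 : s'.m KX = s.m KX)
    (h3 : s'.m KY = s.m KY) : kerL s' = kerL s := by
  simp only [kerL, h1, h2, h3]

theorem KS.fr {q nn : ℕ} {nd bx by_ : ℕ → ℕ} {K : List (ℕ × ℕ)} {s s' : St}
    (h : KS q nn nd bx by_ K s) {wr wa : List ℕ} (hf : Fr wr wa s s')
    (h1 : ∀ r ∈ [rnn, rq, rqq, rnK], r ∉ wr) (h2 : ∀ a ∈ [NODE, BX, BY, KX, KY], a ∉ wa) :
    KS q nn nd bx by_ K s' := by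
  have hr : ∀ x ∈ [rnn, rq, rqq, rnK], s'.r x = s.r x := fun x hx => hf.r x (h1 x hx)
  have hm : ∀ a ∈ [NODE, BX, BY, KX, KY], s'.m a = s.m a := fun a ha => hf.m a (h2 a ha)
  exact ⟨by rw [hm NODE (by decide)]; exact h.node, by rw [hm BX (by decide)]; exact h.hbx,
    by rw [hm BY (by decide)]; exact h.hby, by rw [hr rnn (by decide)]; exact h.hnn,
    by rw [hr rq (by decide)]; exact h.hq, by rw [hr rqq (by decide)]; exact h.hqq,
    by rw [kerL_congr (hr rnK (by decide)) (hm KX (by decide)) (hm KY (by decide))]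
       exact h.ker⟩

theorem KR.fr {j N x y a b : ℕ} {s s' : St} (h : KR j N x y a b s) {wr wa : List ℕ}
    (hf : Fr wr wa s s') (h1 : ∀ r ∈ [ri, rN, rx, ry, ra, re], r ∉ wr) :
    KR j N x y a b s' := by
  have hr : ∀ x ∈ [ri, rN, rx, ry, ra, re], s'.r x = s.r x := fun x hx => hf.r x (h1 x hx)
  exact ⟨by rw [hr ri (by decide)]; exact h.i_, by rw [hr rN (by decide)]; exact h.N_,
    by rw [hr rx (by decide)]; exact h.x_, by rw [hr ry (by decide)]; exact h.y_,
    by rw [hr ra (by decide)]; exact h.a_, by rw [hr re (by decide)]; exact h.e_⟩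

theorem KC.fr {nd : ℕ → ℕ} {K : List (ℕ × ℕ)} {a b : ℕ} {s s' : St} (h : KC nd K a b s)
    {wr wa : List ℕ} (hf : Fr wr wa s s') (h1 : ∀ r ∈ [rpa, rpb, rtot, rrun], r ∉ wr)
    (h2 : ∀ a ∈ [SX, SY, CX, CY], a ∉ wa) : KC nd K a b s' := by
  have hr : ∀ x ∈ [rpa, rpb, rtot, rrun], s'.r x = s.r x := fun x hx => hf.r x (h1 x hx)
  have hm : ∀ a ∈ [SX, SY, CX, CY], s'.m a = s.m a := fun a ha => hf.m a (h2 a ha)
  have r1 := hr rpa (by decide)
  have r2 := hr rpb (by decide)
  have r3 := hr rtot (by decide)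
  have r4 := hr rrun (by decide)
  have m1 := hm SX (by decide)
  have m2 := hm SY (by decide)
  have m3 := hm CX (by decide)
  have m4 := hm CY (by decide)
  exact ⟨r1.trans h.pa, r2.trans h.pb, r3.trans h.tot, by rw [r4, m1]; exact h.sx,
    by rw [r4, m2]; exact h.sy, by rw [r4, m1, m3]; exact h.cx1, by rw [r4, m1]; exact h.cx0,
    by rw [r4, m2, m4]; exact h.cy1, by rw [r4, m2]; exact h.cy0⟩

/-- loop-free commands: frame -/
theorem ex_fr {c : Cmd} (h : c.lf = true) (s : St) : Fr c.wr c.wa s (c.ex s) := by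
  obtain ⟨t, _, h1⟩ := c.lf_run s h
  exact h1.frame

def kB1 : Cmd :=
  .whn (.not (.and (.eq (V ra) (V rpa)) (.eq (V re) (V rpb)))) (.blk [
        .incr rrun, .set rtot (K 0), .set rpa (V ra), .set rpb (V re)])
def kB2 : Cmd :=
  .whn (.ne (A SX (V rx)) (V rrun)) (.blk [.put SX (V rx) (V rrun), .put CX (V rx) (K 0)])
def kB3 : Cmd :=
  .whn (.ne (A SY (V ry)) (V rrun)) (.blk [.put SY (V ry) (V rrun), .put CY (V ry) (K 0)])
def kB4 : Cmd :=
  .whn (.all [.ne (V ra) (V re), .not (.lt (V rq) (A CX (V rx))),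
          .not (.lt (V rq) (A CY (V ry))), .not (.lt (V rqq) (V rtot))]) (.blk [
        .put KX (V rnK) (V rx), .put KY (V rnK) (V ry), .incr rnK,
        .put CX (V rx) (.inc (A CX (V rx))), .put CY (V ry) (.inc (A CY (V ry))), .incr rtot])

variable {q nn j N x y a b : ℕ} {nd bx by_ : ℕ → ℕ} {L : List (ℕ × ℕ)} {s : St}

theorem kB1_spec (hR : KR j N x y a b s)
    (hC : KC nd L a b s ∨ (¬ (s.r rpa = a ∧ s.r rpb = b) ∧ kab nd L a b = [] ∧
      (∀ v, s.m SX v ≤ s.r rrun) ∧ ∀ v, s.m SY v ≤ s.r rrun)) :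
    KC nd L a b (kB1.ex s) := by
  rcases hC with hC | ⟨hne, hk, h1, h2⟩
  · have : kB1.ex s = s := by
      simp [kB1, hR.a_, hR.e_, hC.pa, hC.pb]
    rw [this]
    exact hC
  · have hne' : (decide (a = s.r rpa) && decide (b = s.r rpb)) = false := by
      rw [Bool.eq_false_iff]
      intro h
      simp only [Bool.and_eq_true, decide_eq_true_eq] at h
      exact hne ⟨h.1.symm, h.2.symm⟩
    have hE : kB1.ex s = (((s.setR rrun (s.r rrun + 1)).setR rtot 0).setR rpa a).setR rpb b := by
      simp [kB1, hR.a_, hR.e_, hne']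
    rw [hE]
    refine ⟨by simp, by simp, by simp [hk], ?_, ?_, ?_, ?_, ?_, ?_⟩
    · intro v; have := h1 v; simp; omega
    · intro v; have := h2 v; simp; omega
    · intro v hv; exfalso; have := h1 v; simp at hv; omega
    · intro v _; simp [hk]
    · intro v hv; exfalso; have := h2 v; simp at hv; omega
    · intro v _; simp [hk]

theorem kB2_spec (hR : KR j N x y a b s) (hC : KC nd L a b s) :
    KC nd L a b (kB2.ex s) ∧ (kB2.ex s).m SX x = (kB2.ex s).r rrun := by
  by_cases h : s.m SX x = s.r rrun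
  · have : kB2.ex s = s := by
      simp [kB2, hR.x_, h]
    rw [this]
    exact ⟨hC, h⟩
  · have hE : kB2.ex s = (s.setM SX x (s.r rrun)).setM CX x 0 := by
      simp [kB2, hR.x_, h]
    rw [hE]
    refine ⟨⟨by simp [hC.pa], by simp [hC.pb], by simp [hC.tot], ?_, ?_, ?_, ?_, ?_, ?_⟩, ?_⟩
    · intro v
      have := hC.sx v
      simp only [St.setM_m, St.setM_r, show (SX : ℕ) ≠ CX by decide, if_false, if_true,
        Function.update_apply]
      split_ifs
      · exact le_rfl
      · exact this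
    · intro v
      have := hC.sy v
      simpa using this
    · intro v hv
      simp only [St.setM_m, St.setM_r, show (SX : ℕ) ≠ CX by decide,
        show (CX : ℕ) ≠ SX by decide, if_false, if_true,
        Function.update_apply] at hv ⊢
      by_cases hvx : v = x
      · subst hvx
        rw [if_pos rfl]
        exact (hC.cx0 v h).symm
      · rw [if_neg hvx] at hv ⊢
        exact hC.cx1 v hv
    · intro v hv
      simp only [St.setM_m, St.setM_r, show (SX : ℕ) ≠ CX by decide,
        show (CX : ℕ) ≠ SX by decide, if_false, if_true,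
        Function.update_apply] at hv
      by_cases hvx : v = x
      · subst hvx
        rw [if_pos rfl] at hv
        exact absurd rfl hv
      · rw [if_neg hvx] at hv
        exact hC.cx0 v hv
    · intro v hv
      exact hC.cy1 v (by simpa using hv)
    · intro v hv
      exact hC.cy0 v (by simpa using hv)
    · simp

theorem kB3_spec (hR : KR j N x y a b s) (hC : KC nd L a b s) (hx : s.m SX x = s.r rrun) :
    KC nd L a b (kB3.ex s) ∧ (kB3.ex s).m SX x = (kB3.ex s).r rrun ∧
      (kB3.ex s).m SY y = (kB3.ex s).r rrun := by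
  by_cases h : s.m SY y = s.r rrun
  · have : kB3.ex s = s := by
      simp [kB3, hR.y_, h]
    rw [this]
    exact ⟨hC, hx, h⟩
  · have hE : kB3.ex s = (s.setM SY y (s.r rrun)).setM CY y 0 := by
      simp [kB3, hR.y_, h]
    rw [hE]
    refine ⟨⟨by simp [hC.pa], by simp [hC.pb], by simp [hC.tot], ?_, ?_, ?_, ?_, ?_, ?_⟩, ?_, ?_⟩
    · intro v
      have := hC.sx v
      simpa using this
    · intro v
      have := hC.sy v
      simp only [St.setM_m, St.setM_r, show (SY : ℕ) ≠ CY by decide, if_false, if_true,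
        Function.update_apply]
      split_ifs
      · exact le_rfl
      · exact this
    · intro v hv
      exact hC.cx1 v (by simpa using hv)
    · intro v hv
      exact hC.cx0 v (by simpa using hv)
    · intro v hv
      simp only [St.setM_m, St.setM_r, show (SY : ℕ) ≠ CY by decide,
        show (CY : ℕ) ≠ SY by decide, if_false, if_true,
        Function.update_apply] at hv ⊢
      by_cases hvx : v = y
      · subst hvx
        rw [if_pos rfl]
        exact (hC.cy0 v h).symm
      · rw [if_neg hvx] at hv ⊢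
        exact hC.cy1 v hv
    · intro v hv
      simp only [St.setM_m, St.setM_r, show (SY : ℕ) ≠ CY by decide,
        show (CY : ℕ) ≠ SY by decide, if_false, if_true,
        Function.update_apply] at hv
      by_cases hvx : v = y
      · subst hvx
        rw [if_pos rfl] at hv
        exact absurd rfl hv
      · rw [if_neg hvx] at hv
        exact hC.cy0 v hv
    · simp [hx]
    · simp

theorem kB4_spec (hS : KS q nn nd bx by_ L s) (hR : KR j N x y (nd x) (nd y) s)
    (hC : KC nd L (nd x) (nd y) s) (hx : s.m SX x = s.r rrun) (hy : s.m SY y = s.r rrun) :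
    (gco q nd L (x, y) ∧ KS q nn nd bx by_ (L ++ [(x, y)]) (kB4.ex s) ∧
      KC nd (L ++ [(x, y)]) (nd x) (nd y) (kB4.ex s)) ∨
    (¬ gco q nd L (x, y) ∧ kB4.ex s = s) := by
  have e1 := hC.cx1 x hx
  have e2 := hC.cy1 y hy
  have e3 := hC.tot
  by_cases h : gco q nd L (x, y)
  · left
    refine ⟨h, ?_⟩
    obtain ⟨g0, g1, g2, g3⟩ := h
    simp only at g0 g1 g2 g3
    have hE : kB4.ex s = (((((s.setM KX (s.r rnK) x).setM KY (s.r rnK) y).setR rnK
        (s.r rnK + 1)).setM CX x (s.m CX x + 1)).setM CY y (s.m CY y + 1)).setR rtot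
        (s.r rtot + 1) := by
      rw [← e1] at g1
      rw [← e2] at g2
      rw [← e3] at g3
      simp [kB4, hR.x_, hR.y_, hR.a_, hR.e_, hS.hq, hS.hqq, g0, g1, g2, g3]
    have hap : ∀ (g : ℕ × ℕ → ℕ) (v : ℕ),
        ((kab nd (L ++ [(x, y)]) (nd x) (nd y)).filter (fun f => g f = v)).length =
        ((kab nd L (nd x) (nd y)).filter (fun f => g f = v)).length +
          if g (x, y) = v then 1 else 0 := by
      intro g v
      rw [kab_append, if_pos ⟨rfl, rfl⟩, List.filter_append, List.length_append]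
      congr 1
      by_cases h : g (x, y) = v <;> simp [h]
    rw [hE]
    refine ⟨⟨?_, ?_, ?_, ?_, ?_, ?_, ?_⟩, ⟨?_, ?_, ?_, ?_, ?_, ?_, ?_, ?_, ?_⟩⟩
    · simp [hS.node]
    · simp [hS.hbx]
    · simp [hS.hby]
    · simp [hS.hnn]
    · simp [hS.hq]
    · simp [hS.hqq]
    · rw [← hS.ker]
      simp only [kerL, St.setM_m, St.setM_r, St.setR_m, St.setR_r,
        show (rnK : ℕ) ≠ rtot by decide, show (KX : ℕ) ≠ CX by decide,
        show (KX : ℕ) ≠ CY by decide, show (KX : ℕ) ≠ KY by decide,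
        show (KY : ℕ) ≠ CX by decide, show (KY : ℕ) ≠ CY by decide,
        show (KY : ℕ) ≠ KX by decide, if_false, if_true, List.range_succ, List.map_append,
        List.map_cons, List.map_nil, Function.update_self]
      congr 1
      apply List.map_congr_left
      intro i hi
      rw [List.mem_range] at hi
      rw [Function.update_apply, Function.update_apply, if_neg (by omega), if_neg (by omega)]
    · simp [hC.pa]
    · simp [hC.pb]
    · simp [hC.tot, kab_append]
    · intro v; have := hC.sx v; simpa using this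
    · intro v; have := hC.sy v; simpa using this
    · intro v hv
      rw [hap Prod.fst v]
      have hv' : s.m SX v = s.r rrun := by simpa using hv
      have := hC.cx1 v hv'
      by_cases hvx : v = x
      · subst hvx
        simp [e1]
      · have hvx' : ¬ x = v := fun h => hvx h.symm
        simp [hvx, hvx', this]
    · intro v hv
      rw [hap Prod.fst v]
      have hv' : s.m SX v ≠ s.r rrun := by simpa using hv
      have := hC.cx0 v hv'
      have hvx' : ¬ x = v := by rintro rfl; exact hv' hx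
      rw [this, if_neg hvx']
    · intro v hv
      rw [hap Prod.snd v]
      have hv' : s.m SY v = s.r rrun := by simpa using hv
      have := hC.cy1 v hv'
      by_cases hvx : v = y
      · subst hvx
        simp [e2]
      · have hvx' : ¬ y = v := fun h => hvx h.symm
        simp [hvx, hvx', this]
    · intro v hv
      rw [hap Prod.snd v]
      have hv' : s.m SY v ≠ s.r rrun := by simpa using hv
      have := hC.cy0 v hv'
      have hvx' : ¬ y = v := by rintro rfl; exact hv' hy
      rw [this, if_neg hvx']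
  · right
    refine ⟨h, ?_⟩
    have hf : (Cond.all [.ne (V ra) (V re), .not (.lt (V rq) (A CX (V rx))),
          .not (.lt (V rq) (A CY (V ry))), .not (.lt (V rqq) (V rtot))]).ev s = false := by
      rw [Bool.eq_false_iff]
      intro hh
      apply h
      simp only [Cond.ev_all_cons, Cond.ev_all_one, Cond.ev_not, Cond.ev_eq, Cond.ev_lt,
        Exp.ev_reg, Exp.ev_get, hR.x_, hR.y_, hR.a_, hR.e_, hS.hq, hS.hqq, Bool.and_eq_true,
        Bool.not_eq_true', decide_eq_false_iff_not, not_lt] at hh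
      obtain ⟨h1, h2, h3, h4⟩ := hh
      rw [e1] at h2
      rw [e2] at h3
      rw [e3] at h4
      exact ⟨h1, h2, h3, h4⟩
    rw [kB4, Cmd.ex_ite, hf]
    simp

/-- the body of the loop -/
def kBody : Cmd := .blk [
      .set rx (A BX (V ri)), .set ry (A BY (V ri)),
      .set ra (A NODE (V rx)), .set re (A NODE (V ry)), kB1, kB2, kB3, kB4]

/-- the invariant of the loop -/
def KI (q nn N : ℕ) (nd bx by_ : ℕ → ℕ) (j : ℕ) (s : St) : Prop :=
  ∃ L, KS q nn nd bx by_ L s ∧ KG q nd bx by_ j L ∧ s.r rN = N ∧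
    ((j = 0 ∧ s.r rpa = nn ∧ (∀ v, s.m SX v ≤ s.r rrun) ∧ ∀ v, s.m SY v ≤ s.r rrun) ∨
      (0 < j ∧ KC nd L (nd (bx (j - 1))) (nd (by_ (j - 1))) s))

theorem kBody_spec {G : SimpleGraph ℕ}
    (hs : Sorted2 G N nd bx by_) (hnode : ∀ i < N, nd (bx i) < nn)
    (hj : j < N) (hI : KI q nn N nd bx by_ j s) (hi : s.r ri = j) :
    KI q nn N nd bx by_ (j + 1) (kBody.ex s) ∧ (kBody.ex s).r ri = j := by
  obtain ⟨L, hS, hG, hN, hC⟩ := hI
  set s1 : St := (Cmd.blk [
      .set rx (A BX (V ri)), .set ry (A BY (V ri)),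
      .set ra (A NODE (V rx)), .set re (A NODE (V ry))]).ex s with hs1
  have hex : kBody.ex s = kB4.ex (kB3.ex (kB2.ex (kB1.ex s1))) := rfl
  have hf1 := ex_fr (c := Cmd.blk [
      .set rx (A BX (V ri)), .set ry (A BY (V ri)),
      .set ra (A NODE (V rx)), .set re (A NODE (V ry))]) rfl s
  rw [← hs1] at hf1
  have hS1 : KS q nn nd bx by_ L s1 := hS.fr hf1 (by decide) (by decide)
  have hR1 : KR j N (bx j) (by_ j) (nd (bx j)) (nd (by_ j)) s1 := by
    refine ⟨?_, ?_, ?_, ?_, ?_, ?_⟩ <;>
      simp [hs1, hi, hN, hS.hbx, hS.hby, hS.node]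
  have hC1 : KC nd L (nd (bx j)) (nd (by_ j)) s1 ∨
      (¬ (s1.r rpa = nd (bx j) ∧ s1.r rpb = nd (by_ j)) ∧
        kab nd L (nd (bx j)) (nd (by_ j)) = [] ∧
      (∀ v, s1.m SX v ≤ s1.r rrun) ∧ ∀ v, s1.m SY v ≤ s1.r rrun) := by
    have r1 : s1.r rpa = s.r rpa := hf1.r rpa (by decide)
    have r2 : s1.r rpb = s.r rpb := hf1.r rpb (by decide)
    have r4 : s1.r rrun = s.r rrun := hf1.r rrun (by decide)
    have m1 : s1.m SX = s.m SX := hf1.m SX (by decide)
    have m2 : s1.m SY = s.m SY := hf1.m SY (by decide)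
    rcases hC with ⟨rfl, hpa, h1, h2⟩ | ⟨hj0, hC⟩
    · right
      refine ⟨?_, ?_, by rw [m1, r4]; exact h1, by rw [m2, r4]; exact h2⟩
      · rintro ⟨h, _⟩
        have := hnode 0 hj
        rw [r1, hpa] at h
        omega
      · rw [kab, List.filter_eq_nil_iff]
        intro e he
        have := hG.sub e he
        simp [arl] at this
    · by_cases hsame : nd (bx (j - 1)) = nd (bx j) ∧ nd (by_ (j - 1)) = nd (by_ j)
      · left
        rw [← hsame.1, ← hsame.2]
        exact hC.fr hf1 (by decide) (by decide)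
      · right
        refine ⟨?_, ?_, by rw [m1, r4]; exact hC.sx, by rw [m2, r4]; exact hC.sy⟩
        · rw [r1, r2, hC.pa, hC.pb]
          exact hsame
        · rw [kab, List.filter_eq_nil_iff]
          intro e he
          have := hG.sub e he
          simp only [arl, List.mem_map, List.mem_range] at this
          obtain ⟨i, hi', rfl⟩ := this
          have s1 := hs.sorted i (j - 1) (by omega) (by omega)
          have s2 := hs.sorted (j - 1) j (by omega) hj
          simp only [decide_eq_true_eq]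
          rintro ⟨q1, q2⟩
          apply hsame
          omega
  have hC2 := kB1_spec hR1 hC1
  have hf2 := ex_fr (c := kB1) rfl s1
  have hS2 : KS q nn nd bx by_ L (kB1.ex s1) := hS1.fr hf2 (by decide) (by decide)
  have hR2 : KR j N (bx j) (by_ j) (nd (bx j)) (nd (by_ j)) (kB1.ex s1) :=
    hR1.fr hf2 (by decide)
  set s2 := kB1.ex s1 with hs2
  obtain ⟨hC3, hx3⟩ := kB2_spec hR2 hC2
  have hf3 := ex_fr (c := kB2) rfl s2
  have hS3 : KS q nn nd bx by_ L (kB2.ex s2) := hS2.fr hf3 (by decide) (by decide)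
  have hR3 : KR j N (bx j) (by_ j) (nd (bx j)) (nd (by_ j)) (kB2.ex s2) :=
    hR2.fr hf3 (by decide)
  set s3 := kB2.ex s2 with hs3
  obtain ⟨hC4, hx4, hy4⟩ := kB3_spec hR3 hC3 hx3
  have hf4 := ex_fr (c := kB3) rfl s3
  have hS4 : KS q nn nd bx by_ L (kB3.ex s3) := hS3.fr hf4 (by decide) (by decide)
  have hR4 : KR j N (bx j) (by_ j) (nd (bx j)) (nd (by_ j)) (kB3.ex s3) :=
    hR3.fr hf4 (by decide)
  set s4 := kB3.ex s3 with hs4
  have hf5 := ex_fr (c := kB4) rfl s4
  have hR5 : KR j N (bx j) (by_ j) (nd (bx j)) (nd (by_ j)) (kB4.ex s4) :=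
    hR4.fr hf5 (by decide)
  rw [hex]
  refine ⟨?_, hR5.i_⟩
  rcases kB4_spec hS4 hR4 hC4 hx4 hy4 with ⟨h1, h2, h3⟩ | ⟨h1, h2⟩
  · exact ⟨_, h2, hG.yes h1, hR5.N_, Or.inr ⟨Nat.succ_pos _, by simpa using h3⟩⟩
  · rw [h2]
    exact ⟨L, hS4, hG.no h1, hR4.N_, Or.inr ⟨Nat.succ_pos _, by simpa using hC4⟩⟩

theorem pKer_eq : pKer = .blk [
    .set rnK (K 0), .set rrun (K 0), .set rtot (K 0), .set rpa (V rnn), .set rpb (V rnn),
    .for_ ri (K 0) rN kBody] := rfl

/-- number of the elements of a list by classes -/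
theorem length_le_classesK {nd : ℕ → ℕ} {nn C : ℕ} (L : List (ℕ × ℕ))
    (h : ∀ e ∈ L, nd e.1 < nn ∧ nd e.2 < nn) (hC : ∀ a b, (kab nd L a b).length ≤ C) :
    L.length ≤ nn * nn * C := by
  have key : ∀ L : List (ℕ × ℕ), (∀ e ∈ L, nd e.1 < nn ∧ nd e.2 < nn) →
      L.length = ∑ a ∈ range nn, ∑ b ∈ range nn, (kab nd L a b).length := by
    intro L
    induction L with
    | nil => simp [kab]
    | cons e L ih =>
      intro h
      have h1 := h e (by simp)
      have h2 := ih (fun f hf => h f (List.mem_cons_of_mem _ hf))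
      have h3 : ∀ a b, (kab nd (e :: L) a b).length = (kab nd L a b).length +
          if nd e.1 = a then (if nd e.2 = b then 1 else 0) else 0 := by
        intro a b
        simp only [kab, List.filter_cons]
        by_cases ha : nd e.1 = a <;> by_cases hb : nd e.2 = b <;> simp [ha, hb]
      simp only [h3, Finset.sum_add_distrib, ← h2, List.length_cons]
      congr 1
      have h4 : ∀ a ∈ range nn, (∑ b ∈ range nn,
          if nd e.1 = a then (if nd e.2 = b then 1 else 0) else 0) =
          if nd e.1 = a then 1 else 0 := by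
        intro a _
        by_cases ha : nd e.1 = a
        · simp [ha, h1.2]
        · simp [ha]
      rw [Finset.sum_congr rfl h4]
      simp [h1.1]
  rw [key L h]
  calc ∑ a ∈ range nn, ∑ b ∈ range nn, (kab nd L a b).length
      ≤ ∑ a ∈ range nn, ∑ b ∈ range nn, C :=
        Finset.sum_le_sum (fun a _ => Finset.sum_le_sum (fun b _ => hC a b))
    _ = nn * nn * C := by simp [mul_assoc]

end KerAux

open KerAux in
theorem pKer_spec {n m k : ℕ} {G : SimpleGraph ℕ} (hG : Inn n G) {s : St}
    (hN : s.r rN = 2 * m) (hs : Sorted2 G (2 * m) (s.m NODE) (s.m BX) (s.m BY))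
    (hnode : ∀ v < n, s.m NODE v < s.r rnn) (hq : s.r rq = 4 * k)
    (hqq : s.r rqq = 4 * k * (4 * k + 1)) (h0 : (∀ v, s.m SX v = 0) ∧ ∀ v, s.m SY v = 0) :
    Tri s pKer (1000 * (m + 1)) (fun s' => PrepK k G s') := by
  have hnx : ∀ i < 2 * m, s.m NODE (s.m BX i) < s.r rnn := fun i hi =>
    hnode _ (hG _ _ (hs.arcs.adj i hi))
  have hny : ∀ i < 2 * m, s.m NODE (s.m BY i) < s.r rnn := fun i hi =>
    hnode _ (hG _ _ (hs.arcs.adj i hi).symm)
  rw [pKer_eq]
  refine Tri.cons (B1 := 5) (B2 := 1000 * m + 995) ?_ (by omega)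
  refine (Tri.lf rfl ?_).cost (by decide)
  refine Tri.cons (B1 := 5) (B2 := 1000 * m + 990) ?_ (by omega)
  refine (Tri.lf rfl ?_).cost (by decide)
  refine Tri.cons (B1 := 5) (B2 := 1000 * m + 985) ?_ (by omega)
  refine (Tri.lf rfl ?_).cost (by decide)
  refine Tri.cons (B1 := 5) (B2 := 1000 * m + 980) ?_ (by omega)
  refine (Tri.lf rfl ?_).cost (by decide)
  refine Tri.cons (B1 := 5) (B2 := 1000 * m + 975) ?_ (by omega)
  refine (Tri.lf rfl ?_).cost (by decide)
  refine Tri.cons (B1 := 1000 * m + 10) (B2 := 5) ?_ (by omega)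
  refine (Tri.forC (I := fun j s' =>
      KI (4 * k) (s.r rnn) (2 * m) (s.m NODE) (s.m BX) (s.m BY) j s')
    (B := 400) (a := 0) (N := 2 * m) (by decide) ?_ ?_ (by omega) ?_ ?_ ?_).cost ?_
  · simp
  · simp [hN]
  · refine ⟨[], ⟨by simp, by simp, by simp, by simp, by simp [hq], by simp [hqq], ?_⟩,
      KG.zero _ _ _ _, by simp [hN], Or.inl ⟨rfl, by simp, ?_, ?_⟩⟩
    · simp [kerL]
    · intro v; simp [h0.1]
    · intro v; simp [h0.2]
  · intro j _ hj s1 hI hrj hrN
    refine (Tri.lf rfl ?_).cost (by decide)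
    obtain ⟨h1, h2⟩ := kBody_spec hs hnx hj hI hrj
    obtain ⟨L, hS, hG', hN', hC⟩ := h1
    have hf : Fr [ri] [] (kBody.ex s1) ((kBody.ex s1).setR ri (j + 1)) := by
      refine ⟨fun x hx => ?_, fun a _ => rfl⟩
      rw [List.mem_singleton] at hx
      simp [hx]
    refine ⟨⟨L, hS.fr hf (by decide) (by decide), hG', by simpa using hN', ?_⟩, h2, hN'⟩
    rcases hC with ⟨h, _⟩ | ⟨h, hC⟩
    · omega
    · exact Or.inr ⟨h, hC.fr hf (by decide) (by decide)⟩
  · intro s' hI _ _
    refine Tri.nil ?_ (by omega)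
    obtain ⟨L, hS, hG', hN', hC⟩ := hI
    have hmem : ∀ x y, (x, y) ∈ arl (s.m BX) (s.m BY) (2 * m) ↔ G.Adj x y := by
      intro x y
      simp only [arl, List.mem_map, List.mem_range, Prod.mk.injEq]
      constructor
      · rintro ⟨i, hi, rfl, rfl⟩
        exact hs.arcs.adj i hi
      · intro h
        obtain ⟨i, hi, h1, h2⟩ := hs.arcs.surj x y h
        exact ⟨i, hi, h1, h2⟩
    have hnd : (arl (s.m BX) (s.m BY) (2 * m)).Nodup := by
      refine List.Nodup.map_on ?_ List.nodup_range
      intro i hi j hj hij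
      rw [List.mem_range] at hi hj
      rw [Prod.mk.injEq] at hij
      exact hs.arcs.inj i hi j hj hij.1 hij.2
    refine ⟨⟨?_, ?_⟩, ?_⟩
    · intro e he
      rw [hS.ker] at he
      exact (hmem e.1 e.2).1 (hG'.sub e he)
    · intro a b hab Z hZ hcov x y hxy hx hy
      rw [hS.node] at hcov hx hy
      rw [hS.ker] at hcov
      have hmk : ∀ (K : List (ℕ × ℕ)) (e : ℕ × ℕ), e ∈ kab (s.m NODE) K a b ↔
          e ∈ K ∧ s.m NODE e.1 = a ∧ s.m NODE e.2 = b := by
        intro K e
        simp [kab]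
      have := greedy_cov (q := 4 * k) (l := kab (s.m NODE) (arl (s.m BX) (s.m BY) (2 * m)) a b)
        (kept := []) (by rw [List.nil_append, kab]; exact hnd.filter _) ?_ (by simp) hZ ?_ (x, y) ?_
      · exact this
      · intro e he f hf
        rw [List.nil_append] at he hf
        rw [hmk] at he hf
        intro h
        apply hab
        rw [← he.2.1, ← hf.2.2, h]
      · intro e he
        rw [← hG'.gr a b hab] at he
        rw [hmk] at he
        exact hcov e he.1 he.2.1 he.2.2
      · rw [List.nil_append, hmk]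
        exact ⟨(hmem x y).2 hxy, hx, hy⟩
    · have hlen : (kerL s').length = s'.r rnK := by simp [kerL]
      rw [← hlen, hS.ker, hS.hnn]
      refine length_le_classesK (nd := s.m NODE) L ?_ ?_
      · intro e he
        have := hG'.sub e he
        simp only [arl, List.mem_map, List.mem_range] at this
        obtain ⟨i, hi, rfl⟩ := this
        exact ⟨hnx i hi, hny i hi⟩
      · intro a b
        by_cases hab : a = b
        · subst hab
          rw [hG'.kab_self]
          simp
        · rw [hG'.gr a b hab]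
          exact greedy_len _ _ _ (by simp)
  · simp only [Exp.cost]; omega

end TL
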