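import Pool.Agent.W_3fea_h44.PAdj
import Pool.Agent.W_3fea_h44.Aux82

/-! # Specification of `pLists` -/

namespace TL

open Relation Finset Classical

/-- filtered list of neighbours -/
noncomputable def plF (n : ℕ) (G : SimpleGraph ℕ) (s : St) (v : ℕ) : List ℕ :=
  (adjL s v).filter (fun y => decide (s.r rdel ≤ dg n G y))

/-- offsets of the filtered lists -/
noncomputable def plO (n : ℕ) (G : SimpleGraph ℕ) (s : St) : ℕ → ℕ
  | 0 => 0
  | v + 1 => plO n G s v + (plF n G s v).length

theorem plO_mono (n : ℕ) (G : SimpleGraph ℕ) (s : St) {i j : ℕ} (h : i ≤ j) :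
    plO n G s i ≤ plO n G s j := by
  induction h with
  | refl => exact le_rfl
  | @step j _ ih => exact ih.trans (Nat.le_add_right _ _)

/-- invariant of the main loop -/
structure PlI (n : ℕ) (G : SimpleGraph ℕ) (s : St) (i : ℕ) (s' : St) : Prop where
  al : seg (s'.m AL) 0 (s'.r rnA) = (List.range i).filter (fun v => decide (s.r rdel ≤ dg n G v))
  gi : seg (s'.m GI) 0 (s'.r rng) = (List.range i).filter (fun v => decide (s.r rtau ≤ dg n G v))
  ofa : ∀ v < i, s'.m OFA v = plO n G s v
  rp_ : s'.r rp = plO n G s i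
  ada : ∀ v < i, seg (s'.m ADA) (plO n G s v) (plO n G s (v + 1)) = plF n G s v
  fr : Fr [rnA, rng, rp, ri, rhi, rj, ry] [AL, GI, OFA, ADA] s s'

/-- body of the main loop -/
def plBody : List Cmd := [
      .whn (.not (.lt (A DEG (V ri)) (V rdel))) (.blk [.put AL (V rnA) (V ri), .incr rnA]),
      .whn (.not (.lt (A DEG (V ri)) (V rtau))) (.blk [.put GI (V rng) (V ri), .incr rng]),
      .put OFA (V ri) (V rp),
      .set rhi (A OFF (.inc (V ri))),
      .for_ rj (A OFF (V ri)) rhi (.blk [
        .set ry (A ADJ (V rj)),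
        .whn (.not (.lt (A DEG (V ry)) (V rdel))) (.blk [.put ADA (V rp) (V ry), .incr rp])])]

theorem plBody_spec {n m : ℕ} {G : SimpleGraph ℕ} (hG : Inn n G) {s s1 : St} {i : ℕ}
    (ha : AdjP n m G (s.m OFF) (s.m ADJ)) (hd : ∀ v, s.m DEG v = dg n G v)
    (hI : PlI n G s i s1) (hi : i < n) (hr : s1.r ri = i) :
    Tri s1 (.blk plBody) (60 + dg n G i * 30) (fun s' =>
      PlI n G s (i + 1) (s'.setR ri (i + 1)) ∧ s'.r ri = i ∧ s'.r rn = s1.r rn) := by
  obtain ⟨i1, i2, i3, i4, i5, i6⟩ := hI
  have hdeg : s.m OFF (i + 1) - s.m OFF i = dg n G i := AdjP.length hG ha hi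
  have e1 : s1.m DEG = s.m DEG := i6.m DEG (by decide)
  have e2 : s1.r rdel = s.r rdel := i6.r rdel (by decide)
  have e3 : s1.r rtau = s.r rtau := i6.r rtau (by decide)
  have e4 : s1.m OFF = s.m OFF := i6.m OFF (by decide)
  have e5 : s1.m ADJ = s.m ADJ := i6.m ADJ (by decide)
  refine (Tri.pre 4 rfl (fun s2 hs2 hf2 => ?_)).cost
    (B := _ + (7 + dg n G i * (20 + 7) + 1)) ?_
  · -- the state after the first four statements
    have a1 : seg (s2.m AL) 0 (s2.r rnA) =
        (List.range (i + 1)).filter (fun v => decide (s.r rdel ≤ dg n G v)) := by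
      rw [List.range_succ, List.filter_append, ← i1]
      by_cases h1 : dg n G i < s.r rdel
      · have h1' : ¬ s.r rdel ≤ dg n G i := by omega
        by_cases h2 : dg n G i < s.r rtau <;>
        simp [hs2, plBody, hr, e1, e2, e3, hd, h1, h2, h1']
      · have h1' : s.r rdel ≤ dg n G i := by omega
        by_cases h2 : dg n G i < s.r rtau <;>
        simp [hs2, plBody, hr, e1, e2, e3, hd, h1, h2, h1', seg_push]
    have a2 : seg (s2.m GI) 0 (s2.r rng) =
        (List.range (i + 1)).filter (fun v => decide (s.r rtau ≤ dg n G v)) := by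
      rw [List.range_succ, List.filter_append, ← i2]
      by_cases h2 : dg n G i < s.r rtau
      · have h2' : ¬ s.r rtau ≤ dg n G i := by omega
        by_cases h1 : dg n G i < s.r rdel <;>
        simp [hs2, plBody, hr, e1, e2, e3, hd, h1, h2, h2']
      · have h2' : s.r rtau ≤ dg n G i := by omega
        by_cases h1 : dg n G i < s.r rdel <;>
        simp [hs2, plBody, hr, e1, e2, e3, hd, h1, h2, h2', seg_push]
    have a3 : s2.m OFA = Function.update (s1.m OFA) i (plO n G s i) := by
      by_cases h1 : dg n G i < s.r rdel <;> by_cases h2 : dg n G i < s.r rtau <;>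
      simp [hs2, plBody, hr, e1, e2, e3, hd, h1, h2, i4]
    have a4 : s2.r rhi = s.m OFF (i + 1) := by
      by_cases h1 : dg n G i < s.r rdel <;> by_cases h2 : dg n G i < s.r rtau <;>
      simp [hs2, plBody, hr, e1, e2, e3, hd, h1, h2, e4]
    have a5 : s2.r rp = plO n G s i := by rw [hf2.r rp (by decide), i4]
    have a6 : s2.r ri = i := by rw [hf2.r ri (by decide), hr]
    have a7 : s2.m ADA = s1.m ADA := hf2.m ADA (by decide)
    have hfr : Fr [rnA, rng, rp, ri, rhi, rj, ry] [AL, GI, OFA, ADA] s s2 :=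
      i6.trans (hf2.mono (by decide) (by decide))
    have b1 : s2.m DEG = s.m DEG := hfr.m DEG (by decide)
    have b2 : s2.r rdel = s.r rdel := hfr.r rdel (by decide)
    have b4 : s2.m OFF = s.m OFF := hfr.m OFF (by decide)
    have b5 : s2.m ADJ = s.m ADJ := hfr.m ADJ (by decide)
    refine Tri.cons (B1 := 7 + dg n G i * (20 + 7)) (B2 := 1)
      ((Tri.forC (fun j s' => s'.r rp = plO n G s i + ((seg (s.m ADJ) (s.m OFF i) j).filter
          (fun y => decide (s.r rdel ≤ dg n G y))).length ∧
        seg (s'.m ADA) (plO n G s i) (s'.r rp) = (seg (s.m ADJ) (s.m OFF i) j).filter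
          (fun y => decide (s.r rdel ≤ dg n G y)) ∧
        (∀ v < i, seg (s'.m ADA) (plO n G s v) (plO n G s (v + 1)) = plF n G s v) ∧
        Fr [rp, ry, rj] [ADA] s2 s') 20
        (a := s.m OFF i) (N := s.m OFF (i + 1)) (by decide) (by simp [a6, b4])
        a4 (ha.mono _ hi) ⟨?_, ?_, ?_, (Fr.refl s2).setR (by decide)⟩ ?_ ?_).cost ?_) le_rfl
    · simp [a5]
    · simp [a5]
    · intro v hv
      simp only [St.setR_m, a7]
      exact i5 v hv
    · rintro j hj1 hj2 s3 ⟨c1, c2, c3, c4⟩ hp hhi
      have d1 : s3.m ADJ = s.m ADJ := by rw [c4.m ADJ (by decide), b5]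
      have d2 : s3.m DEG = s.m DEG := by rw [c4.m DEG (by decide), b1]
      have d3 : s3.r rdel = s.r rdel := by rw [c4.r rdel (by decide), b2]
      have hge : plO n G s i ≤ s3.r rp := by omega
      by_cases hy : dg n G (s.m ADJ j) < s.r rdel
      · have hy' : ¬ s.r rdel ≤ dg n G (s.m ADJ j) := by omega
        refine Tri.lf' rfl ⟨⟨?_, ?_, ?_, ?_⟩, ?_, ?_⟩ ?_
        · simp [d1, d2, d3, hp, hd, hy, hy', c1, seg_succ _ hj1]
        · simp [d1, d2, d3, hp, hd, hy, hy', c2, seg_succ _ hj1]
        · intro v hv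
          simpa [d1, d2, d3, hp, hd, hy] using c3 v hv
        · exact (c4.ex rfl (by decide) (by decide)).setR (by decide)
        · simp [d1, d2, d3, hp, hd, hy]
        · simp [d1, d2, d3, hp, hd, hy, hhi]
        · decide
      · have hy' : s.r rdel ≤ dg n G (s.m ADJ j) := by omega
        refine Tri.lf' rfl ⟨⟨?_, ?_, ?_, ?_⟩, ?_, ?_⟩ ?_
        · simp [d1, d2, d3, hp, hd, hy, hy', c1, seg_succ _ hj1]
          omega
        · simp [d1, d2, d3, hp, hd, hy, hy', seg_push _ hge, c2, seg_succ _ hj1]
        · intro v hv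
          have hm := plO_mono n G s (show v + 1 ≤ i by omega)
          have := c3 v hv
          rw [← this]
          simp [d1, d2, d3, hp, hd, hy, seg_update (show s3.r rp < plO n G s v ∨
            plO n G s (v + 1) ≤ s3.r rp by omega)]
        · exact (c4.ex rfl (by decide) (by decide)).setR (by decide)
        · simp [d1, d2, d3, hp, hd, hy]
        · simp [d1, d2, d3, hp, hd, hy, hhi]
        · decide
    · rintro s3 ⟨c1, c2, c3, c4⟩ hp hhi
      refine Tri.nil ?_ le_rfl
      have hO : plO n G s (i + 1) = s3.r rp := by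
        rw [c1]
        rfl
      have g1 : s3.m AL = s2.m AL := c4.m AL (by decide)
      have g2 : s3.r rnA = s2.r rnA := c4.r rnA (by decide)
      have g3 : s3.m GI = s2.m GI := c4.m GI (by decide)
      have g4 : s3.r rng = s2.r rng := c4.r rng (by decide)
      have g5 : s3.m OFA = s2.m OFA := c4.m OFA (by decide)
      refine ⟨⟨?_, ?_, ?_, ?_, ?_, ?_⟩, ?_, ?_⟩
      · simpa [g1, g2] using a1
      · simpa [g3, g4] using a2
      · intro v hv
        simp only [St.setR_m, g5, a3]
        by_cases hvi : v = i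
        · subst hvi
          rw [Function.update_self]
        · rw [Function.update_of_ne hvi]
          exact i3 v (by omega)
      · simp [hO]
      · intro v hv
        simp only [St.setR_m]
        by_cases hvi : v = i
        · subst hvi
          rw [hO, c2]
          rfl
        · exact c3 v (by omega)
      · exact (hfr.trans (c4.mono (by decide) (by decide))).setR (by decide)
      · rw [c4.r ri (by decide), a6]
      · rw [c4.r rn (by decide), hf2.r rn (by decide)]
    · rw [hdeg]
      simp [Exp.cost]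
  · have : (Cmd.blk (plBody.take 4)).mc ≤ 50 := by decide
    omega

theorem pLists_spec {n m : ℕ} {G : SimpleGraph ℕ} (hG : Inn n G) {s : St} (hn : s.r rn = n)
    (ha : AdjP n m G (s.m OFF) (s.m ADJ)) (hd : ∀ v, s.m DEG v = dg n G v) :
    Tri s pLists (500 * (n + m + 1)) (fun s' =>
      alL s' = (List.range n).filter (fun v => s.r rdel ≤ dg n G v) ∧
      giL s' = (List.range n).filter (fun v => s.r rtau ≤ dg n G v) ∧
      (∀ v < n, s'.m OFA v ≤ s'.m OFA (v + 1)) ∧
      ∀ v < n, adA s' v = (adjL s v).filter (fun y => s.r rdel ≤ dg n G y)) := by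
  have hsum : ∑ j ∈ Finset.Ico 0 n, (60 + dg n G j * 30 + 7) = 67 * n + 60 * m := by
    rw [← Finset.range_eq_Ico]
    have h5 : ∀ j ∈ range n, 60 + dg n G j * 30 + 7 = 67 + 30 * dg n G j := fun j _ => by omega
    rw [Finset.sum_congr rfl h5, Finset.sum_add_distrib, ← Finset.mul_sum, Finset.sum_const,
      card_range, smul_eq_mul, AdjP.sum hG ha]
    omega
  unfold pLists
  refine (Tri.pre 3 rfl (fun s1 hs1 hf1 => ?_)).cost
    (B := _ + (6 + (67 * n + 60 * m) + 4)) ?_
  · refine Tri.cons (B1 := 6 + (67 * n + 60 * m)) (B2 := 4) ?_ le_rfl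
    have hfr1 : Fr [rnA, rng, rp, ri, rhi, rj, ry] [AL, GI, OFA, ADA] s s1 :=
      hf1.mono (by decide) (by decide)
    refine (Tri.forI (PlI n G s) (fun j => 60 + dg n G j * 30) (a := 0) (N := n) (by decide)
      (by simp) (by simp [hs1, hn]) (Nat.zero_le _) ?_ ?_ ?_).cost
      (by rw [hsum]; simp [Exp.cost])
    · refine ⟨?_, ?_, ?_, ?_, ?_, hfr1.setR (by decide)⟩
      · simp [hs1]
      · simp [hs1]
      · intro v hv
        omega
      · simp [hs1, plO]
      · intro v hv
        omega
    · intro j _ hj s2 hI hr hh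
      refine (plBody_spec hG ha hd hI hj hr).imp ?_
      rintro s3 ⟨h1, h2, h3⟩
      exact ⟨h1, h2, by rw [h3, hh]⟩
    · intro s2 hI _ hh
      refine (Tri.lf rfl ?_).cost (by decide)
      obtain ⟨i1, i2, i3, i4, i5, i6⟩ := hI
      have hofa : ∀ v ≤ n, ((Cmd.blk [.put OFA (V rn) (V rp)]).ex s2).m OFA v = plO n G s v := by
        intro v hv
        by_cases hvn : v = n
        · subst hvn
          simp [hh, i4]
        · have := i3 v (by omega)
          simp [hh, hvn, this]
      have hada : ((Cmd.blk [.put OFA (V rn) (V rp)]).ex s2).m ADA = s2.m ADA := by simp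
      refine ⟨?_, ?_, ?_, ?_⟩
      · have : alL ((Cmd.blk [.put OFA (V rn) (V rp)]).ex s2) = seg (s2.m AL) 0 (s2.r rnA) := by
          simp [alL]
        rw [this, i1]
      · have : giL ((Cmd.blk [.put OFA (V rn) (V rp)]).ex s2) = seg (s2.m GI) 0 (s2.r rng) := by
          simp [giL]
        rw [this, i2]
      · intro v hv
        have e1 := hofa v hv.le
        have e2 := hofa (v + 1) hv
        have e3 := plO_mono n G s (show v ≤ v + 1 by omega)
        rw [e1, e2]
        exact e3
      · intro v hv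
        have e1 := hofa v hv.le
        have e2 := hofa (v + 1) hv
        have e3 := i5 v hv
        unfold adA
        rw [hada, e1, e2]
        exact e3
  · have : (Cmd.blk ([Cmd.set rnA (K 0), .set rng (K 0), .set rp (K 0)])).mc ≤ 10 := by decide
    have h2 : ∀ x, x ≤ 10 → x + (6 + (67 * n + 60 * m) + 4) ≤ 500 * (n + m + 1) := by
      intro x hx
      omega
    exact h2 _ this

end TL
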