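import Pool.Agent.W_3fea_h44.PBound

/-! # State after the preprocessing -/

namespace TL

open Relation Finset Classical

/-- registers and arrays used in the search which are `0` before it -/
structure Zer (s : St) : Prop where
  ins : ∀ v, s.m INS v = 0
  mu : ∀ v, s.m MU v = 0
  mm : ∀ v, s.m MM v = 0
  cn : ∀ v, s.m CN v = 0
  fl : ∀ v, s.m FL v = 0
  cm : ∀ v, s.m CM v = 0
  mp : ∀ v, s.m MP v = 0
  ans : s.r rans = 0

end TL
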