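import Pool.Agent.W_3fea_h44.Repr

/-! # Specification of `pRefine` -/

namespace TL

open Relation Finset Classical

/-! ### the pure part -/

/-- the fixed data: number `g` of giants, list `gi` of the giants, number `nE` of elements, the
exceptional element `n`, first classes `ini`, and the relation giant touches element -/
private structure RD where
  g : ℕ
  gi : ℕ → ℕ
  n : ℕ
  nE : ℕ
  ini : ℕ → ℕ
  tch : ℕ → ℕ → Prop

/-- what holds for the class tree, `P x e` = the label `x` is in the code of the element `e` -/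
private structure Tree (R : RD) (P : ℕ → ℕ → Prop) (cs : ℕ → Finset ℕ) (rf : ℕ → ℕ)
    (node par lab : ℕ → ℕ) (nn : ℕ) : Prop where
  root : ∀ q < nn, lab q = 0 → cs q = ∅ ∧ rf q = q
  chain : ∀ q < nn, lab q ≠ 0 →
    par q < q ∧ cs q = insert (lab q - 1) (cs (par q)) ∧ rf q = rf (par q)
  ndl : ∀ e ≤ R.nE, node e < nn
  code : ∀ e ≤ R.nE, e ≠ R.n → ∀ x, x ∈ cs (node e) ↔ P x e
  rt : ∀ e ≤ R.nE, rf (node e) = R.ini e

/-- the invariant of phase `i` (the giant is `h`); `T` is the set of treated elements, `N0` is the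
number of nodes at the start of the phase -/
private structure MI (R : RD) (i h : ℕ) (T : ℕ → Prop) (N0 : ℕ) (cs : ℕ → Finset ℕ) (rf : ℕ → ℕ)
    (node par lab stp ch : ℕ → ℕ) (nn : ℕ) : Prop where
  tr : Tree R (fun x e => (x = h ∧ T e) ∨ ∃ j < i, R.gi j = x ∧ R.tch x e) cs rf node par lab nn
  le : N0 ≤ nn
  cnt : nn = N0 + #((range N0).filter (fun p => stp p = h + 1))
  new : ∀ q, N0 ≤ q → q < nn → lab q = h + 1
  labs : ∀ q < nn, lab q = 0 ∨ lab q = h + 1 ∨ ∃ j < i, lab q = R.gi j + 1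
  stps : ∀ q < nn, stp q = 0 ∨ stp q = h + 1 ∨ ∃ j < i, stp q = R.gi j + 1
  stp0 : ∀ q, nn ≤ q → stp q = 0
  chs : ∀ p < nn, stp p = h + 1 → ch p < nn ∧ lab (ch p) = h + 1 ∧ par (ch p) = p
  top : ∀ q < nn, h ∈ cs q → lab q = h + 1

private lemma MI.skip {R : RD} {i h : ℕ} {T : ℕ → Prop} {N0 : ℕ} {cs : ℕ → Finset ℕ} {rf : ℕ → ℕ}
    {node par lab stp ch : ℕ → ℕ} {nn : ℕ} (H : MI R i h T N0 cs rf node par lab stp ch nn)
    (hh : ∀ j < i, R.gi j ≠ h) {e : ℕ} (he : e ≤ R.nE) (hl : lab (node e) = h + 1) :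
    MI R i h (fun e' => T e' ∨ e' = e) N0 cs rf node par lab stp ch nn := by
  refine { H with tr := { H.tr with code := ?_ } }
  intro e' he' hn x
  rw [H.tr.code e' he' hn x]
  constructor
  · rintro (⟨h1, h2⟩ | h1)
    · exact Or.inl ⟨h1, Or.inl h2⟩
    · exact Or.inr h1
  · rintro (⟨h1, h2 | h2⟩ | h1)
    · exact Or.inl ⟨h1, h2⟩
    · subst h2
      have h3 := (H.tr.chain _ (H.tr.ndl e' he') (by omega)).2.1
      have h4 : h ∈ cs (node e') := by
        rw [h3, hl]
        exact mem_insert_self _ _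
      rw [H.tr.code e' he' hn h] at h4
      rcases h4 with h4 | ⟨j, hj, h5, _⟩
      · exact Or.inl ⟨h1, h4.2⟩
      · exact absurd h5 (hh j hj)
    · exact Or.inr h1

private lemma MI.move {R : RD} {i h : ℕ} {T : ℕ → Prop} {N0 : ℕ} {cs : ℕ → Finset ℕ} {rf : ℕ → ℕ}
    {node par lab stp ch : ℕ → ℕ} {nn : ℕ} (H : MI R i h T N0 cs rf node par lab stp ch nn)
    {e : ℕ} (he : e ≤ R.nE) (hs : stp (node e) = h + 1) :
    MI R i h (fun e' => T e' ∨ e' = e) N0 cs rf (Function.update node e (ch (node e)))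
      par lab stp ch nn := by
  have hp := H.tr.ndl e he
  obtain ⟨c1, c2, c3⟩ := H.chs _ hp hs
  obtain ⟨d1, d2, d3⟩ := H.tr.chain _ c1 (by omega)
  rw [c2, c3] at d2
  rw [c3] at d3
  refine { H with tr := { H.tr with ndl := ?_, code := ?_, rt := ?_ } }
  · intro e' he'
    rw [Function.update_apply]
    split_ifs
    · exact c1
    · exact H.tr.ndl e' he'
  · intro e' he' hn x
    rw [Function.update_apply]
    split_ifs with h1
    · subst h1
      rw [d2, mem_insert, H.tr.code e' he' hn x, Nat.add_sub_cancel]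
      constructor
      · rintro (h2 | ⟨h2, h3⟩ | h2)
        · exact Or.inl ⟨h2, Or.inr rfl⟩
        · exact Or.inl ⟨h2, Or.inl h3⟩
        · exact Or.inr h2
      · rintro (⟨h2, _⟩ | h2)
        · exact Or.inl h2
        · exact Or.inr (Or.inr h2)
    · rw [H.tr.code e' he' hn x]
      constructor
      · rintro (⟨h2, h3⟩ | h2)
        · exact Or.inl ⟨h2, Or.inl h3⟩
        · exact Or.inr h2
      · rintro (⟨h2, h3 | h3⟩ | h2)
        · exact Or.inl ⟨h2, h3⟩
        · exact absurd h3 h1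
        · exact Or.inr h2
  · intro e' he'
    rw [Function.update_apply]
    split_ifs with h1
    · subst h1
      rw [d3]
      exact H.tr.rt e' he'
    · exact H.tr.rt e' he'

/-- a new node -/
private lemma MI.split {R : RD} {i h : ℕ} {T : ℕ → Prop} {N0 : ℕ} {cs : ℕ → Finset ℕ} {rf : ℕ → ℕ}
    {node par lab stp ch : ℕ → ℕ} {nn : ℕ} (H : MI R i h T N0 cs rf node par lab stp ch nn)
    {p : ℕ} (hp : p < nn) (hl : lab p ≠ h + 1) (hs : stp p ≠ h + 1) :
    MI R i h T N0 (Function.update cs nn (insert h (cs p))) (Function.update rf nn (rf p))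
      node (Function.update par nn p) (Function.update lab nn (h + 1))
      (Function.update stp p (h + 1)) (Function.update ch p nn) (nn + 1) := by
  have u1 : ∀ {α : Type} (f : ℕ → α) (a : α) {q : ℕ}, q < nn → Function.update f nn a q = f q := by
    intro α f a q hq
    rw [Function.update_apply, if_neg (by omega)]
  have u2 : ∀ {α : Type} (f : ℕ → α) (a : α), Function.update f nn a nn = a := by
    intro α f a
    rw [Function.update_apply, if_pos rfl]
  have hpN : p < N0 := by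
    by_contra hc
    exact hl (H.new p (by omega) hp)
  have hle := H.le
  refine ⟨⟨?_, ?_, ?_, ?_, ?_⟩, ?_, ?_, ?_, ?_, ?_, ?_, ?_, ?_⟩
  · intro q hq
    rcases Nat.lt_or_ge q nn with h1 | h1
    · rw [u1 _ _ h1, u1 _ _ h1, u1 _ _ h1]
      exact H.tr.root q h1
    · obtain rfl : q = nn := by omega
      rw [u2]
      intro h2
      omega
  · intro q hq
    rcases Nat.lt_or_ge q nn with h1 | h1
    · rw [u1 _ _ h1, u1 _ _ h1, u1 _ _ h1, u1 _ _ h1]
      intro h2
      have h3 := H.tr.chain q h1 h2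
      rw [u1 _ _ (by omega), u1 _ _ (by omega)]
      exact h3
    · obtain rfl : q = nn := by omega
      intro _
      rw [u2, u2, u2, u2, u1 _ _ hp, u1 _ _ hp]
      exact ⟨hp, rfl, rfl⟩
  · intro e he
    have := H.tr.ndl e he
    omega
  · intro e he hn x
    rw [u1 _ _ (H.tr.ndl e he)]
    exact H.tr.code e he hn x
  · intro e he
    rw [u1 _ _ (H.tr.ndl e he)]
    exact H.tr.rt e he
  · omega
  · have : (range N0).filter (fun q => Function.update stp p (h + 1) q = h + 1) =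
        insert p ((range N0).filter (fun q => stp q = h + 1)) := by
      ext q
      simp only [mem_filter, mem_range, mem_insert, Function.update_apply]
      by_cases hq : q = p
      · simp [hq, hpN]
      · simp [hq]
    rw [this, card_insert_of_notMem (by simp [hs])]
    have := H.cnt
    omega
  · intro q h1 h2
    rcases Nat.lt_or_ge q nn with h3 | h3
    · rw [u1 _ _ h3]
      exact H.new q h1 h3
    · obtain rfl : q = nn := by omega
      exact u2 _ _
  · intro q hq
    rcases Nat.lt_or_ge q nn with h3 | h3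
    · rw [u1 _ _ h3]
      exact H.labs q h3
    · obtain rfl : q = nn := by omega
      rw [u2]
      exact Or.inr (Or.inl rfl)
  · intro q hq
    rw [Function.update_apply]
    split_ifs with h4
    · exact Or.inr (Or.inl rfl)
    · rcases Nat.lt_or_ge q nn with h3 | h3
      · exact H.stps q h3
      · exact Or.inl (H.stp0 q h3)
  · intro q hq
    rw [Function.update_apply, if_neg (by omega)]
    exact H.stp0 q (by omega)
  · intro q hq h3
    by_cases hqp : q = p
    · subst hqp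
      rw [Function.update_apply (f := ch), if_pos rfl, u2, u2]
      exact ⟨by omega, rfl, rfl⟩
    · rw [Function.update_apply, if_neg hqp] at h3
      rw [Function.update_apply (f := ch), if_neg hqp]
      rcases Nat.lt_or_ge q nn with h4 | h4
      · obtain ⟨c1, c2, c3⟩ := H.chs q h4 h3
        rw [u1 _ _ c1, u1 _ _ c1]
        exact ⟨by omega, c2, c3⟩
      · rw [H.stp0 q h4] at h3
        omega
  · intro q hq
    rcases Nat.lt_or_ge q nn with h3 | h3
    · rw [u1 _ _ h3, u1 _ _ h3]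
      exact H.top q h3
    · obtain rfl : q = nn := by omega
      intro _
      exact u2 _ _

/-- chains and codes -/
private lemma inCh_iff {R : RD} {P : ℕ → ℕ → Prop} {cs : ℕ → Finset ℕ} {rf : ℕ → ℕ}
    {node par lab : ℕ → ℕ} {nn : ℕ} (H : Tree R P cs rf node par lab nn) (h : ℕ) :
    ∀ q < nn, (InCh par lab h q ↔ h ∈ cs q) := by
  intro q
  induction q using Nat.strong_induction_on with
  | _ q ih =>
    intro hq
    by_cases h0 : lab q = 0
    · rw [(H.root q hq h0).1]
      constructor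
      · intro hc
        cases hc with
        | here _ h1 => omega
        | up _ h1 _ => exact absurd h0 h1
      · intro hc
        exact absurd hc (notMem_empty _)
    · obtain ⟨h1, h2, _⟩ := H.chain q hq h0
      rw [h2, mem_insert, ← ih _ h1 (by omega)]
      constructor
      · intro hc
        cases hc with
        | here _ h3 => exact Or.inl (by omega)
        | up _ _ h3 => exact Or.inr h3
      · rintro (h3 | h3)
        · exact InCh.here _ (by omega)
        · exact InCh.up _ h0 h3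

/-- the invariant between the phases -/
private structure OI (R : RD) (i : ℕ) (cs : ℕ → Finset ℕ) (rf : ℕ → ℕ)
    (node par lab stp : ℕ → ℕ) (nn : ℕ) : Prop where
  tr : Tree R (fun x e => ∃ j < i, R.gi j = x ∧ R.tch x e) cs rf node par lab nn
  labs : ∀ q < nn, lab q = 0 ∨ ∃ j < i, lab q = R.gi j + 1
  stps : ∀ q < nn, stp q = 0 ∨ ∃ j < i, stp q = R.gi j + 1
  stp0 : ∀ q, nn ≤ q → stp q = 0
  bd : nn ≤ (R.g + 1) * 2 ^ i
  pos : 1 ≤ nn

private lemma OI.csl {R : RD} {i : ℕ} {cs : ℕ → Finset ℕ} {rf : ℕ → ℕ}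
    {node par lab stp : ℕ → ℕ} {nn : ℕ} (H : OI R i cs rf node par lab stp nn) :
    ∀ q < nn, ∀ x ∈ cs q, ∃ j < i, x = R.gi j := by
  intro q
  induction q using Nat.strong_induction_on with
  | _ q ih =>
    intro hq x hx
    rcases H.labs q hq with h0 | ⟨j, hj, h0⟩
    · rw [(H.tr.root q hq h0).1] at hx
      exact absurd hx (notMem_empty _)
    · obtain ⟨h1, h2, _⟩ := H.tr.chain q hq (by omega)
      rw [h2, mem_insert] at hx
      rcases hx with hx | hx
      · exact ⟨j, hj, by omega⟩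
      · exact ih _ h1 (by omega) x hx

private lemma OI.start {R : RD} {i : ℕ} {cs : ℕ → Finset ℕ} {rf : ℕ → ℕ}
    {node par lab stp : ℕ → ℕ} {nn : ℕ} (H : OI R i cs rf node par lab stp nn)
    (hinj : ∀ j < i, R.gi j ≠ R.gi i) (ch : ℕ → ℕ) :
    MI R i (R.gi i) (fun _ => False) nn cs rf node par lab stp ch nn := by
  have hst : ∀ q < nn, stp q ≠ R.gi i + 1 := by
    intro q hq h1
    rcases H.stps q hq with h2 | ⟨j, hj, h2⟩
    · omega
    · exact hinj j hj (by omega)
  refine ⟨{ H.tr with code := ?_ }, le_rfl, ?_, ?_, ?_, ?_, H.stp0, ?_, ?_⟩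
  · intro e he hn x
    rw [H.tr.code e he hn x]
    exact ⟨fun h => Or.inr h, fun h => h.resolve_left fun h' => h'.2⟩
  · have : (range nn).filter (fun p => stp p = R.gi i + 1) = ∅ :=
      filter_eq_empty_iff.2 fun q hq => hst q (mem_range.1 hq)
    rw [this]
    rfl
  · intro q h1 h2
    omega
  · intro q hq
    rcases H.labs q hq with h | h
    · exact Or.inl h
    · exact Or.inr (Or.inr h)
  · intro q hq
    rcases H.stps q hq with h | h
    · exact Or.inl h
    · exact Or.inr (Or.inr h)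
  · intro q hq h
    exact absurd h (hst q hq)
  · intro q hq h
    obtain ⟨j, hj, h1⟩ := H.csl q hq _ h
    exact absurd h1.symm (hinj j hj)

private lemma MI.finish {R : RD} {i : ℕ} {T : ℕ → Prop} {N0 : ℕ} {cs : ℕ → Finset ℕ} {rf : ℕ → ℕ}
    {node par lab stp ch : ℕ → ℕ} {nn : ℕ} (H : MI R i (R.gi i) T N0 cs rf node par lab stp ch nn)
    (hT : ∀ e ≤ R.nE, e ≠ R.n → (T e ↔ R.tch (R.gi i) e)) (hN : N0 ≤ (R.g + 1) * 2 ^ i)
    (hpos : 1 ≤ N0) :
    OI R (i + 1) cs rf node par lab stp nn := by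
  refine ⟨{ H.tr with code := ?_ }, ?_, ?_, H.stp0, ?_, ?_⟩
  · intro e he hn x
    rw [H.tr.code e he hn x, hT e he hn]
    constructor
    · rintro (⟨h1, h2⟩ | ⟨j, hj, h1⟩)
      · exact ⟨i, by omega, h1.symm, by rw [h1]; exact h2⟩
      · exact ⟨j, by omega, h1⟩
    · rintro ⟨j, hj, h1, h2⟩
      rcases Nat.lt_or_ge j i with h3 | h3
      · exact Or.inr ⟨j, h3, h1, h2⟩
      · obtain rfl : j = i := by omega
        exact Or.inl ⟨h1.symm, by rw [h1]; exact h2⟩
  · intro q hq
    rcases H.labs q hq with h | h | ⟨j, hj, h⟩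
    · exact Or.inl h
    · exact Or.inr ⟨i, by omega, h⟩
    · exact Or.inr ⟨j, by omega, h⟩
  · intro q hq
    rcases H.stps q hq with h | h | ⟨j, hj, h⟩
    · exact Or.inl h
    · exact Or.inr ⟨i, by omega, h⟩
    · exact Or.inr ⟨j, by omega, h⟩
  · have h1 := H.cnt
    have h2 : #((range N0).filter (fun p => stp p = R.gi i + 1)) ≤ N0 := by
      calc _ ≤ #(range N0) := card_filter_le _ _
        _ = N0 := card_range _
    rw [pow_succ, ← mul_assoc]
    omega
  · have := H.le
    omega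

/-! ### the machine part -/

/-- the part of the state which does not change -/
private structure Pf (s s' : St) : Prop where
  off : s'.m OFF = s.m OFF
  adj : s'.m ADJ = s.m ADJ
  ce : s'.m CE = s.m CE
  gi : s'.m GI = s.m GI
  ng : s'.r rng = s.r rng
  nE : s'.r rnE = s.r rnE
  tau : s'.r rtau = s.r rtau

/-- the invariant as a statement about the state -/
private def MS (R : RD) (i h : ℕ) (T : ℕ → Prop) (N0 : ℕ) (s : St) : Prop :=
  ∃ cs rf, MI R i h T N0 cs rf (s.m NODE) (s.m PAR) (s.m LAB) (s.m STP) (s.m CH) (s.r rnn)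

private lemma MS.congrT {R : RD} {i h : ℕ} {T T' : ℕ → Prop} {N0 : ℕ} {s : St}
    (H : MS R i h T N0 s) (hT : ∀ e, T e ↔ T' e) : MS R i h T' N0 s := by
  have : T = T' := funext fun e => propext (hT e)
  rwa [← this]

private lemma pStep_spec {R : RD} {i h : ℕ} {T : ℕ → Prop} {N0 : ℕ} {s s1 : St}
    (H : MS R i h T N0 s1) (hP : Pf s s1) (hh : ∀ j < i, R.gi j ≠ h) (he : s1.r re ≤ R.nE)
    (hv : s1.r rv = h) :
    Tri s1 pStep 41 (fun s2 => MS R i h (fun e' => T e' ∨ e' = s1.r re) N0 s2 ∧ Pf s s2 ∧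
      s2.r rv = h ∧ s2.r ri = s1.r ri ∧ s2.r rj = s1.r rj ∧ s2.r rhi = s1.r rhi) := by
  obtain ⟨cs, rf, H⟩ := H
  refine (Tri.lf (Q := fun s2 => MS R i h (fun e' => T e' ∨ e' = s1.r re) N0 s2 ∧ Pf s s2 ∧
      s2.r rv = h ∧ s2.r ri = s1.r ri ∧ s2.r rj = s1.r rj ∧ s2.r rhi = s1.r rhi)
      (by rfl) ?_).cost (by decide)
  have hPf : Pf s (pStep.ex s1) := by
    obtain ⟨a1, a2, a3, a4, a5, a6, a7⟩ := hP
    constructor <;> (unfold pStep; simp only [Cmd.ex_cons, Cmd.ex_nil, Cmd.ex_ite, Cmd.ex_set,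
      Cmd.ex_put, Cmd.ex_skip]; split_ifs <;> simp [*])
  refine ⟨?_, hPf, ?_, ?_, ?_, ?_⟩
  · by_cases hl : s1.m LAB (s1.m NODE (s1.r re)) = h + 1
    · have := H.skip hh he hl
      refine ⟨cs, rf, ?_⟩
      simpa [pStep, hl, hv] using this
    · by_cases hs : s1.m STP (s1.m NODE (s1.r re)) = h + 1
      · have := H.move he hs
        refine ⟨cs, rf, ?_⟩
        simpa [pStep, hl, hs, hv] using this
      · have h1 := H.split (H.tr.ndl _ he) hl hs
        have h2 := h1.move he (by rw [Function.update_apply, if_pos rfl])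
        rw [Function.update_apply (f := s1.m CH), if_pos rfl] at h2
        refine ⟨Function.update cs (s1.r rnn) (insert h (cs (s1.m NODE (s1.r re)))),
          Function.update rf (s1.r rnn) (rf (s1.m NODE (s1.r re))), ?_⟩
        simpa [pStep, hl, hs, hv] using h2
  all_goals
    unfold pStep
    simp only [Cmd.ex_cons, Cmd.ex_nil, Cmd.ex_ite, Cmd.ex_set, Cmd.ex_put, Cmd.ex_skip]
    split_ifs <;> simp [hv]

private lemma MS.setR {R : RD} {i h : ℕ} {T : ℕ → Prop} {N0 : ℕ} {s : St} {x v : ℕ}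
    (H : MS R i h T N0 s) (hx : rnn ≠ x) : MS R i h T N0 (s.setR x v) := by
  obtain ⟨cs, rf, H⟩ := H
  refine ⟨cs, rf, ?_⟩
  rw [St.setR_r, if_neg hx]
  exact H

private lemma Pf.setR {s s' : St} {x v : ℕ} (H : Pf s s') (h1 : rng ≠ x) (h2 : rnE ≠ x)
    (h3 : rtau ≠ x) : Pf s (s'.setR x v) := by
  refine ⟨H.off, H.adj, H.ce, H.gi, ?_, ?_, ?_⟩
  · rw [St.setR_r, if_neg h1]; exact H.ng
  · rw [St.setR_r, if_neg h2]; exact H.nE
  · rw [St.setR_r, if_neg h3]; exact H.tau

private lemma pInner {R : RD} {i h i0 a0 a1 : ℕ} {N0 : ℕ} {s s0 : St}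
    (H : MS R i h (fun _ => False) N0 s0) (hP : Pf s s0) (hh : ∀ j < i, R.gi j ≠ h)
    (hv : s0.r rv = h) (hi : s0.r ri = i0) (ha : s.m OFF h = a0) (hb : s0.r rhi = a1)
    (hab : a0 ≤ a1)
    (he1 : ∀ b, a0 ≤ b → b < a1 → s.m ADJ b ≤ R.nE)
    (he2 : ∀ b, a0 ≤ b → b < a1 → s.m CE (s.m ADJ b) ≤ R.nE) :
    Tri s0 (.for_ rj (A OFF (V rv)) rhi (.blk [
        .set re (A ADJ (V rj)), pStep,
        .set re (A CE (A ADJ (V rj))), pStep])) (7 + 97 * (a1 - a0)) (fun s2 =>
      MS R i h (fun e => ∃ b, a0 ≤ b ∧ b < a1 ∧ (e = s.m ADJ b ∨ e = s.m CE (s.m ADJ b))) N0 s2 ∧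
      Pf s s2 ∧ s2.r rv = h ∧ s2.r ri = i0) := by
  refine (Tri.for_ (a := a0) (N := a1) (I := fun a s' =>
      MS R i h (fun e => ∃ b, a0 ≤ b ∧ b < a ∧ (e = s.m ADJ b ∨ e = s.m CE (s.m ADJ b))) N0 s' ∧
      Pf s s' ∧ s'.r rv = h ∧ s'.r ri = i0) (B := fun _ => 90) ?_ hb hab (by decide) ?_ ?_ ?_
      ?_).cost ?_
  · rw [Exp.ev_get, Exp.ev_reg, hv, hP.off, ha]
  · rintro j s' v ⟨h1, h2, h3, h4⟩
    exact ⟨h1.setR (by decide), h2.setR (by decide) (by decide) (by decide),
      by simpa using h3, by simpa using h4⟩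
  · refine ⟨H.congrT fun e => ?_, hP, hv, hi⟩
    constructor
    · exact fun h => h.elim
    · rintro ⟨b, h1, h2, _⟩
      omega
  · rintro j hj1 hj2 s1 ⟨h1, h2, h3, h4⟩ h5 h6
    have e1 : (A ADJ (V rj)).ev s1 = s.m ADJ j := by
      rw [Exp.ev_get, Exp.ev_reg, h5, h2.adj]
    refine Tri.cons (B1 := 3) (B2 := 87) ?_ (by omega)
    refine Tri.set ?_ (by decide)
    refine Tri.cons (B1 := 41) (B2 := 46) ?_ (by omega)
    refine (pStep_spec (s := s) (h1.setR (by decide)) (h2.setR (by decide) (by decide) (by decide))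
      hh (by simpa [h5, h2.adj] using he1 j hj1 hj2) (by simpa using h3)).imp ?_
    rintro s2 ⟨k1, k2, k3, k4, k5, k6⟩
    have e2 : s2.r rj = j := by rw [k5]; simpa using h5
    have e3 : (A CE (A ADJ (V rj))).ev s2 = s.m CE (s.m ADJ j) := by
      rw [Exp.ev_get, Exp.ev_get, Exp.ev_reg, e2, k2.adj, k2.ce]
    refine Tri.cons (B1 := 4) (B2 := 42) ?_ (by omega)
    refine Tri.set ?_ (by decide)
    refine Tri.cons (B1 := 41) (B2 := 1) ?_ (by omega)
    refine (pStep_spec (s := s) (k1.setR (by decide)) (k2.setR (by decide) (by decide) (by decide))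
      hh (by simpa [e2, k2.adj, k2.ce] using he2 j hj1 hj2) (by simpa using k3)).imp ?_
    rintro s3 ⟨l1, l2, l3, l4, l5, l6⟩
    refine Tri.nil ⟨⟨l1.congrT fun e => ?_, l2, l3, ?_⟩, ?_, ?_⟩ le_rfl
    · rw [e1, e3]
      simp only [St.setR_r, if_true]
      constructor
      · rintro ((⟨b, b1, b2, b3⟩ | b3) | b3)
        · exact ⟨b, b1, by omega, b3⟩
        · exact ⟨j, hj1, by omega, Or.inl b3⟩
        · exact ⟨j, hj1, by omega, Or.inr b3⟩
      · rintro ⟨b, b1, b2, b3⟩
        rcases Nat.lt_or_ge b j with b4 | b4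
        · exact Or.inl (Or.inl ⟨b, b1, b4, b3⟩)
        · obtain rfl : b = j := by omega
          rcases b3 with b3 | b3
          · exact Or.inl (Or.inr b3)
          · exact Or.inr b3
    · rw [l4]; simpa [h4] using k4
    · rw [l5]; simpa using e2
    · rw [l6]; simpa [h6] using k6
  · rintro s' h _ _
    exact h
  · simp [Exp.cost]
    omega

private lemma giants {n : ℕ} {G : SimpleGraph ℕ} {s : St}
    (hgi : giL s = (List.range n).filter (fun v => s.r rtau ≤ dg n G v)) :
    (∀ i < s.r rng, s.m GI i < n) ∧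
    (∀ v < n, s.r rtau ≤ dg n G v → ∃ i < s.r rng, s.m GI i = v) ∧
    (∀ i < s.r rng, ∀ j < s.r rng, s.m GI i = s.m GI j → i = j) := by
  refine ⟨?_, ?_, ?_⟩
  · intro i hi
    have : s.m GI i ∈ giL s := mem_seg.2 ⟨i, Nat.zero_le _, hi, rfl⟩
    rw [hgi, List.mem_filter, List.mem_range] at this
    exact this.1
  · intro v hv h
    have : v ∈ giL s := by
      rw [hgi, List.mem_filter, List.mem_range]
      exact ⟨hv, by simpa using h⟩
    obtain ⟨p, _, h2, h3⟩ := mem_seg.1 this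
    exact ⟨p, h2, h3⟩
  · have hnd : (giL s).Nodup := by
      rw [hgi]
      exact List.nodup_range.filter _
    intro i hi j hj h
    have hl : (giL s).length = s.r rng := by unfold giL; simp
    have h1 : (giL s)[i]'(by omega) = (giL s)[j]'(by omega) := by
      unfold giL
      rw [seg_getElem, seg_getElem]
      simpa using h
    exact (List.Nodup.getElem_inj_iff hnd).1 h1

private lemma sum_off {n m : ℕ} {G : SimpleGraph ℕ} {off adj : ℕ → ℕ} (h : AdjP n m G off adj) :
    ∑ v ∈ range n, (off (v + 1) - off v) = 2 * m := by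
  have : ∀ a ≤ n, ∑ v ∈ range a, (off (v + 1) - off v) = off a := by
    intro a
    induction a with
    | zero => intro _; simp [h.off0]
    | succ a ih =>
      intro ha
      have := h.mono a (by omega)
      rw [sum_range_succ, ih (by omega)]
      omega
  rw [this n le_rfl, h.offn]

/-- giant `x` touches the element `e` -/
private def tchf (n : ℕ) (G : SimpleGraph ℕ) (ce : ℕ → ℕ) (x e : ℕ) : Prop :=
  (e < n ∧ (x = e ∨ G.Adj x e)) ∨ (n < e ∧ ∃ v < n, ce v = e ∧ G.Adj x v)

private lemma pOuter {n m : ℕ} {G : SimpleGraph ℕ} (hG : Inn n G) {s s0 : St}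
    (ha : AdjP n m G (s.m OFF) (s.m ADJ)) (hc : PrepC n G s)
    (hg1 : ∀ i < s.r rng, s.m GI i < n)
    (hg3 : ∀ i < s.r rng, ∀ j < s.r rng, s.m GI i = s.m GI j → i = j)
    (hP : Pf s s0) {ini : ℕ → ℕ} {R : RD}
    (hR : R = ⟨s.r rng, s.m GI, n, s.r rnE, ini, tchf n G (s.m CE)⟩)
    (h0 : ∃ cs rf, OI R 0 cs rf (s0.m NODE) (s0.m PAR) (s0.m LAB) (s0.m STP) (s0.r rnn)) :
    Tri s0 (.for_ ri (K 0) rng (.blk [
      .set rv (A GI (V ri)),
      .set rhi (A OFF (.inc (V rv))),
      .for_ rj (A OFF (V rv)) rhi (.blk [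
        .set re (A ADJ (V rj)), pStep,
        .set re (A CE (A ADJ (V rj))), pStep]),
      .set re (V rv), pStep])) (6 + 65 * n + 194 * m) (fun s' =>
      (∃ cs rf, OI R (s.r rng) cs rf (s'.m NODE) (s'.m PAR) (s'.m LAB) (s'.m STP) (s'.r rnn)) ∧
      Pf s s') := by
  have hRg : R.gi = s.m GI := by rw [hR]
  have hRn : R.n = n := by rw [hR]
  have hRE : R.nE = s.r rnE := by rw [hR]
  have hRgg : R.g = s.r rng := by rw [hR]
  have hRt : R.tch = tchf n G (s.m CE) := by rw [hR]
  have hnE := hc.nE.1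
  refine (Tri.for_ (a := 0) (N := s.r rng) (I := fun i s' =>
      (∃ cs rf, OI R i cs rf (s'.m NODE) (s'.m PAR) (s'.m LAB) (s'.m STP) (s'.r rnn)) ∧ Pf s s')
      (B := fun i => 58 + 97 * (s.m OFF (s.m GI i + 1) - s.m OFF (s.m GI i))) rfl hP.ng
      (Nat.zero_le _) (by decide) ?_ ⟨h0, hP⟩ ?_ ?_).cost ?_
  · rintro j s' v ⟨⟨cs, rf, h1⟩, h2⟩
    refine ⟨⟨cs, rf, ?_⟩, h2.setR (by decide) (by decide) (by decide)⟩
    rw [St.setR_r, if_neg (by decide)]
    exact h1
  · rintro i - hi s1 ⟨⟨cs, rf, h1⟩, h2⟩ h3 h4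
    have hgi := hg1 i hi
    have hinj : ∀ j < i, R.gi j ≠ R.gi i := by
      intro j hj he
      rw [hRg] at he
      have := hg3 j (by omega) i hi he
      omega
    have hstart := h1.start hinj (s1.m CH)
    rw [hRg] at hstart hinj
    set h := s.m GI i with hh
    have e1 : (A GI (V ri)).ev s1 = h := by
      rw [Exp.ev_get, Exp.ev_reg, h3, h2.gi]
    have hadj : ∀ b, s.m OFF h ≤ b → b < s.m OFF (h + 1) → G.Adj h (s.m ADJ b) := by
      intro b hb1 hb2
      exact (ha.mem h hgi _).1 (mem_seg.2 ⟨b, hb1, hb2, rfl⟩)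
    have hce : ∀ y < n, n ≤ s.m CE y ∧ s.m CE y ≤ s.r rnE := by
      intro y hy
      rcases Nat.lt_or_ge (dg n G y) (s.r rtau) with h5 | h5
      · have := hc.ce_n y hy h5
        exact ⟨this.1.le, this.2⟩
      · rw [hc.ce_g y hy h5]
        exact ⟨le_rfl, hnE⟩
    refine Tri.cons (B1 := 3)
      (B2 := 55 + 97 * (s.m OFF (h + 1) - s.m OFF h)) ?_ (by omega)
    refine Tri.set ?_ (by decide)
    refine Tri.cons (B1 := 4)
      (B2 := 51 + 97 * (s.m OFF (h + 1) - s.m OFF h)) ?_ (by omega)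
    refine Tri.set ?_ (by decide)
    refine Tri.cons (B1 := 7 + 97 * (s.m OFF (h + 1) - s.m OFF h)) (B2 := 44) ?_ (by omega)
    rw [e1]
    have hN0 := h1.bd
    have hpos := h1.pos
    refine (pInner (R := R) (i := i) (h := h) (i0 := i) (a0 := s.m OFF h) (a1 := s.m OFF (h + 1))
      (N0 := s1.r rnn) (s := s) ?_ ?_ ?_ ?_ ?_ rfl ?_ (ha.mono h hgi) ?_ ?_).imp ?_
    · refine (MS.setR ?_ (by decide)).setR (by decide)
      exact ⟨cs, rf, hstart⟩
    · exact (h2.setR (by decide) (by decide) (by decide)).setR (by decide) (by decide) (by decide)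
    · rw [hRg]; exact hinj
    · simp
    · simpa using h3
    · simp [h2.off]
    · intro b hb1 hb2
      rw [hRE]
      have := hG.right (hadj b hb1 hb2)
      omega
    · intro b hb1 hb2
      rw [hRE]
      exact (hce _ (hG.right (hadj b hb1 hb2))).2
    rintro s2 ⟨k1, k2, k3, k4⟩
    refine Tri.cons (B1 := 2) (B2 := 42) ?_ (by omega)
    refine Tri.set ?_ (by decide)
    refine Tri.cons (B1 := 41) (B2 := 1) ?_ (by omega)
    rw [Exp.ev_reg, k3]
    refine (pStep_spec (s := s) (k1.setR (by decide)) (k2.setR (by decide) (by decide) (by decide))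
      (by rw [hRg]; exact hinj) (by rw [hRE]; simp; omega) (by simpa using k3)).imp ?_
    rintro s3 ⟨⟨cs', rf', l1⟩, l2, l3, l4, l5, l6⟩
    refine Tri.nil ⟨⟨⟨cs', rf', ?_⟩, l2⟩, ?_, ?_⟩ le_rfl
    · have hh' : h = R.gi i := by rw [hRg]
      rw [hh'] at l1
      refine l1.finish ?_ hN0 hpos
      rw [← hh', hRE, hRn, hRt]
      intro e he hen
      simp only [St.setR_r, if_true]
      unfold tchf
      constructor
      · rintro (⟨b, b1, b2, b3 | b3⟩ | b3)
        · have hb := hadj b b1 b2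
          exact Or.inl ⟨by rw [b3]; exact hG.right hb, Or.inr (by rw [b3]; exact hb)⟩
        · have hb := hadj b b1 b2
          have hb' := hG.right hb
          have := hce _ hb'
          exact Or.inr ⟨by omega, _, hb', b3.symm, hb⟩
        · exact Or.inl ⟨by omega, Or.inl b3.symm⟩
      · rintro (⟨b1, b2 | b2⟩ | ⟨b1, v, b2, b3, b4⟩)
        · exact Or.inr b2.symm
        · obtain ⟨b, c1, c2, c3⟩ := mem_seg.1 ((ha.mem h hgi _).2 b2)
          exact Or.inl ⟨b, c1, c2, Or.inl c3.symm⟩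
        · obtain ⟨b, c1, c2, c3⟩ := mem_seg.1 ((ha.mem h hgi _).2 b4)
          exact Or.inl ⟨b, c1, c2, Or.inr (by rw [c3]; exact b3.symm)⟩
    · rw [l4]; simpa using k4
    · exact l2.ng
  · rintro s' h' _ _
    exact h'
  · have h1 : ∑ i ∈ range (s.r rng), (s.m OFF (s.m GI i + 1) - s.m OFF (s.m GI i)) ≤ 2 * m := by
      rw [← sum_off ha]
      have : ∑ i ∈ range (s.r rng), (s.m OFF (s.m GI i + 1) - s.m OFF (s.m GI i)) =
          ∑ v ∈ (range (s.r rng)).image (s.m GI), (s.m OFF (v + 1) - s.m OFF v) := by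
        rw [sum_image]
        intro i hi j hj hij
        exact hg3 i (mem_range.1 hi) j (mem_range.1 hj) hij
      rw [this]
      refine sum_le_sum_of_subset ?_
      intro v hv
      rw [mem_image] at hv
      obtain ⟨i, hi, rfl⟩ := hv
      exact mem_range.2 (hg1 i (mem_range.1 hi))
    have h2 : s.r rng ≤ n := by
      have : #((range (s.r rng)).image (s.m GI)) = s.r rng := by
        rw [card_image_of_injOn, card_range]
        intro i hi j hj hij
        exact hg3 i (mem_range.1 hi) j (mem_range.1 hj) hij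
      rw [← this]
      calc _ ≤ #(range n) := card_le_card (by
            intro v hv
            rw [mem_image] at hv
            obtain ⟨i, hi, rfl⟩ := hv
            exact mem_range.2 (hg1 i (mem_range.1 hi)))
        _ = n := card_range _
    rw [← range_eq_Ico, sum_add_distrib, sum_add_distrib, ← mul_sum]
    simp only [sum_const, card_range, smul_eq_mul, Exp.cost]
    omega

theorem pRefine_spec {n m : ℕ} {G : SimpleGraph ℕ} (hG : Inn n G) {s : St}
    (ha : AdjP n m G (s.m OFF) (s.m ADJ)) (hc : PrepC n G s)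
    (hgi : giL s = (List.range n).filter (fun v => s.r rtau ≤ dg n G v))
    (h0 : (∀ e, s.m NODE e = 0) ∧ (∀ e, s.m LAB e = 0) ∧ (∀ e, s.m STP e = 0)) :
    Tri s pRefine (2000 * (n + m + 1)) (fun s' => PrepD n G s') := by
  obtain ⟨h01, h02, h03⟩ := h0
  obtain ⟨hg1, hg2, hg3⟩ := giants hgi
  have hgn : s.r rng ≤ n := by
    have : #((range (s.r rng)).image (s.m GI)) = s.r rng := by
      rw [card_image_of_injOn, card_range]
      intro i hi j hj hij
      exact hg3 i (mem_range.1 hi) j (mem_range.1 hj) hij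
    rw [← this]
    calc _ ≤ #(range n) := card_le_card (by
          intro v hv
          rw [mem_image] at hv
          obtain ⟨i, hi, rfl⟩ := hv
          exact mem_range.2 (hg1 i (mem_range.1 hi)))
      _ = n := card_range _
  unfold pRefine
  refine Tri.cons (B1 := 6 + 12 * n) (B2 := 3 + (6 + 65 * n + 194 * m) + 1) ?_ (by omega)
  refine ((Tri.for0 (I := fun j s' => Pf s s' ∧ s'.m LAB = s.m LAB ∧ s'.m STP = s.m STP ∧
      (∀ i < j, s'.m NODE (s.m GI i) = i + 1) ∧
      (∀ e, (∀ i < j, e ≠ s.m GI i) → s'.m NODE e = 0)) 5 (N := s.r rng)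
      (Q := fun s' => Pf s s' ∧ s'.m LAB = s.m LAB ∧ s'.m STP = s.m STP ∧
      (∀ i < s.r rng, s'.m NODE (s.m GI i) = i + 1) ∧
      (∀ e, (∀ i < s.r rng, e ≠ s.m GI i) → s'.m NODE e = 0)) rfl (by decide)
    ?_ ?_ ?_ ?_).mono (by nlinarith) (fun s' h => h)).imp ?_
  · rintro j s' v ⟨h1, h2, h3, h4, h5⟩
    exact ⟨h1.setR (by decide) (by decide) (by decide), h2, h3, h4, h5⟩
  · exact ⟨⟨rfl, rfl, rfl, rfl, rfl, rfl, rfl⟩, rfl, rfl, fun i hi => absurd hi (Nat.not_lt_zero _),
      fun e _ => h01 e⟩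
  · rintro j hj s1 ⟨h1, h2, h3, h4, h5⟩ h6 h7
    have hN : (s1.setM NODE ((A GI (V ri)).ev s1) (((V ri).inc).ev s1)).m NODE =
        Function.update (s1.m NODE) (s.m GI j) (j + 1) := by
      simp [h6, h1.gi]
    refine Tri.put ⟨⟨⟨?_, ?_, ?_, ?_, ?_, ?_, ?_⟩, ?_, ?_, ?_, ?_⟩, h6, h7⟩ (by decide)
    · simpa using h1.off
    · simpa using h1.adj
    · simpa using h1.ce
    · simpa using h1.gi
    · exact h1.ng
    · exact h1.nE
    · exact h1.tau
    · simpa using h2
    · simpa using h3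
    · intro i hi
      rw [hN, Function.update_apply]
      split_ifs with h
      · rw [hg3 i (by omega) j hj h]
      · refine h4 i ?_
        rcases Nat.lt_or_ge i j with h8 | h8
        · exact h8
        · obtain rfl : i = j := by omega
          exact absurd rfl h
    · intro e he
      rw [hN, Function.update_apply, if_neg (he j (by omega))]
      exact h5 e (fun i hi => he i (by omega))
  · rintro s' h _ _
    exact h
  rintro s1 ⟨h1, h2, h3, h4, h5⟩
  refine Tri.cons (B1 := 3) (B2 := (6 + 65 * n + 194 * m) + 1) ?_ (by omega)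
  refine Tri.set ?_ (by decide)
  refine Tri.cons (B1 := 6 + 65 * n + 194 * m) (B2 := 1) ?_ (by omega)
  have hP2 : Pf s (s1.setR rnn (((V rng).inc).ev s1)) :=
    h1.setR (by decide) (by decide) (by decide)
  set s2 := s1.setR rnn (((V rng).inc).ev s1) with hs2
  have hnn : s2.r rnn = s.r rng + 1 := by
    rw [hs2, St.setR_r, if_pos rfl, Exp.ev_inc, Exp.ev_reg, h1.ng]
  have hin : ∀ e, s1.m NODE e < s.r rng + 1 := by
    intro e
    by_cases he : ∀ i < s.r rng, e ≠ s.m GI i
    · rw [h5 e he]; omega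
    · push Not at he
      obtain ⟨i, hi, rfl⟩ := he
      rw [h4 i hi]; omega
  refine (pOuter hG ha hc hg1 hg3 hP2 (ini := s1.m NODE) rfl
    ⟨fun _ => ∅, id, ⟨⟨?_, ?_, ?_, ?_, ?_⟩, ?_, ?_, ?_, ?_, ?_⟩⟩).imp ?_
  · exact fun q _ _ => ⟨rfl, rfl⟩
  · intro q hq hl
    exact absurd (show s2.m LAB q = 0 by rw [hs2, St.setR_m, h2]; exact h02 q) hl
  · intro e _
    rw [hnn]
    exact hin e
  · intro e _ _ x
    constructor
    · intro h; exact absurd h (notMem_empty _)
    · rintro ⟨j, hj, _⟩; omega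
  · intro e _
    rfl
  · intro q _
    exact Or.inl (by rw [hs2, St.setR_m, h2]; exact h02 q)
  · intro q _
    exact Or.inl (by rw [hs2, St.setR_m, h3]; exact h03 q)
  · intro q _
    rw [hs2, St.setR_m, h3]; exact h03 q
  · rw [hnn]; simp
  · rw [hnn]; omega
  rintro s3 ⟨⟨cs, rf, hO⟩, hP3⟩
  refine Tri.nil ?_ le_rfl
  have hgiL : giL s3 = giL s := by
    unfold giL
    rw [hP3.gi, hP3.ng]
  have hmemG : ∀ h, h ∈ giL s3 ↔ ∃ j < s.r rng, h = s.m GI j := by
    intro h
    rw [hgiL]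
    unfold giL
    rw [mem_seg]
    constructor
    · rintro ⟨p, _, h6, h7⟩; exact ⟨p, h6, h7.symm⟩
    · rintro ⟨p, h6, h7⟩; exact ⟨p, Nat.zero_le _, h6, h7.symm⟩
  have hcode : ∀ e ≤ s.r rnE, e ≠ n → ∀ h, InCh (s3.m PAR) (s3.m LAB) h (s3.m NODE e) ↔
      (h ∈ giL s3 ∧ tchf n G (s.m CE) h e) := by
    intro e he hen h
    rw [inCh_iff hO.tr h _ (hO.tr.ndl e he), hO.tr.code e he hen h, hmemG]
    constructor
    · rintro ⟨j, h6, h7, h8⟩
      exact ⟨⟨j, h6, h7.symm⟩, h8⟩
    · rintro ⟨⟨j, h6, h7⟩, h8⟩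
      exact ⟨j, h6, h7.symm, h8⟩
  have hnE := hc.nE.1
  refine ⟨?_, hO.pos, ?_, ?_, ?_, ?_, ?_, ?_⟩
  · have := hO.bd
    rw [hP3.ng]
    exact this
  · intro e he
    rw [hP3.nE] at he
    exact hO.tr.ndl e he
  · intro q hq hl
    exact (hO.tr.chain q hq hl).1
  · intro q hq h hin'
    rw [inCh_iff hO.tr h q hq] at hin'
    rw [hmemG]
    exact hO.csl q hq h hin'
  · intro v hv h
    rw [hcode v (by omega) (by omega) h]
    unfold tchf
    constructor
    · rintro ⟨h6, ⟨_, h8⟩ | ⟨h8, _⟩⟩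
      · exact ⟨h6, h8⟩
      · omega
    · rintro ⟨h6, h7⟩
      exact ⟨h6, Or.inl ⟨hv, h7⟩⟩
  · intro E hE1 hE2 h
    rw [hP3.nE] at hE2
    rw [hcode E hE2 (by omega) h, hP3.ce]
    unfold tchf
    constructor
    · rintro ⟨h6, ⟨h8, _⟩ | ⟨_, h8⟩⟩
      · omega
      · exact ⟨h6, h8⟩
    · rintro ⟨h6, h7⟩
      exact ⟨h6, Or.inr ⟨hE1, h7⟩⟩
  · intro v hv hd w hw he
    rw [hP3.tau] at hd
    obtain ⟨j, hj, hjv⟩ := hg2 v hv hd
    have h6 := hO.tr.rt v (show v ≤ s.r rnE by omega)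
    have h7 := hO.tr.rt w (show w ≤ s.r rnE by omega)
    rw [he, h6] at h7
    have h8 : s1.m NODE v = s1.m NODE w := h7
    rw [← hjv, h4 j hj] at h8
    by_contra hne
    by_cases hx : ∀ i < s.r rng, w ≠ s.m GI i
    · rw [h5 w hx] at h8
      omega
    · push Not at hx
      obtain ⟨i, hi, rfl⟩ := hx
      rw [h4 i hi] at h8
      have : i = j := by omega
      rw [this] at hne
      exact hne hjv

end TL
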