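import Pool.Agent.W_3fea_h44.PDist

/-! # Specification of `pSort` -/

namespace TL

open Relation Finset Classical

/-- after the sort the arcs with the same pair of classes are consecutive -/
structure Sorted2 (G : SimpleGraph ℕ) (N : ℕ) (node bx by_ : ℕ → ℕ) : Prop where
  arcs : Arcs G N bx by_
  sorted : ∀ i j, i ≤ j → j < N → node (bx i) < node (bx j) ∨
    (node (bx i) = node (bx j) ∧ node (by_ i) ≤ node (by_ j))

/-! ### a distribution is a stable permutation -/

private theorem off_mono {K : ℕ} {off : ℕ → ℕ} (h : ∀ b < K, off b ≤ off (b + 1)) :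
    ∀ a b, a ≤ b → b ≤ K → off a ≤ off b := by
  intro a b hab hb
  induction b, hab using Nat.le_induction with
  | base => exact le_rfl
  | succ b hab ih => exact (ih (by omega)).trans (h b (by omega))

private theorem off_find {K : ℕ} {off : ℕ → ℕ} : ∀ (q : ℕ), off 0 ≤ q → q < off K →
    ∃ b < K, off b ≤ q ∧ q < off (b + 1) := by
  intro q h0 hK
  induction K with
  | zero => omega
  | succ K ih =>
    by_cases h : q < off K
    · obtain ⟨b, hb, h1, h2⟩ := ih h
      exact ⟨b, by omega, h1, h2⟩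
    · exact ⟨K, by omega, by omega, hK⟩

private theorem distP_perm {N K : ℕ} {key ax ay off bx by_ : ℕ → ℕ}
    (h : DistP N K key ax ay off bx by_) : ∃ f : ℕ → ℕ,
      (∀ q < N, f q < N ∧ bx q = ax (f q) ∧ by_ q = ay (f q)) ∧
      (∀ q q', q < q' → q' < N → key (f q) < key (f q') ∨ (key (f q) = key (f q') ∧ f q < f q')) := by
  have hb : ∀ q, ∃ b, q < N → b < K ∧ off b ≤ q ∧ q < off (b + 1) := by
    intro q
    by_cases hq : q < N
    · obtain ⟨b, h1, h2, h3⟩ := off_find (off := off) (K := K) q (by rw [h.off0]; omega)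
        (by rw [h.offK]; exact hq)
      exact ⟨b, fun _ => ⟨h1, h2, h3⟩⟩
    · exact ⟨0, fun h => absurd h hq⟩
  choose β hβ using hb
  have hlen : ∀ b < K, ((List.range N).filter (fun i => key i = b)).length =
      off (b + 1) - off b := by
    intro b hb
    have h1 := congrArg List.length (h.lx b hb)
    rw [seg_length, List.length_map] at h1
    exact h1.symm
  have hp : ∀ q < N, q - off (β q) <
      ((List.range N).filter (fun i => key i = β q)).length := by
    intro q hq
    obtain ⟨h1, h2, h3⟩ := hβ q hq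
    rw [hlen _ h1]
    omega
  refine ⟨fun q => ((List.range N).filter (fun i => key i = β q)).getD (q - off (β q)) 0, ?_, ?_⟩
  · intro q hq
    obtain ⟨h1, h2, h3⟩ := hβ q hq
    have hpq := hp q hq
    have hmem := List.getElem_mem hpq
    rw [List.mem_filter, List.mem_range] at hmem
    simp only [List.getD_eq_getElem _ _ hpq]
    refine ⟨hmem.1, ?_, ?_⟩
    · have e := h.lx _ h1
      have e2 : (seg bx (off (β q)) (off (β q + 1)))[q - off (β q)]'(by
          rw [seg_length]; omega) = bx q := by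
        rw [seg_getElem]
        congr 1
        omega
      rw [← e2]
      simp only [e, List.getElem_map]
    · have e := h.ly _ h1
      have e2 : (seg by_ (off (β q)) (off (β q + 1)))[q - off (β q)]'(by
          rw [seg_length]; omega) = by_ q := by
        rw [seg_getElem]
        congr 1
        omega
      rw [← e2]
      simp only [e, List.getElem_map]
  · intro q q' hqq hq'
    have hq : q < N := by omega
    obtain ⟨h1, h2, h3⟩ := hβ q hq
    obtain ⟨k1, k2, k3⟩ := hβ q' hq'
    have hpq := hp q hq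
    have hpq' := hp q' hq'
    have hmem := List.getElem_mem hpq
    have hmem' := List.getElem_mem hpq'
    rw [List.mem_filter, List.mem_range, decide_eq_true_eq] at hmem hmem'
    simp only [List.getD_eq_getElem _ _ hpq, List.getD_eq_getElem _ _ hpq']
    rw [hmem.2, hmem'.2]
    have hle : β q ≤ β q' := by
      by_contra hlt
      have := off_mono h.mono (β q' + 1) (β q) (by omega) (by omega)
      omega
    rcases Nat.lt_or_ge (β q) (β q') with hlt | hge
    · exact Or.inl hlt
    · have he : β q = β q' := le_antisymm hle hge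
      refine Or.inr ⟨he, ?_⟩
      have hsort : ((List.range N).filter (fun i => key i = β q')).Pairwise (· < ·) :=
        (List.pairwise_lt_range).filter _
      rw [List.pairwise_iff_getElem] at hsort
      have ho : off (β q) = off (β q') := by rw [he]
      have hpq2 : q - off (β q') < ((List.range N).filter (fun i => key i = β q')).length := by
        rw [← he]; exact hpq
      have := hsort (q - off (β q')) (q' - off (β q')) hpq2 hpq' (by omega)
      simpa only [he] using this

private theorem perm_surj {N : ℕ} {key f : ℕ → ℕ} (h1 : ∀ q < N, f q < N)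
    (h2 : ∀ q q', q < q' → q' < N → key (f q) < key (f q') ∨ (key (f q) = key (f q') ∧ f q < f q')) :
    (∀ q < N, ∀ q' < N, f q = f q' → q = q') ∧ ∀ i < N, ∃ q < N, f q = i := by
  have hinj : ∀ q < N, ∀ q' < N, f q = f q' → q = q' := by
    intro q hq q' hq' he
    rcases Nat.lt_trichotomy q q' with h | h | h
    · rcases h2 q q' h hq' with h3 | h3
      · rw [he] at h3; omega
      · omega
    · exact h
    · rcases h2 q' q h hq with h3 | h3
      · rw [he] at h3; omega
      · omega
  refine ⟨hinj, fun i hi => ?_⟩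
  have hs : (Finset.range N).image f = Finset.range N := by
    apply Finset.eq_of_subset_of_card_le
    · intro x hx
      rw [Finset.mem_image] at hx
      obtain ⟨q, hq, rfl⟩ := hx
      exact Finset.mem_range.2 (h1 q (Finset.mem_range.1 hq))
    · rw [Finset.card_image_of_injOn]
      intro a ha b hb hab
      exact hinj a (by simpa using ha) b (by simpa using hb) hab
  have := Finset.mem_range.2 hi
  rw [← hs, Finset.mem_image] at this
  obtain ⟨q, hq, he⟩ := this
  exact ⟨q, Finset.mem_range.1 hq, he⟩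

private theorem arcs_perm {G : SimpleGraph ℕ} {N : ℕ} {key ax ay bx by_ f : ℕ → ℕ}
    (ha : Arcs G N ax ay) (h1 : ∀ q < N, f q < N ∧ bx q = ax (f q) ∧ by_ q = ay (f q))
    (h2 : ∀ q q', q < q' → q' < N → key (f q) < key (f q') ∨ (key (f q) = key (f q') ∧ f q < f q')) :
    Arcs G N bx by_ := by
  obtain ⟨hinj, hsurj⟩ := perm_surj (fun q hq => (h1 q hq).1) h2
  refine ⟨fun i hi => ?_, fun x y hxy => ?_, fun i hi j hj e1 e2 => ?_⟩
  · rw [(h1 i hi).2.1, (h1 i hi).2.2]
    exact ha.adj _ (h1 i hi).1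
  · obtain ⟨i, hi, e1, e2⟩ := ha.surj x y hxy
    obtain ⟨q, hq, rfl⟩ := hsurj i hi
    exact ⟨q, hq, by rw [(h1 q hq).2.1, e1], by rw [(h1 q hq).2.2, e2]⟩
  · rw [(h1 i hi).2.1, (h1 j hj).2.1] at e1
    rw [(h1 i hi).2.2, (h1 j hj).2.2] at e2
    exact hinj i hi j hj (ha.inj _ (h1 i hi).1 _ (h1 j hj).1 e1 e2)

/-! ### the loops -/

private theorem key_loop {src : ℕ} (hsrc : src ≠ KEY) {s : St} {N : ℕ} (hN : s.r rN = N) :
    Tri s (.for_ ri (K 0) rN (.put KEY (V ri) (A NODE (A src (V ri))))) (6 + N * 12)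
      (fun s' => ∀ i < N, s'.m KEY i = s.m NODE (s.m src i)) := by
  refine (Tri.forC (I := fun j st => (∀ i < j, st.m KEY i = s.m NODE (s.m src i)) ∧
    st.m NODE = s.m NODE ∧ st.m src = s.m src) 5 (a := 0) (by decide) (by simp) hN
    (Nat.zero_le _) ?_ ?_ ?_).cost ?_
  · exact ⟨fun i hi => absurd hi (by omega), rfl, rfl⟩
  · rintro j _ hj st ⟨i1, i2, i3⟩ hr hrN
    refine Tri.put ?_ (by simp [Exp.cost])
    refine ⟨⟨?_, ?_, ?_⟩, ?_, ?_⟩
    · intro i hi
      simp only [St.setR_m, St.setM_m, if_true, Exp.ev_reg, Exp.ev_get, Function.update_apply, hr,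
        i2, i3]
      by_cases hij : i = j
      · simp [hij]
      · simp only [hij, if_false]
        exact i1 i (by omega)
    · simp only [St.setR_m, St.setM_m]
      rw [if_neg (by decide)]
      exact i2
    · simp only [St.setR_m, St.setM_m]
      rw [if_neg hsrc]
      exact i3
    · simpa using hr
    · simpa using hrN
  · intro s' hI _ _
    exact hI.1
  · simp [Exp.cost]

private theorem copy_loop {s : St} {N : ℕ} (hN : s.r rN = N) :
    Tri s (.for_ ri (K 0) rN (.blk [.put AX (V ri) (A BX (V ri)), .put AY (V ri) (A BY (V ri))]))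
      (6 + N * 16) (fun s' => (∀ i < N, s'.m AX i = s.m BX i) ∧ ∀ i < N, s'.m AY i = s.m BY i) := by
  refine (Tri.forC (I := fun j st => ((∀ i < j, st.m AX i = s.m BX i) ∧
    ∀ i < j, st.m AY i = s.m BY i) ∧ st.m BX = s.m BX ∧ st.m BY = s.m BY) 9 (a := 0)
    (by decide) (by simp) hN (Nat.zero_le _) ?_ ?_ ?_).cost ?_
  · exact ⟨⟨fun i hi => absurd hi (by omega), fun i hi => absurd hi (by omega)⟩, rfl, rfl⟩
  · rintro j _ hj st ⟨⟨i1, i1'⟩, i2, i3⟩ hr hrN
    refine (Tri.lf (by decide) ?_).cost (by decide)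
    simp only [Cmd.ex_cons, Cmd.ex_nil, Cmd.ex_put, Exp.ev_reg, Exp.ev_get, St.setM_r, St.setM_m,
      St.setR_m, hr, i2, i3, hrN, and_true]
    refine ⟨⟨fun i hi => ?_, fun i hi => ?_⟩, ?_, ?_⟩
    · rw [if_neg (by decide), if_true, Function.update_apply]
      by_cases hij : i = j
      · simp [hij]
      · simp only [hij, if_false]
        exact i1 i (by omega)
    · rw [if_true, Function.update_apply]
      by_cases hij : i = j
      · simp only [hij, if_true]
        rw [if_neg (by decide)]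
      · simp only [hij, if_false]
        rw [if_neg (by decide)]
        exact i1' i (by omega)
    · rw [if_neg (by decide), if_neg (by decide)]
    · rw [if_neg (by decide), if_neg (by decide)]
  · intro s' hI _ _
    exact hI.1
  · simp [Exp.cost]

theorem pSort_spec {n m : ℕ} {G : SimpleGraph ℕ} (hG : Inn n G) {s : St}
    (hN : s.r rN = 2 * m) (ha : Arcs G (2 * m) (s.m AX) (s.m AY))
    (hnode : ∀ v < n, s.m NODE v < s.r rnn) :
    Tri s pSort (1000 * (m + s.r rnn + 1)) (fun s' =>
      Sorted2 G (2 * m) (s.m NODE) (s'.m BX) (s'.m BY)) := by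
  obtain ⟨s1, t1, r1, c1, q1⟩ : Tri s (.set rK (V rnn)) 2 (fun s1 => s1 = s.setR rK (s.r rnn)) :=
    Tri.set rfl (by simp [Exp.cost])
  have N1 : s1.r rN = 2 * m := by rw [q1, St.setR_r, if_neg (by decide)]; exact hN
  have K1 : s1.r rK = s.r rnn := by rw [q1, St.setR_r, if_pos rfl]
  have m1 : s1.m = s.m := by rw [q1, St.setR_m]
  obtain ⟨s2, t2, r2, c2, q2⟩ := key_loop (src := AY) (by decide) N1
  have f2 := r2.frame
  have N2 : s2.r rN = 2 * m := by rw [f2.r rN (by decide)]; exact N1
  have K2 : s2.r rK = s.r rnn := by rw [f2.r rK (by decide)]; exact K1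
  have ax2 : s2.m AX = s.m AX := by rw [f2.m AX (by decide), m1]
  have ay2 : s2.m AY = s.m AY := by rw [f2.m AY (by decide), m1]
  have no2 : s2.m NODE = s.m NODE := by rw [f2.m NODE (by decide), m1]
  rw [m1] at q2
  obtain ⟨s3, t3, r3, c3, q3⟩ := pDist_spec N2 K2 (fun i hi => by
    rw [q2 i hi]
    exact hnode _ (hG.right (ha.adj i hi)))
  have f3 := r3.frame
  have N3 : s3.r rN = 2 * m := by rw [f3.r rN (by decide)]; exact N2
  have K3 : s3.r rK = s.r rnn := by rw [f3.r rK (by decide)]; exact K2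
  have no3 : s3.m NODE = s.m NODE := by rw [f3.m NODE (by decide)]; exact no2
  rw [ax2, ay2] at q3
  obtain ⟨f, hf1, hf2⟩ := distP_perm q3
  have ha3 : Arcs G (2 * m) (s3.m BX) (s3.m BY) := arcs_perm ha hf1 hf2
  obtain ⟨s4, t4, r4, c4, q4, q4'⟩ := copy_loop N3
  have f4 := r4.frame
  have N4 : s4.r rN = 2 * m := by rw [f4.r rN (by decide)]; exact N3
  have K4 : s4.r rK = s.r rnn := by rw [f4.r rK (by decide)]; exact K3
  have no4 : s4.m NODE = s.m NODE := by rw [f4.m NODE (by decide)]; exact no3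
  have ha4 : Arcs G (2 * m) (s4.m AX) (s4.m AY) := by
    refine ⟨fun i hi => ?_, fun x y hxy => ?_, fun i hi j hj e1 e2 => ?_⟩
    · rw [q4 i hi, q4' i hi]; exact ha3.adj i hi
    · obtain ⟨i, hi, e1, e2⟩ := ha3.surj x y hxy
      exact ⟨i, hi, by rw [q4 i hi, e1], by rw [q4' i hi, e2]⟩
    · rw [q4 i hi, q4 j hj] at e1
      rw [q4' i hi, q4' j hj] at e2
      exact ha3.inj i hi j hj e1 e2
  obtain ⟨s5, t5, r5, c5, q5⟩ := key_loop (src := AX) (by decide) N4
  have f5 := r5.frame
  have N5 : s5.r rN = 2 * m := by rw [f5.r rN (by decide)]; exact N4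
  have K5 : s5.r rK = s.r rnn := by rw [f5.r rK (by decide)]; exact K4
  have ax5 : s5.m AX = s4.m AX := f5.m AX (by decide)
  have ay5 : s5.m AY = s4.m AY := f5.m AY (by decide)
  rw [no4] at q5
  obtain ⟨s6, t6, r6, c6, q6⟩ := pDist_spec N5 K5 (fun i hi => by
    rw [q5 i hi]
    exact hnode _ (hG _ _ (ha4.adj i hi)))
  rw [ax5, ay5] at q6
  obtain ⟨g, hg1, hg2⟩ := distP_perm q6
  have ha6 : Arcs G (2 * m) (s6.m BX) (s6.m BY) := arcs_perm ha4 hg1 hg2
  refine ⟨s6, _, Run.cons r1 (Run.cons r2 (Run.cons r3 (Run.cons r4 (Run.cons r5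
    (Run.cons r6 (Run.nil _)))))), by omega, ha6, fun i j hij hj => ?_⟩
  have hi : i < 2 * m := by omega
  -- the first pass
  have hfirst : ∀ p q, p ≤ q → q < 2 * m →
      s.m NODE (s4.m AY p) ≤ s.m NODE (s4.m AY q) := by
    intro p q hpq hq
    have hp : p < 2 * m := by omega
    rw [q4' p hp, q4' q hq, (hf1 p hp).2.2, (hf1 q hq).2.2, ← q2 _ (hf1 p hp).1,
      ← q2 _ (hf1 q hq).1]
    rcases Nat.lt_or_ge p q with h | h
    · rcases hf2 p q h hq with h' | h'
      · exact h'.le
      · exact h'.1.le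
    · have : p = q := le_antisymm hpq h
      rw [this]
  have e1 : s.m NODE (s6.m BX i) = s5.m KEY (g i) := by
    rw [(hg1 i hi).2.1, q5 _ (hg1 i hi).1]
  have e2 : s.m NODE (s6.m BX j) = s5.m KEY (g j) := by
    rw [(hg1 j hj).2.1, q5 _ (hg1 j hj).1]
  rcases Nat.lt_or_ge i j with h | h
  · rcases hg2 i j h hj with h' | h'
    · left; rw [e1, e2]; exact h'
    · right
      refine ⟨by rw [e1, e2]; exact h'.1, ?_⟩
      rw [(hg1 i hi).2.2, (hg1 j hj).2.2]
      exact hfirst _ _ h'.2.le (hg1 j hj).1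
  · have : i = j := le_antisymm hij h
    rw [this]
    exact Or.inr ⟨rfl, le_rfl⟩

end TL
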