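import Pool.Agent.W_3fea_h44.Repr

/-! # Specification of `pTable` -/

namespace TL

open Relation Finset Classical

/-- invariant of the loop of `pTable` -/
structure TblI (n k : ℕ) (s0 : St) (j : ℕ) (s : St) : Prop where
  rk_ : s.r rk = k
  bad_ : s.m BAD = s0.m BAD
  node_ : s.m NODE = s0.m NODE
  nd : (seg (s.m TB) 0 (s.r rnT)).Nodup
  mem : ∀ E ∈ seg (s.m TB) 0 (s.r rnT), n < E ∧ E < j ∧ s0.m BAD E = 1
  cnt : ∀ q, s.m CNT q =
    ((seg (s.m TB) 0 (s.r rnT)).filter (fun E => decide (s0.m NODE E = q))).length
  le : ∀ q, s.m CNT q ≤ k + 1
  full : ∀ E, n < E → E < j → s0.m BAD E = 1 → E ∉ seg (s.m TB) 0 (s.r rnT) →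
    k + 1 ≤ s.m CNT (s0.m NODE E)

/-- splitting a list by a bounded label -/
theorem length_le_classes {α : Type*} (L : List α) (lab : α → ℕ) (a N : ℕ)
    (hlab : ∀ x ∈ L, lab x < a)
    (hN : ∀ i, (L.filter (fun x => decide (lab x = i))).length ≤ N) :
    L.length ≤ a * N := by
  induction a generalizing L with
  | zero =>
    rcases L with _ | ⟨x, L⟩
    · simp
    · have := hlab x (by simp)
      omega
  | succ a ih =>
    have h1 := List.length_eq_length_filter_add (l := L) (fun x => decide (lab x = a))
    have h2 := hN a
    have h3 := ih (L.filter (fun x => !decide (lab x = a))) ?_ ?_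
    · rw [Nat.succ_mul]
      omega
    · intro x hx
      rw [List.mem_filter] at hx
      have h4 := hlab x hx.1
      have h5 : lab x ≠ a := by simpa using hx.2
      omega
    · intro i
      refine le_trans ?_ (hN i)
      rw [List.filter_filter]
      have : (L.filter (fun x => decide (lab x = i) && !decide (lab x = a))).Sublist
          (L.filter (fun x => decide (lab x = i))) := by
        rw [show (fun x => decide (lab x = i) && !decide (lab x = a)) =
          (fun x => (!decide (lab x = a)) && decide (lab x = i)) from by
            funext x; rw [Bool.and_comm]]
        rw [← List.filter_filter]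
        exact List.filter_sublist
      exact this.length_le

theorem pTable_spec {n k : ℕ} {G : SimpleGraph ℕ} {s : St} (hn : s.r rn = n)
    (hk : s.r rk = k) (hc : PrepC n G s) (hnode : ∀ e, e ≤ s.r rnE → s.m NODE e < s.r rnn)
    (h0 : ∀ q, s.m CNT q = 0) :
    Tri s pTable (200 * (n + 1)) (fun s' => PrepT n k G s') := by
  have hE := hc.nE
  have key : Tri s pTable (200 * (n + 1)) (fun s' => TblI n k s (s.r rnE + 1) s') := by
    refine Tri.cons (B1 := 2) (B2 := 200 * n + 198) (Tri.set ?_ (by decide)) (by omega)
    refine Tri.cons (B1 := 3) (B2 := 200 * n + 195) (Tri.set ?_ (by decide)) (by omega)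
    refine Tri.cons (B1 := 7 + (s.r rnE + 1 - (n + 1)) * (30 + 7)) (B2 := 1) ?_ ?_
    · refine (Tri.forC (TblI n k s) 30 (a := n + 1) (N := s.r rnE + 1) (by decide)
        (by simp [hn]) (by simp) (by omega) ?_ ?_ ?_).cost (by simp [Exp.cost])
      · refine ⟨?_, ?_, ?_, ?_, ?_, ?_, ?_, ?_⟩
        · simpa using hk
        · simp
        · simp
        · simp
        · simp
        · intro q
          simp [h0]
        · intro q
          simp [h0]
        · intro E h1 h2
          omega
      · intro j hj1 hj2 s1 hI hr hh
        refine (Tri.lf (by decide) ?_).cost (by decide)
        obtain ⟨i1, i2, i3, i4, i5, i6, i7, i8⟩ := hI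
        by_cases hb : s.m BAD j = 1
        · by_cases hk' : k < s1.m CNT (s.m NODE j)
          · have e : (Cmd.whn (.eq (A BAD (V ri)) (K 1)) (.blk [
                .set ra (A NODE (V ri)),
                .whn (.not (.lt (V rk) (A CNT (V ra)))) (.blk [
                .put CNT (V ra) (.inc (A CNT (V ra))),
                .put TB (V rnT) (V ri),
                .incr rnT])])).ex s1 = s1.setR ra (s.m NODE j) := by
              simp [hr, i1, i2, i3, hb, hk']
            rw [e]
            refine ⟨⟨?_, ?_, ?_, ?_, ?_, ?_, ?_, ?_⟩, ?_, ?_⟩
            · simpa using i1
            · simpa using i2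
            · simpa using i3
            · simpa using i4
            · intro E hE'
              obtain ⟨a1, a2, a3⟩ := i5 E (by simpa using hE')
              exact ⟨a1, by omega, a3⟩
            · intro q
              simpa using i6 q
            · intro q
              simpa using i7 q
            · intro E h1 h2 h3 h4
              by_cases hEj : E = j
              · subst hEj
                simpa using hk'
              · simpa using i8 E h1 (by omega) h3 (by simpa using h4)
            · simpa using hr
            · simpa using hh
          · have e : (Cmd.whn (.eq (A BAD (V ri)) (K 1)) (.blk [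
                .set ra (A NODE (V ri)),
                .whn (.not (.lt (V rk) (A CNT (V ra)))) (.blk [
                .put CNT (V ra) (.inc (A CNT (V ra))),
                .put TB (V rnT) (V ri),
                .incr rnT])])).ex s1 =
                ((((s1.setR ra (s.m NODE j)).setM CNT (s.m NODE j)
                  (s1.m CNT (s.m NODE j) + 1)).setM TB (s1.r rnT) j).setR rnT (s1.r rnT + 1)) := by
              simp [hr, i1, i2, i3, hb, hk']
            rw [e]
            set q0 := s.m NODE j with hq0
            have hseg : seg (Function.update (s1.m TB) (s1.r rnT) j) 0 (s1.r rnT + 1) =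
                seg (s1.m TB) 0 (s1.r rnT) ++ [j] := by
              rw [seg_succ _ (by omega), seg_update (by omega), Function.update_self]
            have hjn : j ∉ seg (s1.m TB) 0 (s1.r rnT) := by
              intro hj
              have := i5 j hj
              omega
            have t1 : ((((((s1.setR ra q0).setM CNT q0 (s1.m CNT q0 + 1)).setM TB (s1.r rnT) j).setR
                rnT (s1.r rnT + 1))).setR ri (j + 1)).m TB =
                Function.update (s1.m TB) (s1.r rnT) j := by
              simp
            have t2 : ((((((s1.setR ra q0).setM CNT q0 (s1.m CNT q0 + 1)).setM TB (s1.r rnT) j).setR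
                rnT (s1.r rnT + 1))).setR ri (j + 1)).m CNT =
                Function.update (s1.m CNT) q0 (s1.m CNT q0 + 1) := by
              simp
            have t3 : ((((((s1.setR ra q0).setM CNT q0 (s1.m CNT q0 + 1)).setM TB (s1.r rnT) j).setR
                rnT (s1.r rnT + 1))).setR ri (j + 1)).r rnT = s1.r rnT + 1 := by
              simp
            refine ⟨⟨?_, ?_, ?_, ?_, ?_, ?_, ?_, ?_⟩, ?_, ?_⟩
            · simpa using i1
            · simpa using i2
            · simpa using i3
            · rw [t1, t3, hseg, List.nodup_append]
              refine ⟨i4, List.nodup_singleton j, ?_⟩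
              intro a ha b hb' hab
              rw [List.mem_singleton] at hb'
              subst hb'
              subst hab
              exact hjn ha
            · intro E hE'
              rw [t1, t3, hseg, List.mem_append, List.mem_singleton] at hE'
              rcases hE' with hE' | rfl
              · obtain ⟨a1, a2, a3⟩ := i5 E hE'
                exact ⟨a1, by omega, a3⟩
              · exact ⟨by omega, by omega, hb⟩
            · intro q
              rw [t1, t2, t3, hseg, List.filter_append, List.length_append, ← i6 q]
              by_cases hq : q = q0
              · subst hq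
                rw [Function.update_self]
                simp [hq0]
              · rw [Function.update_of_ne hq]
                have : ¬ s.m NODE j = q := fun h => hq (h ▸ hq0)
                simp [this]
            · intro q
              rw [t2]
              by_cases hq : q = q0
              · subst hq
                rw [Function.update_self]
                omega
              · rw [Function.update_of_ne hq]
                exact i7 q
            · intro E h1 h2 h3 h4
              rw [t1, t3, hseg, List.mem_append, List.mem_singleton, not_or] at h4
              have h5 := i8 E h1 (by omega) h3 h4.1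
              rw [t2]
              by_cases hq : s.m NODE E = q0
              · rw [hq, Function.update_self]
                rw [hq] at h5
                omega
              · rw [Function.update_of_ne hq]
                exact h5
            · simpa using hr
            · simpa using hh
        · have e : (Cmd.whn (.eq (A BAD (V ri)) (K 1)) (.blk [
                .set ra (A NODE (V ri)),
                .whn (.not (.lt (V rk) (A CNT (V ra)))) (.blk [
                .put CNT (V ra) (.inc (A CNT (V ra))),
                .put TB (V rnT) (V ri),
                .incr rnT])])).ex s1 = s1 := by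
            simp [hr, i2, hb]
          rw [e]
          refine ⟨⟨?_, ?_, ?_, ?_, ?_, ?_, ?_, ?_⟩, ?_, ?_⟩
          · simpa using i1
          · simpa using i2
          · simpa using i3
          · simpa using i4
          · intro E hE'
            obtain ⟨a1, a2, a3⟩ := i5 E (by simpa using hE')
            exact ⟨a1, by omega, a3⟩
          · intro q
            simpa using i6 q
          · intro q
            simpa using i7 q
          · intro E h1 h2 h3 h4
            by_cases hEj : E = j
            · subst hEj
              exact absurd h3 hb
            · simpa using i8 E h1 (by omega) h3 (by simpa using h4)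
          · exact hr
          · exact hh
      · intro s1 hI _ _
        exact Tri.nil hI le_rfl
    · omega
  refine key.fr.imp ?_
  rintro s' ⟨hI, hf⟩
  have g1 : s'.m NODE = s.m NODE := hf.m NODE (by decide)
  have g2 : s'.m CV = s.m CV := hf.m CV (by decide)
  have g3 : s'.r rnE = s.r rnE := hf.r rnE (by decide)
  have g4 : s'.r rtau = s.r rtau := hf.r rtau (by decide)
  have g5 : s'.r rnn = s.r rnn := hf.r rnn (by decide)
  refine ⟨hI.nd, ?_, ?_, ?_⟩
  · intro E hE'
    obtain ⟨a1, a2, a3⟩ := hI.mem E hE'
    rw [g2, g3, g4]
    exact ⟨a1, by omega, ((hc.bad E a1 (by omega)).1).1 a3⟩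
  · intro E h1 h2 h3 h4
    rw [g2, g4] at h3
    rw [g3] at h2
    have h5 := hI.full E h1 (by omega) (((hc.bad E h1 h2).1).2 h3) h4
    rw [hI.cnt] at h5
    rw [g1]
    exact h5
  · have h1 := length_le_classes (tbL s') (fun E => s.m NODE E) (s.r rnn) (k + 1) ?_ ?_
    · rw [g5]
      unfold tbL at h1
      rw [seg_length] at h1
      exact h1
    · intro E hE'
      obtain ⟨a1, a2, a3⟩ := hI.mem E hE'
      exact hnode E (by omega)
    · intro q
      have := hI.le q
      rw [hI.cnt] at this
      exact this

end TL
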