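import Pool.Agent.W_3fea_h44.PArcs
import Pool.Agent.W_3fea_h44.PAdj
import Pool.Agent.W_3fea_h44.PConst
import Pool.Agent.W_3fea_h44.PLists
import Pool.Agent.W_3fea_h44.PComps
import Pool.Agent.W_3fea_h44.PCert
import Pool.Agent.W_3fea_h44.PRefine
import Pool.Agent.W_3fea_h44.PSort
import Pool.Agent.W_3fea_h44.PKer
import Pool.Agent.W_3fea_h44.PTable
import Pool.Agent.W_3fea_h44.PPrepDefs

/-! # Specification of the preprocessing -/

namespace TL

open Relation Finset Classical

private theorem fR {c : Cmd} {s s' : St} {t : ℕ} (h : Run c s t s') {x : ℕ} (hx : x ∉ c.wr) :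
    s'.r x = s.r x := h.frame.r x hx

private theorem fM {c : Cmd} {s s' : St} {t : ℕ} (h : Run c s t s') {a : ℕ} (ha : a ∉ c.wa) :
    s'.m a = s.m a := h.frame.m a ha

private theorem giL_tr {s s' : St} (h1 : s'.m GI = s.m GI) (h2 : s'.r rng = s.r rng) :
    giL s' = giL s := by
  unfold giL
  rw [h1, h2]

private theorem alL_tr {s s' : St} (h1 : s'.m AL = s.m AL) (h2 : s'.r rnA = s.r rnA) :
    alL s' = alL s := by
  unfold alL
  rw [h1, h2]

private theorem adjL_tr {s s' : St} (h1 : s'.m ADJ = s.m ADJ) (h2 : s'.m OFF = s.m OFF) (v : ℕ) :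
    adjL s' v = adjL s v := by
  unfold adjL
  rw [h1, h2]

private theorem adA_tr {s s' : St} (h1 : s'.m ADA = s.m ADA) (h2 : s'.m OFA = s.m OFA) (v : ℕ) :
    adA s' v = adA s v := by
  unfold adA
  rw [h1, h2]

private theorem bk_tr {s s' : St} (h1 : s'.m BKA = s.m BKA) (h2 : s'.m OFF = s.m OFF)
    (h3 : s'.m BE = s.m BE) (v : ℕ) : bk s' v = bk s v := by
  unfold bk
  rw [h1, h2, h3]

private theorem PrepB_tr {n k : ℕ} {G : SimpleGraph ℕ} {s s' : St} (h : PrepB n k G s)
    (h1 : s'.m BKA = s.m BKA) (h2 : s'.m OFF = s.m OFF) (h3 : s'.m BE = s.m BE)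
    (h4 : s'.m FW = s.m FW) : PrepB n k G s' := by
  obtain ⟨a1, a2, a3, a4, a5, a6, a7⟩ := h
  constructor
  · simp only [h2, h3]; exact a1
  · simp only [h2, h3]; exact a2
  · simp only [bk_tr h1 h2 h3]; exact a3
  · simp only [bk_tr h1 h2 h3]; exact a4
  · simp only [bk_tr h1 h2 h3]; exact a5
  · simp only [bk_tr h1 h2 h3]; exact a6
  · simp only [bk_tr h1 h2 h3, h4]; exact a7

private theorem PrepC_tr {n : ℕ} {G : SimpleGraph ℕ} {s s' : St} (h : PrepC n G s)
    (h1 : s'.r rnE = s.r rnE) (h2 : s'.r rtau = s.r rtau) (h3 : s'.m CE = s.m CE)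
    (h4 : s'.m CV = s.m CV) (h5 : s'.m BAD = s.m BAD) : PrepC n G s' := by
  obtain ⟨a1, a2, a3, a4, a5, a6⟩ := h
  constructor
  · simp only [h1]; exact a1
  · simp only [h2, h3]; exact a2
  · simp only [h1, h2, h3]; exact a3
  · simp only [h2, h3]; exact a4
  · simp only [h1, h2, h3, h4]; exact a5
  · simp only [h1, h2, h4, h5]; exact a6

private theorem PrepD_tr {n : ℕ} {G : SimpleGraph ℕ} {s s' : St} (h : PrepD n G s)
    (h1 : s'.r rnn = s.r rnn) (h2 : s'.r rng = s.r rng) (h3 : s'.r rnE = s.r rnE)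
    (h4 : s'.r rtau = s.r rtau) (h5 : s'.m NODE = s.m NODE) (h6 : s'.m LAB = s.m LAB)
    (h7 : s'.m PAR = s.m PAR) (h8 : s'.m GI = s.m GI) (h9 : s'.m CE = s.m CE) :
    PrepD n G s' := by
  have hg := giL_tr h8 h2
  obtain ⟨a1, a2, a3, a4, a5, a6, a7, a8⟩ := h
  constructor
  · simp only [h1, h2]; exact a1
  · simp only [h1]; exact a2
  · simp only [h1, h3, h5]; exact a3
  · simp only [h1, h6, h7]; exact a4
  · simp only [h1, h6, h7, hg]; exact a5
  · simp only [h5, h6, h7, hg]; exact a6
  · simp only [h3, h5, h6, h7, hg, h9]; exact a7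
  · simp only [h4, h5]; exact a8

private theorem PrepK_tr {k : ℕ} {G : SimpleGraph ℕ} {s s' : St} (h : PrepK k G s)
    (h1 : s'.r rnK = s.r rnK) (h2 : s'.r rnn = s.r rnn) (h3 : s'.m NODE = s.m NODE)
    (h4 : s'.m KX = s.m KX) (h5 : s'.m KY = s.m KY) : PrepK k G s' := by
  have hk : kerL s' = kerL s := by
    unfold kerL
    rw [h1, h4, h5]
  obtain ⟨a1, a2⟩ := h
  constructor
  · rw [h3, hk]; exact a1
  · rw [h1, h2]; exact a2

theorem pPrep_spec {n m k : ℕ} {G : SimpleGraph ℕ} (hG : Inn n G) {s : St} (hn : s.r rn = n)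
    (hm : s.r rm = m) (hk : s.r rk = k) (hr : ∀ x, 3 ≤ x → s.r x = 0)
    (hz : ∀ a, 2 ≤ a → ∀ i, s.m a i = 0) (he : EL G m (s.m EU) (s.m EV)) :
    Tri s pPrep (20000 * (n + m) + (fc k + 20000 * (k + fnn k + 1))) (fun s' =>
      Prep n m k G s' ∧ Zer s') := by
  -- arcs
  obtain ⟨s1, t1, h1, c1, N1, A1, D1⟩ := pArcs_spec hG hm he (hz DEG (by decide))
  have n1 : s1.r rn = n := (fR h1 (by decide)).trans hn
  -- adjacency lists
  obtain ⟨s2, t2, h2, c2, J2⟩ := pAdj_spec hG n1 N1 A1
  have n2 : s2.r rn = n := (fR h2 (by decide)).trans n1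
  have m2 : s2.r rm = m := (fR h2 (by decide)).trans ((fR h1 (by decide)).trans hm)
  have k2 : s2.r rk = k := (fR h2 (by decide)).trans ((fR h1 (by decide)).trans hk)
  have D2 : s2.m DEG = s1.m DEG := fM h2 (by decide)
  -- thresholds
  obtain ⟨s3, t3, h3, c3, q3, qq3, del3, _, dd3, tau3⟩ := pConst_spec n2 m2 k2
  have n3 : s3.r rn = n := (fR h3 (by decide)).trans n2
  have J3 : AdjP n m G (s3.m OFF) (s3.m ADJ) := by
    rw [fM h3 (by decide), fM h3 (by decide)]; exact J2
  have D3 : ∀ v, s3.m DEG v = dg n G v := by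
    rw [fM h3 (by decide), D2]; exact D1
  -- lists
  obtain ⟨s4, t4, h4, c4, al4, gi4, ofa4, ada4⟩ := pLists_spec hG n3 J3 D3
  have n4 : s4.r rn = n := (fR h4 (by decide)).trans n3
  have J4 : AdjP n m G (s4.m OFF) (s4.m ADJ) := by
    rw [fM h4 (by decide), fM h4 (by decide)]; exact J3
  have D4 : ∀ v, s4.m DEG v = dg n G v := by
    rw [fM h4 (by decide)]; exact D3
  have B4 : ∀ v, s4.m BAD v = 0 := by
    rw [fM h4 (by decide), fM h3 (by decide), fM h2 (by decide), fM h1 (by decide)]
    exact hz BAD (by decide)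
  -- components
  obtain ⟨s5, t5, h5, c5, C5⟩ := pComps_spec hG n4 J4 D4 B4
  have n5 : s5.r rn = n := (fR h5 (by decide)).trans n4
  have q5 : s5.r rq = 4 * k :=
    (fR h5 (by decide)).trans ((fR h4 (by decide)).trans q3)
  have J5 : AdjP n m G (s5.m OFF) (s5.m ADJ) := by
    rw [fM h5 (by decide), fM h5 (by decide)]; exact J4
  -- certificate
  obtain ⟨s6, t6, h6, c6, B6⟩ := pCert_spec hG n5 q5 J5
  have J6 : AdjP n m G (s6.m OFF) (s6.m ADJ) := by
    rw [fM h6 (by decide), fM h6 (by decide)]; exact J5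
  have C6 : PrepC n G s6 := PrepC_tr C5 (fR h6 (by decide)) (fR h6 (by decide))
    (fM h6 (by decide)) (fM h6 (by decide)) (fM h6 (by decide))
  have tau6 : s6.r rtau = s3.r rtau := (fR h6 (by decide)).trans ((fR h5 (by decide)).trans
    (fR h4 (by decide)))
  have gi6 : giL s6 = (List.range n).filter (fun v => s6.r rtau ≤ dg n G v) := by
    rw [giL_tr (fM h6 (by decide)) (fR h6 (by decide)),
      giL_tr (fM h5 (by decide)) (fR h5 (by decide)), gi4, tau6]
  have z6 : ∀ a, a ∉ pArcs.wa → a ∉ pAdj.wa → a ∉ pConst.wa → a ∉ pLists.wa → a ∉ pComps.wa →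
      a ∉ pCert.wa → 2 ≤ a → ∀ i, s6.m a i = 0 := by
    intro a g1 g2 g3 g4 g5 g6 g7
    rw [fM h6 g6, fM h5 g5, fM h4 g4, fM h3 g3, fM h2 g2, fM h1 g1]
    exact hz a g7
  -- classes
  obtain ⟨s7, t7, h7, c7, D7⟩ := pRefine_spec hG J6 C6 gi6
    ⟨z6 NODE (by decide) (by decide) (by decide) (by decide) (by decide) (by decide) (by decide),
      z6 LAB (by decide) (by decide) (by decide) (by decide) (by decide) (by decide) (by decide),
      z6 STP (by decide) (by decide) (by decide) (by decide) (by decide) (by decide) (by decide)⟩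
  have N7 : s7.r rN = 2 * m := (fR h7 (by decide)).trans ((fR h6 (by decide)).trans
    ((fR h5 (by decide)).trans ((fR h4 (by decide)).trans ((fR h3 (by decide)).trans
    ((fR h2 (by decide)).trans N1)))))
  have A7 : Arcs G (2 * m) (s7.m AX) (s7.m AY) := by
    rw [fM h7 (by decide), fM h6 (by decide), fM h5 (by decide), fM h4 (by decide),
      fM h3 (by decide), fM h2 (by decide), fM h7 (by decide), fM h6 (by decide),
      fM h5 (by decide), fM h4 (by decide), fM h3 (by decide), fM h2 (by decide)]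
    exact A1
  have C7 : PrepC n G s7 := PrepC_tr C6 (fR h7 (by decide)) (fR h7 (by decide))
    (fM h7 (by decide)) (fM h7 (by decide)) (fM h7 (by decide))
  have nd7 : ∀ v < n, s7.m NODE v < s7.r rnn := fun v hv =>
    D7.node_lt v (hv.le.trans C7.nE.1)
  -- sorting
  obtain ⟨s8, t8, h8, c8, S8⟩ := pSort_spec hG N7 A7 nd7
  have N8 : s8.r rN = 2 * m := (fR h8 (by decide)).trans N7
  have no8 : s8.m NODE = s7.m NODE := fM h8 (by decide)
  have nn8 : s8.r rnn = s7.r rnn := fR h8 (by decide)
  have nd8 : ∀ v < n, s8.m NODE v < s8.r rnn := by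
    rw [no8, nn8]; exact nd7
  have q8 : s8.r rq = 4 * k := (fR h8 (by decide)).trans ((fR h7 (by decide)).trans
    ((fR h6 (by decide)).trans q5))
  have qq8 : s8.r rqq = 4 * k * (4 * k + 1) := (fR h8 (by decide)).trans
    ((fR h7 (by decide)).trans ((fR h6 (by decide)).trans ((fR h5 (by decide)).trans
    ((fR h4 (by decide)).trans qq3))))
  have z8 : ∀ a, a ∉ pArcs.wa → a ∉ pAdj.wa → a ∉ pConst.wa → a ∉ pLists.wa → a ∉ pComps.wa →
      a ∉ pCert.wa → a ∉ pRefine.wa → a ∉ pSort.wa → 2 ≤ a → ∀ i, s8.m a i = 0 := by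
    intro a g1 g2 g3 g4 g5 g6 g7 g8 g9
    rw [fM h8 g8, fM h7 g7]
    exact z6 a g1 g2 g3 g4 g5 g6 g9
  -- kernel
  have S8' : Sorted2 G (2 * m) (s8.m NODE) (s8.m BX) (s8.m BY) := by
    rw [no8]; exact S8
  obtain ⟨s9, t9, h9, c9, K9⟩ := pKer_spec hG N8 S8' nd8 q8 qq8
    ⟨z8 SX (by decide) (by decide) (by decide) (by decide) (by decide) (by decide) (by decide)
      (by decide) (by decide),
      z8 SY (by decide) (by decide) (by decide) (by decide) (by decide) (by decide) (by decide)
      (by decide) (by decide)⟩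
  have n9 : s9.r rn = n := (fR h9 (by decide)).trans ((fR h8 (by decide)).trans
    ((fR h7 (by decide)).trans ((fR h6 (by decide)).trans n5)))
  have k9 : s9.r rk = k := (fR h9 (by decide)).trans ((fR h8 (by decide)).trans
    ((fR h7 (by decide)).trans ((fR h6 (by decide)).trans ((fR h5 (by decide)).trans
    ((fR h4 (by decide)).trans ((fR h3 (by decide)).trans k2))))))
  have C8 : PrepC n G s8 := PrepC_tr C7 (fR h8 (by decide)) (fR h8 (by decide))
    (fM h8 (by decide)) (fM h8 (by decide)) (fM h8 (by decide))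
  have C9 : PrepC n G s9 := PrepC_tr C8 (fR h9 (by decide)) (fR h9 (by decide))
    (fM h9 (by decide)) (fM h9 (by decide)) (fM h9 (by decide))
  have D8 : PrepD n G s8 := PrepD_tr D7 (fR h8 (by decide)) (fR h8 (by decide))
    (fR h8 (by decide)) (fR h8 (by decide)) (fM h8 (by decide)) (fM h8 (by decide))
    (fM h8 (by decide)) (fM h8 (by decide)) (fM h8 (by decide))
  have D9 : PrepD n G s9 := PrepD_tr D8 (fR h9 (by decide)) (fR h9 (by decide))
    (fR h9 (by decide)) (fR h9 (by decide)) (fM h9 (by decide)) (fM h9 (by decide))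
    (fM h9 (by decide)) (fM h9 (by decide)) (fM h9 (by decide))
  have z9 : ∀ a, a ∉ pArcs.wa → a ∉ pAdj.wa → a ∉ pConst.wa → a ∉ pLists.wa → a ∉ pComps.wa →
      a ∉ pCert.wa → a ∉ pRefine.wa → a ∉ pSort.wa → a ∉ pKer.wa → 2 ≤ a →
      ∀ i, s9.m a i = 0 := by
    intro a g1 g2 g3 g4 g5 g6 g7 g8 g9 g10
    rw [fM h9 g9]
    exact z8 a g1 g2 g3 g4 g5 g6 g7 g8 g10
  -- table
  obtain ⟨s10, t10, h10, c10, T10⟩ := pTable_spec (k := k) n9 k9 C9 D9.node_lt
    (z9 CNT (by decide) (by decide) (by decide) (by decide) (by decide) (by decide) (by decide)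
      (by decide) (by decide) (by decide))
  have C10 : PrepC n G s10 := PrepC_tr C9 (fR h10 (by decide)) (fR h10 (by decide))
    (fM h10 (by decide)) (fM h10 (by decide)) (fM h10 (by decide))
  have D10 : PrepD n G s10 := PrepD_tr D9 (fR h10 (by decide)) (fR h10 (by decide))
    (fR h10 (by decide)) (fR h10 (by decide)) (fM h10 (by decide)) (fM h10 (by decide))
    (fM h10 (by decide)) (fM h10 (by decide)) (fM h10 (by decide))
  have K10 : PrepK k G s10 := PrepK_tr K9 (fR h10 (by decide)) (fR h10 (by decide))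
    (fM h10 (by decide)) (fM h10 (by decide)) (fM h10 (by decide))
  -- registers and arrays which do not change after the lists have been computed
  have reg : ∀ x, x ∉ pComps.wr → x ∉ pCert.wr → x ∉ pRefine.wr → x ∉ pSort.wr →
      x ∉ pKer.wr → x ∉ pTable.wr → s10.r x = s4.r x := by
    intro x g5 g6 g7 g8 g9 g10
    rw [fR h10 g10, fR h9 g9, fR h8 g8, fR h7 g7, fR h6 g6, fR h5 g5]
  have arr : ∀ x, x ∉ pComps.wa → x ∉ pCert.wa → x ∉ pRefine.wa → x ∉ pSort.wa →
      x ∉ pKer.wa → x ∉ pTable.wa → s10.m x = s4.m x := by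
    intro x g5 g6 g7 g8 g9 g10
    rw [fM h10 g10, fM h9 g9, fM h8 g8, fM h7 g7, fM h6 g6, fM h5 g5]
  have arr6 : ∀ x, x ∉ pRefine.wa → x ∉ pSort.wa →
      x ∉ pKer.wa → x ∉ pTable.wa → s10.m x = s6.m x := by
    intro x g7 g8 g9 g10
    rw [fM h10 g10, fM h9 g9, fM h8 g8, fM h7 g7]
  have B10 : PrepB n k G s10 := PrepB_tr B6
    (arr6 BKA (by decide) (by decide) (by decide) (by decide))
    (arr6 OFF (by decide) (by decide) (by decide) (by decide))
    (arr6 BE (by decide) (by decide) (by decide) (by decide))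
    (arr6 FW (by decide) (by decide) (by decide) (by decide))
  have r10 : ∀ x, x ∉ pLists.wr → x ∉ pComps.wr → x ∉ pCert.wr → x ∉ pRefine.wr →
      x ∉ pSort.wr → x ∉ pKer.wr → x ∉ pTable.wr → s10.r x = s3.r x := by
    intro x g4 g5 g6 g7 g8 g9 g10
    rw [reg x g5 g6 g7 g8 g9 g10, fR h4 g4]
  have tau10 : s10.r rtau = s3.r rtau := r10 rtau (by decide) (by decide) (by decide) (by decide)
    (by decide) (by decide) (by decide)
  have hOFF : s10.m OFF = s4.m OFF := arr OFF (by decide) (by decide) (by decide) (by decide)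
    (by decide) (by decide)
  have hADJ : s10.m ADJ = s4.m ADJ := arr ADJ (by decide) (by decide) (by decide) (by decide)
    (by decide) (by decide)
  have hOFA : s10.m OFA = s4.m OFA := arr OFA (by decide) (by decide) (by decide) (by decide)
    (by decide) (by decide)
  have hADA : s10.m ADA = s4.m ADA := arr ADA (by decide) (by decide) (by decide) (by decide)
    (by decide) (by decide)
  have hDEG : s10.m DEG = s4.m DEG := arr DEG (by decide) (by decide) (by decide) (by decide)
    (by decide) (by decide)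
  have hAL : s10.m AL = s4.m AL := arr AL (by decide) (by decide) (by decide) (by decide)
    (by decide) (by decide)
  have hGI : s10.m GI = s4.m GI := arr GI (by decide) (by decide) (by decide) (by decide)
    (by decide) (by decide)
  have hrnA : s10.r rnA = s4.r rnA := reg rnA (by decide) (by decide) (by decide) (by decide)
    (by decide) (by decide)
  have hrng : s10.r rng = s4.r rng := reg rng (by decide) (by decide) (by decide) (by decide)
    (by decide) (by decide)
  have PA : PrepA n m k G s10 := by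
    constructor
    · exact (fR h10 (by decide)).trans n9
    · rw [r10 rm (by decide) (by decide) (by decide) (by decide) (by decide) (by decide)
        (by decide), fR h3 (by decide)]
      exact m2
    · exact (fR h10 (by decide)).trans k9
    · rw [r10 rq (by decide) (by decide) (by decide) (by decide) (by decide) (by decide)
        (by decide)]
      exact q3
    · rw [r10 rqq (by decide) (by decide) (by decide) (by decide) (by decide) (by decide)
        (by decide)]
      exact qq3
    · rw [r10 rdel (by decide) (by decide) (by decide) (by decide) (by decide) (by decide)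
        (by decide)]
      exact del3
    · rw [r10 rD (by decide) (by decide) (by decide) (by decide) (by decide) (by decide)
        (by decide)]
      exact dd3
    · rw [tau10]
      exact tau3
    · rw [hOFF, hADJ]
      exact J4
    · rw [hDEG]
      exact D4
    · rw [alL_tr hAL hrnA, al4, del3]
    · rw [giL_tr hGI hrng, gi4, tau10]
    · rw [hOFA]
      exact ofa4
    · intro v hv
      rw [adA_tr hADA hOFA, ada4 v hv, del3, adjL_tr hADJ hOFF,
        adjL_tr (fM h4 (by decide)) (fM h4 (by decide))]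
  -- cost
  have hng : s10.r rng ≤ 4 * gg k := rng_le hG PA
  have hnn : s7.r rnn ≤ fnn k := by
    have e1 : s7.r rng = s4.r rng := (fR h7 (by decide)).trans ((fR h6 (by decide)).trans
      (fR h5 (by decide)))
    have e2 : s7.r rng ≤ 4 * gg k := by rw [e1, ← hrng]; exact hng
    refine D7.nn.trans ?_
    unfold fnn
    exact Nat.mul_le_mul (by omega) (Nat.pow_le_pow_right (by norm_num) e2)
  have run := Run.cons h1 (Run.cons h2 (Run.cons h3 (Run.cons h4 (Run.cons h5 (Run.cons h6
    (Run.cons h7 (Run.cons h8 (Run.cons h9 (Run.cons h10 (Run.nil s10))))))))))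
  refine ⟨s10, _, run, ?_, ⟨hG, PA, B10, C10, D10, K10, T10⟩, ?_⟩
  · omega
  · have z10 : ∀ a, a ∉ pPrep.wa → 2 ≤ a → ∀ i, s10.m a i = 0 := by
      intro a g1 g2
      have := fM (c := pPrep) run g1
      rw [this]
      exact hz a g2
    constructor
    · exact z10 INS (by decide) (by decide)
    · exact z10 MU (by decide) (by decide)
    · exact z10 MM (by decide) (by decide)
    · exact z10 CN (by decide) (by decide)
    · exact z10 FL (by decide) (by decide)
    · exact z10 CM (by decide) (by decide)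
    · exact z10 MP (by decide) (by decide)
    · have := fR (c := pPrep) (x := rans) run (by decide)
      rw [this]
      exact hr rans (by decide)

end TL
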