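import Pool.Agent.W_3fea_h44.SearchAux

/-! # Specification of the search -/

namespace TL

open Relation Finset Classical

variable {n m k : ℕ} {G : SimpleGraph ℕ} {D : St}

/-- bound of the time of the loop -/
noncomputable def tb (n m k : ℕ) (D : St) : ℕ :=
  wt k 0 * (nbd k (wt k 0) D + 100) + (1000 * (n + 2 * m) +
      1000 * ((k + 1) * (4 * k + 2)) * D.r rnA + wt k 0 * (k * wt k 0) * e1 k (D.r rtau))

/-- the state at the head of the loop, before node `S` is treated -/
structure SI (n m k : ℕ) (G : SimpleGraph ℕ) (D : St) (t : ℕ) (S : List ℕ)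
    (stk : List (ℕ × ℕ)) (EX : List (Finset ℕ × ℕ)) (VS : Finset (Finset ℕ))
    (recs : ℕ → List (List ℕ)) (s : St) : Prop where
  run : s.r rrun = 1
  n0 : N0 n m k G D S s
  stk_ : Stk s stk
  memo : MemoR n recs s
  log : LogI n k G (D.r rtau) EX VS recs
  sok : SOK n k (S.length - 1) S stk
  sol : Sol n k G ∅ → Sol n k G S.toFinset ∨ SSol n k G S stk
  ans : s.r rans = 0
  cnt : VS.card + (wt k S.length + ws k stk) ≤ wt k 0
  time : t + (wt k S.length + ws k stk) * (nbd k (wt k 0) D + 100) ≤
    wt k 0 * (nbd k (wt k 0) D + 100) + (EX.map (xc n k G D)).sum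

/-- the result -/
def SR (n k : ℕ) (G : SimpleGraph ℕ) (s' : St) : Prop :=
  (s'.r rans = 1 ∧ ∃ S : List ℕ, seg (s'.m SA) 0 (s'.r rt) = S ∧ S.Nodup ∧
    IsS n k G S.toFinset) ∨ (s'.r rans = 0 ∧ ¬ Sol n k G ∅)

/-- time at the end -/
theorem time_end (hP : Prep n m k G D) {EX : List (Finset ℕ × ℕ)} {VS : Finset (Finset ℕ)}
    {recs : ℕ → List (List ℕ)} (hl : LogI n k G (D.r rtau) EX VS recs)
    (hV : VS.card ≤ wt k 0) {t : ℕ}
    (ht : t ≤ wt k 0 * (nbd k (wt k 0) D + 100) + (EX.map (xc n k G D)).sum) :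
    t ≤ tb n m k D := by
  have h1 := hl.cost hP
  have h2 : VS.card * (k * VS.card) * e1 k (D.r rtau) ≤
      wt k 0 * (k * wt k 0) * e1 k (D.r rtau) :=
    Nat.mul_le_mul_right _ (Nat.mul_le_mul hV (Nat.mul_le_mul_left _ hV))
  unfold tb
  omega

/-- one iteration -/
theorem search_step (hP : Prep n m k G D) {t : ℕ} {S : List ℕ} {stk : List (ℕ × ℕ)}
    {EX : List (Finset ℕ × ℕ)} {VS : Finset (Finset ℕ)} {recs : ℕ → List (List ℕ)} {s : St}
    (h : SI n m k G D t S stk EX VS recs s) :
    Trt s (.blk [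
      pNode,
      .ite (.eq (V rst) (K 0)) (.blk [.set rans (K 1), .set rrun (K 0)])
        (.ite (.eq (V rsp) (K 0)) (.set rrun (K 0))
          (.blk [
            .decr rsp,
            .set rt (A SD (V rsp)),
            .put SA (V rt) (A SV (V rsp)),
            .incr rt]))]) (fun u s' =>
      (s'.r rrun = 0 ∧ SR n k G s' ∧ t + (4 + u) ≤ tb n m k D) ∨
      (∃ S' stk' EX' VS' recs', SI n m k G D (t + (4 + u)) S' stk' EX' VS' recs' s' ∧
        wt k S'.length + ws k stk' < wt k S.length + ws k stk)) := by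
  have hS := h.n0.len
  have hw := wt_pos hS
  have hVc : (insert S.toFinset VS).card ≤ VS.card + 1 := card_insert_le _ _
  have hcnt := h.cnt
  have htime := h.time
  have hnb : nbd k (VS.card + 1) D ≤ nbd k (wt k 0) D := nbd_mono (by omega)
  refine Trt.cons ((pNode_spec h.n0 h.stk_ h.memo h.log).fr.imp ?_)
  rintro u1 s1 ⟨⟨hn1, EX1, recs', hm1, hl1, hcase, hu1⟩, hf1⟩
  have hrun1 : s1.r rrun = 1 := by rw [hf1.r rrun (by decide), h.run]
  have hans1 : s1.r rans = 0 := by rw [hf1.r rans (by decide), h.ans]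
  have hsum : ((EX1 ++ EX).map (xc n k G D)).sum =
      (EX1.map (xc n k G D)).sum + (EX.map (xc n k G D)).sum := by
    rw [List.map_append, List.sum_append]
  obtain ⟨N, hN⟩ : ∃ N, N = nbd k (wt k 0) D := ⟨_, rfl⟩
  rw [← hN] at hnb htime
  -- the time after this node
  have hmulW : ∀ w, w + 1 ≤ wt k S.length + ws k stk →
      (w + 1) * (N + 100) ≤ (wt k S.length + ws k stk) * (N + 100) :=
    fun w hw' => Nat.mul_le_mul_right _ hw'
  have hmulW' : ∀ w, (w + 1) * (N + 100) = w * (N + 100) + (N + 100) := fun w => by ring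
  refine Trt.cons (Trt.ite ?_ ?_)
  · intro hb
    simp only [Cond.ev_eq, Exp.ev_reg, Exp.ev_const, decide_eq_true_eq] at hb
    rcases hcase with ⟨_, _, hgood⟩ | ⟨hst, _⟩
    swap
    · omega
    refine Trt.lf rfl (fun u2 hu2 => Trt.nil ?_)
    left
    have h3 : N0 n m k G D S ((Cmd.blk [.set rans (K 1), .set rrun (K 0)]).ex s1) :=
      ⟨hn1.prep, hn1.agr.fr (Cmd.ex_fr rfl s1) (by decide) (by decide), by simpa using hn1.sa,
        hn1.nd, hn1.lt, hn1.len, by simpa using hn1.ins,
        hn1.cl.fr (Cmd.ex_fr rfl s1) (by decide) (by decide)⟩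
    refine ⟨by simp, Or.inl ⟨by simp, S, h3.sa, hn1.nd, ?_, ?_, hgood⟩, ?_⟩
    · intro v hv; exact hn1.lt v (by simpa using hv)
    · exact (List.toFinset_card_le S).trans hS
    · refine time_end hP hl1 (by omega) ?_
      rw [hsum, ← hN]
      have h4 := hmulW 0 (by omega)
      rw [hmulW'] at h4
      have h5 : (Cmd.blk [.set rans (K 1), .set rrun (K 0)]).mc = 5 := rfl
      rw [h5] at hu2
      simp only [Cond.cost, Exp.cost]
      omega
  · intro hb
    simp only [Cond.ev_eq, Exp.ev_reg, Exp.ev_const, decide_eq_false_iff_not] at hb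
    rcases hcase with ⟨hst, _⟩ | ⟨_, hout⟩
    · exact absurd hst hb
    -- the new stack
    have key : ∃ stk1, Stk s1 stk1 ∧ SOK n k S.length S stk1 ∧
        (Sol n k G ∅ → SSol n k G S stk1) ∧ ws k stk1 + 1 ≤ wt k S.length + ws k stk := by
      obtain ⟨_, Q, hq1, hq2, hq3, hq4, hq5⟩ := hout
      rcases Nat.lt_or_ge S.length k with hlt | hge
      · refine ⟨_, hq1 hlt, h.sok.push hlt hq4, ?_, ?_⟩
        · intro hsol
          rcases h.sol hsol with h' | ⟨e, he, h'⟩
          · obtain ⟨y, hy, hy'⟩ := hq5 h'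
            refine ⟨(y, S.length), List.mem_append_right _ (List.mem_map.2 ⟨y, hy, rfl⟩), ?_⟩
            simpa using hy'
          · exact ⟨e, List.mem_append_left _ he, h'⟩
        · rw [ws_append, ws_map, wt_step hlt]
          have := Nat.mul_le_mul_right (wt k (S.length + 1)) hq3
          omega
      · have heq : S.length = k := le_antisymm hS hge
        refine ⟨stk, hq2 heq, ?_, ?_, by omega⟩
        · refine ⟨fun e he => ?_, h.sok.srt⟩
          have := h.sok.ent e he
          exact ⟨by omega, this.2⟩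
        · intro hsol
          rcases h.sol hsol with h' | h'
          · obtain ⟨y, hy, hy'⟩ := hq5 h'
            have hyS := (hq4 y hy).2
            exact absurd hy' (no_sol_full (by
              rw [List.toFinset_card_of_nodup hn1.nd, heq]) (by simpa using hyS))
          · exact h'
    obtain ⟨stk1, hstk1, hsok1, hsol1, hws1⟩ := key
    refine Trt.ite ?_ ?_
    · intro hb2
      simp only [Cond.ev_eq, Exp.ev_reg, Exp.ev_const, decide_eq_true_eq] at hb2
      have hnil : stk1 = [] := by
        have := hstk1.1; rw [hb2] at this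
        exact List.length_eq_zero_iff.1 this.symm
      refine Trt.lf rfl (fun u2 hu2 => Trt.nil ?_)
      left
      refine ⟨by simp, Or.inr ⟨by simp [hans1], ?_⟩, ?_⟩
      · intro hsol
        obtain ⟨e, he, _⟩ := hsol1 hsol
        rw [hnil] at he
        exact absurd he (by simp)
      · refine time_end hP hl1 (by omega) ?_
        rw [hsum, ← hN]
        have h4 := hmulW 0 (by omega)
        rw [hmulW'] at h4
        have h5 : (Cmd.set rrun (K 0)).mc = 2 := rfl
        rw [h5] at hu2
        simp only [Cond.cost, Exp.cost]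
        omega
    · intro hb2
      simp only [Cond.ev_eq, Exp.ev_reg, Exp.ev_const, decide_eq_false_iff_not] at hb2
      have hne : stk1 ≠ [] := by
        intro h'; apply hb2; rw [hstk1.1, h']; rfl
      obtain ⟨stk2, ⟨y, d⟩, rfl⟩ : ∃ stk2 e, stk1 = stk2 ++ [e] :=
        ⟨stk1.dropLast, stk1.getLast hne, (List.dropLast_append_getLast hne).symm⟩
      have hlen1 : s1.r rsp = stk2.length + 1 := by rw [hstk1.1]; simp
      have htop := hstk1.2 stk2.length (by simp)
      simp only [List.getElem_concat_length] at htop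
      obtain ⟨htv, htd⟩ := htop
      have hent := hsok1.ent (y, d) (by simp)
      simp only at hent
      refine Trt.lf rfl (fun u2 hu2 => Trt.nil ?_)
      right
      have hfr : Fr [rsp, rt] [SA] s1 ((Cmd.blk [
            .decr rsp,
            .set rt (A SD (V rsp)),
            .put SA (V rt) (A SV (V rsp)),
            .incr rt]).ex s1) := (Cmd.ex_fr rfl s1).mono (by decide) (by decide)
      have hws2 : ws k (stk2 ++ [(y, d)]) = ws k stk2 + wt k (d + 1) := by
        rw [ws_append]; simp [ws]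
      have hlenS : (S.take d ++ [y]).length = d + 1 := by
        simp only [List.length_append, List.length_take, List.length_singleton]
        omega
      refine ⟨S.take d ++ [y], stk2, EX1 ++ EX, insert S.toFinset VS, recs', ⟨?_, ?_, ?_, ?_, hl1,
        hsok1.pop, fun hsol => (hsol1 hsol).pop hsok1, ?_, ?_, ?_⟩, ?_⟩
      · rw [hfr.r rrun (by decide), hrun1]
      · refine hn1.pop hent.1 hent.2.1 hent.2.2.1 hent.2.2.2 hfr ?_ ?_
        · simp [hlen1, htv, htd]
        · simp [hlen1, htd]
      · refine ⟨by simp [hlen1], fun i hi => ?_⟩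
        rw [hfr.m SV (by decide), hfr.m SD (by decide)]
        have := hstk1.2 i (by simp; omega)
        rw [List.getElem_append_left hi] at this
        exact this
      · exact hm1.fr hfr (by decide) (by decide) (by decide)
      · rw [hfr.r rans (by decide), hans1]
      · rw [hlenS]; rw [hws2] at hws1; omega
      · rw [hlenS, hsum, ← hN]
        have h4 := hmulW (wt k (d + 1) + ws k stk2) (by omega)
        rw [hmulW'] at h4
        have h5 : (Cmd.blk [
            .decr rsp,
            .set rt (A SD (V rsp)),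
            .put SA (V rt) (A SV (V rsp)),
            .incr rt]).mc = 14 := rfl
        rw [h5] at hu2
        simp only [Cond.cost, Exp.cost]
        omega
      · rw [hlenS]; omega

/-- the search decides the problem and returns a solution -/
theorem pSearch_spec (hP : Prep n m k G D) (hz : Zer D) :
    Tri D pSearch (sbd n m k D) (fun s' =>
      (s'.r rans = 1 ∧ ∃ S : List ℕ, seg (s'.m SA) 0 (s'.r rt) = S ∧ S.Nodup ∧
        IsS n k G S.toFinset) ∨
      (s'.r rans = 0 ∧ ¬ Sol n k G ∅)) := by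
  have hsb : sbd n m k D = 100 + tb n m k D := by
    unfold sbd tb; ring
  apply Trt.tri
  unfold pSearch
  refine Trt.pre 8 rfl (fun s1 hs1 hf1 t1 ht1 => ?_)
  have ht1' : t1 ≤ 17 := ht1
  have hst : Stk s1 [] := ⟨by simp [hs1], fun i hi => absurd hi (by simp)⟩
  have hn0 : N0 n m k G D [] s1 := by
    refine ⟨hP, (Agr.refl D).fr hf1 (by decide) (by decide), by simp [hs1], by simp, by simp,
      by simp, by simp [hs1, hz.ins], ⟨by simp [hs1, hz.mu], by simp [hs1, hz.mm],
      by simp [hs1, hz.cn], by simp [hs1, hz.fl], by simp [hs1, hz.cm], by simp [hs1],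
      by simp [hs1], by simp [hs1]⟩⟩
  have hmem : MemoR n (fun _ => []) s1 := by
    refine ⟨by simp [hs1], fun c _ => ?_⟩
    have : s1.m MP c = 0 := by simp [hs1, hz.mp]
    rw [this]
    exact Chn.nil
  have h0 : SI n m k G D 0 [] [] [] ∅ (fun _ => []) s1 :=
    ⟨by simp [hs1], hn0, hst, hmem, LogI.empty, ⟨by simp, by simp⟩, fun h => Or.inl h,
      by simp [hs1, hz.ans], by simp, by simp⟩
  refine Trt.cons (Trt.loop (I := fun t s => (s.r rrun = 0 ∧ SR n k G s ∧ t ≤ tb n m k D) ∨
    ∃ S stk EX VS recs, SI n m k G D t S stk EX VS recs s) (M := sM k)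
    (Or.inr ⟨_, _, _, _, _, h0⟩) ?_ ?_)
  · rintro t s2 (⟨h1, _⟩ | ⟨S, stk, EX, VS, recs, hI⟩) hb
    · simp [h1] at hb
    · refine (search_step hP hI).imp ?_
      rintro u s3 (⟨g1, g2, g3⟩ | ⟨S', stk', EX', VS', recs', g1, g2⟩)
      · refine ⟨Or.inl ⟨g1, g2, g3⟩, ?_⟩
        have e1 : sM k s3 = 0 := by simp [sM, g1]
        rw [e1, sM_eq hI.stk_ hI.run hI.n0.sa]
        have := wt_pos hI.n0.len
        omega
      · refine ⟨Or.inr ⟨_, _, _, _, _, g1⟩, ?_⟩
        rw [sM_eq hI.stk_ hI.run hI.n0.sa, sM_eq g1.stk_ g1.run g1.n0.sa]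
        exact g2
  · rintro t s2 (⟨h1, h2, h3⟩ | ⟨S, stk, EX, VS, recs, hI⟩) hb
    · refine Trt.nil ⟨?_, h2⟩
      rw [hsb]
      simp only [Cond.cost, Exp.cost]
      omega
    · simp [hI.run] at hb

end TL
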