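import Pool.Agent.W_3fea_h44.Bridge
import Pool.Agent.W_3fea_h44.PPrep
import Pool.Agent.W_3fea_h44.Search
import Pool.Agent.W_3fea_h44.Bound1
import Pool.Agent.W_3fea_h44.Bound2
import Pool.Agent.W_3fea_h44.Bound3

/-! # The final theorem -/

namespace TL

open Relation Finset Classical

/-- total running time -/
theorem total {n m k : ℕ} {G : SimpleGraph ℕ} {D : St} (hP : Prep n m k G D) :
    (20000 * (n + m) + (fc k + 20000 * (k + fnn k + 1))) + sbd n m k D + (n + m) + k + 100 ≤
      30000 * (n + m) + ff k := by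
  have ha := rnA_le hP.inn hP.a
  have hng := rng_le hP.inn hP.a
  have hnn : D.r rnn ≤ fnn k := by
    refine hP.d.nn.trans ?_
    exact Nat.mul_le_mul (by omega) (Nat.pow_le_pow_right (by omega) hng)
  have hnK : D.r rnK ≤ fK k := hP.e.len.trans
    (Nat.mul_le_mul_right _ (Nat.mul_le_mul hnn hnn))
  have hnT : D.r rnT ≤ fT k := hP.t.len.trans (Nat.mul_le_mul_right _ hnn)
  have h1 := sbd_le (n := n) (m := m) hng hnn hnK hnT
  have h2 : sA k * D.r rnA ≤ 2 * m := (Nat.mul_le_mul_right _ (sA_le k)).trans ha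
  have h3 : sB k * D.r rtau ≤ sB k * (dl k + k) + (n + m) := by
    rw [hP.a.rtau_]
    rcases le_total (dl k + k) ((n + m) / gg k) with h | h
    · rw [max_eq_right h]
      have : sB k * ((n + m) / gg k) ≤ n + m :=
        (Nat.mul_le_mul_right _ (sB_le k)).trans (Nat.mul_div_le _ _)
      omega
    · rw [max_eq_left h]; omega
  simp only [ff]
  omega

theorem prog_cm : prog.cm ≤ 1 := by decide +kernel

theorem main : ∃ (P : Cmd) (C : ℕ) (f : ℕ → ℕ), Computable f ∧
    ∀ (n : ℕ) (G : SimpleGraph (Fin n)) (k : ℕ) (s : St), IsInput G k s →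
      ∃ (t : ℕ) (s' : St), Exec (C * (n + G.edgeSet.ncard) + f k) P s t s' ∧
        t ≤ C * (n + G.edgeSet.ncard) + f k ∧
        ((s'.r 3 = 1 ∧ ∃ S : Finset (Fin n), IsSol G k 1 S ∧ S.card = s'.r 4 ∧
            (∀ i < s'.r 4, s'.m 2 i < n) ∧
            (∀ v : Fin n, v ∈ S ↔ ∃ i < s'.r 4, s'.m 2 i = v)) ∨
          (s'.r 3 = 0 ∧ ¬ ∃ S : Finset (Fin n), IsSol G k 1 S)) := by
  refine ⟨prog, 30000, ff, ff_computable, fun n G k s h => ?_⟩
  obtain ⟨s1, t1, r1, ht1, hP, hz⟩ := pPrep_spec (Gn_inn G) h.reg0 h.reg1 h.reg2 h.reg3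
    (fun a ha i => h.zero a i (Or.inl ha)) h.el
  obtain ⟨s2, t2, r2, ht2, hout⟩ := pSearch_spec hP hz
  have htot := total hP
  have hr : ∀ x, s.r x ≤ n + G.edgeSet.ncard + k + 1 := by
    intro x
    rcases Nat.lt_or_ge x 3 with hx | hx
    · interval_cases x
      · rw [h.reg0]; omega
      · rw [h.reg1]; omega
      · rw [h.reg2]; omega
    · rw [h.reg3 x hx]; omega
  have hm : ∀ a i, s.m a i ≤ n + G.edgeSet.ncard + k + 1 := by
    intro a i
    by_cases ha : 2 ≤ a ∨ G.edgeSet.ncard ≤ i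
    · rw [h.zero a i ha]; omega
    · push Not at ha
      obtain ⟨u, v, _, h1, h2⟩ := h.edge i ha.2
      obtain ⟨ha1, ha2⟩ := ha
      interval_cases a
      · rw [h1]; have := u.2; omega
      · rw [h2]; have := v.2; omega
  obtain ⟨he, -, -⟩ := (Run.seq r1 r2).exec hr hm (prog_cm.trans (by omega))
  refine ⟨t1 + t2, s2, he.mono (by omega), by omega, ?_⟩
  rcases hout with ⟨hans, S, hS, hnd, hsol⟩ | ⟨hans, hno⟩
  · left
    refine ⟨hans, Finset.univ.filter (fun v : Fin n => (v : ℕ) ∈ S), ?_, ?_, ?_, ?_⟩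
    · rw [isSol_iff]
      have : (Finset.univ.filter (fun v : Fin n => (v : ℕ) ∈ S)).map Fin.valEmbedding =
          S.toFinset := by
        ext v
        simp only [Finset.mem_map, Finset.mem_filter, Finset.mem_univ, true_and,
          Fin.valEmbedding_apply, List.mem_toFinset]
        constructor
        · rintro ⟨a, ha, rfl⟩; exact ha
        · intro hv
          exact ⟨⟨v, hsol.1 v (List.mem_toFinset.2 hv)⟩, hv, rfl⟩
      rw [this]
      exact hsol
    · have hlen : S.length = s2.r 4 := by rw [← hS]; simp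
      have : (Finset.univ.filter (fun v : Fin n => (v : ℕ) ∈ S)).map Fin.valEmbedding =
          S.toFinset := by
        ext v
        simp only [Finset.mem_map, Finset.mem_filter, Finset.mem_univ, true_and,
          Fin.valEmbedding_apply, List.mem_toFinset]
        constructor
        · rintro ⟨a, ha, rfl⟩; exact ha
        · intro hv
          exact ⟨⟨v, hsol.1 v (List.mem_toFinset.2 hv)⟩, hv, rfl⟩
      rw [← Finset.card_map Fin.valEmbedding, this, List.toFinset_card_of_nodup hnd, hlen]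
    · intro i hi
      apply hsol.1
      rw [List.mem_toFinset, ← hS, mem_seg]
      exact ⟨i, by omega, hi, rfl⟩
    · intro v
      simp only [Finset.mem_filter, Finset.mem_univ, true_and]
      rw [← hS, mem_seg]
      constructor
      · rintro ⟨p, _, h2, h3⟩; exact ⟨p, h2, h3⟩
      · rintro ⟨p, h2, h3⟩; exact ⟨p, by omega, h2, h3⟩
  · right
    refine ⟨hans, ?_⟩
    rintro ⟨S, hS⟩
    exact hno ⟨_, (isSol_iff G S).1 hS, Finset.empty_subset _⟩

end TL
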