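import Mathlib

/-!
# Graph theory of the algorithm

Graphs on the vertices `0, …, n - 1` are graphs on `ℕ` all of whose edges have ends `< n`.
-/

namespace TL

open Relation Finset Classical

/-- all edges are inside `{0, …, n - 1}` -/
def Inn (n : ℕ) (G : SimpleGraph ℕ) : Prop := ∀ u v, G.Adj u v → u < n

theorem Inn.right {n : ℕ} {G : SimpleGraph ℕ} (h : Inn n G) {u v : ℕ} (huv : G.Adj u v) : v < n :=
  h v u huv.symm

/-- `y` is reachable from `x` through vertices outside `S` -/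
def Rch (G : SimpleGraph ℕ) (S : Finset ℕ) (x y : ℕ) : Prop :=
  ReflTransGen (fun a b => G.Adj a b ∧ b ∉ S) x y

/-- the component of `x` in `G - S` has a universal vertex -/
def Dom (G : SimpleGraph ℕ) (S : Finset ℕ) (x : ℕ) : Prop :=
  ∃ t, Rch G S x t ∧ ∀ y, Rch G S x y → y = t ∨ G.Adj t y

/-- all components of `G - S` have universal vertices -/
def Good (n : ℕ) (G : SimpleGraph ℕ) (S : Finset ℕ) : Prop := ∀ x < n, x ∉ S → Dom G S x

/-- solutions -/
def IsS (n k : ℕ) (G : SimpleGraph ℕ) (S : Finset ℕ) : Prop :=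
  (∀ v ∈ S, v < n) ∧ S.card ≤ k ∧ Good n G S

/-- some solution contains `S'` -/
def Sol (n k : ℕ) (G : SimpleGraph ℕ) (S' : Finset ℕ) : Prop := ∃ S, IsS n k G S ∧ S' ⊆ S

/-- neighbours -/
noncomputable def nb (n : ℕ) (G : SimpleGraph ℕ) (v : ℕ) : Finset ℕ :=
  (range n).filter (fun y => G.Adj v y)

/-- degree -/
noncomputable def dg (n : ℕ) (G : SimpleGraph ℕ) (v : ℕ) : ℕ := (nb n G v).card

/-- number of neighbours outside `S` -/
noncomputable def dp (n : ℕ) (G : SimpleGraph ℕ) (S : Finset ℕ) (v : ℕ) : ℕ := (nb n G v \ S).card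

/-- `N[c] - S` -/
noncomputable def Uc (n : ℕ) (G : SimpleGraph ℕ) (S : Finset ℕ) (c : ℕ) : Finset ℕ :=
  insert c (nb n G c \ S)

/-- no edge leaves `U` except to `S` -/
def Closed (G : SimpleGraph ℕ) (S U : Finset ℕ) : Prop :=
  ∀ a ∈ U, ∀ b, G.Adj a b → b ∈ U ∨ b ∈ S

/-- `c` maximises `dp` in `N[x] - S` -/
structure IsArg (n : ℕ) (G : SimpleGraph ℕ) (S : Finset ℕ) (x c : ℕ) : Prop where
  notin : c ∉ S
  mem : c = x ∨ G.Adj x c
  max : ∀ t, t ∉ S → (t = x ∨ G.Adj x t) → dp n G S t ≤ dp n G S c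

/-- `c` is the first vertex which maximises `dp` in `N[x] - S` -/
structure IsBest (n : ℕ) (G : SimpleGraph ℕ) (S : Finset ℕ) (x c : ℕ) : Prop where
  notin : c ∉ S
  mem : c = x ∨ G.Adj x c
  max : ∀ t, t ∉ S → (t = x ∨ G.Adj x t) →
    dp n G S t < dp n G S c ∨ (dp n G S t = dp n G S c ∧ c ≤ t)

theorem IsBest.isArg {n : ℕ} {G : SimpleGraph ℕ} {S : Finset ℕ} {x c : ℕ}
    (h : IsBest n G S x c) : IsArg n G S x c :=
  ⟨h.notin, h.mem, fun t h1 h2 => by rcases h.max t h1 h2 with h3 | h3 <;> omega⟩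

section basic

variable {n : ℕ} {G : SimpleGraph ℕ} {S : Finset ℕ}

theorem mem_nb (hG : Inn n G) {v y : ℕ} : y ∈ nb n G v ↔ G.Adj v y := by
  simp only [nb, mem_filter, mem_range]
  exact ⟨fun h => h.2, fun h => ⟨hG.right h, h⟩⟩

theorem mem_Uc (hG : Inn n G) {c v : ℕ} : v ∈ Uc n G S c ↔ v = c ∨ (G.Adj c v ∧ v ∉ S) := by
  simp only [Uc, mem_insert, mem_sdiff, mem_nb hG]

theorem self_mem_Uc (c : ℕ) : c ∈ Uc n G S c := mem_insert_self _ _

theorem card_Uc (hG : Inn n G) (c : ℕ) : (Uc n G S c).card = dp n G S c + 1 := by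
  rw [Uc, card_insert_of_notMem, dp]
  simp only [mem_sdiff, mem_nb hG, SimpleGraph.irrefl, false_and, not_false_eq_true]

theorem Uc_disjoint (hG : Inn n G) {c : ℕ} (hc : c ∉ S) : ∀ v ∈ Uc n G S c, v ∉ S := by
  intro v hv
  rw [mem_Uc hG] at hv
  rcases hv with rfl | h
  · exact hc
  · exact h.2

theorem Uc_lt (hG : Inn n G) {c : ℕ} (hc : c < n) : ∀ v ∈ Uc n G S c, v < n := by
  intro v hv
  rw [mem_Uc hG] at hv
  rcases hv with rfl | h
  · exact hc
  · exact hG.right h.1

theorem dp_le_dg (v : ℕ) : dp n G S v ≤ dg n G v := card_le_card sdiff_subset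

theorem dg_le_dp (v : ℕ) : dg n G v ≤ dp n G S v + S.card := by
  have := card_le_card_sdiff_add_card (s := nb n G v) (t := S)
  rw [dg, dp]; omega

theorem Rch.refl (x : ℕ) : Rch G S x x := ReflTransGen.refl

theorem Rch.trans {x y z : ℕ} (h : Rch G S x y) (h' : Rch G S y z) : Rch G S x z :=
  ReflTransGen.trans h h'

theorem Rch.step {x y : ℕ} (h : G.Adj x y) (hy : y ∉ S) : Rch G S x y :=
  ReflTransGen.single ⟨h, hy⟩

/-- reachable vertices are outside `S` -/
theorem Rch.notin {x y : ℕ} (h : Rch G S x y) (hx : x ∉ S) : y ∉ S := by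
  induction h with
  | refl => exact hx
  | tail _ h _ => exact h.2

theorem Rch.symm {x y : ℕ} (h : Rch G S x y) (hx : x ∉ S) : Rch G S y x := by
  induction h with
  | refl => exact Rch.refl _
  | @tail b c hb hbc ih =>
    exact (Rch.step hbc.1.symm (Rch.notin hb hx)).trans ih

theorem Rch.lt (hG : Inn n G) {x y : ℕ} (h : Rch G S x y) (hx : x < n) : y < n := by
  induction h with
  | refl => exact hx
  | tail _ h _ => exact hG.right h.1

/-- a closed set contains all it reaches -/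
theorem Closed.rch {U : Finset ℕ} (h : Closed G S U) {x y : ℕ} (hx : x ∈ U) (hxy : Rch G S x y) :
    y ∈ U := by
  induction hxy with
  | refl => exact hx
  | @tail b c _ hbc ih =>
    rcases h b ih c hbc.1 with h' | h'
    · exact h'
    · exact absurd h' hbc.2

/-- the dominated components are the same for all their vertices -/
theorem Dom.congr {x y : ℕ} (hx : x ∉ S) (h : Rch G S x y) (hd : Dom G S x) : Dom G S y := by
  obtain ⟨t, h1, h2⟩ := hd
  exact ⟨t, (h.symm hx).trans h1, fun z hz => h2 z (h.trans hz)⟩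

/-- the component of `x` is `U` if `U = N[c] - S` is closed -/
theorem rch_iff_of_closed (hG : Inn n G) {x c : ℕ} (hc : c ∉ S)
    (hxU : x ∈ Uc n G S c) (hcl : Closed G S (Uc n G S c)) {y : ℕ} :
    Rch G S x y ↔ y ∈ Uc n G S c := by
  constructor
  · intro h; exact hcl.rch hxU h
  · intro h
    have hx : x ∉ S := Uc_disjoint hG hc x hxU
    have h1 : Rch G S c x := by
      rw [mem_Uc hG] at hxU
      rcases hxU with rfl | h'
      · exact Rch.refl _
      · exact Rch.step h'.1 h'.2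
    have h2 : Rch G S c y := by
      rw [mem_Uc hG] at h
      rcases h with rfl | h'
      · exact Rch.refl _
      · exact Rch.step h'.1 h'.2
    exact (h1.symm hc).trans h2

theorem dom_of_closed (hG : Inn n G) {x c : ℕ} (hc : c ∉ S)
    (hxU : x ∈ Uc n G S c) (hcl : Closed G S (Uc n G S c)) : Dom G S x := by
  refine ⟨c, (rch_iff_of_closed hG hc hxU hcl).2 (self_mem_Uc c), fun y hy => ?_⟩
  have := (rch_iff_of_closed hG hc hxU hcl).1 hy
  rw [mem_Uc hG] at this
  rcases this with h | h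
  · exact Or.inl h
  · exact Or.inr h.1

end basic

end TL
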