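import Pool.Agent.W_3fea_h44.Defs

/-!
# Program logic with cost for the structured successor RAM
-/

namespace TL

namespace St

@[simp] theorem setR_r (s : St) (x v y : ℕ) : (s.setR x v).r y = if y = x then v else s.r y := by
  simp [setR, Function.update_apply]
@[simp] theorem setR_m (s : St) (x v : ℕ) : (s.setR x v).m = s.m := rfl
@[simp] theorem setM_r (s : St) (a i v : ℕ) : (s.setM a i v).r = s.r := rfl
@[simp] theorem setM_m (s : St) (a i v b : ℕ) :
    (s.setM a i v).m b = if b = a then Function.update (s.m a) i v else s.m b := by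
  simp only [setM, Function.update_apply]

theorem ext' {s t : St} (h1 : ∀ x, s.r x = t.r x) (h2 : ∀ a i, s.m a i = t.m a i) : s = t := by
  cases s; cases t
  congr
  · funext x; exact h1 x
  · funext a i; exact h2 a i

end St

namespace Exp
@[simp] theorem ev_const (s : St) (n : ℕ) : (const n).ev s = n := rfl
@[simp] theorem ev_reg (s : St) (x : ℕ) : (reg x).ev s = s.r x := rfl
@[simp] theorem ev_get (s : St) (a : ℕ) (e : Exp) : (get a e).ev s = s.m a (e.ev s) := rfl
@[simp] theorem ev_inc (s : St) (e : Exp) : (inc e).ev s = e.ev s + 1 := rfl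
@[simp] theorem ev_dec (s : St) (e : Exp) : (dec e).ev s = e.ev s - 1 := rfl
end Exp

namespace Cond
@[simp] theorem ev_lt (s : St) (e f : Exp) : (lt e f).ev s = decide (e.ev s < f.ev s) := rfl
@[simp] theorem ev_eq (s : St) (e f : Exp) : (eq e f).ev s = decide (e.ev s = f.ev s) := rfl
@[simp] theorem ev_not (s : St) (b : Cond) : (not b).ev s = ! b.ev s := rfl
@[simp] theorem ev_and (s : St) (b c : Cond) : (and b c).ev s = (b.ev s && c.ev s) := rfl
@[simp] theorem ev_or (s : St) (b c : Cond) : (or b c).ev s = (b.ev s || c.ev s) := rfl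
end Cond

/-- `Run c s t s'`: the program `c` started in state `s` halts in state `s'` after `t` operations. -/
inductive Run : Cmd → St → ℕ → St → Prop
  | skip (s : St) : Run Cmd.skip s 1 s
  | set (x : ℕ) (e : Exp) (s : St) : Run (Cmd.set x e) s (e.cost + 1) (s.setR x (e.ev s))
  | put (a : ℕ) (i e : Exp) (s : St) :
      Run (Cmd.put a i e) s (i.cost + e.cost + 1) (s.setM a (i.ev s) (e.ev s))
  | seq {c d : Cmd} {s s1 s2 : St} {t u : ℕ} :
      Run c s t s1 → Run d s1 u s2 → Run (Cmd.seq c d) s (t + u) s2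
  | iteT {b : Cond} {c d : Cmd} {s s' : St} {t : ℕ} :
      b.ev s = true → Run c s t s' → Run (Cmd.ite b c d) s (b.cost + 1 + t) s'
  | iteF {b : Cond} {c d : Cmd} {s s' : St} {t : ℕ} :
      b.ev s = false → Run d s t s' → Run (Cmd.ite b c d) s (b.cost + 1 + t) s'
  | loopF {b : Cond} {c : Cmd} {s : St} :
      b.ev s = false → Run (Cmd.loop b c) s (b.cost + 1) s
  | loopT {b : Cond} {c : Cmd} {s s1 s2 : St} {t u : ℕ} :
      b.ev s = true → Run c s t s1 → Run (Cmd.loop b c) s1 u s2 →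
      Run (Cmd.loop b c) s (b.cost + 1 + t + u) s2

/-- The machine is deterministic. -/
theorem Run.det {c : Cmd} {s s1 s2 : St} {t u : ℕ} (h1 : Run c s t s1) (h2 : Run c s u s2) :
    t = u ∧ s1 = s2 := by
  induction h1 generalizing u s2 with
  | skip => cases h2; exact ⟨rfl, rfl⟩
  | set => cases h2; exact ⟨rfl, rfl⟩
  | put => cases h2; exact ⟨rfl, rfl⟩
  | seq _ _ ih1 ih2 =>
    cases h2 with
    | seq a b =>
      obtain ⟨rfl, rfl⟩ := ih1 a
      obtain ⟨rfl, rfl⟩ := ih2 b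
      exact ⟨rfl, rfl⟩
  | iteT hb _ ih =>
    cases h2 with
    | iteT hb' a => obtain ⟨rfl, rfl⟩ := ih a; exact ⟨rfl, rfl⟩
    | iteF hb' a => rw [hb] at hb'; exact absurd hb' (by simp)
  | iteF hb _ ih =>
    cases h2 with
    | iteF hb' a => obtain ⟨rfl, rfl⟩ := ih a; exact ⟨rfl, rfl⟩
    | iteT hb' a => rw [hb] at hb'; exact absurd hb' (by simp)
  | loopF hb =>
    cases h2 with
    | loopF => exact ⟨rfl, rfl⟩
    | loopT hb' a b => rw [hb] at hb'; exact absurd hb' (by simp)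
  | loopT hb _ _ ih1 ih2 =>
    cases h2 with
    | loopF hb' => rw [hb] at hb'; exact absurd hb' (by simp)
    | loopT hb' a b =>
      obtain ⟨rfl, rfl⟩ := ih1 a
      obtain ⟨rfl, rfl⟩ := ih2 b
      exact ⟨rfl, rfl⟩

/-! ### Frames -/

/-- registers written by a program -/
def Cmd.wr : Cmd → List ℕ
  | .skip => []
  | .set x _ => [x]
  | .put _ _ _ => []
  | .seq c d => c.wr ++ d.wr
  | .ite _ c d => c.wr ++ d.wr
  | .loop _ c => c.wr

/-- arrays written by a program -/
def Cmd.wa : Cmd → List ℕ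
  | .skip => []
  | .set _ _ => []
  | .put a _ _ => [a]
  | .seq c d => c.wa ++ d.wa
  | .ite _ c d => c.wa ++ d.wa
  | .loop _ c => c.wa

/-- `Fr wr wa s s'`: only the registers in `wr` and the arrays in `wa` may have changed. -/
structure Fr (wr wa : List ℕ) (s s' : St) : Prop where
  r : ∀ x, x ∉ wr → s'.r x = s.r x
  m : ∀ a, a ∉ wa → s'.m a = s.m a

theorem Fr.refl {wr wa : List ℕ} (s : St) : Fr wr wa s s := ⟨fun _ _ => rfl, fun _ _ => rfl⟩

theorem Fr.trans {wr wa : List ℕ} {s s' s'' : St} (h : Fr wr wa s s') (h' : Fr wr wa s' s'') :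
    Fr wr wa s s'' :=
  ⟨fun x hx => (h'.r x hx).trans (h.r x hx), fun a ha => (h'.m a ha).trans (h.m a ha)⟩

theorem Fr.mono {wr wa wr' wa' : List ℕ} {s s' : St} (h : Fr wr wa s s')
    (h1 : ∀ x, x ∈ wr → x ∈ wr') (h2 : ∀ x, x ∈ wa → x ∈ wa') : Fr wr' wa' s s' :=
  ⟨fun x hx => h.r x (fun h' => hx (h1 x h')), fun a ha => h.m a (fun h' => ha (h2 a h'))⟩

theorem Run.frame {c : Cmd} {s s' : St} {t : ℕ} (h : Run c s t s') : Fr c.wr c.wa s s' := by
  induction h with
  | skip => exact Fr.refl _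
  | set x e s =>
    refine ⟨fun y hy => ?_, fun a _ => rfl⟩
    simp only [Cmd.wr, List.mem_singleton] at hy
    simp [hy]
  | put a i e s =>
    refine ⟨fun y _ => rfl, fun b hb => ?_⟩
    simp only [Cmd.wa, List.mem_singleton] at hb
    simp [hb]
  | seq _ _ ih1 ih2 =>
    exact (ih1.mono (by simp +contextual [Cmd.wr]) (by simp +contextual [Cmd.wa])).trans
      (ih2.mono (by simp +contextual [Cmd.wr]) (by simp +contextual [Cmd.wa]))
  | iteT _ _ ih =>
    exact ih.mono (by simp +contextual [Cmd.wr]) (by simp +contextual [Cmd.wa])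
  | iteF _ _ ih =>
    exact ih.mono (by simp +contextual [Cmd.wr]) (by simp +contextual [Cmd.wa])
  | loopF => exact Fr.refl _
  | loopT _ _ _ ih1 ih2 => exact ih1.trans ih2

/-! ### Total correctness with cost -/

/-- From state `s` the program `c` halts within `B` operations in a state satisfying `Q`. -/
def Tri (s : St) (c : Cmd) (B : ℕ) (Q : St → Prop) : Prop :=
  ∃ s' t, Run c s t s' ∧ t ≤ B ∧ Q s'

theorem Tri.mono {s : St} {c : Cmd} {B B' : ℕ} {Q Q' : St → Prop} (h : Tri s c B Q)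
    (hB : B ≤ B') (hQ : ∀ s', Q s' → Q' s') : Tri s c B' Q' := by
  obtain ⟨s', t, h1, h2, h3⟩ := h
  exact ⟨s', t, h1, h2.trans hB, hQ _ h3⟩

theorem Tri.cost {s : St} {c : Cmd} {B B' : ℕ} {Q : St → Prop} (h : Tri s c B Q)
    (hB : B ≤ B') : Tri s c B' Q := h.mono hB (fun _ h => h)

theorem Tri.imp {s : St} {c : Cmd} {B : ℕ} {Q Q' : St → Prop} (h : Tri s c B Q)
    (hQ : ∀ s', Q s' → Q' s') : Tri s c B Q' := h.mono le_rfl hQ

/-- add the frame condition to the post-condition -/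
theorem Tri.fr {s : St} {c : Cmd} {B : ℕ} {Q : St → Prop} (h : Tri s c B Q) :
    Tri s c B (fun s' => Q s' ∧ Fr c.wr c.wa s s') := by
  obtain ⟨s', t, h1, h2, h3⟩ := h
  exact ⟨s', t, h1, h2, h3, h1.frame⟩

theorem Tri.skip {s : St} {B : ℕ} {Q : St → Prop} (hQ : Q s) (hB : 1 ≤ B) : Tri s .skip B Q :=
  ⟨s, 1, Run.skip s, hB, hQ⟩

theorem Tri.set {s : St} {x : ℕ} {e : Exp} {B : ℕ} {Q : St → Prop}
    (hQ : Q (s.setR x (e.ev s))) (hB : e.cost + 1 ≤ B) : Tri s (.set x e) B Q :=
  ⟨_, _, Run.set x e s, hB, hQ⟩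

theorem Tri.put {s : St} {a : ℕ} {i e : Exp} {B : ℕ} {Q : St → Prop}
    (hQ : Q (s.setM a (i.ev s) (e.ev s))) (hB : i.cost + e.cost + 1 ≤ B) :
    Tri s (.put a i e) B Q :=
  ⟨_, _, Run.put a i e s, hB, hQ⟩

theorem Tri.seq {s : St} {c d : Cmd} {B1 B2 B : ℕ} {Q : St → Prop}
    (h : Tri s c B1 (fun s1 => Tri s1 d B2 Q)) (hB : B1 + B2 ≤ B) : Tri s (.seq c d) B Q := by
  obtain ⟨s1, t, h1, h2, s2, u, h3, h4, h5⟩ := h
  exact ⟨s2, t + u, Run.seq h1 h3, by omega, h5⟩

theorem Tri.ite {s : St} {b : Cond} {c d : Cmd} {B : ℕ} {Q : St → Prop}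
    (hT : b.ev s = true → Tri s c B Q) (hF : b.ev s = false → Tri s d B Q) :
    Tri s (.ite b c d) (b.cost + 1 + B) Q := by
  cases hb : b.ev s with
  | true =>
    obtain ⟨s', t, h1, h2, h3⟩ := hT hb
    exact ⟨s', _, Run.iteT hb h1, by omega, h3⟩
  | false =>
    obtain ⟨s', t, h1, h2, h3⟩ := hF hb
    exact ⟨s', _, Run.iteF hb h1, by omega, h3⟩

/-- While loops, with an invariant and a potential which pays for the iterations. -/
theorem Tri.loop {b : Cond} {c : Cmd} (I : St → Prop) (Φ : St → ℕ) {Q : St → Prop}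
    (step : ∀ s, I s → b.ev s = true →
      ∃ B, Tri s c B (fun s' => I s' ∧ b.cost + 1 + B + Φ s' ≤ Φ s))
    {s : St} (h0 : I s) (post : ∀ s', I s' → b.ev s' = false → Q s') :
    Tri s (.loop b c) (Φ s + b.cost + 1) Q := by
  have key : ∀ N : ℕ, ∀ s, Φ s ≤ N → I s → Tri s (.loop b c) (Φ s + b.cost + 1) Q := by
    intro N
    induction N with
    | zero =>
      intro s hN hI
      cases hb : b.ev s with
      | false => exact ⟨s, _, Run.loopF hb, by omega, post s hI hb⟩
      | true =>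
        obtain ⟨B, s', t, _, _, _, h4⟩ := step s hI hb
        omega
    | succ N ih =>
      intro s hN hI
      cases hb : b.ev s with
      | false => exact ⟨s, _, Run.loopF hb, by omega, post s hI hb⟩
      | true =>
        obtain ⟨B, s', t, h1, h2, h3, h4⟩ := step s hI hb
        obtain ⟨s'', u, k1, k2, k3⟩ := ih s' (by omega) h3
        exact ⟨s'', _, Run.loopT hb h1 k1, by omega, k3⟩
  exact key (Φ s) s le_rfl h0

/-! ### Loop-free programs -/

/-- no loops -/
def Cmd.lf : Cmd → Bool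
  | .skip => true
  | .set _ _ => true
  | .put _ _ _ => true
  | .seq c d => c.lf && d.lf
  | .ite _ c d => c.lf && d.lf
  | .loop _ _ => false

/-- effect of a loop-free program -/
def Cmd.ex : Cmd → St → St
  | .skip, s => s
  | .set x e, s => s.setR x (e.ev s)
  | .put a i e, s => s.setM a (i.ev s) (e.ev s)
  | .seq c d, s => d.ex (c.ex s)
  | .ite b c d, s => if b.ev s = true then c.ex s else d.ex s
  | .loop _ _, s => s

/-- upper bound for the cost of a loop-free program -/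
def Cmd.mc : Cmd → ℕ
  | .skip => 1
  | .set _ e => e.cost + 1
  | .put _ i e => i.cost + e.cost + 1
  | .seq c d => c.mc + d.mc
  | .ite b c d => b.cost + 1 + max c.mc d.mc
  | .loop _ _ => 0

theorem Cmd.lf_run : ∀ (c : Cmd) (s : St), c.lf = true → ∃ t, t ≤ c.mc ∧ Run c s t (c.ex s)
  | .skip, s, _ => ⟨1, le_rfl, Run.skip s⟩
  | .set x e, s, _ => ⟨_, le_rfl, Run.set x e s⟩
  | .put a i e, s, _ => ⟨_, le_rfl, Run.put a i e s⟩
  | .seq c d, s, h => by
    simp only [Cmd.lf, Bool.and_eq_true] at h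
    obtain ⟨t, ht, h1⟩ := Cmd.lf_run c s h.1
    obtain ⟨u, hu, h2⟩ := Cmd.lf_run d (c.ex s) h.2
    exact ⟨t + u, by simp only [Cmd.mc]; omega, Run.seq h1 h2⟩
  | .ite b c d, s, h => by
    simp only [Cmd.lf, Bool.and_eq_true] at h
    cases hb : b.ev s with
    | true =>
      obtain ⟨t, ht, h1⟩ := Cmd.lf_run c s h.1
      refine ⟨b.cost + 1 + t, ?_, ?_⟩
      · simp only [Cmd.mc]; omega
      · simp only [Cmd.ex, hb, if_true]; exact Run.iteT hb h1
    | false =>
      obtain ⟨t, ht, h1⟩ := Cmd.lf_run d s h.2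
      refine ⟨b.cost + 1 + t, ?_, ?_⟩
      · simp only [Cmd.mc]; omega
      · simp only [Cmd.ex, hb, Bool.false_eq_true, if_false]; exact Run.iteF hb h1
  | .loop _ _, s, h => by simp [Cmd.lf] at h

/-- loop-free programs: compute the final state by `simp [Cmd.ex]` -/
theorem Tri.lf {s : St} {c : Cmd} {Q : St → Prop} (h : c.lf = true) (hQ : Q (c.ex s)) :
    Tri s c c.mc Q := by
  obtain ⟨t, ht, h1⟩ := c.lf_run s h
  exact ⟨_, t, h1, ht, hQ⟩

/-! ### Counting loops -/

/-- `for p := lo, lo + 1, …, hi - 1 do c` where `hi` is a register -/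
def Cmd.for_ (p : ℕ) (lo : Exp) (hi : ℕ) (c : Cmd) : Cmd :=
  .seq (.set p lo) (.loop (.lt (.reg p) (.reg hi)) (.seq c (.set p (.inc (.reg p)))))

/-- Counting loops.  `I j` is the invariant before the iteration with `p = j`; it must not depend
on register `p`. -/
theorem Tri.for_ {p hi : ℕ} {lo : Exp} {c : Cmd} (I : ℕ → St → Prop) (B : ℕ → ℕ)
    {s : St} {a N : ℕ} {Q : St → Prop} (ha : lo.ev s = a) (hN : s.r hi = N) (haN : a ≤ N)
    (hp : p ≠ hi) (hI : ∀ j s v, I j s → I j (s.setR p v)) (h0 : I a s)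
    (step : ∀ j, a ≤ j → j < N → ∀ s, I j s → s.r p = j → s.r hi = N →
      Tri s c (B j) (fun s' => I (j + 1) s' ∧ s'.r p = j ∧ s'.r hi = N))
    (post : ∀ s', I N s' → s'.r p = N → s'.r hi = N → Q s') :
    Tri s (.for_ p lo hi c) (lo.cost + 5 + ∑ j ∈ Finset.Ico a N, (B j + 7)) Q := by
  have hloop : ∀ s0, (∃ j, a ≤ j ∧ j ≤ N ∧ s0.r p = j ∧ s0.r hi = N ∧ I j s0) →
      Tri s0 (.loop (.lt (.reg p) (.reg hi)) (.seq c (.set p (.inc (.reg p)))))
        ((∑ i ∈ Finset.Ico (s0.r p) N, (B i + 7)) + (Cond.lt (.reg p) (.reg hi)).cost + 1) Q := by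
    intro s0 h0'
    refine Tri.loop (fun s0 => ∃ j, a ≤ j ∧ j ≤ N ∧ s0.r p = j ∧ s0.r hi = N ∧ I j s0)
      (fun s0 => ∑ i ∈ Finset.Ico (s0.r p) N, (B i + 7)) ?_ h0' ?_
    · rintro s1 ⟨j, h1, h2, h3, h4, h5⟩ hb
      simp only [Cond.ev_lt, Exp.ev_reg, h3, h4, decide_eq_true_eq] at hb
      refine ⟨B j + 3, Tri.seq (B1 := B j) (B2 := 3) ?_ le_rfl⟩
      refine (step j h1 hb s1 h5 h3 h4).imp ?_
      rintro s2 ⟨k1, k2, k3⟩
      refine Tri.set ⟨⟨j + 1, by omega, by omega, ?_, ?_, ?_⟩, ?_⟩ (by simp [Exp.cost])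
      · simp [k2]
      · simp [hp.symm, k3]
      · exact hI _ _ _ k1
      · simp only [St.setR_r, if_true, Exp.ev_inc, Exp.ev_reg, k2, Cond.cost, Exp.cost, h3]
        rw [Finset.sum_eq_sum_Ico_succ_bot hb]
        omega
    · rintro s1 ⟨j, h1, h2, h3, h4, h5⟩ hb
      simp only [Cond.ev_lt, Exp.ev_reg, h3, h4, decide_eq_false_iff_not, not_lt] at hb
      have : j = N := by omega
      subst this
      exact post s1 h5 h3 h4
  refine Tri.seq (B1 := lo.cost + 1)
    (B2 := (∑ i ∈ Finset.Ico a N, (B i + 7)) + (Cond.lt (.reg p) (.reg hi)).cost + 1) ?_ ?_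
  · refine Tri.set ?_ le_rfl
    have := hloop (s.setR p (lo.ev s)) ⟨a, le_rfl, haN, by simp [ha], by simp [hp.symm, hN],
      hI _ _ _ h0⟩
    simpa [ha] using this
  · simp only [Cond.cost, Exp.cost]; omega

/-- Counting loops starting at `0` with a constant bound for the body. -/
theorem Tri.for0 {p hi : ℕ} {c : Cmd} (I : ℕ → St → Prop) (B : ℕ)
    {s : St} {N : ℕ} {Q : St → Prop} (hN : s.r hi = N)
    (hp : p ≠ hi) (hI : ∀ j s v, I j s → I j (s.setR p v)) (h0 : I 0 s)
    (step : ∀ j, j < N → ∀ s, I j s → s.r p = j → s.r hi = N →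
      Tri s c B (fun s' => I (j + 1) s' ∧ s'.r p = j ∧ s'.r hi = N))
    (post : ∀ s', I N s' → s'.r p = N → s'.r hi = N → Q s') :
    Tri s (.for_ p (.const 0) hi c) (6 + (B + 7) * N) Q := by
  refine (Tri.for_ (a := 0) I (fun _ => B) (by simp) hN (by omega) hp hI h0
    (fun j _ hj s h1 h2 h3 => step j hj s h1 h2 h3) post).cost ?_
  simp [Exp.cost, mul_comm]

/-! ### Word size -/

/-- largest constant of an expression -/
def Exp.cm : Exp → ℕ
  | .const n => n
  | .reg _ => 0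
  | .get _ e => e.cm
  | .inc e => e.cm
  | .dec e => e.cm

/-- largest constant of a test -/
def Cond.cm : Cond → ℕ
  | .lt e f => max e.cm f.cm
  | .eq e f => max e.cm f.cm
  | .not b => b.cm
  | .and b c => max b.cm c.cm
  | .or b c => max b.cm c.cm

/-- largest constant of a program -/
def Cmd.cm : Cmd → ℕ
  | .skip => 0
  | .set _ e => e.cm
  | .put _ i e => max i.cm e.cm
  | .seq c d => max c.cm d.cm
  | .ite b c d => max b.cm (max c.cm d.cm)
  | .loop b c => max b.cm c.cm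

theorem Exp.ev_le {s : St} {B : ℕ} (hr : ∀ x, s.r x ≤ B) (hm : ∀ a i, s.m a i ≤ B) :
    ∀ e : Exp, e.cm ≤ B → e.ev s ≤ B + e.cost
  | .const n, h => by simp only [Exp.cm] at h; simp only [Exp.ev_const]; omega
  | .reg x, _ => by have := hr x; simp only [Exp.ev_reg]; omega
  | .get a e, _ => by have := hm a (e.ev s); simp only [Exp.ev_get]; omega
  | .inc e, h => by
    have := Exp.ev_le hr hm e h
    simp only [Exp.ev_inc, Exp.cost]; omega
  | .dec e, h => by
    have := Exp.ev_le hr hm e h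
    simp only [Exp.ev_dec, Exp.cost]; omega

theorem Exp.bd_of {s : St} {B W : ℕ} (hr : ∀ x, s.r x ≤ B) (hm : ∀ a i, s.m a i ≤ B) :
    ∀ e : Exp, e.cm ≤ B → B + e.cost ≤ W → e.bd W s
  | .const n, h, h' => by simp only [Exp.cm] at h; simp only [Exp.bd]; omega
  | .reg x, _, h' => by have := hr x; simp only [Exp.bd]; omega
  | .get a e, h, h' => by
    have := hm a (e.ev s)
    simp only [Exp.cost] at h'
    exact ⟨Exp.bd_of hr hm e h (by omega), by omega⟩
  | .inc e, h, h' => by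
    have := Exp.ev_le hr hm e h
    simp only [Exp.cost] at h'
    exact ⟨Exp.bd_of hr hm e h (by omega), by omega⟩
  | .dec e, h, h' => by
    simp only [Exp.cost] at h'
    exact Exp.bd_of hr hm e h (by omega)

theorem Cond.bd_of {s : St} {B W : ℕ} (hr : ∀ x, s.r x ≤ B) (hm : ∀ a i, s.m a i ≤ B) :
    ∀ b : Cond, b.cm ≤ B → B + b.cost ≤ W → b.bd W s
  | .lt e f, h, h' => by
    simp only [Cond.cm, Cond.cost] at h h'
    exact ⟨Exp.bd_of hr hm e (by omega) (by omega), Exp.bd_of hr hm f (by omega) (by omega)⟩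
  | .eq e f, h, h' => by
    simp only [Cond.cm, Cond.cost] at h h'
    exact ⟨Exp.bd_of hr hm e (by omega) (by omega), Exp.bd_of hr hm f (by omega) (by omega)⟩
  | .not b, h, h' => by
    simp only [Cond.cm, Cond.cost] at h h'
    exact Cond.bd_of hr hm b (by omega) (by omega)
  | .and b c, h, h' => by
    simp only [Cond.cm, Cond.cost] at h h'
    exact ⟨Cond.bd_of hr hm b (by omega) (by omega), Cond.bd_of hr hm c (by omega) (by omega)⟩
  | .or b c, h, h' => by
    simp only [Cond.cm, Cond.cost] at h h'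
    exact ⟨Cond.bd_of hr hm b (by omega) (by omega), Cond.bd_of hr hm c (by omega) (by omega)⟩

theorem Exp.bd_mono {s : St} {W W' : ℕ} (hW : W ≤ W') : ∀ e : Exp, e.bd W s → e.bd W' s
  | .const _, h => le_trans h hW
  | .reg _, h => le_trans h hW
  | .get _ e, h => ⟨Exp.bd_mono hW e h.1, le_trans h.2 hW⟩
  | .inc e, h => ⟨Exp.bd_mono hW e h.1, le_trans h.2 hW⟩
  | .dec e, h => Exp.bd_mono hW e h

theorem Cond.bd_mono {s : St} {W W' : ℕ} (hW : W ≤ W') : ∀ b : Cond, b.bd W s → b.bd W' s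
  | .lt e f, h => ⟨Exp.bd_mono hW e h.1, Exp.bd_mono hW f h.2⟩
  | .eq e f, h => ⟨Exp.bd_mono hW e h.1, Exp.bd_mono hW f h.2⟩
  | .not b, h => Cond.bd_mono hW b h
  | .and b c, h => ⟨Cond.bd_mono hW b h.1, Cond.bd_mono hW c h.2⟩
  | .or b c, h => ⟨Cond.bd_mono hW b h.1, Cond.bd_mono hW c h.2⟩

theorem Exec.mono {c : Cmd} {s s' : St} {t W W' : ℕ} (hW : W ≤ W') (h : Exec W c s t s') :
    Exec W' c s t s' := by
  induction h with
  | skip s => exact Exec.skip s
  | set x e s h => exact Exec.set x e s (Exp.bd_mono hW e h)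
  | put a i e s h h' => exact Exec.put a i e s (Exp.bd_mono hW i h) (Exp.bd_mono hW e h')
  | seq _ _ ih1 ih2 => exact Exec.seq ih1 ih2
  | iteT hb h _ ih => exact Exec.iteT (Cond.bd_mono hW _ hb) h ih
  | iteF hb h _ ih => exact Exec.iteF (Cond.bd_mono hW _ hb) h ih
  | loopF hb h => exact Exec.loopF (Cond.bd_mono hW _ hb) h
  | loopT hb h _ _ ih1 ih2 => exact Exec.loopT (Cond.bd_mono hW _ hb) h ih1 ih2

/-- In `t` operations the numbers grow by at most `t`. -/
theorem Run.exec {c : Cmd} {s s' : St} {t : ℕ} (h : Run c s t s') : ∀ {B : ℕ}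
    (_ : ∀ x, s.r x ≤ B) (_ : ∀ a i, s.m a i ≤ B) (_ : c.cm ≤ B),
    Exec (B + t) c s t s' ∧ (∀ x, s'.r x ≤ B + t) ∧ ∀ a i, s'.m a i ≤ B + t := by
  induction h with
  | skip s =>
    intro B hr hm _
    exact ⟨Exec.skip s, fun x => (hr x).trans (by omega), fun a i => (hm a i).trans (by omega)⟩
  | set x e s =>
    intro B hr hm hc
    simp only [Cmd.cm] at hc
    have h1 := Exp.ev_le hr hm e hc
    refine ⟨Exec.set x e s (Exp.bd_of hr hm e hc (by omega)), fun y => ?_,
      fun a i => (hm a i).trans (by omega)⟩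
    rw [St.setR_r]
    split_ifs
    · omega
    · exact (hr y).trans (by omega)
  | put a i e s =>
    intro B hr hm hc
    simp only [Cmd.cm] at hc
    have h1 := Exp.ev_le hr hm e (by omega)
    refine ⟨Exec.put a i e s (Exp.bd_of hr hm i (by omega) (by omega))
      (Exp.bd_of hr hm e (by omega) (by omega)), fun y => (hr y).trans (by omega), fun b j => ?_⟩
    rw [St.setM_m]
    split_ifs
    · rw [Function.update_apply]
      split_ifs
      · omega
      · exact (hm a j).trans (by omega)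
    · exact (hm b j).trans (by omega)
  | seq h1 h2 ih1 ih2 =>
    intro B hr hm hc
    simp only [Cmd.cm] at hc
    obtain ⟨a1, a2, a3⟩ := ih1 hr hm (by omega)
    obtain ⟨b1, b2, b3⟩ := ih2 a2 a3 (by omega)
    refine ⟨Exec.seq (a1.mono (by omega)) (b1.mono (by omega)), fun x => (b2 x).trans (by omega),
      fun a i => (b3 a i).trans (by omega)⟩
  | @iteT b c d s s' t hb h ih =>
    intro B hr hm hc
    simp only [Cmd.cm] at hc
    obtain ⟨a1, a2, a3⟩ := ih hr hm (by omega)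
    exact ⟨Exec.iteT (Cond.bd_of hr hm b (by omega) (by omega)) hb (a1.mono (by omega)),
      fun x => (a2 x).trans (by omega), fun a i => (a3 a i).trans (by omega)⟩
  | @iteF b c d s s' t hb h ih =>
    intro B hr hm hc
    simp only [Cmd.cm] at hc
    obtain ⟨a1, a2, a3⟩ := ih hr hm (by omega)
    exact ⟨Exec.iteF (Cond.bd_of hr hm b (by omega) (by omega)) hb (a1.mono (by omega)),
      fun x => (a2 x).trans (by omega), fun a i => (a3 a i).trans (by omega)⟩
  | @loopF b c s hb =>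
    intro B hr hm hc
    simp only [Cmd.cm] at hc
    exact ⟨Exec.loopF (Cond.bd_of hr hm b (by omega) (by omega)) hb,
      fun x => (hr x).trans (by omega), fun a i => (hm a i).trans (by omega)⟩
  | @loopT b c s s1 s2 t u hb h1 h2 ih1 ih2 =>
    intro B hr hm hc
    simp only [Cmd.cm] at hc
    obtain ⟨a1, a2, a3⟩ := ih1 hr hm (by omega)
    obtain ⟨b1, b2, b3⟩ := ih2 a2 a3 (by simp only [Cmd.cm]; omega)
    exact ⟨Exec.loopT (Cond.bd_of hr hm b (by omega) (by omega)) hb (a1.mono (by omega))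
      (b1.mono (by omega)), fun x => (b2 x).trans (by omega),
      fun a i => (b3 a i).trans (by omega)⟩

end TL
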