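import Pool.Agent.W_3fea_h44.NodeDefs

/-!
# The log of the closed exams; amortisation
-/

namespace TL

open Relation Finset Classical

variable {n m k : ℕ} {G : SimpleGraph ℕ}

/-- soundness of the records -/
theorem memo_sound (hG : Inn n G) {S1 S2 : Finset ℕ} {c : ℕ} (h1 : c ∉ S1) (h2 : c ∉ S2)
    (hcl : Closed G S1 (Uc n G S1 c))
    (hW : ∀ s ∈ S1, (∃ a ∈ Uc n G S1 c, G.Adj a s) → s ∈ S2) :
    Closed G S2 (Uc n G S2 c) := by
  intro u hu y huy
  by_cases hy2 : y ∈ S2
  · exact Or.inr hy2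
  left
  have hu1 : u ∈ Uc n G S1 c := by
    rw [mem_Uc hG] at hu ⊢
    rcases hu with hu | hu
    · exact Or.inl hu
    · by_cases hu1 : u ∈ S1
      · exact absurd (hW u hu1 ⟨c, self_mem_Uc c, hu.1⟩) hu.2
      · exact Or.inr ⟨hu.1, hu1⟩
  rcases hcl u hu1 y huy with h | h
  · rw [mem_Uc hG] at h ⊢
    rcases h with h | h
    · exact Or.inl h
    · exact Or.inr ⟨h.1, hy2⟩
  · exact absurd (hW y h ⟨u, hu1, huy⟩) hy2

/-- `c` is the first vertex of maximal `dp` of the whole set `N[c] - S` -/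
def IsTop (n : ℕ) (G : SimpleGraph ℕ) (S : Finset ℕ) (c : ℕ) : Prop :=
  ∀ t ∈ Uc n G S c, dp n G S t < dp n G S c ∨ (dp n G S t = dp n G S c ∧ c ≤ t)

theorem IsBest.isTop (hG : Inn n G) {S : Finset ℕ} {x c : ℕ} (hx : x ∉ S)
    (h : IsBest n G S x c) (hcl : Closed G S (Uc n G S c)) : IsTop n G S c := by
  intro t ht
  have hcS := h.notin
  have htS : t ∉ S := Uc_disjoint hG hcS t ht
  have hsub : nb n G t \ S ⊆ (Uc n G S c).erase t := by
    intro y hy
    rw [mem_sdiff, mem_nb hG] at hy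
    rw [mem_erase]
    refine ⟨fun he => ?_, ?_⟩
    · subst he
      exact G.irrefl hy.1
    · rcases hcl t ht y hy.1 with h1 | h1
      · exact h1
      · exact absurd h1 hy.2
  have hcard : ((Uc n G S c).erase t).card = dp n G S c := by
    rw [card_erase_of_mem ht, card_Uc hG]
    rfl
  have hle : dp n G S t ≤ dp n G S c := by
    rw [← hcard]
    exact card_le_card hsub
  rcases lt_or_eq_of_le hle with h1 | h1
  · exact Or.inl h1
  have heq : nb n G t \ S = (Uc n G S c).erase t := by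
    refine eq_of_subset_of_card_le hsub ?_
    rw [hcard, ← h1]
    exact le_rfl
  have hxU : x ∈ Uc n G S c := by
    rw [mem_Uc hG]
    rcases h.mem with h2 | h2
    · exact Or.inl h2.symm
    · exact Or.inr ⟨h2.symm, hx⟩
  refine h.max t htS ?_
  by_cases htx : t = x
  · exact Or.inl htx
  · right
    have h3 : x ∈ nb n G t \ S := by
      rw [heq, mem_erase]
      exact ⟨fun he => htx he.symm, hxU⟩
    rw [mem_sdiff, mem_nb hG] at h3
    exact h3.1.symm

/-- two closed exams whose sets avoid the state of each other have disjoint sets, or the same `c`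
and the neighbours of the first set are contained in the second state -/
theorem same_exam (hG : Inn n G) {S1 S2 : Finset ℕ} {c1 c2 : ℕ} (h1 : c1 ∉ S1) (h2 : c2 ∉ S2)
    (hcl1 : Closed G S1 (Uc n G S1 c1)) (hcl2 : Closed G S2 (Uc n G S2 c2))
    (ht1 : IsTop n G S1 c1) (ht2 : IsTop n G S2 c2)
    (hd1 : Disjoint (Uc n G S1 c1) S2) (hd2 : Disjoint (Uc n G S2 c2) S1)
    (hnd : ¬ Disjoint (Uc n G S1 c1) (Uc n G S2 c2)) :
    c1 = c2 ∧ ∀ w ∈ S1, (∃ a ∈ Uc n G S1 c1, G.Adj a w) → w ∈ S2 := by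
  rw [Finset.not_disjoint_iff] at hnd
  obtain ⟨b, hb1, hb2⟩ := hnd
  have hsub : ∀ (S T : Finset ℕ) (c d : ℕ), c ∉ S → Closed G T (Uc n G T d) → d ∉ T →
      Disjoint (Uc n G S c) T → b ∈ Uc n G S c → b ∈ Uc n G T d →
      Uc n G S c ⊆ Uc n G T d := by
    intro S T c d hc hcl hd hdis hbS hbT v hv
    have hav : ∀ w ∈ Uc n G S c, w ∉ T := fun w hw hw' => Finset.disjoint_left.1 hdis hw hw'
    have star : ∀ w ∈ Uc n G S c, Rch G T c w := by
      intro w hw
      have hw' := (mem_Uc hG).1 hw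
      rcases hw' with h | h
      · subst h; exact Rch.refl _
      · exact Rch.step h.1 (hav w hw)
    have h3 : Rch G T b v := ((star b hbS).symm (hav c (self_mem_Uc c))).trans (star v hv)
    exact hcl.rch hbT h3
  have e1 := hsub S1 S2 c1 c2 h1 hcl2 h2 hd1 hb1 hb2
  have e2 := hsub S2 S1 c2 c1 h2 hcl1 h1 hd2 hb2 hb1
  have hU : Uc n G S1 c1 = Uc n G S2 c2 := Subset.antisymm e1 e2
  have hdp : ∀ t ∈ Uc n G S1 c1, dp n G S1 t = dp n G S2 t := by
    intro t ht
    unfold dp
    congr 1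
    ext w
    rw [mem_sdiff, mem_sdiff, mem_nb hG]
    constructor
    · rintro ⟨h3, h4⟩
      refine ⟨h3, fun h5 => ?_⟩
      rcases hcl1 t ht w h3 with h6 | h6
      · exact Finset.disjoint_left.1 hd1 h6 h5
      · exact h4 h6
    · rintro ⟨h3, h4⟩
      refine ⟨h3, fun h5 => ?_⟩
      rcases hcl2 t (hU ▸ ht) w h3 with h6 | h6
      · exact Finset.disjoint_left.1 hd2 h6 h5
      · exact h4 h6
  have hcard : dp n G S1 c1 = dp n G S2 c2 := by
    have h3 := card_Uc (S := S1) hG c1
    have h4 := card_Uc (S := S2) hG c2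
    rw [hU] at h3
    omega
  have m1 : c2 ∈ Uc n G S1 c1 := hU ▸ self_mem_Uc c2
  have m2 : c1 ∈ Uc n G S2 c2 := hU ▸ self_mem_Uc c1
  have n1 : c1 ≤ c2 := by
    rcases ht1 c2 m1 with h | h
    · have := hdp c2 m1
      omega
    · exact h.2
  have n2 : c2 ≤ c1 := by
    rcases ht2 c1 m2 with h | h
    · have := hdp c1 (self_mem_Uc c1)
      omega
    · exact h.2
  refine ⟨le_antisymm n1 n2, ?_⟩
  rintro w hw ⟨a, ha, haw⟩
  rcases hcl2 a (hU ▸ ha) w haw with h | h
  · exact absurd hw (fun h' => Finset.disjoint_left.1 hd2 h h')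
  · exact h

/-- the relation between two entries of the log -/
def LRel (n : ℕ) (G : SimpleGraph ℕ) (e f : Finset ℕ × ℕ) : Prop :=
  Disjoint (Uc n G e.1 e.2) f.1 → Disjoint (Uc n G f.1 f.2) e.1 →
    Disjoint (Uc n G e.1 e.2) (Uc n G f.1 f.2)

/-- The log `EX` of the closed exams, the finite set `VS` of the visited states, and the records
`recs c` of every vertex `c`. -/
structure LogI (n k : ℕ) (G : SimpleGraph ℕ) (tau : ℕ) (EX : List (Finset ℕ × ℕ))
    (VS : Finset (Finset ℕ)) (recs : ℕ → List (List ℕ)) : Prop where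
  sound : ∀ c < n, ∀ W ∈ recs c, ∃ S1 : Finset ℕ, c ∉ S1 ∧ Closed G S1 (Uc n G S1 c) ∧
    ∀ s ∈ S1, (∃ a ∈ Uc n G S1 c, G.Adj a s) → s ∈ W
  wlen : ∀ c < n, ∀ W ∈ recs c, W.length ≤ k
  rlen : ∀ c, (recs c).length = (EX.filter (fun e => e.2 = c)).length
  nd : EX.Nodup
  ex : ∀ e ∈ EX, e.1 ∈ VS ∧ e.2 < n ∧ e.2 ∉ e.1 ∧ dl k ≤ dg n G e.2 ∧ dg n G e.2 < tau ∧
    Closed G e.1 (Uc n G e.1 e.2) ∧ IsTop n G e.1 e.2 ∧
    ∃ W ∈ recs e.2, ∀ w ∈ W, w ∈ e.1 ∧ ∃ a ∈ Uc n G e.1 e.2, G.Adj a w
  pair : EX.Pairwise (LRel n G)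
  vs : ∀ S ∈ VS, S.card ≤ k

theorem LogI.rlen_le {tau : ℕ} {EX : List (Finset ℕ × ℕ)} {VS : Finset (Finset ℕ)}
    {recs : ℕ → List (List ℕ)} (h : LogI n k G tau EX VS recs) (c : ℕ) :
    (recs c).length ≤ VS.card := by
  rw [h.rlen c]
  have h1 : ((EX.filter (fun e => e.2 = c)).map Prod.fst).Nodup := by
    refine List.Nodup.map_on ?_ (h.nd.filter _)
    rintro ⟨S1, c1⟩ he1 ⟨S2, c2⟩ he2 hS
    rw [List.mem_filter] at he1 he2
    have h3 : c1 = c := by simpa using he1.2
    have h4 : c2 = c := by simpa using he2.2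
    subst h3
    subst h4
    simp only at hS
    rw [hS]
  have h2 : ((EX.filter (fun e => e.2 = c)).map Prod.fst).toFinset ⊆ VS := by
    intro S hS
    rw [List.mem_toFinset, List.mem_map] at hS
    obtain ⟨e, he, rfl⟩ := hS
    exact (h.ex e (List.mem_filter.1 he).1).1
  have h3 := card_le_card h2
  rw [List.toFinset_card_of_nodup h1, List.length_map] at h3
  exact h3

/-- cost of the look-up -/
theorem LogI.look_le {tau : ℕ} {EX : List (Finset ℕ × ℕ)} {VS : Finset (Finset ℕ)}
    {recs : ℕ → List (List ℕ)} (h : LogI n k G tau EX VS recs) {c : ℕ} (hc : c < n) :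
    ((recs c).map (fun W => W.length + 2)).sum ≤ (k + 2) * VS.card := by
  have h1 : ∀ l : List (List ℕ), (∀ W ∈ l, W.length ≤ k) →
      (l.map (fun W => W.length + 2)).sum ≤ (k + 2) * l.length := by
    intro l
    induction l with
    | nil => simp
    | cons W l ih =>
      intro hl
      have h2 := ih (fun W' hW' => hl W' (List.mem_cons_of_mem _ hW'))
      have h3 := hl W (by simp)
      simp only [List.map_cons, List.sum_cons, List.length_cons]
      rw [Nat.mul_succ]
      omega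
  exact (h1 _ (h.wlen c hc)).trans (Nat.mul_le_mul_left _ (h.rlen_le c))

theorem LogI.mono {tau : ℕ} {EX : List (Finset ℕ × ℕ)} {VS : Finset (Finset ℕ)}
    {recs : ℕ → List (List ℕ)} (h : LogI n k G tau EX VS recs) {S : Finset ℕ} (hS : S.card ≤ k) :
    LogI n k G tau EX (insert S VS) recs := by
  refine ⟨h.sound, h.wlen, h.rlen, h.nd, fun e he => ?_, h.pair, fun T hT => ?_⟩
  · obtain ⟨h1, h2⟩ := h.ex e he
    exact ⟨mem_insert_of_mem h1, h2⟩
  · rcases mem_insert.1 hT with rfl | hT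
    · exact hS
    · exact h.vs T hT

/-- a positive look-up is correct -/
theorem LogI.found (hG : Inn n G) {tau : ℕ} {EX : List (Finset ℕ × ℕ)} {VS : Finset (Finset ℕ)}
    {recs : ℕ → List (List ℕ)} (h : LogI n k G tau EX VS recs) {S : Finset ℕ} {c : ℕ} (hc : c < n)
    (hcS : c ∉ S) (hf : ∃ W ∈ recs c, ∀ w ∈ W, w ∈ S) : Closed G S (Uc n G S c) := by
  obtain ⟨W, hW, hWS⟩ := hf
  obtain ⟨S1, h1, h2, h3⟩ := h.sound c hc W hW
  exact memo_sound hG h1 hcS h2 (fun s hs hs' => hWS s (h3 s hs hs'))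

/-- a new closed exam after a negative look-up -/
theorem LogI.add (hG : Inn n G) {tau : ℕ} {EX : List (Finset ℕ × ℕ)} {VS : Finset (Finset ℕ)}
    {recs : ℕ → List (List ℕ)} (h : LogI n k G tau EX VS recs) {S : Finset ℕ} (hS : S ∈ VS)
    {c : ℕ} (hc : c < n) (hcS : c ∉ S) (hd : dl k ≤ dg n G c) (hd' : dg n G c < tau)
    (hcl : Closed G S (Uc n G S c)) (ht : IsTop n G S c)
    (hf : ¬ ∃ W ∈ recs c, ∀ w ∈ W, w ∈ S) {W0 : List ℕ} (hlen : W0.length ≤ k)
    (hW0 : ∀ w, w ∈ W0 ↔ w ∈ S ∧ ∃ a ∈ Uc n G S c, G.Adj a w) :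
    LogI n k G tau ((S, c) :: EX) VS (Function.update recs c (W0 :: recs c)) := by
  have hno : ∀ e ∈ EX, e.2 = c → ∀ (_ : ∀ w ∈ e.1, (∃ a ∈ Uc n G e.1 e.2, G.Adj a w) → w ∈ S),
      False := by
    intro e he hec h1
    obtain ⟨_, _, _, _, _, _, _, W, hW, hW'⟩ := h.ex e he
    refine hf ⟨W, hec ▸ hW, fun w hw => ?_⟩
    exact h1 w (hW' w hw).1 (hW' w hw).2
  refine ⟨?_, ?_, ?_, ?_, ?_, ?_, h.vs⟩
  · intro c' hc' W hW
    by_cases hcc : c' = c
    · subst hcc
      rw [Function.update_self] at hW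
      rcases List.mem_cons.1 hW with rfl | hW
      · exact ⟨S, hcS, hcl, fun s hs hs' => (hW0 s).2 ⟨hs, hs'⟩⟩
      · exact h.sound c' hc' W hW
    · rw [Function.update_of_ne hcc] at hW
      exact h.sound c' hc' W hW
  · intro c' hc' W hW
    by_cases hcc : c' = c
    · subst hcc
      rw [Function.update_self] at hW
      rcases List.mem_cons.1 hW with rfl | hW
      · exact hlen
      · exact h.wlen c' hc' W hW
    · rw [Function.update_of_ne hcc] at hW
      exact h.wlen c' hc' W hW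
  · intro c'
    by_cases hcc : c' = c
    · subst hcc
      rw [Function.update_self, List.length_cons, h.rlen, List.filter_cons_of_pos (by simp),
        List.length_cons]
    · rw [Function.update_of_ne hcc, h.rlen, List.filter_cons_of_neg]
      simpa using fun h' : c = c' => hcc h'.symm
  · rw [List.nodup_cons]
    refine ⟨fun hmem => ?_, h.nd⟩
    exact hno (S, c) hmem rfl (fun w hw _ => hw)
  · intro e he
    rcases List.mem_cons.1 he with rfl | he
    · refine ⟨hS, hc, hcS, hd, hd', hcl, ht, W0, ?_, fun w hw => (hW0 w).1 hw⟩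
      simp only
      rw [Function.update_self]
      exact List.mem_cons_self
    · obtain ⟨a1, a2, a3, a4, a5, a6, a7, W, hW, hW'⟩ := h.ex e he
      refine ⟨a1, a2, a3, a4, a5, a6, a7, W, ?_, hW'⟩
      by_cases hcc : e.2 = c
      · rw [hcc] at hW ⊢
        rw [Function.update_self]
        exact List.mem_cons_of_mem _ hW
      · rw [Function.update_of_ne hcc]
        exact hW
  · rw [List.pairwise_cons]
    refine ⟨?_, h.pair⟩
    intro e he hd1 hd2
    by_contra hnd
    obtain ⟨a1, a2, a3, a4, a5, a6, a7, a8⟩ := h.ex e he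
    have := same_exam hG a3 hcS a6 hcl a7 ht hd2 hd1 (fun h' => hnd h'.symm)
    exact hno e he this.1 this.2

/-- the empty log -/
theorem LogI.empty {tau : ℕ} : LogI n k G tau [] ∅ (fun _ => []) := by
  refine ⟨?_, ?_, ?_, List.nodup_nil, ?_, List.Pairwise.nil, ?_⟩
  · intro c _ W hW
    simp at hW
  · intro c _ W hW
    simp at hW
  · intro c
    simp
  · intro e he
    simp at he
  · intro S hS
    simp at hS

/-- cost of a logged exam (with the removal of the marks) -/
noncomputable def xc (n k : ℕ) (G : SimpleGraph ℕ) (D : St) (e : Finset ℕ × ℕ) : ℕ :=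
  2 * xe n k G D e.1 e.2

/-- cost of one exam of a vertex which is not a giant -/
def e1 (k tau : ℕ) : ℕ := 1000 * ((4 * k + 2) * (tau + 1) + (k + 1) * (4 * k + 2))

theorem xc_le_e1 {D : St} (hP : Prep n m k G D) {e : Finset ℕ × ℕ} (he : e.2 < n)
    (hd : dg n G e.2 < D.r rtau) : xc n k G D e ≤ e1 k (D.r rtau) := by
  have h1 : ∑ a ∈ Uc n G e.1 e.2, ((bk D a).length + 1) ≤ (4 * k + 2) * (D.r rtau + 1) := by
    have h2 : ∀ a ∈ Uc n G e.1 e.2, (bk D a).length + 1 ≤ 4 * k + 2 := by
      intro a ha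
      have := hP.b.len a (Uc_lt hP.inn he a ha)
      omega
    have h3 := Finset.sum_le_card_nsmul _ _ _ h2
    have h4 : (Uc n G e.1 e.2).card ≤ D.r rtau + 1 := by
      rw [card_Uc hP.inn]
      have := dp_le_dg (n := n) (G := G) (S := e.1) e.2
      omega
    refine h3.trans ?_
    rw [smul_eq_mul, Nat.mul_comm]
    exact Nat.mul_le_mul_left _ h4
  unfold xc xe e1
  omega

theorem xc_le_vol {D : St} (hP : Prep n m k G D) {e : Finset ℕ × ℕ} (he : e.2 < n) :
    xc n k G D e ≤ 1000 * (∑ a ∈ Uc n G e.1 e.2, (dg n G a + 1) + (k + 1) * (4 * k + 2)) := by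
  have h1 : ∑ a ∈ Uc n G e.1 e.2, ((bk D a).length + 1) ≤
      ∑ a ∈ Uc n G e.1 e.2, (dg n G a + 1) := by
    refine Finset.sum_le_sum fun a ha => ?_
    have ha' := Uc_lt hP.inn he a ha
    have h2 : (bk D a).toFinset ⊆ nb n G a := by
      intro y hy
      rw [List.mem_toFinset] at hy
      exact (mem_nb hP.inn).2 (hP.b.mem a ha' y hy)
    have h3 := card_le_card h2
    rw [List.toFinset_card_of_nodup (hP.b.nd a ha')] at h3
    unfold dg
    omega
  unfold xc xe
  omega

/-- amortised cost of all exams in the log -/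
theorem LogI.cost {D : St} (hP : Prep n m k G D) {EX : List (Finset ℕ × ℕ)}
    {VS : Finset (Finset ℕ)} {recs : ℕ → List (List ℕ)}
    (h : LogI n k G (D.r rtau) EX VS recs) :
    (EX.map (xc n k G D)).sum ≤ 1000 * (n + 2 * m) +
      1000 * ((k + 1) * (4 * k + 2)) * D.r rnA + VS.card * (k * VS.card) * e1 k (D.r rtau) := by
  have hG := hP.inn
  set E : Finset (Finset ℕ × ℕ) := EX.toFinset with hE
  have hsum : (EX.map (xc n k G D)).sum = ∑ e ∈ E, xc n k G D e := by
    rw [hE, List.sum_toFinset _ h.nd]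
  have hmem : ∀ e, e ∈ E ↔ e ∈ EX := fun e => List.mem_toFinset
  have hsym : Std.Symm (LRel n G) := ⟨fun e f hr h1 h2 => (hr h2 h1).symm⟩
  have hpair : ∀ e ∈ E, ∀ f ∈ E, e ≠ f → LRel n G e f := by
    intro e he f hf hne
    exact List.Pairwise.forall h.pair ((hmem e).1 he) ((hmem f).1 hf) hne
  set M : Finset ℕ := VS.biUnion id with hM
  have hMc : M.card ≤ k * VS.card := by
    refine (Finset.card_biUnion_le_card_mul VS id k h.vs).trans ?_
    rw [Nat.mul_comm]
  have hsubM : ∀ e ∈ E, e.1 ⊆ M := by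
    intro e he v hv
    rw [hM, Finset.mem_biUnion]
    exact ⟨e.1, (h.ex e ((hmem e).1 he)).1, hv⟩
  set A := E.filter (fun e => Disjoint (Uc n G e.1 e.2) M) with hA
  set H := E.filter (fun e => ¬ Disjoint (Uc n G e.1 e.2) M) with hH
  have hsplit : ∑ e ∈ E, xc n k G D e = ∑ e ∈ A, xc n k G D e + ∑ e ∈ H, xc n k G D e :=
    (Finset.sum_filter_add_sum_filter_not E _ _).symm
  -- the exams which avoid `M`
  have hAd : ∀ e ∈ A, ∀ f ∈ A, e ≠ f → Disjoint (Uc n G e.1 e.2) (Uc n G f.1 f.2) := by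
    intro e he f hf hne
    rw [hA, Finset.mem_filter] at he hf
    exact hpair e he.1 f hf.1 hne (he.2.mono_right (hsubM f hf.1))
      (hf.2.mono_right (hsubM e he.1))
  have hAvol : ∑ e ∈ A, ∑ a ∈ Uc n G e.1 e.2, (dg n G a + 1) ≤ n + 2 * m := by
    rw [← Finset.sum_biUnion (fun e he f hf hne => hAd e he f hf hne)]
    have h1 : A.biUnion (fun e => Uc n G e.1 e.2) ⊆ range n := by
      intro v hv
      rw [Finset.mem_biUnion] at hv
      obtain ⟨e, he, hv⟩ := hv
      rw [hA, Finset.mem_filter, hmem] at he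
      exact Finset.mem_range.2 (Uc_lt hG (h.ex e he.1).2.1 v hv)
    refine (Finset.sum_le_sum_of_subset h1).trans ?_
    rw [Finset.sum_add_distrib, AdjP.sum hG hP.a.adj]
    simp
    omega
  have hAcard : A.card ≤ D.r rnA := by
    have h1 : (alL D).length = D.r rnA := by
      unfold alL
      simp
    have h2 : (alL D).toFinset.card ≤ D.r rnA := by
      rw [← h1]
      exact List.toFinset_card_le _
    refine le_trans ?_ h2
    refine Finset.card_le_card_of_injOn (fun e => e.2) ?_ ?_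
    · intro e he
      rw [Finset.mem_coe, hA, Finset.mem_filter, hmem] at he
      obtain ⟨_, a2, _, a4, _⟩ := h.ex e he.1
      rw [Finset.mem_coe, List.mem_toFinset, hP.a.al, List.mem_filter, List.mem_range]
      exact ⟨a2, by simpa using a4⟩
    · intro e he f hf hef
      by_contra hne
      have h3 := hAd e he f hf hne
      simp only at hef
      refine Finset.disjoint_left.1 h3 (self_mem_Uc e.2) ?_
      rw [hef]
      exact self_mem_Uc f.2
  have hAsum : ∑ e ∈ A, xc n k G D e ≤ 1000 * (n + 2 * m) +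
      1000 * ((k + 1) * (4 * k + 2)) * D.r rnA := by
    have h1 : ∑ e ∈ A, xc n k G D e ≤
        ∑ e ∈ A, (1000 * (∑ a ∈ Uc n G e.1 e.2, (dg n G a + 1)) +
          1000 * ((k + 1) * (4 * k + 2))) := by
      refine Finset.sum_le_sum fun e he => ?_
      rw [hA, Finset.mem_filter, hmem] at he
      have := xc_le_vol hP (h.ex e he.1).2.1
      rw [← Nat.mul_add]
      exact this
    refine h1.trans ?_
    rw [Finset.sum_add_distrib, ← Finset.mul_sum, Finset.sum_const, smul_eq_mul,
      Nat.mul_comm A.card]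
    exact Nat.add_le_add (Nat.mul_le_mul_left _ hAvol) (Nat.mul_le_mul_left _ hAcard)
  -- the exams which meet `M`
  have hHcard : H.card ≤ VS.card * (k * VS.card) := by
    have h1 : H.card ≤ M.card * VS.card := by
      refine Finset.card_le_mul_card_image_of_maps_to (f := fun e => e.1) ?_ M.card ?_
      · intro e he
        rw [hH, Finset.mem_filter, hmem] at he
        exact (h.ex e he.1).1
      · intro T hT
        have h2 : ∀ e ∈ H.filter (fun e => e.1 = T), 1 ≤ (Uc n G e.1 e.2 ∩ M).card := by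
          intro e he
          rw [Finset.mem_filter, hH, Finset.mem_filter] at he
          rw [Nat.one_le_iff_ne_zero, Ne, Finset.card_eq_zero, ← Finset.disjoint_iff_inter_eq_empty]
          exact he.1.2
        have h3 := Finset.card_nsmul_le_sum _ _ _ h2
        rw [smul_eq_mul, Nat.mul_one] at h3
        refine h3.trans ?_
        rw [← Finset.card_biUnion]
        · refine Finset.card_le_card ?_
          intro v hv
          rw [Finset.mem_biUnion] at hv
          obtain ⟨e, _, hv⟩ := hv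
          exact (Finset.mem_inter.1 hv).2
        · intro e he f hf hne
          rw [Finset.mem_coe, Finset.mem_filter, hH, Finset.mem_filter] at he hf
          have h4 := h.ex e ((hmem e).1 he.1.1)
          have h5 := h.ex f ((hmem f).1 hf.1.1)
          have h6 : e.1 = f.1 := he.2.trans hf.2.symm
          have h7 : Disjoint (Uc n G e.1 e.2) f.1 := by
            rw [← h6]
            exact Finset.disjoint_left.2 (fun v hv => Uc_disjoint hG h4.2.2.1 v hv)
          have h8 : Disjoint (Uc n G f.1 f.2) e.1 := by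
            rw [h6]
            exact Finset.disjoint_left.2 (fun v hv => Uc_disjoint hG h5.2.2.1 v hv)
          have h9 := hpair e he.1.1 f hf.1.1 hne h7 h8
          exact h9.mono Finset.inter_subset_left Finset.inter_subset_left
    refine h1.trans ?_
    rw [Nat.mul_comm]
    exact Nat.mul_le_mul_left _ hMc
  have hHsum : ∑ e ∈ H, xc n k G D e ≤ VS.card * (k * VS.card) * e1 k (D.r rtau) := by
    have h1 : ∀ e ∈ H, xc n k G D e ≤ e1 k (D.r rtau) := by
      intro e he
      rw [hH, Finset.mem_filter, hmem] at he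
      obtain ⟨_, a2, _, _, a5, _⟩ := h.ex e he.1
      exact xc_le_e1 hP a2 a5
    have h2 := Finset.sum_le_card_nsmul _ _ _ h1
    rw [smul_eq_mul] at h2
    exact h2.trans (Nat.mul_le_mul_right _ hHcard)
  rw [hsum, hsplit]
  omega

end TL
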