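import Pool.Agent.W_3fea_h44.Lang

/-!
# More rules of the program logic; segments of arrays
-/

namespace TL

/-! ### abbreviations -/

/-- a block -/
def Cmd.blk : List Cmd → Cmd
  | [] => .skip
  | c :: l => .seq c (Cmd.blk l)

/-- register -/
abbrev V (x : ℕ) : Exp := .reg x
/-- constant -/
abbrev K (x : ℕ) : Exp := .const x
/-- array cell -/
abbrev A (a : ℕ) (e : Exp) : Exp := .get a e
/-- `if b then c` -/
abbrev Cmd.whn (b : Cond) (c : Cmd) : Cmd := .ite b c .skip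
/-- `e ≠ f` -/
abbrev Cond.ne (e f : Exp) : Cond := .not (.eq e f)
/-- conjunction of a list -/
def Cond.all : List Cond → Cond
  | [] => .eq (.const 0) (.const 0)
  | [b] => b
  | b :: l => .and b (Cond.all l)
/-- `x := x + 1` -/
abbrev Cmd.incr (x : ℕ) : Cmd := .set x (.inc (.reg x))
/-- `x := x - 1` -/
abbrev Cmd.decr (x : ℕ) : Cmd := .set x (.dec (.reg x))

/-! ### simp lemmas -/

@[simp] theorem Cmd.lf_nil : (Cmd.blk []).lf = true := rfl
@[simp] theorem Cmd.lf_cons (c : Cmd) (l : List Cmd) :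
    (Cmd.blk (c :: l)).lf = (c.lf && (Cmd.blk l).lf) := rfl
@[simp] theorem Cmd.ex_skip (s : St) : Cmd.skip.ex s = s := rfl
@[simp] theorem Cmd.ex_set (x : ℕ) (e : Exp) (s : St) : (Cmd.set x e).ex s = s.setR x (e.ev s) := rfl
@[simp] theorem Cmd.ex_put (a : ℕ) (i e : Exp) (s : St) :
    (Cmd.put a i e).ex s = s.setM a (i.ev s) (e.ev s) := rfl
@[simp] theorem Cmd.ex_seq (c d : Cmd) (s : St) : (Cmd.seq c d).ex s = d.ex (c.ex s) := rfl
@[simp] theorem Cmd.ex_ite (b : Cond) (c d : Cmd) (s : St) :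
    (Cmd.ite b c d).ex s = if b.ev s = true then c.ex s else d.ex s := rfl
@[simp] theorem Cmd.ex_nil (s : St) : (Cmd.blk []).ex s = s := rfl
@[simp] theorem Cmd.ex_cons (c : Cmd) (l : List Cmd) (s : St) :
    (Cmd.blk (c :: l)).ex s = (Cmd.blk l).ex (c.ex s) := rfl
@[simp] theorem Cmd.mc_nil : (Cmd.blk []).mc = 1 := rfl
@[simp] theorem Cmd.mc_cons (c : Cmd) (l : List Cmd) :
    (Cmd.blk (c :: l)).mc = c.mc + (Cmd.blk l).mc := rfl
@[simp] theorem Cmd.wr_nil : (Cmd.blk []).wr = [] := rfl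
@[simp] theorem Cmd.wr_cons (c : Cmd) (l : List Cmd) :
    (Cmd.blk (c :: l)).wr = c.wr ++ (Cmd.blk l).wr := rfl
@[simp] theorem Cmd.wa_nil : (Cmd.blk []).wa = [] := rfl
@[simp] theorem Cmd.wa_cons (c : Cmd) (l : List Cmd) :
    (Cmd.blk (c :: l)).wa = c.wa ++ (Cmd.blk l).wa := rfl
@[simp] theorem Cond.ev_all_nil (s : St) : (Cond.all []).ev s = true := by simp [Cond.all]
@[simp] theorem Cond.ev_all_one (s : St) (b : Cond) : (Cond.all [b]).ev s = b.ev s := rfl
@[simp] theorem Cond.ev_all_cons (s : St) (b c : Cond) (l : List Cond) :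
    (Cond.all (b :: c :: l)).ev s = (b.ev s && (Cond.all (c :: l)).ev s) := rfl

/-! ### blocks -/

theorem Run.nil (s : St) : Run (.blk []) s 1 s := Run.skip s

theorem Run.cons {c : Cmd} {l : List Cmd} {s s1 s2 : St} {t u : ℕ} (h : Run c s t s1)
    (h' : Run (.blk l) s1 u s2) : Run (.blk (c :: l)) s (t + u) s2 := Run.seq h h'

theorem Tri.nil {s : St} {B : ℕ} {Q : St → Prop} (hQ : Q s) (hB : 1 ≤ B) : Tri s (.blk []) B Q :=
  Tri.skip hQ hB

theorem Tri.cons {s : St} {c : Cmd} {l : List Cmd} {B1 B2 B : ℕ} {Q : St → Prop}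
    (h : Tri s c B1 (fun s1 => Tri s1 (.blk l) B2 Q)) (hB : B1 + B2 ≤ B) :
    Tri s (.blk (c :: l)) B Q := Tri.seq h hB

/-! ### Triples in which the post-condition sees the running time -/

/-- From state `s` the program `c` halts; the number `t` of operations and the final state `s'`
satisfy `Q t s'`. -/
def Trt (s : St) (c : Cmd) (Q : ℕ → St → Prop) : Prop := ∃ s' t, Run c s t s' ∧ Q t s'

theorem Tri.trt {s : St} {c : Cmd} {B : ℕ} {Q : St → Prop} (h : Tri s c B Q) :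
    Trt s c (fun t s' => t ≤ B ∧ Q s') := h

theorem Trt.tri {s : St} {c : Cmd} {B : ℕ} {Q : St → Prop}
    (h : Trt s c (fun t s' => t ≤ B ∧ Q s')) : Tri s c B Q := h

theorem Trt.imp {s : St} {c : Cmd} {Q Q' : ℕ → St → Prop} (h : Trt s c Q)
    (hQ : ∀ t s', Q t s' → Q' t s') : Trt s c Q' := by
  obtain ⟨s', t, h1, h2⟩ := h
  exact ⟨s', t, h1, hQ _ _ h2⟩

theorem Trt.fr {s : St} {c : Cmd} {Q : ℕ → St → Prop} (h : Trt s c Q) :
    Trt s c (fun t s' => Q t s' ∧ Fr c.wr c.wa s s') := by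
  obtain ⟨s', t, h1, h2⟩ := h
  exact ⟨s', t, h1, h2, h1.frame⟩

theorem Trt.seq {s : St} {c d : Cmd} {Q : ℕ → St → Prop}
    (h : Trt s c (fun t s1 => Trt s1 d (fun u s2 => Q (t + u) s2))) : Trt s (.seq c d) Q := by
  obtain ⟨s1, t, h1, s2, u, h2, h3⟩ := h
  exact ⟨s2, _, Run.seq h1 h2, h3⟩

theorem Trt.cons {s : St} {c : Cmd} {l : List Cmd} {Q : ℕ → St → Prop}
    (h : Trt s c (fun t s1 => Trt s1 (.blk l) (fun u s2 => Q (t + u) s2))) :
    Trt s (.blk (c :: l)) Q := Trt.seq h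

theorem Trt.nil {s : St} {Q : ℕ → St → Prop} (h : Q 1 s) : Trt s (.blk []) Q :=
  ⟨s, 1, Run.skip s, h⟩

theorem Trt.ite {s : St} {b : Cond} {c d : Cmd} {Q : ℕ → St → Prop}
    (hT : b.ev s = true → Trt s c (fun t s' => Q (b.cost + 1 + t) s'))
    (hF : b.ev s = false → Trt s d (fun t s' => Q (b.cost + 1 + t) s')) :
    Trt s (.ite b c d) Q := by
  cases hb : b.ev s with
  | true =>
    obtain ⟨s', t, h1, h2⟩ := hT hb
    exact ⟨s', _, Run.iteT hb h1, h2⟩
  | false =>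
    obtain ⟨s', t, h1, h2⟩ := hF hb
    exact ⟨s', _, Run.iteF hb h1, h2⟩

/-- loop-free programs -/
theorem Trt.lf {s : St} {c : Cmd} {Q : ℕ → St → Prop} (h : c.lf = true)
    (hQ : ∀ t, t ≤ c.mc → Q t (c.ex s)) : Trt s c Q := by
  obtain ⟨t, ht, h1⟩ := c.lf_run s h
  exact ⟨_, t, h1, hQ t ht⟩

/-- While loops: the invariant sees the time which has passed since the start of the loop. -/
theorem Trt.loop {b : Cond} {c : Cmd} (I : ℕ → St → Prop) (M : St → ℕ) {s : St}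
    {Q : ℕ → St → Prop} (h0 : I 0 s)
    (step : ∀ t s, I t s → b.ev s = true →
      Trt s c (fun u s' => I (t + (b.cost + 1 + u)) s' ∧ M s' < M s))
    (post : ∀ t s, I t s → b.ev s = false → Q (t + (b.cost + 1)) s) :
    Trt s (.loop b c) Q := by
  have key : ∀ N : ℕ, ∀ t s, M s ≤ N → I t s →
      Trt s (.loop b c) (fun u s' => Q (t + u) s') := by
    intro N
    induction N with
    | zero =>
      intro t s hN hI
      cases hb : b.ev s with
      | false => exact ⟨s, _, Run.loopF hb, post t s hI hb⟩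
      | true =>
        obtain ⟨s', u, _, _, h4⟩ := step t s hI hb
        omega
    | succ N ih =>
      intro t s hN hI
      cases hb : b.ev s with
      | false => exact ⟨s, _, Run.loopF hb, post t s hI hb⟩
      | true =>
        obtain ⟨s', u, h1, h3, h4⟩ := step t s hI hb
        obtain ⟨s'', v, k1, k3⟩ := ih (t + (b.cost + 1 + u)) s' (by omega) h3
        refine ⟨s'', _, Run.loopT hb h1 k1, ?_⟩
        have : t + (b.cost + 1 + u + v) = t + (b.cost + 1 + u) + v := by omega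
        show Q (t + (b.cost + 1 + u + v)) s''
        rw [this]
        exact k3
  have := key (M s) 0 s le_rfl h0
  simpa using this

/-- Counting loops; the invariant `I j` describes the state at the head of the loop when register
`p` holds `j`. -/
theorem Tri.forI {p hi : ℕ} {lo : Exp} {c : Cmd} (I : ℕ → St → Prop) (B : ℕ → ℕ)
    {s : St} {a N : ℕ} {Q : St → Prop} (hp : p ≠ hi) (ha : lo.ev s = a) (hN : s.r hi = N)
    (haN : a ≤ N) (h0 : I a (s.setR p a))
    (step : ∀ j, a ≤ j → j < N → ∀ s, I j s → s.r p = j → s.r hi = N →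
      Tri s c (B j) (fun s' => I (j + 1) (s'.setR p (j + 1)) ∧ s'.r p = j ∧ s'.r hi = N))
    (post : ∀ s', I N s' → s'.r p = N → s'.r hi = N → Q s') :
    Tri s (.for_ p lo hi c) (lo.cost + 5 + ∑ j ∈ Finset.Ico a N, (B j + 7)) Q := by
  have hloop : ∀ s0, (∃ j, a ≤ j ∧ j ≤ N ∧ s0.r p = j ∧ s0.r hi = N ∧ I j s0) →
      Tri s0 (.loop (.lt (.reg p) (.reg hi)) (.seq c (.set p (.inc (.reg p)))))
        ((∑ i ∈ Finset.Ico (s0.r p) N, (B i + 7)) + (Cond.lt (.reg p) (.reg hi)).cost + 1) Q := by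
    intro s0 h0'
    refine Tri.loop (fun s0 => ∃ j, a ≤ j ∧ j ≤ N ∧ s0.r p = j ∧ s0.r hi = N ∧ I j s0)
      (fun s0 => ∑ i ∈ Finset.Ico (s0.r p) N, (B i + 7)) ?_ h0' ?_
    · rintro s1 ⟨j, h1, h2, h3, h4, h5⟩ hb
      simp only [Cond.ev_lt, Exp.ev_reg, h3, h4, decide_eq_true_eq] at hb
      refine ⟨B j + 3, Tri.seq (B1 := B j) (B2 := 3) ?_ le_rfl⟩
      refine (step j h1 hb s1 h5 h3 h4).imp ?_
      rintro s2 ⟨k1, k2, k3⟩
      refine Tri.set ⟨⟨j + 1, by omega, by omega, ?_, ?_, ?_⟩, ?_⟩ (by simp [Exp.cost])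
      · simp [k2]
      · simp [hp.symm, k3]
      · simpa [k2] using k1
      · simp only [St.setR_r, if_true, Exp.ev_inc, Exp.ev_reg, k2, Cond.cost, Exp.cost, h3]
        rw [Finset.sum_eq_sum_Ico_succ_bot hb]
        omega
    · rintro s1 ⟨j, h1, h2, h3, h4, h5⟩ hb
      simp only [Cond.ev_lt, Exp.ev_reg, h3, h4, decide_eq_false_iff_not, not_lt] at hb
      have : j = N := by omega
      subst this
      exact post s1 h5 h3 h4
  refine Tri.seq (B1 := lo.cost + 1)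
    (B2 := (∑ i ∈ Finset.Ico a N, (B i + 7)) + (Cond.lt (.reg p) (.reg hi)).cost + 1) ?_ ?_
  · refine Tri.set ?_ le_rfl
    have := hloop (s.setR p (lo.ev s)) ⟨a, le_rfl, haN, by simp [ha], by simp [hp.symm, hN],
      by simpa [ha] using h0⟩
    simpa [ha] using this
  · simp only [Cond.cost, Exp.cost]; omega

/-- `forI` with a constant bound -/
theorem Tri.forC {p hi : ℕ} {lo : Exp} {c : Cmd} (I : ℕ → St → Prop) (B : ℕ)
    {s : St} {a N : ℕ} {Q : St → Prop} (hp : p ≠ hi) (ha : lo.ev s = a) (hN : s.r hi = N)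
    (haN : a ≤ N) (h0 : I a (s.setR p a))
    (step : ∀ j, a ≤ j → j < N → ∀ s, I j s → s.r p = j → s.r hi = N →
      Tri s c B (fun s' => I (j + 1) (s'.setR p (j + 1)) ∧ s'.r p = j ∧ s'.r hi = N))
    (post : ∀ s', I N s' → s'.r p = N → s'.r hi = N → Q s') :
    Tri s (.for_ p lo hi c) (lo.cost + 5 + (N - a) * (B + 7)) Q := by
  refine (Tri.forI I (fun _ => B) hp ha hN haN h0 step post).cost ?_
  simp

/-- counting loops with time in the invariant -/
theorem Trt.forI {p hi : ℕ} {lo : Exp} {c : Cmd} (I : ℕ → ℕ → St → Prop)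
    {s : St} {a N : ℕ} {Q : ℕ → St → Prop} (hp : p ≠ hi) (ha : lo.ev s = a) (hN : s.r hi = N)
    (haN : a ≤ N) (h0 : I (lo.cost + 1) a (s.setR p a))
    (step : ∀ t j, a ≤ j → j < N → ∀ s, I t j s → s.r p = j → s.r hi = N →
      Trt s c (fun u s' => I (t + (7 + u)) (j + 1) (s'.setR p (j + 1)) ∧ s'.r p = j ∧ s'.r hi = N))
    (post : ∀ t s', I t N s' → s'.r p = N → s'.r hi = N → Q (t + 4) s') :
    Trt s (.for_ p lo hi c) Q := by
  refine Trt.seq ⟨s.setR p (lo.ev s), _, Run.set p lo s, ?_⟩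
  refine Trt.loop (I := fun t s0 => ∃ j, a ≤ j ∧ j ≤ N ∧ s0.r p = j ∧ s0.r hi = N ∧
    I (lo.cost + 1 + t) j s0) (M := fun s0 => N - s0.r p) ?_ ?_ ?_
  · exact ⟨a, le_rfl, haN, by simp [ha], by simp [hp.symm, hN], by simpa [ha] using h0⟩
  · rintro t s1 ⟨j, h1, h2, h3, h4, h5⟩ hb
    simp only [Cond.ev_lt, Exp.ev_reg, h3, h4, decide_eq_true_eq] at hb
    refine Trt.seq ((step _ j h1 hb s1 h5 h3 h4).imp ?_)
    rintro u s2 ⟨k1, k2, k3⟩
    refine ⟨_, _, Run.set _ _ _, ⟨j + 1, by omega, by omega, ?_, ?_, ?_⟩, ?_⟩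
    · simp [k2]
    · simp [hp.symm, k3]
    · have : lo.cost + 1 + (t + ((Cond.lt (.reg p) (.reg hi)).cost + 1 +
          (u + ((Exp.reg p).inc.cost + 1)))) = lo.cost + 1 + t + (7 + u) := by
        simp only [Cond.cost, Exp.cost]; omega
      rw [this]
      simpa [k2] using k1
    · simp only [St.setR_r, if_true, Exp.ev_inc, Exp.ev_reg, k2, h3]; omega
  · rintro t s1 ⟨j, h1, h2, h3, h4, h5⟩ hb
    simp only [Cond.ev_lt, Exp.ev_reg, h3, h4, decide_eq_false_iff_not, not_lt] at hb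
    have : j = N := by omega
    subst this
    have := post _ s1 h5 h3 h4
    have e : lo.cost + 1 + (t + ((Cond.lt (.reg p) (.reg hi)).cost + 1)) =
        lo.cost + 1 + t + 4 := by simp only [Cond.cost, Exp.cost]; omega
    rw [e]
    exact this

/-! ### Segments of arrays -/

/-- the list `[f i, …, f (j - 1)]` -/
def seg (f : ℕ → ℕ) (i j : ℕ) : List ℕ := (List.range' i (j - i)).map f

@[simp] theorem seg_length (f : ℕ → ℕ) (i j : ℕ) : (seg f i j).length = j - i := by simp [seg]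

@[simp] theorem seg_self (f : ℕ → ℕ) (i : ℕ) : seg f i i = [] := by simp [seg]

theorem seg_empty (f : ℕ → ℕ) {i j : ℕ} (h : j ≤ i) : seg f i j = [] := by
  simp [seg, Nat.sub_eq_zero_of_le h]

theorem seg_succ (f : ℕ → ℕ) {i j : ℕ} (h : i ≤ j) : seg f i (j + 1) = seg f i j ++ [f j] := by
  have h1 : j + 1 - i = (j - i) + 1 := by omega
  rw [seg, h1, List.range'_concat]
  simp [seg]
  congr 1
  omega

theorem seg_getElem (f : ℕ → ℕ) (i j p : ℕ) (h : p < (seg f i j).length) :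
    (seg f i j)[p] = f (i + p) := by
  simp [seg]

theorem mem_seg {f : ℕ → ℕ} {i j y : ℕ} : y ∈ seg f i j ↔ ∃ p, i ≤ p ∧ p < j ∧ f p = y := by
  simp only [seg, List.mem_map, List.mem_range'_1]
  constructor
  · rintro ⟨p, ⟨h1, h2⟩, h3⟩; exact ⟨p, h1, by omega, h3⟩
  · rintro ⟨p, h1, h2, h3⟩; exact ⟨p, ⟨h1, by omega⟩, h3⟩

theorem seg_congr {f g : ℕ → ℕ} {i j : ℕ} (h : ∀ p, i ≤ p → p < j → f p = g p) :
    seg f i j = seg g i j := by
  simp only [seg]
  apply List.map_congr_left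
  intro p hp
  rw [List.mem_range'_1] at hp
  exact h p hp.1 (by omega)

theorem seg_append (f : ℕ → ℕ) {i j k : ℕ} (h1 : i ≤ j) (h2 : j ≤ k) :
    seg f i j ++ seg f j k = seg f i k := by
  simp only [seg, ← List.map_append]
  congr 1
  have e : j = i + (j - i) := by omega
  conv_lhs => rw [show List.range' j (k - j) = List.range' (i + (j - i)) (k - j) by rw [← e]]
  rw [List.range'_append_1]
  congr 1
  omega

theorem seg_update {f : ℕ → ℕ} {i j p v : ℕ} (h : p < i ∨ j ≤ p) :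
    seg (Function.update f p v) i j = seg f i j := by
  apply seg_congr
  intro q h1 h2
  rw [Function.update_apply]
  split_ifs with h3
  · omega
  · rfl

end TL
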