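import Pool.Agent.W_3fea_h44.NodeDefs

/-! # Specification of `pRemove`, `pDeg` -/

namespace TL

open Relation Finset Classical

variable {n m k : ℕ} {G : SimpleGraph ℕ} {D : St} {S : List ℕ} {x c : ℕ}

theorem pRemove_spec {s : St} (h : NS n m k G D S s) (hc : s.r rc = c) (hcn : c < n) :
    Tri s pRemove (100 * ((adA D c).length + 1)) (fun s' =>
      ∀ v, s'.m RM v = if v = c ∨ (v ∈ adA D c ∧ v ∉ S) then 1 else s.m RM v) := by
  have hofa : s.m OFA = D.m OFA := h.agr.m OFA (by decide)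
  have hada : s.m ADA = D.m ADA := h.agr.m ADA (by decide)
  have hins := h.ins
  have hle : D.m OFA c ≤ D.m OFA (c + 1) := h.prep.a.ofa c hcn
  have hlen : (adA D c).length = D.m OFA (c + 1) - D.m OFA c := by simp [adA]
  unfold pRemove
  refine Tri.cons (B1 := 5) (B2 := 100 * (adA D c).length + 90) ?_ (by omega)
  refine (Tri.lf rfl ?_).cost (by decide)
  refine Tri.cons (B1 := 6) (B2 := 100 * (adA D c).length + 80) ?_ (by omega)
  refine (Tri.lf rfl ?_).cost (by decide)
  refine Tri.cons (B1 := 100 * (adA D c).length + 10) (B2 := 30) ?_ (by omega)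
  refine (Tri.forC (I := fun j s' => s'.m ADA = D.m ADA ∧ s'.m INS = s.m INS ∧
      ∀ v, s'.m RM v = if v = c ∨ (v ∈ seg (D.m ADA) (D.m OFA c) j ∧ v ∉ S) then 1 else s.m RM v)
    (B := 60) (a := D.m OFA c) (N := D.m OFA (c + 1)) (by decide) ?_ ?_ hle ?_ ?_ ?_).cost ?_
  · simp [hc, hofa]
  · simp [hc, hofa]
  · refine ⟨by simp [hada], by simp, fun v => ?_⟩
    simp [hc, Function.update_apply]
  · rintro j hj1 hj s1 ⟨a1, a2, a3⟩ hrj hhi
    refine (Tri.lf rfl ?_).cost (by decide)
    have e1 : seg (D.m ADA) (D.m OFA c) (j + 1) = seg (D.m ADA) (D.m OFA c) j ++ [D.m ADA j] :=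
      seg_succ _ hj1
    by_cases hf : D.m ADA j ∈ S
    · have : s1.m INS (D.m ADA j) = 1 := by rw [a2, hins, if_pos hf]
      simp only [Cmd.ex_cons, Cmd.ex_nil, Cmd.ex_set, Cmd.ex_ite, Cmd.ex_put, Cmd.ex_skip,
        St.setR_r, St.setR_m, Exp.ev_reg, Exp.ev_get, Exp.ev_const,
        Cond.ev_eq, hrj, a1, if_true, this]
      refine ⟨⟨by simp [a1], by simp [a2], fun v => ?_⟩, by simp [hrj], by simp [hhi]⟩
      simp only [show ¬ (1 = 0) by decide, decide_false, Bool.false_eq_true, if_false, St.setR_m]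
      rw [a3, e1]
      refine if_congr ?_ rfl rfl
      simp only [List.mem_append, List.mem_singleton]
      constructor
      · rintro (h | ⟨h, h'⟩)
        · exact Or.inl h
        · exact Or.inr ⟨Or.inl h, h'⟩
      · rintro (h | ⟨h | h, h'⟩)
        · exact Or.inl h
        · exact Or.inr ⟨h, h'⟩
        · exact absurd (h ▸ hf) h'
    · have : s1.m INS (D.m ADA j) = 0 := by rw [a2, hins, if_neg hf]
      simp only [Cmd.ex_cons, Cmd.ex_nil, Cmd.ex_set, Cmd.ex_ite, Cmd.ex_put, Cmd.ex_skip,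
        St.setR_r, St.setR_m, Exp.ev_reg, Exp.ev_get, Exp.ev_const,
        Cond.ev_eq, hrj, a1, if_true, this, decide_true]
      refine ⟨⟨by simp [a1], by simp [a2], fun v => ?_⟩, by simp [hrj], by simp [hhi]⟩
      simp only [St.setR_m, St.setM_m, if_true, Function.update_apply, a3, e1]
      simp only [List.mem_append, List.mem_singleton]
      by_cases hv : v = D.m ADA j
      · subst hv
        simp [hf]
      · simp [hv]
  · rintro s1 ⟨a1, a2, a3⟩ _ _
    exact Tri.nil a3 (by omega)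
  · simp only [Exp.cost, hlen]; omega

theorem pDeg_spec {s : St} {v : ℕ} (h : NS n m k G D S s) (hv : s.r rv = v) (hvn : v < n) :
    Tri s pDeg (50 * (dl k + 1)) (fun s' => s'.r rcd = dp n G S.toFinset v) := by
  have hdeg : s.m DEG v = dg n G v := by rw [h.agr.m DEG (by decide)]; exact h.prep.a.deg v
  have hdel : s.r rdel = dl k := by rw [h.agr.r rdel (by decide)]; exact h.prep.a.rdel_
  have hoff : s.m OFF = D.m OFF := h.agr.m OFF (by decide)
  have hadj : s.m ADJ = D.m ADJ := h.agr.m ADJ (by decide)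
  have hins := h.ins
  have hA := h.prep.a.adj
  have hle : D.m OFF v ≤ D.m OFF (v + 1) := hA.mono v hvn
  have hset : (seg (D.m ADJ) (D.m OFF v) (D.m OFF (v + 1))).toFinset = nb n G v := by
    ext y
    rw [List.mem_toFinset, hA.mem v hvn, mem_nb h.prep.inn]
  have hlen : D.m OFF (v + 1) - D.m OFF v = dg n G v := by
    rw [dg, ← hset, List.toFinset_card_of_nodup (hA.nd v hvn), seg_length]
  have hdp : ((seg (D.m ADJ) (D.m OFF v) (D.m OFF (v + 1))).filter
      (fun y => decide (y ∉ S))).length = dp n G S.toFinset v := by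
    rw [dp, ← hset, ← List.toFinset_card_of_nodup ((hA.nd v hvn).filter _)]
    congr 1
    ext y
    simp
  unfold pDeg
  refine (Tri.ite (B := 50 * dl k + 40) ?_ ?_).cost ?_
  · intro hb
    simp only [Cond.ev_lt, Exp.ev_get, Exp.ev_reg, hv, hdeg, hdel, decide_eq_true_eq] at hb
    refine Tri.cons (B1 := 5) (B2 := 50 * dl k + 35) ?_ (by omega)
    refine (Tri.lf rfl ?_).cost (by decide)
    refine Tri.cons (B1 := 6) (B2 := 50 * dl k + 29) ?_ (by omega)
    refine (Tri.lf rfl ?_).cost (by decide)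
    refine Tri.cons (B1 := 50 * dl k + 20) (B2 := 5) ?_ (by omega)
    refine (Tri.forC (I := fun j s' => s'.m ADJ = D.m ADJ ∧ s'.m INS = s.m INS ∧
        s'.r rcd = ((seg (D.m ADJ) (D.m OFF v) j).filter (fun y => decide (y ∉ S))).length)
      (B := 20) (a := D.m OFF v) (N := D.m OFF (v + 1)) (by decide) ?_ ?_ hle ?_ ?_ ?_).cost ?_
    · simp [hv, hoff]
    · simp [hv, hoff]
    · refine ⟨by simp [hadj], by simp, by simp⟩
    · rintro j hj1 hj s1 ⟨a1, a2, a3⟩ hrj hhi
      refine (Tri.lf rfl ?_).cost (by decide)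
      have e1 : seg (D.m ADJ) (D.m OFF v) (j + 1) = seg (D.m ADJ) (D.m OFF v) j ++ [D.m ADJ j] :=
        seg_succ _ hj1
      by_cases hf : D.m ADJ j ∈ S
      · have : s1.m INS (D.m ADJ j) = 1 := by rw [a2, hins, if_pos hf]
        simp only [Cmd.ex_ite, Cmd.ex_set, Cmd.ex_skip, Exp.ev_reg, Exp.ev_get, Exp.ev_const,
          Cond.ev_eq, hrj, a1, this]
        refine ⟨⟨by simp [a1], by simp [a2], ?_⟩, by simp [hrj], by simp [hhi]⟩
        simp [a3, e1, List.filter_append, hf]
      · have : s1.m INS (D.m ADJ j) = 0 := by rw [a2, hins, if_neg hf]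
        simp only [Cmd.ex_ite, Cmd.ex_set, Cmd.ex_skip, Exp.ev_reg, Exp.ev_get, Exp.ev_const,
          Cond.ev_eq, hrj, a1, this, decide_true, if_true]
        refine ⟨⟨by simp [a1], by simp [a2], ?_⟩, by simp [hrj], by simp [hhi]⟩
        simp [a3, e1, List.filter_append, hf]
    · rintro s1 ⟨a1, a2, a3⟩ _ _
      refine Tri.nil ?_ (by omega)
      rw [a3, hdp]
    · simp only [Exp.cost, hlen]; omega
  · intro hb
    simp only [Cond.ev_lt, Exp.ev_get, Exp.ev_reg, hv, hdeg, hdel, decide_eq_false_iff_not,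
      not_lt] at hb
    refine (Tri.lf rfl ?_).cost ?_
    · simp only [Cmd.ex_set, St.setR_r, if_true, Exp.ev_get, Exp.ev_reg, hv]
      exact h.dp v hvn hb
    · simp only [Cmd.mc, Exp.cost]; omega
  · simp only [Cond.cost, Exp.cost]; omega

end TL
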