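import Pool.Agent.W_3fea_h44.NLowDefs
import Pool.Agent.W_3fea_h44.NRemove
import Pool.Agent.W_3fea_h44.Aux82

/-! # The first part of `pLow`: maximum of `dp` in `N[x] - S` -/

namespace TL

open Relation Finset Classical

variable {n m k : ℕ} {G : SimpleGraph ℕ} {D : St} {S : List ℕ} {stk : List (ℕ × ℕ)}

/-- registers whose values matter for `AS` -/
def asR : List ℕ := nsR ++ clR ++ [rsp, rst, rmb]
/-- arrays whose values matter for `AS` -/
def asA : List ℕ := nsA ++ clA ++ [SV, SD, MP, MB]

theorem AS.fr {EX : List (Finset ℕ × ℕ)} {VS : Finset (Finset ℕ)} {recs : ℕ → List (List ℕ)}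
    {s s' : St} {wr wa : List ℕ} (h : AS n m k G D S stk EX VS recs s) (hf : Fr wr wa s s')
    (h1 : ∀ x ∈ asR, x ∉ wr) (h2 : ∀ a ∈ asA, a ∉ wa) : AS n m k G D S stk EX VS recs s' := by
  have hsub : ∀ x, x ∈ nsR ∨ x ∈ clR ∨ x = rsp ∨ x = rst ∨ x = rmb → x ∉ wr := by
    intro x hx
    apply h1
    simp only [asR, List.mem_append, List.mem_cons, List.not_mem_nil, or_false]
    tauto
  have hsub2 : ∀ x, x ∈ nsA ∨ x ∈ clA ∨ x = SV ∨ x = SD ∨ x = MP ∨ x = MB → x ∉ wa := by
    intro x hx
    apply h2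
    simp only [asA, List.mem_append, List.mem_cons, List.not_mem_nil, or_false]
    tauto
  exact ⟨h.ns.fr hf (fun x hx => hsub x (Or.inl hx)) (fun a ha => hsub2 a (Or.inl ha)),
    h.cl.fr hf (fun x hx => hsub x (Or.inr (Or.inl hx)))
      (fun a ha => hsub2 a (Or.inr (Or.inl ha))),
    h.stk.fr hf (hsub _ (by simp)) (hsub2 _ (by simp)) (hsub2 _ (by simp)),
    (hf.r rst (hsub _ (by simp))).trans h.st,
    h.memo.fr hf (hsub _ (by simp)) (hsub2 _ (by simp)) (hsub2 _ (by simp)), h.log, h.vs⟩

/-- body of the loop -/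
theorem low_body {s : St} {v : ℕ} (h : NS n m k G D S s) (hv : s.m ADJ (s.r rj) = v)
    (hvn : v < n) :
    Tri s (.blk [
      .set rv (A ADJ (V rj)),
      .whn (.eq (A INS (V rv)) (K 0)) (.blk [
        pDeg,
        .whn (.lt (V rbd) (V rcd)) (.blk [.set rbd (V rcd), .set rc (V rv)])])])
      (50 * (dl k + 1) + 30) (fun s' =>
        s'.r rc = (if v ∉ S ∧ s.r rbd < dp n G S.toFinset v then v else s.r rc) ∧
        s'.r rbd = (if v ∉ S ∧ s.r rbd < dp n G S.toFinset v then dp n G S.toFinset v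
          else s.r rbd)) := by
  refine (Tri.pre 1 rfl (fun s1 hs1 hf1 => ?_)).cost (B := _ + (50 * (dl k + 1) + 26)) ?_
  · have e1 : s1.r rv = v := by simp [hs1, hv]
    have e2 : s1.r rc = s.r rc := by simp [hs1]
    have e3 : s1.r rbd = s.r rbd := by simp [hs1]
    have e4 : s1.m INS v = if v ∈ S then 1 else 0 := by simp [hs1, h.ins]
    have hns : NS n m k G D S s1 := h.fr hf1 (by decide) (by decide)
    refine Tri.cons (B1 := 50 * (dl k + 1) + 25) (B2 := 1) ?_ le_rfl
    refine (Tri.ite (B := 50 * (dl k + 1) + 20) ?_ ?_).cost ?_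
    · intro hb
      simp only [Cond.ev_eq, Exp.ev_get, Exp.ev_reg, Exp.ev_const, e1, e4,
        decide_eq_true_eq] at hb
      have hvS : v ∉ S := by
        intro h'; simp [h'] at hb
      refine Tri.cons (B1 := 50 * (dl k + 1)) (B2 := 20) ((pDeg_spec hns e1 hvn).fr.imp ?_) (by omega)
      rintro s2 ⟨g1, g2⟩
      have e5 : s2.r rv = v := by rw [g2.r rv (by decide), e1]
      have e6 : s2.r rc = s.r rc := by rw [g2.r rc (by decide), e2]
      have e7 : s2.r rbd = s.r rbd := by rw [g2.r rbd (by decide), e3]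
      refine Tri.lf' rfl ?_ (by simp [Cmd.mc, Exp.cost, Cond.cost])
      refine Tri.nil ?_ le_rfl
      by_cases hlt : s.r rbd < dp n G S.toFinset v
      · simp [g1, e5, e6, e7, hlt, hvS]
      · simp [g1, e5, e6, e7, hlt, hvS]
    · intro hb
      simp only [Cond.ev_eq, Exp.ev_get, Exp.ev_reg, Exp.ev_const, e1, e4,
        decide_eq_false_iff_not] at hb
      have hvS : v ∈ S := by
        by_contra h'; simp [h'] at hb
      refine Tri.skip (Tri.nil ?_ le_rfl) (by omega)
      simp [hvS, e2, e3]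
    · simp [Exp.cost, Cond.cost]; omega
  · simp [Cmd.mc, Exp.cost]; omega

/-- the vertex `c` -/
theorem low_arg {s : St} {x : ℕ} (h : NS n m k G D S s) (hx : s.r rx = x) (hxn : x < n)
    (hxS : x ∉ S) (hd : dg n G x < dl k + k) :
    Tri s (.blk [
      .set rc (V rx),
      .set rv (V rx), pDeg, .set rbd (V rcd),
      .set rjh (A OFF (.inc (V rx))),
      .for_ rj (A OFF (V rx)) rjh (.blk [
        .set rv (A ADJ (V rj)),
        .whn (.eq (A INS (V rv)) (K 0)) (.blk [
          pDeg,
          .whn (.lt (V rbd) (V rcd)) (.blk [.set rbd (V rcd), .set rc (V rv)])])])])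
      ((dl k + k + 1) * (50 * (dl k + 1) + 40)) (fun s' =>
        IsArg n G S.toFinset x (s'.r rc) ∧ s'.r rbd = dp n G S.toFinset (s'.r rc)) := by
  have hoff : s.m OFF = D.m OFF := h.agr.m OFF (by decide)
  have hadj : s.m ADJ = D.m ADJ := h.agr.m ADJ (by decide)
  have hmono : D.m OFF x ≤ D.m OFF (x + 1) := h.prep.a.adj.mono x hxn
  have hlen : D.m OFF (x + 1) - D.m OFF x = dg n G x :=
    AdjP.length h.prep.inn h.prep.a.adj hxn
  have hG := h.prep.inn
  refine (Tri.pre 2 rfl (fun s1 hs1 hf1 => ?_)).cost (B := _ + (50 * (dl k + 1) +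
    (20 + (D.m OFF (x + 1) - D.m OFF x) * (50 * (dl k + 1) + 30 + 7)))) ?_
  · have e1 : s1.r rv = x := by simp [hs1, hx]
    have e2 : s1.r rc = x := by simp [hs1, hx]
    have e3 : s1.r rx = x := by simp [hs1, hx]
    have hns1 : NS n m k G D S s1 := h.fr hf1 (by decide) (by decide)
    refine Tri.cons (B1 := 50 * (dl k + 1)) (B2 := 20 + (D.m OFF (x + 1) - D.m OFF x) *
      (50 * (dl k + 1) + 30 + 7)) ((pDeg_spec hns1 e1 hxn).fr.imp ?_) le_rfl
    rintro s2 ⟨g1, g2⟩
    have hns2 : NS n m k G D S s2 := hns1.fr g2 (by decide) (by decide)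
    refine (Tri.pre 2 rfl (fun s3 hs3 hf3 => ?_)).cost (B := _ + (4 + 5 + (D.m OFF (x + 1) -
      D.m OFF x) * (50 * (dl k + 1) + 30 + 7) + 1)) ?_
    · have f1 : s3.r rbd = dp n G S.toFinset x := by simp [hs3, g1]
      have f2 : s3.r rc = x := by rw [hf3.r rc (by decide), g2.r rc (by decide), e2]
      have f3 : s3.r rx = x := by rw [hf3.r rx (by decide), g2.r rx (by decide), e3]
      have hns3 : NS n m k G D S s3 := hns2.fr hf3 (by decide) (by decide)
      have f5 : s2.m OFF = D.m OFF := hns2.agr.m OFF (by decide)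
      have f7 : s2.r rx = x := by rw [g2.r rx (by decide), e3]
      have f4 : s3.r rjh = D.m OFF (x + 1) := by
        simp [hs3, f5, f7]
      have f6 : s3.m OFF = D.m OFF := hns3.agr.m OFF (by decide)
      refine Tri.cons (B1 := 4 + 5 + (D.m OFF (x + 1) -
        D.m OFF x) * (50 * (dl k + 1) + 30 + 7)) (B2 := 1)
        ((Tri.forC (fun j s' => s'.r rc ∉ S ∧ (s'.r rc = x ∨ G.Adj x (s'.r rc)) ∧
          s'.r rbd = dp n G S.toFinset (s'.r rc) ∧
          (∀ t, t ∉ S → (t = x ∨ t ∈ seg (D.m ADJ) (D.m OFF x) j) →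
            dp n G S.toFinset t ≤ dp n G S.toFinset (s'.r rc)) ∧
          Fr [rv, rcd, rhi, rp, rbd, rc, rj] [] s3 s') (50 * (dl k + 1) + 30)
          (a := D.m OFF x) (N := D.m OFF (x + 1)) (by decide) (by simp [f3, f6]) f4 hmono
          ⟨?_, ?_, ?_, ?_, (Fr.refl s3).setR (by decide)⟩ ?_ ?_).cost ?_) le_rfl
      · simpa [f2] using hxS
      · simp [f2]
      · simp [f2, f1]
      · intro t _ ht
        simp only [seg_self, List.not_mem_nil, or_false] at ht
        simp [ht, f2]
      · rintro j hj1 hj2 s4 ⟨i1, i2, i3, i4, i5⟩ hp hhi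
        have hns4 : NS n m k G D S s4 := hns3.fr i5 (by decide) (by decide)
        have hmem : D.m ADJ j ∈ seg (D.m ADJ) (D.m OFF x) (D.m OFF (x + 1)) :=
          mem_seg.2 ⟨j, hj1, hj2, rfl⟩
        have hxv : G.Adj x (D.m ADJ j) := (h.prep.a.adj.mem x hxn _).1 hmem
        have hvn : D.m ADJ j < n := hG.right hxv
        have hv : s4.m ADJ (s4.r rj) = D.m ADJ j := by
          rw [hp, hns4.agr.m ADJ (by decide)]
        refine (low_body hns4 hv hvn).fr.imp ?_
        rintro s5 ⟨⟨k1, k2⟩, k3⟩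
        have k1' : (s5.setR rj (j + 1)).r rc = s5.r rc := by simp
        have k2' : (s5.setR rj (j + 1)).r rbd = s5.r rbd := by simp
        refine ⟨?_, ?_, ?_⟩
        · rw [k1', k2']
          by_cases hc : D.m ADJ j ∉ S ∧ s4.r rbd < dp n G S.toFinset (D.m ADJ j)
          · rw [if_pos hc] at k1 k2
            rw [k1, k2]
            refine ⟨hc.1, Or.inr hxv, rfl, ?_, ?_⟩
            · intro t ht ht'
              rw [seg_succ _ hj1, List.mem_append, List.mem_singleton] at ht'
              rcases ht' with h' | h' | h'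
              · have := i4 t ht (Or.inl h'); rw [← i3] at this; omega
              · have := i4 t ht (Or.inr h'); rw [← i3] at this; omega
              · rw [h']
            · exact (i5.trans (k3.mono (by decide) (by decide))).setR (by decide)
          · rw [if_neg hc] at k1 k2
            rw [k1, k2]
            refine ⟨i1, i2, i3, ?_, ?_⟩
            · intro t ht ht'
              rw [seg_succ _ hj1, List.mem_append, List.mem_singleton] at ht'
              rcases ht' with h' | h' | h'
              · exact i4 t ht (Or.inl h')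
              · exact i4 t ht (Or.inr h')
              · rw [← i3, h']
                rw [h'] at ht
                by_contra hcon
                exact hc ⟨ht, by omega⟩
            · exact (i5.trans (k3.mono (by decide) (by decide))).setR (by decide)
        · rw [k3.r rj (by decide), hp]
        · rw [k3.r rjh (by decide), hhi]
      · rintro s4 ⟨i1, i2, i3, i4, i5⟩ _ _
        refine Tri.nil ⟨⟨by simpa using i1, i2, fun t ht ht' => i4 t (by simpa using ht) ?_⟩, i3⟩
          le_rfl
        rcases ht' with h' | h'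
        · exact Or.inl h'
        · exact Or.inr ((h.prep.a.adj.mem x hxn t).2 h')
      · simp [Exp.cost]
    · simp [Cmd.mc, Exp.cost]; omega
  · rw [hlen]
    have h1 : dg n G x * (50 * (dl k + 1) + 30 + 7) ≤ (dl k + k) * (50 * (dl k + 1) + 40) :=
      Nat.mul_le_mul hd.le (by omega)
    have h2 : (dl k + k + 1) * (50 * (dl k + 1) + 40) =
      (dl k + k) * (50 * (dl k + 1) + 40) + (50 * (dl k + 1) + 40) := by ring
    rw [h2]
    simp [Cmd.mc, Exp.cost]
    omega

end TL
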