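import Pool.Agent.W_3fea_h44.NTreat
import Pool.Agent.W_3fea_h44.NLowArg

/-! # Specification of `pAloop` -/

namespace TL

open Relation Finset Classical

variable {n m k : ℕ} {G : SimpleGraph ℕ} {D : St} {S : List ℕ} {stk : List (ℕ × ℕ)}

theorem alL_mem {D : St} (hP : Prep n m k G D) {i : ℕ} (hi : i < D.r rnA) :
    D.m AL i < n ∧ dl k ≤ dg n G (D.m AL i) := by
  have h1 : D.m AL i ∈ alL D := mem_seg.2 ⟨i, Nat.zero_le _, hi, rfl⟩
  rw [hP.a.al, List.mem_filter, List.mem_range, decide_eq_true_eq] at h1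
  exact h1

theorem alL_full {D : St} (hP : Prep n m k G D) {x : ℕ} (hx : x < n) (hd : dl k ≤ dg n G x) :
    ∃ i < D.r rnA, D.m AL i = x := by
  have h1 : x ∈ alL D := by
    rw [hP.a.al, List.mem_filter, List.mem_range, decide_eq_true_eq]
    exact ⟨hx, hd⟩
  obtain ⟨i, _, h2, h3⟩ := mem_seg.1 h1
  exact ⟨i, h2, h3⟩

theorem rnA_card {D : St} (hP : Prep n m k G D) :
    ((range n).filter (fun v => dl k ≤ dg n G v)).card = D.r rnA := by
  have h1 : (alL D).length = D.r rnA := by simp [alL]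
  rw [← h1, hP.a.al, ← List.toFinset_card_of_nodup (List.nodup_range.filter _)]
  congr 1
  ext v
  simp

theorem rng_card {D : St} (hP : Prep n m k G D) :
    ((range n).filter (fun v => D.r rtau ≤ dg n G v)).card = D.r rng := by
  have h1 : (giL D).length = D.r rng := by simp [giL]
  rw [← h1, hP.a.gi, ← List.toFinset_card_of_nodup (List.nodup_range.filter _)]
  congr 1
  ext v
  simp

theorem pot_le {D : St} (hP : Prep n m k G D) (V : ℕ) (s : St) :
    pot n k V G D s ≤ 1000 * ((k + 2) * (V + 3)) * D.r rnA +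
      500 * (D.r rnn + D.r rnK + 1) * D.r rng := by
  unfold pot
  refine Nat.add_le_add (Nat.mul_le_mul_left _ ?_) (Nat.mul_le_mul_left _ ?_)
  · rw [← rnA_card hP]
    exact card_le_card (fun v hv => by
      rw [mem_filter] at hv ⊢; exact ⟨hv.1, hv.2.1⟩)
  · rw [← rng_card hP]
    exact card_le_card (fun v hv => by
      rw [mem_filter] at hv ⊢; exact ⟨hv.1, hv.2.1⟩)

theorem pot_congr {D : St} {V : ℕ} {s s' : St} (h : s'.m RM = s.m RM) :
    pot n k V G D s' = pot n k V G D s := by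
  unfold pot; rw [h]

theorem RmOK.congr {s s' : St} (h : RmOK n k G S s) (h' : s'.m RM = s.m RM) :
    RmOK n k G S s' := by
  unfold RmOK at h ⊢; rw [h']; exact h

theorem pAloop_spec {EX : List (Finset ℕ × ℕ)} {VS : Finset (Finset ℕ)}
    {recs : ℕ → List (List ℕ)} {s : St} (h : AS n m k G D S stk EX VS recs s)
    (hrm : ∀ v < n, dl k ≤ dg n G v → s.m RM v = 0) :
    Trt s pAloop (fun t s' => ∃ EX1 recs',
      ((AS n m k G D S stk (EX1 ++ EX) VS recs' s' ∧
        ∀ x < n, x ∉ S → dl k ≤ dp n G S.toFinset x → Dom G S.toFinset x) ∨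
      BS n m k G D S stk (EX1 ++ EX) VS recs' s') ∧
      t ≤ 1000 * ((k + 2) * (VS.card + 3)) * (2 * D.r rnA + 1) +
        500 * (D.r rnn + D.r rnK + 1) * D.r rng + (EX1.map (xc n k G D)).sum + bb k D) := by
  have hP := h.ns.prep
  unfold pAloop
  refine Trt.pre 1 rfl (fun s1 hs1 hf1 t1 ht1 => ?_)
  have ht1' : t1 ≤ 3 := ht1
  have h1 : AS n m k G D S stk EX VS recs s1 := h.fr hf1 (by decide) (by decide)
  have hrm1 : ∀ v < n, dl k ≤ dg n G v → s1.m RM v = 0 := by
    intro v hv hd; rw [hf1.m RM (by decide)]; exact hrm v hv hd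
  have hri1 : s1.r ri = 0 := by simp [hs1]
  have hok1 : RmOK n k G S s1 := by
    refine ⟨fun v hv hd => Or.inl (hrm1 v hv hd), fun v hv hd h' => ?_⟩
    rw [hrm1 v hv hd] at h'; omega
  have hpot1 := pot_le hP VS.card s1
  have hC : 1000 * ((k + 2) * (VS.card + 3)) * (2 * D.r rnA + 1) =
      1000 * ((k + 2) * (VS.card + 3)) * D.r rnA + 1000 * ((k + 2) * (VS.card + 3)) * D.r rnA +
        1000 * ((k + 2) * (VS.card + 3)) := by ring
  have hC6 : 6 ≤ (k + 2) * (VS.card + 3) := 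
    Nat.mul_le_mul (show 2 ≤ k + 2 by omega) (show 3 ≤ VS.card + 3 by omega)
  have hC1 : 60 * D.r rnA ≤ 1000 * ((k + 2) * (VS.card + 3)) * D.r rnA :=
    Nat.mul_le_mul_right _ (by omega)
  refine Trt.cons (Trt.loop (I := fun t s' => ∃ EX1 recs',
    (AS n m k G D S stk (EX1 ++ EX) VS recs' s' ∧ RmOK n k G S s' ∧
      (∀ j < s'.r ri, D.m AL j ∉ S → dl k ≤ dp n G S.toFinset (D.m AL j) →
        Dom G S.toFinset (D.m AL j)) ∧ s'.r ri ≤ D.r rnA ∧
      t + pot n k VS.card G D s' ≤ pot n k VS.card G D s1 + (EX1.map (xc n k G D)).sum +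
        60 * s'.r ri) ∨
    (BS n m k G D S stk (EX1 ++ EX) VS recs' s' ∧
      t ≤ pot n k VS.card G D s1 + (EX1.map (xc n k G D)).sum + 60 * D.r rnA + bb k D))
    (M := fun s' => D.r rnA - s'.r ri) ⟨[], recs, Or.inl ⟨h1, hok1, by simp [hri1],
      by omega, by simp⟩⟩ ?_ ?_)
  · rintro t s2 ⟨EX1, recs1, ⟨i1, i2, i3, i4, i5⟩ | ⟨i1, _⟩⟩ hb
    swap
    · simp [i1.st] at hb
    have hnA : s2.r rnA = D.r rnA := i1.ns.agr.r rnA (by decide)
    simp only [Cond.ev_and, Cond.ev_lt, Cond.ev_eq, Exp.ev_reg, Exp.ev_const, hnA, i1.st,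
      decide_true, Bool.and_true, decide_eq_true_eq] at hb
    obtain ⟨i, hi⟩ : ∃ i, s2.r ri = i := ⟨_, rfl⟩
    rw [hi] at hb i3 i4 i5
    obtain ⟨x, hx⟩ : ∃ x, D.m AL i = x := ⟨_, rfl⟩
    have hxm := alL_mem hP hb
    rw [hx] at hxm
    refine Trt.pre 2 rfl (fun s3 hs3 hf3 t3 ht3 => ?_)
    have ht3' : t3 ≤ 7 := ht3
    have h3 : AS n m k G D S stk (EX1 ++ EX) VS recs1 s3 := i1.fr hf3 (by decide) (by decide)
    have hal2 : s2.m AL = D.m AL := i1.ns.agr.m AL (by decide)
    have hx3 : s3.r rx = x := by simp [hs3, hal2, hi, hx]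
    have hi3 : s3.r ri = i + 1 := by simp [hs3, hi]
    have hRM : s3.m RM = s2.m RM := hf3.m RM (by decide)
    have hok3 : RmOK n k G S s3 := i2.congr hRM
    have hpot3 : pot n k VS.card G D s3 = pot n k VS.card G D s2 := pot_congr hRM
    have hins : s3.m INS x = if x ∈ S then 1 else 0 := h3.ns.ins x
    have hdp : s3.m DP x = dp n G S.toFinset x := h3.ns.dp x hxm.1 hxm.2
    have hdel : s3.r rdel = dl k := by rw [h3.ns.agr.r rdel (by decide), hP.a.rdel_]
    refine Trt.cons (Trt.ite ?_ ?_)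
    · intro hb3
      simp only [Cond.ev_all_cons, Cond.ev_all_one, Cond.ev_eq, Cond.ev_not, Cond.ev_lt,
        Exp.ev_get, Exp.ev_reg, Exp.ev_const, hx3, hins, hdp, hdel, Bool.and_eq_true,
        decide_eq_true_eq, Bool.not_eq_true', decide_eq_false_iff_not, not_lt] at hb3
      obtain ⟨g1, g2, g3⟩ := hb3
      have hxS : x ∉ S := by
        intro h'; simp [h'] at g1
      refine (pTreat_spec h3 hok3 hx3 hxm.1 hxS g2 g3).fr.imp ?_
      rintro u s4 ⟨⟨EX2, recs2, hcase⟩, hf4⟩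
      have hi4 : s4.r ri = i + 1 := by rw [hf4.r ri (by decide), hi3]
      refine Trt.nil ?_
      refine ⟨⟨EX2 ++ EX1, recs2, ?_⟩, by rw [hi4, hi]; omega⟩
      have hsum : ((EX2 ++ EX1).map (xc n k G D)).sum =
          (EX2.map (xc n k G D)).sum + (EX1.map (xc n k G D)).sum := by
        rw [List.map_append, List.sum_append]
      rw [List.append_assoc]
      rcases hcase with ⟨j1, j2, j3, j4⟩ | ⟨j1, j2⟩
      · left
        refine ⟨j1, j2, ?_, by omega, ?_⟩
        · intro j hj hjS hjd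
          rw [hi4] at hj
          rcases Nat.lt_succ_iff_lt_or_eq.1 hj with h' | h'
          · exact i3 j h' hjS hjd
          · rw [h', hx]; exact j3
        · rw [hsum, hi4]
          simp only [Cond.cost, Exp.cost, Cond.all]
          omega
      · right
        refine ⟨j1, ?_⟩
        rw [hsum]
        have : 60 * (i + 1) ≤ 60 * D.r rnA := Nat.mul_le_mul_left _ (by omega)
        simp only [Cond.cost, Exp.cost, Cond.all]
        omega
    · intro hb3
      simp only [Cond.ev_all_cons, Cond.ev_all_one, Cond.ev_eq, Cond.ev_not, Cond.ev_lt,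
        Exp.ev_get, Exp.ev_reg, Exp.ev_const, hx3, hins, hdp, hdel] at hb3
      refine ⟨s3, 1, Run.skip s3, Trt.nil ⟨⟨EX1, recs1, Or.inl ⟨h3, hok3, ?_, by omega, ?_⟩⟩, ?_⟩⟩
      · intro j hj hjS hjd
        rw [hi3] at hj
        rcases Nat.lt_succ_iff_lt_or_eq.1 hj with h' | h'
        · exact i3 j h' hjS hjd
        · rw [h', hx] at hjS hjd ⊢
          by_contra hcon
          have hRx : s3.m RM x = 0 := by
            rcases hok3.1 x hxm.1 hxm.2 with h'' | h''
            · exact h''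
            · exact absurd (hok3.2 x hxm.1 hxm.2 h'').2.1 hcon
          have hnlt : ¬ dp n G S.toFinset x < dl k := by omega
          simp [hjS, hRx, hnlt] at hb3
      · rw [hpot3, hi3]
        simp only [Cond.cost, Exp.cost, Cond.all]
        omega
      · rw [hi3, hi]; omega
  · rintro t s2 ⟨EX1, recs1, ⟨i1, i2, i3, i4, i5⟩ | ⟨i1, i2⟩⟩ hb
    · have hnA : s2.r rnA = D.r rnA := i1.ns.agr.r rnA (by decide)
      simp only [Cond.ev_and, Cond.ev_lt, Cond.ev_eq, Exp.ev_reg, Exp.ev_const, hnA, i1.st,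
        decide_true, Bool.and_true, decide_eq_false_iff_not, not_lt] at hb
      refine Trt.nil ⟨EX1, recs1, Or.inl ⟨i1, ?_⟩, ?_⟩
      · intro x hxn hxS hxd
        obtain ⟨j, hj, hjx⟩ := alL_full hP hxn (hxd.trans (dp_le_dg x))
        have := i3 j (by omega)
        rw [hjx] at this
        exact this hxS hxd
      · have : 60 * s2.r ri ≤ 60 * D.r rnA := Nat.mul_le_mul_left _ i4
        rw [hC]
        simp only [Cond.cost, Exp.cost]
        omega
    · refine Trt.nil ⟨EX1, recs1, Or.inr i1, ?_⟩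
      rw [hC]
      simp only [Cond.cost, Exp.cost]
      omega

end TL
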