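import Pool.Agent.W_3fea_h44.NodeDefs

/-! # Specification of `pArgmax` -/

namespace TL

open Relation Finset Classical

variable {n m k : ℕ} {G : SimpleGraph ℕ} {D : St} {S : List ℕ} {x c : ℕ}

/-- `c` is the best vertex of `x` and the list `l` -/
private def AmGood (n k : ℕ) (G : SimpleGraph ℕ) (S : List ℕ) (x : ℕ) (l : List ℕ) (c : ℕ) :
    Prop :=
  c < n ∧ c ∉ S ∧ (c = x ∨ G.Adj x c) ∧ dl k ≤ dg n G c ∧
    ∀ t, (t = x ∨ t ∈ l) → t ∉ S →
      dp n G S.toFinset t < dp n G S.toFinset c ∨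
        (dp n G S.toFinset t = dp n G S.toFinset c ∧ c ≤ t)

private theorem am_dp_le (n : ℕ) (G : SimpleGraph ℕ) (S : Finset ℕ) (v : ℕ) :
    dp n G S v ≤ dg n G v := card_le_card sdiff_subset

/-- the loop over the list of neighbours of degree at least `δ` -/
private theorem am_loop {s : St} (h : NS n m k G D S s) (hxn : x < n) {s2 : St}
    (hm : s2.m = s.m) (hrx : s2.r rx = x) (hhi : s2.r rhi = D.m OFA (x + 1))
    (h0 : AmGood n k G S x [] (s2.r rc)) :
    Tri s2 (.for_ rp (A OFA (V rx)) rhi (.blk [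
      .set ry (A ADA (V rp)),
      .whn (.and (.eq (A INS (V ry)) (K 0))
        (.or (.lt (A DP (V rc)) (A DP (V ry)))
          (.and (.eq (A DP (V rc)) (A DP (V ry))) (.lt (V ry) (V rc)))))
        (.set rc (V ry))])) (7 + (D.m OFA (x + 1) - D.m OFA x) * (30 + 7))
      (fun s' => AmGood n k G S x (adA D x) (s'.r rc)) := by
  have hOFA := h.agr.m OFA (by decide)
  have hADA := h.agr.m ADA (by decide)
  have haN := h.prep.a.ofa x hxn
  refine Tri.forC (a := D.m OFA x)
    (fun j s' => s'.m = s.m ∧ AmGood n k G S x (seg (D.m ADA) (D.m OFA x) j) (s'.r rc)) 30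
    (by decide) ?_ hhi haN ?_ ?_ ?_
  · simp [hm, hrx, hOFA]
  · refine ⟨by simp [hm], ?_⟩
    rw [seg_self]
    simpa using h0
  · rintro j hj1 hj2 s3 ⟨hm3, hg⟩ hp3 hhi3
    obtain ⟨g1, g2, g3, g4, g5⟩ := hg
    refine (Tri.lf (by decide) ?_).cost (by decide)
    have hmem : D.m ADA j ∈ adA D x := mem_seg.2 ⟨j, hj1, hj2, rfl⟩
    rw [h.prep.a.ada x hxn, List.mem_filter] at hmem
    obtain ⟨hy1, hy2⟩ := hmem
    have hadj : G.Adj x (D.m ADA j) := (h.prep.a.adj.mem x hxn _).1 hy1
    have hydl : dl k ≤ dg n G (D.m ADA j) := by simpa using hy2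
    have hyn : D.m ADA j < n := h.prep.inn.right hadj
    have hdy := h.dp _ hyn hydl
    have hdc := h.dp _ g1 g4
    have hins := h.ins (D.m ADA j)
    have hseg : seg (D.m ADA) (D.m OFA x) (j + 1) = seg (D.m ADA) (D.m OFA x) j ++ [D.m ADA j] :=
      seg_succ _ hj1
    have key : ∀ c' : ℕ, (c' = s3.r rc ∨ (c' = D.m ADA j ∧ c' ∉ S)) →
        (dp n G S.toFinset (s3.r rc) < dp n G S.toFinset c' ∨
          (dp n G S.toFinset (s3.r rc) = dp n G S.toFinset c' ∧ c' ≤ s3.r rc)) →
        (D.m ADA j ∉ S → dp n G S.toFinset (D.m ADA j) < dp n G S.toFinset c' ∨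
          (dp n G S.toFinset (D.m ADA j) = dp n G S.toFinset c' ∧ c' ≤ D.m ADA j)) →
        AmGood n k G S x (seg (D.m ADA) (D.m OFA x) (j + 1)) c' := by
      intro c' h1 h2 h3
      have hc' : c' < n ∧ c' ∉ S ∧ (c' = x ∨ G.Adj x c') ∧ dl k ≤ dg n G c' := by
        rcases h1 with rfl | ⟨rfl, h1⟩
        · exact ⟨g1, g2, g3, g4⟩
        · exact ⟨hyn, h1, Or.inr hadj, hydl⟩
      refine ⟨hc'.1, hc'.2.1, hc'.2.2.1, hc'.2.2.2, ?_⟩
      intro t ht htS
      rw [hseg, List.mem_append, List.mem_singleton] at ht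
      rcases ht with ht | ht | ht
      · have := g5 t (Or.inl ht) htS
        omega
      · have := g5 t (Or.inr ht) htS
        omega
      · rw [ht]
        exact h3 (ht ▸ htS)
    simp only [Cmd.ex_cons, Cmd.ex_set, Cmd.ex_nil, Cmd.ex_ite, Cmd.ex_skip, Exp.ev_get,
      Exp.ev_reg, hp3]
    have hne : ¬ (rc : ℕ) = ry := by decide
    split_ifs with hb
    · simp only [Cond.ev_and, Cond.ev_or, Cond.ev_eq, Cond.ev_lt, Exp.ev_get, Exp.ev_reg,
        Exp.ev_const, St.setR_r, St.setR_m, if_true, Bool.and_eq_true, Bool.or_eq_true,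
        decide_eq_true_eq] at hb
      rw [if_neg hne, hm3, hADA, hins, hdy, hdc] at hb
      obtain ⟨hb1, hb2⟩ := hb
      have hnS : D.m ADA j ∉ S := by
        intro hin
        rw [if_pos hin] at hb1
        exact absurd hb1 (by decide)
      have e : ((((s3.setR ry (s3.m ADA j)).setR rc ((s3.setR ry (s3.m ADA j)).r ry)).setR rp
          (j + 1)).r rc) = D.m ADA j := by
        simp [hm3, hADA]
      refine ⟨⟨by simp [hm3], ?_⟩, by simp [hp3], by simp [hhi3]⟩
      rw [e]
      exact key _ (Or.inr ⟨rfl, hnS⟩) (by omega) (fun _ => by omega)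
    · simp only [Cond.ev_and, Cond.ev_or, Cond.ev_eq, Cond.ev_lt, Exp.ev_get, Exp.ev_reg,
        Exp.ev_const, St.setR_r, St.setR_m, if_true, Bool.and_eq_true, Bool.or_eq_true,
        decide_eq_true_eq] at hb
      rw [if_neg hne, hm3, hADA, hins, hdy, hdc] at hb
      have e : (((s3.setR ry (s3.m ADA j)).setR rp (j + 1)).r rc) = s3.r rc := by
        simp
      refine ⟨⟨by simp [hm3], ?_⟩, by simp [hp3], by simp [hhi3]⟩
      rw [e]
      refine key _ (Or.inl rfl) (by omega) (fun hnS => ?_)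
      rw [if_neg hnS] at hb
      omega
  · rintro s' ⟨h1, h2⟩ h3 h4
    exact h2

theorem pArgmax_spec {s : St} (h : NS n m k G D S s) (hx : s.r rx = x) (hxn : x < n)
    (hxS : x ∉ S) (hdp : dl k ≤ dp n G S.toFinset x) :
    Tri s pArgmax (100 * ((adA D x).length + 1)) (fun s' =>
      s'.r rc < n ∧ IsBest n G S.toFinset x (s'.r rc)) := by
  have hOFA := h.agr.m OFA (by decide)
  have hlen : (adA D x).length = D.m OFA (x + 1) - D.m OFA x := by simp [adA]
  have hloop := am_loop (x := x) h hxn (s2 := (s.setR rc x).setR rhi (D.m OFA (x + 1)))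
    (by simp) (by simp [hx]) (by simp) (by
      refine ⟨by simpa using hxn, by simpa using hxS, by simp, ?_, ?_⟩
      · simp only [St.setR_r]
        exact hdp.trans (am_dp_le _ _ _ _)
      · intro t ht _
        simp only [List.not_mem_nil, or_false] at ht
        subst ht
        simp)
  unfold pArgmax
  refine Tri.cons (B1 := 2) (B2 := 5 + (7 + (D.m OFA (x + 1) - D.m OFA x) * (30 + 7))) ?_ (by omega)
  refine Tri.set ?_ (by decide)
  refine Tri.cons (B1 := 4) (B2 := 1 + (7 + (D.m OFA (x + 1) - D.m OFA x) * (30 + 7))) ?_ (by omega)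
  refine Tri.set ?_ (by decide)
  have e : (s.setR rc ((V rx).ev s)).setR rhi ((A OFA (.inc (V rx))).ev (s.setR rc ((V rx).ev s))) =
      (s.setR rc x).setR rhi (D.m OFA (x + 1)) := by
    simp [hx, hOFA]
  rw [e]
  refine Tri.cons (B1 := 7 + (D.m OFA (x + 1) - D.m OFA x) * (30 + 7)) (B2 := 1) ?_ (by omega)
  refine hloop.imp ?_
  rintro s' ⟨g1, g2, g3, g4, g5⟩
  refine Tri.nil ⟨g1, ?_, g3, ?_⟩ le_rfl
  · simpa using g2
  · intro t ht htx
    have ht' : t ∉ S := by simpa using ht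
    have hxc := g5 x (Or.inl rfl) hxS
    rcases htx with htx | htx
    · exact g5 t (Or.inl htx) ht'
    · by_cases hd : dl k ≤ dg n G t
      · refine g5 t (Or.inr ?_) ht'
        rw [h.prep.a.ada x hxn, List.mem_filter]
        exact ⟨(h.prep.a.adj.mem x hxn _).2 htx, by simpa using hd⟩
      · left
        have := am_dp_le n G S.toFinset t
        omega

end TL
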