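import Pool.Agent.W_3fea_h44.NBranchDefs

/-! # Specification of `pBranch` -/

namespace TL

open Relation Finset Classical

variable {n m k : ℕ} {G : SimpleGraph ℕ} {D : St} {S : List ℕ} {x c : ℕ}

namespace Br

theorem length_dg (hG : Inn n G) {off adj : ℕ → ℕ} (h : AdjP n m G off adj) {v : ℕ} (hv : v < n) :
    off (v + 1) - off v = dg n G v := by
  have h1 : (seg adj (off v) (off (v + 1))).toFinset = nb n G v := by
    ext y
    rw [List.mem_toFinset, h.mem v hv, mem_nb hG]
  have h2 := List.toFinset_card_of_nodup (h.nd v hv)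
  rw [h1, seg_length] at h2
  exact h2.symm

/-- the list computed so far -/
structure QI (G : SimpleGraph ℕ) (S U : Finset ℕ) (M : List (ℕ × ℕ)) (lim : ℕ) (Q : List ℕ) :
    Prop where
  pre : flat M <+: Q
  nd : Q.Nodup
  new : ∀ i, 2 * M.length ≤ i → (h : i < Q.length) →
    Q[i] ∉ U ∧ Q[i] ∉ S ∧ ∃ j, ∃ hj : j < i, G.Adj (Q[j]'(hj.trans h)) Q[i]
  len : Q.length ≤ max (2 * M.length) (lim + 1)

theorem QI.snoc {S U : Finset ℕ} {M : List (ℕ × ℕ)} {lim : ℕ} {Q : List ℕ}
    (h : QI G S U M lim Q) {y : ℕ} (hU : y ∉ U) (hS : y ∉ S) (hQ : y ∉ Q)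
    (hadj : ∃ p ∈ Q, G.Adj p y) (hlen : Q.length ≤ lim) : QI G S U M lim (Q ++ [y]) := by
  refine ⟨h.pre.trans (List.prefix_append _ _), ?_, ?_, ?_⟩
  · rw [List.nodup_append]
    refine ⟨h.nd, List.nodup_singleton _, ?_⟩
    intro a ha b hb
    rw [List.mem_singleton] at hb
    subst hb
    rintro rfl
    exact hQ ha
  · intro i h1 h2
    by_cases hi : i < Q.length
    · obtain ⟨a1, a2, j, hj, a3⟩ := h.new i h1 hi
      have e1 : (Q ++ [y])[i] = Q[i] := List.getElem_append_left hi
      refine ⟨by rw [e1]; exact a1, by rw [e1]; exact a2, j, hj, ?_⟩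
      have e2 : (Q ++ [y])[j]'(hj.trans h2) = Q[j]'(hj.trans hi) :=
        List.getElem_append_left (hj.trans hi)
      rw [e1, e2]
      exact a3
    · have hi' : i = Q.length := by
        rw [List.length_append, List.length_singleton] at h2
        omega
      subst hi'
      have e1 : (Q ++ [y])[Q.length] = y := by simp
      obtain ⟨p, hp, hpy⟩ := hadj
      obtain ⟨j, hj, rfl⟩ := List.mem_iff_getElem.1 hp
      refine ⟨by rw [e1]; exact hU, by rw [e1]; exact hS, j, hj, ?_⟩
      have e2 : (Q ++ [y])[j]'(hj.trans h2) = Q[j] := List.getElem_append_left hj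
      rw [e1, e2]
      exact hpy
  · rw [List.length_append, List.length_singleton]
    omega

theorem QI.out (hG : Inn n G) {S U : Finset ℕ} {M : List (ℕ × ℕ)} {lim : ℕ} {Q : List ℕ}
    (h : QI G S U M lim Q) (hM : IsMat G S U M) (hU : ∀ v ∈ U, v < n ∧ v ∉ S) :
    ∀ y ∈ Q, y < n ∧ y ∉ S := by
  intro y hy
  obtain ⟨i, hi, rfl⟩ := List.mem_iff_getElem.1 hy
  by_cases h1 : 2 * M.length ≤ i
  · obtain ⟨a1, a2, j, hj, a3⟩ := h.new i h1 hi
    exact ⟨hG.right a3, a2⟩
  · have h3 : i < (flat M).length := by rw [flat_length]; omega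
    have h4 : Q[i] = (flat M)[i] := (List.IsPrefix.getElem h.pre h3).symm
    have h5 : Q[i] ∈ flat M := by rw [h4]; exact List.getElem_mem h3
    obtain ⟨e, he, h6⟩ := mem_flat.1 h5
    have hed := hM.edge e he
    rcases h6 with h6 | h6
    · rw [h6]; exact hU _ hed.1
    · rw [h6]; exact ⟨hG.right hed.2.2.2, hed.2.2.1⟩

/-- registers and arrays changed by the closure loop -/
abbrev WR : List ℕ := [ra, rii, rp, rhi, ry, rj, rnp]
/-- arrays -/
abbrev WA : List ℕ := [MM, PQ]

/-- the invariant of the closure loop -/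
structure BI (G : SimpleGraph ℕ) (S : List ℕ) (U : Finset ℕ) (M : List (ℕ × ℕ)) (lim : ℕ)
    (s0 : St) (Q : List ℕ) (s : St) : Prop where
  fr : Fr WR WA s0 s
  pq : seg (s.m PQ) 0 (s.r rnp) = Q
  mm : ∀ v, s.m MM v = ind Q v
  q : QI G S.toFinset U M lim Q

theorem BI.np {U : Finset ℕ} {M : List (ℕ × ℕ)} {lim : ℕ} {s0 s : St} {Q : List ℕ}
    (h : BI G S U M lim s0 Q s) : s.r rnp = Q.length := by
  rw [← h.pq, seg_length]; rfl

theorem BI.setR {U : Finset ℕ} {M : List (ℕ × ℕ)} {lim : ℕ} {s0 s : St} {Q : List ℕ}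
    (h : BI G S U M lim s0 Q s) {x v : ℕ} (hx : x ∈ [ra, rii, rp, rhi, ry, rj]) :
    BI G S U M lim s0 Q (s.setR x v) := by
  have hx1 : rnp ≠ x := by
    rintro rfl; revert hx; decide
  have hx2 : x ∈ WR := by
    simp only [WR, List.mem_cons, List.not_mem_nil, or_false] at hx ⊢
    tauto
  refine ⟨⟨fun y hy => ?_, fun a ha => h.fr.m a ha⟩, ?_, h.mm, h.q⟩
  · have : y ≠ x := fun e => hy (e ▸ hx2)
    rw [St.setR_r, if_neg this]
    exact h.fr.r y hy
  · rw [St.setR_r, if_neg hx1]
    exact h.pq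

theorem pTry_lem {M : List (ℕ × ℕ)} {s0 : St} (h0 : TS n m k G D S c M s0) {lim : ℕ}
    {Q : List ℕ} {s : St} (h : BI G S (Uc n G S.toFinset c) M lim s0 Q s) {y : ℕ}
    (hy : s.r ry = y) (hadj : ∃ p ∈ Q, G.Adj p y) (hlen : Q.length ≤ lim) :
    Tri s pTry 40 (fun s' => ∃ Q', BI G S (Uc n G S.toFinset c) M lim s0 Q' s' ∧ Q <+: Q' ∧
      (y ∈ Uc n G S.toFinset c ∨ y ∈ S ∨ y ∈ Q')) := by
  have hG := h0.ns.prep.inn
  have hyn : y < n := by
    obtain ⟨p, _, hp⟩ := hadj
    exact hG.right hp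
  have hins : s.m INS y = if y ∈ S then 1 else 0 := by
    rw [h.fr.m INS (by decide)]; exact h0.ns.ins y
  have hmm := h.mm y
  have hU := h0.inU y hyn
  rw [← h.fr.m MU (by decide), ← h.fr.m CM (by decide), ← h.fr.m NODE (by decide)] at hU
  by_cases hcond : y ∉ S ∧ y ∉ Uc n G S.toFinset c ∧ y ∉ Q
  · obtain ⟨c1, c2, c3⟩ := hcond
    have d1 : s.m INS y = 0 := by rw [hins, if_neg c1]
    obtain ⟨d2, d3⟩ := (hU c1).2 c2
    have d4 : s.m MM y = 0 := by rw [hmm, ind, if_neg c3]
    refine Tri.cost (Tri.lf (by decide) ?_) (by decide)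
    refine ⟨Q ++ [y], ⟨?_, ?_, ?_, ?_⟩, List.prefix_append _ _, Or.inr (Or.inr (by simp))⟩
    · refine h.fr.trans ?_
      obtain ⟨t, _, ht⟩ := pTry.lf_run s (by decide)
      exact ht.frame.mono (by decide) (by decide)
    · simp (config := {decide := true}) [pTry, hy, d1, d2, d3, d4]
      rw [seg_succ _ (Nat.zero_le _), seg_update (Or.inr le_rfl), h.pq]
      simp
    · intro v
      simp (config := {decide := true}) [pTry, hy, d1, d2, d3, d4]
      rw [Function.update_apply]
      split_ifs with hv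
      · subst hv; simp [ind]
      · rw [h.mm v]
        simp [ind, hv]
    · exact h.q.snoc c2 (by simpa using c1) c3 hadj hlen
  · have key : (s.m INS y = 0 ∧ s.m MU y = 0 ∧ s.m CM (s.m NODE y) = 0 ∧ s.m MM y = 0) → False := by
      rintro ⟨d1, d2, d3, d4⟩
      apply hcond
      have c1 : y ∉ S := by
        intro hS
        rw [hins, if_pos hS] at d1
        exact absurd d1 (by decide)
      refine ⟨c1, (hU c1).1 ⟨d2, d3⟩, fun hQ => ?_⟩
      rw [hmm, ind, if_pos hQ] at d4
      exact absurd d4 (by decide)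
    refine Tri.cost (Tri.lf (by decide) ?_) (by decide)
    have hex : pTry.ex s = s := by
      have : (Cond.all [.eq (A INS (V ry)) (K 0), .eq (A MU (V ry)) (K 0),
        .eq (A CM (A NODE (V ry))) (K 0), .eq (A MM (V ry)) (K 0)]).ev s = false := by
        rw [Bool.eq_false_iff]
        intro hb
        apply key
        simpa [hy] using hb
      simp only [pTry, Cmd.whn, Cmd.ex_ite, this, Bool.false_eq_true, if_false, Cmd.ex_skip]
    rw [hex]
    refine ⟨Q, h, List.prefix_refl _, ?_⟩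
    by_contra hcon
    push Not at hcon
    exact hcond ⟨hcon.2.1, hcon.1, hcon.2.2⟩


theorem TS.stat {M : List (ℕ × ℕ)} {s0 : St} (h0 : TS n m k G D S c M s0) {U : Finset ℕ}
    {lim : ℕ} {Q : List ℕ} {s : St} (h : BI G S U M lim s0 Q s) :
    s.m OFF = D.m OFF ∧ s.m ADJ = D.m ADJ ∧ s.m DEG = D.m DEG ∧ s.m KX = D.m KX ∧
    s.m KY = D.m KY ∧ s.r rtau = D.r rtau ∧ s.r rnK = D.r rnK ∧ s.r rc = c := by
  refine ⟨?_, ?_, ?_, ?_, ?_, ?_, ?_, ?_⟩
  · rw [h.fr.m OFF (by decide)]; exact h0.ns.agr.m OFF (by decide)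
  · rw [h.fr.m ADJ (by decide)]; exact h0.ns.agr.m ADJ (by decide)
  · rw [h.fr.m DEG (by decide)]; exact h0.ns.agr.m DEG (by decide)
  · rw [h.fr.m KX (by decide)]; exact h0.ns.agr.m KX (by decide)
  · rw [h.fr.m KY (by decide)]; exact h0.ns.agr.m KY (by decide)
  · rw [h.fr.r rtau (by decide)]; exact h0.ns.agr.r rtau (by decide)
  · rw [h.fr.r rnK (by decide)]; exact h0.ns.agr.r rnK (by decide)
  · rw [h.fr.r rc (by decide)]; exact h0.c_

theorem U_out {M : List (ℕ × ℕ)} {s0 : St} (h0 : TS n m k G D S c M s0) :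
    ∀ v ∈ Uc n G S.toFinset c, v < n ∧ v ∉ S.toFinset := fun v hv =>
  ⟨Uc_lt h0.ns.prep.inn h0.cn_ v hv,
    Uc_disjoint h0.ns.prep.inn (by simpa using h0.cS) v hv⟩

theorem Q_len {M : List (ℕ × ℕ)} {s0 : St} (h0 : TS n m k G D S c M s0) {U : Finset ℕ} {lim : ℕ}
    (hlim : lim = M.length + (k - S.length)) {Q : List ℕ} {s : St}
    (h : BI G S U M lim s0 Q s) : Q.length ≤ 4 * k + 2 := by
  have h1 := h.q.len
  have h2 := h0.test.le
  omega

/-- scan of the adjacency list of `a` -/
theorem scan1 {M : List (ℕ × ℕ)} {s0 : St} (h0 : TS n m k G D S c M s0) {lim : ℕ}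
    (hlim : lim = M.length + (k - S.length)) (hl2 : s0.r rlim2 = lim) {Q : List ℕ} {s : St}
    (h : BI G S (Uc n G S.toFinset c) M lim s0 Q s) {a : ℕ} (ha : s.r ra = a) (haQ : a ∈ Q)
    (hdeg : dg n G c < D.r rtau ∨ dg n G a < D.r rtau) :
    Tri s (.blk [
          .set rp (A OFF (V ra)),
          .set rhi (A OFF (.inc (V ra))),
          .loop (.and (.lt (V rp) (V rhi)) (.not (.lt (V rlim2) (V rnp)))) (.blk [
            .set ry (A ADJ (V rp)), pTry, .incr rp])])
      (100 * (D.r rtau + 5 * k + 6)) (fun s' => ∃ Q', BI G S (Uc n G S.toFinset c) M lim s0 Q' s' ∧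
        Q <+: Q' ∧ s'.r rii = s.r rii ∧ (Q'.length ≤ lim → ∀ y, G.Adj a y →
          y ∈ Uc n G S.toFinset c ∨ y ∈ S ∨ y ∈ Q')) := by
  have hG := h0.ns.prep.inn
  have hA := h0.ns.prep.a.adj
  obtain ⟨e1, e2, e3, e4, e5, e6, e7, e8⟩ := TS.stat h0 h
  have han : a < n := (h.q.out hG h0.test.toIsMat (U_out h0) a haQ).1
  set o := D.m OFF a with ho
  set o' := D.m OFF (a + 1) with ho'
  set B := D.r rtau + 5 * k + 4 with hB
  have hmono : o ≤ o' := hA.mono a han
  have hoo : o' - o = dg n G a := length_dg hG hA han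
  refine Tri.cost (Tri.cons (B1 := 3) (Tri.set (B := 3) ?_ (by decide)) (B2 := 4 + (60 * B + 20))
    le_rfl) (by omega)
  refine Tri.cons (B1 := 4) (Tri.set (B := 4) ?_ (by decide)) (B2 := 60 * B + 20) le_rfl
  set s1 := (s.setR rp ((A OFF (V ra)).ev s)).setR rhi
    ((A OFF (.inc (V ra))).ev (s.setR rp ((A OFF (V ra)).ev s))) with hs1
  have hs1rp : s1.r rp = o := by
    simp (config := {decide := true}) [hs1, ha, e1, ho]
  have hs1hi : s1.r rhi = o' := by
    simp (config := {decide := true}) [hs1, ha, e1, ho']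
  have hs1a : s1.r ra = a := by
    simp (config := {decide := true}) [hs1, ha]
  have hs1ii : s1.r rii = s.r rii := by
    simp (config := {decide := true}) [hs1]
  have hb1 : BI G S (Uc n G S.toFinset c) M lim s0 Q s1 :=
    (h.setR (by decide)).setR (by decide)
  have loop := Tri.loop (b := .and (.lt (V rp) (V rhi)) (.not (.lt (V rlim2) (V rnp))))
    (c := .blk [.set ry (A ADJ (V rp)), pTry, .incr rp])
    (fun s' => ∃ Q', BI G S (Uc n G S.toFinset c) M lim s0 Q' s' ∧ Q <+: Q' ∧
      s'.r rii = s.r rii ∧ o ≤ s'.r rp ∧ s'.r rp ≤ o' ∧ s'.r rhi = o' ∧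
      (∀ p, o ≤ p → p < s'.r rp → D.m ADJ p ∈ Uc n G S.toFinset c ∨ D.m ADJ p ∈ S ∨
        D.m ADJ p ∈ Q'))
    (fun s' => 60 * (o + B - s'.r rp))
    (Q := fun s' => ∃ Q', BI G S (Uc n G S.toFinset c) M lim s0 Q' s' ∧
        Q <+: Q' ∧ s'.r rii = s.r rii ∧ (Q'.length ≤ lim → ∀ y, G.Adj a y →
          y ∈ Uc n G S.toFinset c ∨ y ∈ S ∨ y ∈ Q')) ?_ (s := s1) ?_ ?_
  · obtain ⟨s2, t, r1, r2, r3⟩ := loop
    refine ⟨s2, _, Run.cons r1 (Run.nil _), ?_, r3⟩
    rw [hs1rp] at r2
    have : (Cond.and (.lt (V rp) (V rhi)) (.not (.lt (V rlim2) (V rnp)))).cost = 8 := by decide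
    rw [this] at r2
    omega
  · rintro s2 ⟨Q', b1, b2, b3, b4, b5, b6, b7⟩ hb
    have hnp := b1.np
    have hl : s2.r rlim2 = lim := by rw [b1.fr.r rlim2 (by decide)]; exact hl2
    simp only [Cond.ev_and, Cond.ev_lt, Exp.ev_reg, Cond.ev_not, Bool.and_eq_true,
      decide_eq_true_eq, Bool.not_eq_true', decide_eq_false_iff_not, not_lt, hnp, hl, b6] at hb
    obtain ⟨hb1', hb2⟩ := hb
    obtain ⟨f1, f2, f3, f4, f5, f6, f7, f8⟩ := TS.stat h0 b1
    -- the number of iterations
    have hcount : s2.r rp < o + B := by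
      rcases hdeg with hd | hd
      · have hnd : (seg (D.m ADJ) o (s2.r rp)).Nodup := by
          have h1 := hA.nd a han
          rw [← ho, ← ho', ← seg_append (D.m ADJ) b4 b5, List.nodup_append] at h1
          exact h1.1
        have hsub : (seg (D.m ADJ) o (s2.r rp)).toFinset ⊆
            Uc n G S.toFinset c ∪ (S.toFinset ∪ Q'.toFinset) := by
          intro y hy
          rw [List.mem_toFinset, mem_seg] at hy
          obtain ⟨p, p1, p2, rfl⟩ := hy
          rw [mem_union, mem_union, List.mem_toFinset, List.mem_toFinset]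
          exact b7 p p1 p2
        have h1 := card_le_card hsub
        rw [List.toFinset_card_of_nodup hnd, seg_length] at h1
        have h2 := card_union_le (Uc n G S.toFinset c) (S.toFinset ∪ Q'.toFinset)
        have h3 := card_union_le S.toFinset Q'.toFinset
        have h4 := List.toFinset_card_le S
        have h5 := List.toFinset_card_le Q'
        have h6 := card_Uc hG (S := S.toFinset) c
        have h7 := dp_le_dg (n := n) (G := G) (S := S.toFinset) c
        have h8 := h0.ns.len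
        have h9 := Q_len h0 hlim b1
        omega
      · omega
    have hadj : G.Adj a (D.m ADJ (s2.r rp)) := by
      rw [← hA.mem a han]
      exact mem_seg.2 ⟨_, b4, hb1', rfl⟩
    refine ⟨50, ?_⟩
    refine Tri.cons (B1 := 3) (B2 := 47) (Tri.set (B := 3) ?_ (by decide)) le_rfl
    have e0 : (A ADJ (V rp)).ev s2 = D.m ADJ (s2.r rp) := by simp [f2]
    rw [e0]
    have hb2' : BI G S (Uc n G S.toFinset c) M lim s0 Q' (s2.setR ry (D.m ADJ (s2.r rp))) :=
      b1.setR (by decide)
    obtain ⟨s3, t, r1, r2, Q'', b1'', b2'', b3''⟩ := pTry_lem h0 hb2' (y := D.m ADJ (s2.r rp))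
      (by simp) ⟨a, (b2.subset haQ), hadj⟩ hb2
    have fr := r1.frame
    have g1 : s3.r rp = s2.r rp := by
      rw [fr.r rp (by decide)]; simp (config := {decide := true})
    have g2 : s3.r rhi = s2.r rhi := by
      rw [fr.r rhi (by decide)]; simp (config := {decide := true})
    have g3 : s3.r rii = s2.r rii := by
      rw [fr.r rii (by decide)]; simp (config := {decide := true})
    refine ⟨s3.setR rp (s3.r rp + 1), _, Run.cons r1 (Run.cons (Run.set rp _ _) (Run.nil _)), ?_, ?_⟩
    · simp only [Exp.cost]; omega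
    · refine ⟨⟨Q'', b1''.setR (by decide), b2.trans b2'', ?_, ?_, ?_, ?_, ?_⟩, ?_⟩
      · simp (config := {decide := true}) [g3, b3]
      · simp [g1]; omega
      · simp [g1]; omega
      · simp (config := {decide := true}) [g2, b6]
      · intro p p1 p2
        simp only [St.setR_r, if_true, g1] at p2
        by_cases hp : p < s2.r rp
        · rcases b7 p p1 hp with h1 | h1 | h1
          · exact Or.inl h1
          · exact Or.inr (Or.inl h1)
          · exact Or.inr (Or.inr (b2''.subset h1))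
        · have : p = s2.r rp := by omega
          rw [this]
          exact b3''
      · have : (Cond.and (.lt (V rp) (V rhi)) (.not (.lt (V rlim2) (V rnp)))).cost = 8 := by decide
        rw [this]
        simp only [St.setR_r, if_true, g1]
        omega
  · refine ⟨Q, hb1, List.prefix_refl _, hs1ii, by omega, by omega, hs1hi, ?_⟩
    intro p p1 p2
    omega
  · rintro s2 ⟨Q', b1, b2, b3, b4, b5, b6, b7⟩ hb
    refine ⟨Q', b1, b2, b3, ?_⟩
    intro hle y hy
    have hnp := b1.np
    have hl : s2.r rlim2 = lim := by rw [b1.fr.r rlim2 (by decide)]; exact hl2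
    have hrp : s2.r rp = o' := by
      by_contra hne
      have : (Cond.and (.lt (V rp) (V rhi)) (.not (.lt (V rlim2) (V rnp)))).ev s2 = true := by
        simp only [Cond.ev_and, Cond.ev_lt, Exp.ev_reg, Cond.ev_not, Bool.and_eq_true,
          decide_eq_true_eq, Bool.not_eq_true', decide_eq_false_iff_not, not_lt, hnp, hl, b6]
        exact ⟨by omega, hle⟩
      rw [this] at hb
      exact absurd hb (by decide)
    rw [← hA.mem a han] at hy
    obtain ⟨p, p1, p2, rfl⟩ := mem_seg.1 hy
    exact b7 p p1 (by omega)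


/-- scan of the kernel for a giant `a` -/
theorem scan2 {M : List (ℕ × ℕ)} {s0 : St} (h0 : TS n m k G D S c M s0) {lim : ℕ}
    (hlim : lim = M.length + (k - S.length)) (hl2 : s0.r rlim2 = lim) {Q : List ℕ} {s : St}
    (h : BI G S (Uc n G S.toFinset c) M lim s0 Q s) {a : ℕ} (ha : s.r ra = a) (haQ : a ∈ Q)
    (hdc : D.r rtau ≤ dg n G c) (hda : D.r rtau ≤ dg n G a) :
    Tri s (.for_ rj (K 0) rnK (.whn (.and (.eq (A KX (V rj)) (V ra))
          (.not (.lt (V rlim2) (V rnp)))) (.blk [.set ry (A KY (V rj)), pTry])))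
      (100 * (D.r rnK + 1)) (fun s' => ∃ Q', BI G S (Uc n G S.toFinset c) M lim s0 Q' s' ∧
        Q <+: Q' ∧ s'.r rii = s.r rii ∧ (Q'.length ≤ lim → ∀ y, G.Adj a y →
          y ∈ Uc n G S.toFinset c ∨ y ∈ S ∨ y ∈ Q')) := by
  have hG := h0.ns.prep.inn
  have hK := h0.ns.prep.e.ker
  obtain ⟨e1, e2, e3, e4, e5, e6, e7, e8⟩ := TS.stat h0 h
  have han : a < n := (h.q.out hG h0.test.toIsMat (U_out h0) a haQ).1
  refine Tri.cost (Tri.for0 (N := D.r rnK) (p := rj) (hi := rnK)
    (fun j s' => ∃ Q', BI G S (Uc n G S.toFinset c) M lim s0 Q' s' ∧ Q <+: Q' ∧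
      s'.r rii = s.r rii ∧ s'.r ra = a ∧
      (Q'.length ≤ lim → ∀ i < j, D.m KX i = a → D.m KY i ∈ Uc n G S.toFinset c ∨
        D.m KY i ∈ S ∨ D.m KY i ∈ Q')) 70 e7 (by decide) ?_ ?_ ?_ ?_) (by omega)
  · rintro j s1 v ⟨Q', b1, b2, b3, b4, b5⟩
    exact ⟨Q', b1.setR (by decide), b2, by simp (config := {decide := true}) [b3],
      by simp (config := {decide := true}) [b4], b5⟩
  · exact ⟨Q, h, List.prefix_refl _, rfl, ha, fun _ i hi => absurd hi (by omega)⟩
  · rintro j hj s1 ⟨Q', b1, b2, b3, b4, b5⟩ hrj hrK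
    have hnp := b1.np
    have hl : s1.r rlim2 = lim := by rw [b1.fr.r rlim2 (by decide)]; exact hl2
    obtain ⟨f1, f2, f3, f4, f5, f6, f7, f8⟩ := TS.stat h0 b1
    refine Tri.cost (Tri.ite (B := 55) ?_ ?_) (by decide)
    · intro hb
      simp only [Cond.ev_and, Cond.ev_lt, Cond.ev_eq, Exp.ev_reg, Exp.ev_get, Cond.ev_not,
        Bool.and_eq_true, decide_eq_true_eq, Bool.not_eq_true', decide_eq_false_iff_not, not_lt,
        hnp, hl, f4, hrj, b4] at hb
      obtain ⟨hb1, hb2⟩ := hb
      have hadj : G.Adj a (D.m KY j) := by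
        have := hK.adj (D.m KX j, D.m KY j) (by
          rw [kerL, List.mem_map]
          exact ⟨j, List.mem_range.2 hj, rfl⟩)
        rw [← hb1]
        exact this
      refine Tri.cons (B1 := 3) (B2 := 47) (Tri.set (B := 3) ?_ (by decide)) (by omega)
      have e0 : (A KY (V rj)).ev s1 = D.m KY j := by simp [f5, hrj]
      rw [e0]
      have hb2' : BI G S (Uc n G S.toFinset c) M lim s0 Q' (s1.setR ry (D.m KY j)) :=
        b1.setR (by decide)
      obtain ⟨s3, t, r1, r2, Q'', b1'', b2'', b3''⟩ := pTry_lem h0 hb2' (y := D.m KY j)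
        (by simp) ⟨a, (b2.subset haQ), hadj⟩ hb2
      have fr := r1.frame
      refine ⟨s3, _, Run.cons r1 (Run.nil _), by omega, ⟨Q'', b1'', b2.trans b2'', ?_, ?_, ?_⟩,
        ?_, ?_⟩
      · rw [fr.r rii (by decide)]; simp (config := {decide := true}) [b3]
      · rw [fr.r ra (by decide)]; simp (config := {decide := true}) [b4]
      · intro hle i hi hia
        by_cases hij : i < j
        · rcases b5 (by exact hb2) i hij hia with h1 | h1 | h1
          · exact Or.inl h1
          · exact Or.inr (Or.inl h1)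
          · exact Or.inr (Or.inr (b2''.subset h1))
        · have : i = j := by omega
          rw [this]
          exact b3''
      · rw [fr.r rj (by decide)]; simp (config := {decide := true}) [hrj]
      · rw [fr.r rnK (by decide)]; simp (config := {decide := true}) [hrK]
    · intro hb
      refine Tri.skip ⟨⟨Q', b1, b2, b3, b4, ?_⟩, hrj, hrK⟩ (by omega)
      intro hle i hi hia
      by_cases hij : i < j
      · exact b5 hle i hij hia
      · have hij' : i = j := by omega
        exfalso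
        have : (Cond.and (.eq (A KX (V rj)) (V ra)) (.not (.lt (V rlim2) (V rnp)))).ev s1 =
            true := by
          simp only [Cond.ev_and, Cond.ev_lt, Cond.ev_eq, Exp.ev_reg, Exp.ev_get, Cond.ev_not,
            Bool.and_eq_true, decide_eq_true_eq, Bool.not_eq_true', decide_eq_false_iff_not,
            not_lt, hnp, hl, f4, hrj, b4]
          exact ⟨by rw [← hij']; exact hia, hle⟩
        rw [this] at hb
        exact absurd hb (by decide)
  · rintro s1 ⟨Q', b1, b2, b3, b4, b5⟩ hrj hrK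
    refine ⟨Q', b1, b2, b3, fun hle y hay => ?_⟩
    have hcg : c ∈ giL D := by
      rw [h0.ns.prep.a.gi, List.mem_filter, List.mem_range, decide_eq_true_eq]
      exact ⟨h0.cn_, hdc⟩
    have hcode : ∀ x y, x < n → y < n → D.m NODE x = D.m NODE y → (x = c ∨ G.Adj c x) →
        (y = c ∨ G.Adj c y) := by
      intro x y hx hy hxy hh
      have h1 := (h0.ns.prep.d.code x hx c).2 ⟨hcg, by
        rcases hh with h1 | h1
        · exact Or.inl h1.symm
        · exact Or.inr h1⟩
      rw [hxy] at h1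
      have h2 := ((h0.ns.prep.d.code y hy c).1 h1).2
      rcases h2 with h2 | h2
      · exact Or.inl h2.symm
      · exact Or.inr h2
    have hpre : (flat M).length ≤ Q'.length := b1.q.pre.length_le
    rw [flat_length] at hpre
    have hlen := h0.ns.len
    have hcard : (S.toFinset ∪ Q'.toFinset).card ≤ 4 * k := by
      have h1 := card_union_le S.toFinset Q'.toFinset
      have h2 := List.toFinset_card_le S
      have h3 := List.toFinset_card_le Q'
      omega
    have key := hK.scan hG han (fun w hw hwa => h0.ns.prep.d.single a han hda w hw hwa) hcode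
      (Y := S.toFinset ∪ Q'.toFinset) hcard (by
        intro e he hea
        rw [kerL, List.mem_map] at he
        obtain ⟨i, hi, rfl⟩ := he
        rw [List.mem_range] at hi
        rw [mem_union, List.mem_toFinset, List.mem_toFinset]
        rcases b5 hle i hi hea with h1 | h1
        · left
          rcases (mem_Uc hG).1 h1 with h2 | h2
          · exact Or.inl h2
          · exact Or.inr h2.1
        · exact Or.inr h1) y hay
    rw [mem_union, List.mem_toFinset, List.mem_toFinset] at key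
    rcases key with (h1 | h1) | h1
    · exact Or.inl ((mem_Uc hG).2 (Or.inl h1))
    · by_cases hyS : y ∈ S
      · exact Or.inr (Or.inl hyS)
      · exact Or.inl ((mem_Uc hG).2 (Or.inr ⟨h1, by simpa using hyS⟩))
    · exact Or.inr h1

/-- the closure loop -/
theorem closure {M : List (ℕ × ℕ)} {s0 : St} (h0 : TS n m k G D S c M s0) {lim : ℕ}
    (hlim : lim = M.length + (k - S.length)) (hl2 : s0.r rlim2 = lim) {s : St}
    (h : BI G S (Uc n G S.toFinset c) M lim s0 (flat M) s) (hii : s.r rii = 0) :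
    Tri s (.loop (.and (.lt (V rii) (V rnp)) (.not (.lt (V rlim2) (V rnp)))) (.blk [
      .set ra (A PQ (V rii)),
      .incr rii,
      .ite (.or (.lt (A DEG (V rc)) (V rtau)) (.lt (A DEG (V ra)) (V rtau)))
        (.blk [
          .set rp (A OFF (V ra)),
          .set rhi (A OFF (.inc (V ra))),
          .loop (.and (.lt (V rp) (V rhi)) (.not (.lt (V rlim2) (V rnp)))) (.blk [
            .set ry (A ADJ (V rp)), pTry, .incr rp])])
        (.for_ rj (K 0) rnK (.whn (.and (.eq (A KX (V rj)) (V ra)) (.not (.lt (V rlim2) (V rnp))))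
          (.blk [.set ry (A KY (V rj)), pTry])))]))
      (300 * (D.r rtau + D.r rnK + 5 * k + 6) * (4 * k + 3) + 9)
      (fun s' => ∃ Q, BI G S (Uc n G S.toFinset c) M lim s0 Q s' ∧
        (Q.length ≤ lim → ∀ p ∈ Q, ∀ y, G.Adj p y → y ∈ Uc n G S.toFinset c ∨ y ∈ S.toFinset ∨
          y ∈ Q)) := by
  set C := 300 * (D.r rtau + D.r rnK + 5 * k + 6) with hC
  refine Tri.cost (Tri.loop (fun s' => ∃ Q, BI G S (Uc n G S.toFinset c) M lim s0 Q s' ∧
      s'.r rii ≤ Q.length ∧
      (Q.length ≤ lim → ∀ i < s'.r rii, ∀ hi : i < Q.length, ∀ y, G.Adj Q[i] y →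
        y ∈ Uc n G S.toFinset c ∨ y ∈ S ∨ y ∈ Q))
    (fun s' => C * (4 * k + 3 - s'.r rii)) ?_ ?_ ?_) ?_
  · rintro s1 ⟨Q, b1, b2, b3⟩ hb
    have hnp := b1.np
    have hl : s1.r rlim2 = lim := by rw [b1.fr.r rlim2 (by decide)]; exact hl2
    simp only [Cond.ev_and, Cond.ev_lt, Exp.ev_reg, Cond.ev_not, Bool.and_eq_true,
      decide_eq_true_eq, Bool.not_eq_true', decide_eq_false_iff_not, not_lt, hnp, hl] at hb
    obtain ⟨hb1, hb2⟩ := hb
    have hQl := Q_len h0 hlim b1
    set i := s1.r rii with hi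
    have hpq : s1.m PQ i = Q[i] := by
      have h1 : ∀ (L : List ℕ) (hL : seg (s1.m PQ) 0 (s1.r rnp) = L) (hiL : i < L.length),
          s1.m PQ i = L[i] := by
        rintro L rfl hiL
        rw [seg_getElem]
        simp
      exact h1 Q b1.pq hb1
    refine ⟨C - 50, ?_⟩
    have hcost : 200 ≤ C - 50 := by omega
    refine Tri.cons (B1 := 3) (B2 := C - 53) (Tri.set (B := 3) ?_ (by decide)) (by omega)
    have e0 : (A PQ (V rii)).ev s1 = Q[i] := by simp [← hi, hpq]
    rw [e0]
    refine Tri.cons (B1 := 3) (B2 := C - 56) (Tri.set (B := 3) ?_ (by decide)) (by omega)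
    have e0' : (Exp.inc (V rii)).ev (s1.setR ra Q[i]) = i + 1 := by
      simp (config := {decide := true}) [← hi]
    rw [e0']
    set s2 := (s1.setR ra Q[i]).setR rii (i + 1) with hs2
    have b1' : BI G S (Uc n G S.toFinset c) M lim s0 Q s2 :=
      (b1.setR (by decide)).setR (by decide)
    obtain ⟨e1, e2, e3, e4, e5, e6, e7, e8⟩ := TS.stat h0 b1'
    have ha2 : s2.r ra = Q[i] := by simp (config := {decide := true}) [hs2]
    have hi2 : s2.r rii = i + 1 := by simp (config := {decide := true}) [hs2]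
    have hfin : ∀ s3, (∃ Q', BI G S (Uc n G S.toFinset c) M lim s0 Q' s3 ∧
        Q <+: Q' ∧ s3.r rii = s2.r rii ∧ (Q'.length ≤ lim → ∀ y, G.Adj Q[i] y →
          y ∈ Uc n G S.toFinset c ∨ y ∈ S ∨ y ∈ Q')) →
        (∃ Q, BI G S (Uc n G S.toFinset c) M lim s0 Q s3 ∧ s3.r rii ≤ Q.length ∧
      (Q.length ≤ lim → ∀ i < s3.r rii, ∀ hi : i < Q.length, ∀ y, G.Adj Q[i] y →
        y ∈ Uc n G S.toFinset c ∨ y ∈ S ∨ y ∈ Q)) ∧
        (Cond.and (.lt (V rii) (V rnp)) (.not (.lt (V rlim2) (V rnp)))).cost + 1 + (C - 50) +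
          C * (4 * k + 3 - s3.r rii) ≤ C * (4 * k + 3 - i) := by
      rintro s3 ⟨Q', c1, c2, c3, c4⟩
      rw [hi2] at c3
      have hle := c2.length_le
      refine ⟨⟨Q', c1, by omega, ?_⟩, ?_⟩
      · intro hQ' j hj hjQ y hy
        by_cases hji : j < i
        · have hjQ2 : j < Q.length := by omega
          have e9 : Q'[j] = Q[j] := (List.IsPrefix.getElem c2 hjQ2).symm
          rw [e9] at hy
          rcases b3 (by omega) j hji hjQ2 y hy with h1 | h1 | h1
          · exact Or.inl h1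
          · exact Or.inr (Or.inl h1)
          · exact Or.inr (Or.inr (c2.subset h1))
        · have hji' : j = i := by omega
          subst hji'
          have e9 : Q'[i] = Q[i] := (List.IsPrefix.getElem c2 hb1).symm
          rw [e9] at hy
          exact c4 hQ' y hy
      · rw [c3]
        have h1 : 4 * k + 3 - i = (4 * k + 3 - (i + 1)) + 1 := by omega
        have h2 : (Cond.and (.lt (V rii) (V rnp)) (.not (.lt (V rlim2) (V rnp)))).cost = 8 := by
          decide
        rw [h1, h2, Nat.mul_add, Nat.mul_one]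
        omega
    have hdegc : s2.m DEG (s2.r rc) = dg n G c := by
      rw [e3, e8]; exact h0.ns.prep.a.deg c
    have hdega : s2.m DEG (s2.r ra) = dg n G Q[i] := by
      rw [e3, ha2]; exact h0.ns.prep.a.deg _
    refine Tri.cost (Tri.cons (B1 := (Cond.or (.lt (A DEG (V rc)) (V rtau))
      (.lt (A DEG (V ra)) (V rtau))).cost + 1 + (C - 80)) (B2 := 1)
      ((Tri.ite (B := C - 80) ?_ ?_).imp (Q := fun s3 => (∃ Q', BI G S (Uc n G S.toFinset c)
        M lim s0 Q' s3 ∧ Q <+: Q' ∧ s3.r rii = s2.r rii ∧ (Q'.length ≤ lim → ∀ y, G.Adj Q[i] y →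
          y ∈ Uc n G S.toFinset c ∨ y ∈ S ∨ y ∈ Q')))
      (fun s3 h3 => Tri.nil (hfin s3 h3) le_rfl)) le_rfl) ?_
    · intro hb
      simp only [Cond.ev_or, Cond.ev_lt, Exp.ev_reg, Exp.ev_get, Bool.or_eq_true,
        decide_eq_true_eq, hdegc, hdega, e6] at hb
      exact (scan1 h0 hlim hl2 b1' ha2 (List.getElem_mem hb1) hb).cost (by omega)
    · intro hb
      simp only [Cond.ev_or, Cond.ev_lt, Exp.ev_reg, Exp.ev_get, Bool.or_eq_false_iff,
        decide_eq_false_iff_not, not_lt, hdegc, hdega, e6] at hb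
      exact (scan2 h0 hlim hl2 b1' ha2 (List.getElem_mem hb1) hb.1 hb.2).cost (by omega)
    · have h2 : (Cond.or (.lt (A DEG (V rc)) (V rtau)) (.lt (A DEG (V ra)) (V rtau))).cost = 9 := by
          decide
      rw [h2]
      omega
  · exact ⟨flat M, h, by omega, fun _ i hi => absurd hi (by omega)⟩
  · rintro s1 ⟨Q, b1, b2, b3⟩ hb
    refine ⟨Q, b1, ?_⟩
    intro hle p hp y hy
    obtain ⟨i, hi, rfl⟩ := List.mem_iff_getElem.1 hp
    have hnp := b1.np
    have hl : s1.r rlim2 = lim := by rw [b1.fr.r rlim2 (by decide)]; exact hl2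
    have hrii : Q.length ≤ s1.r rii := by
      by_contra hne
      have : (Cond.and (.lt (V rii) (V rnp)) (.not (.lt (V rlim2) (V rnp)))).ev s1 = true := by
        simp only [Cond.ev_and, Cond.ev_lt, Exp.ev_reg, Cond.ev_not, Bool.and_eq_true,
          decide_eq_true_eq, Bool.not_eq_true', decide_eq_false_iff_not, not_lt, hnp, hl]
        exact ⟨by omega, hle⟩
      rw [this] at hb
      exact absurd hb (by decide)
    rw [List.mem_toFinset]
    exact b3 hle i (by omega) hi y hy
  · have h2 : (Cond.and (.lt (V rii) (V rnp)) (.not (.lt (V rlim2) (V rnp)))).cost = 8 := by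
      decide
    rw [h2, hii, Nat.sub_zero]


theorem push {s : St} {l : List (ℕ × ℕ)} (h : Stk s l) {y t : ℕ} (hy : s.r ry = y)
    (ht : s.r rt = t) : Tri s pSpush 20 (fun s' => Stk s' (l ++ [(y, t)])) := by
  refine Tri.cost (Tri.lf (by decide) ?_) (by decide)
  obtain ⟨h1, h2⟩ := h
  refine ⟨?_, fun i hi => ?_⟩
  · simp (config := {decide := true}) [pSpush, h1]
  · rw [List.length_append, List.length_singleton] at hi
    simp (config := {decide := true}) [pSpush, hy, ht, h1]
    by_cases hil : i < l.length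
    · obtain ⟨h3, h4⟩ := h2 i hil
      have e1 : (l ++ [(y, t)])[i]'(by simp; omega) = l[i] := List.getElem_append_left hil
      rw [e1, Function.update_of_ne (by omega), Function.update_of_ne (by omega)]
      exact ⟨h3, h4⟩
    · have : i = l.length := by omega
      subst this
      simp

theorem pushes {s : St} {stk : List (ℕ × ℕ)} (h : Stk s stk) {x c t : ℕ} {Q : List ℕ}
    (hx : s.r rx = x) (hc : s.r rc = c) (ht : s.r rt = t) (hQ : seg (s.m PQ) 0 (s.r rnp) = Q) :
    Tri s (.blk [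
      .set ry (V rx), pSpush,
      .set ry (V rc), pSpush,
      .for_ rj (K 0) rnp (.blk [.set ry (A PQ (V rj)), pSpush])]) (100 * (Q.length + 1))
      (fun s' => Stk s' (stk ++ (x :: c :: Q).map (fun y => (y, t)))) := by
  have hnp : s.r rnp = Q.length := by rw [← hQ, seg_length]; rfl
  -- first push
  set s1 := s.setR ry (s.r rx) with hs1
  have hk1 : Stk s1 stk := ⟨by simp (config := {decide := true}) [hs1, h.1], h.2⟩
  obtain ⟨s2, t2, r2, c2, k2⟩ := push hk1 (y := x) (t := t) (by simp [hs1, hx])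
    (by simp (config := {decide := true}) [hs1, ht])
  have fr2 := r2.frame
  set s3 := s2.setR ry (s2.r rc) with hs3
  have hc2 : s2.r rc = c := by
    rw [fr2.r rc (by decide)]; simp (config := {decide := true}) [hs1, hc]
  have ht2 : s2.r rt = t := by
    rw [fr2.r rt (by decide)]; simp (config := {decide := true}) [hs1, ht]
  have hk3 : Stk s3 (stk ++ [(x, t)]) := ⟨by simp (config := {decide := true}) [hs3, k2.1], k2.2⟩
  obtain ⟨s4, t4, r4, c4, k4⟩ := push hk3 (y := c) (t := t) (by simp [hs3, hc2])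
    (by simp (config := {decide := true}) [hs3, ht2])
  have fr4 := r4.frame
  have ht4 : s4.r rt = t := by
    rw [fr4.r rt (by decide)]; simp (config := {decide := true}) [hs3, ht2]
  have hpq4 : s4.m PQ = s.m PQ := by
    rw [fr4.m PQ (by decide)]; simp only [hs3, St.setR_m]
    rw [fr2.m PQ (by decide)]; simp only [hs1, St.setR_m]
  have hnp4 : s4.r rnp = Q.length := by
    rw [fr4.r rnp (by decide)]; simp (config := {decide := true}) [hs3]
    rw [fr2.r rnp (by decide)]; simp (config := {decide := true}) [hs1, hnp]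
  have hloop : Tri s4 (.for_ rj (K 0) rnp (.blk [.set ry (A PQ (V rj)), pSpush]))
      (6 + (30 + 7) * Q.length) (fun s' => Stk s' (stk ++ (x :: c :: Q).map (fun y => (y, t)))) := by
    refine Tri.for0 (N := Q.length) (p := rj) (hi := rnp)
      (fun j s' => Stk s' (stk ++ (x :: c :: Q.take j).map (fun y => (y, t))) ∧
        s'.m PQ = s.m PQ ∧ s'.r rt = t) 30 hnp4 (by decide) ?_ ?_ ?_ ?_
    · rintro j s5 v ⟨a1, a2, a3⟩
      exact ⟨⟨by simp (config := {decide := true}) [a1.1], a1.2⟩, a2,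
        by simp (config := {decide := true}) [a3]⟩
    · refine ⟨?_, hpq4, ht4⟩
      simpa using k4
    · rintro j hj s5 ⟨a1, a2, a3⟩ hrj hrnp
      set s6 := s5.setR ry (s5.m PQ (s5.r rj)) with hs6
      have hk6 : Stk s6 (stk ++ (x :: c :: Q.take j).map (fun y => (y, t))) :=
        ⟨by simp (config := {decide := true}) [hs6, a1.1], a1.2⟩
      have hQj : s5.m PQ j = Q[j] := by
        have h1 : ∀ (L : List ℕ) (hL : seg (s.m PQ) 0 (s.r rnp) = L) (hiL : j < L.length),
            s.m PQ j = L[j] := by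
          rintro L rfl hiL
          rw [seg_getElem]
          simp
        rw [a2]
        exact h1 Q hQ hj
      obtain ⟨s7, t7, r7, c7, k7⟩ := push hk6 (y := Q[j]) (t := t)
        (by simp [hs6, hrj, hQj]) (by simp (config := {decide := true}) [hs6, a3])
      have fr7 := r7.frame
      refine ⟨s7, _, Run.cons (Run.set ry _ _) (Run.cons r7 (Run.nil _)), ?_, ⟨?_, ?_, ?_⟩, ?_, ?_⟩
      · simp only [Exp.cost]; omega
      · have e1 : stk ++ (x :: c :: Q.take (j + 1)).map (fun y => (y, t)) =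
            (stk ++ (x :: c :: Q.take j).map (fun y => (y, t))) ++ [(Q[j], t)] := by
          rw [List.take_succ_eq_append_getElem hj]
          simp only [List.map_cons, List.map_append, List.map_nil, List.append_assoc,
            List.cons_append]
        rw [e1]
        exact k7
      · rw [fr7.m PQ (by decide)]; simp only [hs6, St.setR_m]; exact a2
      · rw [fr7.r rt (by decide)]; simp (config := {decide := true}) [hs6, a3]
      · rw [fr7.r rj (by decide)]; simp (config := {decide := true}) [hs6, hrj]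
      · rw [fr7.r rnp (by decide)]; simp (config := {decide := true}) [hs6, hrnp]
    · rintro s5 ⟨a1, a2, a3⟩ _ _
      simpa using a1
  obtain ⟨s8, t8, r8, c8, k8⟩ := hloop
  refine ⟨s8, _, Run.cons (Run.set ry _ _) (Run.cons r2 (Run.cons (Run.set ry _ _)
    (Run.cons r4 (Run.cons r8 (Run.nil _))))), ?_, k8⟩
  simp only [Exp.cost]
  omega

theorem TS_fr {M : List (ℕ × ℕ)} {s s' : St} {wr wa : List ℕ} (h : TS n m k G D S c M s)
    (hf : Fr wr wa s s') (h1 : ∀ x ∈ nsR ++ [rc, rnp, rnM], x ∉ wr)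
    (h2 : ∀ a ∈ nsA ++ [PQ, MM, MU, CM], a ∉ wa) : TS n m k G D S c M s' := by
  have hr : ∀ x ∈ nsR ++ [rc, rnp, rnM], s'.r x = s.r x := fun x hx => hf.r x (h1 x hx)
  have hm : ∀ a ∈ nsA ++ [PQ, MM, MU, CM], s'.m a = s.m a := fun a ha => hf.m a (h2 a ha)
  refine ⟨h.ns.fr hf (fun x hx => h1 x (List.mem_append_left _ hx))
    (fun a ha => h2 a (List.mem_append_left _ ha)), ?_, h.cn_, h.cS, ?_, ?_, ?_, h.test, ?_⟩
  · rw [hr rc (by decide)]; exact h.c_
  · rw [hm PQ (by decide), hr rnp (by decide)]; exact h.pq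
  · rw [hr rnM (by decide)]; exact h.nM
  · rw [hm MM (by decide)]; exact h.mm
  · rw [hm MU (by decide), hm CM (by decide), hm NODE (by decide)]; exact h.inU

end Br

theorem pBranch_spec {s : St} {M : List (ℕ × ℕ)} {stk : List (ℕ × ℕ)}
    (h : TS n m k G D S c M s) (hx : s.r rx = x) (hst : Stk s stk) :
    Tri s pBranch (bc k D) (fun s' => ∃ Q, IsClo G S.toFinset (Uc n G S.toFinset c)
        (k - S.length) M Q ∧
      seg (s'.m PQ) 0 (s'.r rnp) = Q ∧ (∀ v, s'.m MM v = ind Q v) ∧ s'.r rst = 1 ∧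
      (S.length < k → Stk s' (stk ++ (x :: c :: Q).map (fun y => (y, S.length)))) ∧
      (S.length = k → Stk s' stk)) := by
  set lim := M.length + (k - S.length) with hlim
  set T := D.r rtau + D.r rnK + 5 * k + 6 with hT
  -- rlim2 := rnM
  set s1 := s.setR rlim2 (s.r rnM) with hs1
  have hloop : Tri s1 (.for_ rj (K 0) rkp (.incr rlim2)) (6 + (3 + 7) * (k - S.length))
      (fun s' => s'.r rlim2 = lim) := by
    refine Tri.for0 (N := k - S.length) (p := rj) (hi := rkp)
      (fun j s' => s'.r rlim2 = M.length + j) 3 ?_ (by decide) ?_ ?_ ?_ ?_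
    · simp (config := {decide := true}) [hs1, h.ns.kp]
    · intro j s' v h1
      simp (config := {decide := true}) [h1]
    · simp [hs1, h.nM]
    · intro j hj s' h1 h2 h3
      refine Tri.set ⟨?_, ?_, ?_⟩ (by decide)
      · simp [h1]; omega
      · simp (config := {decide := true}) [h2]
      · simp (config := {decide := true}) [h3]
    · intro s' h1 _ _
      exact h1
  obtain ⟨s2, t2, r2, c2, k2⟩ := hloop
  have fr2 : Fr [rlim2, rj] [] s s2 := by
    have f1 : Fr [rlim2, rj] [] s s1 := by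
      refine ⟨fun y hy => ?_, fun a _ => rfl⟩
      have : y ≠ rlim2 := fun e => hy (by simp [e])
      simp [hs1, this]
    exact f1.trans (r2.frame.mono (by decide) (by decide))
  have h2 : TS n m k G D S c M s2 := Br.TS_fr h fr2 (by decide) (by decide)
  set s3 := s2.setR rii 0 with hs3
  have hb3 : Br.BI G S (Uc n G S.toFinset c) M lim s2 (flat M) s3 := by
    refine Br.BI.setR ⟨Fr.refl _, h2.pq, h2.mm, List.prefix_refl _, h2.test.nd, ?_, ?_⟩ (by decide)
    · intro i hi hi'
      rw [flat_length] at hi'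
      omega
    · rw [flat_length]; omega
  obtain ⟨s4, t4, r4, c4, Q, k4, k5⟩ := Br.closure h2 hlim k2 hb3 (by simp [hs3])
  have fr4 : Fr Br.WR Br.WA s2 s4 := k4.fr
  have hclo : IsClo G S.toFinset (Uc n G S.toFinset c) (k - S.length) M Q :=
    ⟨k4.q.pre, k4.q.nd, k4.q.new, k5, k4.q.len⟩
  have hQl : Q.length ≤ 4 * k + 2 := Br.Q_len h2 hlim k4
  have hrt : s4.r rt = S.length := by
    rw [fr4.r rt (by decide), ← h2.ns.sa, seg_length]; rfl
  have hrk : s4.r rk = k := by
    rw [fr4.r rk (by decide), h2.ns.agr.r rk (by decide)]; exact h.ns.prep.a.rk_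
  have hrx : s4.r rx = x := by
    rw [fr4.r rx (by decide), fr2.r rx (by decide)]; exact hx
  have hrc : s4.r rc = c := by
    rw [fr4.r rc (by decide)]; exact h2.c_
  have hst4 : Stk s4 stk :=
    (hst.fr fr2 (by decide) (by decide) (by decide)).fr fr4 (by decide) (by decide) (by decide)
  have hwhn : Tri s4 (.whn (.lt (V rt) (V rk)) (.blk [
      .set ry (V rx), pSpush,
      .set ry (V rc), pSpush,
      .for_ rj (K 0) rnp (.blk [.set ry (A PQ (V rj)), pSpush])])) (4 + 100 * (Q.length + 1))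
      (fun s' => (S.length < k → Stk s' (stk ++ (x :: c :: Q).map (fun y => (y, S.length)))) ∧
      (S.length = k → Stk s' stk)) := by
    refine Tri.cost (Tri.ite (B := 100 * (Q.length + 1)) ?_ ?_) ?_
    · intro hb
      simp only [Cond.ev_lt, Exp.ev_reg, hrt, hrk, decide_eq_true_eq] at hb
      exact (Br.pushes hst4 hrx hrc hrt k4.pq).imp (fun s' hs' => ⟨fun _ => hs', fun e => by omega⟩)
    · intro hb
      simp only [Cond.ev_lt, Exp.ev_reg, hrt, hrk, decide_eq_false_iff_not, not_lt] at hb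
      exact Tri.skip ⟨fun e => by omega, fun _ => hst4⟩ (by omega)
    · have : (Cond.lt (V rt) (V rk)).cost = 3 := by decide
      rw [this]
  obtain ⟨s5, t5, r5, c5, k6, k7⟩ := hwhn
  have fr5 := r5.frame
  refine ⟨s5.setR rst 1, _, Run.cons (Run.set rlim2 _ _) (Run.cons r2 (Run.cons (Run.set rii _ _)
    (Run.cons r4 (Run.cons r5 (Run.cons (Run.set rst _ _) (Run.nil _)))))), ?_, Q, hclo, ?_, ?_,
    ?_, ?_, ?_⟩
  · have h1 : k - S.length ≤ k := Nat.sub_le _ _
    simp only [Exp.cost, bc]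
    nlinarith [Nat.zero_le (k * T), Nat.zero_le T, Nat.zero_le (D.r rtau), Nat.zero_le (D.r rnK)]
  · simp (config := {decide := true}) only [St.setR_m, St.setR_r, if_false]
    rw [fr5.m PQ (by decide), fr5.r rnp (by decide)]
    exact k4.pq
  · intro v
    simp only [St.setR_m]
    rw [fr5.m MM (by decide)]
    exact k4.mm v
  · simp
  · intro hlt
    obtain ⟨a1, a2⟩ := k6 hlt
    exact ⟨by simp (config := {decide := true}) only [St.setR_r, if_false]; exact a1, a2⟩
  · intro hlt
    obtain ⟨a1, a2⟩ := k7 hlt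
    exact ⟨by simp (config := {decide := true}) only [St.setR_r, if_false]; exact a1, a2⟩

end TL
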