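import Pool.Agent.W_3fea_h44.NodeDefs

/-! # Cost of a branching -/

namespace TL

open Relation Finset Classical

/-- cost of a branching -/
def bc (k : ℕ) (D : St) : ℕ := 500 * (4 * k + 6) * (D.r rtau + D.r rnK + 5 * k + 6)

end TL
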