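import Pool.Agent.W_3fea_h44.NodeDefs
import Pool.Agent.W_3fea_h44.Aux82

/-! # Specification of `pClean`, `pCleanG` -/

namespace TL

open Relation Finset Classical

theorem pCleanG_spec {s : St} {nn : ℕ} (hn : s.r rnn = nn) (h : ∀ q, nn ≤ q → s.m CM q = 0) :
    Tri s pCleanG (20 * (nn + 1)) (fun s' => ∀ q, s'.m CM q = 0) := by
  unfold pCleanG
  refine (Tri.forC (fun j s' => (∀ q, q < j ∨ nn ≤ q → s'.m CM q = 0)) 4
    (a := 0) (N := nn) (by decide) (by simp) hn (Nat.zero_le _) ?_ ?_ ?_).cost ?_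
  · intro q hq
    simpa using h q (by omega)
  · rintro j _ hj s2 i1 hp hhi
    refine Tri.lf' rfl ⟨?_, ?_, ?_⟩ ?_
    · intro q hq
      by_cases e : q = j
      · simp [hp, e]
      · simp only [Cmd.ex_put, Exp.ev_reg, Exp.ev_const, hp, St.setR_m, St.setM_m, if_true,
          Function.update_apply, e, if_false]
        exact i1 q (by omega)
    · simp [hp]
    · simp [hhi]
    · simp [Cmd.mc, Exp.cost]
  · intro s2 i1 _ _ q
    exact i1 q (by omega)
  · simp [Exp.cost]; omega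

/-- a loop which sets the cells `l a (f i)`, `i < r hi`, to `0` -/
theorem zero_loop {p hi a f : ℕ} {s : St} {l : List ℕ} (hp : p ≠ hi) (hfa : f ≠ a)
    (hl : seg (s.m f) 0 (s.r hi) = l) (h : ∀ v, v ∉ l → s.m a v = 0) :
    Tri s (.for_ p (K 0) hi (.put a (A f (V p)) (K 0))) (12 * l.length + 6) (fun s' =>
      (∀ v, s'.m a v = 0)) := by
  have hlen : l.length = s.r hi := by rw [← hl, seg_length]; omega
  refine (Tri.forC (fun j s' => s'.m f = s.m f ∧ ∀ v, s'.m a v = 0 ∨ ∃ i, j ≤ i ∧ i < s.r hi ∧ s.m f i = v) 5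
    (a := 0) (N := s.r hi) hp (by simp) rfl (Nat.zero_le _) ?_ ?_ ?_).cost ?_
  · refine ⟨by simp, fun v => ?_⟩
    by_cases hv : v ∈ l
    · right
      rw [← hl, mem_seg] at hv
      obtain ⟨i, h1, h2, h3⟩ := hv
      exact ⟨i, h1, h2, h3⟩
    · left; simpa using h v hv
  · rintro j _ hj s2 ⟨i1, i2⟩ hp' hhi
    refine Tri.lf' rfl ⟨⟨?_, ?_⟩, ?_, ?_⟩ ?_
    · simp [hfa, i1]
    · intro v
      by_cases e : v = s.m f j
      · left; simp [hp', i1, e]
      · rcases i2 v with h' | ⟨i, h1, h2, h3⟩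
        · left
          simp [hp', i1, Function.update_apply, e, h']
        · right
          refine ⟨i, ?_, h2, h3⟩
          rcases Nat.lt_or_ge j i with h4 | h4
          · exact h4
          · exact absurd (by rw [← h3, le_antisymm h4 h1]) e
    · simp [hp']
    · simp [hhi]
    · simp [Cmd.mc, Exp.cost]
  · rintro s2 ⟨_, i2⟩ _ _ v
    rcases i2 v with h' | ⟨i, h1, h2, h3⟩
    · exact h'
    · omega
  · simp [Exp.cost, hlen]; omega

theorem pClean_spec {s : St} {U Q S : List ℕ} (hU : seg (s.m UL) 0 (s.r rnU) = U)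
    (hQ : seg (s.m PQ) 0 (s.r rnp) = Q) (hS : seg (s.m SA) 0 (s.r rt) = S)
    (h1 : ∀ v, v ∉ U → s.m MU v = 0) (h2 : ∀ v, v ∉ Q → s.m MM v = 0)
    (h3 : ∀ v, v ∉ S → s.m FL v = 0) :
    Tri s pClean (50 * (U.length + Q.length + S.length + 1)) (fun s' =>
      (∀ v, s'.m MU v = 0) ∧ (∀ v, s'.m MM v = 0) ∧ (∀ v, s'.m FL v = 0) ∧
      s'.r rnU = 0 ∧ s'.r rnp = 0 ∧ s'.r rnM = 0) := by
  unfold pClean
  refine Tri.cons (B1 := 12 * U.length + 6) (B2 := 12 * Q.length + 6 + (12 * S.length + 6 + 7))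
    ((zero_loop (p := rj) (hi := rnU) (a := MU) (f := UL) (by decide) (by decide) hU
      h1).fr.imp ?_) (by omega)
  rintro s1 ⟨a1, f1⟩
  refine Tri.cons (B1 := 12 * Q.length + 6) (B2 := 12 * S.length + 6 + 7)
    ((zero_loop (p := rj) (hi := rnp) (a := MM) (f := PQ) (l := Q) (by decide) (by decide) ?_
      ?_).fr.imp ?_) le_rfl
  · rw [f1.m PQ (by decide), f1.r rnp (by decide)]; exact hQ
  · rw [f1.m MM (by decide)]; exact h2
  rintro s2 ⟨a2, f2⟩
  refine Tri.cons (B1 := 12 * S.length + 6) (B2 := 7)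
    ((zero_loop (p := rj) (hi := rt) (a := FL) (f := SA) (l := S) (by decide) (by decide) ?_
      ?_).fr.imp ?_) le_rfl
  · rw [f2.m SA (by decide), f2.r rt (by decide), f1.m SA (by decide), f1.r rt (by decide)]
    exact hS
  · rw [f2.m FL (by decide), f1.m FL (by decide)]; exact h3
  rintro s3 ⟨a3, f3⟩
  refine Tri.lf' rfl ⟨?_, ?_, ?_, ?_, ?_, ?_⟩ (by simp [Cmd.mc, Exp.cost])
  · intro v
    have : s3.m MU v = 0 := by rw [f3.m MU (by decide), f2.m MU (by decide)]; exact a1 v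
    simpa using this
  · intro v
    have : s3.m MM v = 0 := by rw [f3.m MM (by decide)]; exact a2 v
    simpa using this
  · intro v
    simpa using a3 v
  · simp
  · simp
  · simp

end TL
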