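import Pool.Agent.W_3fea_h44.NLowDefs

/-! # Completeness of the loops at a node -/

namespace TL

open Relation Finset Classical

variable {n m k : ℕ} {G : SimpleGraph ℕ} {D : St} {S : List ℕ} {stk : List (ℕ × ℕ)}

/-- a component of `G - A` which avoids `B` and whose neighbours in `A` lie in `B` is a component
of `G - B` -/
theorem rch_transfer {A B : Finset ℕ} {x : ℕ} (h1 : ∀ v, Rch G A x v → v ∉ B)
    (h2 : ∀ v w, Rch G A x v → G.Adj v w → w ∈ A → w ∈ B) (v : ℕ) :
    Rch G A x v ↔ Rch G B x v := by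
  constructor
  · intro h
    induction h with
    | refl => exact Rch.refl _
    | @tail b c hb hbc ih =>
      exact ih.trans (Rch.step hbc.1 (h1 c (ReflTransGen.tail hb hbc)))
  · intro h
    induction h with
    | refl => exact Rch.refl _
    | @tail b c hb hbc ih =>
      refine ih.trans (Rch.step hbc.1 (fun hc => ?_))
      exact hbc.2 (h2 b c ih hbc.1 hc)

theorem dom_transfer {A B : Finset ℕ} {x : ℕ} (h1 : ∀ v, Rch G A x v → v ∉ B)
    (h2 : ∀ v w, Rch G A x v → G.Adj v w → w ∈ A → w ∈ B) :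
    Dom G A x ↔ Dom G B x := by
  have h := rch_transfer h1 h2
  unfold Dom
  constructor
  · rintro ⟨t, ht1, ht2⟩
    exact ⟨t, (h t).1 ht1, fun y hy => ht2 y ((h y).2 hy)⟩
  · rintro ⟨t, ht1, ht2⟩
    exact ⟨t, (h t).2 ht1, fun y hy => ht2 y ((h y).1 hy)⟩

/-- completeness of the three loops -/
theorem complete (hP : Prep n m k G D) (hS : ∀ v ∈ S, v < n) (hlen : S.length ≤ k)
    (hnd : S.Nodup)
    (hA : ∀ x < n, x ∉ S → dl k ≤ dp n G S.toFinset x → Dom G S.toFinset x)
    (hL : ∀ w ∈ S, dg n G w < D.r rtau → ∀ y, G.Adj w y → y ∉ S → dg n G y < D.r rD →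
      LowOK n k G S y)
    (hT : ∀ E ∈ tbL D, (∀ h, InCh (D.m PAR) (D.m LAB) h (D.m NODE E) → h ∈ S) →
      (∀ w ∈ S, D.m CE w ≠ E) → dg n G (D.m CV E) < D.r rD → LowOK n k G S (D.m CV E)) :
    Good n G S.toFinset := by
  have hG := hP.inn
  intro x hx hxT
  by_contra hnd0
  have hmemT : ∀ v, v ∈ S.toFinset ↔ v ∈ S := fun v => List.mem_toFinset
  have hTc : S.toFinset.card ≤ k := (List.toFinset_card_le S).trans hlen
  -- unsuccessful searches
  have hlow : ∀ y < n, y ∉ S → LowOK n k G S y → Dom G S.toFinset y := by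
    intro y hy hyS h
    rcases h with h | ⟨v, hv, hxv, hd⟩
    · exact h
    · have hvn : v < n := by
        rcases hxv with h | h
        · rw [h]; exact hy
        · exact hG.right h
      refine Dom.congr (fun h' => hv ((hmemT v).1 h')) ?_ (hA v hvn hv hd)
      rcases hxv with h | h
      · rw [h]; exact Rch.refl _
      · exact Rch.step h.symm (fun h' => hyS ((hmemT y).1 h'))
  -- vertices of the component
  have hund : ∀ v, Rch G S.toFinset x v → ¬ Dom G S.toFinset v := fun v hv h =>
    hnd0 (h.congr (hv.notin hxT) (hv.symm hxT))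
  have hout : ∀ v, Rch G S.toFinset x v → v ∉ S := fun v hv h' =>
    hv.notin hxT ((hmemT v).2 h')
  have hsmall : ∀ v, Rch G S.toFinset x v → dg n G v < dl k + k := by
    intro v hv
    have h1 : dp n G S.toFinset v < dl k := by
      by_contra h
      exact hund v hv (hA v (hv.lt hG hx) (hout v hv) (by omega))
    have := dg_le_dp (n := n) (G := G) (S := S.toFinset) v
    omega
  have htau : dl k + k ≤ D.r rtau := by
    rw [hP.a.rtau_]
    exact le_max_left _ _
  set A := gset n G (D.r rtau) with hAdef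
  have hmemA : ∀ v, v ∈ A ↔ v < n ∧ D.r rtau ≤ dg n G v := by
    intro v
    rw [hAdef, gset, mem_filter, mem_range]
  have hvA : ∀ v, Rch G S.toFinset x v → v ∉ A := fun v hv h => by
    have h1 := ((hmemA v).1 h).2
    have h2 := hsmall v hv
    omega
  have hadjS : ∀ v w, Rch G S.toFinset x v → G.Adj v w → w ∈ S.toFinset → w ∈ A := by
    intro v w hv hvw hw
    by_contra hwA
    rw [hmemA] at hwA
    have hwn : w < n := hG.right hvw
    have h1 : dg n G w < D.r rtau := by
      by_contra h
      exact hwA ⟨hwn, by omega⟩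
    refine hund v hv (hlow v (hv.lt hG hx) (hout v hv) ?_)
    refine hL w ((hmemT w).1 hw) h1 v hvw.symm (hout v hv) ?_
    rw [hP.a.rD_]
    exact hsmall v hv
  have htr := rch_transfer hvA hadjS
  have hdt := dom_transfer hvA hadjS
  have hndA : ¬ Dom G A x := fun h => hnd0 (hdt.2 h)
  have hxt : dg n G x < D.r rtau := lt_of_lt_of_le (hsmall x (Rch.refl _)) htau
  obtain ⟨hE1, hE2⟩ := hP.c.ce_n x hx hxt
  obtain ⟨hE3, hE4, hE5⟩ := hP.c.cv _ hE1 hE2
  set E := D.m CE x with hE
  -- membership in the components of the graph without giants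
  have hcomp : ∀ F, n < F → F ≤ D.r rnE → ∀ v < n, D.m CE v = F ↔ Rch G A (D.m CV F) v := by
    intro F hF1 hF2 v hv
    obtain ⟨hF3, hF4, hF5⟩ := hP.c.cv F hF1 hF2
    constructor
    · intro hv'
      have hvt : dg n G v < D.r rtau := by
        by_contra h
        have := hP.c.ce_g v hv (by omega)
        omega
      exact (hP.c.ce_iff _ hF3 v hv hF4 hvt).1 (by rw [hF5, hv'])
    · intro hv'
      have hnA : v ∉ A := by
        refine hv'.notin ?_
        rw [hmemA]
        omega
      have hvt : dg n G v < D.r rtau := by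
        by_contra h
        exact hnA ((hmemA v).2 ⟨hv, by omega⟩)
      have := (hP.c.ce_iff _ hF3 v hv hF4 hvt).2 hv'
      rw [← this, hF5]
  have hxE : Rch G A (D.m CV E) x := (hcomp E hE1 hE2 x hx).1 rfl
  have hcvA : D.m CV E ∉ A := by
    rw [hmemA]
    omega
  have hxcv : Rch G A x (D.m CV E) := hxE.symm hcvA
  have hcE : ∀ v < n, D.m CE v = E → Rch G S.toFinset x v := by
    intro v hv hvE
    exact (htr v).2 (hxcv.trans ((hcomp E hE1 hE2 v hv).1 hvE))
  have hgi : ∀ h, h ∈ giL D ↔ h ∈ A := by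
    intro h
    rw [hP.a.gi, List.mem_filter, List.mem_range, hmemA]
    simp
  have hndE : ¬ Dom G A (D.m CV E) := fun h => hndA (h.congr hcvA hxE)
  -- labels of the class of `E`
  have hlab : ∀ h, InCh (D.m PAR) (D.m LAB) h (D.m NODE E) → h ∈ S := by
    intro h hh
    obtain ⟨h1, v, hv, hvE, hadj⟩ := (hP.d.codeE E hE1 hE2 h).1 hh
    by_contra hS'
    have h2 := hcE v hv hvE
    have h3 : Rch G S.toFinset x h :=
      h2.trans (Rch.step hadj.symm (fun h' => hS' ((hmemT h).1 h')))
    exact hvA h h3 ((hgi h).1 h1)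
  by_cases hEt : E ∈ tbL D
  · have h1 : Rch G S.toFinset x (D.m CV E) := hcE _ hE3 hE5
    refine hund _ h1 (hlow _ hE3 (hout _ h1) (hT E hEt hlab ?_ ?_))
    · intro w hw hwE
      exact hout w (hcE w (hS w hw) hwE) hw
    · rw [hP.a.rD_]
      exact hsmall _ h1
  · have hfull := hP.t.full E hE1 hE2 hndE hEt
    -- one of these components avoids `S`
    have hex : ∃ F ∈ (tbL D).filter (fun E' => D.m NODE E' = D.m NODE E),
        ∀ w ∈ S, D.m CE w ≠ F := by
      by_contra hcon
      push Not at hcon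
      have h1 : ((tbL D).filter (fun E' => D.m NODE E' = D.m NODE E)).toFinset ⊆
          (S.map (fun w => D.m CE w)).toFinset := by
        intro F hF
        rw [List.mem_toFinset] at hF
        obtain ⟨w, hw, hwF⟩ := hcon F hF
        rw [List.mem_toFinset, List.mem_map]
        exact ⟨w, hw, hwF⟩
      have h2 := card_le_card h1
      rw [List.toFinset_card_of_nodup (hP.t.nd.filter _)] at h2
      have h3 := List.toFinset_card_le (S.map (fun w => D.m CE w))
      rw [List.length_map] at h3
      omega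
    obtain ⟨F, hF, hFS⟩ := hex
    rw [List.mem_filter] at hF
    have hFn : D.m NODE F = D.m NODE E := by simpa using hF.2
    obtain ⟨hF1, hF2, hF3⟩ := hP.t.mem F hF.1
    obtain ⟨hF4, hF5, hF6⟩ := hP.c.cv F hF1 hF2
    have hcvFA : D.m CV F ∉ A := by
      rw [hmemA]
      omega
    have hFout : ∀ v, Rch G A (D.m CV F) v → v ∉ S.toFinset := by
      intro v hv hvS
      have hvn := hv.lt hG hF4
      exact hFS v ((hmemT v).1 hvS) ((hcomp F hF1 hF2 v hvn).2 hv)
    have hFadj : ∀ v w, Rch G A (D.m CV F) v → G.Adj v w → w ∈ A → w ∈ S.toFinset := by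
      intro v w hv hvw hw
      have hvn := hv.lt hG hF4
      rw [hmemT]
      refine hlab w ?_
      rw [← hFn]
      exact (hP.d.codeE F hF1 hF2 w).2
        ⟨(hgi w).2 hw, v, hvn, (hcomp F hF1 hF2 v hvn).2 hv, hvw.symm⟩
    have hdtF := dom_transfer hFout hFadj
    apply hF3
    rw [hdtF]
    have hcvS : D.m CV F ∉ S := fun h => hFout _ (Rch.refl _) ((hmemT _).2 h)
    by_cases hdeg : dg n G (D.m CV F) < D.r rD
    · refine hlow _ hF4 hcvS (hT F hF.1 ?_ hFS hdeg)
      intro h hh
      rw [hFn] at hh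
      exact hlab h hh
    · refine hA _ hF4 hcvS ?_
      rw [hP.a.rD_] at hdeg
      have := dg_le_dp (n := n) (G := G) (S := S.toFinset) (D.m CV F)
      omega

end TL
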