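import Pool.Agent.W_3fea_h44.NExDefs

/-! # Specification of `pEx1` -/

namespace TL

open Relation Finset Classical

variable {n m k : ℕ} {G : SimpleGraph ℕ} {D : St} {S : List ℕ} {c : ℕ}

theorem ite_iff' {p q : Prop} {i1 : Decidable p} {i2 : Decidable q} (h : p ↔ q) :
    (if p then 1 else 0 : ℕ) = if q then 1 else 0 := by
  by_cases h1 : p
  · rw [if_pos h1, if_pos (h.1 h1)]
  · rw [if_neg h1, if_neg (fun h2 => h1 (h.2 h2))]

/-! ### frames of single writes -/

theorem Fr.setR' {wr wa : List ℕ} {s s' : St} {x v : ℕ} (h : Fr wr wa s s') (hx : x ∈ wr) :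
    Fr wr wa s (s'.setR x v) := by
  refine ⟨fun y hy => ?_, fun a ha => ?_⟩
  · rw [St.setR_r, if_neg (by rintro rfl; exact hy hx)]
    exact h.r y hy
  · rw [St.setR_m]
    exact h.m a ha

theorem Fr.setM' {wr wa : List ℕ} {s s' : St} {a i v : ℕ} (h : Fr wr wa s s') (hx : a ∈ wa) :
    Fr wr wa s (s'.setM a i v) := by
  refine ⟨fun y hy => ?_, fun b hb => ?_⟩
  · rw [St.setM_r]
    exact h.r y hy
  · rw [St.setM_m, if_neg (by rintro rfl; exact hb hx)]
    exact h.m b hb

/-! ### updates of the state of an examination -/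

/-- change of the counters and flags -/
theorem XS.cf {M : List (ℕ × ℕ)} {cn cn' : ℕ → ℕ} {fl fl' : ℕ → Prop} {s s' : St}
    {wr wa : List ℕ} (h : XS n m k G D S c M cn fl s) (hf : Fr wr wa s s')
    (h1 : ∀ x ∈ xsR, x ∉ wr) (h2 : ∀ a ∈ nsA ++ [UL, MU, PQ, MM, CM], a ∉ wa)
    (hcn : ∀ v, s'.m CN v = cn' v) (hfl : ∀ v, s'.m FL v = if fl' v then 1 else 0) :
    XS n m k G D S c M cn' fl' s' := by
  have hr : ∀ x ∈ xsR, s'.r x = s.r x := fun x hx => hf.r x (h1 x hx)
  have hm : ∀ a ∈ nsA ++ [UL, MU, PQ, MM, CM], s'.m a = s.m a := fun a ha => hf.m a (h2 a ha)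
  refine ⟨h.ns.fr hf (fun x hx => h1 x (List.mem_append_left _ hx))
    (fun a ha => h2 a (List.mem_append_left _ ha)), ?_, h.cn_, h.cS, ?_, ?_, ?_, ?_, ?_, h.mat,
    h.le, hcn, hfl, ?_⟩
  · rw [hr rc (by decide)]; exact h.c_
  · rw [hm UL (by decide), hr rnU (by decide)]; exact h.ul
  · rw [hm MU (by decide)]; exact h.mu
  · rw [hm PQ (by decide), hr rnp (by decide)]; exact h.pq
  · rw [hr rnM (by decide)]; exact h.nM
  · rw [hm MM (by decide)]; exact h.mm
  · rw [hm CM (by decide)]; exact h.cm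

/-- change of the descriptions of the counters and flags -/
theorem XS.congr' {M : List (ℕ × ℕ)} {cn cn' : ℕ → ℕ} {fl fl' : ℕ → Prop} {s : St}
    (h : XS n m k G D S c M cn fl s) (hcn : ∀ v, cn v = cn' v) (hfl : ∀ v, fl v ↔ fl' v) :
    XS n m k G D S c M cn' fl' s := by
  refine h.cf (wr := []) (wa := []) (Fr.refl s) (by simp) (by simp) ?_ ?_
  · intro v; rw [h.cn v, hcn v]
  · intro v
    rw [h.fl v]
    by_cases h1 : fl v
    · rw [if_pos h1, if_pos ((hfl v).1 h1)]
    · rw [if_neg h1, if_neg (fun h2 => h1 ((hfl v).2 h2))]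

/-- a new edge of the matching -/
theorem XS.add {M : List (ℕ × ℕ)} {cn : ℕ → ℕ} {fl : ℕ → Prop} {s : St}
    (h : XS n m k G D S c M cn fl s) {a y : ℕ} (ha : a ∈ Uc n G S.toFinset c)
    (hyU : y ∉ Uc n G S.toFinset c) (hyS : y ∉ S) (hay : G.Adj a y) (haM : a ∉ flat M)
    (hyM : y ∉ flat M) (hlt : M.length < 2 * (k - S.length) + 1) (hra : s.r ra = a)
    (hry : s.r ry = y) : XS n m k G D S c (M ++ [(a, y)]) cn fl (pAdd.ex s) := by
  have hne : a ≠ y := hay.ne
  have hf : Fr pAdd.wr pAdd.wa s (pAdd.ex s) := by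
    obtain ⟨t, _, h1⟩ := pAdd.lf_run s rfl
    exact h1.frame
  refine ⟨h.ns.fr hf (by decide) (by decide), ?_, h.cn_, h.cS, ?_, ?_, ?_, ?_, ?_, ?_, ?_, ?_,
    ?_, ?_⟩
  · rw [hf.r rc (by decide)]; exact h.c_
  · rw [hf.m UL (by decide), hf.r rnU (by decide)]; exact h.ul
  · rw [hf.m MU (by decide)]; exact h.mu
  · have e1 : (pAdd.ex s).r rnp = s.r rnp + 1 + 1 := by simp [pAdd]
    have e2 : (pAdd.ex s).m PQ =
        Function.update (Function.update (s.m PQ) (s.r rnp) a) (s.r rnp + 1) y := by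
      simp [pAdd, hra, hry]
    rw [e1, e2, seg_succ _ (by omega), seg_succ _ (by omega), seg_update (by omega),
      seg_update (by omega), h.pq, flat_append, flat_one]
    simp
  · have e1 : (pAdd.ex s).r rnM = s.r rnM + 1 := by simp [pAdd]
    rw [e1, h.nM]
    simp
  · intro v
    have e2 : (pAdd.ex s).m MM = Function.update (Function.update (s.m MM) a 1) y 1 := by
      simp [pAdd, hra, hry]
    rw [e2, flat_append, flat_one, Function.update_apply, Function.update_apply, h.mm v]
    simp only [ind, List.mem_append, List.mem_cons, List.not_mem_nil, or_false]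
    by_cases h1 : v = y
    · simp [h1]
    · by_cases h2 : v = a
      · simp [h2]
      · simp [h1, h2]
  · refine ⟨?_, ?_⟩
    · intro e he
      rcases List.mem_append.1 he with h1 | h1
      · exact h.mat.edge e h1
      · rw [List.mem_singleton.1 h1]
        exact ⟨ha, hyU, by simpa using hyS, hay⟩
    · rw [flat_append, flat_one]
      refine List.nodup_append.2 ⟨h.mat.nd, by simp [hne], ?_⟩
      intro u hu v hv he
      simp only [List.mem_cons, List.not_mem_nil, or_false] at hv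
      rcases hv with rfl | rfl
      · exact haM (he ▸ hu)
      · exact hyM (he ▸ hu)
  · simp only [List.length_append, List.length_singleton]; omega
  · rw [hf.m CN (by decide)]; exact h.cn
  · rw [hf.m FL (by decide)]; exact h.fl
  · rw [hf.m CM (by decide)]; exact h.cm

/-! ### lists of pairs -/

/-- the pairs `(a, y)` with `a` in `l` and `y` in `f a` -/
def prs (f : ℕ → List ℕ) (l : List ℕ) : List (ℕ × ℕ) := l.flatMap (fun a => (f a).map (Prod.mk a))

theorem prs_cons (f : ℕ → List ℕ) (a : ℕ) (l : List ℕ) :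
    prs f (a :: l) = (f a).map (Prod.mk a) ++ prs f l := rfl

theorem prs_take_succ (f : ℕ → List ℕ) {l : List ℕ} {j : ℕ} (hj : j < l.length) :
    prs f (l.take (j + 1)) = prs f (l.take j) ++ (f l[j]).map (Prod.mk l[j]) := by
  rw [List.take_succ_eq_append_getElem hj]
  simp only [prs, List.flatMap_append, List.flatMap_cons, List.flatMap_nil, List.append_nil]

theorem mem_prs {f : ℕ → List ℕ} {l : List ℕ} {e : ℕ × ℕ} :
    e ∈ prs f l ↔ e.1 ∈ l ∧ e.2 ∈ f e.1 := by
  obtain ⟨a, b⟩ := e
  simp [prs]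

/-- number of the pairs with second component `v` -/
def cnt (L : List (ℕ × ℕ)) (v : ℕ) : ℕ := (L.filter (fun e => decide (e.2 = v))).length

@[simp] theorem cnt_nil (v : ℕ) : cnt [] v = 0 := rfl

theorem cnt_append (L L' : List (ℕ × ℕ)) (v : ℕ) : cnt (L ++ L') v = cnt L v + cnt L' v := by
  simp [cnt]

theorem cnt_one (a y v : ℕ) : cnt [(a, y)] v = if y = v then 1 else 0 := by
  by_cases h : y = v <;> simp [cnt, h]

theorem cnt_map (a : ℕ) (l : List ℕ) (hl : l.Nodup) (v : ℕ) :
    cnt (l.map (Prod.mk a)) v = if v ∈ l then 1 else 0 := by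
  induction l with
  | nil => simp
  | cons y l ih =>
    have h1 : (List.map (Prod.mk a) (y :: l)) = [(a, y)] ++ l.map (Prod.mk a) := rfl
    rw [h1, cnt_append, cnt_one, ih (List.nodup_cons.1 hl).2]
    have h2 := (List.nodup_cons.1 hl).1
    by_cases h3 : y = v
    · subst h3
      simp [h2]
    · have h4 : ¬ v = y := fun e => h3 e.symm
      simp [h3, h4]

theorem cnt_prs {f : ℕ → List ℕ} {l : List ℕ} (hl : l.Nodup) (hf : ∀ a ∈ l, (f a).Nodup)
    (v : ℕ) : cnt (prs f l) v = (l.toFinset.filter (fun y => v ∈ f y)).card := by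
  induction l with
  | nil => simp [prs]
  | cons a l ih =>
    rw [prs_cons, cnt_append, cnt_map a (f a) (hf a (by simp)) v,
      ih (List.nodup_cons.1 hl).2 (fun b hb => hf b (by simp [hb])), List.toFinset_cons,
      Finset.filter_insert]
    have h2 : a ∉ l.toFinset.filter (fun y => v ∈ f y) := by
      intro h3
      exact (List.nodup_cons.1 hl).1 (List.mem_toFinset.1 (Finset.mem_filter.1 h3).1)
    by_cases h3 : v ∈ f a
    · rw [if_pos h3, if_pos h3, Finset.card_insert_of_notMem h2]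
      omega
    · rw [if_neg h3, if_neg h3]
      omega

theorem sum_getD (g : ℕ → ℕ) (l : List ℕ) :
    ∑ i ∈ Finset.range l.length, g (l.getD i 0) = (l.map g).sum := by
  induction l with
  | nil => simp
  | cons a l ih =>
    rw [List.length_cons, Finset.sum_range_succ']
    simp only [List.getD_cons_succ, List.getD_cons_zero, List.map_cons, List.sum_cons]
    rw [ih]
    omega

theorem seg_at {f : ℕ → ℕ} {i j : ℕ} {l : List ℕ} (h : seg f i j = l) {p : ℕ}
    (hp : p < l.length) : f (i + p) = l[p] := by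
  subst h
  rw [seg_getElem]

theorem uL_toFinset (h : Prep n m k G D) (hc : c < n) :
    (uL D S c).toFinset = Uc n G S.toFinset c := by
  ext v
  rw [List.mem_toFinset, mem_uL h hc]

/-! ### the body of the inner loop -/

/-- invariant of phase (i): the pairs in `L` are done -/
def J1 (n m k : ℕ) (G : SimpleGraph ℕ) (D : St) (S : List ℕ) (c : ℕ) (L : List (ℕ × ℕ))
    (s : St) : Prop :=
  ∃ M, XS n m k G D S c M (fun v => if v ∈ Uc n G S.toFinset c then cnt L v else 0)
    (fun v => v ∈ S ∧ ∃ e ∈ L, e.2 = v) s ∧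
    (M.length < 2 * (k - S.length) + 1 → ∀ e ∈ L, e.2 ∉ Uc n G S.toFinset c → e.2 ∉ S →
      e.1 ∈ flat M ∨ e.2 ∈ flat M)

theorem J1.fr {L : List (ℕ × ℕ)} {s s' : St} {wr wa : List ℕ} (h : J1 n m k G D S c L s)
    (hf : Fr wr wa s s') (h1 : ∀ x ∈ xsR, x ∉ wr) (h2 : ∀ a ∈ xsA, a ∉ wa) :
    J1 n m k G D S c L s' := by
  obtain ⟨M, h3, h4⟩ := h
  exact ⟨M, h3.fr hf h1 h2, h4⟩

/-- the body of the inner loop of phase (i) -/
def pB1 : Cmd :=
  .blk [
      .set ry (A BKA (V rp)),
      .ite (.eq (A INS (V ry)) (K 1)) (.put FL (V ry) (K 1))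
        (.ite (.eq (A MU (V ry)) (K 1)) (.put CN (V ry) (.inc (A CN (V ry))))
          (.whn (.all [.eq (A MM (V ra)) (K 0), .eq (A MM (V ry)) (K 0),
            .lt (V rnM) (V rlim)]) pAdd))]

theorem pB1_spec {L : List (ℕ × ℕ)} {s : St} (h : J1 n m k G D S c L s) {a y : ℕ}
    (ha : a ∈ Uc n G S.toFinset c) (hra : s.r ra = a) (hy : s.m BKA (s.r rp) = y)
    (hay : G.Adj a y) : J1 n m k G D S c (L ++ [(a, y)]) (pB1.ex s) := by
  obtain ⟨M, hX, hM⟩ := h
  have hG : Inn n G := hX.ns.prep.inn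
  have hSU : ∀ v ∈ Uc n G S.toFinset c, v ∉ S := by
    intro v hv h1
    exact Uc_disjoint hG (by simpa using hX.cS) v hv (by simpa using h1)
  have hX1 : XS n m k G D S c M (fun v => if v ∈ Uc n G S.toFinset c then cnt L v else 0)
      (fun v => v ∈ S ∧ ∃ e ∈ L, e.2 = v) (s.setR ry y) :=
    hX.fr (wr := [ry]) (wa := []) ((Fr.refl s).setR' (by simp)) (by decide) (by simp)
  have hins : s.m INS y = if y ∈ S then 1 else 0 := hX.ns.ins y
  have hmu : s.m MU y = ind (uL D S c) y := hX.mu y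
  have hmu' : s.m MU y = if y ∈ Uc n G S.toFinset c then 1 else 0 := by
    rw [hmu, ind]
    by_cases h1 : y ∈ uL D S c
    · rw [if_pos h1, if_pos ((mem_uL hX.ns.prep hX.cn_ y).1 h1)]
    · rw [if_neg h1, if_neg (fun h2 => h1 ((mem_uL hX.ns.prep hX.cn_ y).2 h2))]
  by_cases hyS : y ∈ S
  · -- an element of `S`
    have e1 : pB1.ex s = (s.setR ry y).setM FL y 1 := by
      simp [pB1, hy, hins, hyS]
    have hyU : y ∉ Uc n G S.toFinset c := fun h1 => hSU y h1 hyS
    rw [e1]
    refine ⟨M, hX1.cf (wr := []) (wa := [FL]) ((Fr.refl _).setM' (by simp)) (by simp)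
      (by decide) ?_ ?_, ?_⟩
    · intro v
      have h1 : ((s.setR ry y).setM FL y 1).m CN v = s.m CN v := by simp
      rw [h1, hX.cn v]
      by_cases h2 : v ∈ Uc n G S.toFinset c
      · have h3 : ¬ y = v := fun e => hyU (e ▸ h2)
        rw [if_pos h2, if_pos h2, cnt_append, cnt_one, if_neg h3]
        omega
      · rw [if_neg h2, if_neg h2]
    · intro v
      have h1 : ((s.setR ry y).setM FL y 1).m FL v = if v = y then 1 else s.m FL v := by
        simp [Function.update_apply]
      rw [h1, hX.fl v]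
      by_cases h2 : v = y
      · have h3 : v ∈ S ∧ ∃ e ∈ L ++ [(a, y)], e.2 = v :=
          ⟨h2 ▸ hyS, (a, y), by simp, h2.symm⟩
        rw [if_pos h2, if_pos h3]
      · rw [if_neg h2]
        have h3 : (v ∈ S ∧ ∃ e ∈ L ++ [(a, y)], e.2 = v) ↔ (v ∈ S ∧ ∃ e ∈ L, e.2 = v) := by
          constructor
          · rintro ⟨h4, e, h5, h6⟩
            refine ⟨h4, e, ?_, h6⟩
            rcases List.mem_append.1 h5 with h7 | h7
            · exact h7
            · rw [List.mem_singleton.1 h7] at h6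
              exact absurd h6.symm h2
          · rintro ⟨h4, e, h5, h6⟩
            exact ⟨h4, e, List.mem_append_left _ h5, h6⟩
        exact ite_iff' h3.symm
    · intro h1 e he h2 h3
      rcases List.mem_append.1 he with h4 | h4
      · exact hM h1 e h4 h2 h3
      · rw [List.mem_singleton.1 h4] at h3
        exact absurd hyS h3
  · have hfl : ∀ v, ((v ∈ S ∧ ∃ e ∈ L, e.2 = v) ↔ (v ∈ S ∧ ∃ e ∈ L ++ [(a, y)], e.2 = v)) := by
      intro v
      constructor
      · rintro ⟨h4, e, h5, h6⟩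
        exact ⟨h4, e, List.mem_append_left _ h5, h6⟩
      · rintro ⟨h4, e, h5, h6⟩
        refine ⟨h4, e, ?_, h6⟩
        rcases List.mem_append.1 h5 with h7 | h7
        · exact h7
        · rw [List.mem_singleton.1 h7] at h6
          have h8 : y = v := h6
          rw [← h8] at h4
          exact absurd h4 hyS
    by_cases hyU : y ∈ Uc n G S.toFinset c
    · have e1 : pB1.ex s = (s.setR ry y).setM CN y (s.m CN y + 1) := by
        simp [pB1, hy, hins, hyS, hmu', hyU]
      rw [e1]
      refine ⟨M, hX1.cf (wr := []) (wa := [CN]) ((Fr.refl _).setM' (by simp)) (by simp)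
        (by decide) ?_ ?_, ?_⟩
      · intro v
        have h1 : ((s.setR ry y).setM CN y (s.m CN y + 1)).m CN v =
            if v = y then s.m CN y + 1 else s.m CN v := by simp [Function.update_apply]
        rw [h1, hX.cn v, hX.cn y]
        by_cases h2 : v = y
        · subst h2
          rw [if_pos rfl, if_pos hyU, if_pos hyU, cnt_append, cnt_one, if_pos rfl]
        · have h3 : ¬ y = v := fun e => h2 e.symm
          rw [if_neg h2, cnt_append, cnt_one, if_neg h3]
          simp
      · intro v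
        have h1 : ((s.setR ry y).setM CN y (s.m CN y + 1)).m FL v = s.m FL v := by simp
        rw [h1, hX.fl v]
        exact ite_iff' (hfl v)
      · intro h1 e he h2 h3
        rcases List.mem_append.1 he with h4 | h4
        · exact hM h1 e h4 h2 h3
        · rw [List.mem_singleton.1 h4] at h2
          exact absurd hyU h2
    · have hcn : ∀ v, (if v ∈ Uc n G S.toFinset c then cnt L v else 0) =
          if v ∈ Uc n G S.toFinset c then cnt (L ++ [(a, y)]) v else 0 := by
        intro v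
        by_cases h2 : v ∈ Uc n G S.toFinset c
        · have h3 : ¬ y = v := fun e => hyU (e ▸ h2)
          rw [if_pos h2, if_pos h2, cnt_append, cnt_one, if_neg h3]
          omega
        · rw [if_neg h2, if_neg h2]
      have hX2 := hX1.congr' hcn hfl
      by_cases hb : a ∉ flat M ∧ y ∉ flat M ∧ M.length < 2 * (k - S.length) + 1
      · obtain ⟨b1, b2, b3⟩ := hb
        have e1 : pB1.ex s = pAdd.ex (s.setR ry y) := by
          have h1 : s.m MM a = 0 := by rw [hX.mm a, ind, if_neg b1]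
          have h2 : s.m MM y = 0 := by rw [hX.mm y, ind, if_neg b2]
          have h3 : s.r rnM < s.r rlim := by rw [hX.nM, hX.ns.lim]; exact b3
          simp [pB1, hy, hins, hyS, hmu', hyU, hra, h1, h2, h3]
        rw [e1]
        refine ⟨M ++ [(a, y)], hX2.add ha hyU hyS hay b1 b2 b3 (by simp [hra]) (by simp), ?_⟩
        intro h1 e he h2 h3
        rcases List.mem_append.1 he with h4 | h4
        · rcases hM (by simp at h1; omega) e h4 h2 h3 with h5 | h5
          · left; rw [flat_append]; exact List.mem_append_left _ h5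
          · right; rw [flat_append]; exact List.mem_append_left _ h5
        · rw [List.mem_singleton.1 h4]
          left; rw [flat_append, flat_one]; simp
      · have e1 : pB1.ex s = s.setR ry y := by
          have h1 : ¬ (s.m MM a = 0 ∧ s.m MM y = 0 ∧ s.r rnM < s.r rlim) := by
            rintro ⟨h1, h2, h3⟩
            apply hb
            rw [hX.mm a, ind] at h1
            rw [hX.mm y, ind] at h2
            rw [hX.nM, hX.ns.lim] at h3
            refine ⟨fun h4 => ?_, fun h4 => ?_, h3⟩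
            · rw [if_pos h4] at h1; omega
            · rw [if_pos h4] at h2; omega
          have h2 : ¬ ((s.m MM a = 0 ∧ s.m MM y = 0) ∧ s.r rnM < s.r rlim) := by tauto
          simp [pB1, hy, hins, hyS, hmu', hyU, hra]
          tauto
        rw [e1]
        refine ⟨M, hX2, ?_⟩
        intro h1 e he h2 h3
        rcases List.mem_append.1 he with h4 | h4
        · exact hM h1 e h4 h2 h3
        · rw [List.mem_singleton.1 h4]
          by_contra h5
          push Not at h5
          exact hb ⟨h5.1, h5.2, h1⟩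


/-! ### the loops -/

theorem bk_length (D : St) (a : ℕ) : (bk D a).length = D.m BE a - D.m OFF a := by
  rw [bk, seg_length]

theorem bk_take {D : St} {a p : ℕ} (h1 : D.m OFF a ≤ p) (h2 : p < D.m BE a) :
    (bk D a).take (p + 1 - D.m OFF a) = (bk D a).take (p - D.m OFF a) ++ [D.m BKA p] := by
  have h3 : p - D.m OFF a < (bk D a).length := by rw [bk_length]; omega
  have h4 : p + 1 - D.m OFF a = p - D.m OFF a + 1 := by omega
  rw [h4, List.take_succ_eq_append_getElem h3]
  congr 2
  have h5 := seg_at (f := D.m BKA) (i := D.m OFF a) (j := D.m BE a) (l := bk D a) rfl h3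
  rw [← h5]
  congr 1
  omega

theorem pL1_spec {L : List (ℕ × ℕ)} {s : St} (h : J1 n m k G D S c L s) {a : ℕ}
    (ha : a ∈ Uc n G S.toFinset c) (hra : s.r ra = a) (hhi : s.r rhi = D.m BE a) :
    Tri s (.for_ rp (A OFF (V ra)) rhi pB1) (7 + (bk D a).length * 57)
      (fun s' => J1 n m k G D S c (L ++ (bk D a).map (Prod.mk a)) s') := by
  obtain ⟨M0, hX0, _⟩ := id h
  have hP := hX0.ns.prep
  have hG : Inn n G := hP.inn
  have han : a < n := Uc_lt hG hX0.cn_ a ha
  have hoff : ∀ s : St, J1 n m k G D S c L s → s.m OFF = D.m OFF := fun s hs => by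
    obtain ⟨M, hX, _⟩ := hs
    exact hX.ns.agr.m OFF (by decide)
  have h1 := hP.b.be1 a han
  have hmem := hP.b.mem a han
  refine (Tri.forC (fun p s => J1 n m k G D S c
    (L ++ ((bk D a).take (p - D.m OFF a)).map (Prod.mk a)) s ∧ s.r ra = a) 50
    (a := D.m OFF a) (N := D.m BE a) (by decide) ?_ hhi h1 ?_ ?_ ?_).cost ?_
  · simp [hoff s h, hra]
  · refine ⟨?_, by simp [hra]⟩
    rw [Nat.sub_self, List.take_zero, List.map_nil, List.append_nil]
    exact h.fr (wr := [rp]) (wa := []) ((Fr.refl s).setR' (by simp)) (by decide) (by simp)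
  · intro p hp1 hp2 s1 ⟨hJ, hra1⟩ hrp hhi1
    have hbka : s1.m BKA = D.m BKA := by
      obtain ⟨M, hX, _⟩ := hJ
      exact hX.ns.agr.m BKA (by decide)
    have hy : s1.m BKA (s1.r rp) = D.m BKA p := by rw [hbka, hrp]
    have hyb : D.m BKA p ∈ bk D a := by
      rw [bk, mem_seg]
      exact ⟨p, hp1, hp2, rfl⟩
    have h2 := pB1_spec hJ ha hra1 hy (hmem _ hyb)
    have h3 : Fr pB1.wr pB1.wa s1 (pB1.ex s1) := by
      obtain ⟨t, _, h4⟩ := pB1.lf_run s1 rfl
      exact h4.frame
    refine (Tri.lf rfl ?_).cost (by decide)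
    refine ⟨⟨?_, ?_⟩, ?_, ?_⟩
    · rw [bk_take hp1 hp2, List.map_append, ← List.append_assoc]
      exact h2.fr (wr := [rp]) (wa := []) ((Fr.refl _).setR' (by simp)) (by decide) (by simp)
    · rw [St.setR_r, if_neg (by decide), h3.r ra (by decide), hra1]
    · rw [h3.r rp (by decide), hrp]
    · rw [h3.r rhi (by decide), hhi1]
  · intro s1 ⟨hJ, _⟩ _ _
    rw [← bk_length, List.take_length] at hJ
    exact hJ
  · rw [bk_length]
    simp only [Exp.cost]
    omega

/-- the body of the outer loop of phase (i) -/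
def pC1 : Cmd :=
  .blk [
    .set ra (A UL (V rj)),
    .set rhi (A BE (V ra)),
    .for_ rp (A OFF (V ra)) rhi pB1]

theorem pEx1_eq : pEx1 = .for_ rj (K 0) rnU pC1 := rfl

theorem pC1_spec {L : List (ℕ × ℕ)} {s : St} (h : J1 n m k G D S c L s) {a : ℕ}
    (ha : a ∈ Uc n G S.toFinset c) (hra : s.m UL (s.r rj) = a) :
    Tri s pC1 (14 + (bk D a).length * 57)
      (fun s' => J1 n m k G D S c (L ++ (bk D a).map (Prod.mk a)) s') := by
  have hbe : s.m BE = D.m BE := by
    obtain ⟨M, hX, _⟩ := h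
    exact hX.ns.agr.m BE (by decide)
  refine Tri.cons (B1 := 3) (B2 := 11 + (bk D a).length * 57) (Tri.set ?_ (by decide)) (by omega)
  refine Tri.cons (B1 := 3) (B2 := 8 + (bk D a).length * 57) (Tri.set ?_ (by decide)) (by omega)
  have h1 := pL1_spec (h.fr (s' := (s.setR ra a).setR rhi (D.m BE a)) (wr := [ra, rhi])
    (wa := []) (((Fr.refl s).setR' (by simp)).setR' (by simp)) (by decide) (by simp)) ha
    (by simp) (by simp)
  have e1 : (s.setR ra ((A UL (V rj)).ev s)).setR rhi ((A BE (V ra)).ev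
      (s.setR ra ((A UL (V rj)).ev s))) = (s.setR ra a).setR rhi (D.m BE a) := by
    simp [hra, hbe]
  rw [e1]
  exact Tri.cons (B1 := 7 + (bk D a).length * 57) (B2 := 1)
    (h1.imp (fun s' hs => Tri.nil hs le_rfl)) (by omega)

theorem sum_uL (h : Prep n m k G D) (hc : c < n) (g : ℕ → ℕ) :
    ∑ j ∈ Finset.Ico 0 (uL D S c).length, g ((uL D S c).getD j 0) =
      ∑ a ∈ Uc n G S.toFinset c, g a := by
  rw [← Finset.range_eq_Ico, sum_getD, ← uL_toFinset h hc,
    List.sum_toFinset g (uL_nodup h hc)]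

theorem pEx1_spec {s : St} (h : XS n m k G D S c [] (fun _ => 0) (fun _ => False) s) :
    Tri s pEx1 (150 * (∑ a ∈ Uc n G S.toFinset c, ((bk D a).length + 1) + 1))
      (fun s' => ∃ M, XS n m k G D S c M (cn1 n G D S c) (fl1 n G D S c) s' ∧
        (M.length < 2 * (k - S.length) + 1 → ∀ a ∈ Uc n G S.toFinset c, ∀ b ∈ bk D a,
          b ∉ Uc n G S.toFinset c → b ∉ S → a ∈ flat M ∨ b ∈ flat M)) := by
  have hP := h.ns.prep
  have hc := h.cn_
  have hG : Inn n G := hP.inn
  obtain ⟨l, hl⟩ : ∃ l, l = uL D S c := ⟨_, rfl⟩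
  have hlU : ∀ v, v ∈ l ↔ v ∈ Uc n G S.toFinset c := fun v => by rw [hl]; exact mem_uL hP hc v
  have hlen : s.r rnU = l.length := by
    have h1 := congrArg List.length h.ul
    rw [seg_length, ← hl] at h1
    omega
  rw [pEx1_eq]
  refine (Tri.forI (fun j s1 => J1 n m k G D S c (prs (bk D) (l.take j)) s1)
    (fun j => 14 + (bk D (l.getD j 0)).length * 57) (a := 0) (N := l.length) (by decide) rfl hlen
    (by omega) ?_ ?_ ?_).cost ?_
  · refine ⟨[], (h.congr' (cn' := fun v => if v ∈ Uc n G S.toFinset c then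
      cnt (prs (bk D) (l.take 0)) v else 0) (fl' := fun v => v ∈ S ∧
      ∃ e ∈ prs (bk D) (l.take 0), e.2 = v) ?_ ?_).fr (wr := [rj]) (wa := [])
      ((Fr.refl _).setR' (by simp)) (by decide) (by simp), ?_⟩
    · intro v; simp [prs]
    · intro v; simp [prs]
    · intro _ e he; simp [prs] at he
  · intro j _ hj s1 hJ hrj hrU
    have hul : seg (s1.m UL) 0 (s1.r rnU) = l := by
      obtain ⟨M, hX, _⟩ := hJ
      rw [hl]
      exact hX.ul
    have e1 : l.getD j 0 = l[j] := by simp [hj]
    have hra : s1.m UL (s1.r rj) = l[j] := by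
      rw [hrj, ← seg_at hul hj, Nat.zero_add]
    have h1 := (pC1_spec hJ ((hlU _).1 (List.getElem_mem hj)) hra).fr
    rw [e1]
    refine h1.imp ?_
    rintro s2 ⟨h2, h3⟩
    refine ⟨?_, ?_, ?_⟩
    · rw [prs_take_succ _ hj]
      exact h2.fr (wr := [rj]) (wa := []) ((Fr.refl _).setR' (by simp)) (by decide) (by simp)
    · rw [h3.r rj (by decide), hrj]
    · rw [h3.r rnU (by decide), hrU]
  · intro s1 hJ _ _
    rw [List.take_length] at hJ
    obtain ⟨M, hX, hM⟩ := hJ
    refine ⟨M, hX.congr' ?_ ?_, ?_⟩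
    · intro v
      rw [cn1, hl, cnt_prs (uL_nodup hP hc) (fun a ha => hP.b.nd a
        (Uc_lt hG hc a ((mem_uL hP hc a).1 ha))) v, uL_toFinset hP hc]
    · intro v
      rw [fl1]
      constructor
      · rintro ⟨h1, e, h2, h3⟩
        rw [mem_prs] at h2
        exact ⟨h1, e.1, (hlU _).1 h2.1, h3 ▸ h2.2⟩
      · rintro ⟨h1, a, h2, h3⟩
        exact ⟨h1, (a, v), mem_prs.2 ⟨(hlU _).2 h2, h3⟩, rfl⟩
    · intro h1 a ha b hb h2 h3
      exact hM h1 (a, b) (mem_prs.2 ⟨(hlU _).2 ha, hb⟩) h2 h3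
  · have e1 : ∑ j ∈ Finset.Ico 0 l.length, (14 + (bk D (l.getD j 0)).length * 57 + 7) =
        ∑ a ∈ Uc n G S.toFinset c, (14 + (bk D a).length * 57 + 7) := by
      rw [hl]
      exact sum_uL hP hc (fun a => 14 + (bk D a).length * 57 + 7)
    rw [e1]
    have e2 : ∑ a ∈ Uc n G S.toFinset c, (14 + (bk D a).length * 57 + 7) ≤
        ∑ a ∈ Uc n G S.toFinset c, 150 * ((bk D a).length + 1) :=
      Finset.sum_le_sum (fun a _ => by omega)
    rw [← Finset.mul_sum] at e2
    simp only [Exp.cost]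
    omega

end TL
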