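import Pool.Agent.W_3fea_h44.NEx1

/-! # Specification of `pEx2` -/

namespace TL

open Relation Finset Classical

variable {n m k : ℕ} {G : SimpleGraph ℕ} {D : St} {S : List ℕ} {c : ℕ}

/-- invariant of phase (ii): the pairs in `L` are done -/
def J2 (n m k : ℕ) (G : SimpleGraph ℕ) (D : St) (S : List ℕ) (c : ℕ) (M : List (ℕ × ℕ))
    (L : List (ℕ × ℕ)) (s : St) : Prop :=
  XS n m k G D S c M (fun v => if v ∈ Uc n G S.toFinset c then cn1 n G D S c v + cnt L v else 0)
    (fun v => fl1 n G D S c v ∨ (v ∈ S ∧ ∃ e ∈ L, e.1 = v ∧ e.2 ∈ Uc n G S.toFinset c)) s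

/-- the body of the inner loop of phase (ii) -/
def pB2 : Cmd :=
  .blk [
      .set ry (A BKA (V rp)),
      .whn (.eq (A MU (V ry)) (K 1)) (.blk [
        .put CN (V ry) (.inc (A CN (V ry))), .put FL (V rs) (K 1)])]

theorem pB2_spec {M : List (ℕ × ℕ)} {L : List (ℕ × ℕ)} {s : St} (h : J2 n m k G D S c M L s)
    {a y : ℕ} (ha : a ∈ S) (hra : s.r rs = a) (hy : s.m BKA (s.r rp) = y) :
    J2 n m k G D S c M (L ++ [(a, y)]) (pB2.ex s) := by
  have hX := h
  rw [J2] at hX
  have hX1 : XS n m k G D S c M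
      (fun v => if v ∈ Uc n G S.toFinset c then cn1 n G D S c v + cnt L v else 0)
      (fun v => fl1 n G D S c v ∨ (v ∈ S ∧ ∃ e ∈ L, e.1 = v ∧ e.2 ∈ Uc n G S.toFinset c))
      (s.setR ry y) :=
    hX.fr (wr := [ry]) (wa := []) ((Fr.refl s).setR' (by simp)) (by decide) (by simp)
  have hmu : s.m MU y = ind (uL D S c) y := hX.mu y
  have hmu' : s.m MU y = if y ∈ Uc n G S.toFinset c then 1 else 0 := by
    rw [hmu, ind]
    exact ite_iff' (mem_uL hX.ns.prep hX.cn_ y)
  by_cases hyU : y ∈ Uc n G S.toFinset c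
  · have e1 : pB2.ex s = ((s.setR ry y).setM CN y (s.m CN y + 1)).setM FL a 1 := by
      simp [pB2, hy, hmu', hyU, hra]
    rw [e1]
    refine hX1.cf (wr := []) (wa := [CN, FL]) (((Fr.refl _).setM' (by simp)).setM' (by simp))
      (by simp) (by decide) ?_ ?_
    · intro v
      have h1 : (((s.setR ry y).setM CN y (s.m CN y + 1)).setM FL a 1).m CN v =
          if v = y then s.m CN y + 1 else s.m CN v := by simp [Function.update_apply]
      rw [h1, hX.cn v, hX.cn y]
      by_cases h2 : v = y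
      · subst h2
        rw [if_pos rfl, if_pos hyU, if_pos hyU, cnt_append, cnt_one, if_pos rfl]
        omega
      · have h3 : ¬ y = v := fun e => h2 e.symm
        rw [if_neg h2, cnt_append, cnt_one, if_neg h3, Nat.add_zero]
    · intro v
      have h1 : (((s.setR ry y).setM CN y (s.m CN y + 1)).setM FL a 1).m FL v =
          if v = a then 1 else s.m FL v := by simp [Function.update_apply]
      rw [h1, hX.fl v]
      by_cases h2 : v = a
      · have h3 : fl1 n G D S c v ∨ (v ∈ S ∧ ∃ e ∈ L ++ [(a, y)], e.1 = v ∧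
            e.2 ∈ Uc n G S.toFinset c) :=
          Or.inr ⟨h2 ▸ ha, (a, y), by simp, h2.symm, hyU⟩
        rw [if_pos h2, if_pos h3]
      · rw [if_neg h2]
        apply ite_iff'
        constructor
        · rintro (h4 | ⟨h4, e, h5, h6⟩)
          · exact Or.inl h4
          · exact Or.inr ⟨h4, e, List.mem_append_left _ h5, h6⟩
        · rintro (h4 | ⟨h4, e, h5, h6⟩)
          · exact Or.inl h4
          · rcases List.mem_append.1 h5 with h7 | h7
            · exact Or.inr ⟨h4, e, h7, h6⟩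
            · rw [List.mem_singleton.1 h7] at h6
              exact absurd h6.1.symm h2
  · have e1 : pB2.ex s = s.setR ry y := by
      simp [pB2, hy, hmu', hyU]
    rw [e1]
    refine hX1.congr' ?_ ?_
    · intro v
      by_cases h2 : v ∈ Uc n G S.toFinset c
      · have h3 : ¬ y = v := fun e => hyU (e ▸ h2)
        rw [if_pos h2, if_pos h2, cnt_append, cnt_one, if_neg h3]
        omega
      · rw [if_neg h2, if_neg h2]
    · intro v
      constructor
      · rintro (h4 | ⟨h4, e, h5, h6⟩)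
        · exact Or.inl h4
        · exact Or.inr ⟨h4, e, List.mem_append_left _ h5, h6⟩
      · rintro (h4 | ⟨h4, e, h5, h6⟩)
        · exact Or.inl h4
        · rcases List.mem_append.1 h5 with h7 | h7
          · exact Or.inr ⟨h4, e, h7, h6⟩
          · rw [List.mem_singleton.1 h7] at h6
            exact absurd h6.2 hyU

theorem J2.fr {M L : List (ℕ × ℕ)} {s s' : St} {wr wa : List ℕ} (h : J2 n m k G D S c M L s)
    (hf : Fr wr wa s s') (h1 : ∀ x ∈ xsR, x ∉ wr) (h2 : ∀ a ∈ xsA, a ∉ wa) :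
    J2 n m k G D S c M L s' := XS.fr h hf h1 h2

theorem pL2_spec {M L : List (ℕ × ℕ)} {s : St} (h : J2 n m k G D S c M L s) {a : ℕ}
    (ha : a ∈ S) (hra : s.r rs = a) (hhi : s.r rhi = D.m BE a) :
    Tri s (.for_ rp (A OFF (V rs)) rhi pB2) (7 + (bk D a).length * 25)
      (fun s' => J2 n m k G D S c M (L ++ (bk D a).map (Prod.mk a)) s') := by
  have hP : Prep n m k G D := h.ns.prep
  have han : a < n := h.ns.lt a ha
  have hoff : s.m OFF = D.m OFF := h.ns.agr.m OFF (by decide)
  have h1 := hP.b.be1 a han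
  refine (Tri.forC (fun p s => J2 n m k G D S c M
    (L ++ ((bk D a).take (p - D.m OFF a)).map (Prod.mk a)) s ∧ s.r rs = a) 18
    (a := D.m OFF a) (N := D.m BE a) (by decide) ?_ hhi h1 ?_ ?_ ?_).cost ?_
  · simp [hoff, hra]
  · refine ⟨?_, by simp [hra]⟩
    rw [Nat.sub_self, List.take_zero, List.map_nil, List.append_nil]
    exact h.fr (wr := [rp]) (wa := []) ((Fr.refl s).setR' (by simp)) (by decide) (by simp)
  · intro p hp1 hp2 s1 ⟨hJ, hra1⟩ hrp hhi1
    have hbka : s1.m BKA = D.m BKA := hJ.ns.agr.m BKA (by decide)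
    have hy : s1.m BKA (s1.r rp) = D.m BKA p := by rw [hbka, hrp]
    have h2 := pB2_spec hJ ha hra1 hy
    have h3 : Fr pB2.wr pB2.wa s1 (pB2.ex s1) := by
      obtain ⟨t, _, h4⟩ := pB2.lf_run s1 rfl
      exact h4.frame
    refine (Tri.lf rfl ?_).cost (by decide)
    refine ⟨⟨?_, ?_⟩, ?_, ?_⟩
    · rw [bk_take hp1 hp2, List.map_append, ← List.append_assoc]
      exact h2.fr (wr := [rp]) (wa := []) ((Fr.refl _).setR' (by simp)) (by decide) (by simp)
    · rw [St.setR_r, if_neg (by decide), h3.r rs (by decide), hra1]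
    · rw [h3.r rp (by decide), hrp]
    · rw [h3.r rhi (by decide), hhi1]
  · intro s1 ⟨hJ, _⟩ _ _
    rw [← bk_length, List.take_length] at hJ
    exact hJ
  · rw [bk_length]
    simp only [Exp.cost]
    omega

/-- the body of the outer loop of phase (ii) -/
def pC2 : Cmd :=
  .blk [
    .set rs (A SA (V rj)),
    .set rhi (A BE (V rs)),
    .for_ rp (A OFF (V rs)) rhi pB2]

theorem pEx2_eq : pEx2 = .for_ rj (K 0) rt pC2 := rfl

theorem pC2_spec {M L : List (ℕ × ℕ)} {s : St} (h : J2 n m k G D S c M L s) {a : ℕ}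
    (ha : a ∈ S) (hra : s.m SA (s.r rj) = a) :
    Tri s pC2 (14 + (bk D a).length * 25)
      (fun s' => J2 n m k G D S c M (L ++ (bk D a).map (Prod.mk a)) s') := by
  have hbe : s.m BE = D.m BE := h.ns.agr.m BE (by decide)
  refine Tri.cons (B1 := 3) (B2 := 11 + (bk D a).length * 25) (Tri.set ?_ (by decide)) (by omega)
  refine Tri.cons (B1 := 3) (B2 := 8 + (bk D a).length * 25) (Tri.set ?_ (by decide)) (by omega)
  have h1 := pL2_spec (h.fr (s' := (s.setR rs a).setR rhi (D.m BE a)) (wr := [rs, rhi])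
    (wa := []) (((Fr.refl s).setR' (by simp)).setR' (by simp)) (by decide) (by simp)) ha
    (by simp) (by simp)
  have e1 : (s.setR rs ((A SA (V rj)).ev s)).setR rhi ((A BE (V rs)).ev
      (s.setR rs ((A SA (V rj)).ev s))) = (s.setR rs a).setR rhi (D.m BE a) := by
    simp [hra, hbe]
  rw [e1]
  exact Tri.cons (B1 := 7 + (bk D a).length * 25) (B2 := 1)
    (h1.imp (fun s' hs => Tri.nil hs le_rfl)) (by omega)

theorem pEx2_spec {s : St} {M : List (ℕ × ℕ)}
    (h : XS n m k G D S c M (cn1 n G D S c) (fl1 n G D S c) s) :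
    Tri s pEx2 (100 * (k * (4 * k + 2) + 1))
      (fun s' => XS n m k G D S c M (cn2 n G D S c) (fl2 n G D S c) s') := by
  have hP := h.ns.prep
  have hc := h.cn_
  have hG : Inn n G := hP.inn
  have hlen : s.r rt = S.length := by
    have h1 := congrArg List.length h.ns.sa
    rw [seg_length] at h1
    omega
  have hSU : ∀ v ∈ Uc n G S.toFinset c, v ∉ S := by
    intro v hv h1
    exact Uc_disjoint hG (by simpa using h.cS) v hv (by simpa using h1)
  rw [pEx2_eq]
  refine (Tri.forC (fun j s1 => J2 n m k G D S c M (prs (bk D) (S.take j)) s1)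
    (14 + (4 * k + 1) * 25) (a := 0) (N := S.length) (by decide) rfl hlen
    (by omega) ?_ ?_ ?_).cost ?_
  · refine (h.congr' ?_ ?_).fr (wr := [rj]) (wa := [])
      ((Fr.refl _).setR' (by simp)) (by decide) (by simp)
    · intro v
      by_cases h2 : v ∈ Uc n G S.toFinset c
      · simp [prs, h2]
      · rw [if_neg h2, cn1, if_neg h2]
    · intro v; simp [prs]
  · intro j _ hj s1 hJ hrj hrU
    have hra : s1.m SA (s1.r rj) = S[j] := by
      rw [hrj, ← seg_at hJ.ns.sa hj, Nat.zero_add]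
    have h1 := (pC2_spec hJ (List.getElem_mem hj) hra).fr
    have h5 := hP.b.len S[j] (h.ns.lt _ (List.getElem_mem hj))
    refine h1.mono (by omega) ?_
    rintro s2 ⟨h2, h3⟩
    refine ⟨?_, ?_, ?_⟩
    · rw [prs_take_succ _ hj]
      exact h2.fr (wr := [rj]) (wa := []) ((Fr.refl _).setR' (by simp)) (by decide) (by simp)
    · rw [h3.r rj (by decide), hrj]
    · rw [h3.r rt (by decide), hrU]
  · intro s1 hJ _ _
    rw [List.take_length] at hJ
    refine hJ.congr' ?_ ?_
    · intro v
      by_cases h2 : v ∈ Uc n G S.toFinset c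
      · rw [if_pos h2, cn1, cn2, if_pos h2, if_pos h2,
          cnt_prs h.ns.nd (fun a ha => hP.b.nd a (h.ns.lt a ha)) v, Finset.filter_union,
          Finset.card_union_of_disjoint]
        rw [Finset.disjoint_left]
        intro w hw hw'
        exact hSU w (Finset.mem_filter.1 hw).1 (by simpa using (Finset.mem_filter.1 hw').1)
      · rw [if_neg h2, cn2, if_neg h2]
    · intro v
      rw [fl1, fl2]
      constructor
      · rintro (⟨h1, a, h2, h3⟩ | ⟨h1, e, h2, h3, h4⟩)
        · exact ⟨h1, a, h2, Or.inl h3⟩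
        · rw [mem_prs, h3] at h2
          exact ⟨h1, e.2, h4, Or.inr h2.2⟩
      · rintro ⟨h1, a, h2, h3 | h3⟩
        · exact Or.inl ⟨h1, a, h2, h3⟩
        · exact Or.inr ⟨h1, (v, a), mem_prs.2 ⟨h1, h3⟩, rfl, h2⟩
  · have h1 := h.ns.len
    simp only [Exp.cost]
    have h2 : (S.length - 0) * (14 + (4 * k + 1) * 25 + 7) ≤ k * (14 + (4 * k + 1) * 25 + 7) :=
      Nat.mul_le_mul_right _ (by omega)
    nlinarith [h2]

end TL
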