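import Pool.Agent.W_3fea_h44.NEx2

/-! # Specification of `pEx3` -/

namespace TL

open Relation Finset Classical

variable {n m k : ℕ} {G : SimpleGraph ℕ} {D : St} {S : List ℕ} {c : ℕ}

/-- one step of the search of phase (iii) -/
def pB3 : Cmd :=
  .blk [
          .set ry (A ADJ (V rp)),
          .ite (.all [.eq (A INS (V ry)) (K 0), .eq (A MU (V ry)) (K 0), .eq (A MM (V ry)) (K 0)])
            (.blk [pAdd, .set rgo (K 0)]) (.incr rp)]

/-- the search of phase (iii) -/
def pS3 : Cmd :=
  .blk [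
        .set rhi (A OFF (.inc (V ra))),
        .set rp (A OFF (V ra)),
        .set rgo (K 1),
        .loop (.and (.eq (V rgo) (K 1)) (.lt (V rp) (V rhi))) pB3]

/-- the body of the loop of phase (iii) -/
def pC3 : Cmd :=
  .blk [
    .set ra (A UL (V rj)),
    .whn (.all [.eq (A MM (V ra)) (K 0), .lt (V rnM) (V rlim),
      .ne (A FW (V ra)) (A CN (V ra))]) pS3]

theorem pEx3_eq : pEx3 = .for_ rj (K 0) rnU pC3 := rfl

/-- invariant of the search -/
def I3 (n m k : ℕ) (G : SimpleGraph ℕ) (D : St) (S : List ℕ) (c : ℕ) (M : List (ℕ × ℕ))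
    (cn : ℕ → ℕ) (fl : ℕ → Prop) (a : ℕ) (s : St) : Prop :=
  s.r ra = a ∧ s.r rhi = D.m OFF (a + 1) ∧
  ((s.r rgo = 1 ∧ XS n m k G D S c M cn fl s ∧ D.m OFF a ≤ s.r rp ∧ s.r rp ≤ D.m OFF (a + 1) ∧
    ∀ p, D.m OFF a ≤ p → p < s.r rp →
      (D.m ADJ p ∈ Uc n G S.toFinset c ∨ D.m ADJ p ∈ S ∨ D.m ADJ p ∈ flat M)) ∨
   (s.r rgo = 0 ∧ ∃ y, XS n m k G D S c (M ++ [(a, y)]) cn fl s))

theorem card_bd (hP : Prep n m k G D) {M : List (ℕ × ℕ)} {a q : ℕ} (ha : a < n)
    (h1 : D.m OFF a ≤ q) (h2 : q ≤ D.m OFF (a + 1))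
    (h3 : ∀ p, D.m OFF a ≤ p → p < q →
      (D.m ADJ p ∈ Uc n G S.toFinset c ∨ D.m ADJ p ∈ S ∨ D.m ADJ p ∈ flat M)) :
    q - D.m OFF a ≤ S.length + (Uc n G S.toFinset c).card + 2 * M.length := by
  have hnd := hP.a.adj.nd a ha
  rw [← seg_append (D.m ADJ) h1 h2] at hnd
  have hnd1 := (List.nodup_append.1 hnd).1
  have h4 := length_le_card (L := seg (D.m ADJ) (D.m OFF a) q) hnd1
    (A := (Uc n G S.toFinset c ∪ S.toFinset) ∪ (flat M).toFinset) (by
      intro y hy
      obtain ⟨p, h5, h6, h7⟩ := mem_seg.1 hy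
      rw [Finset.mem_union, Finset.mem_union, List.mem_toFinset, List.mem_toFinset, ← h7]
      rcases h3 p h5 h6 with h8 | h8 | h8
      · exact Or.inl (Or.inl h8)
      · exact Or.inl (Or.inr h8)
      · exact Or.inr h8)
  rw [seg_length] at h4
  have h5 := Finset.card_union_le (Uc n G S.toFinset c ∪ S.toFinset) (flat M).toFinset
  have h6 := Finset.card_union_le (Uc n G S.toFinset c) S.toFinset
  have h7 := List.toFinset_card_le S
  have h8 := List.toFinset_card_le (flat M)
  rw [flat_length] at h8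
  omega

theorem pB3_spec {M : List (ℕ × ℕ)} {cn : ℕ → ℕ} {fl : ℕ → Prop} {a : ℕ} {s : St}
    (h : I3 n m k G D S c M cn fl a s) (ha : a ∈ Uc n G S.toFinset c) (haM : a ∉ flat M)
    (hlt : M.length < 2 * (k - S.length) + 1) (hgo : s.r rgo = 1)
    (hp : s.r rp < s.r rhi) :
    I3 n m k G D S c M cn fl a (pB3.ex s) ∧
      ((pB3.ex s).r rgo = 0 ∨ ((pB3.ex s).r rgo = 1 ∧ (pB3.ex s).r rp = s.r rp + 1)) := by
  obtain ⟨hra, hhi, h1 | h1⟩ := h
  · obtain ⟨_, hX, h2, h3, h4⟩ := h1
    have hP := hX.ns.prep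
    have hG : Inn n G := hP.inn
    have han : a < n := Uc_lt hG hX.cn_ a ha
    have hadj : s.m ADJ = D.m ADJ := hX.ns.agr.m ADJ (by decide)
    obtain ⟨y, hy⟩ : ∃ y, y = D.m ADJ (s.r rp) := ⟨_, rfl⟩
    have hay : G.Adj a y := by
      refine (hP.a.adj.mem a han y).1 (mem_seg.2 ⟨s.r rp, h2, by omega, hy.symm⟩)
    have hX1 : XS n m k G D S c M cn fl (s.setR ry y) :=
      hX.fr (wr := [ry]) (wa := []) ((Fr.refl s).setR' (by simp)) (by decide) (by simp)
    have hmu : s.m MU y = if y ∈ Uc n G S.toFinset c then 1 else 0 := by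
      rw [hX.mu y, ind]
      exact ite_iff' (mem_uL hP hX.cn_ y)
    have hins : s.m INS y = if y ∈ S then 1 else 0 := hX.ns.ins y
    have hmm : s.m MM y = if y ∈ flat M then 1 else 0 := hX.mm y
    by_cases hb : y ∉ S ∧ y ∉ Uc n G S.toFinset c ∧ y ∉ flat M
    · obtain ⟨b1, b2, b3⟩ := hb
      have e1 : pB3.ex s = (pAdd.ex (s.setR ry y)).setR rgo 0 := by
        have h5 : s.m ADJ (s.r rp) = y := by rw [hadj, hy]
        simp [pB3, h5, hmu, hins, hmm, b1, b2, b3]
      have hX2 := hX1.add ha b2 b1 hay haM b3 hlt (by simp [hra]) (by simp)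
      have hf : Fr pAdd.wr pAdd.wa (s.setR ry y) (pAdd.ex (s.setR ry y)) := by
        obtain ⟨t, _, h6⟩ := pAdd.lf_run (s.setR ry y) rfl
        exact h6.frame
      rw [e1]
      refine ⟨⟨?_, ?_, Or.inr ⟨?_, y, ?_⟩⟩, Or.inl ?_⟩
      · rw [St.setR_r, if_neg (by decide), hf.r ra (by decide)]
        simp [hra]
      · rw [St.setR_r, if_neg (by decide), hf.r rhi (by decide)]
        simp [hhi]
      · simp
      · exact hX2.fr (wr := [rgo]) (wa := []) ((Fr.refl _).setR' (by simp)) (by decide) (by simp)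
      · simp
    · have e1 : pB3.ex s = (s.setR ry y).setR rp (s.r rp + 1) := by
        have h5 : s.m ADJ (s.r rp) = y := by rw [hadj, hy]
        simp [pB3, h5, hmu, hins, hmm]
        tauto
      rw [e1]
      refine ⟨⟨?_, ?_, Or.inl ⟨?_, ?_, ?_, ?_, ?_⟩⟩, Or.inr ⟨?_, ?_⟩⟩
      · simp [hra]
      · simp [hhi]
      · simp [hgo]
      · exact hX1.fr (wr := [rp]) (wa := []) ((Fr.refl _).setR' (by simp)) (by decide) (by simp)
      · simp; omega
      · simp; omega
      · intro p h5 h6
        simp only [St.setR_r, if_true] at h6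
        by_cases h7 : p = s.r rp
        · rw [h7, ← hy]
          tauto
        · exact h4 p h5 (by omega)
      · simp [hgo]
      · simp
  · rw [h1.1] at hgo
    omega

theorem pS3_spec {M : List (ℕ × ℕ)} {cn : ℕ → ℕ} {fl : ℕ → Prop} {a : ℕ} {s : St}
    (h : XS n m k G D S c M cn fl s) (ha : a ∈ Uc n G S.toFinset c) (haM : a ∉ flat M)
    (hlt : M.length < 2 * (k - S.length) + 1) (hra : s.r ra = a) :
    Tri s pS3 (18 + 52 * (S.length + (Uc n G S.toFinset c).card + 2 * M.length + 1))
      (fun s' => (∃ y, XS n m k G D S c (M ++ [(a, y)]) cn fl s') ∨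
        (XS n m k G D S c M cn fl s' ∧
          ∀ y, G.Adj a y → y ∈ Uc n G S.toFinset c ∨ y ∈ S ∨ y ∈ flat M)) := by
  have hP := h.ns.prep
  have hG : Inn n G := hP.inn
  have han : a < n := Uc_lt hG h.cn_ a ha
  have hoff : s.m OFF = D.m OFF := h.ns.agr.m OFF (by decide)
  obtain ⟨N0, hN0⟩ : ∃ N0, N0 = S.length + (Uc n G S.toFinset c).card + 2 * M.length := ⟨_, rfl⟩
  rw [← hN0]
  refine Tri.cons (B1 := 4) (B2 := 14 + 52 * (N0 + 1)) (Tri.set ?_ (by decide)) (by omega)
  refine Tri.cons (B1 := 3) (B2 := 11 + 52 * (N0 + 1)) (Tri.set ?_ (by decide)) (by omega)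
  refine Tri.cons (B1 := 2) (B2 := 9 + 52 * (N0 + 1)) (Tri.set ?_ (by decide)) (by omega)
  refine Tri.cons (B1 := 8 + 52 * (N0 + 1)) (B2 := 1) ?_ (by omega)
  have e1 : (((s.setR rhi ((A OFF (V ra).inc).ev s)).setR rp ((A OFF (V ra)).ev
      (s.setR rhi ((A OFF (V ra).inc).ev s)))).setR rgo ((K 1).ev ((s.setR rhi ((A OFF
      (V ra).inc).ev s)).setR rp ((A OFF (V ra)).ev (s.setR rhi ((A OFF (V ra).inc).ev s)))))) =
      ((s.setR rhi (D.m OFF (a + 1))).setR rp (D.m OFF a)).setR rgo 1 := by
    simp [hra, hoff]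
  rw [e1]
  have hI : I3 n m k G D S c M cn fl a
      (((s.setR rhi (D.m OFF (a + 1))).setR rp (D.m OFF a)).setR rgo 1) := by
    refine ⟨by simp [hra], by simp, Or.inl ⟨by simp, ?_, by simp, ?_, ?_⟩⟩
    · exact h.fr (wr := [rhi, rp, rgo]) (wa := [])
        ((((Fr.refl s).setR' (by simp)).setR' (by simp)).setR' (by simp)) (by decide) (by simp)
    · simp [hP.a.adj.mono a han]
    · intro p h1 h2
      simp at h2
      omega
  refine (Tri.loop (b := .and (.eq (V rgo) (K 1)) (.lt (V rp) (V rhi))) (c := pB3)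
    (I3 n m k G D S c M cn fl a)
    (fun s1 => if s1.r rgo = 1 then 52 * (N0 + 1 - (s1.r rp - D.m OFF a)) else 0) ?_ hI ?_).cost ?_
  · intro s1 hI1 hb
    simp only [Cond.ev_and, Cond.ev_eq, Cond.ev_lt, Exp.ev_reg, Exp.ev_const,
      Bool.and_eq_true, decide_eq_true_eq] at hb
    have hN : s1.r rp - D.m OFF a ≤ N0 := by
      obtain ⟨_, _, h1 | h1⟩ := hI1
      · obtain ⟨_, _, h2, h3, h4⟩ := h1
        rw [hN0]
        exact card_bd hP han h2 h3 h4
      · rw [h1.1] at hb
        omega
    have hoff2 : D.m OFF a ≤ s1.r rp := by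
      obtain ⟨_, _, h1 | h1⟩ := hI1
      · exact h1.2.2.1
      · rw [h1.1] at hb
        omega
    have h2 := pB3_spec hI1 ha haM hlt hb.1 hb.2
    refine ⟨44, (Tri.lf rfl ⟨h2.1, ?_⟩).cost (by decide)⟩
    rw [if_pos hb.1]
    rcases h2.2 with h3 | h3
    · rw [if_neg (by omega)]
      simp only [Cond.cost, Exp.cost]
      omega
    · rw [if_pos h3.1, h3.2]
      simp only [Cond.cost, Exp.cost]
      omega
  · intro s1 hI1 hb
    refine Tri.nil ?_ le_rfl
    obtain ⟨_, h0, h1 | h1⟩ := hI1
    · right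
      obtain ⟨h2, hX, h3, h4, h5⟩ := h1
      refine ⟨hX, ?_⟩
      simp only [Cond.ev_and, Cond.ev_eq, Cond.ev_lt, Exp.ev_reg, Exp.ev_const,
        Bool.and_eq_false_iff, decide_eq_false_iff_not] at hb
      have h6 : s1.r rp = D.m OFF (a + 1) := by
        rcases hb with hb | hb
        · exact absurd h2 hb
        · omega
      intro y hy
      obtain ⟨p, h7, h8, h9⟩ := mem_seg.1 ((hP.a.adj.mem a han y).2 hy)
      have h10 := h5 p h7 (by omega)
      rw [h9] at h10
      exact h10
    · exact Or.inl h1.2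
  · simp only [St.setR_r]
    simp [Cond.cost, Exp.cost]
    omega

/-- invariant of phase (iii) -/
def J3 (n m k : ℕ) (G : SimpleGraph ℕ) (D : St) (S : List ℕ) (c : ℕ) (M : List (ℕ × ℕ))
    (cn : ℕ → ℕ) (fl : ℕ → Prop) (l : List ℕ) (C t j : ℕ) (s : St) : Prop :=
  ∃ M' : List (ℕ × ℕ), ∃ F : Finset ℕ, M <+: M' ∧ XS n m k G D S c M' cn fl s ∧
    (∀ a ∈ F, ∃ y ∈ flat M', a ∈ bk D y) ∧ (∀ a ∈ F, a ∈ l.take j) ∧
    (M'.length < 2 * (k - S.length) + 1 → ∀ a ∈ l.take j, ∀ b < n,
      b ∉ Uc n G S.toFinset c → b ∉ S → a ∈ bk D b → a ∈ flat M' ∨ b ∈ flat M') ∧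
    t ≤ 2 + 28 * j + C * (F.card + (M'.length - M.length))

theorem pC3_spec {M : List (ℕ × ℕ)} {fl : ℕ → Prop} {l : List ℕ} {C t j : ℕ} {s : St}
    (h : J3 n m k G D S c M (cn2 n G D S c) fl l C t j s) (hl : l = uL D S c)
    (hj : j < l.length) (hrj : s.r rj = j)
    (hC : C = 18 + 52 * ((Uc n G S.toFinset c).card + 5 * k + 3)) :
    Trt s pC3 (fun u s' => J3 n m k G D S c M (cn2 n G D S c) fl l C (t + (7 + u)) (j + 1) s') := by
  obtain ⟨M', F, hM, hX, hF1, hF2, hcov, ht⟩ := h
  have hP := hX.ns.prep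
  have hG : Inn n G := hP.inn
  have hlU : ∀ v, v ∈ l ↔ v ∈ Uc n G S.toFinset c := fun v => by
    rw [hl]; exact mem_uL hP hX.cn_ v
  have hlnd : l.Nodup := by rw [hl]; exact uL_nodup hP hX.cn_
  have hSU : ∀ v ∈ Uc n G S.toFinset c, v ∉ S := by
    intro v hv h1
    exact Uc_disjoint hG (by simpa using hX.cS) v hv (by simpa using h1)
  obtain ⟨a, ha⟩ : ∃ a, a = l[j] := ⟨_, rfl⟩
  have haU : a ∈ Uc n G S.toFinset c := (hlU a).1 (ha ▸ List.getElem_mem hj)
  have han : a < n := Uc_lt hG hX.cn_ a haU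
  have hul : s.m UL j = a := by
    have h1 := hX.ul
    rw [← hl] at h1
    rw [ha, ← seg_at h1 hj, Nat.zero_add]
  have htake : l.take (j + 1) = l.take j ++ [a] := by
    rw [List.take_succ_eq_append_getElem hj, ha]
  have hanot : a ∉ l.take j := by
    intro h1
    rw [← List.take_append_drop (j + 1) l, htake] at hlnd
    have h2 := (List.nodup_append.1 hlnd).1
    exact (List.nodup_append.1 h2).2.2 a h1 a (by simp) rfl
  have hFl : ∀ a' ∈ F, a' ∈ l.take (j + 1) := fun a' h1 => by
    rw [htake]; exact List.mem_append_left _ (hF2 a' h1)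
  have hfw : s.m FW = D.m FW := hX.ns.agr.m FW (by decide)
  have hmm : s.m MM a = if a ∈ flat M' then 1 else 0 := hX.mm a
  have hlim : s.r rlim = 2 * (k - S.length) + 1 := hX.ns.lim
  have hsub : ((Uc n G S.toFinset c ∪ S.toFinset).filter (fun y => a ∈ bk D y)) ⊆
      (range n).filter (fun y => a ∈ bk D y) := by
    intro y hy
    rw [Finset.mem_filter, Finset.mem_union, List.mem_toFinset] at hy
    rw [Finset.mem_filter, Finset.mem_range]
    refine ⟨?_, hy.2⟩
    rcases hy.1 with h1 | h1
    · exact Uc_lt hG hX.cn_ y h1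
    · exact hX.ns.lt y h1
  have hcn : s.m CN a =
      ((Uc n G S.toFinset c ∪ S.toFinset).filter (fun y => a ∈ bk D y)).card := by
    rw [hX.cn a, cn2, if_pos haU]
  have hX1 : XS n m k G D S c M' (cn2 n G D S c) fl (s.setR ra a) :=
    hX.fr (wr := [ra]) (wa := []) ((Fr.refl s).setR' (by simp)) (by decide) (by simp)
  refine Trt.cons ⟨s.setR ra ((A UL (V rj)).ev s), _, Run.set _ _ _, ?_⟩
  have e0 : s.setR ra ((A UL (V rj)).ev s) = s.setR ra a := by simp [hrj, hul]
  rw [e0]
  refine Trt.cons (Trt.ite (fun hb => ?_) (fun hb => ?_))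
  · -- search
    have hb2 : a ∉ flat M' ∧ M'.length < 2 * (k - S.length) + 1 ∧ D.m FW a ≠ s.m CN a := by
      simp [hmm, hX.nM, hlim, hfw] at hb
      obtain ⟨q1, q2, q3⟩ := hb
      exact ⟨q1, by omega, q3⟩
    obtain ⟨b1, b2, b3⟩ := hb2
    obtain ⟨s2, u, hrun, hu, hpost⟩ := pS3_spec hX1 haU b1 b2 (by simp)
    refine ⟨s2, u, hrun, Trt.nil ?_⟩
    have hcost : S.length + (Uc n G S.toFinset c).card + 2 * M'.length + 1 ≤
        (Uc n G S.toFinset c).card + 5 * k + 3 := by
      have := hX.ns.len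
      omega
    have hu2 : u ≤ C := by
      rw [hC]
      exact hu.trans (by omega)
    have hcb : t + (7 + ((A UL (V rj)).cost + 1 + ((Cond.all [.eq (A MM (V ra)) (K 0),
        .lt (V rnM) (V rlim), .ne (A FW (V ra)) (A CN (V ra))]).cost + 1 + u + 1))) ≤
        2 + 28 * (j + 1) + C * (F.card + (M'.length - M.length)) + C := by
      simp only [Exp.cost, Cond.cost, Cond.all]
      omega
    rcases hpost with ⟨y, hX2⟩ | ⟨hX2, hall⟩
    · refine ⟨M' ++ [(a, y)], F, hM.trans (List.prefix_append _ _), hX2, ?_, hFl, ?_, ?_⟩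
      · intro a' h1
        obtain ⟨y', h2, h3⟩ := hF1 a' h1
        exact ⟨y', by rw [flat_append]; exact List.mem_append_left _ h2, h3⟩
      · intro h1 a' h2 b hb1 hb2 hb3 hb4
        rw [htake] at h2
        rw [List.length_append, List.length_singleton] at h1
        rcases List.mem_append.1 h2 with h3 | h3
        · rcases hcov (by omega) a' h3 b hb1 hb2 hb3 hb4 with h4 | h4
          · left; rw [flat_append]; exact List.mem_append_left _ h4
          · right; rw [flat_append]; exact List.mem_append_left _ h4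
        · rw [List.mem_singleton.1 h3]
          left; rw [flat_append, flat_one]; simp
      · have hlen := hM.length_le
        have e1 : F.card + ((M' ++ [(a, y)]).length - M.length) =
            F.card + (M'.length - M.length) + 1 := by
          rw [List.length_append, List.length_singleton]; omega
        have e2 : C * (F.card + (M'.length - M.length) + 1) =
            C * (F.card + (M'.length - M.length)) + C := by ring
        rw [e1, e2]
        omega
    · -- the failure is charged to `a`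
      have haF : a ∉ F := fun h1 => hanot (hF2 a h1)
      refine ⟨M', insert a F, hM, hX2, ?_, ?_, ?_, ?_⟩
      · intro a' h1
        rcases Finset.mem_insert.1 h1 with h2 | h2
        · rw [h2]
          by_contra hcon
          push Not at hcon
          apply b3
          rw [hcn, hP.b.fw a han]
          congr 1
          apply Finset.Subset.antisymm _ hsub
          intro y hy
          rw [Finset.mem_filter, Finset.mem_range] at hy
          rw [Finset.mem_filter, Finset.mem_union, List.mem_toFinset]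
          refine ⟨?_, hy.2⟩
          have h3 : G.Adj a y := (hP.b.mem y hy.1 a hy.2).symm
          rcases hall y h3 with h4 | h4 | h4
          · exact Or.inl h4
          · exact Or.inr h4
          · exact absurd hy.2 (hcon y h4)
        · exact hF1 a' h2
      · intro a' h1
        rcases Finset.mem_insert.1 h1 with h2 | h2
        · rw [h2, htake]; simp
        · exact hFl a' h2
      · intro h1 a' h2 b hb1 hb2 hb3 hb4
        rw [htake] at h2
        rcases List.mem_append.1 h2 with h3 | h3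
        · exact hcov h1 a' h3 b hb1 hb2 hb3 hb4
        · rw [List.mem_singleton.1 h3] at hb4
          right
          rcases hall b (hP.b.mem b hb1 a hb4).symm with h4 | h4 | h4
          · exact absurd h4 hb2
          · exact absurd h4 hb3
          · exact h4
      · rw [Finset.card_insert_of_notMem haF]
        have e1 : F.card + 1 + (M'.length - M.length) =
            F.card + (M'.length - M.length) + 1 := by omega
        have e2 : C * (F.card + (M'.length - M.length) + 1) =
            C * (F.card + (M'.length - M.length)) + C := by ring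
        rw [e1, e2]
        omega
  · -- no search
    refine ⟨_, 1, Run.skip _, Trt.nil ?_⟩
    refine ⟨M', F, hM, hX1, hF1, hFl, ?_, ?_⟩
    · intro h1 a' h2 b hb1 hb2 hb3 hb4
      rw [htake] at h2
      rcases List.mem_append.1 h2 with h3 | h3
      · exact hcov h1 a' h3 b hb1 hb2 hb3 hb4
      · rw [List.mem_singleton.1 h3] at hb4 ⊢
        by_cases h4 : a ∈ flat M'
        · exact Or.inl h4
        · exfalso
          simp [hmm, hX.nM, hlim, hfw, h4, h1] at hb
          rw [hcn, hP.b.fw a han] at hb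
          have h5 := Finset.eq_of_subset_of_card_le hsub (le_of_eq hb)
          have h6 : b ∈ (range n).filter (fun y => a ∈ bk D y) := by
            rw [Finset.mem_filter, Finset.mem_range]
            exact ⟨hb1, hb4⟩
          rw [← h5, Finset.mem_filter, Finset.mem_union, List.mem_toFinset] at h6
          rcases h6.1 with h7 | h7
          · exact hb2 h7
          · exact hb3 h7
    · simp only [Exp.cost, Cond.cost, Cond.all]
      omega

theorem J3.fr {M : List (ℕ × ℕ)} {cn : ℕ → ℕ} {fl : ℕ → Prop} {l : List ℕ} {C t j : ℕ}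
    {s s' : St} {wr wa : List ℕ} (h : J3 n m k G D S c M cn fl l C t j s)
    (hf : Fr wr wa s s') (h1 : ∀ x ∈ xsR, x ∉ wr) (h2 : ∀ a ∈ xsA, a ∉ wa) :
    J3 n m k G D S c M cn fl l C t j s' := by
  obtain ⟨M', F, hM, hX, h3⟩ := h
  exact ⟨M', F, hM, hX.fr hf h1 h2, h3⟩

theorem pEx3_spec {s : St} {M : List (ℕ × ℕ)}
    (h : XS n m k G D S c M (cn2 n G D S c) (fl2 n G D S c) s)
    (hM : M.length < 2 * (k - S.length) + 1 → ∀ a ∈ Uc n G S.toFinset c, ∀ b ∈ bk D a,
          b ∉ Uc n G S.toFinset c → b ∉ S → a ∈ flat M ∨ b ∈ flat M) :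
    Trt s pEx3 (fun t s' => ∃ M', M <+: M' ∧
      XS n m k G D S c M' (cn2 n G D S c) (fl2 n G D S c) s' ∧
      (M'.length < 2 * (k - S.length) + 1 → ∀ a ∈ Uc n G S.toFinset c, ∀ b < n,
        b ∉ Uc n G S.toFinset c → b ∉ S → (b ∈ bk D a ∨ a ∈ bk D b) →
          a ∈ flat M' ∨ b ∈ flat M') ∧
      t ≤ 100 * ((Uc n G S.toFinset c).card + 1) +
        (if M' = [] then 0 else xn k (Uc n G S.toFinset c).card)) := by
  have hP := h.ns.prep
  have hc := h.cn_
  have hG : Inn n G := hP.inn
  obtain ⟨l, hl⟩ : ∃ l, l = uL D S c := ⟨_, rfl⟩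
  have hlU : ∀ v, v ∈ l ↔ v ∈ Uc n G S.toFinset c := fun v => by rw [hl]; exact mem_uL hP hc v
  have hlen : s.r rnU = l.length := by
    have h1 := congrArg List.length h.ul
    rw [seg_length, ← hl] at h1
    omega
  have hlcard : l.length = (Uc n G S.toFinset c).card := by
    rw [← uL_toFinset (S := S) hP hc, hl, List.toFinset_card_of_nodup (uL_nodup hP hc)]
  obtain ⟨C, hC⟩ : ∃ C, C = 18 + 52 * ((Uc n G S.toFinset c).card + 5 * k + 3) := ⟨_, rfl⟩
  rw [pEx3_eq]
  refine Trt.forI (fun t j s1 => J3 n m k G D S c M (cn2 n G D S c) (fl2 n G D S c) l C t j s1)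
    (a := 0) (N := l.length) (by decide) rfl hlen (by omega) ?_ ?_ ?_
  · refine ⟨M, ∅, List.prefix_rfl, h.fr (wr := [rj]) (wa := [])
      ((Fr.refl _).setR' (by simp)) (by decide) (by simp), by simp, by simp, ?_, ?_⟩
    · intro _ a h1
      simp at h1
    · simp [Exp.cost]
  · intro t j _ hj s1 hJ hrj hrU
    refine (pC3_spec hJ hl hj hrj hC).fr.imp ?_
    rintro u s2 ⟨h2, h3⟩
    refine ⟨?_, ?_, ?_⟩
    · exact h2.fr (wr := [rj]) (wa := []) ((Fr.refl _).setR' (by simp)) (by decide) (by simp)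
    · rw [h3.r rj (by decide), hrj]
    · rw [h3.r rnU (by decide), hrU]
  · intro t s1 hJ _ _
    obtain ⟨M', F, hM', hX, hF1, hF2, hcov, ht⟩ := hJ
    rw [List.take_length] at hcov
    refine ⟨M', hM', hX, ?_, ?_⟩
    · intro h1 a ha b hb1 hb2 hb3 hb4
      rcases hb4 with hb4 | hb4
      · have h2 := hM'.length_le
        have h3 : ∀ v, v ∈ flat M → v ∈ flat M' := by
          obtain ⟨N, hN⟩ := hM'
          intro v hv
          rw [← hN, flat_append]
          exact List.mem_append_left _ hv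
        rcases hM (by omega) a ha b hb4 hb2 hb3 with h4 | h4
        · exact Or.inl (h3 _ h4)
        · exact Or.inr (h3 _ h4)
      · exact hcov h1 a ((hlU a).2 ha) b hb1 hb2 hb3 hb4
    · rw [hlcard] at ht
      by_cases h0 : M' = []
      · rw [if_pos h0]
        have h1 : F = ∅ := by
          apply Finset.eq_empty_of_forall_notMem
          intro a ha
          obtain ⟨y, h2, _⟩ := hF1 a ha
          rw [h0] at h2
          simp at h2
        have h2 : M'.length - M.length = 0 := by rw [h0]; simp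
        rw [h1, h2, Finset.card_empty, Nat.add_zero, Nat.mul_zero] at ht
        omega
      · rw [if_neg h0]
        have hflt : ∀ y ∈ flat M', y < n := by
          intro y hy
          obtain ⟨e, he, h1⟩ := mem_flat.1 hy
          have h2 := hX.mat.edge e he
          rcases h1 with rfl | rfl
          · exact hG _ _ h2.2.2.2
          · exact hG.right h2.2.2.2
        have hFc : F.card ≤ (2 * M'.length) * (4 * k + 1) := by
          have h1 : F ⊆ (flat M').toFinset.biUnion (fun y => (bk D y).toFinset) := by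
            intro a ha
            obtain ⟨y, h2, h3⟩ := hF1 a ha
            rw [Finset.mem_biUnion]
            exact ⟨y, List.mem_toFinset.2 h2, List.mem_toFinset.2 h3⟩
          have h2 := Finset.card_le_card h1
          have h3 := Finset.card_biUnion_le_card_mul (flat M').toFinset
            (fun y => (bk D y).toFinset) (4 * k + 1) (by
              intro y hy
              have h4 := hP.b.len y (hflt y (List.mem_toFinset.1 hy))
              exact (List.toFinset_card_le _).trans h4)
          have h4 := List.toFinset_card_le (flat M')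
          rw [flat_length] at h4
          calc F.card ≤ _ := h2
            _ ≤ _ := h3
            _ ≤ _ := Nat.mul_le_mul_right _ h4
        have hml : M'.length ≤ 2 * k + 1 := by
          have := hX.le
          omega
        have h5 : F.card + (M'.length - M.length) ≤ (2 * k + 1) * (8 * k + 4) := by
          have h6 : (2 * M'.length) * (4 * k + 1) ≤ (2 * (2 * k + 1)) * (4 * k + 1) :=
            Nat.mul_le_mul_right _ (by omega)
          have h7 : (2 * k + 1) * (8 * k + 4) = (2 * (2 * k + 1)) * (4 * k + 1) +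
            2 * (2 * k + 1) := by ring
          omega
        have h8 : C ≤ 500 * ((Uc n G S.toFinset c).card + 6 * k + 5) := by
          rw [hC]; omega
        have h9 : C * (F.card + (M'.length - M.length)) ≤
            500 * ((Uc n G S.toFinset c).card + 6 * k + 5) * ((2 * k + 1) * (8 * k + 4)) :=
          Nat.mul_le_mul h8 h5
        have h10 : xn k (Uc n G S.toFinset c).card =
            500 * ((Uc n G S.toFinset c).card + 6 * k + 5) * ((2 * k + 1) * (8 * k + 4)) := by
          rw [xn]; ring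
        rw [h10]
        omega

end TL
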