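import Pool.Agent.W_3fea_h44.NodeDefs

/-! # Counters and flags of the examination -/

namespace TL

open Relation Finset Classical

/-- counters after phase (i) -/
noncomputable def cn1 (n : ℕ) (G : SimpleGraph ℕ) (D : St) (S : List ℕ) (c v : ℕ) : ℕ :=
  if v ∈ Uc n G S.toFinset c then
    ((Uc n G S.toFinset c).filter (fun y => v ∈ bk D y)).card else 0

/-- counters after phase (ii) -/
noncomputable def cn2 (n : ℕ) (G : SimpleGraph ℕ) (D : St) (S : List ℕ) (c v : ℕ) : ℕ :=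
  if v ∈ Uc n G S.toFinset c then
    ((Uc n G S.toFinset c ∪ S.toFinset).filter (fun y => v ∈ bk D y)).card else 0

/-- flags after phase (i) -/
def fl1 (n : ℕ) (G : SimpleGraph ℕ) (D : St) (S : List ℕ) (c v : ℕ) : Prop :=
  v ∈ S ∧ ∃ a ∈ Uc n G S.toFinset c, v ∈ bk D a

/-- flags after phase (ii) -/
def fl2 (n : ℕ) (G : SimpleGraph ℕ) (D : St) (S : List ℕ) (c v : ℕ) : Prop :=
  v ∈ S ∧ ∃ a ∈ Uc n G S.toFinset c, (v ∈ bk D a ∨ a ∈ bk D v)

end TL
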