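import Pool.Agent.W_3fea_h44.NMarkU
import Pool.Agent.W_3fea_h44.NEx1
import Pool.Agent.W_3fea_h44.NEx2
import Pool.Agent.W_3fea_h44.NEx3

/-! # Specification of `pExam` -/

namespace TL

open Relation Finset Classical

variable {n m k : ℕ} {G : SimpleGraph ℕ} {D : St} {S : List ℕ} {c : ℕ}

/-- the counters are set back to `0` -/
theorem pExam_zero {s : St} {M : List (ℕ × ℕ)} {fl : ℕ → Prop}
    (h : XS n m k G D S c M (cn2 n G D S c) fl s) :
    Tri s (.for_ rj (K 0) rnU (.put CN (A UL (V rj)) (K 0)))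
      (6 + 11 * (Uc n G S.toFinset c).card)
      (fun s' => XS n m k G D S c M (fun _ => 0) fl s') := by
  have hlen : s.r rnU = (Uc n G S.toFinset c).card := by
    have h1 := congrArg List.length h.ul
    rw [seg_length, uL_length h.ns.prep h.cn_, ← card_Uc h.ns.prep.inn] at h1
    simpa using h1
  refine (Tri.for0 (I := fun j s' => Fr [rj] [CN] s s' ∧
    ∀ v, s'.m CN v = if v ∈ seg (s.m UL) 0 j then 0 else s.m CN v) 4 hlen (by decide) ?_ ?_ ?_
    ?_).cost ?_
  · rintro j s1 v ⟨h1, h2⟩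
    refine ⟨⟨fun x hx => ?_, fun a ha => ?_⟩, fun v' => ?_⟩
    · rw [St.setR_r, if_neg (by simpa using hx)]
      exact h1.r x hx
    · rw [St.setR_m]
      exact h1.m a ha
    · rw [St.setR_m]
      exact h2 v'
  · exact ⟨Fr.refl _, fun v => by simp⟩
  · rintro j hj s1 ⟨h1, h2⟩ hp hN
    refine Tri.put ⟨⟨⟨fun x hx => ?_, fun a ha => ?_⟩, fun v => ?_⟩, ?_, ?_⟩ (by decide)
    · rw [St.setM_r]
      exact h1.r x hx
    · rw [St.setM_m, if_neg (by simpa using ha)]
      exact h1.m a ha
    · have e1 : (A UL (V rj)).ev s1 = s.m UL j := by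
        rw [Exp.ev_get, Exp.ev_reg, hp, h1.m UL (by decide)]
      rw [e1, St.setM_m, if_pos rfl, Function.update_apply, seg_succ _ (Nat.zero_le j)]
      by_cases hv : v = s.m UL j
      · rw [if_pos hv, if_pos (by simp [hv])]
        rfl
      · rw [if_neg hv, h2 v]
        by_cases hv2 : v ∈ seg (s.m UL) 0 j
        · rw [if_pos hv2, if_pos (by simp [hv2])]
        · rw [if_neg hv2, if_neg]
          intro h3
          rcases List.mem_append.1 h3 with h4 | h4
          · exact hv2 h4
          · exact hv (by simpa using h4)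
    · rw [St.setM_r]; exact hp
    · rw [St.setM_r]; exact hN
  · rintro s1 ⟨h1, h2⟩ _ _
    rw [← hlen, h.ul] at h2
    have hns : NS n m k G D S s1 := h.ns.fr h1 (by decide) (by decide)
    refine ⟨hns, ?_, h.cn_, h.cS, ?_, ?_, ?_, ?_, ?_, h.mat, h.le, ?_, ?_, ?_⟩
    · rw [h1.r rc (by decide)]; exact h.c_
    · rw [h1.m UL (by decide), h1.r rnU (by decide)]; exact h.ul
    · rw [h1.m MU (by decide)]; exact h.mu
    · rw [h1.m PQ (by decide), h1.r rnp (by decide)]; exact h.pq
    · rw [h1.r rnM (by decide)]; exact h.nM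
    · rw [h1.m MM (by decide)]; exact h.mm
    · intro v
      rw [h2 v]
      split_ifs with h3
      · rfl
      · rw [h.cn v]
        rw [mem_uL h.ns.prep h.cn_] at h3
        simp only [cn2]
        rw [if_neg h3]
    · rw [h1.m FL (by decide)]; exact h.fl
    · rw [h1.m CM (by decide)]; exact h.cm
  · omega

/-- the result of an exam is a test -/
theorem exam_test {s : St} {M : List (ℕ × ℕ)} {cn : ℕ → ℕ} {fl : ℕ → Prop}
    (h : XS n m k G D S c M cn fl s)
    (hM : M.length < 2 * (k - S.length) + 1 → ∀ a ∈ Uc n G S.toFinset c, ∀ b < n,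
        b ∉ Uc n G S.toFinset c → b ∉ S → (b ∈ bk D a ∨ a ∈ bk D b) →
          a ∈ flat M ∨ b ∈ flat M) :
    IsTest G S.toFinset (Uc n G S.toFinset c) (2 * (k - S.length) + 1) M := by
  have hG := h.ns.prep.inn
  have hcS : c ∉ S.toFinset := by simpa using h.cS
  have hSk := h.ns.len
  have hSc : S.toFinset.card = S.length := List.toFinset_card_of_nodup h.ns.nd
  refine ⟨h.mat, h.le, fun hlt => ?_⟩
  refine h.ns.prep.b.cert.cov (Uc_disjoint hG hcS) ?_ ?_
  · rw [hSc, flat_length]; omega
  · intro a ha b hb hbS hab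
    have han : a < n := Uc_lt hG h.cn_ a ha
    have hbS' : b ∉ S := by simpa using hbS
    simp only [CertAdj, if_pos han] at hab
    rcases hab with hab | hab
    · have hbn : b < n := hG.right (h.ns.prep.b.mem a han b hab)
      exact hM hlt a ha b hbn hb hbS' (Or.inl hab)
    · by_cases hbn : b < n
      · rw [if_pos hbn] at hab
        exact hM hlt a ha b hbn hb hbS' (Or.inr hab)
      · rw [if_neg hbn] at hab
        exact absurd hab (by simp)

/-- the flags of a closed set -/
theorem exam_flag {s : St} {cn : ℕ → ℕ} {fl : ℕ → Prop}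
    (h : XS n m k G D S c [] cn fl s)
    (ht : IsTest G S.toFinset (Uc n G S.toFinset c) (2 * (k - S.length) + 1) []) (v : ℕ) :
    fl2 n G D S c v ↔ v ∈ S ∧ ∃ a ∈ Uc n G S.toFinset c, G.Adj a v := by
  have hG := h.ns.prep.inn
  have hcS : c ∉ S.toFinset := by simpa using h.cS
  have hSk := h.ns.len
  have hSc : S.toFinset.card = S.length := List.toFinset_card_of_nodup h.ns.nd
  have hcl : Closed G S.toFinset (Uc n G S.toFinset c) := by
    intro a ha b hab
    by_contra hcon
    rw [not_or] at hcon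
    have := ht.cov (by simp) a ha b hab hcon.1 hcon.2
    simp at this
  unfold fl2
  refine and_congr_right fun hv => ?_
  have hvn := h.ns.lt v hv
  have hvS : v ∈ S.toFinset := by simpa using hv
  have hfl := h.ns.prep.b.cert.flag (S := S.toFinset) (U := Uc n G S.toFinset c) ?_
    (Uc_disjoint hG hcS) (by omega) hcl hvS
  · rw [hfl]
    refine exists_congr fun a => and_congr_right fun ha => ?_
    have han : a < n := Uc_lt hG h.cn_ a ha
    simp only [CertAdj, if_pos han, if_pos hvn]
  · intro a b hab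
    by_cases han : a < n
    · simp only [if_pos han] at hab
      exact h.ns.prep.b.mem a han b hab
    · simp only [if_neg han] at hab
      exact absurd hab (by simp)

theorem pExam_spec {s : St} (h : NS n m k G D S s) (hcl : CL s) (hc : s.r rc = c) (hcn : c < n)
    (hcS : c ∉ S) :
    Trt s pExam (fun t s' => ∃ M fl, XS n m k G D S c M (fun _ => 0) fl s' ∧
      IsTest G S.toFinset (Uc n G S.toFinset c) (2 * (k - S.length) + 1) M ∧
      (∀ v, fl v → v ∈ S) ∧
      (M = [] → ∀ v, fl v ↔ v ∈ S ∧ ∃ a ∈ Uc n G S.toFinset c, G.Adj a v) ∧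
      t ≤ xe n k G D S.toFinset c +
        (if M = [] then 0 else xn k (Uc n G S.toFinset c).card)) := by
  obtain ⟨s1, t1, r1, b1, x1⟩ := pMarkU_spec h hcl hc hcn hcS
  obtain ⟨s2, t2, r2, b2, M, x2, c2⟩ := pEx1_spec x1
  obtain ⟨s3, t3, r3, b3, x3⟩ := pEx2_spec x2
  obtain ⟨s4, t4, r4, M', hpre, x4, c4, b4⟩ := pEx3_spec x3 c2
  obtain ⟨s5, t5, r5, b5, x5⟩ := pExam_zero x4
  have ht := exam_test x4 c4
  refine ⟨s5, _, Run.cons r1 (Run.cons r2 (Run.cons r3 (Run.cons r4 (Run.cons r5 (Run.nil s5))))),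
    M', fl2 n G D S c, x5, ht, fun v hv => hv.1, ?_, ?_⟩
  · rintro rfl v
    exact exam_flag x4 ht v
  · have hsum : (Uc n G S.toFinset c).card ≤
        ∑ a ∈ Uc n G S.toFinset c, ((bk D a).length + 1) := by
      rw [Finset.card_eq_sum_ones]
      exact Finset.sum_le_sum fun a _ => by omega
    have hx : xe n k G D S.toFinset c = 500 * (∑ a ∈ Uc n G S.toFinset c, ((bk D a).length + 1)) +
        (500 * (k * (4 * k + 2)) + 2000 * k + 1000) := by
      unfold xe
      ring
    rw [hx]
    omega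

theorem XS.ts {s : St} {M : List (ℕ × ℕ)} {cn : ℕ → ℕ} {fl : ℕ → Prop}
    (h : XS n m k G D S c M cn fl s)
    (ht : IsTest G S.toFinset (Uc n G S.toFinset c) (2 * (k - S.length) + 1) M) :
    TS n m k G D S c M s := by
  refine ⟨h.ns, h.c_, h.cn_, h.cS, h.pq, h.nM, h.mm, ht, fun y _ _ => ?_⟩
  rw [h.mu y, h.cm, ind, ← mem_uL h.ns.prep h.cn_]
  split_ifs with h1
  · simp [h1]
  · simp [h1]

end TL
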