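import Pool.Agent.W_3fea_h44.NodeDefs

/-! # Specification of `pGtest` -/

namespace TL

open Relation Finset Classical

variable {n m k : ℕ} {G : SimpleGraph ℕ} {D : St} {S : List ℕ} {c : ℕ}

theorem gt_inCh_iff {par lab : ℕ → ℕ} {h q : ℕ} :
    InCh par lab h q ↔ lab q = h + 1 ∨ (lab q ≠ 0 ∧ InCh par lab h (par q)) := by
  constructor
  · intro H
    cases H with
    | here _ h1 => exact Or.inl h1
    | up _ h1 h2 => exact Or.inr ⟨h1, h2⟩
  · rintro (h1 | ⟨h1, h2⟩)
    · exact InCh.here q h1
    · exact InCh.up q h1 h2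

theorem gt_setR {wr wa : List ℕ} {s s' : St} (h : Fr wr wa s s') {x : ℕ} (hx : x ∈ wr) (v : ℕ) :
    Fr wr wa s (s'.setR x v) := by
  refine ⟨fun y hy => ?_, fun a ha => h.m a ha⟩
  rw [St.setR_r, if_neg (by rintro rfl; exact hy hx)]
  exact h.r y hy

theorem gt_setM {wr wa : List ℕ} {s s' : St} (h : Fr wr wa s s') {a : ℕ} (ha : a ∈ wa) (i v : ℕ) :
    Fr wr wa s (s'.setM a i v) := by
  refine ⟨fun y hy => h.r y hy, fun b hb => ?_⟩
  rw [St.setM_m, if_neg (by rintro rfl; exact hb ha)]
  exact h.m b hb

/-- body of the first loop of `pGtest` -/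
def gtB1 : Cmd :=
  .ite (.eq (A LAB (V rj)) (K 0)) (.put CM (V rj) (K 0))
    (.ite (.eq (A LAB (V rj)) (.inc (V rc))) (.put CM (V rj) (K 1))
      (.put CM (V rj) (A CM (A PAR (V rj)))))

theorem gt_loop1 {s : St} {c N : ℕ} (hc : s.r rc = c) (hN : s.r rnn = N)
    (hz : ∀ v, s.m CM v = 0) (hpar : ∀ q < N, s.m LAB q ≠ 0 → s.m PAR q < q) :
    Tri s (.for_ rj (K 0) rnn gtB1) (6 + N * 40)
      (fun s' => (∀ q, s'.m CM q = if q < N ∧ InCh (s.m PAR) (s.m LAB) c q then 1 else 0) ∧
        Fr [rj] [CM] s s') := by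
  refine (Tri.forC (fun j s' => (∀ q, s'.m CM q =
      if q < j ∧ InCh (s.m PAR) (s.m LAB) c q then 1 else 0) ∧ Fr [rj] [CM] s s') 33
      (by decide) (a := 0) rfl hN (Nat.zero_le _) ?_ ?_ ?_).cost ?_
  · refine ⟨fun q => ?_, gt_setR (Fr.refl s) (by simp) _⟩
    rw [if_neg (fun h => absurd h.1 (Nat.not_lt_zero _))]
    exact hz q
  · rintro j - hj s1 ⟨h1, hf⟩ hrj hrn
    have hlab : s1.m LAB = s.m LAB := hf.m LAB (by decide)
    have hpr : s1.m PAR = s.m PAR := hf.m PAR (by decide)
    have hrc : s1.r rc = c := (hf.r rc (by decide)).trans hc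
    have key : ∀ v, (v = if InCh (s.m PAR) (s.m LAB) c j then 1 else 0) →
        (fun s' : St => ((∀ q, (s'.setR rj (j + 1)).m CM q =
          if q < j + 1 ∧ InCh (s.m PAR) (s.m LAB) c q then 1 else 0) ∧
          Fr [rj] [CM] s (s'.setR rj (j + 1))) ∧ s'.r rj = j ∧ s'.r rnn = N)
          (s1.setM CM j v) := by
      intro v hv
      refine ⟨⟨fun q => ?_, gt_setR (gt_setM hf (by simp) _ _) (by simp) _⟩, hrj, hrn⟩
      rw [St.setR_m, St.setM_m, if_pos rfl, Function.update_apply]
      by_cases hq : q = j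
      · subst hq
        rw [if_pos rfl, hv]
        simp
      · rw [if_neg hq, h1 q]
        have : q < j + 1 ↔ q < j := by omega
        simp only [this]
    refine (Tri.lf (c := gtB1) rfl ?_).cost (by decide)
    show (fun s' : St => ((∀ q, (s'.setR rj (j + 1)).m CM q =
          if q < j + 1 ∧ InCh (s.m PAR) (s.m LAB) c q then 1 else 0) ∧
          Fr [rj] [CM] s (s'.setR rj (j + 1))) ∧ s'.r rj = j ∧ s'.r rnn = N) (gtB1.ex s1)
    rw [gtB1, Cmd.ex_ite]
    simp only [Cond.ev_eq, Exp.ev_get, Exp.ev_reg, Exp.ev_const, hrj, hlab, decide_eq_true_eq,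
      Cmd.ex_ite, Exp.ev_inc, hrc, Cmd.ex_put, hpr]
    by_cases hl0 : s.m LAB j = 0
    · rw [if_pos hl0]
      refine key 0 ?_
      rw [if_neg]
      rw [gt_inCh_iff]
      rintro (h | h)
      · omega
      · exact h.1 hl0
    · rw [if_neg hl0]
      by_cases hl1 : s.m LAB j = c + 1
      · rw [if_pos hl1]
        refine key 1 ?_
        rw [if_pos (InCh.here j hl1)]
      · rw [if_neg hl1]
        refine key _ ?_
        rw [h1 (s.m PAR j)]
        have hlt := hpar j hj hl0
        have : InCh (s.m PAR) (s.m LAB) c j ↔ InCh (s.m PAR) (s.m LAB) c (s.m PAR j) := by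
          rw [gt_inCh_iff]
          simp [hl0, hl1]
        simp [this, hlt]
  · rintro s' ⟨h1, hf⟩ - -
    exact ⟨h1, hf⟩
  · simp [Exp.cost]

/-- condition of the second loop of `pGtest` -/
def gtC : Cond := .all [.eq (A CM (A NODE (V ra))) (K 1), .eq (A CM (A NODE (V ry))) (K 0),
        .eq (A INS (V ra)) (K 0), .eq (A INS (V ry)) (K 0),
        .eq (A MM (V ra)) (K 0), .eq (A MM (V ry)) (K 0), .lt (V rnM) (V rlim)]

/-- body of the second loop of `pGtest` -/
def gtB2 : Cmd :=
  .blk [.set ra (A KX (V rj)), .set ry (A KY (V rj)), .whn gtC pAdd]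

theorem pGtest_eq : pGtest = .blk [.for_ rj (K 0) rnn gtB1, .for_ rj (K 0) rnK gtB2] := rfl

/-- the effect of `pAdd` -/
theorem gt_add {s : St} {M : List (ℕ × ℕ)} {a y : ℕ}
    (ha : s.r ra = a) (hy : s.r ry = y) (hpq : seg (s.m PQ) 0 (s.r rnp) = flat M)
    (hnM : s.r rnM = M.length) (hmm : ∀ v, s.m MM v = ind (flat M) v) :
    seg ((pAdd.ex s).m PQ) 0 ((pAdd.ex s).r rnp) = flat (M ++ [(a, y)]) ∧
    (pAdd.ex s).r rnM = (M ++ [(a, y)]).length ∧
    (∀ v, (pAdd.ex s).m MM v = ind (flat (M ++ [(a, y)])) v) ∧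
    Fr [rnp, rnM] [MM, PQ] s (pAdd.ex s) := by
  subst ha; subst hy
  have hr : (pAdd.ex s).r rnp = s.r rnp + 1 + 1 := by simp [pAdd]
  have hq : (pAdd.ex s).m PQ = Function.update (Function.update (s.m PQ) (s.r rnp) (s.r ra))
      (s.r rnp + 1) (s.r ry) := by simp [pAdd]
  have hm : (pAdd.ex s).m MM = Function.update (Function.update (s.m MM) (s.r ra) 1)
      (s.r ry) 1 := by simp [pAdd]
  refine ⟨?_, ?_, ?_, ?_⟩
  · rw [hr, hq, seg_succ _ (Nat.zero_le _), seg_update (Or.inr le_rfl),
      seg_succ _ (Nat.zero_le _), seg_update (Or.inr le_rfl), hpq]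
    simp
  · simp [pAdd, hnM]
  · intro v
    rw [hm, Function.update_apply, Function.update_apply, hmm v]
    simp only [ind, flat_append, flat_one, List.mem_append, List.mem_cons, List.not_mem_nil,
      or_false]
    by_cases h1 : v = s.r ry
    · simp [h1]
    · by_cases h2 : v = s.r ra
      · simp [h2]
      · simp [h1, h2]
  · have := (pAdd.lf_run s rfl)
    obtain ⟨t, -, hrun⟩ := this
    exact hrun.frame.mono (by decide) (by decide)

theorem pGtest_spec {s : St} (h : NS n m k G D S s) (hcl : CL s) (hc : s.r rc = c) (hcn : c < n)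
    (hcS : c ∉ S) (hg : D.r rtau ≤ dg n G c) :
    Tri s pGtest (300 * (D.r rnn + D.r rnK + 1)) (fun s' => ∃ M, TS n m k G D S c M s' ∧
      ∀ q, D.r rnn ≤ q → s'.m CM q = 0) := by
  have hP := h.prep
  have hG : Inn n G := hP.inn
  have hcS' : c ∉ S.toFinset := fun h' => hcS (List.mem_toFinset.1 h')
  have hcgi : c ∈ giL D := by
    rw [hP.a.gi, List.mem_filter]
    exact ⟨List.mem_range.2 hcn, by simpa using hg⟩
  have hcode0 : ∀ v < n, InCh (D.m PAR) (D.m LAB) c (D.m NODE v) ↔ (c = v ∨ G.Adj c v) := by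
    intro v hv
    rw [hP.d.code v hv c]
    exact ⟨fun h' => h'.2, fun h' => ⟨hcgi, h'⟩⟩
  have hnode : ∀ v < n, D.m NODE v < D.r rnn := fun v hv =>
    hP.d.node_lt v (le_trans (le_of_lt hv) hP.c.nE.1)
  have hLAB : s.m LAB = D.m LAB := h.agr.m LAB (by decide)
  have hPAR : s.m PAR = D.m PAR := h.agr.m PAR (by decide)
  have hrnn : s.r rnn = D.r rnn := h.agr.r rnn (by decide)
  have hrnK : s.r rnK = D.r rnK := h.agr.r rnK (by decide)
  rw [pGtest_eq]
  -- first loop
  obtain ⟨s1, t1, hrun1, ht1, hcm1, hf1⟩ := gt_loop1 (s := s) hc hrnn hcl.cm (by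
    intro q hq hne
    rw [hLAB] at hne
    rw [hPAR]
    exact hP.d.par_lt q hq hne)
  rw [hLAB, hPAR] at hcm1
  have hns1 : NS n m k G D S s1 := h.fr hf1 (by decide) (by decide)
  have hcmv : ∀ v < n, s1.m CM (D.m NODE v) = if (c = v ∨ G.Adj c v) then 1 else 0 := by
    intro v hv
    rw [hcm1, hcode0 v hv]
    simp [hnode v hv]
  -- invariant of the second loop
  let W1 : List ℕ := [rj, ra, ry, rnp, rnM]
  let W2 : List ℕ := [MM, PQ]
  let I : ℕ → St → Prop := fun j s' => Fr W1 W2 s1 s' ∧ ∃ M : List (ℕ × ℕ),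
    seg (s'.m PQ) 0 (s'.r rnp) = flat M ∧ s'.r rnM = M.length ∧
    (∀ v, s'.m MM v = ind (flat M) v) ∧ IsMat G S.toFinset (Uc n G S.toFinset c) M ∧
    M.length ≤ 2 * (k - S.length) + 1 ∧
    (M.length < 2 * (k - S.length) + 1 → ∀ i < j, (D.m KX i = c ∨ G.Adj c (D.m KX i)) →
      ¬ (D.m KY i = c ∨ G.Adj c (D.m KY i)) → D.m KX i ∉ S → D.m KY i ∉ S →
      D.m KX i ∈ flat M ∨ D.m KY i ∈ flat M)
  have hedge : ∀ i < D.r rnK, G.Adj (D.m KX i) (D.m KY i) := by
    intro i hi
    exact hP.e.ker.adj (D.m KX i, D.m KY i) (List.mem_map.2 ⟨i, List.mem_range.2 hi, rfl⟩)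
  have hloop2 : Tri s1 (.for_ rj (K 0) rnK gtB2) (6 + D.r rnK * (150 + 7))
      (fun s' => I (D.r rnK) s') := by
    refine (Tri.forC I 150 (by decide) (a := 0) rfl
      ((hf1.r rnK (by decide)).trans hrnK) (Nat.zero_le _) ?_ ?_ ?_).cost ?_
    · refine ⟨gt_setR (Fr.refl s1) (by decide) _, [], ?_, ?_, ?_, ?_, ?_, ?_⟩
      · rw [St.setR_r, if_neg (by decide), hf1.r rnp (by decide), hcl.np]
        simp
      · rw [St.setR_r, if_neg (by decide), hf1.r rnM (by decide), hcl.nM]
        simp
      · intro v
        rw [St.setR_m, hf1.m MM (by decide), hcl.mm v]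
        simp [ind]
      · exact ⟨by simp, by simp⟩
      · simp
      · intro _ i hi
        exact absurd hi (Nat.not_lt_zero _)
    · rintro j - hj s2 ⟨hf2, M, hpq, hnM, hmm, hmat, hle, hcov⟩ hrj hrK
      -- static data in s2
      have hfs : ∀ a ∈ statA, s2.m a = D.m a := by
        intro a ha
        have h1 : s2.m a = s1.m a := hf2.m a (by
          revert a; decide)
        rw [h1]; exact hns1.agr.m a ha
      have hKX : s2.m KX = D.m KX := hfs KX (by decide)
      have hKY : s2.m KY = D.m KY := hfs KY (by decide)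
      have hNO : s2.m NODE = D.m NODE := hfs NODE (by decide)
      have hCM : s2.m CM = s1.m CM := hf2.m CM (by decide)
      have hIN : s2.m INS = s1.m INS := hf2.m INS (by decide)
      have hli : s2.r rlim = 2 * (k - S.length) + 1 :=
        (hf2.r rlim (by decide)).trans hns1.lim
      set a := D.m KX j with ha
      set y := D.m KY j with hy
      have hab : G.Adj a y := hedge j hj
      have han : a < n := hG _ _ hab
      have hyn : y < n := hG.right hab
      refine (Tri.lf (c := gtB2) rfl ?_).cost (by decide)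
      set s3 := (s2.setR ra a).setR ry y with hs3
      have hex : gtB2.ex s2 = if gtC.ev s3 = true then pAdd.ex s3 else s3 := by
        simp [gtB2, hrj, hKX, hKY, hs3, ha, hy]
      have hf3 : Fr W1 W2 s1 s3 := gt_setR (gt_setR hf2 (by decide) _) (by decide) _
      have hra3 : s3.r ra = a := by simp [hs3]
      have hry3 : s3.r ry = y := by simp [hs3]
      have hpq3 : seg (s3.m PQ) 0 (s3.r rnp) = flat M := by simpa [hs3] using hpq
      have hnM3 : s3.r rnM = M.length := by simpa [hs3] using hnM
      have hmm3 : ∀ v, s3.m MM v = ind (flat M) v := by simpa [hs3] using hmm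
      have hrj3 : s3.r rj = j := by simpa [hs3] using hrj
      have hrK3 : s3.r rnK = D.r rnK := by simpa [hs3] using hrK
      have hcond : gtC.ev s3 = true ↔ ((c = a ∨ G.Adj c a) ∧ ¬ (c = y ∨ G.Adj c y) ∧ a ∉ S ∧
          y ∉ S ∧ a ∉ flat M ∧ y ∉ flat M ∧ M.length < 2 * (k - S.length) + 1) := by
        have e1 : s3.m CM (s3.m NODE a) = if (c = a ∨ G.Adj c a) then 1 else 0 := by
          have : s3.m NODE = D.m NODE := by simp [hs3, hNO]
          rw [this]
          have : s3.m CM = s1.m CM := by simp [hs3, hCM]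
          rw [this]
          exact hcmv a han
        have e2 : s3.m CM (s3.m NODE y) = if (c = y ∨ G.Adj c y) then 1 else 0 := by
          have : s3.m NODE = D.m NODE := by simp [hs3, hNO]
          rw [this]
          have : s3.m CM = s1.m CM := by simp [hs3, hCM]
          rw [this]
          exact hcmv y hyn
        have e3 : ∀ v, s3.m INS v = if v ∈ S then 1 else 0 := by
          intro v
          have : s3.m INS = s1.m INS := by simp [hs3, hIN]
          rw [this]
          exact hns1.ins v
        have e4 : s3.r rlim = 2 * (k - S.length) + 1 := by simpa [hs3] using hli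
        simp only [gtC, Cond.ev_all_cons, Cond.ev_all_one, Cond.ev_eq, Cond.ev_lt, Exp.ev_get,
          Exp.ev_reg, Exp.ev_const, hra3, hry3, e1, e2, e3, e4, hmm3, hnM3, Bool.and_eq_true,
          decide_eq_true_eq, ind]
        constructor
        · rintro ⟨h1, h2, h3, h4, h5, h6, h7⟩
          refine ⟨?_, ?_, ?_, ?_, ?_, ?_, h7⟩
          · by_contra h'; rw [if_neg h'] at h1; omega
          · intro h'; rw [if_pos h'] at h2; omega
          · intro h'; rw [if_pos h'] at h3; omega
          · intro h'; rw [if_pos h'] at h4; omega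
          · intro h'; rw [if_pos h'] at h5; omega
          · intro h'; rw [if_pos h'] at h6; omega
        · rintro ⟨h1, h2, h3, h4, h5, h6, h7⟩
          exact ⟨if_pos h1, if_neg h2, if_neg h3, if_neg h4, if_neg h5, if_neg h6, h7⟩
      rw [hex]
      by_cases hcd : gtC.ev s3 = true
      · rw [if_pos hcd]
        obtain ⟨c1, c2, c3, c4, c5, c6, c7⟩ := hcond.1 hcd
        obtain ⟨g1, g2, g3, g4⟩ := gt_add hra3 hry3 hpq3 hnM3 hmm3
        have hne : a ≠ y := G.ne_of_adj hab
        refine ⟨⟨gt_setR (hf3.trans (g4.mono (by decide) (by decide))) (by decide) _,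
          M ++ [(a, y)], ?_, ?_, ?_, ?_, ?_, ?_⟩, ?_, ?_⟩
        · rw [St.setR_m, St.setR_r, if_neg (by decide)]; exact g1
        · rw [St.setR_r, if_neg (by decide)]; exact g2
        · intro v; rw [St.setR_m]; exact g3 v
        · refine ⟨?_, ?_⟩
          · intro e he
            rcases List.mem_append.1 he with he | he
            · exact hmat.edge e he
            · rw [List.mem_singleton] at he
              subst he
              refine ⟨?_, ?_, ?_, hab⟩
              · rw [mem_Uc hG]
                rcases c1 with h' | h'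
                · exact Or.inl h'.symm
                · exact Or.inr ⟨h', fun h'' => c3 (List.mem_toFinset.1 h'')⟩
              · rw [mem_Uc hG]
                rintro (h' | h')
                · exact c2 (Or.inl h'.symm)
                · exact c2 (Or.inr h'.1)
              · exact fun h'' => c4 (List.mem_toFinset.1 h'')
          · rw [flat_append, flat_one, List.nodup_append]
            refine ⟨hmat.nd, by simp [hne], ?_⟩
            intro x hx z hz hxz
            subst hxz
            simp only [List.mem_cons, List.not_mem_nil, or_false] at hz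
            rcases hz with hz | hz
            · rw [hz] at hx; exact c5 hx
            · rw [hz] at hx; exact c6 hx
        · rw [List.length_append, List.length_singleton]; omega
        · intro hlt i hi d1 d2 d3 d4
          rw [flat_append, flat_one]
          simp only [List.mem_append, List.mem_cons, List.not_mem_nil, or_false]
          by_cases hij : i = j
          · subst hij
            exact Or.inl (Or.inr (Or.inl rfl))
          · have := hcov (by rw [List.length_append, List.length_singleton] at hlt; omega)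
              i (by omega) d1 d2 d3 d4
            rcases this with h' | h'
            · exact Or.inl (Or.inl h')
            · exact Or.inr (Or.inl h')
        · rw [g4.r rj (by decide)]; exact hrj3
        · rw [g4.r rnK (by decide)]; exact hrK3
      · rw [if_neg hcd]
        refine ⟨⟨gt_setR hf3 (by decide) _, M, ?_, ?_, ?_, hmat, hle, ?_⟩, hrj3, hrK3⟩
        · rw [St.setR_m, St.setR_r, if_neg (by decide)]; exact hpq3
        · rw [St.setR_r, if_neg (by decide)]; exact hnM3
        · intro v; rw [St.setR_m]; exact hmm3 v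
        · intro hlt i hi d1 d2 d3 d4
          by_cases hij : i = j
          · subst hij
            by_contra hno
            apply hcd
            rw [hcond]
            refine ⟨?_, ?_, d3, d4, fun h' => hno (Or.inl h'), fun h' => hno (Or.inr h'), hlt⟩
            · rcases d1 with h' | h'
              · exact Or.inl h'.symm
              · exact Or.inr h'
            · rintro (h' | h')
              · exact d2 (Or.inl h'.symm)
              · exact d2 (Or.inr h')
          · exact hcov hlt i (by omega) d1 d2 d3 d4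
    · rintro s' h' - -
      exact h'
    · simp [Exp.cost]
  obtain ⟨s2, t2, hrun2, ht2, hf2, M, hpq, hnM, hmm, hmat, hle, hcov⟩ := hloop2
  refine ⟨s2, t1 + (t2 + 1), Run.cons hrun1 (Run.cons hrun2 (Run.nil _)), by omega, M, ?_, ?_⟩
  · have hns2 : NS n m k G D S s2 := hns1.fr hf2 (by decide) (by decide)
    refine ⟨hns2, ?_, hcn, hcS, hpq, hnM, hmm, ⟨hmat, hle, ?_⟩, ?_⟩
    · rw [hf2.r rc (by decide), hf1.r rc (by decide)]; exact hc
    · intro hlt
      refine hP.e.ker.test hG hcS' ?_ ?_ ?_
      · intro x y hx hy hxy hx'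
        have := (hcode0 x hx).2 (by rcases hx' with h' | h'; exact Or.inl h'.symm; exact Or.inr h')
        rw [hxy, hcode0 y hy] at this
        rcases this with h' | h'
        · exact Or.inl h'.symm
        · exact Or.inr h'
      · rw [flat_length]
        have h1 : S.toFinset.card ≤ S.length := List.toFinset_card_le S
        have h2 := h.len
        omega
      · intro e he h1 h2 h3 h4
        obtain ⟨i, hi, rfl⟩ := List.mem_map.1 he
        exact hcov hlt i (List.mem_range.1 hi) h1 h2 (fun h' => h3 (List.mem_toFinset.2 h'))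
          (fun h' => h4 (List.mem_toFinset.2 h'))
    · intro y hy hyS
      have e1 : s2.m MU y = 0 := by
        rw [hf2.m MU (by decide), hf1.m MU (by decide)]; exact hcl.mu y
      have e2 : s2.m NODE = D.m NODE := hns2.agr.m NODE (by decide)
      have e3 : s2.m CM = s1.m CM := hf2.m CM (by decide)
      rw [e1, e2, e3, hcmv y hy, mem_Uc hG]
      constructor
      · rintro ⟨-, h2⟩ h3
        rw [if_pos] at h2
        · omega
        · rcases h3 with h' | h'
          · exact Or.inl h'.symm
          · exact Or.inr h'.1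
      · intro h3
        refine ⟨rfl, if_neg ?_⟩
        rintro (h' | h')
        · exact h3 (Or.inl h'.symm)
        · exact h3 (Or.inr ⟨h', fun h'' => hyS (List.mem_toFinset.1 h'')⟩)
  · intro q hq
    rw [hf2.m CM (by decide), hcm1 q, if_neg (fun h' => absurd h'.1 (by omega))]

end TL
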