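import Pool.Agent.W_3fea_h44.NodeDefs

/-! # Specification of `pInit` and of the end of a node -/

namespace TL

open Relation Finset Classical

variable {n m k : ℕ} {G : SimpleGraph ℕ} {D : St} {S : List ℕ}

/-- the state at the beginning and at the end of the treatment of a node -/
structure N0 (n m k : ℕ) (G : SimpleGraph ℕ) (D : St) (S : List ℕ) (s : St) : Prop where
  prep : Prep n m k G D
  agr : Agr D s
  sa : seg (s.m SA) 0 (s.r rt) = S
  nd : S.Nodup
  lt : ∀ v ∈ S, v < n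
  len : S.length ≤ k
  ins : ∀ v, s.m INS v = 0
  cl : CL s

/-! ### auxiliary loops -/

/-- write a constant in the cells `INS v`, `v ∈ S` -/
theorem ins_loop {s : St} {S : List ℕ} {c : ℕ} {f : ℕ → ℕ}
    (hS : seg (s.m SA) 0 (s.r rt) = S) (hf : ∀ v, s.m INS v = f v) :
    Tri s (.for_ ri (K 0) rt (.put INS (A SA (V ri)) (K c))) (6 + (4 + 7) * S.length) (fun s' =>
      ∀ v, s'.m INS v = if v ∈ S then c else f v) := by
  have hl : s.r rt = S.length := by rw [← hS]; simp
  refine Tri.for0 (I := fun j s' => s'.m SA = s.m SA ∧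
    ∀ v, s'.m INS v = if v ∈ seg (s.m SA) 0 j then c else f v) (B := 4) hl (by decide) ?_ ?_ ?_ ?_
  · intro j s' v h
    simpa using h
  · exact ⟨rfl, by simpa using hf⟩
  · rintro j hj s1 ⟨h1, h2⟩ h3 h4
    refine Tri.put ?_ (by simp [Exp.cost])
    refine ⟨⟨?_, ?_⟩, ?_, ?_⟩
    · simp [h1]
    · intro v
      simp only [St.setM_m, Exp.ev_get, Exp.ev_reg, Exp.ev_const, if_true, h3, h1,
        Function.update_apply]
      rw [seg_succ _ (Nat.zero_le j)]
      simp only [List.mem_append, List.mem_singleton, h2 v]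
      by_cases hv : v = s.m SA j
      · simp [hv]
      · simp [hv]
    · simpa using h3
    · simpa using h4
  · rintro s1 ⟨h1, h2⟩ - -
    rw [← hl, hS] at h2
    exact h2

/-- the first loop -/
theorem kp_loop {s : St} {l k : ℕ} (h1 : s.r rt = l) (h2 : s.r rk = k) (hl : l ≤ k)
    (h3 : s.r rkp = 0) (h4 : s.r rlim = 1) :
    Tri s (.for_ ri (V rt) rk (.blk [.incr rkp, .incr rlim, .incr rlim]))
      (6 + (k - l) * (10 + 7)) (fun s' => s'.r rkp = k - l ∧ s'.r rlim = 2 * (k - l) + 1) := by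
  refine (Tri.forC (I := fun j s' => s'.r rkp = j - l ∧ s'.r rlim = 2 * (j - l) + 1) (B := 10)
    (a := l) (N := k) (by decide) (by simpa using h1) h2 hl ?_ ?_ ?_).cost ?_
  · simp [h3, h4]
  · rintro j hj1 hj2 s1 ⟨k1, k2⟩ k3 k4
    refine (Tri.lf (by decide) ?_).cost (by decide)
    simp [k1, k2, k3, k4]
    omega
  · rintro s1 ⟨k1, k2⟩ - -
    exact ⟨k1, k2⟩
  · simp [Exp.cost]

/-- the third loop -/
theorem dp_loop {s : St} {L : List ℕ} {N : ℕ} (hN : s.r rnA = N) (hL : seg (s.m AL) 0 N = L) :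
    Tri s (.for_ ri (K 0) rnA (.blk [
      .put DP (A AL (V ri)) (A DEG (A AL (V ri))),
      .put RM (A AL (V ri)) (K 0)])) (6 + (11 + 7) * N) (fun s' =>
      (∀ v ∈ L, s'.m DP v = s.m DEG v) ∧ ∀ v ∈ L, s'.m RM v = 0) := by
  refine Tri.for0 (I := fun j s' => s'.m AL = s.m AL ∧ s'.m DEG = s.m DEG ∧
    (∀ v ∈ seg (s.m AL) 0 j, s'.m DP v = s.m DEG v) ∧
    ∀ v ∈ seg (s.m AL) 0 j, s'.m RM v = 0) (B := 11) hN (by decide) ?_ ?_ ?_ ?_
  · intro j s' v h
    simpa using h
  · simp
  · rintro j hj s1 ⟨h1, h2, h3, h4⟩ h5 h6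
    refine (Tri.lf (by decide) ?_).cost (by decide)
    rw [seg_succ _ (Nat.zero_le j)]
    refine ⟨⟨?_, ?_, ?_, ?_⟩, ?_, ?_⟩
    · simp [h1]
    · simp [h2]
    · intro v hv
      simp only [List.mem_append, List.mem_singleton] at hv
      simp only [Cmd.ex_cons, Cmd.ex_nil, Cmd.ex_put, St.setM_m, Exp.ev_get, Exp.ev_reg,
        Exp.ev_const, h1, h2, h5, Function.update_apply]
      by_cases hne : v = s.m AL j
      · simp [hne]
      · have h7 := h3 v (by tauto)
        simp [hne, h7]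
    · intro v hv
      simp only [List.mem_append, List.mem_singleton] at hv
      simp only [Cmd.ex_cons, Cmd.ex_nil, Cmd.ex_put, St.setM_m, Exp.ev_get, Exp.ev_reg,
        Exp.ev_const, h1, h2, h5, Function.update_apply]
      by_cases hne : v = s.m AL j
      · simp [hne, h5]
      · have h7 := h4 v (by tauto)
        simp [hne, h7, h5]
    · simpa using h5
    · simpa using h6
  · rintro s1 ⟨h1, h2, h3, h4⟩ - -
    rw [hL] at h3 h4
    exact ⟨h3, h4⟩

/-- the inner loop of the last loop -/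
theorem dec_loop {s : St} {a b : ℕ} {lo : Exp} (ha : lo.ev s = a) (hb : s.r rhi = b)
    (hab : a ≤ b) :
    Tri s (.for_ rp lo rhi (.put DP (A ADA (V rp)) (.dec (A DP (A ADA (V rp))))))
      (lo.cost + 5 + (b - a) * (7 + 7)) (fun s' =>
      ∀ v, s'.m DP v = s.m DP v - (seg (s.m ADA) a b).count v) := by
  refine Tri.forC (I := fun j s' => s'.m ADA = s.m ADA ∧
    ∀ v, s'.m DP v = s.m DP v - (seg (s.m ADA) a j).count v) (B := 7) (by decide) ha hb hab ?_ ?_ ?_
  · simp
  · rintro j hj1 hj2 s1 ⟨h1, h2⟩ h3 h4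
    refine Tri.put ?_ (by simp [Exp.cost])
    refine ⟨⟨?_, ?_⟩, ?_, ?_⟩
    · simp [h1]
    · intro v
      rw [seg_succ _ hj1, List.count_append]
      simp only [St.setR_m, St.setM_m, Exp.ev_get, Exp.ev_reg, Exp.ev_dec, if_true, h3, h1,
        Function.update_apply, h2]
      by_cases hv : v = s.m ADA j
      · subst hv
        simp
        omega
      · have : List.count v [s.m ADA j] = 0 := by
          rw [List.count_eq_zero]; simpa using hv
        simp [hv, this]
    · simpa using h3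
    · simpa using h4
  · rintro s1 ⟨h1, h2⟩ - -
    exact h2

/-- the last loop -/
theorem sub_loop {s : St} {S : List ℕ} (hS : seg (s.m SA) 0 (s.r rt) = S)
    {C : ℕ} (hC : ∀ w ∈ S, s.m OFA w ≤ s.m OFA (w + 1) ∧ s.m OFA (w + 1) - s.m OFA w ≤ C) :
    Tri s (.for_ ri (K 0) rt (.blk [
      .set rs (A SA (V ri)),
      .set rhi (A OFA (.inc (V rs))),
      .for_ rp (A OFA (V rs)) rhi (.put DP (A ADA (V rp)) (.dec (A DP (A ADA (V rp)))))]))
      (6 + ((16 + 14 * C) + 7) * S.length) (fun s' =>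
      ∀ v, s'.m DP v = s.m DP v - (S.map (fun w =>
        (seg (s.m ADA) (s.m OFA w) (s.m OFA (w + 1))).count v)).sum) := by
  have hl : s.r rt = S.length := by rw [← hS]; simp
  refine Tri.for0 (I := fun j s' => s'.m SA = s.m SA ∧ s'.m ADA = s.m ADA ∧ s'.m OFA = s.m OFA ∧
    ∀ v, s'.m DP v = s.m DP v - ((seg (s.m SA) 0 j).map (fun w =>
        (seg (s.m ADA) (s.m OFA w) (s.m OFA (w + 1))).count v)).sum) (B := 16 + 14 * C) hl
    (by decide) ?_ ?_ ?_ ?_
  · intro j s' v h
    simpa using h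
  · simp
  · rintro j hj s1 ⟨h1, h2, h3, h4⟩ h5 h6
    have hw : s.m SA j ∈ S := by
      rw [← hS, mem_seg]
      exact ⟨j, Nat.zero_le _, by omega, rfl⟩
    obtain ⟨c1, c2⟩ := hC _ hw
    refine Tri.cons (B1 := 3) (B2 := 13 + 14 * C) (Tri.set ?_ (by simp [Exp.cost])) (by omega)
    refine Tri.cons (B1 := 4) (B2 := 9 + 14 * C) (Tri.set ?_ (by simp [Exp.cost])) (by omega)
    refine Tri.cons (B1 := 8 + 14 * C) (B2 := 1) ?_ (by omega)
    refine (Tri.fr (dec_loop (a := s.m OFA (s.m SA j)) (b := s.m OFA (s.m SA j + 1)) ?_ ?_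
      c1)).mono ?_ ?_
    · simp [h1, h3, h5]
    · simp [h1, h3, h5]
    · simp only [Exp.cost]
      have : (s.m OFA (s.m SA j + 1) - s.m OFA (s.m SA j)) * (7 + 7) ≤ C * 14 :=
        Nat.mul_le_mul_right _ c2
      omega
    · rintro s2 ⟨k1, k2⟩
      refine Tri.nil ⟨⟨?_, ?_, ?_, ?_⟩, ?_, ?_⟩ le_rfl
      · rw [k2.m SA (by decide)]; simpa using h1
      · rw [k2.m ADA (by decide)]; simpa using h2
      · rw [k2.m OFA (by decide)]; simpa using h3
      · intro v
        rw [k1 v, seg_succ _ (Nat.zero_le j)]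
        simp only [St.setR_m, h2, h4 v, List.map_append, List.sum_append, List.map_cons,
          List.map_nil, List.sum_cons, List.sum_nil, Nat.add_zero]
        rw [Nat.sub_sub]
      · rw [k2.r ri (by decide)]; simpa using h5
      · rw [k2.r rt (by decide)]; simpa using h6
  · rintro s1 ⟨h1, h2, h3, h4⟩ - -
    rw [← hl, hS] at h4
    exact h4

/-! ### the pure part -/

theorem adjL_mem (hP : Prep n m k G D) {w : ℕ} (hw : w < n) (y : ℕ) :
    y ∈ adjL D w ↔ G.Adj w y := hP.a.adj.mem w hw y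

theorem adA_count (hP : Prep n m k G D) {w v : ℕ} (hw : w < n) (hv : dl k ≤ dg n G v) :
    (adA D w).count v = if G.Adj v w then 1 else 0 := by
  rw [hP.a.ada w hw]
  have h1 : (adjL D w).Nodup := hP.a.adj.nd w hw
  have h2 : ((adjL D w).filter (fun y => dl k ≤ dg n G y)).Nodup := h1.filter _
  rw [h2.count]
  have : v ∈ (adjL D w).filter (fun y => dl k ≤ dg n G y) ↔ G.Adj v w := by
    rw [List.mem_filter, adjL_mem hP hw]
    simp only [hv, decide_true, and_true]
    exact ⟨fun h => h.symm, fun h => h.symm⟩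
  simp only [this]

theorem sum_ind (hG : Inn n G) {v : ℕ} : ∀ {S : List ℕ}, S.Nodup → (∀ w ∈ S, w < n) →
    (S.map (fun w => if G.Adj v w then 1 else 0)).sum = (nb n G v ∩ S.toFinset).card
  | [], _, _ => by simp
  | w :: S, hS, hlt => by
    rw [List.nodup_cons] at hS
    have ih := sum_ind hG (v := v) hS.2 (fun x hx => hlt x (List.mem_cons_of_mem _ hx))
    rw [List.map_cons, List.sum_cons, ih, List.toFinset_cons]
    by_cases h : G.Adj v w
    · rw [if_pos h, Finset.inter_insert_of_mem ((mem_nb hG).2 h), Finset.card_insert_of_notMem]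
      · omega
      · simp [hS.1]
    · rw [if_neg h, Finset.inter_insert_of_notMem (fun h' => h ((mem_nb hG).1 h'))]
      omega

theorem sub_dp (hG : Inn n G) {v : ℕ} {S : List ℕ} (h1 : S.Nodup) (h2 : ∀ w ∈ S, w < n) :
    dg n G v - (S.map (fun w => if G.Adj v w then 1 else 0)).sum = dp n G S.toFinset v := by
  rw [sum_ind hG h1 h2, dg, dp]
  have := Finset.card_sdiff_add_card_inter (nb n G v) S.toFinset
  omega

theorem adA_len (hP : Prep n m k G D) {w : ℕ} (hw : w < n) :
    D.m OFA (w + 1) - D.m OFA w ≤ D.r rnA := by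
  have h1 : (adA D w).length = D.m OFA (w + 1) - D.m OFA w := by simp [adA]
  have h2 : (alL D).length = D.r rnA := by simp [alL]
  rw [← h1, ← h2]
  have h3 : (adA D w).Nodup := by
    rw [hP.a.ada w hw]
    exact (hP.a.adj.nd w hw : (adjL D w).Nodup).filter _
  have h4 : ∀ v ∈ adA D w, v ∈ alL D := by
    intro v hv
    rw [hP.a.ada w hw, List.mem_filter, adjL_mem hP hw] at hv
    rw [hP.a.al, List.mem_filter, List.mem_range]
    exact ⟨hP.inn.right hv.1, hv.2⟩
  rw [← List.toFinset_card_of_nodup h3]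
  refine le_trans (Finset.card_le_card (t := (alL D).toFinset) ?_) (List.toFinset_card_le _)
  intro v hv
  simp only [List.mem_toFinset] at hv ⊢
  exact h4 v hv

theorem pInit_spec {s : St} (h : N0 n m k G D S s) :
    Tri s pInit (200 * ((k + 1) * (D.r rnA + 1))) (fun s' => NS n m k G D S s' ∧ CL s' ∧
      s'.r rst = 0 ∧ ∀ v < n, dl k ≤ dg n G v → s'.m RM v = 0) := by
  obtain ⟨hP, hA, hsa, hnd, hlt, hlen, hins, hcl⟩ := h
  have hl : s.r rt = S.length := by rw [← hsa]; simp
  have hk : s.r rk = k := by rw [hA.r rk (by decide), hP.a.rk_]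
  set a := D.r rnA with ha
  -- the three assignments
  refine Tri.cons (B1 := 2) (B2 := 200 * ((k + 1) * (a + 1)) - 2) (Tri.set ?_ (by simp [Exp.cost]))
    (by have : 1 ≤ (k + 1) * (a + 1) := Nat.mul_pos (by omega) (by omega)
        omega)
  refine Tri.cons (B1 := 2) (B2 := 200 * ((k + 1) * (a + 1)) - 4) (Tri.set ?_ (by simp [Exp.cost]))
    (by have : 1 ≤ (k + 1) * (a + 1) := Nat.mul_pos (by omega) (by omega)
        omega)
  refine Tri.cons (B1 := 2) (B2 := 200 * ((k + 1) * (a + 1)) - 6) (Tri.set ?_ (by simp [Exp.cost]))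
    (by have : 1 ≤ (k + 1) * (a + 1) := Nat.mul_pos (by omega) (by omega)
        omega)
  set s0 := ((s.setR rst ((K 0).ev s)).setR rkp ((K 0).ev (s.setR rst ((K 0).ev s)))).setR rlim
    ((K 1).ev ((s.setR rst ((K 0).ev s)).setR rkp ((K 0).ev (s.setR rst ((K 0).ev s))))) with hs0
  have e0r : ∀ x, x ≠ rst → x ≠ rkp → x ≠ rlim → s0.r x = s.r x := by
    intro x h1 h2 h3
    simp [hs0, h1, h2, h3]
  have e0m : s0.m = s.m := by simp [hs0]
  have e0st : s0.r rst = 0 := by simp [hs0]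
  have e0kp : s0.r rkp = 0 := by simp [hs0]
  have e0lim : s0.r rlim = 1 := by simp [hs0]
  -- the costs
  have hcost : 1 * 6 + (6 + (k - S.length) * (10 + 7)) + (6 + (4 + 7) * S.length) +
      (6 + (11 + 7) * a) + (6 + ((16 + 14 * a) + 7) * S.length) + 1 ≤
      200 * ((k + 1) * (a + 1)) := by
    have h1 : ((16 + 14 * a) + 7) * S.length ≤ ((16 + 14 * a) + 7) * k :=
      Nat.mul_le_mul_left _ hlen
    have h2 : (k - S.length) * (10 + 7) ≤ k * 17 := Nat.mul_le_mul_right _ (by omega)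
    nlinarith [Nat.zero_le (k * a)]
  refine Tri.cons (B1 := 6 + (k - S.length) * (10 + 7))
    (B2 := (6 + (4 + 7) * S.length) +
      (6 + (11 + 7) * a) + (6 + ((16 + 14 * a) + 7) * S.length) + 1) ?_ (by omega)
  refine (Tri.fr (kp_loop (l := S.length) (k := k) ?_ ?_ hlen e0kp e0lim)).imp ?_
  · rw [e0r rt (by decide) (by decide) (by decide), hl]
  · rw [e0r rk (by decide) (by decide) (by decide), hk]
  rintro s1 ⟨⟨a1, a2⟩, a3⟩
  have s1m : s1.m = s.m := by
    funext b
    rw [a3.m b (by simp [Cmd.for_, Cmd.wa]), e0m]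
  have s1t : s1.r rt = s.r rt := by
    rw [a3.r rt (by decide), e0r rt (by decide) (by decide) (by decide)]
  refine Tri.cons (B1 := 6 + (4 + 7) * S.length)
    (B2 := (6 + (11 + 7) * a) + (6 + ((16 + 14 * a) + 7) * S.length) + 1) ?_ (by omega)
  refine (Tri.fr (ins_loop (S := S) (c := 1) (f := fun _ => 0) ?_ ?_)).imp ?_
  · rw [s1m, s1t, hsa]
  · intro v
    rw [s1m]; exact hins v
  rintro s2 ⟨b1, b2⟩
  have s2A : s2.r rnA = a := by
    rw [b2.r rnA (by decide), a3.r rnA (by decide), e0r rnA (by decide) (by decide) (by decide),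
      hA.r rnA (by decide)]
  have s2AL : seg (s2.m AL) 0 a = alL D := by
    rw [b2.m AL (by decide), s1m, hA.m AL (by decide)]; rfl
  refine Tri.cons (B1 := 6 + (11 + 7) * a)
    (B2 := (6 + ((16 + 14 * a) + 7) * S.length) + 1) ?_ (by omega)
  refine (Tri.fr (dp_loop s2A s2AL)).imp ?_
  rintro s3 ⟨⟨c1, c2⟩, c3⟩
  have s3m : ∀ b, b ∉ [INS, DP, RM] → s3.m b = s.m b := by
    intro b hb
    simp only [List.mem_cons, List.not_mem_nil, or_false, not_or] at hb
    rw [c3.m b (by simp [Cmd.for_, Cmd.wa, hb.2.1, hb.2.2]), b2.m b (by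
      simp [Cmd.for_, Cmd.wa, hb.1]), s1m]
  have s3t : s3.r rt = s.r rt := by
    rw [c3.r rt (by decide), b2.r rt (by decide), s1t]
  refine Tri.cons (B1 := 6 + ((16 + 14 * a) + 7) * S.length) (B2 := 1) ?_ (by omega)
  have hOFA : s3.m OFA = D.m OFA := by rw [s3m OFA (by decide), hA.m OFA (by decide)]
  have hADA : s3.m ADA = D.m ADA := by rw [s3m ADA (by decide), hA.m ADA (by decide)]
  have hDEG2 : s2.m DEG = D.m DEG := by
    rw [b2.m DEG (by decide), s1m, hA.m DEG (by decide)]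
  refine (Tri.fr (sub_loop (S := S) (C := a) ?_ ?_)).imp ?_
  · rw [s3m SA (by decide), s3t, hsa]
  · intro w hw
    rw [hOFA]
    exact ⟨hP.a.ofa w (hlt w hw), adA_len hP (hlt w hw)⟩
  rintro s4 ⟨d1, d2⟩
  have s4m : ∀ b, b ∉ [INS, DP, RM] → s4.m b = s.m b := by
    intro b hb
    have hb' := hb
    simp only [List.mem_cons, List.not_mem_nil, or_false, not_or] at hb
    rw [d2.m b (by simp [Cmd.for_, Cmd.wa, hb.2.1]), s3m b hb']
  have s4r : ∀ x, x ∉ [rst, rkp, rlim, ri, rs, rhi, rp] → s4.r x = s.r x := by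
    intro x hx
    simp only [List.mem_cons, List.not_mem_nil, or_false, not_or] at hx
    obtain ⟨x1, x2, x3, x4, x5, x6, x7⟩ := hx
    rw [d2.r x (by simp [Cmd.for_, Cmd.wr, x4, x5, x6, x7]),
      c3.r x (by simp [Cmd.for_, Cmd.wr, x4]), b2.r x (by simp [Cmd.for_, Cmd.wr, x4]),
      a3.r x (by simp [Cmd.for_, Cmd.wr, x2, x3, x4]), e0r x x1 x2 x3]
  have hmemAL : ∀ v < n, dl k ≤ dg n G v → v ∈ alL D := by
    intro v hv hd
    rw [hP.a.al, List.mem_filter, List.mem_range]
    exact ⟨hv, by simpa using hd⟩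
  refine Tri.nil ⟨⟨hP, ⟨?_, ?_⟩, ?_, hnd, hlt, hlen, ?_, ?_, ?_, ?_⟩, ?_, ?_, ?_⟩ le_rfl
  · intro x hx
    rw [s4r x ?_, hA.r x hx]
    intro h'
    revert hx h'
    simp only [statR, List.mem_cons, List.not_mem_nil, or_false]
    rintro (rfl | rfl | rfl | rfl | rfl | rfl | rfl | rfl | rfl | rfl) <;> decide
  · intro b hb
    rw [s4m b ?_, hA.m b hb]
    intro h'
    revert hb h'
    simp only [statA, List.mem_cons, List.not_mem_nil, or_false]
    rintro (rfl | rfl | rfl | rfl | rfl | rfl | rfl | rfl | rfl | rfl | rfl | rfl | rfl | rfl |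
      rfl | rfl | rfl) <;> decide
  · rw [s4m SA (by decide), s4r rt (by decide), hsa]
  · intro v
    rw [d2.m INS (by decide), c3.m INS (by decide)]
    exact b1 v
  · rw [d2.r rkp (by decide), c3.r rkp (by decide), b2.r rkp (by decide), a1]
  · rw [d2.r rlim (by decide), c3.r rlim (by decide), b2.r rlim (by decide), a2]
  · intro v hv hd
    rw [d1 v, c1 v (hmemAL v hv hd), hDEG2, hP.a.deg v, ← sub_dp hP.inn hnd hlt]
    congr 2
    apply List.map_congr_left
    intro w hw
    rw [hOFA, hADA]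
    exact adA_count hP (hlt w hw) hd
  · exact ⟨fun v => by rw [s4m MU (by decide)]; exact hcl.mu v,
      fun v => by rw [s4m MM (by decide)]; exact hcl.mm v,
      fun v => by rw [s4m CN (by decide)]; exact hcl.cn v,
      fun v => by rw [s4m FL (by decide)]; exact hcl.fl v,
      fun v => by rw [s4m CM (by decide)]; exact hcl.cm v,
      by rw [s4r rnU (by decide)]; exact hcl.nU,
      by rw [s4r rnp (by decide)]; exact hcl.np,
      by rw [s4r rnM (by decide)]; exact hcl.nM⟩
  · rw [d2.r rst (by decide), c3.r rst (by decide), b2.r rst (by decide), a3.r rst (by decide),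
      e0st]
  · intro v hv hd
    rw [d2.m RM (by decide)]
    exact c2 v (hmemAL v hv hd)

/-- removal of the marks of `S` at the end of a node -/
theorem pEnd_spec {s : St} (h : NS n m k G D S s) (hc : CL s) :
    Tri s (.for_ ri (K 0) rt (.put INS (A SA (V ri)) (K 0))) (50 * (k + 1)) (fun s' =>
      N0 n m k G D S s') := by
  refine (Tri.fr (ins_loop (S := S) (c := 0) (f := fun v => if v ∈ S then 1 else 0) h.sa
    h.ins)).mono ?_ ?_
  · have := h.len
    omega
  · rintro s' ⟨h1, h2⟩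
    refine ⟨h.prep, h.agr.fr h2 (by decide) (by decide), ?_, h.nd, h.lt, h.len, ?_,
      hc.fr h2 (by decide) (by decide)⟩
    · rw [h2.m SA (by decide), h2.r rt (by decide)]; exact h.sa
    · intro v
      rw [h1 v]
      split_ifs <;> rfl

end TL
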