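import Pool.Agent.W_3fea_h44.NLowDefs
import Pool.Agent.W_3fea_h44.NLowArg
import Pool.Agent.W_3fea_h44.NExam
import Pool.Agent.W_3fea_h44.NClean
import Pool.Agent.W_3fea_h44.NRemove
import Pool.Agent.W_3fea_h44.NBranch

/-! # Specification of `pLow` -/

namespace TL

open Relation Finset Classical

variable {n m k : ℕ} {G : SimpleGraph ℕ} {D : St} {S : List ℕ} {stk : List (ℕ × ℕ)}

theorem lc_num (k d u q : ℕ) (hu : u ≤ d) (hq : q ≤ 5 * k + 3) :
    (d + k + 1) * (50 * (d + 1) + 40) + 500 * (u * (4 * k + 2) + (k + 1) * (4 * k + 2)) +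
      500 * ((2 * k + 1) * (8 * k + 4)) * (u + 6 * k + 5) + 50 * (u + q + 1) + 100 ≤
    10000 * (8 * k + 8) ^ 3 * (d + k + 2) ^ 2 := by
  obtain ⟨X, hX⟩ : ∃ X, X = 8 * k + 8 := ⟨_, rfl⟩
  obtain ⟨Y, hY⟩ : ∃ Y, Y = d + k + 2 := ⟨_, rfl⟩
  rw [← hX, ← hY]
  have hX1 : 1 ≤ X := by omega
  have hY1 : 1 ≤ Y := by omega
  obtain ⟨P, hP⟩ : ∃ P, P = X ^ 3 := ⟨_, rfl⟩
  obtain ⟨R, hR⟩ : ∃ R, R = Y ^ 2 := ⟨_, rfl⟩
  rw [← hP, ← hR]
  have x1 : 1 ≤ P := by rw [hP]; exact Nat.one_le_pow _ _ hX1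
  have x2 : X ≤ P := by rw [hP]; exact Nat.le_self_pow (by omega) X
  have x3 : X * X ≤ P := by
    have : P = X * X * X := by rw [hP]; ring
    rw [this]; exact Nat.le_mul_of_pos_right _ hX1
  have y1 : 1 ≤ R := by rw [hR]; exact Nat.one_le_pow _ _ hY1
  have y2 : Y ≤ R := by rw [hR]; exact Nat.le_self_pow (by omega) Y
  have b1 : (d + k + 1) * (50 * (d + 1) + 40) ≤ Y * (100 * Y) :=
    Nat.mul_le_mul (by omega) (by omega)
  have b2 : u * (4 * k + 2) ≤ X * Y := by
    rw [Nat.mul_comm X Y]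
    exact Nat.mul_le_mul (by omega) (by omega)
  have b3 : (k + 1) * (4 * k + 2) ≤ X * X := Nat.mul_le_mul (by omega) (by omega)
  have b4 : ((2 * k + 1) * (8 * k + 4)) * (u + 6 * k + 5) ≤ (X * X) * (X + Y) :=
    Nat.mul_le_mul (Nat.mul_le_mul (by omega) (by omega)) (by omega)
  have c1 : Y * (100 * Y) ≤ 100 * (P * R) := by
    have : Y * (100 * Y) = 100 * (1 * R) := by rw [hR]; ring
    rw [this]
    exact Nat.mul_le_mul_left _ (Nat.mul_le_mul_right _ x1)
  have c2 : X * Y ≤ P * R := Nat.mul_le_mul x2 y2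
  have c3 : X * X ≤ P * R := by
    have := Nat.mul_le_mul x3 y1
    rwa [Nat.mul_one] at this
  have c4 : (X * X) * (X + Y) ≤ 2 * (P * R) := by
    have e : (X * X) * (X + Y) = P * 1 + (X * X) * Y := by rw [hP]; ring
    rw [e]
    have h1 : P * 1 ≤ P * R := Nat.mul_le_mul_left _ y1
    have h2 : (X * X) * Y ≤ P * R := Nat.mul_le_mul x3 y2
    omega
  have c5 : X ≤ P * R := by
    have := Nat.mul_le_mul x2 y1
    rwa [Nat.mul_one] at this
  have c6 : Y ≤ P * R := by
    have := Nat.mul_le_mul x1 y2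
    rwa [Nat.one_mul] at this
  have e1 : 500 * ((2 * k + 1) * (8 * k + 4)) * (u + 6 * k + 5) =
    500 * (((2 * k + 1) * (8 * k + 4)) * (u + 6 * k + 5)) := Nat.mul_assoc _ _ _
  have e2 : 10000 * P * R = 10000 * (P * R) := Nat.mul_assoc _ _ _
  rw [e1, e2]
  obtain ⟨Z, hZ⟩ : ∃ Z, Z = P * R := ⟨_, rfl⟩
  rw [← hZ] at c1 c2 c3 c4 c5 c6 ⊢
  have c7 : 1 ≤ Z := by omega
  have c8 : u + q + 1 ≤ X + Y := by omega
  clear hZ hP hR x1 x2 x3 y1 y2 e1 e2 hX hY
  generalize (d + k + 1) * (50 * (d + 1) + 40) = A1 at *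
  generalize u * (4 * k + 2) = A2 at *
  generalize (k + 1) * (4 * k + 2) = A3 at *
  generalize (2 * k + 1) * (8 * k + 4) * (u + 6 * k + 5) = A4 at *
  generalize Y * (100 * Y) = A5 at *
  generalize X * X * (X + Y) = A6 at *
  generalize X * X = A7 at *
  generalize X * Y = A8 at *
  generalize u + q + 1 = A9 at *
  omega

theorem xe_le {D : St} (hP : Prep n m k G D) {c u : ℕ} {S : Finset ℕ} (hc : c < n)
    (hu : (Uc n G S c).card ≤ u) :
    xe n k G D S c ≤ 500 * (u * (4 * k + 2) + (k + 1) * (4 * k + 2)) := by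
  unfold xe
  refine Nat.mul_le_mul_left _ (Nat.add_le_add_right ?_ _)
  refine (Finset.sum_le_card_nsmul _ _ (4 * k + 2) ?_).trans ?_
  · intro a ha
    have := hP.b.len a (Uc_lt hP.inn hc a ha)
    omega
  · rw [smul_eq_mul]
    exact Nat.mul_le_mul_right _ hu

theorem pLow_spec {EX : List (Finset ℕ × ℕ)} {VS : Finset (Finset ℕ)}
    {recs : ℕ → List (List ℕ)} {s : St} {x : ℕ} (h : AS n m k G D S stk EX VS recs s)
    (hx : s.r rx = x) (hxn : x < n) (hxS : x ∉ S) (hd : dg n G x < D.r rD) :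
    Trt s pLow (fun t s' =>
      (AS n m k G D S stk EX VS recs s' ∧ LowOK n k G S x ∧ t ≤ lc k) ∨
      (BS n m k G D S stk EX VS recs s' ∧ t ≤ lc k + bc k D)) := by
  have hP := h.ns.prep
  have hG := hP.inn
  have hcard : S.toFinset.card = S.length := List.toFinset_card_of_nodup h.ns.nd
  have hSk := h.ns.len
  have hxS' : x ∉ S.toFinset := by simpa using hxS
  rw [hP.a.rD_] at hd
  unfold pLow
  refine Trt.app 6 (low_arg h.ns hx hxn hxS hd).fr ?_
  rintro s1 t1 ⟨⟨harg, hbd⟩, hf1⟩ ht1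
  have h1 : AS n m k G D S stk EX VS recs s1 := h.fr hf1 (by decide) (by decide)
  obtain ⟨c, hc⟩ : ∃ c, s1.r rc = c := ⟨_, rfl⟩
  rw [hc] at harg hbd
  have hcn : c < n := by
    rcases harg.mem with h' | h'
    · rw [h']; exact hxn
    · exact hG.right h'
  have hcS : c ∉ S := by simpa using harg.notin
  have hdel : s1.r rdel = dl k := by rw [h1.ns.agr.r rdel (by decide), hP.a.rdel_]
  have hx1 : s1.r rx = x := by rw [hf1.r rx (by decide), hx]
  have hnum := lc_num k (dl k)
  refine Trt.cons (Trt.ite ?_ ?_)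
  · intro hb
    simp only [Cond.ev_lt, Exp.ev_reg, hbd, hdel, decide_eq_true_eq] at hb
    have hUc : (Uc n G S.toFinset c).card ≤ dl k := by rw [card_Uc hG]; omega
    refine Trt.cons ((pExam_spec h1.ns h1.cl hc hcn hcS).fr.imp ?_)
    rintro t2 s2 ⟨⟨M, fl, hxs, htest, hfl, hfl2, ht2⟩, hf2⟩
    have hxe := xe_le hP (S := S.toFinset) hcn hUc
    have hxn' : xn k (Uc n G S.toFinset c).card =
      500 * ((2 * k + 1) * (8 * k + 4)) * ((Uc n G S.toFinset c).card + 6 * k + 5) := rfl
    have hstk2 : Stk s2 stk := h1.stk.fr hf2 (by decide) (by decide) (by decide)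
    have hst2 : s2.r rst = 0 := by rw [hf2.r rst (by decide), h1.st]
    have hmemo2 : MemoR n recs s2 := h1.memo.fr hf2 (by decide) (by decide) (by decide)
    have hx2 : s2.r rx = x := by rw [hf2.r rx (by decide), hx1]
    refine Trt.cons (Trt.ite ?_ ?_)
    · intro hb2
      simp only [Cond.ev_not, Cond.ev_eq, Exp.ev_reg, Exp.ev_const, hxs.nM, Bool.not_eq_true',
        decide_eq_false_iff_not, List.length_eq_zero_iff] at hb2
      refine ((pBranch_spec (hxs.ts htest) hx2 hstk2).fr.trt.imp ?_)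
      rintro t3 s3 ⟨ht3, ⟨Q, hclo, hpq, hmm, hst, hs1, hs2⟩, hf3⟩
      have hns3 : NS n m k G D S s3 := hxs.ns.fr hf3 (by decide) (by decide)
      have hxs3 : seg (s3.m UL) 0 (s3.r rnU) = uL D S c := by
        rw [hf3.m UL (by decide), hf3.r rnU (by decide)]; exact hxs.ul
      refine Trt.cons ((pClean_spec hxs3 hpq hns3.sa ?_ ?_ ?_).fr.trt.imp ?_)
      · intro v hv
        rw [hf3.m MU (by decide), hxs.mu, ind, if_neg hv]
      · intro v hv
        rw [hmm, ind, if_neg hv]
      · intro v hv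
        rw [hf3.m FL (by decide), hxs.fl, if_neg (fun h' => hv (hfl v h'))]
      rintro t4 s4 ⟨ht4, ⟨g1, g2, g3, g4, g5, g6⟩, hf4⟩
      refine Trt.nil (Trt.nil ?_)
      right
      have hns4 : NS n m k G D S s4 := hns3.fr hf4 (by decide) (by decide)
      have hlenQ : Q.length ≤ 4 * k + 2 := by
        have := hclo.length_le (kp := k - S.length) htest
        omega
      have htest' : IsTest G S.toFinset (Uc n G S.toFinset c) (2 * (k - S.toFinset.card) + 1) M := by
        rw [hcard]; exact htest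
      have hclo' : IsClo G S.toFinset (Uc n G S.toFinset c) (k - S.toFinset.card) M Q := by
        rw [hcard]; exact hclo
      refine ⟨⟨hns4, ⟨g1, g2, ?_, g3, ?_, g4, g5, g6⟩, ⟨⟨x, hxn, hxS, ?_⟩, x :: c :: Q, ?_, ?_, ?_,
        ?_, ?_⟩, ?_, ?_, h.log, h.vs⟩, ?_⟩
      · intro v; rw [hf4.m CN (by decide), hf3.m CN (by decide), hxs.cn]
      · intro v; rw [hf4.m CM (by decide), hf3.m CM (by decide), hxs.cm]
      · exact IsTest.not_dom hG hxn hxS' harg hb2 htest
      · intro hlt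
        exact (hs1 hlt).fr hf4 (by decide) (by decide) (by decide)
      · intro hlt
        exact (hs2 hlt).fr hf4 (by decide) (by decide) (by decide)
      · simp only [List.length_cons]; omega
      · intro y hy
        have := IsClo.out hG hxn hxS' harg htest hclo y hy
        exact ⟨this.1, by simpa using this.2⟩
      · intro hsol
        exact branch hG hxn hxS' harg hb2 htest' hclo' hsol
      · rw [hf4.r rst (by decide), hst]
      · exact (hmemo2.fr hf3 (by decide) (by decide) (by decide)).fr hf4 (by decide) (by decide)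
          (by decide)
      · rw [if_neg hb2, hxn'] at ht2
        have hUlen : (uL D S c).length ≤ dl k := by
          rw [uL_length hP hcn]; omega
        have := hnum (dl k) (Q.length + S.length) le_rfl (by omega)
        have h5 : 500 * ((2 * k + 1) * (8 * k + 4)) * ((Uc n G S.toFinset c).card + 6 * k + 5) ≤
          500 * ((2 * k + 1) * (8 * k + 4)) * (dl k + 6 * k + 5) :=
          Nat.mul_le_mul_left _ (by omega)
        simp only [Cond.cost, Exp.cost]
        unfold lc
        omega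
    · intro hb2
      simp only [Cond.ev_not, Cond.ev_eq, Exp.ev_reg, Exp.ev_const, hxs.nM, Bool.not_eq_false',
        decide_eq_true_eq, List.length_eq_zero_iff] at hb2
      subst hb2
      refine ⟨s2, 1, Run.skip s2, ?_⟩
      refine Trt.cons ((pClean_spec hxs.ul hxs.pq hxs.ns.sa ?_ ?_ ?_).fr.trt.imp ?_)
      · intro v hv
        rw [hxs.mu, ind, if_neg hv]
      · intro v hv
        rw [hxs.mm, ind, if_neg hv]
      · intro v hv
        rw [hxs.fl, if_neg (fun h' => hv (hfl v h'))]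
      rintro t4 s4 ⟨ht4, ⟨g1, g2, g3, g4, g5, g6⟩, hf4⟩
      refine Trt.nil (Trt.nil ?_)
      left
      refine ⟨⟨hxs.ns.fr hf4 (by decide) (by decide), ⟨g1, g2, ?_, g3, ?_, g4, g5, g6⟩,
        hstk2.fr hf4 (by decide) (by decide) (by decide), ?_,
        hmemo2.fr hf4 (by decide) (by decide) (by decide), h.log, h.vs⟩, ?_, ?_⟩
      · intro v; rw [hf4.m CN (by decide), hxs.cn]
      · intro v; rw [hf4.m CM (by decide), hxs.cm]
      · rw [hf4.r rst (by decide), hst2]
      · exact Or.inl (IsTest.dom hG hxn hxS' harg (by omega) htest).2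
      · rw [if_pos rfl] at ht2
        have hUlen : (uL D S c).length ≤ dl k := by
          rw [uL_length hP hcn]; omega
        have := hnum (dl k) S.length le_rfl (by omega)
        simp only [Cond.cost, Exp.cost]
        simp only [flat_nil, List.length_nil] at ht4
        unfold lc
        omega
  · intro hb
    simp only [Cond.ev_lt, Exp.ev_reg, hbd, hdel, decide_eq_false_iff_not, not_lt] at hb
    refine ⟨s1, 1, Run.skip s1, Trt.nil ?_⟩
    left
    refine ⟨h1, Or.inr ⟨c, hcS, harg.mem, hb⟩, ?_⟩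
    have := hnum 0 0 (by omega) (by omega)
    simp only [Cond.cost, Exp.cost]
    unfold lc
    omega

end TL
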