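import Pool.Agent.W_3fea_h44.NTreatDefs

/-! # Cost and conclusion of `pLow` -/

namespace TL

open Relation Finset Classical

/-- cost of `pLow` without the branching -/
def lc (k : ℕ) : ℕ := 10000 * (8 * k + 8) ^ 3 * (dl k + k + 2) ^ 2

/-- conclusion of an unsuccessful search at `x` -/
def LowOK (n k : ℕ) (G : SimpleGraph ℕ) (S : List ℕ) (x : ℕ) : Prop :=
  Dom G S.toFinset x ∨ ∃ v, v ∉ S ∧ (v = x ∨ G.Adj x v) ∧ dl k ≤ dp n G S.toFinset v

end TL
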