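import Pool.Agent.W_3fea_h44.NLow

/-! # Specification of `pLowloop` -/

namespace TL

open Relation Finset Classical

variable {n m k : ℕ} {G : SimpleGraph ℕ} {D : St} {S : List ℕ} {stk : List (ℕ × ℕ)}

/-- registers whose values matter for `AS` and `BS` -/
def lowlR : List ℕ := nsR ++ clR ++ [rsp, rst, rmb]
/-- arrays whose values matter for `AS` and `BS` -/
def lowlA : List ℕ := nsA ++ clA ++ [SV, SD, MP, MB]

theorem AS.lowl_fr {EX : List (Finset ℕ × ℕ)} {VS : Finset (Finset ℕ)}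
    {recs : ℕ → List (List ℕ)} {s s' : St} {wr wa : List ℕ}
    (h : AS n m k G D S stk EX VS recs s) (hf : Fr wr wa s s')
    (h1 : ∀ x ∈ lowlR, x ∉ wr) (h2 : ∀ a ∈ lowlA, a ∉ wa) :
    AS n m k G D S stk EX VS recs s' where
  ns := h.ns.fr hf (fun x hx => h1 x (by simp [lowlR, hx])) (fun a ha => h2 a (by simp [lowlA, ha]))
  cl := h.cl.fr hf (fun x hx => h1 x (by simp [lowlR, hx])) (fun a ha => h2 a (by simp [lowlA, ha]))
  stk := h.stk.fr hf (h1 _ (by decide)) (h2 _ (by decide)) (h2 _ (by decide))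
  st := (hf.r rst (h1 _ (by decide))).trans h.st
  memo := h.memo.fr hf (h1 _ (by decide)) (h2 _ (by decide)) (h2 _ (by decide))
  log := h.log
  vs := h.vs

theorem lowl_c1 {s : St} {a b c : ℕ} :
    (Cond.and (.lt (V a) (V b)) (.eq (V c) (K 0))).ev s = true ↔ s.r a < s.r b ∧ s.r c = 0 := by
  show (decide (s.r a < s.r b) && decide (s.r c = 0)) = true ↔ _
  rw [Bool.and_eq_true, decide_eq_true_iff, decide_eq_true_iff]

theorem lowl_c1f {s : St} {a b c : ℕ} :
    (Cond.and (.lt (V a) (V b)) (.eq (V c) (K 0))).ev s = false ↔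
      ¬ (s.r a < s.r b) ∨ ¬ (s.r c = 0) := by
  rw [← not_and_or, ← lowl_c1, Bool.not_eq_true]

theorem lowl_c2 {s : St} {a b c d e : ℕ} :
    (Cond.and (.eq (A a (V b)) (K 0)) (.lt (A c (V d)) (V e))).ev s = true ↔
      s.m a (s.r b) = 0 ∧ s.m c (s.r d) < s.r e := by
  show (decide (s.m a (s.r b) = 0) && decide (s.m c (s.r d) < s.r e)) = true ↔ _
  rw [Bool.and_eq_true, decide_eq_true_iff, decide_eq_true_iff]

theorem lowl_c2f {s : St} {a b c d e : ℕ} :
    (Cond.and (.eq (A a (V b)) (K 0)) (.lt (A c (V d)) (V e))).ev s = false ↔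
      ¬ (s.m a (s.r b) = 0) ∨ ¬ (s.m c (s.r d) < s.r e) := by
  rw [← not_and_or, ← lowl_c2, Bool.not_eq_true]

theorem lowl_c3 {s : St} {c d e : ℕ} :
    (Cond.lt (A c (V d)) (V e)).ev s = true ↔ s.m c (s.r d) < s.r e := by
  show decide (s.m c (s.r d) < s.r e) = true ↔ _
  rw [decide_eq_true_iff]

theorem lowl_c3f {s : St} {c d e : ℕ} :
    (Cond.lt (A c (V d)) (V e)).ev s = false ↔ ¬ (s.m c (s.r d) < s.r e) := by
  rw [← lowl_c3, Bool.not_eq_true]

/-- the inner loop of `pLowloop` -/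
def lowlIn : Cmd :=
  .loop (.and (.lt (V rl) (V rqd)) (.eq (V rst) (K 0))) (.blk [
    .set rx (A ADJ (V rl)),
    .incr rl,
    .whn (.and (.eq (A INS (V rx)) (K 0)) (.lt (A DEG (V rx)) (V rD))) pLow])

theorem lowlIn_spec {EX : List (Finset ℕ × ℕ)} {VS : Finset (Finset ℕ)}
    {recs : ℕ → List (List ℕ)} {s : St} (h : AS n m k G D S stk EX VS recs s) {w : ℕ}
    (hw : w < n) (hl : s.r rl = D.m OFF w) (hq : s.r rqd = D.m OFF (w + 1)) :
    Trt s lowlIn (fun t s' => s'.r ri = s.r ri ∧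
      ((AS n m k G D S stk EX VS recs s' ∧
        (∀ y, G.Adj w y → y ∉ S → dg n G y < D.r rD → LowOK n k G S y) ∧
        t ≤ dg n G w * (lc k + 100) + 100) ∨
      (BS n m k G D S stk EX VS recs s' ∧ t ≤ dg n G w * (lc k + 100) + 100 + bc k D))) := by
  have hadj := h.ns.prep.a.adj
  have hlen := hadj.length h.ns.prep.inn hw
  have hmono := hadj.mono w hw
  refine Trt.loop (I := fun t s0 => s0.r ri = s.r ri ∧ s0.r rqd = D.m OFF (w + 1) ∧
    D.m OFF w ≤ s0.r rl ∧ s0.r rl ≤ D.m OFF (w + 1) ∧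
    ((AS n m k G D S stk EX VS recs s0 ∧
      (∀ q, D.m OFF w ≤ q → q < s0.r rl → D.m ADJ q ∉ S → dg n G (D.m ADJ q) < D.r rD →
        LowOK n k G S (D.m ADJ q)) ∧
      t ≤ (s0.r rl - D.m OFF w) * (lc k + 100)) ∨
    (BS n m k G D S stk EX VS recs s0 ∧
      t ≤ (s0.r rl - D.m OFF w) * (lc k + 100) + bc k D)))
    (M := fun s0 => D.m OFF (w + 1) - s0.r rl) ?_ ?_ ?_
  · refine ⟨rfl, hq, by omega, by omega, Or.inl ⟨h, fun q h1 h2 => by omega, by omega⟩⟩
  · rintro t s0 ⟨e1, e2, e3, e4, e5⟩ hb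
    obtain ⟨hb1, hb2⟩ := lowl_c1.1 hb
    rcases e5 with ⟨hA, hLow, ht⟩ | ⟨hB, _⟩
    swap
    · exact absurd (hB.st.symm.trans hb2) (by decide)
    set p := s0.r rl with hp
    set x := D.m ADJ p with hx
    have hmemseg : x ∈ seg (D.m ADJ) (D.m OFF w) (D.m OFF (w + 1)) :=
      mem_seg.2 ⟨p, e3, by omega, rfl⟩
    have hwx : G.Adj w x := (hadj.mem w hw x).1 hmemseg
    have hxn : x < n := by
      exact h.ns.prep.inn.right hwx
    set s2 := (s0.setR rx x).setR rl (p + 1) with hs2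
    have hfr : Fr [rx, rl] [] s0 s2 := by
      refine ⟨fun y hy => ?_, fun a _ => rfl⟩
      simp only [List.mem_cons, List.not_mem_nil, or_false, not_or] at hy
      simp [hs2, hy.1, hy.2]
    have hA2 : AS n m k G D S stk EX VS recs s2 := hA.lowl_fr hfr (by decide) (by decide)
    have hs2x : s2.r rx = x := by simp [hs2]
    have hs2l : s2.r rl = p + 1 := by simp [hs2]
    have hs2i : s2.r ri = s.r ri := by rw [← e1]; exact hfr.r ri (by decide)
    have hs2q : s2.r rqd = D.m OFF (w + 1) := by rw [← e2]; exact hfr.r rqd (by decide)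
    have hADJ : s0.m ADJ = D.m ADJ := hA.ns.agr.m ADJ (by decide)
    have hDEG : s2.m DEG x = dg n G x := by
      rw [hA2.ns.agr.m DEG (by decide)]; exact h.ns.prep.a.deg x
    have hINS : s2.m INS x = if x ∈ S then 1 else 0 := hA2.ns.ins x
    have hrD : s2.r rD = D.r rD := hA2.ns.agr.r rD (by decide)
    -- extension of the conclusion by one vertex
    have hext : (x ∉ S → dg n G x < D.r rD → LowOK n k G S x) →
        ∀ q, D.m OFF w ≤ q → q < p + 1 → D.m ADJ q ∉ S → dg n G (D.m ADJ q) < D.r rD →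
        LowOK n k G S (D.m ADJ q) := by
      intro hh q h1 h2 h3 h4
      rcases Nat.lt_succ_iff_lt_or_eq.1 h2 with h5 | h5
      · exact hLow q h1 h5 h3 h4
      · subst h5; exact hh h3 h4
    have hpp : p + 1 - D.m OFF w = (p - D.m OFF w) + 1 := by omega
    refine Trt.cons ⟨s0.setR rx x, 3, ?_, ?_⟩
    · have := Run.set rx (A ADJ (V rl)) s0
      simp only [Exp.ev_get, Exp.ev_reg, Exp.cost, hADJ] at this
      exact this
    refine Trt.cons ⟨s2, 3, ?_, ?_⟩
    · have := Run.set rl (.inc (V rl)) (s0.setR rx x)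
      simpa [Exp.cost] using this
    refine Trt.cons (Trt.ite (fun hc => ?_) (fun hc => ?_))
    · obtain ⟨hc1, hc2⟩ := lowl_c2.1 hc
      rw [hs2x, hINS] at hc1
      rw [hs2x, hDEG, hrD] at hc2
      have hxS : x ∉ S := by
        intro hmem; rw [if_pos hmem] at hc1; omega
      refine ((pLow_spec hA2 hs2x hxn hxS hc2).fr).imp ?_
      rintro u s3 ⟨h3, hf3⟩
      have e31 : s3.r ri = s.r ri := (hf3.r ri (by decide)).trans hs2i
      have e32 : s3.r rqd = D.m OFF (w + 1) := (hf3.r rqd (by decide)).trans hs2q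
      have e33 : s3.r rl = p + 1 := (hf3.r rl (by decide)).trans hs2l
      refine Trt.nil ⟨⟨e31, e32, by omega, by omega, ?_⟩, by omega⟩
      rw [e33]
      simp only [Cond.cost, Exp.cost]
      rcases h3 with ⟨a1, a2, a3⟩ | ⟨a1, a3⟩
      · left
        refine ⟨a1, hext (fun _ _ => a2), ?_⟩
        rw [hpp, Nat.succ_mul]; omega
      · right
        refine ⟨a1, ?_⟩
        rw [hpp, Nat.succ_mul]; omega
    · have hc := lowl_c2f.1 hc
      rw [hs2x, hDEG, hINS, hrD] at hc
      refine ⟨s2, 1, Run.skip s2, ?_⟩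
      refine Trt.nil ⟨⟨hs2i, hs2q, by omega, by omega, Or.inl ⟨hA2, ?_, ?_⟩⟩, by omega⟩
      · rw [hs2l]
        refine hext (fun h3 h4 => ?_)
        rw [if_neg h3] at hc
        rcases hc with hc | hc
        · exact absurd rfl hc
        · exact absurd h4 hc
      · rw [hs2l]
        simp only [Cond.cost, Exp.cost]
        rw [hpp, Nat.succ_mul]; omega
  · rintro t s0 ⟨e1, e2, e3, e4, e5⟩ hb
    have hb := lowl_c1f.1 hb
    have hle : (s0.r rl - D.m OFF w) * (lc k + 100) ≤ dg n G w * (lc k + 100) :=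
      Nat.mul_le_mul_right _ (by omega)
    refine ⟨e1, ?_⟩
    rcases e5 with ⟨hA, hLow, ht⟩ | ⟨hB, ht⟩
    · left
      have h1 : s0.r rl = D.m OFF (w + 1) := by
        rcases hb with hb | hb
        · omega
        · exact absurd hA.st hb
      refine ⟨hA, fun y hy hyS hyd => ?_, ?_⟩
      · obtain ⟨q, q1, q2, q3⟩ := mem_seg.1 ((hadj.mem w hw y).2 hy)
        subst q3
        exact hLow q q1 (by omega) hyS hyd
      · simp only [Cond.cost, Exp.cost]; omega
    · right
      refine ⟨hB, ?_⟩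
      simp only [Cond.cost, Exp.cost]; omega

theorem pLowloop_spec {EX : List (Finset ℕ × ℕ)} {VS : Finset (Finset ℕ)}
    {recs : ℕ → List (List ℕ)} {s : St} (h : AS n m k G D S stk EX VS recs s) :
    Trt s pLowloop (fun t s' =>
      ((AS n m k G D S stk EX VS recs s' ∧
        ∀ w ∈ S, dg n G w < D.r rtau → ∀ y, G.Adj w y → y ∉ S → dg n G y < D.r rD →
          LowOK n k G S y) ∨
      BS n m k G D S stk EX VS recs s') ∧
      t ≤ 200 * (k + 1) + k * (D.r rtau * (lc k + 200)) + bc k D) := by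
  have hfr0 : Fr [ri] [] s (s.setR ri 0) := by
    refine ⟨fun y hy => ?_, fun a _ => rfl⟩
    simp only [List.mem_cons, List.not_mem_nil, or_false] at hy
    simp [hy]
  have h0 : AS n m k G D S stk EX VS recs (s.setR ri 0) := h.lowl_fr hfr0 (by decide) (by decide)
  -- length of the list
  have hlenS : ∀ s0 : St, NS n m k G D S s0 → s0.r rt = S.length := by
    intro s0 hs0
    have := congrArg List.length hs0.sa
    simpa using this
  refine Trt.cons ⟨s.setR ri 0, 2, Run.set ri (K 0) s, ?_⟩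
  refine Trt.cons (Trt.loop (I := fun t s0 => s0.r ri ≤ S.length ∧
    ((AS n m k G D S stk EX VS recs s0 ∧
      (∀ i, (hi : i < S.length) → i < s0.r ri → dg n G S[i] < D.r rtau →
        ∀ y, G.Adj S[i] y → y ∉ S → dg n G y < D.r rD → LowOK n k G S y) ∧
      t ≤ s0.r ri * (D.r rtau * (lc k + 100) + 150)) ∨
    (BS n m k G D S stk EX VS recs s0 ∧
      t ≤ s0.r ri * (D.r rtau * (lc k + 100) + 150) + bc k D)))
    (M := fun s0 => S.length - s0.r ri) ?_ ?_ ?_)
  · refine ⟨by simp, Or.inl ⟨h0, fun i hi h1 => ?_, by omega⟩⟩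
    simp at h1
  · rintro t s0 ⟨e1, e2⟩ hb
    obtain ⟨hb1, hb2⟩ := lowl_c1.1 hb
    rcases e2 with ⟨hA, hLow, ht⟩ | ⟨hB, _⟩
    swap
    · exact absurd (hB.st.symm.trans hb2) (by decide)
    have hrt := hlenS s0 hA.ns
    set i := s0.r ri with hi
    have hiS : i < S.length := by omega
    set w := S[i] with hwdef
    have hwS : w ∈ S := List.getElem_mem hiS
    have hwn : w < n := hA.ns.lt w hwS
    have hSA : s0.m SA i = w := by
      have h1 := seg_getElem (s0.m SA) 0 (s0.r rt) i (by simpa using (by omega : i < s0.r rt))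
      simp only [hA.ns.sa] at h1
      rw [hwdef, h1]; simp
    set s2 := (s0.setR rs w).setR ri (i + 1) with hs2
    have hfr : Fr [rs, ri] [] s0 s2 := by
      refine ⟨fun y hy => ?_, fun a _ => rfl⟩
      simp only [List.mem_cons, List.not_mem_nil, or_false, not_or] at hy
      simp [hs2, hy.1, hy.2]
    have hA2 : AS n m k G D S stk EX VS recs s2 := hA.lowl_fr hfr (by decide) (by decide)
    have hs2s : s2.r rs = w := by simp [hs2]
    have hs2i : s2.r ri = i + 1 := by simp [hs2]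
    have hDEG : s2.m DEG w = dg n G w := by
      rw [hA2.ns.agr.m DEG (by decide)]; exact h.ns.prep.a.deg w
    have hrtau : s2.r rtau = D.r rtau := hA2.ns.agr.r rtau (by decide)
    have hext : (dg n G w < D.r rtau → ∀ y, G.Adj w y → y ∉ S → dg n G y < D.r rD →
          LowOK n k G S y) →
        ∀ j, (hj : j < S.length) → j < i + 1 → dg n G S[j] < D.r rtau →
        ∀ y, G.Adj S[j] y → y ∉ S → dg n G y < D.r rD → LowOK n k G S y := by
      intro hh j hj h2
      rcases Nat.lt_succ_iff_lt_or_eq.1 h2 with h5 | h5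
      · exact hLow j hj h5
      · subst h5; exact hh
    refine Trt.cons ⟨s0.setR rs w, 3, ?_, ?_⟩
    · have := Run.set rs (A SA (V ri)) s0
      simp only [Exp.ev_get, Exp.ev_reg, Exp.cost] at this
      rw [← hi, hSA] at this
      exact this
    refine Trt.cons ⟨s2, 3, ?_, ?_⟩
    · have := Run.set ri (.inc (V ri)) (s0.setR rs w)
      simpa [Exp.cost, ← hi] using this
    refine Trt.cons (Trt.ite (fun hc => ?_) (fun hc => ?_))
    · have hc := lowl_c3.1 hc
      rw [hs2s, hDEG, hrtau] at hc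
      set s4 := (s2.setR rl (D.m OFF w)).setR rqd (D.m OFF (w + 1)) with hs4
      have hfr4 : Fr [rl, rqd] [] s2 s4 := by
        refine ⟨fun y hy => ?_, fun a _ => rfl⟩
        simp only [List.mem_cons, List.not_mem_nil, or_false, not_or] at hy
        simp [hs4, hy.1, hy.2]
      have hA4 : AS n m k G D S stk EX VS recs s4 := hA2.lowl_fr hfr4 (by decide) (by decide)
      have hs4i : s4.r ri = i + 1 := (hfr4.r ri (by decide)).trans hs2i
      have hOFF : s2.m OFF = D.m OFF := hA2.ns.agr.m OFF (by decide)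
      have hdle : dg n G w * (lc k + 100) ≤ (D.r rtau - 1) * (lc k + 100) :=
        Nat.mul_le_mul_right _ (by omega)
      have htau : D.r rtau * (lc k + 100) = (D.r rtau - 1) * (lc k + 100) + (lc k + 100) := by
        obtain ⟨T, hT⟩ : ∃ T, D.r rtau = T + 1 := ⟨D.r rtau - 1, by omega⟩
        rw [hT]; simp [Nat.succ_mul]
      refine Trt.cons ⟨s2.setR rl (D.m OFF w), 3, ?_, ?_⟩
      · have := Run.set rl (A OFF (V rs)) s2
        simp only [Exp.ev_get, Exp.ev_reg, Exp.cost, hOFF, hs2s] at this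
        exact this
      refine Trt.cons ⟨s4, 4, ?_, ?_⟩
      · have := Run.set rqd (A OFF (.inc (V rs))) (s2.setR rl (D.m OFF w))
        simpa [Exp.cost, hOFF, hs2s] using this
      refine Trt.cons ((lowlIn_spec hA4 hwn (by simp [hs4]) (by simp [hs4])).imp ?_)
      rintro u s5 ⟨a0, a⟩
      rw [hs4i] at a0
      refine Trt.nil (Trt.nil ⟨⟨by omega, ?_⟩, by omega⟩)
      rw [a0]
      simp only [Cond.cost, Exp.cost]
      rcases a with ⟨a1, a2, a3⟩ | ⟨a1, a3⟩
      · left
        refine ⟨a1, hext (fun _ => a2), ?_⟩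
        rw [Nat.succ_mul]; omega
      · right
        refine ⟨a1, ?_⟩
        rw [Nat.succ_mul]; omega
    · have hc := lowl_c3f.1 hc
      rw [hs2s, hDEG, hrtau] at hc
      refine ⟨s2, 1, Run.skip s2, ?_⟩
      refine Trt.nil ⟨⟨by omega, Or.inl ⟨hA2, ?_, ?_⟩⟩, by omega⟩
      · rw [hs2i]
        exact hext (fun h3 => absurd h3 hc)
      · rw [hs2i]
        simp only [Cond.cost, Exp.cost]
        rw [Nat.succ_mul]; omega
  · rintro t s0 ⟨e1, e2⟩ hb
    have hb := lowl_c1f.1 hb
    have hSk : S.length ≤ k := h.ns.len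
    have hle : s0.r ri * (D.r rtau * (lc k + 100) + 150) ≤
        k * (D.r rtau * (lc k + 200)) + 150 * k := by
      calc s0.r ri * (D.r rtau * (lc k + 100) + 150) ≤ k * (D.r rtau * (lc k + 100) + 150) :=
            Nat.mul_le_mul_right _ (by omega)
        _ ≤ k * (D.r rtau * (lc k + 200) + 150) := by gcongr; omega
        _ = k * (D.r rtau * (lc k + 200)) + 150 * k := by ring
    refine Trt.nil ⟨?_, ?_⟩
    · rcases e2 with ⟨hA, hLow, ht⟩ | ⟨hB, ht⟩
      · left
        have hrt := hlenS s0 hA.ns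
        have h1 : s0.r ri = S.length := by
          rcases hb with hb | hb
          · omega
          · exact absurd hA.st hb
        refine ⟨hA, fun w hw => ?_⟩
        obtain ⟨j, hj, rfl⟩ := List.getElem_of_mem hw
        exact hLow j hj (by omega)
      · exact Or.inr hB
    · simp only [Cond.cost, Exp.cost]
      rcases e2 with ⟨hA, hLow, ht⟩ | ⟨hB, ht⟩ <;> omega

end TL
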