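import Pool.Agent.W_3fea_h44.NodeDefs
import Pool.Agent.W_3fea_h44.PAdj
import Pool.Agent.W_3fea_h44.Aux82

/-! # Specification of `pMarkU` -/

namespace TL

open Relation Finset Classical

variable {n m k : ℕ} {G : SimpleGraph ℕ} {D : St} {S : List ℕ} {c : ℕ}

theorem ind_append_one (l : List ℕ) (y v : ℕ) :
    Function.update (ind l) y 1 v = ind (l ++ [y]) v := by
  rw [Function.update_apply]
  unfold ind
  by_cases h : v = y <;> simp [h]

theorem pMarkU_spec {s : St} (h : NS n m k G D S s) (hcl : CL s) (hc : s.r rc = c) (hcn : c < n)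
    (hcS : c ∉ S) :
    Tri s pMarkU (100 * ((Uc n G S.toFinset c).card + k + 1))
      (fun s' => XS n m k G D S c [] (fun _ => 0) (fun _ => False) s') := by
  have hoff : s.m OFF = D.m OFF := h.agr.m OFF (by decide)
  have hadj : s.m ADJ = D.m ADJ := h.agr.m ADJ (by decide)
  have hmono : D.m OFF c ≤ D.m OFF (c + 1) := h.prep.a.adj.mono c hcn
  unfold pMarkU
  refine (Tri.pre 4 rfl (fun s1 hs1 hf1 => ?_)).cost (B := _ + (5 + 5 + (D.m OFF (c + 1) - D.m OFF c) * (20 + 7) + 1)) ?_
  · have e1 : s1.r rhi = D.m OFF (c + 1) := by simp [hs1, hc, hoff]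
    have e2 : s1.r rnU = 1 := by simp [hs1]
    have e3 : s1.m UL 0 = c := by simp [hs1, hc]
    have e4 : ∀ v, s1.m MU v = ind [c] v := by
      intro v
      simp only [hs1, hc, ind]
      by_cases hv : v = c <;> simp [hv, hc, Function.update_apply, hcl.mu]
    have e5 : s1.r rc = c := by simp [hs1, hc]
    have e6 : s1.m OFF = D.m OFF := by simp [hs1, hoff]
    have e7 : s1.m ADJ = D.m ADJ := by simp [hs1, hadj]
    have e8 : s1.m INS = s.m INS := by simp [hs1]
    refine Tri.cons (B1 := 5 + 5 + (D.m OFF (c + 1) - D.m OFF c) * (20 + 7)) (B2 := 1)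
      ((Tri.forC (fun j s' => seg (s'.m UL) 0 (s'.r rnU) =
        c :: (seg (D.m ADJ) (D.m OFF c) j).filter (fun y => decide (y ∉ S)) ∧
        (∀ v, s'.m MU v = ind (c :: (seg (D.m ADJ) (D.m OFF c) j).filter
          (fun y => decide (y ∉ S))) v) ∧ Fr [ry, rnU, rp] [UL, MU] s1 s') 20
          (a := D.m OFF c) (N := D.m OFF (c + 1)) (by decide) (by simp [e5, e6]) e1 hmono
          ⟨?_, ?_, (Fr.refl s1).setR (by decide)⟩ ?_ ?_).cost ?_) le_rfl
    · simp [e2, e3, seg, hc]
    · simp [e4]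
    · rintro j hj1 hj2 s2 ⟨i1, i2, i3⟩ hp hhi
      have f1 : s2.m ADJ = D.m ADJ := by rw [i3.m ADJ (by decide), e7]
      have f2 : s2.m INS = s.m INS := by rw [i3.m INS (by decide), e8]
      have f3 : s2.m INS (D.m ADJ j) = if D.m ADJ j ∈ S then 1 else 0 := by rw [f2, h.ins]
      by_cases hy : D.m ADJ j ∈ S
      · refine Tri.lf' rfl ⟨⟨?_, ?_, ?_⟩, ?_, ?_⟩ ?_
        · simp [f1, f3, hp, hy, seg_succ _ hj1, i1]
        · simp [f1, f3, hp, hy, seg_succ _ hj1, i2]
        · exact (i3.ex rfl (by decide) (by decide)).setR (by decide)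
        · simp [f1, f3, hp, hy]
        · simp [f1, f3, hp, hy, hhi]
        · simp [Cmd.mc, Exp.cost, Cond.cost]
      · refine Tri.lf' rfl ⟨⟨?_, ?_, ?_⟩, ?_, ?_⟩ ?_
        · simp [f1, f3, hp, hy, seg_succ _ hj1, seg_push, i1]
        · intro v
          have := ind_append_one (c :: (seg (D.m ADJ) (D.m OFF c) j).filter
            (fun y => decide (y ∉ S))) (D.m ADJ j) v
          have e : s2.m MU = ind (c :: (seg (D.m ADJ) (D.m OFF c) j).filter
            (fun y => decide (y ∉ S))) := funext i2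
          simpa [f1, f3, hp, hy, seg_succ _ hj1, e] using this
        · exact (i3.ex rfl (by decide) (by decide)).setR (by decide)
        · simp [f1, f3, hp, hy]
        · simp [f1, f3, hp, hy, hhi]
        · simp [Cmd.mc, Exp.cost, Cond.cost]
    · rintro s2 ⟨i1, i2, i3⟩ hp hhi
      refine Tri.nil ?_ le_rfl
      have hf : Fr [ry, rnU, rp, rhi] [UL, MU] s s2 :=
        (hf1.mono (by decide) (by decide)).trans (i3.mono (by decide) (by decide))
      have hu : uL D S c = c :: (seg (D.m ADJ) (D.m OFF c) (D.m OFF (c + 1))).filter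
            (fun y => decide (y ∉ S)) := rfl
      refine ⟨h.fr hf (by decide) (by decide), ?_, hcn, by simpa using hcS, ?_, ?_, ?_, ?_, ?_, ?_, ?_, ?_, ?_, ?_⟩
      · rw [hf.r rc (by decide), hc]
      · rw [i1, hu]
      · rw [hu]; exact i2
      · rw [hf.r rnp (by decide), hcl.np]; simp
      · rw [hf.r rnM (by decide), hcl.nM]; rfl
      · intro v; rw [hf.m MM (by decide), hcl.mm]; simp [ind]
      · exact ⟨by simp, by simp⟩
      · simp
      · intro v; rw [hf.m CN (by decide), hcl.cn]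
      · intro v; rw [hf.m FL (by decide), hcl.fl]; simp
      · intro v; rw [hf.m CM (by decide), hcl.cm]
    · simp [Exp.cost]
  · have h1 := h.prep.a.adj
    have h2 : D.m OFF (c + 1) - D.m OFF c = dg n G c := AdjP.length h.prep.inn h1 hcn
    have h3 := dg_le_dp (n := n) (G := G) (S := S.toFinset) c
    have h4 := card_Uc (S := S.toFinset) h.prep.inn c
    have h5 : S.toFinset.card ≤ k := (List.toFinset_card_le S).trans h.len
    rw [h2, h4]
    simp [Cmd.mc, Exp.cost]
    omega

end TL
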