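import Pool.Agent.W_3fea_h44.NMemoDefs

/-! # Specification of `pMemoAdd` -/

namespace TL

open Relation Finset Classical

variable {n : ℕ} {S : List ℕ} {c : ℕ}

theorem Chn.ext {mb mb' : ℕ → ℕ} {top top' : ℕ} (hb : ∀ p < top, mb' p = mb p)
    (ht : top ≤ top') {q : ℕ} {l : List (List ℕ)} (h : Chn mb top q l) : Chn mb' top' q l := by
  induction h with
  | nil => exact Chn.nil
  | cons q W rest h1 h2 h3 h4 _ ih =>
    have hq : mb' q = mb q := hb q (by omega)
    refine Chn.cons q W rest h1 ?_ ?_ (by omega) ?_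
    · rw [← h2]
      exact seg_congr (fun p _ hp => hb p (by omega))
    · rw [hb _ h4]; exact h3
    · rw [hq]; exact ih

theorem pMemoAdd_spec {s : St} {recs : ℕ → List (List ℕ)} (h : MemoR n recs s)
    (hS : seg (s.m SA) 0 (s.r rt) = S) {fl : ℕ → Prop}
    (hfl : ∀ v, s.m FL v = if fl v then 1 else 0) (hc : s.r rc = c) (hcn : c < n) :
    Tri s pMemoAdd (100 * (S.length + 1)) (fun s' =>
      MemoR n (Function.update recs c (S.filter (fun v => decide (fl v)) :: recs c)) s') := by
  have hlen : S.length = s.r rt := by rw [← hS]; simp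
  obtain ⟨h1, h2⟩ := h
  set top := s.r rmb with htop
  set mb := s.m MB with hmb
  set mp := s.m MP with hmp
  set sa := s.m SA with hsa
  unfold pMemoAdd
  -- first three commands
  refine Tri.cons (B1 := 5) (B2 := 100 * S.length + 90) ?_ (by omega)
  refine (Tri.lf rfl ?_).cost (by decide)
  refine Tri.cons (B1 := 5) (B2 := 100 * S.length + 80) ?_ (by omega)
  refine (Tri.lf rfl ?_).cost (by decide)
  refine Tri.cons (B1 := 5) (B2 := 100 * S.length + 70) ?_ (by omega)
  refine (Tri.lf rfl ?_).cost (by decide)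
  refine Tri.cons (B1 := 100 * S.length + 10) (B2 := 30) ?_ (by omega)
  refine (Tri.forC (I := fun j s' => s'.m SA = sa ∧ s'.m FL = s.m FL ∧ s'.r rt = s.r rt ∧
      s'.m MP = Function.update mp c top ∧
      s'.r rmb = top + 1 + ((seg sa 0 j).filter (fun v => decide (fl v))).length ∧
      (∀ p < top, s'.m MB p = mb p) ∧ s'.m MB top = mp c ∧
      seg (s'.m MB) (top + 1) (s'.r rmb) =
        ((seg sa 0 j).filter (fun v => decide (fl v))).map (· + 1))
    (B := 60) (a := 0) (N := s.r rt) (by decide) (by simp) (by simp) (by omega) ?_ ?_ ?_).cost ?_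
  · simp only [Cmd.ex_put, Cmd.ex_set, St.setR_r, St.setR_m, St.setM_r, St.setM_m, Exp.ev_reg,
      Exp.ev_inc, Exp.ev_get]
    refine ⟨by simp [hsa], by simp, by simp, ?_, ?_, ?_, ?_, ?_⟩
    · simp [hc, ← hmp, htop]
    · simp [htop]
    · intro p hp
      simp only [show (MB : ℕ) ≠ MP by decide, if_true, if_false, Function.update_apply]
      rw [if_neg (by omega)]
    · simp [hc, ← hmp, htop]
    · simp [htop]
  · rintro j _ hj s1 ⟨a1, a2, a3, a4, a5, a6, a7, a8⟩ hrj _
    refine (Tri.lf rfl ?_).cost (by decide)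
    have e1 : seg sa 0 (j + 1) = seg sa 0 j ++ [sa j] := seg_succ _ (Nat.zero_le _)
    by_cases hf : fl (sa j)
    · have : s1.m FL (sa j) = 1 := by rw [a2, hfl, if_pos hf]
      simp only [Cmd.ex_cons, Cmd.ex_nil, Cmd.ex_set, Cmd.ex_ite, Cmd.ex_put, Cmd.ex_skip, St.setR_r,
        St.setR_m, St.setM_r, St.setM_m, Exp.ev_reg, Exp.ev_inc, Exp.ev_get, Exp.ev_const,
        Cond.ev_eq, hrj, a1, if_true, this, decide_true]
      refine ⟨⟨by simp [a1], by simp [a2], by simp [a3], ?_, ?_, ?_, ?_, ?_⟩, by simp [hrj], by simp [a3]⟩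
      · simp [a4]
      · simp [a5, e1, List.filter_append, hf]; omega
      · intro p hp
        simp only [show (rmb : ℕ) ≠ rs by decide, if_true, if_false, Function.update_apply]
        rw [if_neg (by omega)]
        exact a6 p hp
      · simp only [show (rmb : ℕ) ≠ rs by decide, if_true, if_false, Function.update_apply]
        rw [if_neg (by omega)]
        exact a7
      · simp only [show (rmb : ℕ) ≠ rs by decide, show (rmb : ℕ) ≠ rj by decide, if_true, if_false]
        rw [seg_succ _ (by omega), seg_update (by omega), a8, e1, List.filter_append, List.map_append]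
        simp [hf]
    · have : s1.m FL (sa j) = 0 := by rw [a2, hfl, if_neg hf]
      simp only [Cmd.ex_cons, Cmd.ex_nil, Cmd.ex_set, Cmd.ex_ite, Cmd.ex_put, Cmd.ex_skip, St.setR_r,
        St.setR_m, St.setM_r, St.setM_m, Exp.ev_reg, Exp.ev_inc, Exp.ev_get, Exp.ev_const,
        Cond.ev_eq, hrj, a1, if_true, this]
      refine ⟨⟨by simp [a1], by simp [a2], by simp [a3], ?_, ?_, ?_, ?_, ?_⟩, by simp [hrj], by simp [a3]⟩
      · simp [a4]
      · simp [a5, e1, List.filter_append, hf]
      · intro p hp
        simp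
        exact a6 p hp
      · simp
        exact a7
      · simp
        rw [a8, e1, List.filter_append, List.map_append]
        simp [hf]
  · rintro s1 ⟨a1, a2, a3, a4, a5, a6, a7, a8⟩ _ _
    refine (Tri.lf rfl ?_).cost (by decide)
    rw [hS] at a5 a8
    set W := S.filter (fun v => decide (fl v)) with hW
    simp only [Cmd.ex_cons, Cmd.ex_nil, Cmd.ex_set, Cmd.ex_put, St.setR_r,
        St.setR_m, St.setM_r, St.setM_m, Exp.ev_reg, Exp.ev_inc, Exp.ev_get, Exp.ev_const]
    have b6 : ∀ p < top, Function.update (s1.m MB) (s1.r rmb) 0 p = mb p := by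
      intro p hp
      rw [Function.update_apply, if_neg (by omega)]
      exact a6 p hp
    refine ⟨by simp, fun c' hc' => ?_⟩
    simp only [St.setR_m, St.setM_m, St.setR_r, St.setM_r, if_true, if_false,
      show (MP : ℕ) ≠ MB by decide]
    rw [a4, Function.update_apply, Function.update_apply]
    split_ifs with hcc
    · refine Chn.cons top W (recs c) h1 ?_ ?_ (by omega) ?_
      · rw [← a5, seg_update (by omega)]
        exact a8
      · rw [← a5]; simp
      · rw [Function.update_apply, if_neg (by omega), a7]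
        exact (h2 c hcn).ext b6 (by omega)
    · exact (h2 c' hc').ext b6 (by omega)
  · simp only [Exp.cost, hlen]; omega

end TL
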