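import Pool.Agent.W_3fea_h44.NMemoDefs

/-! # Specification of `pMemoChk` -/

namespace TL

open Relation Finset Classical

variable {n : ℕ} {S : List ℕ} {c : ℕ}

theorem Tri.unrollT {b : Cond} {c : Cmd} {s : St} {B1 B2 B : ℕ} {Q : St → Prop}
    (hb : b.ev s = true) (h : Tri s c B1 (fun s1 => Tri s1 (.loop b c) B2 Q))
    (hB : b.cost + 1 + B1 + B2 ≤ B) : Tri s (.loop b c) B Q := by
  obtain ⟨s1, t, h1, h2, s2, u, h3, h4, h5⟩ := h
  exact ⟨s2, _, Run.loopT hb h1 h3, by omega, h5⟩

theorem Tri.unrollF {b : Cond} {c : Cmd} {s : St} {B : ℕ} {Q : St → Prop}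
    (hb : b.ev s = false) (h : Q s) (hB : b.cost + 1 ≤ B) : Tri s (.loop b c) B Q :=
  ⟨s, _, Run.loopF hb, hB, h⟩

/-- the scan of one record -/
theorem memoScan_spec {mb : ℕ → ℕ} {ins : ℕ → ℕ} (hins : ∀ v, ins v = if v ∈ S then 1 else 0) :
    ∀ (W : List ℕ) (p : ℕ), seg mb p (p + W.length) = W.map (· + 1) →
    mb (p + W.length) = 0 → ∀ s : St, s.m MB = mb → s.m INS = ins → s.r rp = p →
    ∀ k : ℕ, s.r rok = k →
    Tri s (.loop (.ne (A MB (V rp)) (K 0)) (.blk [
        .whn (.eq (A INS (.dec (A MB (V rp)))) (K 0)) (.set rok (K 0)),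
        .incr rp])) (30 * W.length + 10) (fun s' =>
      s'.m MB = mb ∧ s'.m INS = ins ∧ s'.r re = s.r re ∧ s'.r rfnd = s.r rfnd ∧
      s'.r rok = if ∀ w ∈ W, w ∈ S then k else 0) := by
  intro W
  induction W with
  | nil =>
    intro p _ h0 s h1 h2 h3 k hk
    refine Tri.unrollF ?_ ?_ (by decide)
    · simp only [List.length_nil, add_zero] at h0
      simp [h1, h3, h0]
    · refine ⟨h1, h2, rfl, rfl, ?_⟩
      simp [hk]
  | cons w W ih =>
    intro p hs h0 s h1 h2 h3 k hk
    have e1 : mb p = w + 1 := by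
      have := congrArg (fun l => l[0]?) hs
      simpa [seg, List.length_cons] using this
    have e2 : seg mb (p + 1) (p + 1 + W.length) = W.map (· + 1) := by
      have h4 := seg_append mb (i := p) (j := p + 1) (k := p + (w :: W).length) (by omega)
        (by simp)
      have h5 : seg mb p (p + 1) = [w + 1] := by
        rw [seg_succ _ le_rfl, seg_self, e1]; rfl
      rw [hs, h5] at h4
      simp only [List.map_cons, List.singleton_append, List.cons.injEq, true_and,
        List.length_cons] at h4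
      rw [show p + 1 + W.length = p + (W.length + 1) by omega]
      exact h4
    refine Tri.unrollT (B1 := 20) (B2 := 30 * W.length + 10) ?_ ?_ ?_
    · simp [h1, h3, e1]
    · refine (Tri.lf rfl ?_).cost (by decide)
      by_cases hw : w ∈ S
      · have hi : s.m INS w = 1 := by rw [h2, hins, if_pos hw]
        simp only [Cmd.ex_cons, Cmd.ex_nil, Cmd.ex_set, Cmd.ex_ite, Cmd.ex_skip, Exp.ev_reg,
          Exp.ev_inc, Exp.ev_dec, Exp.ev_get, Exp.ev_const, Cond.ev_eq, h1, h3, e1,
          Nat.add_sub_cancel, hi]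
        refine (ih (p + 1) e2 ?_ _ ?_ ?_ ?_ k ?_).imp ?_
        · rw [← h0, List.length_cons]; congr 1; omega
        · simp [h1]
        · simp [h2]
        · simp [h3]
        · simp [hk]
        · rintro s' ⟨a1, a2, a3, a4, a5⟩
          refine ⟨a1, a2, ?_, ?_, ?_⟩
          · rw [a3]; simp
          · rw [a4]; simp
          · rw [a5]; simp [hw]
      · have hi : s.m INS w = 0 := by rw [h2, hins, if_neg hw]
        simp only [Cmd.ex_cons, Cmd.ex_nil, Cmd.ex_set, Cmd.ex_ite, Cmd.ex_skip, Exp.ev_reg,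
          Exp.ev_inc, Exp.ev_dec, Exp.ev_get, Exp.ev_const, Cond.ev_eq, h1, h3, e1,
          Nat.add_sub_cancel, hi]
        refine (ih (p + 1) e2 ?_ _ ?_ ?_ ?_ 0 ?_).imp ?_
        · rw [← h0, List.length_cons]; congr 1; omega
        · simp [h1]
        · simp [h2]
        · simp [h3]
        · simp
        · rintro s' ⟨a1, a2, a3, a4, a5⟩
          refine ⟨a1, a2, ?_, ?_, ?_⟩
          · rw [a3]; simp
          · rw [a4]; simp
          · rw [a5]; simp [hw]
    · simp only [Cond.cost, Exp.cost, List.length_cons]; omega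

/-- the loop over the records -/
theorem memoLoop_spec {mb : ℕ → ℕ} {ins : ℕ → ℕ} {top : ℕ}
    (hins : ∀ v, ins v = if v ∈ S then 1 else 0) :
    ∀ (l : List (List ℕ)) (q : ℕ), Chn mb top q l →
    ∀ s : St, s.m MB = mb → s.m INS = ins → s.r re = q → s.r rfnd = 0 →
    Tri s (.loop (.and (.ne (V re) (K 0)) (.eq (V rfnd) (K 0))) (.blk [
      .set rp (.inc (V re)),
      .set rok (K 1),
      .loop (.ne (A MB (V rp)) (K 0)) (.blk [
        .whn (.eq (A INS (.dec (A MB (V rp)))) (K 0)) (.set rok (K 0)),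
        .incr rp]),
      .set rfnd (V rok),
      .set re (A MB (V re))])) (50 * (l.map (fun W => W.length + 2)).sum + 30) (fun s' =>
      (s'.r rfnd = 0 ∧ ¬ ∃ W ∈ l, ∀ w ∈ W, w ∈ S) ∨
      (s'.r rfnd = 1 ∧ ∃ W ∈ l, ∀ w ∈ W, w ∈ S)) := by
  intro l q hch
  induction hch with
  | nil =>
    intro s h1 h2 h3 h4
    refine Tri.unrollF ?_ ?_ ?_
    · simp [h3]
    · left; simp [h4]
    · simp only [Cond.cost, Exp.cost]; omega
  | cons q W rest hq hs h0 _ _ ih =>
    intro s h1 h2 h3 h4
    refine Tri.unrollT (B1 := 30 * W.length + 40)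
      (B2 := 50 * (rest.map (fun W => W.length + 2)).sum + 30) ?_ ?_ ?_
    · simp [h3, h4]; omega
    · refine Tri.cons (B1 := 5) (B2 := 30 * W.length + 35) ?_ (by omega)
      refine (Tri.lf rfl ?_).cost (by decide)
      refine Tri.cons (B1 := 5) (B2 := 30 * W.length + 30) ?_ (by omega)
      refine (Tri.lf rfl ?_).cost (by decide)
      refine Tri.cons (B1 := 30 * W.length + 10) (B2 := 20) ?_ (by omega)
      refine (memoScan_spec hins W (q + 1) hs h0 _ ?_ ?_ ?_ 1 ?_).imp ?_
      · simp [h1]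
      · simp [h2]
      · simp [h3]
      · simp
      · rintro s1 ⟨a1, a2, a3, a4, a5⟩
        have b3 : s1.r re = q := by rw [a3]; simp [h3]
        refine (Tri.lf rfl ?_).cost (by decide)
        simp only [Cmd.ex_cons, Cmd.ex_nil, Cmd.ex_set, St.setR_r, St.setR_m, Exp.ev_reg,
          Exp.ev_get]
        by_cases hw : ∀ w ∈ W, w ∈ S
        · rw [if_pos hw] at a5
          refine Tri.unrollF ?_ ?_ ?_
          · simp [a5]
          · right
            refine ⟨by simp [a5], W, by simp, hw⟩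
          · simp only [Cond.cost, Exp.cost]; omega
        · rw [if_neg hw] at a5
          refine (ih _ ?_ ?_ ?_ ?_).imp ?_
          · simp [a1]
          · simp [a2]
          · simp [a1, b3]
          · simp [a5]
          · rintro s' (⟨c1, c2⟩ | ⟨c1, c2⟩)
            · left
              refine ⟨c1, ?_⟩
              rintro ⟨W', hW', hW''⟩
              rcases List.mem_cons.1 hW' with rfl | hW'
              · exact hw hW''
              · exact c2 ⟨W', hW', hW''⟩
            · right
              obtain ⟨W', hW', hW''⟩ := c2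
              exact ⟨c1, W', List.mem_cons_of_mem _ hW', hW''⟩
    · simp only [Cond.cost, Exp.cost, List.map_cons, List.sum_cons]; omega

theorem pMemoChk_spec {s : St} {recs : ℕ → List (List ℕ)} (h : MemoR n recs s)
    (hins : ∀ v, s.m INS v = if v ∈ S then 1 else 0) (hc : s.r rc = c) (hcn : c < n) :
    Tri s pMemoChk (100 * (((recs c).map (fun W => W.length + 2)).sum + 1)) (fun s' =>
      (s'.r rfnd = 0 ∧ ¬ ∃ W ∈ recs c, ∀ w ∈ W, w ∈ S) ∨
      (s'.r rfnd = 1 ∧ ∃ W ∈ recs c, ∀ w ∈ W, w ∈ S)) := by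
  obtain ⟨h1, h2⟩ := h
  unfold pMemoChk
  refine Tri.cons (B1 := 5) (B2 := 50 * ((recs c).map (fun W => W.length + 2)).sum + 40) ?_
    (by omega)
  refine (Tri.lf rfl ?_).cost (by decide)
  refine Tri.cons (B1 := 5) (B2 := 50 * ((recs c).map (fun W => W.length + 2)).sum + 35) ?_
    (by omega)
  refine (Tri.lf rfl ?_).cost (by decide)
  refine Tri.cons (B1 := 50 * ((recs c).map (fun W => W.length + 2)).sum + 30) (B2 := 5) ?_
    (by omega)
  refine (memoLoop_spec (mb := s.m MB) (ins := s.m INS) (top := s.r rmb) hins (recs c)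
    (s.m MP c) (h2 c hcn) _ ?_ ?_ ?_ ?_).imp ?_
  · simp
  · simp
  · simp [hc]
  · simp
  · intro s' hs'
    exact Tri.nil hs' (by omega)

end TL
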