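import Pool.Agent.W_3fea_h44.NodeDefs

/-! # The records in the memory -/

namespace TL

open Relation Finset Classical

/-- `mb` contains at position `q` the linked list of the records `l`, below `top` -/
inductive Chn (mb : ℕ → ℕ) (top : ℕ) : ℕ → List (List ℕ) → Prop
  | nil : Chn mb top 0 []
  | cons (q : ℕ) (W : List ℕ) (rest : List (List ℕ)) : 1 ≤ q →
      seg mb (q + 1) (q + 1 + W.length) = W.map (· + 1) → mb (q + 1 + W.length) = 0 →
      q + 1 + W.length < top → Chn mb top (mb q) rest → Chn mb top q (W :: rest)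

/-- the records in the memory -/
def MemoR (n : ℕ) (recs : ℕ → List (List ℕ)) (s : St) : Prop :=
  1 ≤ s.r rmb ∧ ∀ c < n, Chn (s.m MB) (s.r rmb) (s.m MP c) (recs c)

theorem MemoR.fr {n : ℕ} {recs : ℕ → List (List ℕ)} {s s' : St} {wr wa : List ℕ}
    (h : MemoR n recs s) (hf : Fr wr wa s s') (h1 : rmb ∉ wr) (h2 : MP ∉ wa) (h3 : MB ∉ wa) :
    MemoR n recs s' := by
  refine ⟨?_, fun c hc => ?_⟩
  · rw [hf.r rmb h1]; exact h.1
  · rw [hf.r rmb h1, hf.m MB h3, hf.m MP h2]; exact h.2 c hc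

end TL
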