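import Pool.Agent.W_3fea_h44.NLow

/-! # Specification of `pTabloop` -/

namespace TL

open Relation Finset Classical

variable {n m k : ℕ} {G : SimpleGraph ℕ} {D : St} {S : List ℕ} {stk : List (ℕ × ℕ)}

theorem tab_AS_fr {EX : List (Finset ℕ × ℕ)} {VS : Finset (Finset ℕ)}
    {recs : ℕ → List (List ℕ)} {s s' : St} {wr wa : List ℕ}
    (h : AS n m k G D S stk EX VS recs s) (hf : Fr wr wa s s')
    (h1 : ∀ x ∈ nsR ++ clR ++ [rsp, rst, rmb], x ∉ wr)
    (h2 : ∀ a ∈ nsA ++ clA ++ [SV, SD, MP, MB], a ∉ wa) :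
    AS n m k G D S stk EX VS recs s' := by
  refine ⟨h.ns.fr hf (fun x hx => h1 x (by simp [hx])) (fun a ha => h2 a (by simp [ha])),
    h.cl.fr hf (fun x hx => h1 x (by simp [hx])) (fun a ha => h2 a (by simp [ha])),
    h.stk.fr hf (h1 _ (by simp)) (h2 _ (by simp)) (h2 _ (by simp)), ?_,
    h.memo.fr hf (h1 _ (by simp)) (h2 _ (by simp)) (h2 _ (by simp)), h.log, h.vs⟩
  rw [hf.r rst (h1 _ (by simp))]
  exact h.st

theorem tab_inCh_zero {par lab : ℕ → ℕ} {h q : ℕ} (hq : lab q = 0) : ¬ InCh par lab h q := by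
  intro H
  cases H with
  | here _ h1 => omega
  | up _ h1 _ => exact h1 hq

theorem tab_inCh_step {par lab : ℕ → ℕ} {h q : ℕ} (hq : lab q ≠ 0) :
    InCh par lab h q ↔ (h = lab q - 1 ∨ InCh par lab h (par q)) := by
  constructor
  · intro H
    cases H with
    | here _ h1 => left; omega
    | up _ h1 h2 => exact Or.inr h2
  · rintro (H | H)
    · exact InCh.here _ (by omega)
    · exact InCh.up _ hq H

theorem tab_chain {s : St} {q0 : ℕ} (h : NS n m k G D S s) (hq : s.r ra = q0)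
    (hq0 : q0 < D.r rnn) (hok : s.r rok = 1) :
    Tri s (.loop (.ne (A LAB (V ra)) (K 0)) (.blk [
        .whn (.eq (A INS (.dec (A LAB (V ra)))) (K 0)) (.set rok (K 0)),
        .set ra (A PAR (V ra))])) (19 * D.r rnn + 6) (fun s' =>
      (s'.r rok = 1 ∨ s'.r rok = 0) ∧
      (s'.r rok = 1 ↔ ∀ h, InCh (D.m PAR) (D.m LAB) h q0 → h ∈ S)) := by
  have hloop := Tri.loop (b := .ne (A LAB (V ra)) (K 0)) (c := .blk [
        .whn (.eq (A INS (.dec (A LAB (V ra)))) (K 0)) (.set rok (K 0)),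
        .set ra (A PAR (V ra))])
    (I := fun s' => NS n m k G D S s' ∧ s'.r ra < D.r rnn ∧ (s'.r rok = 1 ∨ s'.r rok = 0) ∧
      ((s'.r rok = 1 ∧ ∀ h, InCh (D.m PAR) (D.m LAB) h (s'.r ra) → h ∈ S) ↔
        ∀ h, InCh (D.m PAR) (D.m LAB) h q0 → h ∈ S)) (Φ := fun s' => 19 * s'.r ra)
    (Q := fun s' => (s'.r rok = 1 ∨ s'.r rok = 0) ∧
      (s'.r rok = 1 ↔ ∀ h, InCh (D.m PAR) (D.m LAB) h q0 → h ∈ S)) ?_ (s := s) ?_ ?_
  · refine hloop.cost ?_
    simp only [Cond.cost, Exp.cost, hq]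
    omega
  · rintro s1 ⟨h1, h2, h3, h4⟩ hb
    have eL : s1.m LAB = D.m LAB := h1.agr.m LAB (by decide)
    have eP : s1.m PAR = D.m PAR := h1.agr.m PAR (by decide)
    simp only [Cond.ev_not, Cond.ev_eq, Exp.ev_get, Exp.ev_reg, Exp.ev_const, eL,
      Bool.not_eq_true', decide_eq_false_iff_not] at hb
    have hlt : D.m PAR (s1.r ra) < s1.r ra := h1.prep.d.par_lt _ h2 hb
    refine ⟨13, ((Tri.lf (by rfl) ?_).cost (B := (Cmd.blk [
        .whn (.eq (A INS (.dec (A LAB (V ra)))) (K 0)) (.set rok (K 0)),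
        .set ra (A PAR (V ra))]).mc) (by decide))⟩
    have hfr : Fr [rok, ra] [] s1 ((Cmd.blk [
        .whn (.eq (A INS (.dec (A LAB (V ra)))) (K 0)) (.set rok (K 0)),
        .set ra (A PAR (V ra))]).ex s1) := by
      obtain ⟨t, _, hr⟩ := Cmd.lf_run (Cmd.blk [
        .whn (.eq (A INS (.dec (A LAB (V ra)))) (K 0)) (.set rok (K 0)),
        .set ra (A PAR (V ra))]) s1 (by rfl)
      exact hr.frame.mono (by decide) (by decide)
    have era : ((Cmd.blk [
        .whn (.eq (A INS (.dec (A LAB (V ra)))) (K 0)) (.set rok (K 0)),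
        .set ra (A PAR (V ra))]).ex s1).r ra = D.m PAR (s1.r ra) := by
      simp only [Cmd.ex_cons, Cmd.ex_nil, Cmd.ex_set, Cmd.ex_ite, Cmd.ex_skip]
      split_ifs <;> simp [eP]
    have erok : ((Cmd.blk [
        .whn (.eq (A INS (.dec (A LAB (V ra)))) (K 0)) (.set rok (K 0)),
        .set ra (A PAR (V ra))]).ex s1).r rok =
        if D.m LAB (s1.r ra) - 1 ∈ S then s1.r rok else 0 := by
      simp only [Cmd.ex_cons, Cmd.ex_nil, Cmd.ex_set, Cmd.ex_ite, Cmd.ex_skip]
      by_cases hS : D.m LAB (s1.r ra) - 1 ∈ S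
      · simp [eL, h1.ins, hS]
      · simp [eL, h1.ins, hS]
    refine ⟨⟨h1.fr hfr (by decide) (by decide), ?_, ?_, ?_⟩, ?_⟩
    · rw [era]; omega
    · rw [erok]; split_ifs
      · exact h3
      · exact Or.inr rfl
    · rw [← h4, erok, era]
      constructor
      · rintro ⟨a, b⟩
        by_cases hS : D.m LAB (s1.r ra) - 1 ∈ S
        · rw [if_pos hS] at a
          refine ⟨a, fun x hx => ?_⟩
          rcases (tab_inCh_step hb).1 hx with hx | hx
          · rw [hx]; exact hS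
          · exact b x hx
        · rw [if_neg hS] at a
          omega
      · rintro ⟨a, b⟩
        have hS : D.m LAB (s1.r ra) - 1 ∈ S := b _ ((tab_inCh_step hb).2 (Or.inl rfl))
        rw [if_pos hS]
        exact ⟨a, fun x hx => b x ((tab_inCh_step hb).2 (Or.inr hx))⟩
    · show _ + 19 * _ ≤ 19 * _
      rw [era]
      simp only [Cond.cost, Exp.cost]
      omega
  · exact ⟨h, by rw [hq]; exact hq0, Or.inl hok, by rw [hq]; exact ⟨fun a => a.2, fun a => ⟨hok, a⟩⟩⟩
  · rintro s1 ⟨h1, h2, h3, h4⟩ hb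
    have eL : s1.m LAB = D.m LAB := h1.agr.m LAB (by decide)
    simp only [Cond.ev_not, Cond.ev_eq, Exp.ev_get, Exp.ev_reg, Exp.ev_const, eL,
      Bool.not_eq_false', decide_eq_true_eq] at hb
    refine ⟨h3, ?_⟩
    rw [← h4]
    exact ⟨fun a => ⟨a, fun x hx => (tab_inCh_zero hb hx).elim⟩, fun a => a.1⟩

theorem tab_for {s : St} {E : ℕ} {P : Prop} (h : NS n m k G D S s) (he : s.r re = E)
    (hok : s.r rok = 1 ∨ s.r rok = 0) (hP : s.r rok = 1 ↔ P) :
    Tri s (.for_ rj (K 0) rt (.whn (.eq (A CE (A SA (V rj))) (V re)) (.set rok (K 0))))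
      (6 + 15 * k) (fun s' => s'.r rok = 1 ↔ (P ∧ ∀ w ∈ S, D.m CE w ≠ E)) := by
  have hlen : s.r rt = S.length := by
    have := congrArg List.length h.sa
    simpa using this
  refine (Tri.forC (p := rj) (hi := rt) (I := fun j s' => NS n m k G D S s' ∧ s'.r re = E ∧
      s'.m SA = s.m SA ∧ (s'.r rok = 1 ∨ s'.r rok = 0) ∧
      (s'.r rok = 1 ↔ (P ∧ ∀ p < j, D.m CE (s.m SA p) ≠ E))) (B := 8) (a := 0) (N := S.length)
      (by decide) (by simp) hlen (by omega) ?_ ?_ ?_).cost ?_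
  · have hfr : Fr [rj] [] s (s.setR rj 0) := by
      refine ⟨fun x hx => ?_, fun a _ => rfl⟩
      have : x ≠ rj := by simpa using hx
      simp [this]
    refine ⟨h.fr hfr (by decide) (by decide), by simp [he], rfl, by simpa using hok, ?_⟩
    simpa using hP
  · rintro j _ hj s1 ⟨h1, h2, h3, h4, h5⟩ h6 h7
    refine (Tri.lf (by rfl) ?_).cost (B := (Cmd.whn (.eq (A CE (A SA (V rj))) (V re))
      (.set rok (K 0))).mc) (by decide)
    have eC : s1.m CE = D.m CE := h1.agr.m CE (by decide)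
    have hfr : Fr [rok, rj] [] s1 (((Cmd.whn (.eq (A CE (A SA (V rj))) (V re))
      (.set rok (K 0))).ex s1).setR rj (j + 1)) := by
      refine ⟨fun x hx => ?_, fun a _ => ?_⟩
      · have hx1 : x ≠ rok := fun e => hx (by simp [e])
        have hx2 : x ≠ rj := fun e => hx (by simp [e])
        simp only [Cmd.ex_ite, Cmd.ex_skip, Cmd.ex_set]
        split_ifs <;> simp [hx1, hx2]
      · simp only [Cmd.ex_ite, Cmd.ex_skip, Cmd.ex_set]
        split_ifs <;> rfl
    have hfr' : Fr [rok] [] s1 ((Cmd.whn (.eq (A CE (A SA (V rj))) (V re))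
      (.set rok (K 0))).ex s1) := by
      refine ⟨fun x hx => ?_, fun a _ => ?_⟩
      · have hx1 : x ≠ rok := fun e => hx (by simp [e])
        simp only [Cmd.ex_ite, Cmd.ex_skip, Cmd.ex_set]
        split_ifs <;> simp [hx1]
      · simp only [Cmd.ex_ite, Cmd.ex_skip, Cmd.ex_set]
        split_ifs <;> rfl
    have erok : ((Cmd.whn (.eq (A CE (A SA (V rj))) (V re)) (.set rok (K 0))).ex s1).r rok =
        if D.m CE (s.m SA j) = E then 0 else s1.r rok := by
      simp only [Cmd.ex_ite, Cmd.ex_skip, Cmd.ex_set]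
      by_cases hE : D.m CE (s.m SA j) = E
      · simp [eC, h3, h6, h2, hE]
      · simp [eC, h3, h6, h2, hE]
    have erok' : ((((Cmd.whn (.eq (A CE (A SA (V rj))) (V re))
      (.set rok (K 0))).ex s1).setR rj (j + 1)).r rok) =
        if D.m CE (s.m SA j) = E then 0 else s1.r rok := by
      rw [← erok]
      simp
    refine ⟨⟨h1.fr hfr (by decide) (by decide), ?_, ?_, ?_, ?_⟩, ?_, ?_⟩
    · rw [hfr.r re (by decide)]; exact h2
    · rw [hfr.m SA (by decide)]; exact h3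
    · rw [erok']; split_ifs
      · exact Or.inr rfl
      · exact h4
    · rw [erok']
      constructor
      · intro a
        by_cases hE : D.m CE (s.m SA j) = E
        · rw [if_pos hE] at a; omega
        · rw [if_neg hE, h5] at a
          refine ⟨a.1, fun p hp => ?_⟩
          rcases Nat.lt_succ_iff_lt_or_eq.1 hp with hp | rfl
          · exact a.2 p hp
          · exact hE
      · rintro ⟨a, b⟩
        rw [if_neg (b j (Nat.lt_succ_self j)), h5]
        exact ⟨a, fun p hp => b p (by omega)⟩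
    · rw [hfr'.r rj (by decide)]; exact h6
    · rw [hfr'.r rt (by decide)]; exact h7
  · rintro s1 ⟨h1, h2, h3, h4, h5⟩ _ _
    rw [h5]
    refine and_congr_right fun _ => ?_
    constructor
    · intro a w hw
      rw [← h.sa, mem_seg] at hw
      obtain ⟨p, _, hp, rfl⟩ := hw
      exact a p (by omega)
    · intro a p hp
      refine a _ ?_
      rw [← h.sa, mem_seg]
      exact ⟨p, by omega, by omega, rfl⟩
  · have := h.len
    simp only [Exp.cost]
    omega

/-- the body of the loop over the table -/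
def tabBody : List Cmd := [
      .set re (A TB (V ri)),
      .incr ri,
      .set rok (K 1),
      .set ra (A NODE (V re)),
      .loop (.ne (A LAB (V ra)) (K 0)) (.blk [
        .whn (.eq (A INS (.dec (A LAB (V ra)))) (K 0)) (.set rok (K 0)),
        .set ra (A PAR (V ra))]),
      .for_ rj (K 0) rt (.whn (.eq (A CE (A SA (V rj))) (V re)) (.set rok (K 0))),
      .whn (.eq (V rok) (K 1)) (.blk [
        .set rx (A CV (V re)),
        .whn (.lt (A DEG (V rx)) (V rD)) pLow])]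

/-- the conclusion of the loop for the component `E` -/
def TabC (n k : ℕ) (G : SimpleGraph ℕ) (D : St) (S : List ℕ) (E : ℕ) : Prop :=
  (∀ h, InCh (D.m PAR) (D.m LAB) h (D.m NODE E) → h ∈ S) →
    (∀ w ∈ S, D.m CE w ≠ E) → dg n G (D.m CV E) < D.r rD → LowOK n k G S (D.m CV E)

theorem tab_body {EX : List (Finset ℕ × ℕ)} {VS : Finset (Finset ℕ)}
    {recs : ℕ → List (List ℕ)} {s : St} {i : ℕ} (h : AS n m k G D S stk EX VS recs s)
    (hi : s.r ri = i) (hiT : i < D.r rnT) :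
    Trt s (.blk tabBody) (fun t s' => s'.r ri = i + 1 ∧
      ((AS n m k G D S stk EX VS recs s' ∧ TabC n k G D S (D.m TB i) ∧
        t ≤ lc k + (40 + 19 * D.r rnn + 15 * k)) ∨
      (BS n m k G D S stk EX VS recs s' ∧
        t ≤ lc k + (40 + 19 * D.r rnn + 15 * k) + bc k D))) := by
  have hmem : D.m TB i ∈ tbL D := by
    rw [tbL, mem_seg]
    exact ⟨i, by omega, hiT, rfl⟩
  obtain ⟨hE1, hE2, -⟩ := h.ns.prep.t.mem _ hmem
  obtain ⟨hv1, hv2, hv3⟩ := h.ns.prep.c.cv _ hE1 hE2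
  -- the first four instructions
  have r1 : Run (.set re (A TB (V ri))) s 3 (s.setR re (D.m TB i)) := by
    have := Run.set re (A TB (V ri)) s
    simpa [hi, h.ns.agr.m TB (by decide), Exp.cost] using this
  have r2 := Run.set ri (.inc (.reg ri)) (s.setR re (D.m TB i))
  have r3 := Run.set rok (K 1) ((s.setR re (D.m TB i)).setR ri
    ((Exp.inc (.reg ri)).ev (s.setR re (D.m TB i))))
  have r4 := Run.set ra (A NODE (V re)) (((s.setR re (D.m TB i)).setR ri
    ((Exp.inc (.reg ri)).ev (s.setR re (D.m TB i)))).setR rok ((K 1).ev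
      ((s.setR re (D.m TB i)).setR ri
    ((Exp.inc (.reg ri)).ev (s.setR re (D.m TB i))))))
  obtain ⟨s4, hs4⟩ : ∃ s4, s4 = ((((s.setR re (D.m TB i)).setR ri
    ((Exp.inc (.reg ri)).ev (s.setR re (D.m TB i)))).setR rok ((K 1).ev
      ((s.setR re (D.m TB i)).setR ri
    ((Exp.inc (.reg ri)).ev (s.setR re (D.m TB i)))))).setR ra ((A NODE (V re)).ev
     (((s.setR re (D.m TB i)).setR ri
    ((Exp.inc (.reg ri)).ev (s.setR re (D.m TB i)))).setR rok ((K 1).ev
      ((s.setR re (D.m TB i)).setR ri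
    ((Exp.inc (.reg ri)).ev (s.setR re (D.m TB i)))))))) := ⟨_, rfl⟩
  rw [← hs4] at r4
  have e4i : s4.r ri = i + 1 := by rw [hs4]; simp [hi]
  have e4e : s4.r re = D.m TB i := by rw [hs4]; simp
  have e4o : s4.r rok = 1 := by rw [hs4]; simp
  have e4a : s4.r ra = D.m NODE (D.m TB i) := by
    rw [hs4]; simp [h.ns.agr.m NODE (by decide)]
  have f4 : Fr [re, ri, rok, ra] [] s s4 := by
    refine ⟨fun x hx => ?_, fun a _ => by rw [hs4]; rfl⟩
    have hx1 : x ≠ re := fun e => hx (by simp [e])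
    have hx2 : x ≠ ri := fun e => hx (by simp [e])
    have hx3 : x ≠ rok := fun e => hx (by simp [e])
    have hx4 : x ≠ ra := fun e => hx (by simp [e])
    rw [hs4]
    simp [hx1, hx2, hx3, hx4]
  have A4 := tab_AS_fr h f4 (by decide) (by decide)
  -- the chain
  obtain ⟨s5, t5, r5, c5, ⟨q5a, q5b⟩, f5⟩ := (tab_chain A4.ns e4a
    (h.ns.prep.d.node_lt _ hE2) e4o).fr
  have A5 := tab_AS_fr A4 f5 (by decide) (by decide)
  -- the loop over `S`
  obtain ⟨s6, t6, r6, c6, q6, f6⟩ := (tab_for (E := D.m TB i) A5.ns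
    (by rw [f5.r re (by decide)]; exact e4e) q5a q5b).fr
  have A6 := tab_AS_fr A5 f6 (by decide) (by decide)
  have e6i : s6.r ri = i + 1 := by
    rw [f6.r ri (by decide), f5.r ri (by decide)]; exact e4i
  have e6e : s6.r re = D.m TB i := by
    rw [f6.r re (by decide), f5.r re (by decide)]; exact e4e
  have eCV : s6.m CV = D.m CV := A6.ns.agr.m CV (by decide)
  -- the last instruction
  have last : Trt s6 (.whn (.eq (V rok) (K 1)) (.blk [
        .set rx (A CV (V re)),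
        .whn (.lt (A DEG (V rx)) (V rD)) pLow])) (fun t s' => s'.r ri = i + 1 ∧
      ((AS n m k G D S stk EX VS recs s' ∧ TabC n k G D S (D.m TB i) ∧ t ≤ lc k + 14) ∨
      (BS n m k G D S stk EX VS recs s' ∧ t ≤ lc k + 14 + bc k D))) := by
    refine Trt.ite (fun hb => ?_) (fun hb => ?_)
    · simp only [Cond.ev_eq, Exp.ev_reg, Exp.ev_const, decide_eq_true_eq] at hb
      obtain ⟨hc1, hc2⟩ := q6.1 hb
      have hr7 : Run (.set rx (A CV (V re))) s6 3 (s6.setR rx (D.m CV (D.m TB i))) := by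
        have := Run.set rx (A CV (V re)) s6
        simpa [e6e, eCV, Exp.cost] using this
      obtain ⟨s7, hs7⟩ : ∃ s7, s7 = s6.setR rx (D.m CV (D.m TB i)) := ⟨_, rfl⟩
      rw [← hs7] at hr7
      have f7 : Fr [rx] [] s6 s7 := by
        refine ⟨fun x hx => ?_, fun a _ => by rw [hs7]; rfl⟩
        have hx1 : x ≠ rx := fun e => hx (by simp [e])
        rw [hs7]; simp [hx1]
      have A7 := tab_AS_fr A6 f7 (by decide) (by decide)
      have e7i : s7.r ri = i + 1 := by rw [f7.r ri (by decide)]; exact e6i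
      have e7x : s7.r rx = D.m CV (D.m TB i) := by rw [hs7]; simp
      have e7D : s7.r rD = D.r rD := A7.ns.agr.r rD (by decide)
      have e7g : s7.m DEG = D.m DEG := A7.ns.agr.m DEG (by decide)
      have hvS : D.m CV (D.m TB i) ∉ S := fun hS => hc2 _ hS hv3
      refine Trt.cons ⟨s7, _, hr7, ?_⟩
      refine Trt.cons ?_
      refine Trt.ite (fun hb' => ?_) (fun hb' => ?_)
      · simp only [Cond.ev_lt, Exp.ev_get, Exp.ev_reg, decide_eq_true_eq, e7x, e7D, e7g,
          h.ns.prep.a.deg] at hb'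
        obtain ⟨s8, t8, r8, q8, f8⟩ := (pLow_spec A7 e7x hv1 hvS hb').fr
        have e8i : s8.r ri = i + 1 := by rw [f8.r ri (by decide)]; exact e7i
        refine ⟨s8, t8, r8, Trt.nil ⟨e8i, ?_⟩⟩
        simp only [Cond.cost, Exp.cost]
        rcases q8 with ⟨a, b, c⟩ | ⟨a, c⟩
        · exact Or.inl ⟨a, fun _ _ _ => b, by omega⟩
        · exact Or.inr ⟨a, by omega⟩
      · simp only [Cond.ev_lt, Exp.ev_get, Exp.ev_reg, decide_eq_false_iff_not, e7x, e7D, e7g,
          h.ns.prep.a.deg] at hb'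
        refine ⟨s7, 1, Run.skip _, Trt.nil ⟨e7i, Or.inl ⟨A7, fun _ _ hd => (hb' hd).elim, ?_⟩⟩⟩
        simp only [Cond.cost, Exp.cost]
        omega
    · simp only [Cond.ev_eq, Exp.ev_reg, Exp.ev_const, decide_eq_false_iff_not] at hb
      refine ⟨s6, 1, Run.skip _, e6i, Or.inl ⟨A6, fun hc1 hc2 _ => (hb (q6.2 ⟨hc1, hc2⟩)).elim, ?_⟩⟩
      simp only [Cond.cost, Exp.cost]
      omega
  obtain ⟨s8, t8, r8, e8i, q8⟩ := last
  have hrun : Run (.blk tabBody) s _ s8 :=
    Run.cons r1 (Run.cons r2 (Run.cons r3 (Run.cons r4 (Run.cons r5 (Run.cons r6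
      (Run.cons r8 (Run.nil s8)))))))
  refine ⟨s8, _, hrun, e8i, ?_⟩
  simp only [Exp.cost]
  rcases q8 with ⟨a, b, c⟩ | ⟨a, c⟩
  · exact Or.inl ⟨a, b, by omega⟩
  · exact Or.inr ⟨a, by omega⟩

theorem pTabloop_spec {EX : List (Finset ℕ × ℕ)} {VS : Finset (Finset ℕ)}
    {recs : ℕ → List (List ℕ)} {s : St} (h : AS n m k G D S stk EX VS recs s) :
    Trt s pTabloop (fun t s' =>
      ((AS n m k G D S stk EX VS recs s' ∧
        ∀ E ∈ tbL D, (∀ h, InCh (D.m PAR) (D.m LAB) h (D.m NODE E) → h ∈ S) →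
          (∀ w ∈ S, D.m CE w ≠ E) → dg n G (D.m CV E) < D.r rD → LowOK n k G S (D.m CV E)) ∨
      BS n m k G D S stk EX VS recs s') ∧
      t ≤ (D.r rnT + 1) * (lc k + 200 * (D.r rnn + k + 2)) + bc k D) := by
  have hf0 : Fr [ri] [] s (s.setR ri 0) := by
    refine ⟨fun x hx => ?_, fun a _ => rfl⟩
    have : x ≠ ri := by simpa using hx
    simp [this]
  have A0 := tab_AS_fr h hf0 (by decide) (by decide)
  refine Trt.cons ⟨s.setR ri 0, _, Run.set ri (K 0) s, ?_⟩
  refine Trt.cons ?_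
  refine Trt.loop (I := fun t s' => ∃ i, s'.r ri = i ∧ i ≤ D.r rnT ∧
      ((AS n m k G D S stk EX VS recs s' ∧ (∀ p < i, TabC n k G D S (D.m TB p)) ∧
        t ≤ i * (lc k + (48 + 19 * D.r rnn + 15 * k))) ∨
      (BS n m k G D S stk EX VS recs s' ∧
        t ≤ i * (lc k + (48 + 19 * D.r rnn + 15 * k)) + bc k D)))
    (M := fun s' => D.r rnT - s'.r ri) ?_ ?_ ?_
  · exact ⟨0, by simp, by omega, Or.inl ⟨A0, fun p hp => by omega, by omega⟩⟩
  · rintro t s1 ⟨i, h1, h2, h3⟩ hb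
    simp only [Cond.ev_and, Cond.ev_lt, Cond.ev_eq, Exp.ev_reg, Exp.ev_const, Bool.and_eq_true,
      decide_eq_true_eq] at hb
    rcases h3 with ⟨h3, h4, h5⟩ | ⟨h3, h4⟩
    · have hi : i < D.r rnT := by
        have := h3.ns.agr.r rnT (by decide)
        omega
      refine (tab_body h3 h1 hi).imp ?_
      rintro u s2 ⟨k1, k2⟩
      refine ⟨⟨i + 1, k1, hi, ?_⟩, by rw [k1, h1]; omega⟩
      have e : (i + 1) * (lc k + (48 + 19 * D.r rnn + 15 * k)) =
        i * (lc k + (48 + 19 * D.r rnn + 15 * k)) + (lc k + (48 + 19 * D.r rnn + 15 * k)) := by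
        ring
      rw [e]
      simp only [Cond.cost, Exp.cost]
      rcases k2 with ⟨a, b, c⟩ | ⟨a, c⟩
      · refine Or.inl ⟨a, fun p hp => ?_, by omega⟩
        rcases Nat.lt_succ_iff_lt_or_eq.1 hp with hp | rfl
        · exact h4 p hp
        · exact b
      · exact Or.inr ⟨a, by omega⟩
    · exfalso
      have := h3.st
      omega
  · rintro t s1 ⟨i, h1, h2, h3⟩ hb
    refine Trt.nil ?_
    have hmul : i * (lc k + (48 + 19 * D.r rnn + 15 * k)) ≤
        D.r rnT * (lc k + 200 * (D.r rnn + k + 2)) := by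
      refine Nat.mul_le_mul h2 ?_
      omega
    have e : (D.r rnT + 1) * (lc k + 200 * (D.r rnn + k + 2)) =
        D.r rnT * (lc k + 200 * (D.r rnn + k + 2)) + (lc k + 200 * (D.r rnn + k + 2)) := by ring
    rw [e]
    simp only [Cond.cost, Exp.cost]
    simp only [Cond.ev_and, Cond.ev_lt, Cond.ev_eq, Exp.ev_reg, Exp.ev_const,
      Bool.and_eq_false_iff, decide_eq_false_iff_not] at hb
    rcases h3 with ⟨h3, h4, h5⟩ | ⟨h3, h4⟩
    · refine ⟨Or.inl ⟨h3, fun E hE => ?_⟩, by omega⟩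
      rw [tbL, mem_seg] at hE
      obtain ⟨p, _, hp, rfl⟩ := hE
      have h6 := h3.ns.agr.r rnT (by decide)
      have h7 := h3.st
      exact h4 p (by omega)
    · exact ⟨Or.inr h3, by omega⟩

end TL
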