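import Pool.Agent.W_3fea_h44.NNodeDefs
import Pool.Agent.W_3fea_h44.NLowArg
import Pool.Agent.W_3fea_h44.NAloop
import Pool.Agent.W_3fea_h44.NLowloop
import Pool.Agent.W_3fea_h44.NTabloop
import Pool.Agent.W_3fea_h44.NComplete

/-! # Specification of a node -/

namespace TL

open Relation Finset Classical

variable {n m k : ℕ} {G : SimpleGraph ℕ} {D : St} {S : List ℕ} {stk : List (ℕ × ℕ)}

/-- after a branching the loops do nothing -/
theorem skip_loop {s : St} {b : Cond} {c : Cmd} {e : Exp} (hst : s.r rst = 1)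
    (hb : b = .and (.lt (V ri) e) (.eq (V rst) (K 0))) :
    Run (.blk [.set ri (K 0), .loop b c]) s (2 + ((e.cost + 1 + 1 + 3 + 1 + 1) + 1)) (s.setR ri 0) := by
  have h1 : (s.setR ri 0).r rst = 1 := by simpa using hst
  have hev : b.ev (s.setR ri 0) = false := by
    rw [hb]; simp [hst]
  have h2 := Run.loopF (b := b) (c := c) hev
  have h3 : b.cost + 1 = e.cost + 1 + 1 + 3 + 1 + 1 := by
    rw [hb]; simp only [Cond.cost, Exp.cost]; omega
  rw [h3] at h2
  exact Run.cons (Run.set ri (K 0) s) (Run.cons h2 (Run.nil _))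

theorem BS.fr {EX : List (Finset ℕ × ℕ)} {VS : Finset (Finset ℕ)} {recs : ℕ → List (List ℕ)}
    {s s' : St} {wr wa : List ℕ} (h : BS n m k G D S stk EX VS recs s) (hf : Fr wr wa s s')
    (h1 : ∀ x ∈ asR, x ∉ wr) (h2 : ∀ a ∈ asA, a ∉ wa) : BS n m k G D S stk EX VS recs s' := by
  have hsub : ∀ x, x ∈ nsR ∨ x ∈ clR ∨ x = rsp ∨ x = rst ∨ x = rmb → x ∉ wr := by
    intro x hx
    apply h1
    simp only [asR, List.mem_append, List.mem_cons, List.not_mem_nil, or_false]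
    tauto
  have hsub2 : ∀ x, x ∈ nsA ∨ x ∈ clA ∨ x = SV ∨ x = SD ∨ x = MP ∨ x = MB → x ∉ wa := by
    intro x hx
    apply h2
    simp only [asA, List.mem_append, List.mem_cons, List.not_mem_nil, or_false]
    tauto
  exact ⟨h.ns.fr hf (fun x hx => hsub x (Or.inl hx)) (fun a ha => hsub2 a (Or.inl ha)),
    h.cl.fr hf (fun x hx => hsub x (Or.inr (Or.inl hx)))
      (fun a ha => hsub2 a (Or.inr (Or.inl ha))),
    h.out.fr hf (hsub _ (by simp)) (hsub2 _ (by simp)) (hsub2 _ (by simp)),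
    (hf.r rst (hsub _ (by simp))).trans h.st,
    h.memo.fr hf (hsub _ (by simp)) (hsub2 _ (by simp)) (hsub2 _ (by simp)), h.log, h.vs⟩

theorem fr_ri (s : St) : Fr [ri] [] s (s.setR ri 0) :=
  (Fr.refl s).setR (by decide)

/-- the end of a node -/
theorem node_end {EX : List (Finset ℕ × ℕ)} {VS : Finset (Finset ℕ)} {recs : ℕ → List (List ℕ)}
    {s : St} (hns : NS n m k G D S s) (hcl : CL s) {R : St → Prop}
    (hm : MemoR n recs s) (hl : LogI n k G (D.r rtau) EX VS recs)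
    (hR : ∀ s', Fr [ri] [INS] s s' → R s') :
    Trt s (.for_ ri (K 0) rt (.put INS (A SA (V ri)) (K 0))) (fun t s' => t ≤ 50 * (k + 1) ∧
      N0 n m k G D S s' ∧ MemoR n recs s' ∧ LogI n k G (D.r rtau) EX VS recs ∧ R s') := by
  refine (pEnd_spec hns hcl).fr.trt.imp ?_
  rintro t s' ⟨h1, h2, h3⟩
  have h4 : Fr [ri] [INS] s s' := h3.mono (by decide) (by decide)
  exact ⟨h1, h2, hm.fr h4 (by decide) (by decide) (by decide), hl, hR s' h4⟩

theorem pNode_spec {EX : List (Finset ℕ × ℕ)} {VS : Finset (Finset ℕ)}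
    {recs : ℕ → List (List ℕ)} {s : St} (h : N0 n m k G D S s) (hst : Stk s stk)
    (hm : MemoR n recs s) (hl : LogI n k G (D.r rtau) EX VS recs) :
    Trt s pNode (fun t s' => N0 n m k G D S s' ∧ ∃ EX1 recs', MemoR n recs' s' ∧
      LogI n k G (D.r rtau) (EX1 ++ EX) (insert S.toFinset VS) recs' ∧
      ((s'.r rst = 0 ∧ Stk s' stk ∧ Good n G S.toFinset) ∨
        (s'.r rst = 1 ∧ BrOut n k G S stk s')) ∧
      t ≤ nbd k (VS.card + 1) D + (EX1.map (xc n k G D)).sum) := by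
  have hcard : S.toFinset.card ≤ k := (List.toFinset_card_le S).trans h.len
  have hVS : (insert S.toFinset VS).card ≤ VS.card + 1 := card_insert_le _ _
  have hmul : 1000 * ((k + 2) * ((insert S.toFinset VS).card + 3)) * (2 * D.r rnA + 1) ≤
      1000 * ((k + 2) * (VS.card + 1 + 3)) * (2 * D.r rnA + 1) :=
    Nat.mul_le_mul_right _ (Nat.mul_le_mul_left _ (Nat.mul_le_mul_left _ (by omega)))
  unfold pNode
  refine Trt.cons ((pInit_spec h).fr.trt.imp ?_)
  rintro t1 s1 ⟨ht1, ⟨hns, hcl, hst1, hrm⟩, hf1⟩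
  have h1 : AS n m k G D S stk EX (insert S.toFinset VS) recs s1 :=
    ⟨hns, hcl, hst.fr hf1 (by decide) (by decide) (by decide), hst1,
      hm.fr hf1 (by decide) (by decide) (by decide), hl.mono hcard, mem_insert_self _ _⟩
  refine Trt.cons ((pAloop_spec h1 hrm).imp ?_)
  rintro t2 s2 ⟨EX1, recs', hc2, ht2⟩
  have hnb : nbd k (VS.card + 1) D =
    200 * ((k + 1) * (D.r rnA + 1)) + 1000 * ((k + 2) * (VS.card + 1 + 3)) * (2 * D.r rnA + 1) +
    500 * (D.r rnn + D.r rnK + 1) * D.r rng + bb k D + 2 * bc k D +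
    200 * (k + 1) + k * (D.r rtau * (lc k + 200)) +
    (D.r rnT + 1) * (lc k + 200 * (D.r rnn + k + 2)) + 50 * (k + 1) + 100 := rfl
  rcases hc2 with ⟨h2, hA⟩ | h2
  · refine Trt.cons ((pLowloop_spec h2).imp ?_)
    rintro t3 s3 ⟨hc3, ht3⟩
    rcases hc3 with ⟨h3, hL⟩ | h3
    · refine Trt.cons ((pTabloop_spec h3).imp ?_)
      rintro t4 s4 ⟨hc4, ht4⟩
      rcases hc4 with ⟨h4, hT⟩ | h4
      · refine Trt.cons ((node_end (R := fun s' => s'.r rst = 0 ∧ Stk s' stk) h4.ns h4.cl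
          h4.memo h4.log (fun s' hf => ⟨by rw [hf.r rst (by decide), h4.st],
            h4.stk.fr hf (by decide) (by decide) (by decide)⟩)).imp ?_)
        rintro t5 s5 ⟨ht5, g1, g2, g3, g4, g5⟩
        refine Trt.nil ⟨g1, EX1, recs', g2, g3, Or.inl ⟨g4, g5,
          complete h.prep h.lt h.len h.nd hA hL hT⟩, ?_⟩
        rw [hnb]; omega
      · refine Trt.cons ((node_end (R := fun s' => s'.r rst = 1 ∧ BrOut n k G S stk s') h4.ns h4.cl
          h4.memo h4.log (fun s' hf => ⟨by rw [hf.r rst (by decide), h4.st],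
            h4.out.fr hf (by decide) (by decide) (by decide)⟩)).imp ?_)
        rintro t5 s5 ⟨ht5, g1, g2, g3, g4, g5⟩
        refine Trt.nil ⟨g1, EX1, recs', g2, g3, Or.inr ⟨g4, g5⟩, ?_⟩
        rw [hnb]; omega
    · refine Trt.cons ⟨_, _, skip_loop h3.st rfl, ?_⟩
      have h4 := h3.fr (fr_ri s3) (by decide) (by decide)
      refine Trt.cons ((node_end (R := fun s' => s'.r rst = 1 ∧ BrOut n k G S stk s') h4.ns h4.cl
        h4.memo h4.log (fun s' hf => ⟨by rw [hf.r rst (by decide), h4.st],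
          h4.out.fr hf (by decide) (by decide) (by decide)⟩)).imp ?_)
      rintro t5 s5 ⟨ht5, g1, g2, g3, g4, g5⟩
      refine Trt.nil ⟨g1, EX1, recs', g2, g3, Or.inr ⟨g4, g5⟩, ?_⟩
      rw [hnb]; simp only [Exp.cost]; omega
  · refine Trt.cons ⟨_, _, skip_loop h2.st rfl, ?_⟩
    have h3 := h2.fr (fr_ri s2) (by decide) (by decide)
    refine Trt.cons ⟨_, _, skip_loop h3.st rfl, ?_⟩
    have h4 := h3.fr (fr_ri _) (by decide) (by decide)
    refine Trt.cons ((node_end (R := fun s' => s'.r rst = 1 ∧ BrOut n k G S stk s') h4.ns h4.cl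
      h4.memo h4.log (fun s' hf => ⟨by rw [hf.r rst (by decide), h4.st],
        h4.out.fr hf (by decide) (by decide) (by decide)⟩)).imp ?_)
    rintro t5 s5 ⟨ht5, g1, g2, g3, g4, g5⟩
    refine Trt.nil ⟨g1, EX1, recs', g2, g3, Or.inr ⟨g4, g5⟩, ?_⟩
    rw [hnb]; simp only [Exp.cost]; omega

end TL
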