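import Pool.Agent.W_3fea_h44.NLowDefs

/-! # Cost of a node -/

namespace TL

open Relation Finset Classical

/-- cost of a node without the exams; `V` is the number of the visited states -/
def nbd (k V : ℕ) (D : St) : ℕ :=
  200 * ((k + 1) * (D.r rnA + 1)) + 1000 * ((k + 2) * (V + 3)) * (2 * D.r rnA + 1) +
  500 * (D.r rnn + D.r rnK + 1) * D.r rng + bb k D + 2 * bc k D +
  200 * (k + 1) + k * (D.r rtau * (lc k + 200)) +
  (D.r rnT + 1) * (lc k + 200 * (D.r rnn + k + 2)) + 50 * (k + 1) + 100

end TL
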