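import Pool.Agent.W_3fea_h44.NTreatDefs
import Pool.Agent.W_3fea_h44.NExam
import Pool.Agent.W_3fea_h44.NGtest
import Pool.Agent.W_3fea_h44.NMemoChk
import Pool.Agent.W_3fea_h44.NMemoAdd

/-! # The test part of `pTreat` -/

namespace TL

open Relation Finset Classical

variable {n m k : ℕ} {G : SimpleGraph ℕ} {D : St} {S : List ℕ} {stk : List (ℕ × ℕ)}

/-- the test part of `pTreat` -/
def pTest : Cmd :=
  .ite (.lt (A DEG (V rc)) (V rtau))
      (.blk [
        pMemoChk,
        .whn (.eq (V rfnd) (K 0)) (.blk [
          pExam,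
          .whn (.eq (V rnM) (K 0)) pMemoAdd])])
      pGtest

/-- the state between the test and the conclusion -/
structure Mid (n m k : ℕ) (G : SimpleGraph ℕ) (D : St) (S : List ℕ) (stk : List (ℕ × ℕ))
    (EX : List (Finset ℕ × ℕ)) (VS : Finset (Finset ℕ)) (recs : ℕ → List (List ℕ)) (x c : ℕ)
    (M : List (ℕ × ℕ)) (U : List ℕ) (s : St) : Prop where
  ns : NS n m k G D S s
  rx_ : s.r rx = x
  c_ : s.r rc = c
  stk : Stk s stk
  st : s.r rst = 0
  memo : MemoR n recs s
  log : LogI n k G (D.r rtau) EX VS recs
  vs : S.toFinset ∈ VS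
  nM : s.r rnM = M.length
  emp : M = [] → Closed G S.toFinset (Uc n G S.toFinset c)
  ts : M ≠ [] → TS n m k G D S c M s
  le : M.length ≤ 2 * k + 1
  ul : seg (s.m UL) 0 (s.r rnU) = U
  mu : ∀ v, v ∉ U → s.m MU v = 0
  pq : seg (s.m PQ) 0 (s.r rnp) = flat M
  mm : ∀ v, v ∉ flat M → s.m MM v = 0
  fl : ∀ v, v ∉ S → s.m FL v = 0
  cn : ∀ v, s.m CN v = 0
  cm1 : dg n G c < D.r rtau → ∀ q, s.m CM q = 0
  cm2 : D.r rtau ≤ dg n G c → ∀ q, D.r rnn ≤ q → s.m CM q = 0

theorem Closed.test {S U : Finset ℕ} {lim : ℕ} (h : Closed G S U) : IsTest G S U lim [] :=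
  { edge := by simp
    nd := by simp
    le := by simp
    cov := fun _ a ha b hab hb hb' => by
      rcases h a ha b hab with h' | h'
      · exact absurd h' hb
      · exact absurd h' hb' }

theorem AS.congr {EX : List (Finset ℕ × ℕ)} {VS : Finset (Finset ℕ)}
    {recs : ℕ → List (List ℕ)} {s s' : St} {wr wa : List ℕ}
    (h : AS n m k G D S stk EX VS recs s) (hf : Fr wr wa s s')
    (h1 : ∀ x ∈ nsR ++ clR ++ [rsp, rst, rmb], x ∉ wr)
    (h2 : ∀ a ∈ nsA ++ clA ++ [SV, SD, MP, MB], a ∉ wa) : AS n m k G D S stk EX VS recs s' :=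
  { ns := h.ns.fr hf (fun x hx => h1 x (by simp [hx])) (fun a ha => h2 a (by simp [ha]))
    cl := h.cl.fr hf (fun x hx => h1 x (by simp [hx])) (fun a ha => h2 a (by simp [ha]))
    stk := h.stk.fr hf (h1 _ (by simp)) (h2 _ (by simp)) (h2 _ (by simp))
    st := (hf.r rst (h1 _ (by simp))).trans h.st
    memo := h.memo.fr hf (h1 _ (by simp)) (h2 _ (by simp)) (h2 _ (by simp))
    log := h.log
    vs := h.vs }

theorem pTest_spec {EX : List (Finset ℕ × ℕ)} {VS : Finset (Finset ℕ)}
    {recs : ℕ → List (List ℕ)} {s : St} {x c : ℕ} (h : AS n m k G D S stk EX VS recs s)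
    (hx : s.r rx = x) (hxn : x < n) (hxS : x ∉ S) (hc : s.r rc = c) (hcn : c < n)
    (hb : IsBest n G S.toFinset x c) (hdc : dl k ≤ dg n G c) :
    Trt s pTest (fun t s' => ∃ EX1 recs' M U,
      Mid n m k G D S stk (EX1 ++ EX) VS recs' x c M U s' ∧
      t + 100 * U.length ≤ 300 * ((k + 2) * (VS.card + 2)) + (EX1.map (xc n k G D)).sum +
        (if M = [] then 0 else e1 k (D.r rtau) + xn k (D.r rtau)) +
        (if D.r rtau ≤ dg n G c then 300 * (D.r rnn + D.r rnK + 1) else 0)) := by
  have hP := h.ns.prep
  have hG := hP.inn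
  have hcS : c ∉ S := by have := hb.notin; simpa using this
  have hxS' : x ∉ S.toFinset := by simpa using hxS
  have hdeg : s.m DEG c = dg n G c := by
    rw [h.ns.agr.m DEG (by decide)]; exact hP.a.deg c
  have htau : s.r rtau = D.r rtau := h.ns.agr.r rtau (by decide)
  have hlen := h.ns.len
  have hUle : dg n G c < D.r rtau → (Uc n G S.toFinset c).card ≤ D.r rtau := by
    intro hg
    rw [card_Uc hG]
    have := dp_le_dg (n := n) (G := G) (S := S.toFinset) c
    omega
  by_cases hg : dg n G c < D.r rtau
  · have hgn : ¬ D.r rtau ≤ dg n G c := not_le.2 hg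
    refine Trt.ite (fun _ => ?_) (fun hf => ?_)
    swap
    · simp [hc, hdeg, htau, hg] at hf
    -- look-up
    obtain ⟨s1, t1, r1, ht1, q1, f1⟩ := (pMemoChk_spec h.memo h.ns.ins hc hcn).fr
    have hlook := h.log.look_le hcn
    have h1 : AS n m k G D S stk EX VS recs s1 := h.congr f1 (by decide) (by decide)
    have hx1 : s1.r rx = x := (f1.r rx (by decide)).trans hx
    have hc1 : s1.r rc = c := (f1.r rc (by decide)).trans hc
    have htt1 : t1 ≤ 100 * ((k + 2) * VS.card + 1) := ht1.trans (by omega)
    rcases q1 with ⟨hf0, hnf⟩ | ⟨hf1, hfd⟩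
    · -- not found: exam
      obtain ⟨s2, t2, r2, ⟨M, fl, hxs, htest, hfl1, hfl2, ht2⟩, f2⟩ :=
        (pExam_spec h1.ns h1.cl hc1 hcn hcS).fr
      have hx2 : s2.r rx = x := (f2.r rx (by decide)).trans hx1
      have hstk2 : Stk s2 stk := h1.stk.fr f2 (by decide) (by decide) (by decide)
      have hst2 : s2.r rst = 0 := (f2.r rst (by decide)).trans h1.st
      have hmemo2 : MemoR n recs s2 := h1.memo.fr f2 (by decide) (by decide) (by decide)
      have hUL : (uL D S c).length = (Uc n G S.toFinset c).card := by
        rw [uL_length hP hcn, card_Uc hG]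
      have hxe : 500 * (uL D S c).length ≤ xe n k G D S.toFinset c := by
        rw [hUL, xe]
        have : (Uc n G S.toFinset c).card ≤
            ∑ a ∈ Uc n G S.toFinset c, ((bk D a).length + 1) := by
          rw [Finset.card_eq_sum_ones]
          exact Finset.sum_le_sum (fun a _ => by omega)
        nlinarith [Nat.zero_le ((k + 1) * (4 * k + 2))]
      have hmid : ∀ (EX' : List (Finset ℕ × ℕ)) (recs' : ℕ → List (List ℕ)) (s3 : St),
          XS n m k G D S c M (fun _ => 0) fl s3 → s3.r rx = x → Stk s3 stk → s3.r rst = 0 →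
          MemoR n recs' s3 → LogI n k G (D.r rtau) EX' VS recs' →
          Mid n m k G D S stk EX' VS recs' x c M (uL D S c) s3 := by
        intro EX' recs' s3 hxs3 a1 a2 a3 a4 a5
        refine { ns := hxs3.ns, rx_ := a1, c_ := hxs3.c_, stk := a2, st := a3, memo := a4,
                 log := a5, vs := h.vs, nM := hxs3.nM, emp := ?_, ts := fun _ => hxs3.ts htest,
                 le := ?_, ul := hxs3.ul, mu := ?_, pq := hxs3.pq, mm := ?_, fl := ?_,
                 cn := hxs3.cn, cm1 := fun _ => hxs3.cm, cm2 := fun _ q _ => hxs3.cm q }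
        · rintro rfl
          exact (htest.dom hG hxn hxS' hb.isArg (by omega)).1
        · have := hxs3.le; omega
        · intro v hv; rw [hxs3.mu, ind, if_neg hv]
        · intro v hv; rw [hxs3.mm, ind, if_neg hv]
        · intro v hv
          rw [hxs3.fl, if_neg (fun hh => hv (hfl1 v hh))]
      by_cases hM : M = []
      · -- closed: store the record
        subst hM
        have hcl := (htest.dom hG hxn hxS' hb.isArg (by omega)).1
        have hnM : s2.r rnM = 0 := hxs.nM
        obtain ⟨s3, t3, r3, ht3, hmemo3, f3⟩ :=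
          (pMemoAdd_spec hmemo2 hxs.ns.sa hxs.fl hxs.c_ hcn).fr
        have hxs3 : XS n m k G D S c [] (fun _ => 0) fl s3 := hxs.fr f3 (by decide) (by decide)
        have hlog3 := h.log.add hG h.vs hcn (by simpa using hcS) hdc hg hcl
          (hb.isTop hG hxS' hcl) (by simpa using hnf)
          (W0 := S.filter (fun v => decide (fl v)))
          ((List.length_filter_le _ _).trans hlen) (by
            intro w
            rw [List.mem_filter, decide_eq_true_eq, hfl2 rfl w, List.mem_toFinset]
            tauto)
        refine ⟨s3, _, Run.cons r1 (Run.cons (Run.iteT (by simp [hf0]) (Run.cons r2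
          (Run.cons (Run.iteT (by simp [hnM]) r3) (Run.nil _)))) (Run.nil _)),
          [(S.toFinset, c)], _, [], uL D S c,
          hmid _ _ s3 hxs3 ((f3.r rx (by decide)).trans hx2)
            (hstk2.fr f3 (by decide) (by decide) (by decide))
            ((f3.r rst (by decide)).trans hst2) hmemo3 hlog3, ?_⟩
        have hS3 : t3 ≤ 100 * (k + 1) := ht3.trans (by omega)
        simp only [if_true] at ht2
        simp only [Cond.cost, Exp.cost, List.map_cons, List.map_nil, List.sum_cons, List.sum_nil,
          if_true, if_neg hgn, xc]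
        have e0 : (k + 2) * (VS.card + 2) = (k + 2) * VS.card + 2 * k + 4 := by ring
        rw [e0]
        omega
      · have hnM : s2.r rnM ≠ 0 := by
          rw [hxs.nM]
          intro h0
          exact hM (List.length_eq_zero_iff.1 h0)
        refine ⟨s2, _, Run.cons r1 (Run.cons (Run.iteT (by simp [hf0]) (Run.cons r2
          (Run.cons (Run.iteF (by simp [hnM]) (Run.skip _)) (Run.nil _)))) (Run.nil _)),
          [], recs, M, uL D S c,
          hmid _ _ s2 hxs hx2 hstk2 hst2 hmemo2 h.log, ?_⟩
        have hxee : xe n k G D S.toFinset c * 2 ≤ e1 k (D.r rtau) := by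
          have := xc_le_e1 hP (e := (S.toFinset, c)) hcn hg
          simp only [xc] at this
          omega
        have hxn : xn k (Uc n G S.toFinset c).card ≤ xn k (D.r rtau) := by
          unfold xn
          exact Nat.mul_le_mul_left _ (by have := hUle hg; omega)
        simp only [if_neg hM] at ht2
        simp only [Cond.cost, Exp.cost, List.map_nil, List.sum_nil, if_neg hM, if_neg hgn]
        have e0 : (k + 2) * (VS.card + 2) = (k + 2) * VS.card + 2 * k + 4 := by ring
        rw [e0]
        omega
    · -- found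
      have hcl := h.log.found hG hcn (S := S.toFinset) (by simpa using hcS) (by simpa using hfd)
      refine ⟨s1, _, Run.cons r1 (Run.cons (Run.iteF (by simp [hf1]) (Run.skip _)) (Run.nil _)),
        [], recs, [], [], ?_, ?_⟩
      · refine { ns := h1.ns, rx_ := hx1, c_ := hc1, stk := h1.stk, st := h1.st, memo := h1.memo,
                 log := h1.log, vs := h.vs, nM := h1.cl.nM, emp := fun _ => hcl,
                 ts := fun h0 => absurd rfl h0,
                 le := by simp, ul := by rw [h1.cl.nU]; simp, mu := fun v _ => h1.cl.mu v,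
                 pq := by rw [h1.cl.np]; simp, mm := fun v _ => h1.cl.mm v,
                 fl := fun v _ => h1.cl.fl v,
                 cn := h1.cl.cn, cm1 := fun _ => h1.cl.cm, cm2 := fun _ q _ => h1.cl.cm q }
      · simp only [Cond.cost, Exp.cost, List.map_nil, List.sum_nil, if_true, if_neg hgn,
          List.length_nil]
        have e0 : (k + 2) * (VS.card + 2) = (k + 2) * VS.card + 2 * k + 4 := by ring
        rw [e0]
        omega
  · -- giant
    have hg' : D.r rtau ≤ dg n G c := not_lt.1 hg
    refine Trt.ite (fun hf => ?_) (fun _ => ?_)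
    · simp only [Cond.ev_lt, Exp.ev_get, Exp.ev_reg, hc, hdeg, htau, decide_eq_true_eq] at hf
      exact absurd hf hg
    obtain ⟨s1, t1, r1, ht1, ⟨M, hts, hcm⟩, f1⟩ := (pGtest_spec h.ns h.cl hc hcn hcS hg').fr
    refine ⟨s1, t1, r1, [], recs, M, [], ?_, ?_⟩
    · refine { ns := hts.ns, rx_ := (f1.r rx (by decide)).trans hx, c_ := hts.c_,
               stk := h.stk.fr f1 (by decide) (by decide) (by decide),
               st := (f1.r rst (by decide)).trans h.st,
               memo := h.memo.fr f1 (by decide) (by decide) (by decide),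
               log := h.log, vs := h.vs, nM := hts.nM, emp := ?_, ts := fun _ => hts,
               le := ?_, ul := ?_, mu := ?_, pq := hts.pq, mm := ?_, fl := ?_, cn := ?_,
               cm1 := fun h0 => absurd h0 hg, cm2 := fun _ => hcm }
      · rintro rfl
        exact (hts.test.dom hG hxn hxS' hb.isArg (by omega)).1
      · have := hts.test.le; omega
      · rw [f1.r rnU (by decide), h.cl.nU]; simp
      · intro v _; rw [f1.m MU (by decide)]; exact h.cl.mu v
      · intro v hv; rw [hts.mm, ind, if_neg hv]
      · intro v _; rw [f1.m FL (by decide)]; exact h.cl.fl v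
      · intro v; rw [f1.m CN (by decide)]; exact h.cl.cn v
    · simp only [Cond.cost, Exp.cost, List.map_nil, List.sum_nil, List.length_nil, if_pos hg']
      have e0 : (k + 2) * (VS.card + 2) = (k + 2) * VS.card + 2 * k + 4 := by ring
      rw [e0]
      split_ifs <;> omega

end TL
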