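import Pool.Agent.W_3fea_h44.NTest
import Pool.Agent.W_3fea_h44.NClean
import Pool.Agent.W_3fea_h44.NArgmax
import Pool.Agent.W_3fea_h44.NRemove
import Pool.Agent.W_3fea_h44.NBranch

/-! # Specification of `pTreat` -/

namespace TL

open Relation Finset Classical

variable {n m k : ℕ} {G : SimpleGraph ℕ} {D : St} {S : List ℕ} {stk : List (ℕ × ℕ)}

theorem mem_adA {v : ℕ} (hP : Prep n m k G D) (hv : v < n) (y : ℕ) :
    y ∈ adA D v ↔ G.Adj v y ∧ dl k ≤ dg n G y := by
  rw [hP.a.ada v hv, List.mem_filter, decide_eq_true_eq]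
  have := hP.a.adj.mem v hv y
  rw [adjL, this]

theorem adA_nodup {v : ℕ} (hP : Prep n m k G D) (hv : v < n) : (adA D v).Nodup := by
  rw [hP.a.ada v hv]
  exact (hP.a.adj.nd v hv).filter _

/-- unmarked vertices of large degree -/
noncomputable def unA (n k : ℕ) (G : SimpleGraph ℕ) (s : St) : Finset ℕ :=
  (range n).filter (fun v => dl k ≤ dg n G v ∧ s.m RM v = 0)

/-- unmarked giants -/
noncomputable def unG (n : ℕ) (G : SimpleGraph ℕ) (D : St) (s : St) : Finset ℕ :=
  (range n).filter (fun v => D.r rtau ≤ dg n G v ∧ s.m RM v = 0)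

theorem pot_eq (V : ℕ) (s : St) : pot n k V G D s =
    1000 * ((k + 2) * (V + 3)) * (unA n k G s).card +
      500 * (D.r rnn + D.r rnK + 1) * (unG n G D s).card := rfl

/-- vertices of large degree in the component of an unmarked vertex are unmarked -/
theorem RmOK.zero {s : St} (h : RmOK n k G S s) {x v : ℕ} (hxn : x < n)
    (hx : dl k ≤ dg n G x) (hrx : s.m RM x = 0) (hvn : v < n) (hv : dl k ≤ dg n G v)
    (hr : Rch G S.toFinset v x) : s.m RM v = 0 := by
  rcases h.1 v hvn hv with h0 | h1
  · exact h0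
  · have := (h.2 v hvn hv h1).2.2 x hxn hx hr
    omega

theorem adA_length_le {s : St} (hP : Prep n m k G D) (h : RmOK n k G S s) {x : ℕ} (hxn : x < n)
    (hxS : x ∉ S) (hlen : S.length ≤ k) (hx : dl k ≤ dg n G x) (hrx : s.m RM x = 0)
    {T : Finset ℕ} (hT : ∀ v, G.Adj x v → v ∉ S → dl k ≤ dg n G v → s.m RM v = 0 → v ∈ T) :
    (adA D x).length ≤ T.card + k := by
  rw [← List.toFinset_card_of_nodup (adA_nodup hP hxn)]
  have h1 : (adA D x).toFinset ⊆ T ∪ S.toFinset := by
    intro v hv
    rw [List.mem_toFinset, mem_adA hP hxn] at hv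
    rw [Finset.mem_union, List.mem_toFinset]
    by_cases hvS : v ∈ S
    · exact Or.inr hvS
    · left
      refine hT v hv.1 hvS hv.2 ?_
      refine h.zero hxn hx hrx (hP.inn.right hv.1) hv.2 ?_
      exact Rch.step hv.1.symm (by simpa using hxS)
  refine (Finset.card_le_card h1).trans ((Finset.card_union_le _ _).trans ?_)
  have := List.toFinset_card_le S
  omega

theorem trA1 (X a b : ℕ) (h : a + 1 ≤ b) : X * a + X ≤ X * b := by
  have := Nat.mul_le_mul_left X h
  have e : X * (a + 1) = X * a + X := by ring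
  omega

theorem trA2 (P b : ℕ) (hP : 1 ≤ P) (hb : 1 ≤ b) :
    1000 * P + (b - 1) * 1000 ≤ 1000 * P * b := by
  obtain ⟨a, rfl⟩ : ∃ a, b = a + 1 := ⟨b - 1, by omega⟩
  have h1 : a * 1000 ≤ 1000 * P * a := by nlinarith
  have e : 1000 * P * (a + 1) = 1000 * P * a + 1000 * P := by ring
  have h3 : a + 1 - 1 = a := rfl
  rw [h3]
  omega

theorem trA3 (k v : ℕ) : k + 2 ≤ (k + 2) * (v + 2) := by nlinarith [Nat.zero_le v, Nat.zero_le k]

theorem trF1 {t1 t2 t3 t4 t5 ax ac Bc k U sm P2 P3 PB N1 nn GS GS5 PA : ℕ} {g : Prop}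
    [Decidable g] (h1 : t1 ≤ 100 * (ax + 1))
    (h2 : t2 + 100 * U ≤ 300 * P2 + sm + 0 + (if g then 300 * N1 else 0))
    (h3 : t3 ≤ 100 * (ac + 1)) (h4 : t4 ≤ 50 * (U + k + 1))
    (h5 : t5 ≤ 10 + (if g then 20 * (nn + 1) else 0)) (hN : nn + 1 ≤ N1)
    (hax : ax ≤ Bc + k) (hac : ac ≤ Bc + k) (hP3 : P3 = P2 + k + 2) (hP2 : k + 2 ≤ P2)
    (hB : 1 ≤ Bc) (hPB : 1000 * P3 + (Bc - 1) * 1000 ≤ PB)
    (hG : GS5 + (if g then 500 * N1 else 0) ≤ GS) :
    t1 + (t2 + (3 + 1 + t3 + (t4 + (t5 + 1)))) + (PA + GS5) ≤ PA + PB + GS + sm := by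
  split_ifs at h2 h5 hG <;> omega

theorem trF2 {t1 t2 t3 t4 t5 ax un k U sm P2 P3 PB N1 nn GS e x b tau : ℕ} {g : Prop}
    [Decidable g] (h1 : t1 ≤ 100 * (ax + 1))
    (h2 : t2 + 100 * U ≤ 300 * P2 + sm + (e + x) + (if g then 300 * N1 else 0))
    (h3 : t3 ≤ b) (h4 : t4 ≤ 50 * (U + (4 * k + 2) + k + 1))
    (h5 : t5 ≤ 10 + (if g then 20 * (nn + 1) else 0)) (hN : nn + 1 ≤ N1)
    (hax : ax ≤ un + k) (hP3 : P3 = P2 + k + 2) (hP2 : k + 2 ≤ P2)
    (hB : 1 ≤ un) (hPB : 1000 * P3 + (un - 1) * 1000 ≤ PB)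
    (hG : (if g then 500 * N1 else 0) ≤ GS) :
    t1 + (t2 + (3 + 1 + t3 + (t4 + (t5 + 1)))) ≤
      PB + GS + sm + (b + e + x + 1000 * (tau + 6 * k + 6)) := by
  split_ifs at h2 h5 hG <;> omega

theorem trA4 (P a b : ℕ) : 1000 * P * (a + b) = 1000 * P * a + 1000 * P * b := by ring

theorem pTreat_spec {EX : List (Finset ℕ × ℕ)} {VS : Finset (Finset ℕ)}
    {recs : ℕ → List (List ℕ)} {s : St} {x : ℕ} (h : AS n m k G D S stk EX VS recs s)
    (hrm : RmOK n k G S s) (hx : s.r rx = x) (hxn : x < n) (hxS : x ∉ S) (hrx : s.m RM x = 0)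
    (hdp : dl k ≤ dp n G S.toFinset x) :
    Trt s pTreat (fun t s' => ∃ EX1 recs',
      (AS n m k G D S stk (EX1 ++ EX) VS recs' s' ∧ RmOK n k G S s' ∧ Dom G S.toFinset x ∧
        t + pot n k VS.card G D s' ≤ pot n k VS.card G D s + (EX1.map (xc n k G D)).sum) ∨
      (BS n m k G D S stk (EX1 ++ EX) VS recs' s' ∧
        t ≤ pot n k VS.card G D s + (EX1.map (xc n k G D)).sum + bb k D)) := by
  have hP := h.ns.prep
  have hG := hP.inn
  have hxS' : x ∉ S.toFinset := by simpa using hxS
  have hlen := h.ns.len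
  obtain ⟨s1, t1, r1, ht1, ⟨hcn, hbest⟩, f1⟩ := (pArgmax_spec h.ns hx hxn hxS hdp).fr
  obtain ⟨c, hc⟩ : ∃ c, s1.r rc = c := ⟨_, rfl⟩
  rw [hc] at hcn hbest
  have hcS' : c ∉ S.toFinset := hbest.notin
  have hcS : c ∉ S := by simpa using hcS'
  have hdx : dl k ≤ dg n G x := hdp.trans (dp_le_dg x)
  have hdc : dl k ≤ dg n G c :=
    (hdp.trans (hbest.isArg.max x hxS' (Or.inl rfl))).trans (dp_le_dg c)
  have hcx : Rch G S.toFinset c x := by
    rcases hbest.mem with e | e
    · rw [e]; exact Rch.refl _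
    · exact Rch.step e.symm hxS'
  have hrc0 : s.m RM c = 0 := hrm.zero hxn hdx hrx hcn hdc hcx
  have h1 : AS n m k G D S stk EX VS recs s1 := h.congr f1 (by decide) (by decide)
  have hx1 : s1.r rx = x := (f1.r rx (by decide)).trans hx
  obtain ⟨s2, t2, r2, ⟨EX1, recs', M, U, hmid, ht2⟩, f2⟩ :=
    (pTest_spec h1 hx1 hxn hxS hc hcn hbest hdc).fr
  have hRM2 : s2.m RM = s.m RM := (f2.m RM (by decide)).trans (f1.m RM (by decide))
  have htau : ∀ s' : St, Agr D s' → s'.r rtau = D.r rtau := fun s' ha => ha.r rtau (by decide)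
  have hdegs : ∀ s' : St, Agr D s' → s'.m DEG c = dg n G c := by
    intro s' ha; rw [ha.m DEG (by decide)]; exact hP.a.deg c
  have hmemUc : ∀ v, v ∈ Uc n G S.toFinset c ↔ v = c ∨ (G.Adj c v ∧ v ∉ S) := by
    intro v; rw [mem_Uc hG, List.mem_toFinset]
  have hxU : x ∈ Uc n G S.toFinset c := by
    rw [hmemUc]
    rcases hbest.mem with e | e
    · exact Or.inl e.symm
    · exact Or.inr ⟨e.symm, hxS⟩
  have hone : 1 ≤ (unA n k G s).card := Finset.card_pos.2
    ⟨x, by simp [unA, hxn, hdx, hrx]⟩
  have hP1 : (k + 2) * (VS.card + 3) = (k + 2) * (VS.card + 2) + k + 2 := by ring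
  have hP2 : k + 2 ≤ (k + 2) * (VS.card + 2) := trA3 k VS.card
  by_cases hM : M = []
  · -- closed
    subst hM
    have hcl := hmid.emp rfl
    have hdom : Dom G S.toFinset x := dom_of_closed hG hcS' hxU hcl
    have hnM : s2.r rnM = 0 := hmid.nM
    obtain ⟨s3, t3, r3, ht3, hRM3, f3⟩ := (pRemove_spec hmid.ns hmid.c_ hcn).fr
    have hRM3' : ∀ v < n, dl k ≤ dg n G v →
        s3.m RM v = if v ∈ Uc n G S.toFinset c then 1 else s.m RM v := by
      intro v hv hd
      rw [hRM3, hRM2]
      have : (v = c ∨ v ∈ adA D c ∧ v ∉ S) ↔ v ∈ Uc n G S.toFinset c := by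
        rw [hmemUc, mem_adA hP hcn]
        tauto
      by_cases hvU : v ∈ Uc n G S.toFinset c
      · rw [if_pos (this.2 hvU), if_pos hvU]
      · rw [if_neg (fun h' => hvU (this.1 h')), if_neg hvU]
    have hns3 : NS n m k G D S s3 := hmid.ns.fr f3 (by decide) (by decide)
    obtain ⟨s4, t4, r4, ht4, ⟨q1, q2, q3, q4, q5, q6⟩, f4⟩ :=
      (pClean_spec (s := s3) (U := U) (Q := []) (S := S)
        (by rw [f3.m UL (by decide), f3.r rnU (by decide)]; exact hmid.ul)
        (by rw [f3.m PQ (by decide), f3.r rnp (by decide)]; exact hmid.pq) hns3.sa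
        (by intro v hv; rw [f3.m MU (by decide)]; exact hmid.mu v hv)
        (by intro v hv; rw [f3.m MM (by decide)]; exact hmid.mm v (by simp))
        (by intro v hv; rw [f3.m FL (by decide)]; exact hmid.fl v hv)).fr
    have hns4 : NS n m k G D S s4 := hns3.fr f4 (by decide) (by decide)
    have hcm4 : s4.m CM = s2.m CM := (f4.m CM (by decide)).trans (f3.m CM (by decide))
    have hcn4 : ∀ v, s4.m CN v = 0 := by
      intro v; rw [f4.m CN (by decide), f3.m CN (by decide)]; exact hmid.cn v
    -- last step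
    obtain ⟨s5, t5, r5, ht5, hcm5, f5⟩ : ∃ s5 t5, Run (.ite (.lt (A DEG (V rc)) (V rtau)) .skip
        pCleanG) s4 t5 s5 ∧ t5 ≤ 10 + (if D.r rtau ≤ dg n G c then 20 * (D.r rnn + 1) else 0) ∧
        (∀ q, s5.m CM q = 0) ∧ Fr pCleanG.wr pCleanG.wa s4 s5 := by
      have hc4 : s4.r rc = c := ((f4.r rc (by decide)).trans (f3.r rc (by decide))).trans hmid.c_
      have hev : (Cond.lt (A DEG (V rc)) (V rtau)).ev s4 = decide (dg n G c < D.r rtau) := by
        simp only [Cond.ev_lt, Exp.ev_get, Exp.ev_reg, hc4, hdegs s4 hns4.agr, htau s4 hns4.agr]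
      by_cases hg : dg n G c < D.r rtau
      · refine ⟨s4, _, Run.iteT (by rw [hev]; simp [hg]) (Run.skip _), ?_, ?_, Fr.refl _⟩
        · simp only [Cond.cost, Exp.cost]; omega
        · intro q; rw [hcm4]; exact hmid.cm1 hg q
      · obtain ⟨s5, t5, r5, ht5, hcm5, f5⟩ := (pCleanG_spec (s := s4) (nn := D.r rnn)
          (hns4.agr.r rnn (by decide)) (by
            intro q hq; rw [hcm4]; exact hmid.cm2 (not_lt.1 hg) q hq)).fr
        refine ⟨s5, _, Run.iteF (by rw [hev]; simp [hg]) r5, ?_, hcm5, f5⟩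
        rw [if_pos (not_lt.1 hg)]
        simp only [Cond.cost, Exp.cost]; omega
    have hns5 : NS n m k G D S s5 := hns4.fr f5 (by decide) (by decide)
    have hRM5 : s5.m RM = s3.m RM := (f5.m RM (by decide)).trans (f4.m RM (by decide))
    refine ⟨s5, _, Run.cons r1 (Run.cons r2 (Run.cons (Run.iteT (by simp [hnM]) r3)
      (Run.cons r4 (Run.cons r5 (Run.nil _))))), EX1, recs', Or.inl ⟨?_, ?_, hdom, ?_⟩⟩
    · refine { ns := hns5, cl := ?_, stk := ?_, st := ?_, memo := ?_, log := hmid.log,
               vs := hmid.vs }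
      · exact { mu := fun v => by rw [f5.m MU (by decide)]; exact q1 v
                mm := fun v => by rw [f5.m MM (by decide)]; exact q2 v
                cn := fun v => by rw [f5.m CN (by decide)]; exact hcn4 v
                fl := fun v => by rw [f5.m FL (by decide)]; exact q3 v
                cm := hcm5
                nU := (f5.r rnU (by decide)).trans q4
                np := (f5.r rnp (by decide)).trans q5
                nM := (f5.r rnM (by decide)).trans q6 }
      · exact ((hmid.stk.fr f3 (by decide) (by decide) (by decide)).fr f4 (by decide) (by decide)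
          (by decide)).fr f5 (by decide) (by decide) (by decide)
      · rw [f5.r rst (by decide), f4.r rst (by decide), f3.r rst (by decide)]; exact hmid.st
      · exact ((hmid.memo.fr f3 (by decide) (by decide) (by decide)).fr f4 (by decide) (by decide)
          (by decide)).fr f5 (by decide) (by decide) (by decide)
    · refine ⟨fun v hv hd => ?_, fun v hv hd h1' => ?_⟩
      · rw [hRM5, hRM3' v hv hd]
        split_ifs
        · exact Or.inr rfl
        · exact hrm.1 v hv hd
      · rw [hRM5, hRM3' v hv hd] at h1'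
        by_cases hvU : v ∈ Uc n G S.toFinset c
        · have hvS : v ∉ S.toFinset := Uc_disjoint hG hcS' v hvU
          refine ⟨by simpa using hvS, dom_of_closed hG hcS' hvU hcl, fun w hw hdw hr => ?_⟩
          rw [hRM5, hRM3' w hw hdw, if_pos ((rch_iff_of_closed hG hcS' hvU hcl).1 hr)]
        · rw [if_neg hvU] at h1'
          obtain ⟨a1, a2, a3⟩ := hrm.2 v hv hd h1'
          refine ⟨a1, a2, fun w hw hdw hr => ?_⟩
          rw [hRM5, hRM3' w hw hdw]
          split_ifs
          · rfl
          · exact a3 w hw hdw hr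
    · -- cost
      set B : Finset ℕ := (range n).filter (fun v => dl k ≤ dg n G v ∧ v ∈ Uc n G S.toFinset c)
        with hB
      have hBz : ∀ v ∈ B, s.m RM v = 0 := by
        intro v hv
        rw [hB, Finset.mem_filter, Finset.mem_range] at hv
        refine hrm.zero hxn hdx hrx hv.1 hv.2.1 ?_
        exact (rch_iff_of_closed hG hcS' hv.2.2 hcl).2 hxU
      have hBsub : B ⊆ unA n k G s := by
        intro v hv
        have hv' := hBz v hv
        rw [hB, Finset.mem_filter, Finset.mem_range] at hv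
        simp only [unA, Finset.mem_filter, Finset.mem_range]
        exact ⟨hv.1, hv.2.1, hv'⟩
      have hnew : unA n k G s5 = unA n k G s \ B := by
        ext v
        simp only [unA, hB, Finset.mem_sdiff, Finset.mem_filter, Finset.mem_range]
        constructor
        · rintro ⟨a1, a2, a3⟩
          rw [hRM5, hRM3' v a1 a2] at a3
          by_cases hvU : v ∈ Uc n G S.toFinset c
          · rw [if_pos hvU] at a3; omega
          · rw [if_neg hvU] at a3
            exact ⟨⟨a1, a2, a3⟩, fun h' => hvU h'.2.2⟩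
        · rintro ⟨⟨a1, a2, a3⟩, a4⟩
          refine ⟨a1, a2, ?_⟩
          rw [hRM5, hRM3' v a1 a2, if_neg (fun hvU => a4 ⟨a1, a2, hvU⟩)]
          exact a3
      have hcard : (unA n k G s5).card + B.card = (unA n k G s).card := by
        rw [hnew]; exact Finset.card_sdiff_add_card_eq_card hBsub
      have hB1 : 1 ≤ B.card := Finset.card_pos.2 ⟨x, by
        simp only [hB, Finset.mem_filter, Finset.mem_range]; exact ⟨hxn, hdx, hxU⟩⟩
      have hUcl : ∀ a ∈ Uc n G S.toFinset c, ∀ v, G.Adj a v → v ∉ S → dl k ≤ dg n G v →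
          v ∈ B := by
        intro a ha v hav hvS hdv
        simp only [hB, Finset.mem_filter, Finset.mem_range]
        refine ⟨hG.right hav, hdv, ?_⟩
        rcases hcl a ha v hav with h' | h'
        · exact h'
        · exact absurd (by simpa using h') hvS
      have hlx : (adA D x).length ≤ B.card + k :=
        adA_length_le hP hrm hxn hxS hlen hdx hrx (fun v h1 h2 h3 _ => hUcl x hxU v h1 h2 h3)
      have hlc : (adA D c).length ≤ B.card + k :=
        adA_length_le hP hrm hcn hcS hlen hdc hrc0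
          (fun v h1 h2 h3 _ => hUcl c (self_mem_Uc c) v h1 h2 h3)
      -- giants
      have hgle : (unG n G D s5).card + (if D.r rtau ≤ dg n G c then 1 else 0) ≤
          (unG n G D s).card := by
        have hdlt : dl k ≤ D.r rtau := by rw [hP.a.rtau_]; exact le_trans (by omega) (le_max_left _ _)
        have hsub : unG n G D s5 ⊆ unG n G D s := by
          intro v hv
          simp only [unG, Finset.mem_filter, Finset.mem_range] at hv ⊢
          obtain ⟨a1, a2, a3⟩ := hv
          refine ⟨a1, a2, ?_⟩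
          rw [hRM5, hRM3' v a1 (hdlt.trans a2)] at a3
          split_ifs at a3
          exact a3
        split_ifs with hg
        · have hcnot : c ∉ unG n G D s5 := by
            simp only [unG, Finset.mem_filter, Finset.mem_range]
            rintro ⟨_, _, a3⟩
            rw [hRM5, hRM3' c hcn hdc, if_pos (self_mem_Uc c)] at a3
            omega
          have hcin : c ∈ unG n G D s := by
            simp only [unG, Finset.mem_filter, Finset.mem_range]
            exact ⟨hcn, hg, hrc0⟩
          have := Finset.card_lt_card (Finset.ssubset_iff_of_subset hsub |>.2 ⟨c, hcin, hcnot⟩)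
          omega
        · have := Finset.card_le_card hsub
          omega
      rw [pot_eq, pot_eq, ← hcard]
      have hgg : 500 * (D.r rnn + D.r rnK + 1) * (unG n G D s5).card +
          (if D.r rtau ≤ dg n G c then 500 * (D.r rnn + D.r rnK + 1) else 0) ≤
          500 * (D.r rnn + D.r rnK + 1) * (unG n G D s).card := by
        split_ifs at hgle ⊢
        · exact trA1 _ _ _ hgle
        · exact Nat.mul_le_mul_left _ hgle
      have hBB : 1000 * ((k + 2) * (VS.card + 3)) + (B.card - 1) * 1000 ≤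
          1000 * ((k + 2) * (VS.card + 3)) * B.card := trA2 _ _ (by omega) hB1
      have hdist : 1000 * ((k + 2) * (VS.card + 3)) * ((unA n k G s5).card + B.card) =
          1000 * ((k + 2) * (VS.card + 3)) * (unA n k G s5).card +
          1000 * ((k + 2) * (VS.card + 3)) * B.card := trA4 _ _ _
      rw [hdist]
      have ht4' : t4 ≤ 50 * (U.length + k + 1) := ht4.trans (by simp only [List.length_nil]; omega)
      simp only [if_true] at ht2
      exact trF1 ht1 ht2 ht3 ht4' ht5 (by omega) hlx hlc hP1 hP2 hB1 hBB hgg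
  · -- branching
    have hts := hmid.ts hM
    have hnM : s2.r rnM ≠ 0 := by
      rw [hmid.nM]; intro h0; exact hM (List.length_eq_zero_iff.1 h0)
    obtain ⟨s3, t3, r3, ht3, ⟨Q, hclo, hPQ, hMM, hst3, hstk1, hstk2⟩, f3⟩ :=
      (pBranch_spec hts hmid.rx_ hmid.stk).fr
    have hns3 : NS n m k G D S s3 := hmid.ns.fr f3 (by decide) (by decide)
    have hcardS : S.toFinset.card = S.length := List.toFinset_card_of_nodup h.ns.nd
    have hQlen : Q.length ≤ 4 * (k - S.length) + 2 := IsClo.length_le hts.test hclo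
    have hout := hclo.out hG hxn hxS' hbest.isArg hts.test
    have hbr : BrOut n k G S stk s3 := by
      refine ⟨⟨x, hxn, hxS, hts.test.not_dom hG hxn hxS' hbest.isArg hM⟩, x :: c :: Q, hstk1,
        hstk2, ?_, ?_, ?_⟩
      · simp only [List.length_cons]; omega
      · intro y hy
        have := hout y hy
        exact ⟨this.1, by simpa using this.2⟩
      · intro hsol
        refine branch hG hxn hxS' hbest.isArg hM ?_ ?_ hsol
        · rw [hcardS]; exact hts.test
        · rw [hcardS]; exact hclo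
    obtain ⟨s4, t4, r4, ht4, ⟨q1, q2, q3, q4, q5, q6⟩, f4⟩ :=
      (pClean_spec (s := s3) (U := U) (Q := Q) (S := S)
        (by rw [f3.m UL (by decide), f3.r rnU (by decide)]; exact hmid.ul)
        hPQ hns3.sa
        (by intro v hv; rw [f3.m MU (by decide)]; exact hmid.mu v hv)
        (by intro v hv; rw [hMM, ind, if_neg hv])
        (by intro v hv; rw [f3.m FL (by decide)]; exact hmid.fl v hv)).fr
    have hns4 : NS n m k G D S s4 := hns3.fr f4 (by decide) (by decide)
    have hcm4 : s4.m CM = s2.m CM := (f4.m CM (by decide)).trans (f3.m CM (by decide))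
    have hcn4 : ∀ v, s4.m CN v = 0 := by
      intro v; rw [f4.m CN (by decide), f3.m CN (by decide)]; exact hmid.cn v
    obtain ⟨s5, t5, r5, ht5, hcm5, f5⟩ : ∃ s5 t5, Run (.ite (.lt (A DEG (V rc)) (V rtau)) .skip
        pCleanG) s4 t5 s5 ∧ t5 ≤ 10 + (if D.r rtau ≤ dg n G c then 20 * (D.r rnn + 1) else 0) ∧
        (∀ q, s5.m CM q = 0) ∧ Fr pCleanG.wr pCleanG.wa s4 s5 := by
      have hc4 : s4.r rc = c := ((f4.r rc (by decide)).trans (f3.r rc (by decide))).trans hmid.c_
      have hev : (Cond.lt (A DEG (V rc)) (V rtau)).ev s4 = decide (dg n G c < D.r rtau) := by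
        simp only [Cond.ev_lt, Exp.ev_get, Exp.ev_reg, hc4, hdegs s4 hns4.agr, htau s4 hns4.agr]
      by_cases hg : dg n G c < D.r rtau
      · refine ⟨s4, _, Run.iteT (by rw [hev]; simp [hg]) (Run.skip _), ?_, ?_, Fr.refl _⟩
        · simp only [Cond.cost, Exp.cost]; omega
        · intro q; rw [hcm4]; exact hmid.cm1 hg q
      · obtain ⟨s5, t5, r5, ht5, hcm5, f5⟩ := (pCleanG_spec (s := s4) (nn := D.r rnn)
          (hns4.agr.r rnn (by decide)) (by
            intro q hq; rw [hcm4]; exact hmid.cm2 (not_lt.1 hg) q hq)).fr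
        refine ⟨s5, _, Run.iteF (by rw [hev]; simp [hg]) r5, ?_, hcm5, f5⟩
        rw [if_pos (not_lt.1 hg)]
        simp only [Cond.cost, Exp.cost]; omega
    have hns5 : NS n m k G D S s5 := hns4.fr f5 (by decide) (by decide)
    refine ⟨s5, _, Run.cons r1 (Run.cons r2 (Run.cons (Run.iteF (by simp [hnM]) r3)
      (Run.cons r4 (Run.cons r5 (Run.nil _))))), EX1, recs', Or.inr ⟨?_, ?_⟩⟩
    · refine { ns := hns5, cl := ?_, out := ?_, st := ?_, memo := ?_, log := hmid.log,
               vs := hmid.vs }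
      · exact { mu := fun v => by rw [f5.m MU (by decide)]; exact q1 v
                mm := fun v => by rw [f5.m MM (by decide)]; exact q2 v
                cn := fun v => by rw [f5.m CN (by decide)]; exact hcn4 v
                fl := fun v => by rw [f5.m FL (by decide)]; exact q3 v
                cm := hcm5
                nU := (f5.r rnU (by decide)).trans q4
                np := (f5.r rnp (by decide)).trans q5
                nM := (f5.r rnM (by decide)).trans q6 }
      · exact (hbr.fr f4 (by decide) (by decide) (by decide)).fr f5 (by decide) (by decide)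
          (by decide)
      · rw [f5.r rst (by decide), f4.r rst (by decide)]; exact hst3
      · exact ((hmid.memo.fr f3 (by decide) (by decide) (by decide)).fr f4 (by decide) (by decide)
          (by decide)).fr f5 (by decide) (by decide) (by decide)
    · -- cost
      have hlx : (adA D x).length ≤ (unA n k G s).card + k :=
        adA_length_le hP hrm hxn hxS hlen hdx hrx (fun v h1 h2 h3 h4 => by
          simp only [unA, Finset.mem_filter, Finset.mem_range]
          exact ⟨hG.right h1, h3, h4⟩)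
      have hgg : (if D.r rtau ≤ dg n G c then 500 * (D.r rnn + D.r rnK + 1) else 0) ≤
          500 * (D.r rnn + D.r rnK + 1) * (unG n G D s).card := by
        split_ifs with hg
        · have : 1 ≤ (unG n G D s).card := Finset.card_pos.2 ⟨c, by
            simp only [unG, Finset.mem_filter, Finset.mem_range]; exact ⟨hcn, hg, hrc0⟩⟩
          exact Nat.le_mul_of_pos_right _ this
        · exact Nat.zero_le _
      rw [pot_eq]
      have hBB : 1000 * ((k + 2) * (VS.card + 3)) + ((unA n k G s).card - 1) * 1000 ≤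
          1000 * ((k + 2) * (VS.card + 3)) * (unA n k G s).card := trA2 _ _ (by omega) hone
      have ht4' : t4 ≤ 50 * (U.length + (4 * k + 2) + k + 1) := ht4.trans (by omega)
      rw [if_neg hM] at ht2
      exact trF2 ht1 ht2 ht3 ht4' ht5 (by omega) hlx hP1 hP2 hone hBB hgg

end TL
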