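import Pool.Agent.W_3fea_h44.NMemoDefs
import Pool.Agent.W_3fea_h44.NInit
import Pool.Agent.W_3fea_h44.NBranchDefs
import Pool.Agent.W_3fea_h44.Log

/-! # States inside the treatment of a node -/

namespace TL

open Relation Finset Classical

/-- result of a branching: the candidates `Q` are on the stack -/
def BrOut (n k : ℕ) (G : SimpleGraph ℕ) (S : List ℕ) (stk : List (ℕ × ℕ)) (s : St) : Prop :=
  (∃ x, x < n ∧ x ∉ S ∧ ¬ Dom G S.toFinset x) ∧
  ∃ Q : List ℕ, (S.length < k → Stk s (stk ++ Q.map (fun y => (y, S.length)))) ∧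
    (S.length = k → Stk s stk) ∧ Q.length ≤ 4 * k + 4 ∧ (∀ y ∈ Q, y < n ∧ y ∉ S) ∧
    (Sol n k G S.toFinset → ∃ y ∈ Q, Sol n k G (insert y S.toFinset))

theorem BrOut.fr {n k : ℕ} {G : SimpleGraph ℕ} {S : List ℕ} {stk : List (ℕ × ℕ)} {s s' : St}
    {wr wa : List ℕ} (h : BrOut n k G S stk s) (hf : Fr wr wa s s') (h1 : rsp ∉ wr)
    (h2 : SV ∉ wa) (h3 : SD ∉ wa) : BrOut n k G S stk s' := by
  obtain ⟨hx, Q, a, b, c⟩ := h
  exact ⟨hx, Q, fun h => (a h).fr hf h1 h2 h3, fun h => (b h).fr hf h1 h2 h3, c⟩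

variable {n m k : ℕ} {G : SimpleGraph ℕ} {D : St} {S : List ℕ} {stk : List (ℕ × ℕ)}

/-- the state inside the treatment of a node (all marks removed, no branching yet) -/
structure AS (n m k : ℕ) (G : SimpleGraph ℕ) (D : St) (S : List ℕ) (stk : List (ℕ × ℕ))
    (EX : List (Finset ℕ × ℕ)) (VS : Finset (Finset ℕ)) (recs : ℕ → List (List ℕ)) (s : St) :
    Prop where
  ns : NS n m k G D S s
  cl : CL s
  stk : Stk s stk
  st : s.r rst = 0
  memo : MemoR n recs s
  log : LogI n k G (D.r rtau) EX VS recs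
  vs : S.toFinset ∈ VS

/-- the state after a branching -/
structure BS (n m k : ℕ) (G : SimpleGraph ℕ) (D : St) (S : List ℕ) (stk : List (ℕ × ℕ))
    (EX : List (Finset ℕ × ℕ)) (VS : Finset (Finset ℕ)) (recs : ℕ → List (List ℕ)) (s : St) :
    Prop where
  ns : NS n m k G D S s
  cl : CL s
  out : BrOut n k G S stk s
  st : s.r rst = 1
  memo : MemoR n recs s
  log : LogI n k G (D.r rtau) EX VS recs
  vs : S.toFinset ∈ VS

/-- the marks `RM` are correct: the marked vertices of large degree are those of some dominated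
components -/
def RmOK (n k : ℕ) (G : SimpleGraph ℕ) (S : List ℕ) (s : St) : Prop :=
  (∀ v < n, dl k ≤ dg n G v → s.m RM v = 0 ∨ s.m RM v = 1) ∧
  ∀ v < n, dl k ≤ dg n G v → s.m RM v = 1 → v ∉ S ∧ Dom G S.toFinset v ∧
    ∀ w < n, dl k ≤ dg n G w → Rch G S.toFinset v w → s.m RM w = 1

/-- potential: unmarked vertices of large degree, unmarked giants -/
noncomputable def pot (n k V : ℕ) (G : SimpleGraph ℕ) (D : St) (s : St) : ℕ :=
  1000 * ((k + 2) * (V + 3)) * ((range n).filter (fun v => dl k ≤ dg n G v ∧ s.m RM v = 0)).card +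
  500 * (D.r rnn + D.r rnK + 1) *
    ((range n).filter (fun v => D.r rtau ≤ dg n G v ∧ s.m RM v = 0)).card

/-- cost of a branching with the preceding test -/
def bb (k : ℕ) (D : St) : ℕ := bc k D + e1 k (D.r rtau) + xn k (D.r rtau) +
  1000 * (D.r rtau + 6 * k + 6)

end TL
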