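import Pool.Agent.W_3fea_h44.PPrepDefs

/-!
# States at a node of the search tree
-/

namespace TL

open Relation Finset Classical

/-- registers which do not change after the preprocessing -/
def statR : List ℕ := [rn, rm, rk, rdel, rD, rtau, rnA, rnn, rnK, rnT]
/-- arrays which do not change after the preprocessing -/
def statA : List ℕ := [OFF, ADJ, DEG, AL, OFA, ADA, BKA, BE, FW, CE, CV, NODE, PAR, LAB, KX, KY, TB]

/-- `s` agrees with the state `D` after the preprocessing on the static registers and arrays -/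
structure Agr (D s : St) : Prop where
  r : ∀ x ∈ statR, s.r x = D.r x
  m : ∀ a ∈ statA, s.m a = D.m a

theorem Agr.refl (D : St) : Agr D D := ⟨fun _ _ => rfl, fun _ _ => rfl⟩

theorem Agr.fr {D s s' : St} {wr wa : List ℕ} (h : Agr D s) (hf : Fr wr wa s s')
    (h1 : ∀ x ∈ statR, x ∉ wr) (h2 : ∀ a ∈ statA, a ∉ wa) : Agr D s' :=
  ⟨fun x hx => (hf.r x (h1 x hx)).trans (h.r x hx),
   fun a ha => (hf.m a (h2 a ha)).trans (h.m a ha)⟩

/-- The state `s` during the treatment of the node `S` (a list of vertices). -/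
structure NS (n m k : ℕ) (G : SimpleGraph ℕ) (D : St) (S : List ℕ) (s : St) : Prop where
  prep : Prep n m k G D
  agr : Agr D s
  sa : seg (s.m SA) 0 (s.r rt) = S
  nd : S.Nodup
  lt : ∀ v ∈ S, v < n
  len : S.length ≤ k
  ins : ∀ v, s.m INS v = if v ∈ S then 1 else 0
  kp : s.r rkp = k - S.length
  lim : s.r rlim = 2 * (k - S.length) + 1
  dp : ∀ v < n, dl k ≤ dg n G v → s.m DP v = dp n G S.toFinset v

/-- registers whose values matter for `NS` -/
def nsR : List ℕ := statR ++ [rt, rkp, rlim]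
/-- arrays whose values matter for `NS` -/
def nsA : List ℕ := statA ++ [SA, INS, DP]

theorem NS.fr {n m k : ℕ} {G : SimpleGraph ℕ} {D : St} {S : List ℕ} {s s' : St}
    {wr wa : List ℕ} (h : NS n m k G D S s) (hf : Fr wr wa s s')
    (h1 : ∀ x ∈ nsR, x ∉ wr) (h2 : ∀ a ∈ nsA, a ∉ wa) : NS n m k G D S s' := by
  have hr : ∀ x ∈ nsR, s'.r x = s.r x := fun x hx => hf.r x (h1 x hx)
  have hm : ∀ a ∈ nsA, s'.m a = s.m a := fun a ha => hf.m a (h2 a ha)
  refine ⟨h.prep, ⟨fun x hx => ?_, fun a ha => ?_⟩, ?_, h.nd, h.lt, h.len, ?_, ?_, ?_, ?_⟩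
  · rw [hr x (List.mem_append_left _ hx)]; exact h.agr.r x hx
  · rw [hm a (List.mem_append_left _ ha)]; exact h.agr.m a ha
  · rw [hm SA (by decide), hr rt (by decide)]; exact h.sa
  · rw [hm INS (by decide)]; exact h.ins
  · rw [hr rkp (by decide)]; exact h.kp
  · rw [hr rlim (by decide)]; exact h.lim
  · rw [hm DP (by decide)]; exact h.dp

/-- indicator -/
noncomputable def ind (l : List ℕ) (v : ℕ) : ℕ := if v ∈ l then 1 else 0

/-- all marks are removed -/
structure CL (s : St) : Prop where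
  mu : ∀ v, s.m MU v = 0
  mm : ∀ v, s.m MM v = 0
  cn : ∀ v, s.m CN v = 0
  fl : ∀ v, s.m FL v = 0
  cm : ∀ v, s.m CM v = 0
  nU : s.r rnU = 0
  np : s.r rnp = 0
  nM : s.r rnM = 0

/-- registers whose values matter for `CL` -/
def clR : List ℕ := [rnU, rnp, rnM]
/-- arrays whose values matter for `CL` -/
def clA : List ℕ := [MU, MM, CN, FL, CM]

theorem CL.fr {s s' : St} {wr wa : List ℕ} (h : CL s) (hf : Fr wr wa s s')
    (h1 : ∀ x ∈ clR, x ∉ wr) (h2 : ∀ a ∈ clA, a ∉ wa) : CL s' := by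
  have hr : ∀ x ∈ clR, s'.r x = s.r x := fun x hx => hf.r x (h1 x hx)
  have hm : ∀ a ∈ clA, s'.m a = s.m a := fun a ha => hf.m a (h2 a ha)
  exact ⟨by rw [hm MU (by decide)]; exact h.mu, by rw [hm MM (by decide)]; exact h.mm,
    by rw [hm CN (by decide)]; exact h.cn, by rw [hm FL (by decide)]; exact h.fl,
    by rw [hm CM (by decide)]; exact h.cm, by rw [hr rnU (by decide)]; exact h.nU,
    by rw [hr rnp (by decide)]; exact h.np, by rw [hr rnM (by decide)]; exact h.nM⟩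

/-- the list of `N[c] - S` in the order of the program -/
noncomputable def uL (D : St) (S : List ℕ) (c : ℕ) : List ℕ :=
  c :: (adjL D c).filter (fun y => decide (y ∉ S))

theorem mem_uL {n m k : ℕ} {G : SimpleGraph ℕ} {D : St} (h : Prep n m k G D) {S : List ℕ} {c : ℕ}
    (hc : c < n) (v : ℕ) : v ∈ uL D S c ↔ v ∈ Uc n G S.toFinset c := by
  rw [mem_Uc h.inn, uL, List.mem_cons, List.mem_filter, adjL, h.a.adj.mem c hc v,
    decide_eq_true_eq, List.mem_toFinset]

theorem uL_nodup {n m k : ℕ} {G : SimpleGraph ℕ} {D : St} (h : Prep n m k G D) {S : List ℕ}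
    {c : ℕ} (hc : c < n) : (uL D S c).Nodup := by
  rw [uL, List.nodup_cons]
  refine ⟨fun h' => ?_, (h.a.adj.nd c hc).filter _⟩
  have := (List.mem_filter.1 h').1
  rw [adjL, h.a.adj.mem c hc c] at this
  exact G.irrefl this

theorem uL_length {n m k : ℕ} {G : SimpleGraph ℕ} {D : St} (h : Prep n m k G D) {S : List ℕ}
    {c : ℕ} (hc : c < n) : (uL D S c).length = dp n G S.toFinset c + 1 := by
  rw [← card_Uc h.inn, ← List.toFinset_card_of_nodup (uL_nodup h hc)]
  congr 1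
  ext v
  rw [List.mem_toFinset, mem_uL h hc]

/-- the state during an examination: the matching `M`, counters `cn`, flags `fl` -/
structure XS (n m k : ℕ) (G : SimpleGraph ℕ) (D : St) (S : List ℕ) (c : ℕ) (M : List (ℕ × ℕ))
    (cn : ℕ → ℕ) (fl : ℕ → Prop) (s : St) : Prop where
  ns : NS n m k G D S s
  c_ : s.r rc = c
  cn_ : c < n
  cS : c ∉ S
  ul : seg (s.m UL) 0 (s.r rnU) = uL D S c
  mu : ∀ v, s.m MU v = ind (uL D S c) v
  pq : seg (s.m PQ) 0 (s.r rnp) = flat M
  nM : s.r rnM = M.length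
  mm : ∀ v, s.m MM v = ind (flat M) v
  mat : IsMat G S.toFinset (Uc n G S.toFinset c) M
  le : M.length ≤ 2 * (k - S.length) + 1
  cn : ∀ v, s.m CN v = cn v
  fl : ∀ v, s.m FL v = if fl v then 1 else 0
  cm : ∀ v, s.m CM v = 0

/-- registers whose values matter for `XS` -/
def xsR : List ℕ := nsR ++ [rc, rnU, rnp, rnM]
/-- arrays whose values matter for `XS` -/
def xsA : List ℕ := nsA ++ [UL, MU, PQ, MM, CN, FL, CM]

theorem XS.fr {n m k : ℕ} {G : SimpleGraph ℕ} {D : St} {S : List ℕ} {c : ℕ} {M : List (ℕ × ℕ)}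
    {cn : ℕ → ℕ} {fl : ℕ → Prop} {s s' : St}
    {wr wa : List ℕ} (h : XS n m k G D S c M cn fl s) (hf : Fr wr wa s s')
    (h1 : ∀ x ∈ xsR, x ∉ wr) (h2 : ∀ a ∈ xsA, a ∉ wa) : XS n m k G D S c M cn fl s' := by
  have hr : ∀ x ∈ xsR, s'.r x = s.r x := fun x hx => hf.r x (h1 x hx)
  have hm : ∀ a ∈ xsA, s'.m a = s.m a := fun a ha => hf.m a (h2 a ha)
  refine ⟨h.ns.fr hf (fun x hx => h1 x (List.mem_append_left _ hx))
    (fun a ha => h2 a (List.mem_append_left _ ha)), ?_, h.cn_, h.cS, ?_, ?_, ?_, ?_, ?_, h.mat,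
    h.le, ?_, ?_, ?_⟩
  · rw [hr rc (by decide)]; exact h.c_
  · rw [hm UL (by decide), hr rnU (by decide)]; exact h.ul
  · rw [hm MU (by decide)]; exact h.mu
  · rw [hm PQ (by decide), hr rnp (by decide)]; exact h.pq
  · rw [hr rnM (by decide)]; exact h.nM
  · rw [hm MM (by decide)]; exact h.mm
  · rw [hm CN (by decide)]; exact h.cn
  · rw [hm FL (by decide)]; exact h.fl
  · rw [hm CM (by decide)]; exact h.cm

/-- The state after a test of `c` (of either kind): `M` is the matching. -/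
structure TS (n m k : ℕ) (G : SimpleGraph ℕ) (D : St) (S : List ℕ) (c : ℕ) (M : List (ℕ × ℕ))
    (s : St) : Prop where
  ns : NS n m k G D S s
  c_ : s.r rc = c
  cn_ : c < n
  cS : c ∉ S
  pq : seg (s.m PQ) 0 (s.r rnp) = flat M
  nM : s.r rnM = M.length
  mm : ∀ v, s.m MM v = ind (flat M) v
  test : IsTest G S.toFinset (Uc n G S.toFinset c) (2 * (k - S.length) + 1) M
  inU : ∀ y < n, y ∉ S → ((s.m MU y = 0 ∧ s.m CM (s.m NODE y) = 0) ↔ y ∉ Uc n G S.toFinset c)

/-- main part of the cost of an exam -/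
noncomputable def xe (n k : ℕ) (G : SimpleGraph ℕ) (D : St) (S : Finset ℕ) (c : ℕ) : ℕ :=
  500 * (∑ a ∈ Uc n G S c, ((bk D a).length + 1) + (k + 1) * (4 * k + 2))

/-- additional cost of an exam whose result is not empty; `u` bounds `|N[c] - S|` -/
def xn (k u : ℕ) : ℕ := 500 * ((2 * k + 1) * (8 * k + 4)) * (u + 6 * k + 5)

/-- `l` is the stack of the search: pairs (vertex, depth) -/
def Stk (s : St) (l : List (ℕ × ℕ)) : Prop :=
  s.r rsp = l.length ∧ ∀ i, (h : i < l.length) → s.m SV i = l[i].1 ∧ s.m SD i = l[i].2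

theorem Stk.fr {s s' : St} {wr wa : List ℕ} {l : List (ℕ × ℕ)} (h : Stk s l)
    (hf : Fr wr wa s s') (h1 : rsp ∉ wr) (h2 : SV ∉ wa) (h3 : SD ∉ wa) : Stk s' l := by
  refine ⟨(hf.r rsp h1).trans h.1, fun i hi => ?_⟩
  rw [hf.m SV h2, hf.m SD h3]
  exact h.2 i hi

end TL
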