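import Pool.Agent.W_3fea_h44.Repr

/-! # Specification of `pArcs` -/

namespace TL

open Relation Finset Classical

/-- the state at the head of the loop of `pArcs` -/
structure PArcsI (s : St) (j : ℕ) (s' : St) : Prop where
  rN_ : s'.r rN = 2 * j
  eu : s'.m EU = s.m EU
  ev : s'.m EV = s.m EV
  ax0 : ∀ i < j, s'.m AX (2 * i) = s.m EU i
  ay0 : ∀ i < j, s'.m AY (2 * i) = s.m EV i
  ax1 : ∀ i < j, s'.m AX (2 * i + 1) = s.m EV i
  ay1 : ∀ i < j, s'.m AY (2 * i + 1) = s.m EU i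
  deg : ∀ v, s'.m DEG v = ((range j).filter (fun i => s.m EU i = v ∨ s.m EV i = v)).card

theorem PArcsI.setR {s s' : St} {j x v : ℕ} (h : PArcsI s j s') (hx : x ≠ rN) :
    PArcsI s j (s'.setR x v) := by
  refine ⟨?_, h.eu, h.ev, h.ax0, h.ay0, h.ax1, h.ay1, h.deg⟩
  rw [St.setR_r, if_neg hx.symm]
  exact h.rN_

/-- the body of the loop -/
def pArcsB : Cmd :=
  .blk [
    .set ru (A EU (V ri)),
    .set rv (A EV (V ri)),
    .put AX (V rN) (V ru), .put AY (V rN) (V rv), .incr rN,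
    .put AX (V rN) (V rv), .put AY (V rN) (V ru), .incr rN,
    .put DEG (V ru) (.inc (A DEG (V ru))),
    .put DEG (V rv) (.inc (A DEG (V rv)))]

theorem pArcsB_spec {s : St} {j : ℕ} (hne : s.m EU j ≠ s.m EV j) {s1 : St} (h : PArcsI s j s1)
    (hj : s1.r ri = j) :
    Tri s1 pArcsB 40 (fun s' => PArcsI s (j + 1) s' ∧ s'.r ri = j ∧ s'.r rm = s1.r rm) := by
  refine (Tri.lf (by decide) ?_).cost (by decide)
  simp only [pArcsB, Cmd.ex_cons, Cmd.ex_nil, Cmd.ex_set, Cmd.ex_put, Exp.ev_get, Exp.ev_reg,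
    Exp.ev_inc, St.setR_r, St.setR_m, St.setM_r, St.setM_m]
  simp only [hj, h.eu, h.ev, h.rN_]
  refine ⟨⟨?_, ?_, ?_, ?_, ?_, ?_, ?_, ?_⟩, ?_, ?_⟩
  · simp; ring
  · simp [h.eu]
  · simp [h.ev]
  · intro i hi
    simp
    simp only [Function.update_apply]
    split_ifs with h1 h2
    · omega
    · obtain rfl : i = j := by omega
      rfl
    · exact h.ax0 i (by omega)
  · intro i hi
    simp
    simp only [Function.update_apply]
    split_ifs with h1 h2
    · omega
    · obtain rfl : i = j := by omega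
      rfl
    · exact h.ay0 i (by omega)
  · intro i hi
    simp
    simp only [Function.update_apply]
    split_ifs with h1 h2
    · obtain rfl : i = j := by omega
      rfl
    · omega
    · exact h.ax1 i (by omega)
  · intro i hi
    simp
    simp only [Function.update_apply]
    split_ifs with h1 h2
    · obtain rfl : i = j := by omega
      rfl
    · omega
    · exact h.ay1 i (by omega)
  · intro v
    rw [Finset.range_add_one, Finset.filter_insert]
    simp
    simp only [Function.update_apply]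
    have h8 : j ∉ (range j).filter (fun i => s.m EU i = v ∨ s.m EV i = v) := by simp
    have h0 := h.deg v
    split_ifs with h1 h2 h3 h4 h5 h6 h7
    all_goals first
      | omega
      | skip
    all_goals rw [Finset.card_insert_of_notMem h8, ← h0]
    · rw [h1]
    · rw [h5]
  · simp
  · simp

theorem arcs_of {G : SimpleGraph ℕ} {m : ℕ} {eu ev ax ay : ℕ → ℕ} (he : EL G m eu ev)
    (ax0 : ∀ i < m, ax (2 * i) = eu i) (ay0 : ∀ i < m, ay (2 * i) = ev i)
    (ax1 : ∀ i < m, ax (2 * i + 1) = ev i) (ay1 : ∀ i < m, ay (2 * i + 1) = eu i) :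
    Arcs G (2 * m) ax ay := by
  have hpar : ∀ i, i < 2 * m → ∃ q < m, i = 2 * q ∨ i = 2 * q + 1 := by
    intro i hi
    exact ⟨i / 2, by omega, by omega⟩
  refine ⟨?_, ?_, ?_⟩
  · intro i hi
    obtain ⟨q, hq, rfl | rfl⟩ := hpar i hi
    · rw [ax0 q hq, ay0 q hq]; exact he.adj q hq
    · rw [ax1 q hq, ay1 q hq]; exact (he.adj q hq).symm
  · intro x y hxy
    obtain ⟨q, hq, ⟨h1, h2⟩ | ⟨h1, h2⟩⟩ := he.surj x y hxy
    · exact ⟨2 * q, by omega, by rw [ax0 q hq, h1], by rw [ay0 q hq, h2]⟩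
    · exact ⟨2 * q + 1, by omega, by rw [ax1 q hq, h2], by rw [ay1 q hq, h1]⟩
  · intro i hi j hj h1 h2
    obtain ⟨q, hq, rfl | rfl⟩ := hpar i hi <;> obtain ⟨p, hp, rfl | rfl⟩ := hpar j hj
    · rw [ax0 q hq, ax0 p hp] at h1
      rw [ay0 q hq, ay0 p hp] at h2
      rw [he.inj q hq p hp (Or.inl ⟨h1, h2⟩)]
    · rw [ax0 q hq, ax1 p hp] at h1
      rw [ay0 q hq, ay1 p hp] at h2
      obtain rfl := he.inj q hq p hp (Or.inr ⟨h1, h2⟩)
      exact absurd h1 (he.adj q hq).ne
    · rw [ax1 q hq, ax0 p hp] at h1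
      rw [ay1 q hq, ay0 p hp] at h2
      obtain rfl := he.inj q hq p hp (Or.inr ⟨h2, h1⟩)
      exact absurd h2 (he.adj q hq).ne
    · rw [ax1 q hq, ax1 p hp] at h1
      rw [ay1 q hq, ay1 p hp] at h2
      rw [he.inj q hq p hp (Or.inl ⟨h2, h1⟩)]

theorem deg_of {n m : ℕ} {G : SimpleGraph ℕ} (hG : Inn n G) {eu ev : ℕ → ℕ} (he : EL G m eu ev)
    (v : ℕ) : ((range m).filter (fun i => eu i = v ∨ ev i = v)).card = dg n G v := by
  refine Finset.card_bij (fun i _ => if eu i = v then ev i else eu i) ?_ ?_ ?_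
  · intro i hi
    rw [mem_filter, mem_range] at hi
    rw [mem_nb hG]
    have h0 := he.adj i hi.1
    show G.Adj v (if eu i = v then ev i else eu i)
    split_ifs with h
    · rw [← h]; exact h0
    · have h2 : ev i = v := hi.2.resolve_left h
      rw [← h2]; exact h0.symm
  · intro i hi j hj hij
    rw [mem_filter, mem_range] at hi hj
    apply he.inj i hi.1 j hj.1
    split_ifs at hij with h1 h2 h2
    · exact Or.inl ⟨h1.trans h2.symm, hij⟩
    · exact Or.inr ⟨h1.trans (hj.2.resolve_left h2).symm, hij⟩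
    · exact Or.inr ⟨hij, (hi.2.resolve_left h1).trans h2.symm⟩
    · exact Or.inl ⟨hij, (hi.2.resolve_left h1).trans (hj.2.resolve_left h2).symm⟩
  · intro y hy
    rw [mem_nb hG] at hy
    obtain ⟨i, hi, ⟨h1, h2⟩ | ⟨h1, h2⟩⟩ := he.surj v y hy
    · refine ⟨i, ?_, ?_⟩
      · rw [mem_filter, mem_range]; exact ⟨hi, Or.inl h1⟩
      · show (if eu i = v then ev i else eu i) = y
        rw [if_pos h1, h2]
    · refine ⟨i, ?_, ?_⟩
      · rw [mem_filter, mem_range]; exact ⟨hi, Or.inr h2⟩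
      · show (if eu i = v then ev i else eu i) = y
        rw [if_neg (fun h => hy.ne (h.symm.trans h1)), h1]

theorem pArcs_spec {n m : ℕ} {G : SimpleGraph ℕ} (hG : Inn n G) {s : St} (hm : s.r rm = m)
    (he : EL G m (s.m EU) (s.m EV)) (hd : ∀ v, s.m DEG v = 0) :
    Tri s pArcs (200 * (m + 1)) (fun s' => s'.r rN = 2 * m ∧ Arcs G (2 * m) (s'.m AX) (s'.m AY) ∧
      ∀ v, s'.m DEG v = dg n G v) := by
  refine Tri.cons (B1 := 2) (B2 := 6 + (40 + 7) * m + 1) ?_ (by omega)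
  refine Tri.set ?_ (by decide)
  refine Tri.cons (B1 := 6 + (40 + 7) * m) (B2 := 1) ?_ (by omega)
  refine Tri.for0 (PArcsI s) 40 (N := m) ?_ (by decide) ?_ ?_ ?_ ?_
  · simpa using hm
  · intro j s1 v h
    exact h.setR (by decide)
  · refine ⟨?_, rfl, rfl, ?_, ?_, ?_, ?_, ?_⟩
    · simp
    · intro i hi; omega
    · intro i hi; omega
    · intro i hi; omega
    · intro i hi; omega
    · intro v; simp [hd]
  · intro j hj s1 h h1 h2
    refine (pArcsB_spec (he.adj j hj).ne h h1).imp ?_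
    rintro s2 ⟨k1, k2, k3⟩
    exact ⟨k1, k2, k3.trans h2⟩
  · intro s1 h h1 h2
    refine Tri.nil ⟨h.rN_, arcs_of he h.ax0 h.ay0 h.ax1 h.ay1, fun v => ?_⟩ le_rfl
    rw [h.deg v, deg_of hG he]

end TL
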