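import Pool.Agent.W_3fea_h44.PAdj

/-! # Bounds for the numbers of giants and of vertices of large degree -/

namespace TL

open Relation Finset Classical

/-- number of class nodes is at most this -/
def fnn (k : ℕ) : ℕ := (4 * gg k + 1) * 2 ^ (4 * gg k)

/-- number of the vertices of degree at least `t`, times `t` -/
theorem pb_mul_le (n : ℕ) (f : ℕ → ℕ) (t : ℕ) :
    t * ((List.range n).filter (fun v => t ≤ f v)).length ≤ ∑ v ∈ range n, f v := by
  induction n with
  | zero => simp
  | succ n ih =>
    rw [List.range_succ, List.filter_append, List.length_append, Finset.sum_range_succ, mul_add]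
    refine add_le_add ih ?_
    by_cases h : t ≤ f n
    · simp [h]
    · simp [h]

theorem pb_len_le (n : ℕ) (p : ℕ → Bool) : ((List.range n).filter p).length ≤ n := by
  refine (List.length_filter_le _ _).trans ?_
  rw [List.length_range]

theorem rng_le {n m k : ℕ} {G : SimpleGraph ℕ} {D : St} (hG : Inn n G) (h : PrepA n m k G D) :
    D.r rng ≤ 4 * gg k := by
  have h1 : D.r rng = ((List.range n).filter (fun v => D.r rtau ≤ dg n G v)).length := by
    rw [← h.gi, giL, seg_length, Nat.sub_zero]
  have h2 := pb_mul_le n (fun v => dg n G v) (D.r rtau)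
  rw [← h1, h.adj.sum hG] at h2
  have h3 : D.r rng ≤ n := by
    rw [h1]
    exact pb_len_le _ _
  have h4 : (n + m) / gg k ≤ D.r rtau := by
    rw [h.rtau_]
    exact le_max_right _ _
  have hg : 0 < gg k := by unfold gg; positivity
  by_contra hcon
  push Not at hcon
  have h5 : ((n + m) / gg k) * D.r rng ≤ 2 * m := (Nat.mul_le_mul_right _ h4).trans h2
  have h6 := Nat.lt_div_mul_add hg (a := n + m)
  rcases Nat.eq_zero_or_pos ((n + m) / gg k) with h7 | h7
  · rw [h7] at h6
    omega
  · set q := (n + m) / gg k with hq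
    have h8 : n + m < 2 * (q * gg k) := by
      have : gg k ≤ q * gg k := Nat.le_mul_of_pos_left _ h7
      omega
    have h9 : q * (4 * gg k + 1) ≤ 2 * m := (Nat.mul_le_mul_left q hcon).trans h5
    nlinarith

theorem rnA_le {n m k : ℕ} {G : SimpleGraph ℕ} {D : St} (hG : Inn n G) (h : PrepA n m k G D) :
    dl k * D.r rnA ≤ 2 * m := by
  have h1 : D.r rnA = ((List.range n).filter (fun v => dl k ≤ dg n G v)).length := by
    rw [← h.al, alL, seg_length, Nat.sub_zero]
  have h2 := pb_mul_le n (fun v => dg n G v) (dl k)
  rw [h.adj.sum hG] at h2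
  rw [h1]
  exact h2

end TL
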