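import Pool.Agent.W_3fea_h44.Repr

/-! # Specification of `pDist` -/

namespace TL

open Relation Finset Classical

/-- linked lists: `0` is the end, `i + 1` points to the record `i` -/
private def IsL (nxt : ℕ → ℕ) : ℕ → List ℕ → Prop
  | h, [] => h = 0
  | h, i :: l => h = i + 1 ∧ IsL nxt (nxt i) l

private lemma IsL.congr {nxt nxt' : ℕ → ℕ} : ∀ {l : List ℕ} {h : ℕ}, (∀ i ∈ l, nxt i = nxt' i) →
    IsL nxt h l → IsL nxt' h l
  | [], _, _, hl => hl
  | i :: l, h, hc, hl => by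
    obtain ⟨h1, h2⟩ := hl
    refine ⟨h1, ?_⟩
    rw [← hc i (by simp)]
    exact IsL.congr (fun j hj => hc j (by simp [hj])) h2

/-- records with key `b` among `j, ..., N - 1` -/
private def bl (key : ℕ → ℕ) (N j b : ℕ) : List ℕ :=
  (List.range' j (N - j)).filter (fun i => key i = b)

private lemma bl_step (key : ℕ → ℕ) {N j : ℕ} (hj : j < N) (b : ℕ) :
    bl key N j b = if key j = b then j :: bl key N (j + 1) b else bl key N (j + 1) b := by
  unfold bl
  have : N - j = (N - (j + 1)) + 1 := by omega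
  rw [this, List.range'_succ, List.filter_cons]
  by_cases h : key j = b
  · simp [h]
  · simp [h]

private lemma bl_zero (key : ℕ → ℕ) (N b : ℕ) :
    bl key N 0 b = (List.range N).filter (fun i => key i = b) := by
  unfold bl
  rw [List.range_eq_range', Nat.sub_zero]

private lemma bl_mem {key : ℕ → ℕ} {N j b i : ℕ} (h : i ∈ bl key N j b) : j ≤ i := by
  unfold bl at h
  rw [List.mem_filter, List.mem_range'_1] at h
  exact h.1.1

private lemma bl_end (key : ℕ → ℕ) (N b : ℕ) : bl key N N b = [] := by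
  unfold bl
  simp

/-- start of bucket `b` -/
private def ofs (key : ℕ → ℕ) (N b : ℕ) : ℕ := ∑ c ∈ range b, (bl key N 0 c).length

private lemma ofs_succ (key : ℕ → ℕ) (N b : ℕ) :
    ofs key N (b + 1) = ofs key N b + (bl key N 0 b).length := by
  unfold ofs
  rw [sum_range_succ]

private lemma ofs_end {key : ℕ → ℕ} {N Kk : ℕ} (hk : ∀ i < N, key i < Kk) :
    ofs key N Kk = N := by
  unfold ofs
  simp only [bl_zero]
  induction N with
  | zero => simp
  | succ N ih =>
    have h1 : ∀ c, ((List.range (N + 1)).filter (fun i => decide (key i = c))).length =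
        ((List.range N).filter (fun i => decide (key i = c))).length +
          (if key N = c then 1 else 0) := by
      intro c
      rw [List.range_succ, List.filter_append, List.length_append]
      by_cases h : key N = c
      · simp [h]
      · simp [h]
    rw [sum_congr rfl (fun c _ => h1 c), sum_add_distrib, ih (fun i hi => hk i (by omega)),
      sum_ite_eq, if_pos (mem_range.2 (hk N (by omega)))]

/-- the part of the state which does not change -/
private def Pd (s : St) (N Kk : ℕ) (s' : St) : Prop :=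
  s'.m AX = s.m AX ∧ s'.m AY = s.m AY ∧ s'.m KEY = s.m KEY ∧ s'.r rN = N ∧ s'.r rK = Kk

private lemma pd1 {N Kk : ℕ} {s : St} (hN : s.r rN = N) (hK : s.r rK = Kk) :
    Tri s (.for_ ri (K 0) rK (.put HEAD (V ri) (K 0))) (6 + 10 * Kk) (fun s' =>
      Pd s N Kk s' ∧ ∀ b < Kk, s'.m HEAD b = 0) := by
  refine Tri.for0 (I := fun j s' => Pd s N Kk s' ∧ ∀ b < j, s'.m HEAD b = 0) 3 hK (by decide)
    ?_ ?_ ?_ ?_
  · rintro j s' v ⟨⟨h1, h2, h3, h4, h5⟩, h6⟩
    exact ⟨⟨h1, h2, h3, by simpa using h4, by simpa using h5⟩, h6⟩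
  · exact ⟨⟨rfl, rfl, rfl, hN, hK⟩, fun b hb => absurd hb (Nat.not_lt_zero _)⟩
  · rintro j hj s' ⟨⟨h1, h2, h3, h4, h5⟩, h6⟩ h7 h8
    refine Tri.put ⟨⟨⟨?_, ?_, ?_, h4, h5⟩, ?_⟩, h7, h8⟩ (by simp [Exp.cost])
    · simpa using h1
    · simpa using h2
    · simpa using h3
    · intro b hb
      simp only [Exp.ev_reg, Exp.ev_const, St.setM_m, if_true, h7, Function.update_apply]
      split_ifs with h
      · rfl
      · exact h6 b (by omega)
  · rintro s' h _ _
    exact h

private lemma pd3 {N Kk : ℕ} {s s0 : St} (hk : ∀ i < N, s.m KEY i < Kk)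
    (h0 : Pd s N Kk s0) (hh : ∀ b < Kk, s0.m HEAD b = 0) (hi : s0.r ri = N) :
    Tri s0 (.loop (.lt (K 0) (V ri)) (.blk [
      .decr ri,
      .put NXT (V ri) (A HEAD (A KEY (V ri))),
      .put HEAD (A KEY (V ri)) (.inc (V ri))])) (20 * N + 4) (fun s' =>
      Pd s N Kk s' ∧ ∀ b < Kk, IsL (s'.m NXT) (s'.m HEAD b) (bl (s.m KEY) N 0 b)) := by
  have key := Tri.loop (b := .lt (K 0) (V ri)) (c := .blk [
      .decr ri,
      .put NXT (V ri) (A HEAD (A KEY (V ri))),
      .put HEAD (A KEY (V ri)) (.inc (V ri))])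
    (I := fun s' => Pd s N Kk s' ∧ s'.r ri ≤ N ∧
      ∀ b < Kk, IsL (s'.m NXT) (s'.m HEAD b) (bl (s.m KEY) N (s'.r ri) b))
    (Φ := fun s' => 20 * s'.r ri) (s := s0)
    (Q := fun s' => Pd s N Kk s' ∧ ∀ b < Kk, IsL (s'.m NXT) (s'.m HEAD b) (bl (s.m KEY) N 0 b))
    ?_ ?_ ?_
  · refine key.cost ?_
    rw [hi]
    simp [Cond.cost, Exp.cost]
  · rintro s1 ⟨⟨h1, h2, h3, h4, h5⟩, h6, h7⟩ hb
    simp only [Cond.ev_lt, Exp.ev_reg, Exp.ev_const, decide_eq_true_eq] at hb
    refine ⟨_, Tri.lf (by rfl) ?_⟩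
    obtain ⟨j, hj⟩ : ∃ j, s1.r ri = j + 1 := ⟨s1.r ri - 1, by omega⟩
    have hkj : s1.m KEY j < Kk := by rw [h3]; exact hk j (by omega)
    refine ⟨⟨⟨?_, ?_, ?_, ?_, ?_⟩, ?_, ?_⟩, ?_⟩
    · simpa using h1
    · simpa using h2
    · simpa using h3
    · simpa using h4
    · simpa using h5
    · simp [hj]; omega
    · intro b hb'
      have e1 : ((Cmd.blk [
        .decr ri,
        .put NXT (V ri) (A HEAD (A KEY (V ri))),
        .put HEAD (A KEY (V ri)) (.inc (V ri))]).ex s1).r ri = j := by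
        simp [hj]
      have e2 : ((Cmd.blk [
        .decr ri,
        .put NXT (V ri) (A HEAD (A KEY (V ri))),
        .put HEAD (A KEY (V ri)) (.inc (V ri))]).ex s1).m NXT =
          Function.update (s1.m NXT) j (s1.m HEAD (s.m KEY j)) := by
        simp [hj, h3]
      have e3 : ((Cmd.blk [
        .decr ri,
        .put NXT (V ri) (A HEAD (A KEY (V ri))),
        .put HEAD (A KEY (V ri)) (.inc (V ri))]).ex s1).m HEAD =
          Function.update (s1.m HEAD) (s.m KEY j) (j + 1) := by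
        simp [hj, h3]
      rw [e1, e2, e3, bl_step (s.m KEY) (by omega : j < N) b]
      have hold := h7 b hb'
      rw [hj] at hold
      have hc : ∀ i ∈ bl (s.m KEY) N (j + 1) b, s1.m NXT i =
          Function.update (s1.m NXT) j (s1.m HEAD (s.m KEY j)) i := by
        intro i hi'
        have := bl_mem hi'
        rw [Function.update_apply, if_neg (by omega)]
      by_cases h : s.m KEY j = b
      · rw [if_pos h, Function.update_apply, if_pos h.symm]
        refine ⟨rfl, ?_⟩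
        rw [Function.update_apply, if_pos rfl, h]
        rw [h] at hc
        exact hold.congr hc
      · rw [if_neg h, Function.update_apply, if_neg (fun hh => h hh.symm)]
        exact hold.congr hc
    · simp [Cond.cost, Exp.cost, Cmd.mc, hj]
      omega
  · refine ⟨h0, hi.le, fun b hb => ?_⟩
    rw [hi, bl_end]
    exact hh b hb
  · rintro s1 ⟨h1, h2, h3⟩ hb
    simp only [Cond.ev_lt, Exp.ev_reg, Exp.ev_const, decide_eq_false_iff_not, not_lt,
      Nat.le_zero] at hb
    rw [hb] at h3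
    exact ⟨h1, h3⟩

/-- the copy of one bucket -/
private lemma pd5a {N Kk b : ℕ} {s s0 : St} {nx : ℕ → ℕ} {i0 : ℕ}
    (h0 : Pd s N Kk s0) (hn : s0.m NXT = nx) (hi : s0.r ri = i0)
    (hl : IsL nx (s0.r rh) (bl (s.m KEY) N 0 b)) (hp : s0.r rp = ofs (s.m KEY) N b) :
    Tri s0 (.loop (.ne (V rh) (K 0)) (.blk [
        .put BX (V rp) (A AX (.dec (V rh))),
        .put BY (V rp) (A AY (.dec (V rh))),
        .incr rp,
        .set rh (A NXT (.dec (V rh)))])) (30 * (bl (s.m KEY) N 0 b).length + 5) (fun s' =>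
      Pd s N Kk s' ∧ s'.m NXT = nx ∧ s'.m HEAD = s0.m HEAD ∧ s'.m DOFF = s0.m DOFF ∧
      s'.r ri = i0 ∧ s'.r rp = ofs (s.m KEY) N (b + 1) ∧
      (∀ q < ofs (s.m KEY) N b, s'.m BX q = s0.m BX q) ∧
      (∀ q < ofs (s.m KEY) N b, s'.m BY q = s0.m BY q) ∧
      seg (s'.m BX) (ofs (s.m KEY) N b) (ofs (s.m KEY) N (b + 1)) =
        (bl (s.m KEY) N 0 b).map (s.m AX) ∧
      seg (s'.m BY) (ofs (s.m KEY) N b) (ofs (s.m KEY) N (b + 1)) =
        (bl (s.m KEY) N 0 b).map (s.m AY)) := by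
  have hos := ofs_succ (s.m KEY) N b
  set o := ofs (s.m KEY) N b with ho
  set o1 := ofs (s.m KEY) N (b + 1) with ho1
  set L := bl (s.m KEY) N 0 b with hL
  have key := Tri.loop (b := .ne (V rh) (K 0)) (c := .blk [
        .put BX (V rp) (A AX (.dec (V rh))),
        .put BY (V rp) (A AY (.dec (V rh))),
        .incr rp,
        .set rh (A NXT (.dec (V rh)))])
    (I := fun s' => (Pd s N Kk s' ∧ s'.m NXT = nx ∧ s'.m HEAD = s0.m HEAD ∧
      s'.m DOFF = s0.m DOFF ∧ s'.r ri = i0) ∧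
      (∀ q < o, s'.m BX q = s0.m BX q) ∧ (∀ q < o, s'.m BY q = s0.m BY q) ∧
      ∃ l1 l2, L = l1 ++ l2 ∧ IsL nx (s'.r rh) l2 ∧ s'.r rp = o + l1.length ∧
      seg (s'.m BX) o (o + l1.length) = l1.map (s.m AX) ∧
      seg (s'.m BY) o (o + l1.length) = l1.map (s.m AY))
    (Φ := fun s' => 30 * (o1 - s'.r rp)) (s := s0)
    (Q := fun s' => Pd s N Kk s' ∧ s'.m NXT = nx ∧ s'.m HEAD = s0.m HEAD ∧
      s'.m DOFF = s0.m DOFF ∧ s'.r ri = i0 ∧ s'.r rp = o1 ∧
      (∀ q < o, s'.m BX q = s0.m BX q) ∧ (∀ q < o, s'.m BY q = s0.m BY q) ∧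
      seg (s'.m BX) o o1 = L.map (s.m AX) ∧ seg (s'.m BY) o o1 = L.map (s.m AY))
    ?_ ?_ ?_
  · refine key.cost ?_
    rw [hp, hos]
    simp [Cond.cost, Exp.cost]
  · rintro s1 ⟨⟨⟨h1, h2, h3, h4, h5⟩, g1, g2, g3, g4⟩, f1, f2, l1, l2, e1, e2, e3, e4, e5⟩ hb
    cases l2 with
    | nil =>
      have : s1.r rh = 0 := e2
      simp [this] at hb
    | cons i l2 =>
      obtain ⟨e6, e7⟩ := e2
      have hlen : L.length = l1.length + (l2.length + 1) := by rw [e1]; simp
      refine ⟨_, Tri.lf (by rfl) ⟨⟨⟨⟨?_, ?_, ?_, ?_, ?_⟩, ?_, ?_, ?_, ?_⟩, ?_, ?_, l1 ++ [i], l2,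
        ?_, ?_, ?_, ?_, ?_⟩, ?_⟩⟩
      · simpa using h1
      · simpa using h2
      · simpa using h3
      · simpa using h4
      · simpa using h5
      · simpa using g1
      · simpa using g2
      · simpa using g3
      · simpa using g4
      · intro q hq
        simp [e3, Function.update_apply]
        rw [if_neg (by omega)]
        exact f1 q hq
      · intro q hq
        simp [e3, Function.update_apply]
        rw [if_neg (by omega)]
        exact f2 q hq
      · rw [e1]; simp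
      · simpa [e6, g1] using e7
      · simp [e3]; omega
      · have : o + (l1 ++ [i]).length = (o + l1.length) + 1 := by simp; omega
        rw [this, seg_succ _ (by omega), List.map_append]
        simp only [Cmd.ex_cons, Cmd.ex_nil, Cmd.ex_put, Cmd.ex_set, St.setM_m, St.setR_m,
          St.setM_r, Exp.ev_reg, Exp.ev_get, Exp.ev_dec, Exp.ev_inc]
        simp [e3, e6, h1, seg_update, e4]
      · have : o + (l1 ++ [i]).length = (o + l1.length) + 1 := by simp; omega
        rw [this, seg_succ _ (by omega), List.map_append]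
        simp only [Cmd.ex_cons, Cmd.ex_nil, Cmd.ex_put, Cmd.ex_set, St.setM_m, St.setR_m,
          St.setM_r, Exp.ev_reg, Exp.ev_get, Exp.ev_dec, Exp.ev_inc]
        simp [e3, e6, h2, seg_update, e5]
      · simp [Cond.cost, Exp.cost, Cmd.mc, e3]
        omega
  · exact ⟨⟨h0, hn, rfl, rfl, hi⟩, fun _ _ => rfl, fun _ _ => rfl, [], L, rfl, hl, by simpa using hp,
      by simp, by simp⟩
  · rintro s1 ⟨⟨h1, g1, g2, g3, g4⟩, f1, f2, l1, l2, e1, e2, e3, e4, e5⟩ hb
    have hh : s1.r rh = 0 := by simpa using hb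
    cases l2 with
    | cons i l2 =>
      rw [hh] at e2
      exact absurd e2.1 (by omega)
    | nil =>
      rw [List.append_nil] at e1
      subst e1
      rw [hos]
      exact ⟨h1, g1, g2, g3, g4, e3, f1, f2, e4, e5⟩

private lemma pd5 {N Kk : ℕ} {s s0 : St} {nx : ℕ → ℕ} (h0 : Pd s N Kk s0) (hn : s0.m NXT = nx)
    (hl : ∀ b < Kk, IsL nx (s0.m HEAD b) (bl (s.m KEY) N 0 b)) (hp : s0.r rp = 0)
    (hk : ∀ i < N, s.m KEY i < Kk) :
    Tri s0 (.for_ ri (K 0) rK (.blk [
      .put DOFF (V ri) (V rp),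
      .set rh (A HEAD (V ri)),
      .loop (.ne (V rh) (K 0)) (.blk [
        .put BX (V rp) (A AX (.dec (V rh))),
        .put BY (V rp) (A AY (.dec (V rh))),
        .incr rp,
        .set rh (A NXT (.dec (V rh)))])])) (30 * N + 19 * Kk + 6) (fun s' =>
      Pd s N Kk s' ∧ s'.r rp = N ∧ (∀ b < Kk, s'.m DOFF b = ofs (s.m KEY) N b) ∧
      (∀ b < Kk, seg (s'.m BX) (ofs (s.m KEY) N b) (ofs (s.m KEY) N (b + 1)) =
        (bl (s.m KEY) N 0 b).map (s.m AX)) ∧
      (∀ b < Kk, seg (s'.m BY) (ofs (s.m KEY) N b) (ofs (s.m KEY) N (b + 1)) =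
        (bl (s.m KEY) N 0 b).map (s.m AY))) := by
  have hend := ofs_end hk
  have hmono : ∀ b c, b ≤ c → ofs (s.m KEY) N b ≤ ofs (s.m KEY) N c := by
    intro b c hbc
    unfold ofs
    exact sum_le_sum_of_subset (range_mono hbc)
  refine (Tri.for_ (a := 0) (N := Kk) (I := fun b s' => Pd s N Kk s' ∧ s'.m NXT = nx ∧
      s'.m HEAD = s0.m HEAD ∧ s'.r rp = ofs (s.m KEY) N b ∧
      (∀ c < b, s'.m DOFF c = ofs (s.m KEY) N c) ∧
      (∀ c < b, seg (s'.m BX) (ofs (s.m KEY) N c) (ofs (s.m KEY) N (c + 1)) =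
        (bl (s.m KEY) N 0 c).map (s.m AX)) ∧
      (∀ c < b, seg (s'.m BY) (ofs (s.m KEY) N c) (ofs (s.m KEY) N (c + 1)) =
        (bl (s.m KEY) N 0 c).map (s.m AY)))
    (B := fun b => 30 * (bl (s.m KEY) N 0 b).length + 12) rfl h0.2.2.2.2 (Nat.zero_le _)
    (by decide) ?_ ?_ ?_ ?_).cost ?_
  · rintro j s' v ⟨⟨h1, h2, h3, h4, h5⟩, h6, h7, h8, h9, h10, h11⟩
    exact ⟨⟨h1, h2, h3, by simpa using h4, by simpa using h5⟩, h6, h7, by simpa using h8, h9,
      h10, h11⟩
  · refine ⟨h0, hn, rfl, ?_, ?_, ?_, ?_⟩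
    · rw [hp]; simp [ofs]
    · intro c hc; omega
    · intro c hc; omega
    · intro c hc; omega
  · rintro j - hj s1 ⟨⟨h1, h2, h3, h4, h5⟩, h6, h7, h8, h9, h10, h11⟩ hr1 hr2
    refine Tri.cons (B1 := 3) (B2 := 30 * (bl (s.m KEY) N 0 j).length + 9) ?_ (by omega)
    refine Tri.put ?_ (by simp [Exp.cost])
    refine Tri.cons (B1 := 3) (B2 := 30 * (bl (s.m KEY) N 0 j).length + 6) ?_ (by omega)
    refine Tri.set ?_ (by simp [Exp.cost])
    refine Tri.cons (B1 := 30 * (bl (s.m KEY) N 0 j).length + 5) (B2 := 1) ?_ (by omega)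
    refine (pd5a (s := s) (N := N) (Kk := Kk) (b := j) (nx := nx) (i0 := j) ?_ ?_ ?_ ?_ ?_).imp ?_
    · exact ⟨by simpa using h1, by simpa using h2, by simpa using h3, by simpa using h4,
        by simpa using h5⟩
    · simpa using h6
    · simpa using hr1
    · have := hl j hj
      simpa [hr1, h7] using this
    · simpa using h8
    · rintro s2 ⟨k1, k2, k3, k4, k5, k6, k7, k8, k9, k10⟩
      refine Tri.nil ⟨⟨k1, k2, ?_, k6, ?_, ?_, ?_⟩, k5, k1.2.2.2.2⟩ le_rfl
      · rw [k3]; simpa using h7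
      · intro c hc
        rw [k4]
        simp only [Exp.ev_reg, St.setR_m, St.setM_m, if_true, hr1, h8, Function.update_apply]
        split_ifs with h
        · rw [h]
        · exact h9 c (by omega)
      · intro c hc
        rcases Nat.lt_or_ge c j with h | h
        · rw [← h10 c h]
          refine seg_congr fun q _ hq => ?_
          have hle := hmono (c + 1) j (by omega)
          rw [k7 q (by omega)]
          simp
        · obtain rfl : c = j := by omega
          exact k9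
      · intro c hc
        rcases Nat.lt_or_ge c j with h | h
        · rw [← h11 c h]
          refine seg_congr fun q _ hq => ?_
          have hle := hmono (c + 1) j (by omega)
          rw [k8 q (by omega)]
          simp
        · obtain rfl : c = j := by omega
          exact k10
  · rintro s1 ⟨h1, h6, h7, h8, h9, h10, h11⟩ _ _
    refine ⟨h1, ?_, h9, h10, h11⟩
    rw [h8, hend]
  · have e : ∑ j ∈ Ico 0 Kk, (30 * (bl (s.m KEY) N 0 j).length + 12 + 7) = 30 * N + 19 * Kk := by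
      rw [sum_add_distrib, sum_add_distrib, ← mul_sum]
      have : ∑ j ∈ Ico 0 Kk, (bl (s.m KEY) N 0 j).length = N := by
        rw [← range_eq_Ico]
        exact hend
      rw [this]
      simp
      omega
    rw [e]
    simp [Exp.cost]
    omega

theorem pDist_spec {N Kk : ℕ} {s : St} (hN : s.r rN = N) (hK : s.r rK = Kk)
    (hk : ∀ i < N, s.m KEY i < Kk) :
    Tri s pDist (100 * (N + Kk + 1)) (fun s' =>
      DistP N Kk (s.m KEY) (s.m AX) (s.m AY) (s'.m DOFF) (s'.m BX) (s'.m BY)) := by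
  unfold pDist
  have hend := ofs_end hk
  refine Tri.cons (B1 := 6 + 10 * Kk) (B2 := 2 + (20 * N + 4) + 2 + (30 * N + 19 * Kk + 6) + 4)
    ?_ (by omega)
  refine (pd1 hN hK).imp ?_
  rintro s1 ⟨h1, h2⟩
  refine Tri.cons (B1 := 2) (B2 := (20 * N + 4) + 2 + (30 * N + 19 * Kk + 6) + 4) ?_ (by omega)
  refine Tri.set ?_ (by simp [Exp.cost])
  refine Tri.cons (B1 := 20 * N + 4) (B2 := 2 + (30 * N + 19 * Kk + 6) + 4) ?_ (by omega)
  refine (pd3 (s := s) (N := N) (Kk := Kk) hk ?_ ?_ ?_).imp ?_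
  · obtain ⟨a1, a2, a3, a4, a5⟩ := h1
    exact ⟨a1, a2, a3, by simpa using a4, by simpa using a5⟩
  · intro b hb
    simpa using h2 b hb
  · simpa using h1.2.2.2.1
  rintro s2 ⟨h3, h4⟩
  refine Tri.cons (B1 := 2) (B2 := (30 * N + 19 * Kk + 6) + 4) ?_ (by omega)
  refine Tri.set ?_ (by simp [Exp.cost])
  refine Tri.cons (B1 := 30 * N + 19 * Kk + 6) (B2 := 4) ?_ (by omega)
  refine (pd5 (s := s) (N := N) (Kk := Kk) (nx := s2.m NXT) ?_ ?_ ?_ ?_ hk).imp ?_
  · obtain ⟨a1, a2, a3, a4, a5⟩ := h3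
    exact ⟨a1, a2, a3, by simpa using a4, by simpa using a5⟩
  · rfl
  · exact h4
  · simp
  rintro s3 ⟨h5, h6, h7, h8, h9⟩
  refine Tri.cons (B1 := 3) (B2 := 1) ?_ (by omega)
  refine Tri.put ?_ (by simp [Exp.cost])
  refine Tri.nil ?_ le_rfl
  have hoff : ∀ b ≤ Kk, (s3.setM DOFF ((V rK).ev s3) ((V rp).ev s3)).m DOFF b =
      ofs (s.m KEY) N b := by
    intro b hb
    simp only [Exp.ev_reg, St.setM_m, if_true, h6, h5.2.2.2.2, Function.update_apply]
    split_ifs with h
    · rw [h, hend]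
    · exact h7 b (by omega)
  refine ⟨?_, ?_, ?_, ?_, ?_⟩
  · rw [hoff 0 (by omega)]; simp [ofs]
  · rw [hoff Kk le_rfl, hend]
  · intro b hb
    rw [hoff b (by omega), hoff (b + 1) (by omega), ofs_succ]
    omega
  · intro b hb
    rw [hoff b (by omega), hoff (b + 1) (by omega), ← bl_zero]
    simpa using h8 b hb
  · intro b hb
    rw [hoff b (by omega), hoff (b + 1) (by omega), ← bl_zero]
    simpa using h9 b hb

end TL
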