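import Pool.Agent.W_3fea_h44.Repr

/-! # Specification of the maximum adjacency scan -/

namespace TL

open Relation Finset Classical

/-- While loops with a ghost potential. -/
theorem Tri.loopG {b : Cond} {c : Cmd} (I : ℕ → St → Prop) {Q : St → Prop}
    (step : ∀ N s, I N s → b.ev s = true →
      ∃ B, Tri s c B (fun s' => ∃ N', I N' s' ∧ b.cost + 1 + B + N' ≤ N))
    (post : ∀ N s', I N s' → b.ev s' = false → Q s') :
    ∀ N s, I N s → Tri s (.loop b c) (N + b.cost + 1) Q := by
  have key : ∀ M N : ℕ, ∀ s, N ≤ M → I N s → Tri s (.loop b c) (N + b.cost + 1) Q := by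
    intro M
    induction M with
    | zero =>
      intro N s hN hI
      cases hb : b.ev s with
      | false => exact ⟨s, _, Run.loopF hb, by omega, post N s hI hb⟩
      | true =>
        obtain ⟨B, s', t, _, _, N', _, h4⟩ := step N s hI hb
        omega
    | succ M ih =>
      intro N s hN hI
      cases hb : b.ev s with
      | false => exact ⟨s, _, Run.loopF hb, by omega, post N s hI hb⟩
      | true =>
        obtain ⟨B, s', t, h1, h2, N', h3, h4⟩ := step N s hI hb
        obtain ⟨s'', u, k1, k2, k3⟩ := ih N' s' (by omega) h3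
        exact ⟨s'', _, Run.loopT hb h1 k1, by omega, k3⟩
  intro N s hI
  exact key N N s le_rfl hI

/-! ### linked lists -/

/-- the pointer `p` represents the list `l` of nodes -/
def Lk (nx : ℕ → ℕ) : ℕ → List ℕ → Prop
  | p, [] => p = 0
  | p, a :: l => p = a + 1 ∧ Lk nx (nx a) l

theorem Lk.upd {nx : ℕ → ℕ} {i v : ℕ} : ∀ {p : ℕ} {l : List ℕ}, Lk nx p l → (∀ a ∈ l, a ≠ i) →
    Lk (Function.update nx i v) p l
  | _, [], h, _ => h
  | _, a :: l, h, h' => by
    refine ⟨h.1, ?_⟩
    rw [Function.update_apply, if_neg (h' a (by simp))]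
    exact Lk.upd h.2 (fun b hb => h' b (List.mem_cons_of_mem _ hb))

theorem Lk.zero {nx : ℕ → ℕ} {l : List ℕ} (h : Lk nx 0 l) : l = [] := by
  cases l with
  | nil => rfl
  | cons a l => exact absurd h.1 (by omega)

theorem Lk.pos {nx : ℕ → ℕ} {p : ℕ} {l : List ℕ} (h : Lk nx p l) (hp : p ≠ 0) :
    ∃ l', l = (p - 1) :: l' ∧ Lk nx (nx (p - 1)) l' := by
  cases l with
  | nil => exact absurd h hp
  | cons a l =>
    have h1 := h.1
    have h2 := h.2
    have : p - 1 = a := by omega
    exact ⟨l, by rw [this], by rw [this]; exact h2⟩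

/-! ### pure scan -/

section pure

variable (G : SimpleGraph ℕ) (P : ℕ → Prop) (L : ℕ)

/-- the backward list of `y` when `ord` has been scanned -/
noncomputable def bkf (ord : List ℕ) (y : ℕ) : List ℕ :=
  (nbl G (ord.takeWhile (fun z => decide (z ≠ y))) y).take L

/-- partial maximum adjacency orders -/
structure OrdOK (ord : List ℕ) : Prop where
  nd : ord.Nodup
  mem : ∀ v ∈ ord, P v
  max : ∀ i, (h : i < ord.length) → ∀ y, P y → y ∉ ord.take i →
    min (nbl G (ord.take i) y).length L ≤ (nbl G (ord.take i) ord[i]).length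

variable {G P L}

theorem tw_notin {ord : List ℕ} {y : ℕ} (h : y ∉ ord) :
    ord.takeWhile (fun z => decide (z ≠ y)) = ord := by
  rw [List.takeWhile_eq_self_iff]
  intro x hx
  simp only [ne_eq, decide_eq_true_eq]
  rintro rfl
  exact h hx

theorem tw_append_mem {ord l : List ℕ} {y : ℕ} (h : y ∈ ord) :
    (ord ++ l).takeWhile (fun z => decide (z ≠ y)) = ord.takeWhile (fun z => decide (z ≠ y)) := by
  induction ord with
  | nil => simp at h
  | cons a o ih =>
    by_cases ha : a = y
    · simp [ha]
    · have : y ∈ o := by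
        rcases List.mem_cons.1 h with h | h
        · exact absurd h.symm ha
        · exact h
      simp only [List.cons_append, List.takeWhile_cons, ne_eq, ha, not_false_eq_true, decide_true,
        if_true]
      rw [← ih this]

theorem tw_append_self {ord : List ℕ} {v : ℕ} (h : v ∉ ord) :
    (ord ++ [v]).takeWhile (fun z => decide (z ≠ v)) = ord := by
  induction ord with
  | nil => simp
  | cons a o ih =>
    have ha : a ≠ v := fun e => h (by simp [e])
    have ho : v ∉ o := fun e => h (List.mem_cons_of_mem _ e)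
    simp only [List.cons_append, List.takeWhile_cons, ne_eq, ha, not_false_eq_true, decide_true,
      if_true]
    exact congrArg _ (ih ho)

theorem tw_getElem {ord : List ℕ} (hnd : ord.Nodup) {i : ℕ} (hi : i < ord.length) :
    ord.takeWhile (fun z => decide (z ≠ ord[i])) = ord.take i := by
  have h2 : ord[i] ∉ ord.take i := by
    intro h
    obtain ⟨j, hj, h3⟩ := List.mem_take_iff_getElem.1 h
    have := (List.Nodup.getElem_inj_iff hnd).1 h3
    omega
  generalize hx : ord[i] = x at h2 ⊢
  have h1 : ord = (ord.take i ++ [x]) ++ ord.drop (i + 1) := by simp [← hx]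
  conv_lhs => rw [h1]
  rw [tw_append_mem (by simp), tw_append_self h2]

theorem bkf_notin {ord : List ℕ} {y : ℕ} (h : y ∉ ord) :
    bkf G L ord y = (nbl G ord y).take L := by rw [bkf, tw_notin h]

theorem bkf_append_mem {ord l : List ℕ} {y : ℕ} (h : y ∈ ord) :
    bkf G L (ord ++ l) y = bkf G L ord y := by rw [bkf, tw_append_mem h, bkf]

theorem bkf_append_self {ord : List ℕ} {v : ℕ} (h : v ∉ ord) :
    bkf G L (ord ++ [v]) v = bkf G L ord v := by rw [bkf, tw_append_self h, bkf_notin h]

theorem nbl_append (l l' : List ℕ) (y : ℕ) : nbl G (l ++ l') y = nbl G l y ++ nbl G l' y := by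
  simp [nbl]

theorem mem_nbl {l : List ℕ} {x y : ℕ} : x ∈ nbl G l y ↔ x ∈ l ∧ G.Adj x y := by
  simp [nbl]

theorem bkf_append {ord : List ℕ} {v y : ℕ} (h : y ∉ ord) (hv : y ≠ v) :
    bkf G L (ord ++ [v]) y = if G.Adj v y ∧ (bkf G L ord y).length < L then
      bkf G L ord y ++ [v] else bkf G L ord y := by
  have h' : y ∉ ord ++ [v] := by simp [h, hv]
  rw [bkf_notin h, bkf_notin h', nbl_append]
  have e : nbl G [v] y = if G.Adj v y then [v] else [] := by
    simp only [nbl, List.filter_cons, List.filter_nil, decide_eq_true_eq]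
  rw [e]
  by_cases ha : G.Adj v y
  · simp only [ha, if_true, true_and, List.length_take]
    split_ifs with hl
    · have h3 : (nbl G ord y).length < L := by omega
      rw [List.take_of_length_le (by simp; omega), List.take_of_length_le (by omega)]
    · have h3 : L ≤ (nbl G ord y).length := by omega
      rw [List.take_append_of_le_length h3]
  · simp [ha]

theorem bkf_append_nadj {ord : List ℕ} {v y : ℕ} (hv : v ∉ ord) (h : ¬ G.Adj v y) :
    bkf G L (ord ++ [v]) y = bkf G L ord y := by
  by_cases h1 : y ∈ ord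
  · exact bkf_append_mem h1
  · by_cases h2 : y = v
    · subst h2; exact bkf_append_self hv
    · rw [bkf_append h1 h2, if_neg (by simp [h])]

theorem bkf_sub {ord : List ℕ} {y x : ℕ} (h : x ∈ bkf G L ord y) : x ∈ ord ∧ G.Adj x y := by
  have h1 := List.mem_of_mem_take h
  rw [mem_nbl] at h1
  exact ⟨(List.takeWhile_sublist _).subset h1.1, h1.2⟩

theorem bkf_nodup {ord : List ℕ} (hnd : ord.Nodup) (y : ℕ) : (bkf G L ord y).Nodup := by
  refine ((List.take_sublist _ _).trans ?_).nodup hnd
  exact (List.filter_sublist).trans (List.takeWhile_sublist _)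

theorem bkf_len {ord : List ℕ} (y : ℕ) : (bkf G L ord y).length ≤ L := by
  simp [bkf]

theorem OrdOK.nil : OrdOK G P L [] :=
  ⟨List.nodup_nil, by simp, by simp⟩

theorem OrdOK.snoc {ord : List ℕ} (h : OrdOK G P L ord) {v : ℕ} (hv : P v) (hv' : v ∉ ord)
    (hm : ∀ y, P y → y ∉ ord → (bkf G L ord y).length ≤ (bkf G L ord v).length) :
    OrdOK G P L (ord ++ [v]) := by
  refine ⟨?_, ?_, ?_⟩
  · rw [List.nodup_append]
    refine ⟨h.nd, by simp, ?_⟩
    intro a ha b hb
    simp only [List.mem_singleton] at hb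
    subst hb
    rintro rfl
    exact hv' ha
  · intro x hx
    rw [List.mem_append] at hx
    rcases hx with hx | hx
    · exact h.mem x hx
    · simp only [List.mem_singleton] at hx
      exact hx ▸ hv
  · intro i hi y hy hy'
    simp only [List.length_append, List.length_singleton] at hi
    rcases Nat.lt_or_ge i ord.length with h1 | h1
    · rw [List.take_append_of_le_length (by omega)] at hy' ⊢
      rw [List.getElem_append_left h1]
      exact h.max i h1 y hy hy'
    · have h2 : i = ord.length := by omega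
      subst h2
      rw [List.take_append_of_le_length le_rfl, List.take_length] at hy' ⊢
      rw [List.getElem_append_right le_rfl]
      simp only [Nat.sub_self, List.getElem_cons_zero]
      have := hm y hy hy'
      rw [bkf_notin hy', bkf_notin hv'] at this
      simp only [List.length_take] at this
      omega

theorem OrdOK.isScan {ord : List ℕ} (h : OrdOK G P L ord) (hP : ∀ y, P y → y ∈ ord) :
    IsScan G P L ord (bkf G L ord) := by
  refine ⟨h.nd, fun v => ⟨h.mem v, hP v⟩, h.max, ?_⟩
  intro i hi
  rw [bkf, tw_getElem h.nd hi]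

end pure


/-! ### the memory during the scan -/

/-- facts about the adjacency lists -/
theorem AdjP.mono' {n m : ℕ} {G : SimpleGraph ℕ} {off adj : ℕ → ℕ} (h : AdjP n m G off adj)
    {a b : ℕ} (hab : a ≤ b) (hb : b ≤ n) : off a ≤ off b := by
  induction b, hab using Nat.le_induction with
  | base => exact le_rfl
  | succ b hab ih => exact (ih (by omega)).trans (h.mono b (by omega))

theorem AdjP.adj_of {n m : ℕ} {G : SimpleGraph ℕ} {off adj : ℕ → ℕ} (h : AdjP n m G off adj)
    {v p : ℕ} (hv : v < n) (h1 : off v ≤ p) (h2 : p < off (v + 1)) : G.Adj v (adj p) :=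
  (h.mem v hv _).1 (mem_seg.2 ⟨p, h1, h2, rfl⟩)

theorem AdjP.len_le {n m : ℕ} {G : SimpleGraph ℕ} {off adj : ℕ → ℕ} (h : AdjP n m G off adj)
    {y : ℕ} (hy : y < n) {l : List ℕ} (hl : l.Nodup) (hl' : ∀ z ∈ l, G.Adj y z) :
    off y + l.length ≤ off (y + 1) := by
  have h1 : l.length ≤ (seg adj (off y) (off (y + 1))).length := by
    have := (List.subperm_of_subset hl (l₂ := seg adj (off y) (off (y + 1)))
      (fun z hz => (h.mem y hy z).2 (hl' z hz)))
    exact this.length_le
  rw [seg_length] at h1
  have := h.mono y hy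
  omega

/-- constant part of the memory -/
structure ScK (n L : ℕ) (off adj alw : ℕ → ℕ) (s : St) : Prop where
  n_ : s.r rn = n
  L_ : s.r rL = L
  off_ : s.m OFF = off
  adj_ : s.m ADJ = adj
  alw_ : s.m ALW = alw

/-- variable part of the memory -/
structure ScI (n L : ℕ) (off alw : ℕ → ℕ) (C : ℕ → List ℕ) (ord ex : List ℕ) (Sk : ℕ → List ℕ)
    (s : St) : Prop where
  ord_ : seg (s.m ORD) 0 (s.r rno) = ord
  sc : ∀ y < n, alw y = 1 → s.m SC y = if y ∈ ord then 1 else 0
  rs : ∀ i, (h : i < ord.length) → s.m RS i = (C ord[i]).length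
  be : ∀ y < n, alw y = 1 → s.m BE y = off y + (C y).length
  be0 : ∀ y < n, alw y ≠ 1 → s.m BE y = off y
  rr : ∀ y < n, alw y = 1 → s.m RR y = (C y).length
  bk : ∀ y < n, alw y = 1 → seg (s.m BKA) (off y) (off y + (C y).length) = C y
  fw : ∀ v < n, s.m FW v = ((range n).filter (fun y => alw y = 1 ∧ v ∈ C y)).card
  lk : ∀ e ≤ L, Lk (s.m STN) (s.m STH e) (Sk e)
  fr : ∀ e ≤ L, ∀ a ∈ Sk e, a < s.r rfr
  stv : ∀ a < s.r rfr, s.m STV a < n ∧ alw (s.m STV a) = 1
  ink : ∀ y < n, alw y = 1 → y ∉ ex → ∃ a ∈ Sk (C y).length, s.m STV a = y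

/-- conditions on the backward lists -/
def ScC (n L : ℕ) (G : SimpleGraph ℕ) (alw : ℕ → ℕ) (C : ℕ → List ℕ) : Prop :=
  ∀ y < n, alw y = 1 → (C y).Nodup ∧ (∀ z ∈ C y, G.Adj y z) ∧ (C y).length ≤ L

theorem ScI.step {n m L : ℕ} {G : SimpleGraph ℕ} {off adj alw : ℕ → ℕ} {C : ℕ → List ℕ}
    {ord ex : List ℕ} {Sk : ℕ → List ℕ} {s s' : St} (ha : AdjP n m G off adj)
    (hC : ScC n L G alw C) (h : ScI n L off alw C ord ex Sk s) {v y : ℕ} (hv : v < n) (hy : y < n)
    (hyP : alw y = 1) (hyo : y ∉ ord) (hl : (C y).length < L) (hvy : G.Adj y v) (hvC : v ∉ C y)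
    (e1 : s'.m BKA = Function.update (s.m BKA) (s.m BE y) v)
    (e2 : s'.m BE = Function.update (s.m BE) y (s.m BE y + 1))
    (e3 : s'.m FW = Function.update (s.m FW) v (s.m FW v + 1))
    (e4 : s'.m RR = Function.update (s.m RR) y (s.m RR y + 1))
    (e5 : s'.m STV = Function.update (s.m STV) (s.r rfr) y)
    (e6 : s'.m STN = Function.update (s.m STN) (s.r rfr) (s.m STH (s.m RR y + 1)))
    (e7 : s'.m STH = Function.update (s.m STH) (s.m RR y + 1) (s.r rfr + 1))
    (e8 : s'.r rfr = s.r rfr + 1) (e9 : s'.m ORD = s.m ORD) (e10 : s'.r rno = s.r rno)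
    (e11 : s'.m SC = s.m SC) (e12 : s'.m RS = s.m RS) :
    ScI n L off alw (Function.update C y (C y ++ [v])) ord ex
      (Function.update Sk ((C y).length + 1) (s.r rfr :: Sk ((C y).length + 1))) s' := by
  have hrr := h.rr y hy hyP
  have hbe := h.be y hy hyP
  have hcy := hC y hy hyP
  have hdeg : off y + (C y ++ [v]).length ≤ off (y + 1) := by
    refine ha.len_le hy ?_ ?_
    · rw [List.nodup_append]
      refine ⟨hcy.1, by simp, ?_⟩
      intro a ha b hb
      simp only [List.mem_singleton] at hb
      subst hb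
      rintro rfl
      exact hvC ha
    · intro z hz
      rw [List.mem_append] at hz
      rcases hz with hz | hz
      · exact hcy.2.1 z hz
      · simp only [List.mem_singleton] at hz
        exact hz ▸ hvy
  simp only [List.length_append, List.length_singleton] at hdeg
  have hCne : ∀ z, z ≠ y → Function.update C y (C y ++ [v]) z = C z := by
    intro z hz; rw [Function.update_apply, if_neg hz]
  have hCy : Function.update C y (C y ++ [v]) y = C y ++ [v] := by simp
  refine ⟨?_, ?_, ?_, ?_, ?_, ?_, ?_, ?_, ?_, ?_, ?_, ?_⟩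
  · rw [e9, e10]; exact h.ord_
  · rw [e11]; exact h.sc
  · intro i hi
    rw [e12, h.rs i hi, hCne]
    rintro e
    exact hyo (e ▸ List.getElem_mem hi)
  · intro z hz hzP
    rw [e2, Function.update_apply]
    by_cases hzy : z = y
    · subst hzy; rw [if_pos rfl, hCy, hbe, List.length_append, List.length_singleton]; omega
    · rw [if_neg hzy, hCne z hzy]; exact h.be z hz hzP
  · intro z hz hzP
    rw [e2, Function.update_apply]
    have hzy : z ≠ y := by rintro rfl; exact hzP hyP
    rw [if_neg hzy]; exact h.be0 z hz hzP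
  · intro z hz hzP
    rw [e4, Function.update_apply]
    by_cases hzy : z = y
    · subst hzy; rw [if_pos rfl, hCy, hrr, List.length_append, List.length_singleton]
    · rw [if_neg hzy, hCne z hzy]; exact h.rr z hz hzP
  · intro z hz hzP
    rw [e1, hbe]
    by_cases hzy : z = y
    · subst hzy
      rw [hCy, List.length_append, List.length_singleton, ← add_assoc, seg_succ _ (by omega),
        seg_update (by omega), h.bk z hz hzP]
      simp
    · rw [hCne z hzy, seg_update, h.bk z hz hzP]
      have hcz := hC z hz hzP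
      have hdz := ha.len_le hz hcz.1 hcz.2.1
      rcases Nat.lt_or_gt_of_ne hzy with h1 | h1
      · right
        have := ha.mono' (a := z + 1) (b := y) (by omega) (by omega)
        omega
      · left
        have := ha.mono' (a := y + 1) (b := z) (by omega) (by omega)
        omega
  · intro w hw
    rw [e3, Function.update_apply]
    by_cases hwv : w = v
    · subst hwv
      rw [if_pos rfl, h.fw w hw]
      have : (range n).filter (fun z => alw z = 1 ∧ w ∈ Function.update C y (C y ++ [w]) z) =
          insert y ((range n).filter (fun z => alw z = 1 ∧ w ∈ C z)) := by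
        ext z
        simp only [mem_filter, mem_range, mem_insert]
        by_cases hzy : z = y
        · subst hzy; simp [hy, hyP]
        · rw [hCne z hzy]; simp [hzy]
      rw [this, card_insert_of_notMem]
      simp [hvC]
    · rw [if_neg hwv, h.fw w hw]
      congr 1
      ext z
      simp only [mem_filter, mem_range]
      by_cases hzy : z = y
      · subst hzy; rw [hCy]; simp [hwv]
      · rw [hCne z hzy]
  · intro e he
    rw [e6, e7, hrr, Function.update_apply, Function.update_apply]
    by_cases hel : e = (C y).length + 1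
    · subst hel
      rw [if_pos rfl, if_pos rfl]
      refine ⟨rfl, ?_⟩
      simp only [Function.update_self]
      exact (h.lk _ he).upd (fun a ha => ne_of_lt (h.fr _ he a ha))
    · rw [if_neg hel, if_neg hel]
      exact (h.lk _ he).upd (fun a ha => ne_of_lt (h.fr _ he a ha))
  · intro e he a hae
    rw [e8]
    rw [Function.update_apply] at hae
    by_cases hel : e = (C y).length + 1
    · subst hel
      rw [if_pos rfl] at hae
      rcases List.mem_cons.1 hae with rfl | h1
      · omega
      · have := h.fr _ he a h1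
        omega
    · rw [if_neg hel] at hae
      have := h.fr _ he a hae
      omega
  · intro a haa
    rw [e8] at haa
    rw [e5, Function.update_apply]
    by_cases h1 : a = s.r rfr
    · rw [if_pos h1]; exact ⟨hy, hyP⟩
    · rw [if_neg h1]; exact h.stv a (by omega)
  · intro z hz hzP hzo
    rw [e5]
    by_cases hzy : z = y
    · subst hzy
      refine ⟨s.r rfr, ?_, by simp⟩
      rw [hCy, List.length_append, List.length_singleton, Function.update_apply, if_pos rfl]
      exact List.mem_cons_self
    · rw [hCne z hzy]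
      obtain ⟨a, h1, h2⟩ := h.ink z hz hzP hzo
      have hlt := h.fr _ (hC z hz hzP).2.2 a h1
      refine ⟨a, ?_, ?_⟩
      · rw [Function.update_apply]
        split_ifs with h3
        · rw [← h3]; exact List.mem_cons_of_mem _ h1
        · exact h1
      · rw [Function.update_apply, if_neg (ne_of_lt hlt)]; exact h2

/-- body of the inner loop of `pScanV` -/
def scBodyV : Cmd :=
  .blk [
      .set ry (A ADJ (V rj)),
      .whn (.all [.eq (A ALW (V ry)) (K 1), .eq (A SC (V ry)) (K 0), .lt (A RR (V ry)) (V rL)])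
        (.blk [
          .put BKA (A BE (V ry)) (V rv),
          .put BE (V ry) (.inc (A BE (V ry))),
          .put FW (V rv) (.inc (A FW (V rv))),
          .put RR (V ry) (.inc (A RR (V ry))),
          .set re (A RR (V ry)),
          pPush])]

theorem bodyV_ex {s : St} {y : ℕ} (h1 : s.m ADJ (s.r rj) = y) (h2 : s.m ALW y = 1)
    (h3 : s.m SC y = 0) (h4 : s.m RR y < s.r rL) :
    (scBodyV.ex s).m BKA = Function.update (s.m BKA) (s.m BE y) (s.r rv) ∧
    (scBodyV.ex s).m BE = Function.update (s.m BE) y (s.m BE y + 1) ∧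
    (scBodyV.ex s).m FW = Function.update (s.m FW) (s.r rv) (s.m FW (s.r rv) + 1) ∧
    (scBodyV.ex s).m RR = Function.update (s.m RR) y (s.m RR y + 1) ∧
    (scBodyV.ex s).m STV = Function.update (s.m STV) (s.r rfr) y ∧
    (scBodyV.ex s).m STN = Function.update (s.m STN) (s.r rfr) (s.m STH (s.m RR y + 1)) ∧
    (scBodyV.ex s).m STH = Function.update (s.m STH) (s.m RR y + 1) (s.r rfr + 1) ∧
    (scBodyV.ex s).r rfr = s.r rfr + 1 ∧ (scBodyV.ex s).m ORD = s.m ORD ∧
    (scBodyV.ex s).r rno = s.r rno ∧ (scBodyV.ex s).m SC = s.m SC ∧ (scBodyV.ex s).m RS = s.m RS ∧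
    (scBodyV.ex s).m OFF = s.m OFF ∧ (scBodyV.ex s).m ADJ = s.m ADJ ∧ (scBodyV.ex s).m ALW = s.m ALW ∧
    (scBodyV.ex s).r rn = s.r rn ∧ (scBodyV.ex s).r rL = s.r rL ∧ (scBodyV.ex s).r rv = s.r rv ∧
    (scBodyV.ex s).r rb = s.r rb ∧ (scBodyV.ex s).r rgo = s.r rgo ∧ (scBodyV.ex s).r rj = s.r rj ∧
    (scBodyV.ex s).r rhi = s.r rhi := by
  simp [scBodyV, pPush, h1, h2, h3, h4]

theorem bodyV_ex' {s : St} {y : ℕ} (h1 : s.m ADJ (s.r rj) = y)
    (h : ¬ (s.m ALW y = 1 ∧ s.m SC y = 0 ∧ s.m RR y < s.r rL)) :
    scBodyV.ex s = s.setR ry y := by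
  have : (s.setR ry y).m = s.m := rfl
  simp only [scBodyV, Cmd.ex_cons, Cmd.ex_set, Cmd.ex_nil, Exp.ev_get, Exp.ev_reg, h1]
  rw [Cmd.ex_ite, if_neg]
  · rfl
  · simp [h]

theorem ScI.congr {n L : ℕ} {off alw : ℕ → ℕ} {C C' : ℕ → List ℕ} {ord ex : List ℕ}
    {Sk : ℕ → List ℕ} {s : St} (h : ScI n L off alw C ord ex Sk s)
    (hC : ∀ y < n, alw y = 1 → C' y = C y) (ho : ∀ x ∈ ord, x < n ∧ alw x = 1) :
    ScI n L off alw C' ord ex Sk s := by
  refine ⟨h.ord_, h.sc, ?_, ?_, h.be0, ?_, ?_, ?_, h.lk, h.fr, h.stv, ?_⟩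
  · intro i hi
    have := ho _ (List.getElem_mem hi)
    rw [h.rs i hi, hC _ this.1 this.2]
  · intro y hy hyP; rw [h.be y hy hyP, hC y hy hyP]
  · intro y hy hyP; rw [h.rr y hy hyP, hC y hy hyP]
  · intro y hy hyP; rw [hC y hy hyP]; exact h.bk y hy hyP
  · intro v hv
    rw [h.fw v hv]
    congr 1
    ext z
    simp only [mem_filter, mem_range]
    constructor
    · rintro ⟨a, b, c⟩; exact ⟨a, b, by rw [hC z a b]; exact c⟩
    · rintro ⟨a, b, c⟩; exact ⟨a, b, by rw [hC z a b] at c; exact c⟩
  · intro y hy hyP hyo; rw [hC y hy hyP]; exact h.ink y hy hyP hyo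

/-- only registers which are not used by `ScI` have changed -/
theorem ScI.reg {n L : ℕ} {off alw : ℕ → ℕ} {C : ℕ → List ℕ} {ord ex : List ℕ}
    {Sk : ℕ → List ℕ} {s s' : St} (h : ScI n L off alw C ord ex Sk s) (hm : s'.m = s.m)
    (h1 : s'.r rno = s.r rno) (h2 : s'.r rfr = s.r rfr) : ScI n L off alw C ord ex Sk s' := by
  refine ⟨?_, ?_, ?_, ?_, ?_, ?_, ?_, ?_, ?_, ?_, ?_, ?_⟩
  · rw [hm, h1]; exact h.ord_
  · rw [hm]; exact h.sc
  · rw [hm]; exact h.rs
  · rw [hm]; exact h.be
  · rw [hm]; exact h.be0
  · rw [hm]; exact h.rr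
  · rw [hm]; exact h.bk
  · rw [hm]; exact h.fw
  · rw [hm]; exact h.lk
  · rw [h2]; exact h.fr
  · rw [hm, h2]; exact h.stv
  · rw [hm]; exact h.ink

theorem ScK.reg {n L : ℕ} {off adj alw : ℕ → ℕ} {s s' : St} (h : ScK n L off adj alw s)
    (hm : s'.m = s.m) (h1 : s'.r rn = s.r rn) (h2 : s'.r rL = s.r rL) :
    ScK n L off adj alw s' := by
  refine ⟨?_, ?_, ?_, ?_, ?_⟩
  · rw [h1]; exact h.n_
  · rw [h2]; exact h.L_
  · rw [hm]; exact h.off_
  · rw [hm]; exact h.adj_
  · rw [hm]; exact h.alw_

/-- backward lists in the inner loop -/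
noncomputable def scCj (L : ℕ) (adj off alw : ℕ → ℕ) (ord : List ℕ) (C : ℕ → List ℕ) (v j : ℕ) :
    ℕ → List ℕ :=
  fun y => if y ∈ seg adj (off v) j ∧ alw y = 1 ∧ y ∉ ord ∧ (C y).length < L then C y ++ [v]
    else C y

theorem cj_zero {L : ℕ} {adj off alw : ℕ → ℕ} {ord : List ℕ} {C : ℕ → List ℕ} {v : ℕ} :
    scCj L adj off alw ord C v (off v) = C := by
  funext y
  simp [scCj]

theorem cj_at {n m : ℕ} {G : SimpleGraph ℕ} {adj off : ℕ → ℕ} {v j : ℕ} (ha : AdjP n m G off adj) (hv : v < n) (h1 : off v ≤ j)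
    (h2 : j < off (v + 1)) : adj j ∉ seg adj (off v) j := by
  have hnd := ha.nd v hv
  rw [← seg_append adj (i := off v) (j := j) (k := off (v + 1)) h1 (by omega)] at hnd
  rw [List.nodup_append] at hnd
  intro hm
  exact hnd.2.2 _ hm _ (mem_seg.2 ⟨j, le_rfl, h2, rfl⟩) rfl

theorem cj_succ {n m L : ℕ} {G : SimpleGraph ℕ} {adj off alw : ℕ → ℕ} {ord : List ℕ}
    {C : ℕ → List ℕ} {v j : ℕ} (ha : AdjP n m G off adj) (hv : v < n) (h1 : off v ≤ j)
    (h2 : j < off (v + 1)) :
    scCj L adj off alw ord C v (j + 1) =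
      if alw (adj j) = 1 ∧ adj j ∉ ord ∧ (C (adj j)).length < L then
        Function.update (scCj L adj off alw ord C v j) (adj j) (scCj L adj off alw ord C v j (adj j) ++ [v])
      else scCj L adj off alw ord C v j := by
  have hn := cj_at ha hv h1 h2
  have hc : scCj L adj off alw ord C v j (adj j) = C (adj j) := by simp [scCj, hn]
  rw [hc]
  funext y
  by_cases hy : y = adj j
  · subst hy
    have hs : adj j ∈ seg adj (off v) (j + 1) := mem_seg.2 ⟨j, h1, by omega, rfl⟩
    by_cases h : alw (adj j) = 1 ∧ adj j ∉ ord ∧ (C (adj j)).length < L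
    · rw [if_pos h, Function.update_self]
      simp only [scCj, hs, true_and, if_pos h]
    · rw [if_neg h, hc]
      simp only [scCj, hs, true_and, if_neg h]
  · have hs : y ∈ seg adj (off v) (j + 1) ↔ y ∈ seg adj (off v) j := by
      rw [seg_succ _ h1]; simp [hy]
    have h3 : scCj L adj off alw ord C v (j + 1) y = scCj L adj off alw ord C v j y := by
      simp only [scCj, hs]
    rw [h3]
    split_ifs with h
    · rw [Function.update_apply, if_neg hy]
    · rfl

/-- number of nodes in the stacks -/
def tot (L : ℕ) (Sk : ℕ → List ℕ) : ℕ := ∑ e ∈ range (L + 1), (Sk e).length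

theorem tot_update {L e : ℕ} {Sk : ℕ → List ℕ} {l : List ℕ} (he : e ≤ L) :
    tot L (Function.update Sk e l) + (Sk e).length = tot L Sk + l.length := by
  have he' : e ∈ range (L + 1) := mem_range.2 (by omega)
  rw [tot, tot, ← Finset.add_sum_erase _ _ he', ← Finset.add_sum_erase _ _ he']
  have : ∑ x ∈ (range (L + 1)).erase e, (Function.update Sk e l x).length =
      ∑ x ∈ (range (L + 1)).erase e, (Sk x).length := by
    refine Finset.sum_congr rfl fun x hx => ?_
    rw [Function.update_apply, if_neg (Finset.ne_of_mem_erase hx)]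
  rw [this, Function.update_self]
  omega

theorem cj_CC {n m L : ℕ} {G : SimpleGraph ℕ} {adj off alw : ℕ → ℕ} {ord : List ℕ}
    {C : ℕ → List ℕ} {v j : ℕ} (ha : AdjP n m G off adj) (hv : v < n) (hC : ScC n L G alw C)
    (hvC : ∀ y < n, alw y = 1 → y ∉ ord → v ∉ C y) (h2 : j ≤ off (v + 1)) :
    ScC n L G alw (scCj L adj off alw ord C v j) := by
  intro y hy hyP
  have hc := hC y hy hyP
  simp only [scCj]
  split_ifs with h
  · have hadj : G.Adj y v := by
      obtain ⟨p, h3, h4, h5⟩ := mem_seg.1 h.1
      have := ha.adj_of hv h3 (by omega)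
      rw [h5] at this
      exact this.symm
    refine ⟨?_, ?_, ?_⟩
    · rw [List.nodup_append]
      refine ⟨hc.1, by simp, ?_⟩
      intro a ha' b hb
      simp only [List.mem_singleton] at hb
      subst hb
      rintro rfl
      exact hvC y hy hyP h.2.2.1 ha'
    · intro z hz
      rw [List.mem_append] at hz
      rcases hz with hz | hz
      · exact hc.2.1 z hz
      · simp only [List.mem_singleton] at hz
        exact hz ▸ hadj
    · have := h.2.2.2
      simp only [List.length_append, List.length_singleton]; omega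
  · exact hc

theorem scInner_spec {n m L : ℕ} {G : SimpleGraph ℕ} (hG : Inn n G) {adj off alw : ℕ → ℕ}
    {ord ex : List ℕ} {C : ℕ → List ℕ} {Sk : ℕ → List ℕ} {v : ℕ} {s : St} (ha : AdjP n m G off adj) (hv : v < n)
    (hC : ScC n L G alw C) (hvC : ∀ y < n, alw y = 1 → y ∉ ord → v ∉ C y)
    (hk : ScK n L off adj alw s) (hi : ScI n L off alw C ord ex Sk s) (hrv : s.r rv = v)
    (hhi : s.r rhi = off (v + 1)) :
    Tri s (.for_ rj (A OFF (V rv)) rhi scBodyV) (7 + 100 * (off (v + 1) - off v))
      (fun s' => ScK n L off adj alw s' ∧ (∃ Sk', ScI n L off alw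
        (scCj L adj off alw ord C v (off (v + 1))) ord ex Sk' s' ∧
        tot L Sk' ≤ tot L Sk + (off (v + 1) - off v)) ∧ s'.r rb = s.r rb ∧
        s'.r rgo = s.r rgo) := by
  have hoff := ha.mono v hv
  refine (Tri.forC (a := off v) (N := off (v + 1)) (I := fun j s1 => ScK n L off adj alw s1 ∧
    (∃ Sk', ScI n L off alw (scCj L adj off alw ord C v j) ord ex Sk' s1 ∧
        tot L Sk' ≤ tot L Sk + (j - off v)) ∧ s1.r rv = v ∧ s1.r rb = s.r rb ∧
        s1.r rgo = s.r rgo) 90 (by decide) ?_ hhi hoff ?_ ?_ ?_).cost ?_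
  · simp [hk.off_, hrv]
  · refine ⟨hk.reg rfl (by simp) (by simp), ⟨Sk, ?_, by omega⟩, by simp [hrv], by simp, by simp⟩
    rw [cj_zero]
    exact hi.reg rfl (by simp) (by simp)
  · rintro j h1 h2 s1 ⟨k1, ⟨Sk1, k2, k3⟩, k4, k5, k6⟩ hj hhi1
    have hmc : scBodyV.mc ≤ 90 := by decide
    refine (Tri.lf (by decide) ?_).cost hmc
    set y := adj j with hy
    have hADJ : s1.m ADJ (s1.r rj) = y := by rw [k1.adj_, hj]
    have hvy : G.Adj v y := ha.adj_of hv h1 h2
    have hyn : y < n := hG.right hvy
    have hyc : scCj L adj off alw ord C v j y = C y := by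
      simp [scCj, hy, cj_at ha hv h1 h2]
    by_cases hc : alw y = 1 ∧ y ∉ ord ∧ (C y).length < L
    · have hsc : s1.m SC y = 0 := by rw [k2.sc y hyn hc.1, if_neg hc.2.1]
      have hrr := k2.rr y hyn hc.1
      have hrl : s1.m RR y < s1.r rL := by rw [hrr, hyc, k1.L_]; exact hc.2.2
      obtain ⟨e1, e2, e3, e4, e5, e6, e7, e8, e9, e10, e11, e12, e13, e14, e15, e16, e17, e18, e19,
        e20, e21, e22⟩ := bodyV_ex hADJ (by rw [k1.alw_]; exact hc.1) hsc hrl
      rw [k4] at e1 e3
      have hstep := ScI.step ha (cj_CC ha hv hC hvC (by omega)) k2 hv hyn hc.1 hc.2.1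
        (by rw [hyc]; exact hc.2.2) hvy.symm (by rw [hyc]; exact hvC y hyn hc.1 hc.2.1)
        e1 e2 e3 e4 e5 e6 e7 e8 e9 e10 e11 e12
      have htot := tot_update (L := L) (e := (scCj L adj off alw ord C v j y).length + 1) (Sk := Sk1)
        (l := s1.r rfr :: Sk1 ((scCj L adj off alw ord C v j y).length + 1))
        (by rw [hyc]; exact hc.2.2)
      simp only [List.length_cons] at htot
      refine ⟨⟨?_, ⟨Function.update Sk1 ((scCj L adj off alw ord C v j y).length + 1)
          (s1.r rfr :: Sk1 ((scCj L adj off alw ord C v j y).length + 1)),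
          ScI.reg (s := scBodyV.ex s1) ?_ rfl (by simp) (by simp), ?_⟩, ?_, ?_, ?_⟩, ?_, ?_⟩
      · refine ScK.reg (s := scBodyV.ex s1) ⟨?_, ?_, ?_, ?_, ?_⟩ rfl (by simp) (by simp)
        · rw [e16]; exact k1.n_
        · rw [e17]; exact k1.L_
        · rw [e13]; exact k1.off_
        · rw [e14]; exact k1.adj_
        · rw [e15]; exact k1.alw_
      · rw [cj_succ ha hv h1 h2, if_pos hc]
        exact hstep
      · omega
      · simp [e18, k4]
      · simp [e19, k5]
      · simp [e20, k6]
      · rw [e21, hj]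
      · rw [e22, hhi1]
    · have hc' : ¬ (s1.m ALW y = 1 ∧ s1.m SC y = 0 ∧ s1.m RR y < s1.r rL) := by
        rintro ⟨g1, g2, g3⟩
        rw [k1.alw_] at g1
        rw [k2.rr y hyn g1, hyc, k1.L_] at g3
        refine hc ⟨g1, ?_, g3⟩
        intro g4
        rw [k2.sc y hyn g1, if_pos g4] at g2
        exact absurd g2 (by omega)
      rw [bodyV_ex' hADJ hc']
      refine ⟨⟨?_, ⟨Sk1, ScI.reg (s := s1) ?_ rfl (by simp) (by simp), ?_⟩, ?_, ?_, ?_⟩, ?_, ?_⟩
      · exact ScK.reg k1 rfl (by simp) (by simp)
      · rw [cj_succ ha hv h1 h2, if_neg hc]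
        exact k2
      · omega
      · simp [k4]
      · simp [k5]
      · simp [k6]
      · simp [hj]
      · simp [hhi1]
  · rintro s1 ⟨k1, ⟨Sk1, k2, k3⟩, k4, k5, k6⟩ _ _
    exact ⟨k1, ⟨Sk1, k2, k3⟩, k5, k6⟩
  · simp only [Exp.cost]; omega

theorem bkf_CC {n L : ℕ} {G : SimpleGraph ℕ} {alw : ℕ → ℕ} {ord : List ℕ} (hnd : ord.Nodup) :
    ScC n L G alw (bkf G L ord) :=
  fun y _ _ => ⟨bkf_nodup hnd y, fun _ hz => (bkf_sub hz).2.symm, bkf_len y⟩

/-- the beginning of `pScanV` -/
def scPreV : Cmd :=
  .blk [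
    .put SC (V rv) (K 1),
    .put ORD (V rno) (V rv),
    .put RS (V rno) (V rb),
    .incr rno,
    .set rhi (A OFF (.inc (V rv)))]

theorem preV_ex (s : St) :
    (scPreV.ex s).m SC = Function.update (s.m SC) (s.r rv) 1 ∧
    (scPreV.ex s).m ORD = Function.update (s.m ORD) (s.r rno) (s.r rv) ∧
    (scPreV.ex s).m RS = Function.update (s.m RS) (s.r rno) (s.r rb) ∧
    (scPreV.ex s).r rno = s.r rno + 1 ∧ (scPreV.ex s).r rhi = s.m OFF (s.r rv + 1) ∧
    (∀ a, a ≠ SC → a ≠ ORD → a ≠ RS → (scPreV.ex s).m a = s.m a) ∧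
    (∀ x, x ≠ rno → x ≠ rhi → (scPreV.ex s).r x = s.r x) := by
  refine ⟨?_, ?_, ?_, ?_, ?_, ?_, ?_⟩
  · simp [scPreV]
  · simp [scPreV]
  · simp [scPreV]
  · simp [scPreV]
  · simp [scPreV]
  · intro a h1 h2 h3
    simp [scPreV, h1, h2, h3]
  · intro x h1 h2
    simp [scPreV, h1, h2]

theorem pScanV_spec {n m L : ℕ} {G : SimpleGraph ℕ} (hG : Inn n G) {adj off alw : ℕ → ℕ}
    {ord : List ℕ} {Sk : ℕ → List ℕ} {v : ℕ} {s : St} (ha : AdjP n m G off adj) (hv : v < n)
    (hvP : alw v = 1) (hvo : v ∉ ord) (ho : ∀ x ∈ ord, x < n ∧ alw x = 1) (hnd : ord.Nodup)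
    (hk : ScK n L off adj alw s) (hi : ScI n L off alw (bkf G L ord) ord (ord ++ [v]) Sk s) (hrv : s.r rv = v)
    (hb : s.r rb = (bkf G L ord v).length) :
    Tri s pScanV (100 + 100 * (off (v + 1) - off v))
      (fun s' => ScK n L off adj alw s' ∧ (∃ Sk', ScI n L off alw
        (bkf G L (ord ++ [v])) (ord ++ [v]) (ord ++ [v]) Sk' s' ∧
        tot L Sk' ≤ tot L Sk + (off (v + 1) - off v)) ∧ s'.r rb = min (s.r rb + 1) L ∧
        s'.r rgo = s.r rgo) := by
  set d := off (v + 1) - off v with hd
  have hlen : s.r rno = ord.length := by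
    have := congrArg List.length hi.ord_
    simpa using this
  obtain ⟨e1, e2, e3, e4, e5, e6, e7⟩ := preV_ex s
  rw [hrv] at e1 e2 e5
  rw [hlen] at e2 e3 e4
  -- the state after the first five commands
  have key : ScI n L off alw (bkf G L ord) (ord ++ [v]) (ord ++ [v]) Sk (scPreV.ex s) := by
    refine ⟨?_, ?_, ?_, ?_, ?_, ?_, ?_, ?_, ?_, ?_, ?_, ?_⟩
    · rw [e2, e4, seg_succ _ (by omega), seg_update (by omega), Function.update_self]
      have := hi.ord_
      rw [hlen] at this
      rw [this]
    · intro y hy hyP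
      rw [e1, Function.update_apply]
      by_cases hyv : y = v
      · subst hyv; simp
      · rw [if_neg hyv, hi.sc y hy hyP]; simp [hyv]
    · intro i hi'
      rw [e3, Function.update_apply]
      simp only [List.length_append, List.length_singleton] at hi'
      by_cases hil : i = ord.length
      · subst hil
        rw [if_pos rfl, hb, List.getElem_append_right le_rfl]
        simp
      · rw [if_neg hil, List.getElem_append_left (by omega)]
        exact hi.rs i (by omega)
    · rw [e6 BE (by decide) (by decide) (by decide)]; exact hi.be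
    · rw [e6 BE (by decide) (by decide) (by decide)]; exact hi.be0
    · rw [e6 RR (by decide) (by decide) (by decide)]; exact hi.rr
    · rw [e6 BKA (by decide) (by decide) (by decide)]; exact hi.bk
    · rw [e6 FW (by decide) (by decide) (by decide)]; exact hi.fw
    · rw [e6 STN (by decide) (by decide) (by decide), e6 STH (by decide) (by decide) (by decide)]
      exact hi.lk
    · rw [e7 rfr (by decide) (by decide)]; exact hi.fr
    · rw [e7 rfr (by decide) (by decide), e6 STV (by decide) (by decide) (by decide)]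
      exact hi.stv
    · rw [e6 STV (by decide) (by decide) (by decide)]
      intro y hy hyP hyo
      exact hi.ink y hy hyP hyo
  have keyK : ScK n L off adj alw (scPreV.ex s) := by
    refine ⟨?_, ?_, ?_, ?_, ?_⟩
    · rw [e7 rn (by decide) (by decide)]; exact hk.n_
    · rw [e7 rL (by decide) (by decide)]; exact hk.L_
    · rw [e6 OFF (by decide) (by decide) (by decide)]; exact hk.off_
    · rw [e6 ADJ (by decide) (by decide) (by decide)]; exact hk.adj_
    · rw [e6 ALW (by decide) (by decide) (by decide)]; exact hk.alw_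
  have hvC : ∀ y < n, alw y = 1 → y ∉ ord ++ [v] → v ∉ bkf G L ord y := by
    intro y _ _ _ h
    exact hvo (bkf_sub h).1
  have hin := scInner_spec hG ha hv (bkf_CC hnd) hvC keyK key
    (by rw [e7 rv (by decide) (by decide), hrv]) (by rw [e5, hk.off_])
  rw [e7 rb (by decide) (by decide), e7 rgo (by decide) (by decide)] at hin
  -- assemble
  have hcong : ∀ y < n, alw y = 1 → bkf G L (ord ++ [v]) y =
      scCj L adj off alw (ord ++ [v]) (bkf G L ord) v (off (v + 1)) y := by
    intro y hy hyP
    simp only [scCj, ha.mem v hv y, hyP, true_and, List.mem_append, List.mem_singleton, not_or]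
    by_cases h1 : y ∈ ord
    · rw [bkf_append_mem h1]; simp [h1]
    · by_cases h2 : y = v
      · subst h2
        rw [bkf_append_self h1]; simp
      · rw [bkf_append h1 h2]
        simp [h1, h2]
  have hfin : Tri (scPreV.ex s) (.blk [.for_ rj (A OFF (V rv)) rhi scBodyV,
      .whn (.lt (V rb) (V rL)) (.incr rb)]) (20 + 100 * d) (fun s' => ScK n L off adj alw s' ∧
        (∃ Sk', ScI n L off alw
        (bkf G L (ord ++ [v])) (ord ++ [v]) (ord ++ [v]) Sk' s' ∧
        tot L Sk' ≤ tot L Sk + d) ∧ s'.r rb = min (s.r rb + 1) L ∧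
        s'.r rgo = s.r rgo) := by
    refine Tri.cons (B1 := 7 + 100 * d) (B2 := 13) (hin.imp ?_) (by omega)
    rintro s1 ⟨k1, ⟨Sk1, k2, k3⟩, k4, k5⟩
    have hbL : s.r rb ≤ L := by rw [hb]; exact bkf_len v
    refine (Tri.lf (by decide) ?_).cost (by decide)
    have k2' := k2.congr hcong (by
      intro x hx
      rcases List.mem_append.1 hx with hx | hx
      · exact ho x hx
      · simp only [List.mem_singleton] at hx; subst hx; exact ⟨hv, hvP⟩)
    by_cases hlt : s.r rb < L
    · have : (Cmd.blk [.whn (.lt (V rb) (V rL)) (.incr rb)]).ex s1 = s1.setR rb (s1.r rb + 1) := by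
        simp [k4, k1.L_, hlt]
      rw [this]
      refine ⟨k1.reg rfl (by simp) (by simp), ⟨Sk1, k2'.reg rfl (by simp) (by simp), k3⟩, ?_, ?_⟩
      · simp only [St.setR_r, if_true, k4]; omega
      · simp [k5]
    · have : (Cmd.blk [.whn (.lt (V rb) (V rL)) (.incr rb)]).ex s1 = s1 := by
        simp [k4, k1.L_, hlt]
      rw [this]
      refine ⟨k1, ⟨Sk1, k2', k3⟩, ?_, k5⟩
      rw [k4]; omega
  have hpre : Tri s pScanV (100 + 100 * d) (fun s' => ScK n L off adj alw s' ∧
        (∃ Sk', ScI n L off alw
        (bkf G L (ord ++ [v])) (ord ++ [v]) (ord ++ [v]) Sk' s' ∧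
        tot L Sk' ≤ tot L Sk + d) ∧ s'.r rb = min (s.r rb + 1) L ∧
        s'.r rgo = s.r rgo) := by
    refine Tri.cons (B1 := 3) (B2 := 97 + 100 * d) (Tri.put ?_ (by decide)) (by omega)
    refine Tri.cons (B1 := 3) (B2 := 94 + 100 * d) (Tri.put ?_ (by decide)) (by omega)
    refine Tri.cons (B1 := 3) (B2 := 91 + 100 * d) (Tri.put ?_ (by decide)) (by omega)
    refine Tri.cons (B1 := 3) (B2 := 88 + 100 * d) (Tri.set ?_ (by decide)) (by omega)
    refine Tri.cons (B1 := 4) (B2 := 84 + 100 * d) (Tri.set ?_ (by decide)) (by omega)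
    exact hfin.cost (by omega)
  exact hpre

/-- potential -/
noncomputable def scPot (n L : ℕ) (off : ℕ → ℕ) (ord : List ℕ) (Sk : ℕ → List ℕ) (b go : ℕ) : ℕ :=
  200 * tot L Sk + 50 * b + 50 * go +
    ∑ y ∈ (range n).filter (fun y => y ∉ ord), (500 * (off (y + 1) - off y) + 500)

/-- invariant of the main loop -/
def ScM (n L : ℕ) (G : SimpleGraph ℕ) (off adj alw : ℕ → ℕ) (N : ℕ) (s : St) : Prop :=
  ∃ ord Sk, ScK n L off adj alw s ∧ ScI n L off alw (bkf G L ord) ord ord Sk s ∧
    OrdOK G (fun v => v < n ∧ alw v = 1) L ord ∧ s.r rb ≤ L ∧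
    (∀ y < n, alw y = 1 → y ∉ ord → (bkf G L ord y).length ≤ s.r rb) ∧
    s.r rgo ≤ 1 ∧ (s.r rgo = 0 → ∀ y < n, alw y = 1 → y ∈ ord) ∧
    N = scPot n L off ord Sk (s.r rb) (s.r rgo)

theorem scPot_snoc {n L : ℕ} {off : ℕ → ℕ} {ord : List ℕ} {Sk Sk' : ℕ → List ℕ} {b b' go v : ℕ}
    (hv : v < n) (hvo : v ∉ ord) (hb : b' ≤ b + 1)
    (ht : tot L Sk' + 1 ≤ tot L Sk + (off (v + 1) - off v)) :
    200 * (off (v + 1) - off v) + 400 + scPot n L off (ord ++ [v]) Sk' b' go ≤
      scPot n L off ord Sk b go := by
  have h1 : (range n).filter (fun y => y ∉ ord) =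
      insert v ((range n).filter (fun y => y ∉ ord ++ [v])) := by
    ext y
    simp only [mem_filter, mem_range, mem_insert, List.mem_append, List.mem_singleton, not_or]
    by_cases hy : y = v
    · subst hy; simp [hv, hvo]
    · simp [hy]
  simp only [scPot]
  rw [h1, Finset.sum_insert (by simp)]
  omega

theorem pScan1_step {n m L : ℕ} {G : SimpleGraph ℕ} (hG : Inn n G) {adj off alw : ℕ → ℕ}
    (ha : AdjP n m G off adj) (N : ℕ) (s : St) (h : ScM n L G off adj alw N s)
    (hgo : s.r rgo = 1) :
    ∃ B, Tri s pScan1 B (fun s' => ∃ N', ScM n L G off adj alw N' s' ∧ 4 + B + N' ≤ N) := by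
  obtain ⟨ord, Sk, hk, hi, ho, hb, ht, hg1, hg0, hN⟩ := h
  have hlk := hi.lk _ hb
  by_cases hp : s.m STH (s.r rb) = 0
  · rw [hp] at hlk
    have hnil := hlk.zero
    by_cases hb0 : s.r rb = 0
    · -- finished
      refine ⟨16, (Tri.ite (B := 11) (fun _ => ?_) (fun h => ?_)).cost (by decide)⟩
      · refine (Tri.ite (B := 2) (fun _ => ?_) (fun h => ?_)).cost (by decide)
        · refine Tri.set ?_ (by decide)
          refine ⟨scPot n L off ord Sk (s.r rb) 0, ⟨ord, Sk, hk.reg rfl (by simp) (by simp),
            hi.reg rfl (by simp) (by simp), ho, by simpa using hb, by simpa using ht, by simp, ?_,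
            by simp⟩, ?_⟩
          · intro _ y hy hyP
            by_contra hyo
            obtain ⟨a, h1, _⟩ := hi.ink y hy hyP hyo
            have := ht y hy hyP hyo
            rw [show (bkf G L ord y).length = s.r rb by omega, hnil] at h1
            exact absurd h1 (by simp)
          · rw [hN, hgo]; simp only [scPot]; omega
        · simp [hb0] at h
      · simp [hp] at h
    · refine ⟨16, (Tri.ite (B := 11) (fun _ => ?_) (fun h => ?_)).cost (by decide)⟩
      · refine (Tri.ite (B := 3) (fun h => ?_) (fun _ => ?_)).cost (by decide)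
        · simp [hb0] at h
        · refine Tri.set ?_ (by decide)
          refine ⟨scPot n L off ord Sk (s.r rb - 1) (s.r rgo), ⟨ord, Sk, hk.reg rfl (by simp) (by simp),
            hi.reg rfl (by simp) (by simp), ho, ?_, ?_, by simpa using hg1, by simp [hgo],
            by simp⟩, ?_⟩
          · simp only [St.setR_r, if_true, Exp.ev_dec, Exp.ev_reg]; omega
          · intro y hy hyP hyo
            simp only [St.setR_r, if_true, Exp.ev_dec, Exp.ev_reg]
            obtain ⟨a, h1, _⟩ := hi.ink y hy hyP hyo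
            have h2 := ht y hy hyP hyo
            rcases Nat.lt_or_ge (bkf G L ord y).length (s.r rb) with h3 | h3
            · omega
            · rw [show (bkf G L ord y).length = s.r rb by omega, hnil] at h1
              exact absurd h1 (by simp)
          · rw [hN]; simp only [scPot]; omega
      · simp [hp] at h
  · obtain ⟨l', hl, hl'⟩ := hlk.pos hp
    set a0 := s.m STH (s.r rb) - 1 with ha0
    have ha0l : a0 ∈ Sk (s.r rb) := by rw [hl]; exact List.mem_cons_self
    have ha0r := hi.fr _ hb a0 ha0l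
    set v := s.m STV a0 with hv
    obtain ⟨hvn, hvP⟩ := hi.stv a0 ha0r
    rw [← hv] at hvn hvP
    -- the state after the pop
    set s1 : St := ((s.setR ra a0).setR rv v).setM STH (s.r rb) (s.m STN a0) with hs1
    have hk1 : ScK n L off adj alw s1 := by
      refine ⟨?_, ?_, ?_, ?_, ?_⟩
      · simp [hs1, hk.n_]
      · simp [hs1, hk.L_]
      · simp [hs1, hk.off_]
      · simp [hs1, hk.adj_]
      · simp [hs1, hk.alw_]
    have hink : ∀ ex : List ℕ, (∀ y, y ∉ ex → y ∉ ord) → (∀ y < n, alw y = 1 → y ∉ ex →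
        (y ≠ v ∨ (bkf G L ord y).length ≠ s.r rb)) →
        ScI n L off alw (bkf G L ord) ord ex (Function.update Sk (s.r rb) l') s1 := by
      intro ex hex hex'
      refine ⟨?_, ?_, ?_, ?_, ?_, ?_, ?_, ?_, ?_, ?_, ?_, ?_⟩
      · simpa [hs1] using hi.ord_
      · simpa [hs1] using hi.sc
      · simpa [hs1] using hi.rs
      · simpa [hs1] using hi.be
      · simpa [hs1] using hi.be0
      · simpa [hs1] using hi.rr
      · simpa [hs1] using hi.bk
      · simpa [hs1] using hi.fw
      · intro e he
        have e1 : s1.m STN = s.m STN := by simp [hs1]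
        have e2 : s1.m STH = Function.update (s.m STH) (s.r rb) (s.m STN a0) := by simp [hs1]
        rw [e1, e2, Function.update_apply, Function.update_apply]
        by_cases hee : e = s.r rb
        · rw [if_pos hee, if_pos hee]; exact hl'
        · rw [if_neg hee, if_neg hee]; exact hi.lk e he
      · intro e he a hae
        have e1 : s1.r rfr = s.r rfr := by simp [hs1]
        rw [e1]
        rw [Function.update_apply] at hae
        by_cases hee : e = s.r rb
        · rw [if_pos hee] at hae
          exact hi.fr _ hb a (by rw [hl]; exact List.mem_cons_of_mem _ hae)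
        · rw [if_neg hee] at hae; exact hi.fr e he a hae
      · simpa [hs1] using hi.stv
      · intro y hy hyP hyex
        have e1 : s1.m STV = s.m STV := by simp [hs1]
        rw [e1]
        obtain ⟨a, h1, h2⟩ := hi.ink y hy hyP (hex y hyex)
        refine ⟨a, ?_, h2⟩
        rw [Function.update_apply]
        split_ifs with h3
        · rw [h3, hl, List.mem_cons] at h1
          rcases h1 with h1 | h1
          · exfalso
            rw [h1] at h2
            rcases hex' y hy hyP hyex with h4 | h4
            · exact h4 (by rw [← h2])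
            · exact h4 h3
          · exact h1
        · exact h1
    have htot := tot_update (L := L) (e := s.r rb) (Sk := Sk) (l := l') hb
    rw [hl, List.length_cons] at htot
    have hsc := hi.sc v hvn hvP
    have hrr := hi.rr v hvn hvP
    have e3 : s1.m SC = s.m SC := by simp [hs1]
    have e4 : s1.m RR = s.m RR := by simp [hs1]
    have e5 : s1.r rv = v := by simp [hs1]
    have e6 : s1.r rb = s.r rb := by simp [hs1]
    have e7 : s1.r rgo = s.r rgo := by simp [hs1]
    by_cases hcase : v ∉ ord ∧ (bkf G L ord v).length = s.r rb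
    · -- scan v
      refine ⟨150 + 100 * (off (v + 1) - off v), ?_⟩
      refine (Tri.ite (B := 144 + 100 * (off (v + 1) - off v)) (fun h => ?_) (fun _ => ?_)).cost ?_
      · simp [hp] at h
      · refine Tri.cons (B1 := 4) (B2 := 140 + 100 * (off (v + 1) - off v)) (Tri.set ?_ (by decide))
          (by omega)
        refine Tri.cons (B1 := 3) (B2 := 137 + 100 * (off (v + 1) - off v)) (Tri.set ?_ (by decide))
          (by omega)
        refine Tri.cons (B1 := 4) (B2 := 133 + 100 * (off (v + 1) - off v)) (Tri.put ?_ (by decide))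
          (by omega)
        have hst : (((s.setR ra ((A STH (V rb)).dec.ev s)).setR rv
            ((A STV (V ra)).ev (s.setR ra ((A STH (V rb)).dec.ev s)))).setM STH
            ((V rb).ev ((s.setR ra ((A STH (V rb)).dec.ev s)).setR rv
            ((A STV (V ra)).ev (s.setR ra ((A STH (V rb)).dec.ev s)))))
            ((A STN (V ra)).ev ((s.setR ra ((A STH (V rb)).dec.ev s)).setR rv
            ((A STV (V ra)).ev (s.setR ra ((A STH (V rb)).dec.ev s)))))) = s1 := by
          simp [hs1, ha0, hv]
        rw [hst]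
        refine Tri.cons (B1 := 120 + 100 * (off (v + 1) - off v)) (B2 := 1) ?_ (by omega)
        refine (Tri.ite (B := 100 + 100 * (off (v + 1) - off v)) (fun _ => ?_)
          (fun h => ?_)).cost ?_
        · refine (pScanV_spec hG ha hvn hvP hcase.1 ho.mem ho.nd hk1 (hink (ord ++ [v]) ?_ ?_) e5
            (by rw [e6, hcase.2])).imp ?_
          · intro y hy h; exact hy (by simp [h])
          · intro y _ _ hy; left; rintro rfl; exact hy (by simp)
          · rintro s2 ⟨k1, ⟨Sk2, k2, k3⟩, k4, k5⟩
            rw [e6] at k4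
            rw [e7] at k5
            refine Tri.nil ?_ le_rfl
            refine ⟨_, ⟨ord ++ [v], Sk2, k1, k2, ho.snoc ⟨hvn, hvP⟩ hcase.1 ?_, ?_, ?_, ?_, ?_,
              rfl⟩, ?_⟩
            · intro y hy hyo
              rw [hcase.2]; exact ht y hy.1 hy.2 hyo
            · rw [k4]; omega
            · intro y hy hyP hyo
              simp only [List.mem_append, List.mem_singleton, not_or] at hyo
              have h1 := ht y hy hyP hyo.1
              have h2 : (bkf G L (ord ++ [v]) y).length ≤ (bkf G L ord y).length + 1 := by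
                rw [bkf_append hyo.1 hyo.2]
                split_ifs
                · simp
                · omega
              have h3 : (bkf G L (ord ++ [v]) y).length ≤ L := bkf_len y
              rw [k4]; omega
            · rw [k5]; exact hg1
            · rw [k5, hgo]; intro h; exact absurd h (by omega)
            · have hpot := scPot_snoc (n := n) (L := L) (off := off) (ord := ord) (Sk := Sk)
                (Sk' := Sk2) (b := s.r rb) (b' := s2.r rb) (go := s.r rgo) hvn hcase.1
                (by rw [k4]; omega) (by omega)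
              rw [hN, k5]
              omega
        · exfalso
          simp only [Cond.ev_and, Cond.ev_eq, Exp.ev_get, Exp.ev_reg, Exp.ev_const, e3, e4, e5, e6,
            hsc, hrr, hcase.2, if_neg hcase.1] at h
          simp at h
        · simp only [Cond.cost, Exp.cost]; omega
      · simp only [Cond.cost, Exp.cost]; omega
    · -- forget the node
      refine ⟨50, ?_⟩
      refine (Tri.ite (B := 40) (fun h => ?_) (fun _ => ?_)).cost (by decide)
      · simp [hp] at h
      · refine Tri.cons (B1 := 4) (B2 := 30) (Tri.set ?_ (by decide)) (by omega)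
        refine Tri.cons (B1 := 3) (B2 := 27) (Tri.set ?_ (by decide)) (by omega)
        refine Tri.cons (B1 := 4) (B2 := 23) (Tri.put ?_ (by decide)) (by omega)
        have hst : (((s.setR ra ((A STH (V rb)).dec.ev s)).setR rv
            ((A STV (V ra)).ev (s.setR ra ((A STH (V rb)).dec.ev s)))).setM STH
            ((V rb).ev ((s.setR ra ((A STH (V rb)).dec.ev s)).setR rv
            ((A STV (V ra)).ev (s.setR ra ((A STH (V rb)).dec.ev s)))))
            ((A STN (V ra)).ev ((s.setR ra ((A STH (V rb)).dec.ev s)).setR rv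
            ((A STV (V ra)).ev (s.setR ra ((A STH (V rb)).dec.ev s)))))) = s1 := by
          simp [hs1, ha0, hv]
        rw [hst]
        refine Tri.cons (B1 := 20) (B2 := 1) ?_ (by omega)
        refine (Tri.ite (B := 1) (fun h => ?_) (fun _ => ?_)).cost (by decide)
        · exfalso
          simp only [Cond.ev_and, Cond.ev_eq, Exp.ev_get, Exp.ev_reg, Exp.ev_const, e3, e4, e5, e6,
            hsc, hrr, Bool.and_eq_true, decide_eq_true_eq] at h
          refine hcase ⟨?_, h.2⟩
          intro h5
          rw [if_pos h5] at h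
          exact absurd h.1 (by omega)
        · refine Tri.skip (Tri.nil ?_ le_rfl) le_rfl
          refine ⟨_, ⟨ord, Function.update Sk (s.r rb) l', hk1, hink ord (fun _ h => h) ?_, ho,
            by rw [e6]; exact hb, by rw [e6]; exact ht, by rw [e7]; exact hg1, ?_, rfl⟩, ?_⟩
          · intro y hy hyP hyo
            by_contra hcon
            push Not at hcon
            exact hcase ⟨hcon.1 ▸ hyo, hcon.1 ▸ hcon.2⟩
          · rw [e7, hgo]; intro h; exact absurd h (by omega)
          · rw [hN, e6, e7]; simp only [scPot]; omega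

/-- first part of the initialisation: the arrays indexed by vertices -/
structure ScJ1 (off : ℕ → ℕ) (j : ℕ) (s : St) : Prop where
  rr : ∀ y < j, s.m RR y = 0
  sc : ∀ y < j, s.m SC y = 0
  be : ∀ y < j, s.m BE y = off y
  fw : ∀ y < j, s.m FW y = 0

theorem ScJ1.reg {off : ℕ → ℕ} {j : ℕ} {s s' : St} (h : ScJ1 off j s) (h1 : s'.m RR = s.m RR)
    (h2 : s'.m SC = s.m SC) (h3 : s'.m BE = s.m BE) (h4 : s'.m FW = s.m FW) : ScJ1 off j s' := by
  refine ⟨?_, ?_, ?_, ?_⟩
  · rw [h1]; exact h.rr
  · rw [h2]; exact h.sc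
  · rw [h3]; exact h.be
  · rw [h4]; exact h.fw

theorem ScK.reg' {n L : ℕ} {off adj alw : ℕ → ℕ} {s s' : St} (h : ScK n L off adj alw s)
    (h3 : s'.m OFF = s.m OFF) (h4 : s'.m ADJ = s.m ADJ) (h5 : s'.m ALW = s.m ALW)
    (h1 : s'.r rn = s.r rn) (h2 : s'.r rL = s.r rL) :
    ScK n L off adj alw s' := by
  refine ⟨?_, ?_, ?_, ?_, ?_⟩
  · rw [h1]; exact h.n_
  · rw [h2]; exact h.L_
  · rw [h3]; exact h.off_
  · rw [h4]; exact h.adj_
  · rw [h5]; exact h.alw_

/-- invariant of the third loop of the initialisation -/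
def ScJ3 (n L : ℕ) (off adj alw : ℕ → ℕ) (j : ℕ) (s : St) : Prop :=
  ScK n L off adj alw s ∧ ScJ1 off n s ∧ s.r re = 0 ∧ (∀ e, 1 ≤ e → e ≤ L → s.m STH e = 0) ∧
  ∃ l : List ℕ, Lk (s.m STN) (s.m STH 0) l ∧ (∀ a ∈ l, a < s.r rfr) ∧
    (∀ a < s.r rfr, s.m STV a < n ∧ alw (s.m STV a) = 1) ∧
    (∀ y < j, alw y = 1 → ∃ a ∈ l, s.m STV a = y) ∧ l.length ≤ j

theorem pScan0_spec {n m L : ℕ} {G : SimpleGraph ℕ} {adj off alw : ℕ → ℕ}
    (ha : AdjP n m G off adj) {s : St} (hk : ScK n L off adj alw s) :
    Tri s pScan0 (100 * n + 20 * L + 60) (fun s' => ∃ N, ScM n L G off adj alw N s' ∧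
      N ≤ 700 * n + 1000 * m + 50) := by
  refine Tri.cons (B1 := 6 + 40 * n) (B2 := 60 * n + 20 * L + 54) ?_ (by omega)
  refine (Tri.forC (a := 0) (N := n) (I := fun j s1 => ScK n L off adj alw s1 ∧ ScJ1 off j s1) 33
    (by decide) (by simp) hk.n_ (by omega) ?_ ?_ ?_).cost ?_
  · exact ⟨hk.reg rfl (by simp) (by simp), by constructor <;> simp⟩
  · rintro j _ hj s1 ⟨k1, k2⟩ h1 h2
    refine (Tri.lf (by decide) ?_).cost (by decide)
    simp only [Cmd.ex_cons, Cmd.ex_nil, Cmd.ex_put, Exp.ev_reg, Exp.ev_const, Exp.ev_get,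
      St.setM_r, h1]
    refine ⟨⟨k1.reg' (by simp) (by simp) (by simp) (by simp) (by simp), ?_⟩, by simp [h1],
      by simp [h2]⟩
    refine ⟨?_, ?_, ?_, ?_⟩
    · intro y hy
      simp only [St.setR_m, St.setM_m]
      simp [Function.update_apply]
      intro h; exact k2.rr y (by omega)
    · intro y hy
      simp only [St.setR_m, St.setM_m]
      simp [Function.update_apply]
      intro h; exact k2.sc y (by omega)
    · intro y hy
      simp only [St.setR_m, St.setM_m]
      simp [Function.update_apply]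
      split_ifs with h
      · rw [k1.off_, h]
      · exact k2.be y (by omega)
    · intro y hy
      simp only [St.setR_m, St.setM_m]
      simp [Function.update_apply]
      intro h; exact k2.fw y (by omega)
  · rintro s1 ⟨k1, k2⟩ _ _
    refine Tri.cons (B1 := 3) (B2 := 60 * n + 20 * L + 51) (Tri.set ?_ (by decide)) (by omega)
    refine Tri.cons (B1 := 6 + 10 * (L + 1)) (B2 := 60 * n + 10 * L + 35) ?_ (by omega)
    refine (Tri.forC (a := 0) (N := L + 1) (I := fun j s1 => ScK n L off adj alw s1 ∧ ScJ1 off n s1 ∧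
      ∀ e < j, s1.m STH e = 0) 3 (by decide) (by simp) ?_ (by omega) ?_ ?_ ?_).cost ?_
    · simp [k1.L_]
    · exact ⟨k1.reg rfl (by simp) (by simp), k2.reg rfl rfl rfl rfl, by simp⟩
    · rintro j _ hj s2 ⟨l1, l2, l3⟩ h1 h2
      refine (Tri.lf (by decide) ?_).cost (by decide)
      refine ⟨⟨l1.reg' (by simp) (by simp) (by simp) (by simp) (by simp),
        l2.reg (by simp) (by simp) (by simp) (by simp), ?_⟩, by simp [h1], by simp [h2]⟩
      intro e he
      simp only [Cmd.ex_put, St.setR_m, St.setM_m, Exp.ev_reg, Exp.ev_const, h1, if_true,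
        Function.update_apply]
      split_ifs with h
      · rfl
      · exact l3 e (by omega)
    · rintro s2 ⟨l1, l2, l3⟩ _ _
      refine Tri.cons (B1 := 2) (B2 := 60 * n + 10 * L + 33) (Tri.set ?_ (by decide)) (by omega)
      refine Tri.cons (B1 := 2) (B2 := 60 * n + 10 * L + 31) (Tri.set ?_ (by decide)) (by omega)
      refine Tri.cons (B1 := 6 + 50 * n) (B2 := 10 * n + 10 * L + 25) ?_ (by omega)
      refine (Tri.forC (a := 0) (N := n) (I := ScJ3 n L off adj alw) 43
        (by decide) (by simp) ?_ (by omega) ?_ ?_ ?_).cost ?_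
      · simp [l1.n_]
      · refine ⟨l1.reg rfl (by simp) (by simp), l2.reg rfl rfl rfl rfl, by simp, ?_,
          [], ?_, by simp, by simp, by simp, by simp⟩
        · intro e _ he
          exact l3 e (by omega)
        · simp only [Lk, St.setR_m]
          exact l3 0 (by omega)
      · rintro j _ hj s3 ⟨m1, m2, m3, m4, l, m5, m6, m7, m8, m9⟩ h1 h2
        refine (Tri.lf (by decide) ?_).cost (by decide)
        by_cases hP : alw j = 1
        · have hal : s3.m ALW j = 1 := by rw [m1.alw_]; exact hP
          have hex : (Cmd.whn (.eq (A ALW (V ri)) (K 1)) (.blk [.set ry (V ri), pPush])).ex s3 =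
              ((((s3.setR ry j).setM STV (s3.r rfr) j).setM STN (s3.r rfr) (s3.m STH 0)).setR rfr
                (s3.r rfr + 1)).setM STH 0 (s3.r rfr + 1) := by
            simp [pPush, h1, hal, m3]
          rw [hex]
          refine ⟨⟨m1.reg' (by simp) (by simp) (by simp) (by simp) (by simp),
            m2.reg (by simp) (by simp) (by simp) (by simp), by simp [m3], ?_, s3.r rfr :: l,
            ?_, ?_, ?_, ?_, ?_⟩, by simp [h1], by simp [h2]⟩
          · intro e he1 he2
            have : e ≠ 0 := by omega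
            simp [this, m4 e he1 he2]
          · refine ⟨by simp, ?_⟩
            simp only [St.setR_m, St.setM_m]
            simp
            exact m5.upd (fun a ha => ne_of_lt (m6 a ha))
          · intro a haa
            simp only [St.setR_r, St.setM_r]
            rcases List.mem_cons.1 haa with rfl | haa
            · simp
            · have := m6 a haa
              simp; omega
          · intro a haa
            simp only [St.setR_r, St.setM_r] at haa
            simp at haa
            simp only [St.setR_m, St.setM_m]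
            simp [Function.update_apply]
            split_ifs with h3
            · exact ⟨hj, hP⟩
            · exact m7 a (by omega)
          · intro y hy hyP
            simp only [St.setR_m, St.setM_m]
            simp [Function.update_apply]
            rcases Nat.lt_or_ge y j with h3 | h3
            · obtain ⟨a, h4, h5⟩ := m8 y h3 hyP
              right
              refine ⟨a, h4, ?_⟩
              rw [if_neg (ne_of_lt (m6 a h4))]
              exact h5
            · left; omega
          · simp only [List.length_cons]; omega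
        · have hal : ¬ s3.m ALW j = 1 := by rw [m1.alw_]; exact hP
          have hex : (Cmd.whn (.eq (A ALW (V ri)) (K 1)) (.blk [.set ry (V ri), pPush])).ex s3 =
              s3 := by
            simp [h1, hal]
          rw [hex]
          refine ⟨⟨m1.reg' (by simp) (by simp) (by simp) (by simp) (by simp),
            m2.reg (by simp) (by simp) (by simp) (by simp), by simp [m3], ?_, l,
            ?_, ?_, ?_, ?_, ?_⟩, by simp [h1], by simp [h2]⟩
          · simpa using m4
          · simpa using m5
          · simpa using m6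
          · simpa using m7
          · intro y hy hyP
            rcases Nat.lt_or_ge y j with h3 | h3
            · exact m8 y h3 hyP
            · exact absurd ((show y = j by omega) ▸ hyP) hP
          · omega
      · rintro s3 ⟨m1, m2, m3, m4, l, m5, m6, m7, m8, m9⟩ _ _
        refine Tri.cons (B1 := 2) (B2 := 10 * n + 10 * L + 23) (Tri.set ?_ (by decide)) (by omega)
        refine Tri.cons (B1 := 2) (B2 := 10 * n + 10 * L + 21) (Tri.set ?_ (by decide)) (by omega)
        refine Tri.cons (B1 := 2) (B2 := 1) (Tri.set ?_ (by decide)) (by omega)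
        refine Tri.nil ?_ le_rfl
        have hb0 : ∀ y, bkf G L [] y = [] := by intro y; simp [bkf, nbl]
        refine ⟨_, ⟨[], fun e => if e = 0 then l else [], m1.reg rfl (by simp) (by simp), ?_,
          OrdOK.nil, by simp, ?_, by simp, by simp, rfl⟩, ?_⟩
        · refine ⟨by simp, ?_, by simp, ?_, ?_, ?_, ?_, ?_, ?_, ?_, ?_, ?_⟩
          · intro y hy hyP; simpa using m2.sc y hy
          · intro y hy hyP; rw [hb0]; simpa using m2.be y hy
          · intro y hy hyP; simpa using m2.be y hy
          · intro y hy hyP; rw [hb0]; simpa using m2.rr y hy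
          · intro y hy hyP; rw [hb0]; simp
          · intro v hv
            simp only [hb0, List.not_mem_nil, and_false, Finset.filter_false, Finset.card_empty]
            simpa using m2.fw v hv
          · intro e he
            by_cases he0 : e = 0
            · subst he0; simpa using m5
            · have := m4 e (by omega) he
              simp [he0, Lk, this]
          · intro e he a hae
            by_cases he0 : e = 0
            · subst he0
              simp at hae
              simpa using m6 a hae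
            · simp [he0] at hae
          · simpa using m7
          · intro y hy hyP _
            rw [hb0]
            simpa using m8 y hy hyP
        · intro y _ _ _; rw [hb0]; simp
        · simp only [scPot, tot, St.setR_r]
          have h1 : ∑ e ∈ range (L + 1), (if e = 0 then l else []).length = l.length := by
            rw [Finset.sum_eq_single 0]
            · simp
            · intro b _ hb; simp [hb]
            · intro h; simp at h
          have h2 : ∑ y ∈ (range n).filter (fun y => y ∉ ([] : List ℕ)),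
              (500 * (off (y + 1) - off y) + 500) = 500 * (2 * m) + 500 * n := by
            have : (range n).filter (fun y => y ∉ ([] : List ℕ)) = range n := by
              ext y; simp
            rw [this, Finset.sum_add_distrib, ← Finset.mul_sum]
            have h3 : ∀ k ≤ n, ∑ y ∈ range k, (off (y + 1) - off y) = off k := by
              intro k hk
              induction k with
              | zero => simp [ha.off0]
              | succ k ih =>
                rw [Finset.sum_range_succ, ih (by omega)]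
                have := ha.mono k (by omega)
                omega
            rw [h3 n le_rfl, ha.offn]
            simp [mul_comm]
          rw [h1, h2]
          simp
          omega
      · simp [Exp.cost]; omega
    · simp [Exp.cost]; omega
  · simp [Exp.cost]; omega

/-- result of the scan of the graph induced on the vertices with `ALW = 1` -/
structure ScanP (n L : ℕ) (G : SimpleGraph ℕ) (alw : ℕ → ℕ) (ord : List ℕ) (BK : ℕ → List ℕ)
    (s : St) : Prop where
  scan : IsScan G (fun v => v < n ∧ alw v = 1) L ord BK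
  ord_ : seg (s.m ORD) 0 (s.r rno) = ord
  rs_ : ∀ i, (h : i < ord.length) → s.m RS i = (BK ord[i]).length
  be1 : ∀ v < n, s.m OFF v ≤ s.m BE v
  be2 : ∀ v < n, s.m BE v ≤ s.m OFF (v + 1)
  bk_ : ∀ v < n, alw v = 1 → seg (s.m BKA) (s.m OFF v) (s.m BE v) = BK v
  bk0 : ∀ v < n, alw v ≠ 1 → s.m BE v = s.m OFF v
  fw : ∀ v < n, s.m FW v = ((range n).filter (fun y => alw y = 1 ∧ v ∈ BK y)).card

theorem ScM.scanP {n m L : ℕ} {G : SimpleGraph ℕ} {adj off alw : ℕ → ℕ}
    (ha : AdjP n m G off adj) {N : ℕ} {s : St} (h : ScM n L G off adj alw N s)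
    (hgo : s.r rgo ≠ 1) : ∃ ord BK, ScanP n L G alw ord BK s := by
  obtain ⟨ord, Sk, hk, hi, ho, hb, ht, hg1, hg0, hN⟩ := h
  have hall := hg0 (by omega)
  have hCC := bkf_CC (n := n) (L := L) (G := G) (alw := alw) ho.nd
  refine ⟨ord, bkf G L ord, ho.isScan (fun y hy => hall y hy.1 hy.2), hi.ord_, hi.rs, ?_, ?_, ?_,
    ?_, hi.fw⟩
  · intro v hv
    rw [hk.off_]
    by_cases hvP : alw v = 1
    · rw [hi.be v hv hvP]; omega
    · rw [hi.be0 v hv hvP]
  · intro v hv
    rw [hk.off_]
    by_cases hvP : alw v = 1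
    · rw [hi.be v hv hvP]
      exact ha.len_le hv (hCC v hv hvP).1 (hCC v hv hvP).2.1
    · rw [hi.be0 v hv hvP]; exact ha.mono v hv
  · intro v hv hvP
    rw [hk.off_, hi.be v hv hvP]
    exact hi.bk v hv hvP
  · intro v hv hvP
    rw [hk.off_]; exact hi.be0 v hv hvP

/-- sharp form of the cost bound -/
theorem pScan_sharp {n m L : ℕ} {G : SimpleGraph ℕ} (hG : Inn n G) {s : St} (hn : s.r rn = n)
    (hL : s.r rL = L) (ha : AdjP n m G (s.m OFF) (s.m ADJ)) :
    Tri s pScan (800 * n + 1000 * m + 20 * L + 120)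
      (fun s' => ∃ ord BK, ScanP n L G (s.m ALW) ord BK s') := by
  have hk : ScK n L (s.m OFF) (s.m ADJ) (s.m ALW) s := ⟨hn, hL, rfl, rfl, rfl⟩
  refine Tri.seq (B1 := 100 * n + 20 * L + 60) (B2 := 700 * n + 1000 * m + 54)
    ((pScan0_spec ha hk).imp ?_) (by omega)
  rintro s1 ⟨N, h1, h2⟩
  refine (Tri.loopG (I := fun N s' => ScM n L G (s.m OFF) (s.m ADJ) (s.m ALW) N s') ?_ ?_ N s1
    h1).cost ?_
  · intro N' s2 h3 hb
    exact pScan1_step hG ha N' s2 h3 (of_decide_eq_true hb)
  · intro N' s2 h3 hb
    exact h3.scanP ha (of_decide_eq_false hb)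
  · simp only [Cond.cost, Exp.cost]; omega

theorem pScan_spec {n m L : ℕ} {G : SimpleGraph ℕ} (hG : Inn n G) {s : St} (hn : s.r rn = n)
    (hL : s.r rL = L) (ha : AdjP n m G (s.m OFF) (s.m ADJ)) :
    Tri s pScan (2000 * (n + m + L + 1)) (fun s' => ∃ ord BK, ScanP n L G (s.m ALW) ord BK s') :=
  (pScan_sharp hG hn hL ha).cost (by omega)

end TL
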