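import Pool.Agent.W_3fea_h44.Logic

/-!
# The program

Registers and arrays have names (numerals).  All arrays and all registers other than the input
are `0` at the start.
-/

namespace TL

/-! ### registers -/

abbrev rn : ℕ := 0
abbrev rm : ℕ := 1
abbrev rk : ℕ := 2
abbrev rans : ℕ := 3
abbrev rt : ℕ := 4
abbrev rN : ℕ := 5
abbrev rdel : ℕ := 6
abbrev rD : ℕ := 7
abbrev rg : ℕ := 8
abbrev rtau : ℕ := 9
abbrev rL : ℕ := 10
abbrev rq : ℕ := 11
abbrev rqq : ℕ := 12
abbrev rnA : ℕ := 13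
abbrev rng : ℕ := 14
abbrev rnn : ℕ := 15
abbrev rnE : ℕ := 16
abbrev rnK : ℕ := 17
abbrev rnT : ℕ := 18
abbrev rmb : ℕ := 19
abbrev rsp : ℕ := 20
abbrev rkp : ℕ := 21
abbrev rlim : ℕ := 22
abbrev rlim2 : ℕ := 23
abbrev rst : ℕ := 24
abbrev rrun : ℕ := 25
abbrev rx : ℕ := 26
abbrev rc : ℕ := 27
abbrev rnM : ℕ := 28
abbrev rnp : ℕ := 29
abbrev rnU : ℕ := 30
abbrev rnA1 : ℕ := 31
abbrev rK : ℕ := 32
abbrev rno : ℕ := 33
abbrev rfr : ℕ := 34
abbrev rb : ℕ := 35
abbrev rfnd : ℕ := 36
abbrev rbd : ℕ := 37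
abbrev rcd : ℕ := 38
abbrev rn1 : ℕ := 39
abbrev rok : ℕ := 40
-- local registers
abbrev ri : ℕ := 41
abbrev rj : ℕ := 42
abbrev rp : ℕ := 43
abbrev ru : ℕ := 44
abbrev rv : ℕ := 45
abbrev ry : ℕ := 46
abbrev rz : ℕ := 47
abbrev ra : ℕ := 48
abbrev re : ℕ := 49
abbrev rh : ℕ := 50
abbrev rhi : ℕ := 51
abbrev rgo : ℕ := 52
abbrev rs : ℕ := 53
abbrev rw : ℕ := 54
abbrev rsz : ℕ := 55
abbrev rmx : ℕ := 56
abbrev rd : ℕ := 57
abbrev rpa : ℕ := 58
abbrev rpb : ℕ := 59
abbrev rtot : ℕ := 60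
abbrev rcn : ℕ := 61
abbrev rth : ℕ := 62
abbrev rt1 : ℕ := 63
abbrev rt2 : ℕ := 64
abbrev rl : ℕ := 65
abbrev rii : ℕ := 66
abbrev rjj : ℕ := 67
abbrev rjh : ℕ := 68
abbrev rqd : ℕ := 69

/-! ### arrays -/

abbrev EU : ℕ := 0
abbrev EV : ℕ := 1
abbrev SA : ℕ := 2
abbrev AX : ℕ := 3
abbrev AY : ℕ := 4
abbrev KEY : ℕ := 5
abbrev HEAD : ℕ := 6
abbrev NXT : ℕ := 7
abbrev DOFF : ℕ := 8
abbrev BX : ℕ := 9
abbrev BY : ℕ := 10
abbrev OFF : ℕ := 11
abbrev ADJ : ℕ := 12
abbrev DEG : ℕ := 13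
abbrev AL : ℕ := 14
abbrev GI : ℕ := 15
abbrev OFA : ℕ := 16
abbrev ADA : ℕ := 17
abbrev ALW : ℕ := 18
abbrev RR : ℕ := 19
abbrev SC : ℕ := 20
abbrev BKA : ℕ := 21
abbrev BE : ℕ := 22
abbrev FW : ℕ := 23
abbrev STH : ℕ := 24
abbrev STN : ℕ := 25
abbrev STV : ℕ := 26
abbrev ORD : ℕ := 27
abbrev RS : ℕ := 28
abbrev CE : ℕ := 29
abbrev CV : ℕ := 30
abbrev BAD : ℕ := 31
abbrev NODE : ℕ := 32
abbrev PAR : ℕ := 33
abbrev LAB : ℕ := 34
abbrev CH : ℕ := 35
abbrev STP : ℕ := 36
abbrev CX : ℕ := 37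
abbrev SX : ℕ := 38
abbrev CY : ℕ := 39
abbrev SY : ℕ := 40
abbrev KX : ℕ := 41
abbrev KY : ℕ := 42
abbrev CNT : ℕ := 43
abbrev TB : ℕ := 44
abbrev INS : ℕ := 45
abbrev MU : ℕ := 46
abbrev MM : ℕ := 47
abbrev CN : ℕ := 48
abbrev FL : ℕ := 49
abbrev CM : ℕ := 50
abbrev MP : ℕ := 51
abbrev MB : ℕ := 52
abbrev DP : ℕ := 53
abbrev RM : ℕ := 54
abbrev UL : ℕ := 55
abbrev PQ : ℕ := 56
abbrev SV : ℕ := 57
abbrev SD : ℕ := 58

/-! ### preprocessing -/

/-- arcs and degrees -/
def pArcs : Cmd :=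
  .blk [
    .set rN (K 0),
    .for_ ri (K 0) rm (.blk [
      .set ru (A EU (V ri)),
      .set rv (A EV (V ri)),
      .put AX (V rN) (V ru), .put AY (V rN) (V rv), .incr rN,
      .put AX (V rN) (V rv), .put AY (V rN) (V ru), .incr rN,
      .put DEG (V ru) (.inc (A DEG (V ru))),
      .put DEG (V rv) (.inc (A DEG (V rv)))])]

/-- stable bucket distribution of the records `(AX i, AY i)`, `i < N`, by `KEY i < K` -/
def pDist : Cmd :=
  .blk [
    .for_ ri (K 0) rK (.put HEAD (V ri) (K 0)),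
    .set ri (V rN),
    .loop (.lt (K 0) (V ri)) (.blk [
      .decr ri,
      .put NXT (V ri) (A HEAD (A KEY (V ri))),
      .put HEAD (A KEY (V ri)) (.inc (V ri))]),
    .set rp (K 0),
    .for_ ri (K 0) rK (.blk [
      .put DOFF (V ri) (V rp),
      .set rh (A HEAD (V ri)),
      .loop (.ne (V rh) (K 0)) (.blk [
        .put BX (V rp) (A AX (.dec (V rh))),
        .put BY (V rp) (A AY (.dec (V rh))),
        .incr rp,
        .set rh (A NXT (.dec (V rh)))])]),
    .put DOFF (V rK) (V rp)]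

/-- adjacency lists -/
def pAdj : Cmd :=
  .blk [
    .for_ ri (K 0) rN (.put KEY (V ri) (A AX (V ri))),
    .set rK (V rn),
    pDist,
    .for_ ri (K 0) rN (.put ADJ (V ri) (A BY (V ri))),
    .set rn1 (.inc (V rn)),
    .for_ ri (K 0) rn1 (.put OFF (V ri) (A DOFF (V ri)))]

/-- `y := 2 ^ x` -/
def pPow (x y : ℕ) : Cmd :=
  .blk [
    .set y (K 1),
    .for_ ri (K 0) x (.blk [.set rt1 (V y), .for_ rj (K 0) rt1 (.incr y)])]

/-- constant for `δ` -/
abbrev cdel : ℕ := 20
/-- constant for `g` -/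
abbrev cg : ℕ := 40

/-- `x := x + c` -/
def pInc (x : ℕ) : ℕ → Cmd
  | 0 => .skip
  | c + 1 => .seq (.incr x) (pInc x c)

/-- thresholds -/
def pConst : Cmd :=
  .blk [
    .set ru (V rk), pInc ru cdel, pPow ru rv, pPow rv rdel,
    .set ru (V rk), pInc ru cg, pPow ru rv, pPow rv rg,
    .set rq (K 0), .for_ ri (K 0) rk (pInc rq 4),
    .set rz (.inc (V rq)),
    .set rqq (K 0), .for_ ri (K 0) rq (.for_ rj (K 0) rz (.incr rqq)),
    .set rD (V rdel), .for_ ri (K 0) rk (.incr rD),
    .set rth (K 0), .set rcn (K 0),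
    .for_ ri (K 0) rn (.blk [.incr rcn,
      .whn (.eq (V rcn) (V rg)) (.blk [.set rcn (K 0), .incr rth])]),
    .for_ ri (K 0) rm (.blk [.incr rcn,
      .whn (.eq (V rcn) (V rg)) (.blk [.set rcn (K 0), .incr rth])]),
    .set rtau (V rD),
    .whn (.lt (V rD) (V rth)) (.set rtau (V rth))]

/-- the lists of the vertices of degree at least `δ`, of the giants, and the lists of the
neighbours of degree at least `δ` -/
def pLists : Cmd :=
  .blk [
    .set rnA (K 0), .set rng (K 0), .set rp (K 0),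
    .for_ ri (K 0) rn (.blk [
      .whn (.not (.lt (A DEG (V ri)) (V rdel))) (.blk [.put AL (V rnA) (V ri), .incr rnA]),
      .whn (.not (.lt (A DEG (V ri)) (V rtau))) (.blk [.put GI (V rng) (V ri), .incr rng]),
      .put OFA (V ri) (V rp),
      .set rhi (A OFF (.inc (V ri))),
      .for_ rj (A OFF (V ri)) rhi (.blk [
        .set ry (A ADJ (V rj)),
        .whn (.not (.lt (A DEG (V ry)) (V rdel))) (.blk [.put ADA (V rp) (V ry), .incr rp])])]),
    .put OFA (V rn) (V rp)]

/-- push vertex `ry` on stack `re` -/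
def pPush : Cmd :=
  .blk [
    .put STV (V rfr) (V ry),
    .put STN (V rfr) (A STH (V re)),
    .incr rfr,
    .put STH (V re) (V rfr)]

/-- initialisation of the scan -/
def pScan0 : Cmd :=
  .blk [
    .for_ ri (K 0) rn (.blk [
      .put RR (V ri) (K 0), .put SC (V ri) (K 0), .put BE (V ri) (A OFF (V ri)),
      .put FW (V ri) (K 0)]),
    .set rhi (.inc (V rL)),
    .for_ ri (K 0) rhi (.put STH (V ri) (K 0)),
    .set rfr (K 0),
    .set re (K 0),
    .for_ ri (K 0) rn (.whn (.eq (A ALW (V ri)) (K 1)) (.blk [.set ry (V ri), pPush])),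
    .set rb (K 0),
    .set rno (K 0),
    .set rgo (K 1)]

/-- scan of the vertex `rv` -/
def pScanV : Cmd :=
  .blk [
    .put SC (V rv) (K 1),
    .put ORD (V rno) (V rv),
    .put RS (V rno) (V rb),
    .incr rno,
    .set rhi (A OFF (.inc (V rv))),
    .for_ rj (A OFF (V rv)) rhi (.blk [
      .set ry (A ADJ (V rj)),
      .whn (.all [.eq (A ALW (V ry)) (K 1), .eq (A SC (V ry)) (K 0), .lt (A RR (V ry)) (V rL)])
        (.blk [
          .put BKA (A BE (V ry)) (V rv),
          .put BE (V ry) (.inc (A BE (V ry))),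
          .put FW (V rv) (.inc (A FW (V rv))),
          .put RR (V ry) (.inc (A RR (V ry))),
          .set re (A RR (V ry)),
          pPush])]),
    .whn (.lt (V rb) (V rL)) (.incr rb)]

/-- one step of the scan -/
def pScan1 : Cmd :=
  .ite (.eq (A STH (V rb)) (K 0))
    (.ite (.eq (V rb) (K 0)) (.set rgo (K 0)) (.decr rb))
    (.blk [
      .set ra (.dec (A STH (V rb))),
      .set rv (A STV (V ra)),
      .put STH (V rb) (A STN (V ra)),
      .whn (.and (.eq (A SC (V rv)) (K 0)) (.eq (A RR (V rv)) (V rb))) pScanV])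

/-- maximum adjacency scan with cap `L` of the graph induced on the vertices with `ALW = 1` -/
def pScan : Cmd := .seq pScan0 (.loop (.eq (V rgo) (K 1)) pScan1)

/-- components of the graph minus the giants -/
def pComps : Cmd :=
  .blk [
    .for_ ri (K 0) rn (.blk [
      .put CE (V ri) (V rn),
      .put ALW (V ri) (K 0),
      .whn (.lt (A DEG (V ri)) (V rtau)) (.put ALW (V ri) (K 1))]),
    .set rL (K 1),
    pScan,
    .set rnE (V rn), .set rsz (K 0), .set rmx (K 0),
    .for_ ri (K 0) rno (.blk [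
      .set rv (A ORD (V ri)),
      .whn (.eq (A RS (V ri)) (K 0)) (.blk [
        .whn (.lt (.inc (V rmx)) (V rsz)) (.put BAD (V rnE) (K 1)),
        .incr rnE,
        .put CV (V rnE) (V rv),
        .set rsz (K 0), .set rmx (K 0)]),
      .incr rsz,
      .put CE (V rv) (V rnE),
      .set rd (K 0),
      .set rhi (A OFF (.inc (V rv))),
      .for_ rj (A OFF (V rv)) rhi (.whn (.lt (A DEG (A ADJ (V rj))) (V rtau)) (.incr rd)),
      .whn (.lt (V rmx) (V rd)) (.set rmx (V rd))]),
    .whn (.lt (.inc (V rmx)) (V rsz)) (.put BAD (V rnE) (K 1))]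

/-- certificate of the whole graph -/
def pCert : Cmd :=
  .blk [
    .for_ ri (K 0) rn (.put ALW (V ri) (K 1)),
    .set rL (.inc (V rq)),
    pScan]

/-- one refinement step of element `re` by the giant `rv` -/
def pStep : Cmd :=
  .blk [
    .set rp (A NODE (V re)),
    .whn (.ne (A LAB (V rp)) (.inc (V rv))) (.blk [
      .whn (.ne (A STP (V rp)) (.inc (V rv))) (.blk [
        .put PAR (V rnn) (V rp),
        .put LAB (V rnn) (.inc (V rv)),
        .put CH (V rp) (V rnn),
        .put STP (V rp) (.inc (V rv)),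
        .incr rnn]),
      .put NODE (V re) (A CH (V rp))])]

/-- partition refinement -/
def pRefine : Cmd :=
  .blk [
    .for_ ri (K 0) rng (.put NODE (A GI (V ri)) (.inc (V ri))),
    .set rnn (.inc (V rng)),
    .for_ ri (K 0) rng (.blk [
      .set rv (A GI (V ri)),
      .set rhi (A OFF (.inc (V rv))),
      .for_ rj (A OFF (V rv)) rhi (.blk [
        .set re (A ADJ (V rj)), pStep,
        .set re (A CE (A ADJ (V rj))), pStep]),
      .set re (V rv), pStep])]

/-- sort the arcs by classes of the ends -/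
def pSort : Cmd :=
  .blk [
    .set rK (V rnn),
    .for_ ri (K 0) rN (.put KEY (V ri) (A NODE (A AY (V ri)))),
    pDist,
    .for_ ri (K 0) rN (.blk [.put AX (V ri) (A BX (V ri)), .put AY (V ri) (A BY (V ri))]),
    .for_ ri (K 0) rN (.put KEY (V ri) (A NODE (A AX (V ri)))),
    pDist]

/-- kernel -/
def pKer : Cmd :=
  .blk [
    .set rnK (K 0), .set rrun (K 0), .set rtot (K 0), .set rpa (V rnn), .set rpb (V rnn),
    .for_ ri (K 0) rN (.blk [
      .set rx (A BX (V ri)), .set ry (A BY (V ri)),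
      .set ra (A NODE (V rx)), .set re (A NODE (V ry)),
      .whn (.not (.and (.eq (V ra) (V rpa)) (.eq (V re) (V rpb)))) (.blk [
        .incr rrun, .set rtot (K 0), .set rpa (V ra), .set rpb (V re)]),
      .whn (.ne (A SX (V rx)) (V rrun)) (.blk [.put SX (V rx) (V rrun), .put CX (V rx) (K 0)]),
      .whn (.ne (A SY (V ry)) (V rrun)) (.blk [.put SY (V ry) (V rrun), .put CY (V ry) (K 0)]),
      .whn (.all [.ne (V ra) (V re), .not (.lt (V rq) (A CX (V rx))),
          .not (.lt (V rq) (A CY (V ry))), .not (.lt (V rqq) (V rtot))]) (.blk [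
        .put KX (V rnK) (V rx), .put KY (V rnK) (V ry), .incr rnK,
        .put CX (V rx) (.inc (A CX (V rx))), .put CY (V ry) (.inc (A CY (V ry))), .incr rtot])])]

/-- table of bad components -/
def pTable : Cmd :=
  .blk [
    .set rnT (K 0),
    .set rhi (.inc (V rnE)),
    .for_ ri (.inc (V rn)) rhi (.whn (.eq (A BAD (V ri)) (K 1)) (.blk [
      .set ra (A NODE (V ri)),
      .whn (.not (.lt (V rk) (A CNT (V ra)))) (.blk [
        .put CNT (V ra) (.inc (A CNT (V ra))),
        .put TB (V rnT) (V ri),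
        .incr rnT])]))]

/-- preprocessing -/
def pPrep : Cmd :=
  .blk [pArcs, pAdj, pConst, pLists, pComps, pCert, pRefine, pSort, pKer, pTable]

/-! ### the routines at a node -/

/-- add the edge `(ra, ry)` to the matching -/
def pAdd : Cmd :=
  .blk [
    .put MM (V ra) (K 1), .put MM (V ry) (K 1),
    .put PQ (V rnp) (V ra), .incr rnp,
    .put PQ (V rnp) (V ry), .incr rnp,
    .incr rnM]

/-- mark `U` -/
def pMarkU : Cmd :=
  .blk [
    .put UL (K 0) (V rc), .put MU (V rc) (K 1), .set rnU (K 1),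
    .set rhi (A OFF (.inc (V rc))),
    .for_ rp (A OFF (V rc)) rhi (.blk [
      .set ry (A ADJ (V rp)),
      .whn (.eq (A INS (V ry)) (K 0)) (.blk [
        .put UL (V rnU) (V ry), .put MU (V ry) (K 1), .incr rnU])])]

/-- phase (i) -/
def pEx1 : Cmd :=
  .for_ rj (K 0) rnU (.blk [
    .set ra (A UL (V rj)),
    .set rhi (A BE (V ra)),
    .for_ rp (A OFF (V ra)) rhi (.blk [
      .set ry (A BKA (V rp)),
      .ite (.eq (A INS (V ry)) (K 1)) (.put FL (V ry) (K 1))
        (.ite (.eq (A MU (V ry)) (K 1)) (.put CN (V ry) (.inc (A CN (V ry))))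
          (.whn (.all [.eq (A MM (V ra)) (K 0), .eq (A MM (V ry)) (K 0),
            .lt (V rnM) (V rlim)]) pAdd))])])

/-- phase (ii) -/
def pEx2 : Cmd :=
  .for_ rj (K 0) rt (.blk [
    .set rs (A SA (V rj)),
    .set rhi (A BE (V rs)),
    .for_ rp (A OFF (V rs)) rhi (.blk [
      .set ry (A BKA (V rp)),
      .whn (.eq (A MU (V ry)) (K 1)) (.blk [
        .put CN (V ry) (.inc (A CN (V ry))), .put FL (V rs) (K 1)])])])

/-- phase (iii) -/
def pEx3 : Cmd :=
  .for_ rj (K 0) rnU (.blk [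
    .set ra (A UL (V rj)),
    .whn (.all [.eq (A MM (V ra)) (K 0), .lt (V rnM) (V rlim),
      .ne (A FW (V ra)) (A CN (V ra))]) (.blk [
        .set rhi (A OFF (.inc (V ra))),
        .set rp (A OFF (V ra)),
        .set rgo (K 1),
        .loop (.and (.eq (V rgo) (K 1)) (.lt (V rp) (V rhi))) (.blk [
          .set ry (A ADJ (V rp)),
          .ite (.all [.eq (A INS (V ry)) (K 0), .eq (A MU (V ry)) (K 0), .eq (A MM (V ry)) (K 0)])
            (.blk [pAdd, .set rgo (K 0)]) (.incr rp)])])])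

/-- examination of `N[c]` -/
def pExam : Cmd :=
  .blk [
    pMarkU, pEx1, pEx2, pEx3,
    .for_ rj (K 0) rnU (.put CN (A UL (V rj)) (K 0))]

/-- test for a giant `c` -/
def pGtest : Cmd :=
  .blk [
    .for_ rj (K 0) rnn (
      .ite (.eq (A LAB (V rj)) (K 0)) (.put CM (V rj) (K 0))
        (.ite (.eq (A LAB (V rj)) (.inc (V rc))) (.put CM (V rj) (K 1))
          (.put CM (V rj) (A CM (A PAR (V rj)))))),
    .for_ rj (K 0) rnK (.blk [
      .set ra (A KX (V rj)), .set ry (A KY (V rj)),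
      .whn (.all [.eq (A CM (A NODE (V ra))) (K 1), .eq (A CM (A NODE (V ry))) (K 0),
        .eq (A INS (V ra)) (K 0), .eq (A INS (V ry)) (K 0),
        .eq (A MM (V ra)) (K 0), .eq (A MM (V ry)) (K 0), .lt (V rnM) (V rlim)]) pAdd])]

/-- is the component of `c` known to be closed? -/
def pMemoChk : Cmd :=
  .blk [
    .set rfnd (K 0),
    .set re (A MP (V rc)),
    .loop (.and (.ne (V re) (K 0)) (.eq (V rfnd) (K 0))) (.blk [
      .set rp (.inc (V re)),
      .set rok (K 1),
      .loop (.ne (A MB (V rp)) (K 0)) (.blk [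
        .whn (.eq (A INS (.dec (A MB (V rp)))) (K 0)) (.set rok (K 0)),
        .incr rp]),
      .set rfnd (V rok),
      .set re (A MB (V re))])]

/-- store the record of `c` -/
def pMemoAdd : Cmd :=
  .blk [
    .put MB (V rmb) (A MP (V rc)),
    .put MP (V rc) (V rmb),
    .incr rmb,
    .for_ rj (K 0) rt (.blk [
      .set rs (A SA (V rj)),
      .whn (.eq (A FL (V rs)) (K 1)) (.blk [.put MB (V rmb) (.inc (V rs)), .incr rmb])]),
    .put MB (V rmb) (K 0),
    .incr rmb]

/-- unmark -/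
def pClean : Cmd :=
  .blk [
    .for_ rj (K 0) rnU (.put MU (A UL (V rj)) (K 0)),
    .for_ rj (K 0) rnp (.put MM (A PQ (V rj)) (K 0)),
    .for_ rj (K 0) rt (.put FL (A SA (V rj)) (K 0)),
    .set rnU (K 0), .set rnp (K 0), .set rnM (K 0)]

/-- unmark the classes -/
def pCleanG : Cmd := .for_ rj (K 0) rnn (.put CM (V rj) (K 0))

/-- try to append `ry` -/
def pTry : Cmd :=
  .whn (.all [.eq (A INS (V ry)) (K 0), .eq (A MU (V ry)) (K 0),
    .eq (A CM (A NODE (V ry))) (K 0), .eq (A MM (V ry)) (K 0)]) (.blk [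
      .put MM (V ry) (K 1), .put PQ (V rnp) (V ry), .incr rnp])

/-- push the vertex `ry` with depth `rt` on the stack of the search -/
def pSpush : Cmd :=
  .blk [.put SV (V rsp) (V ry), .put SD (V rsp) (V rt), .incr rsp]

/-- branching -/
def pBranch : Cmd :=
  .blk [
    .set rlim2 (V rnM),
    .for_ rj (K 0) rkp (.incr rlim2),
    .set rii (K 0),
    .loop (.and (.lt (V rii) (V rnp)) (.not (.lt (V rlim2) (V rnp)))) (.blk [
      .set ra (A PQ (V rii)),
      .incr rii,
      .ite (.or (.lt (A DEG (V rc)) (V rtau)) (.lt (A DEG (V ra)) (V rtau)))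
        (.blk [
          .set rp (A OFF (V ra)),
          .set rhi (A OFF (.inc (V ra))),
          .loop (.and (.lt (V rp) (V rhi)) (.not (.lt (V rlim2) (V rnp)))) (.blk [
            .set ry (A ADJ (V rp)), pTry, .incr rp])])
        (.for_ rj (K 0) rnK (.whn (.and (.eq (A KX (V rj)) (V ra)) (.not (.lt (V rlim2) (V rnp))))
          (.blk [.set ry (A KY (V rj)), pTry])))]),
    .whn (.lt (V rt) (V rk)) (.blk [
      .set ry (V rx), pSpush,
      .set ry (V rc), pSpush,
      .for_ rj (K 0) rnp (.blk [.set ry (A PQ (V rj)), pSpush])]),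
    .set rst (K 1)]

/-- `c :=` the best vertex of `N[x]` among the vertices of degree at least `δ` -/
def pArgmax : Cmd :=
  .blk [
    .set rc (V rx),
    .set rhi (A OFA (.inc (V rx))),
    .for_ rp (A OFA (V rx)) rhi (.blk [
      .set ry (A ADA (V rp)),
      .whn (.and (.eq (A INS (V ry)) (K 0))
        (.or (.lt (A DP (V rc)) (A DP (V ry)))
          (.and (.eq (A DP (V rc)) (A DP (V ry))) (.lt (V ry) (V rc)))))
        (.set rc (V ry))])]

/-- mark `N[c]` as removed -/
def pRemove : Cmd :=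
  .blk [
    .put RM (V rc) (K 1),
    .set rhi (A OFA (.inc (V rc))),
    .for_ rp (A OFA (V rc)) rhi (.blk [
      .set ry (A ADA (V rp)),
      .whn (.eq (A INS (V ry)) (K 0)) (.put RM (V ry) (K 1))])]

/-- treatment of a vertex `x` of degree at least `δ` -/
def pTreat : Cmd :=
  .blk [
    pArgmax,
    .ite (.lt (A DEG (V rc)) (V rtau))
      (.blk [
        pMemoChk,
        .whn (.eq (V rfnd) (K 0)) (.blk [
          pExam,
          .whn (.eq (V rnM) (K 0)) pMemoAdd])])
      pGtest,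
    .ite (.eq (V rnM) (K 0)) pRemove pBranch,
    pClean,
    .ite (.lt (A DEG (V rc)) (V rtau)) .skip pCleanG]

/-- the loop over the vertices of degree at least `δ` -/
def pAloop : Cmd :=
  .blk [
    .set ri (K 0),
    .loop (.and (.lt (V ri) (V rnA)) (.eq (V rst) (K 0))) (.blk [
      .set rx (A AL (V ri)),
      .incr ri,
      .whn (.all [.eq (A INS (V rx)) (K 0), .eq (A RM (V rx)) (K 0),
        .not (.lt (A DP (V rx)) (V rdel))]) pTreat])]

/-- `rcd :=` number of the neighbours of `rv` outside `S'` -/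
def pDeg : Cmd :=
  .ite (.lt (A DEG (V rv)) (V rdel))
    (.blk [
      .set rcd (K 0),
      .set rhi (A OFF (.inc (V rv))),
      .for_ rp (A OFF (V rv)) rhi (.whn (.eq (A INS (A ADJ (V rp))) (K 0)) (.incr rcd))])
    (.set rcd (A DP (V rv)))

/-- treatment of a vertex `x` in a component in which all degrees are small -/
def pLow : Cmd :=
  .blk [
    .set rc (V rx),
    .set rv (V rx), pDeg, .set rbd (V rcd),
    .set rjh (A OFF (.inc (V rx))),
    .for_ rj (A OFF (V rx)) rjh (.blk [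
      .set rv (A ADJ (V rj)),
      .whn (.eq (A INS (V rv)) (K 0)) (.blk [
        pDeg,
        .whn (.lt (V rbd) (V rcd)) (.blk [.set rbd (V rcd), .set rc (V rv)])])]),
    .whn (.lt (V rbd) (V rdel)) (.blk [
      pExam,
      .whn (.ne (V rnM) (K 0)) pBranch,
      pClean])]

/-- the loop over the neighbours of the vertices of `S'` which are not giants -/
def pLowloop : Cmd :=
  .blk [
    .set ri (K 0),
    .loop (.and (.lt (V ri) (V rt)) (.eq (V rst) (K 0))) (.blk [
      .set rs (A SA (V ri)),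
      .incr ri,
      .whn (.lt (A DEG (V rs)) (V rtau)) (.blk [
        .set rl (A OFF (V rs)),
        .set rqd (A OFF (.inc (V rs))),
        .loop (.and (.lt (V rl) (V rqd)) (.eq (V rst) (K 0))) (.blk [
          .set rx (A ADJ (V rl)),
          .incr rl,
          .whn (.and (.eq (A INS (V rx)) (K 0)) (.lt (A DEG (V rx)) (V rD))) pLow])])])]

/-- the loop over the table -/
def pTabloop : Cmd :=
  .blk [
    .set ri (K 0),
    .loop (.and (.lt (V ri) (V rnT)) (.eq (V rst) (K 0))) (.blk [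
      .set re (A TB (V ri)),
      .incr ri,
      .set rok (K 1),
      .set ra (A NODE (V re)),
      .loop (.ne (A LAB (V ra)) (K 0)) (.blk [
        .whn (.eq (A INS (.dec (A LAB (V ra)))) (K 0)) (.set rok (K 0)),
        .set ra (A PAR (V ra))]),
      .for_ rj (K 0) rt (.whn (.eq (A CE (A SA (V rj))) (V re)) (.set rok (K 0))),
      .whn (.eq (V rok) (K 1)) (.blk [
        .set rx (A CV (V re)),
        .whn (.lt (A DEG (V rx)) (V rD)) pLow])])]

/-- initialisation at a node -/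
def pInit : Cmd :=
  .blk [
    .set rst (K 0),
    .set rkp (K 0),
    .set rlim (K 1),
    .for_ ri (V rt) rk (.blk [.incr rkp, .incr rlim, .incr rlim]),
    .for_ ri (K 0) rt (.put INS (A SA (V ri)) (K 1)),
    .for_ ri (K 0) rnA (.blk [
      .put DP (A AL (V ri)) (A DEG (A AL (V ri))),
      .put RM (A AL (V ri)) (K 0)]),
    .for_ ri (K 0) rt (.blk [
      .set rs (A SA (V ri)),
      .set rhi (A OFA (.inc (V rs))),
      .for_ rp (A OFA (V rs)) rhi (.put DP (A ADA (V rp)) (.dec (A DP (A ADA (V rp)))))])]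

/-- a node of the search tree -/
def pNode : Cmd :=
  .blk [
    pInit, pAloop, pLowloop, pTabloop,
    .for_ ri (K 0) rt (.put INS (A SA (V ri)) (K 0))]

/-- the search -/
def pSearch : Cmd :=
  .blk [
    .set rt (K 0), .set rsp (K 0), .set rmb (K 1), .set rnM (K 0), .set rnp (K 0), .set rnU (K 0),
    .set rgo (K 0), .set rrun (K 1),
    .loop (.eq (V rrun) (K 1)) (.blk [
      pNode,
      .ite (.eq (V rst) (K 0)) (.blk [.set rans (K 1), .set rrun (K 0)])
        (.ite (.eq (V rsp) (K 0)) (.set rrun (K 0))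
          (.blk [
            .decr rsp,
            .set rt (A SD (V rsp)),
            .put SA (V rt) (A SV (V rsp)),
            .incr rt]))])]

/-- the program -/
def prog : Cmd := .seq pPrep pSearch

end TL
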