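import Pool.Agent.W_3fea_h44.SearchDefs
import Pool.Agent.W_3fea_h44.NNode

/-! # Auxiliary facts on the search -/

namespace TL

open Relation Finset Classical

variable {n m k : ℕ} {G : SimpleGraph ℕ} {D : St}

/-- weight of a stack -/
def ws (k : ℕ) (stk : List (ℕ × ℕ)) : ℕ := (stk.map (fun e => wt k (e.2 + 1))).sum

@[simp] theorem ws_nil : ws k [] = 0 := rfl

theorem ws_append (l1 l2 : List (ℕ × ℕ)) : ws k (l1 ++ l2) = ws k l1 + ws k l2 := by
  simp [ws]

theorem ws_map (Q : List ℕ) (d : ℕ) : ws k (Q.map (fun y => (y, d))) = Q.length * wt k (d + 1) := by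
  induction Q with
  | nil => simp [ws]
  | cons a Q ih =>
    simp only [ws, List.map_cons, List.sum_cons, List.length_cons] at ih ⊢
    rw [ih]; ring

/-- the termination measure -/
def sM (k : ℕ) (s : St) : ℕ :=
  if s.r rrun = 1 then
    wt k (s.r rt) + ((List.range (s.r rsp)).map (fun i => wt k (s.m SD i + 1))).sum
  else 0

theorem Stk.ws {s : St} {stk : List (ℕ × ℕ)} (h : Stk s stk) :
    ((List.range (s.r rsp)).map (fun i => wt k (s.m SD i + 1))).sum = ws k stk := by
  rw [h.1]
  unfold TL.ws
  congr 1
  apply List.ext_getElem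
  · simp
  · intro i h1 h2
    simp only [List.getElem_map, List.getElem_range]
    have h3 : i < stk.length := by simpa using h2
    rw [(h.2 i h3).2]

theorem sM_eq {S : List ℕ} {s : St} {stk : List (ℕ × ℕ)} (h : Stk s stk) (hr : s.r rrun = 1)
    (hS : seg (s.m SA) 0 (s.r rt) = S) : sM k s = wt k S.length + ws k stk := by
  have : S.length = s.r rt := by rw [← hS]; simp
  rw [sM, if_pos hr, h.ws, this]

theorem seg_take (f : ℕ → ℕ) {l d : ℕ} (h : d ≤ l) : (seg f 0 l).take d = seg f 0 d := by
  apply List.ext_getElem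
  · simp; omega
  · intro i h1 h2
    simp [seg]

/-- entries of the stack, relative to the path `S`; `b` bounds the depths -/
structure SOK (n k b : ℕ) (S : List ℕ) (stk : List (ℕ × ℕ)) : Prop where
  ent : ∀ e ∈ stk, e.2 ≤ b ∧ e.2 < k ∧ e.1 < n ∧ e.1 ∉ S.take e.2
  srt : stk.Pairwise (fun a c => a.2 ≤ c.2)

/-- some entry of the stack leads to a solution -/
def SSol (n k : ℕ) (G : SimpleGraph ℕ) (S : List ℕ) (stk : List (ℕ × ℕ)) : Prop :=
  ∃ e ∈ stk, Sol n k G (insert e.1 (S.take e.2).toFinset)

/-- the stack after a branching at a node of depth less than `k` -/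
theorem SOK.push {S : List ℕ} {stk : List (ℕ × ℕ)} (h : SOK n k (S.length - 1) S stk)
    {Q : List ℕ} (hl : S.length < k) (hQ : ∀ y ∈ Q, y < n ∧ y ∉ S) :
    SOK n k S.length S (stk ++ Q.map (fun y => (y, S.length))) := by
  refine ⟨?_, ?_⟩
  · intro e he
    rcases List.mem_append.1 he with h' | h'
    · have := h.ent e h'
      exact ⟨by omega, this.2⟩
    · obtain ⟨y, hy, rfl⟩ := List.mem_map.1 h'
      have := hQ y hy
      refine ⟨le_rfl, hl, this.1, ?_⟩
      simpa using this.2
  · rw [List.pairwise_append]
    refine ⟨h.srt, ?_, ?_⟩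
    · rw [List.pairwise_map]
      have : ∀ Q : List ℕ, List.Pairwise (fun _ _ : ℕ => S.length ≤ S.length) Q := by
        intro Q
        induction Q with
        | nil => exact List.Pairwise.nil
        | cons a Q ih => exact List.Pairwise.cons (fun _ _ => le_rfl) ih
      exact this Q
    · intro a ha c hc
      obtain ⟨y, hy, rfl⟩ := List.mem_map.1 hc
      have := h.ent a ha
      show a.2 ≤ S.length
      omega

/-- the path after a pop -/
theorem SOK.pop {S : List ℕ} {stk : List (ℕ × ℕ)} {y d : ℕ}
    (h : SOK n k S.length S (stk ++ [(y, d)])) :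
    SOK n k ((S.take d ++ [y]).length - 1) (S.take d ++ [y]) stk := by
  have hd := h.ent (y, d) (by simp)
  have hs := h.srt
  rw [List.pairwise_append] at hs
  have hlen : (S.take d ++ [y]).length - 1 = d := by
    simp only [List.length_append, List.length_take, List.length_singleton]
    have := hd.1
    omega
  rw [hlen]
  refine ⟨?_, hs.1⟩
  intro e he
  have h1 := h.ent e (List.mem_append_left _ he)
  have h2 : e.2 ≤ d := hs.2.2 e he (y, d) (by simp)
  refine ⟨h2, h1.2.1, h1.2.2.1, ?_⟩
  have h3 : (S.take d ++ [y]).take e.2 = S.take e.2 := by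
    rw [List.take_append_of_le_length, List.take_take, min_eq_left h2]
    rw [List.length_take]
    have := hd.1
    simp only at this
    omega
  rw [h3]
  exact h1.2.2.2

theorem SSol.pop {S : List ℕ} {stk : List (ℕ × ℕ)} {y d : ℕ}
    (h : SOK n k S.length S (stk ++ [(y, d)])) (hs : SSol n k G S (stk ++ [(y, d)])) :
    Sol n k G (S.take d ++ [y]).toFinset ∨ SSol n k G (S.take d ++ [y]) stk := by
  obtain ⟨e, he, hsol⟩ := hs
  have hd := h.ent (y, d) (by simp)
  have hs := h.srt
  rw [List.pairwise_append] at hs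
  rcases List.mem_append.1 he with h' | h'
  · right
    refine ⟨e, h', ?_⟩
    have h2 : e.2 ≤ d := hs.2.2 e h' (y, d) (by simp)
    have h3 : (S.take d ++ [y]).take e.2 = S.take e.2 := by
      rw [List.take_append_of_le_length, List.take_take, min_eq_left h2]
      rw [List.length_take]
      have := hd.1
      simp only at this
      omega
    rw [h3]
    exact hsol
  · left
    rw [List.mem_singleton] at h'
    subst h'
    have : (S.take d ++ [y]).toFinset = insert y (S.take d).toFinset := by
      ext v; simp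
    rw [this]
    exact hsol

/-- the new state after a pop -/
theorem N0.pop {S : List ℕ} {s s' : St} (h : N0 n m k G D S s) {y d : ℕ} (hd : d ≤ S.length)
    (hdk : d < k) (hy : y < n) (hyS : y ∉ S.take d) (hf : Fr [rsp, rt] [SA] s s')
    (hsa : s'.m SA = Function.update (s.m SA) d y) (ht : s'.r rt = d + 1) :
    N0 n m k G D (S.take d ++ [y]) s' := by
  have hl : S.length = s.r rt := by rw [← h.sa]; simp
  refine ⟨h.prep, h.agr.fr hf (by decide) (by decide), ?_, ?_, ?_, ?_, ?_,
    h.cl.fr hf (by decide) (by decide)⟩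
  · rw [hsa, ht, seg_push _ (Nat.zero_le d)]
    congr 1
    rw [← seg_take (s.m SA) (l := s.r rt) (by omega), h.sa]
  · rw [List.nodup_append]
    refine ⟨h.nd.sublist (List.take_sublist _ _), by simp, ?_⟩
    intro a ha b hb
    rw [List.mem_singleton] at hb
    subst hb
    rintro rfl
    exact hyS ha
  · intro v hv
    rcases List.mem_append.1 hv with h' | h'
    · exact h.lt v (List.mem_of_mem_take h')
    · rw [List.mem_singleton] at h'; rw [h']; exact hy
  · simp only [List.length_append, List.length_take, List.length_singleton]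
    omega
  · intro v; rw [hf.m INS (by decide)]; exact h.ins v

theorem nbd_mono {V V' : ℕ} (h : V ≤ V') : nbd k V D ≤ nbd k V' D := by
  have : 1000 * ((k + 2) * (V + 3)) * (2 * D.r rnA + 1) ≤
      1000 * ((k + 2) * (V' + 3)) * (2 * D.r rnA + 1) :=
    Nat.mul_le_mul_right _ (Nat.mul_le_mul_left _ (Nat.mul_le_mul_left _ (by omega)))
  unfold nbd
  omega

/-- at full depth there is no solution which contains one more vertex -/
theorem no_sol_full {S : Finset ℕ} {y : ℕ} (hS : S.card = k) (hy : y ∉ S) :
    ¬ Sol n k G (insert y S) := by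
  rintro ⟨T, hT, hsub⟩
  have h1 := card_le_card hsub
  rw [card_insert_of_notMem hy] at h1
  have := hT.2.1
  omega

end TL
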