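import Pool.Agent.W_3fea_h44.NNodeDefs

/-! # Cost of the search -/

namespace TL

open Relation Finset Classical

variable {k : ℕ}

/-- weight of a node of depth `d`: number of the nodes of a complete tree below it -/
def wt (k d : ℕ) : ℕ := ∑ i ∈ range (k + 1 - d), (4 * k + 4) ^ i

theorem wt_step {d : ℕ} (h : d < k) : wt k d = 1 + (4 * k + 4) * wt k (d + 1) := by
  unfold wt
  have e1 : k + 1 - d = (k + 1 - (d + 1)) + 1 := by omega
  rw [e1, Finset.sum_range_succ', Finset.mul_sum, pow_zero, Nat.add_comm]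
  congr 1
  refine Finset.sum_congr rfl (fun i _ => ?_)
  rw [pow_succ, Nat.mul_comm]

theorem wt_pos {d : ℕ} (h : d ≤ k) : 1 ≤ wt k d := by
  unfold wt
  have e1 : k + 1 - d = (k - d) + 1 := by omega
  rw [e1, Finset.sum_range_succ', pow_zero]
  omega

/-- bound for the running time of the search -/
noncomputable def sbd (n m k : ℕ) (D : St) : ℕ :=
  100 + wt k 0 * (nbd k (wt k 0) D + 100) + (1000 * (n + 2 * m) +
      1000 * ((k + 1) * (4 * k + 2)) * D.r rnA + wt k 0 * (k * wt k 0) * e1 k (D.r rtau))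

end TL
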